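import Mathlib

/-! MP_e1e648_an, part P0: this file joins several modules to save build time. -/

noncomputable section S_Defs

/-!
# MP_e1e648_an : definitions for the proof that `QDA` has Bass stable rank one
(paper proof: /team-store/H14_e1e648.md)
-/

open MeasureTheory Set Filter Topology


namespace Pool.H14.SR

/-! ## Functions on the circle (functions on `ℝ`, only `(0,2π]` matters) -/

/-- Lebesgue measure on `(0,2π]`. -/
def mu : Measure ℝ := (volume : Measure ℝ).restrict (Set.Ioc 0 (2 * Real.pi))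

instance : IsFiniteMeasure mu := by unfold mu; infer_instance

/-- All negative Fourier coefficients vanish. -/
def HA (f : ℝ → ℂ) : Prop :=
  ∀ n : ℕ, ∫ x in Set.Ioc 0 (2 * Real.pi),
    Complex.exp (((n : ℂ) + 1) * Complex.I * (x : ℂ)) * f x = 0

/-- `‖f‖ ≤ C` almost everywhere. -/
def BD (f : ℝ → ℂ) (C : ℝ) : Prop := ∀ᵐ x ∂mu, ‖f x‖ ≤ C

/-- `H^∞` (boundary functions). -/
structure Hinf (f : ℝ → ℂ) : Prop where
  mem : MemLp f ⊤ mu
  ha : HA f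

/-- `H²` (boundary functions). -/
structure Htwo (f : ℝ → ℂ) : Prop where
  mem : MemLp f 2 mu
  ha : HA f

/-- `n`-th Fourier coefficient (`n ≥ 0`). -/
def coef (f : ℝ → ℂ) (n : ℕ) : ℂ :=
  (1 / (2 * Real.pi) : ℝ) * ∫ x in Set.Ioc 0 (2 * Real.pi),
    Complex.exp (-((n : ℂ) * Complex.I * (x : ℂ))) * f x

/-- Analytic extension to the unit disc of a function with `HA`. -/
def ext (f : ℝ → ℂ) (w : ℂ) : ℂ := ∑' n : ℕ, coef f n * w ^ n

/-! ## The half plane picture -/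

/-- The point `e^{i(x+iy)}`. -/
def E (p : ℝ × ℝ) : ℂ := Complex.exp (Complex.I * ((p.1 : ℂ) + (p.2 : ℂ) * Complex.I))

/-- A function on the disc seen as a function on the half plane. -/
def hp (f : ℂ → ℂ) (p : ℝ × ℝ) : ℂ := f (E p)

/-- `d/dζ` in the half plane coordinate: `hp (Dz f)` is the complex derivative of `ζ ↦ f (e^{iζ})`. -/
def Dz (f : ℂ → ℂ) : ℂ → ℂ := fun w => Complex.I * w * deriv f w

/-- Upper half plane and fundamental strip, as sets of `ℝ × ℝ`. -/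
def HP : Set (ℝ × ℝ) := {p | 0 < p.2}

def ST : Set (ℝ × ℝ) := {p | p.1 ∈ Set.Ioc 0 (2 * Real.pi) ∧ 0 < p.2}

/-- `u` is `C¹` on `y > -σ` with partial derivatives `ux`, `uy`, and `2π`-periodic in `x`. -/
structure C1 {V : Type*} [NormedAddCommGroup V] [NormedSpace ℝ V] (σ : ℝ)
    (u ux uy : ℝ × ℝ → V) : Prop where
  dx : ∀ p : ℝ × ℝ, -σ < p.2 → HasDerivAt (fun x : ℝ => u (x, p.2)) (ux p) p.1
  dy : ∀ p : ℝ × ℝ, -σ < p.2 → HasDerivAt (fun y : ℝ => u (p.1, y)) (uy p) p.2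
  c : ContinuousOn u {p | -σ < p.2}
  cx : ContinuousOn ux {p | -σ < p.2}
  cy : ContinuousOn uy {p | -σ < p.2}
  per : ∀ p : ℝ × ℝ, -σ < p.2 → u (p.1 + 2 * Real.pi, p.2) = u p

/-- `U` is real, has on `y > -σ` continuous first and pure second partial derivatives, and is
`2π`-periodic in `x`. -/
structure P2 (σ : ℝ) (U Ux Uxx Uy Uyy : ℝ × ℝ → ℝ) : Prop where
  dx : ∀ p : ℝ × ℝ, -σ < p.2 → HasDerivAt (fun x : ℝ => U (x, p.2)) (Ux p) p.1
  dxx : ∀ p : ℝ × ℝ, -σ < p.2 → HasDerivAt (fun x : ℝ => Ux (x, p.2)) (Uxx p) p.1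
  dy : ∀ p : ℝ × ℝ, -σ < p.2 → HasDerivAt (fun y : ℝ => U (p.1, y)) (Uy p) p.2
  dyy : ∀ p : ℝ × ℝ, -σ < p.2 → HasDerivAt (fun y : ℝ => Uy (p.1, y)) (Uyy p) p.2
  c : ContinuousOn U {p | -σ < p.2}
  cx : ContinuousOn Ux {p | -σ < p.2}
  cxx : ContinuousOn Uxx {p | -σ < p.2}
  cy : ContinuousOn Uy {p | -σ < p.2}
  cyy : ContinuousOn Uyy {p | -σ < p.2}
  per : ∀ p : ℝ × ℝ, -σ < p.2 → U (p.1 + 2 * Real.pi, p.2) = U p

/-- The kernel `q_z(ζ) = 4 y_z / |ζ - conj z|²`. -/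
def qk (z p : ℝ × ℝ) : ℝ := 4 * z.2 / ((p.1 - z.1) ^ 2 + (p.2 + z.2) ^ 2)

/-- The analytic data of the main analytic theorem, on a disc of radius `ρ > 1`. -/
structure Dat (δ ρ : ℝ) (a b F : ℂ → ℂ) : Prop where
  hδ : 0 < δ
  hδ2 : δ ≤ 1 / 2
  hρ : 1 < ρ
  ha : DifferentiableOn ℂ a (Metric.ball 0 ρ)
  hb : DifferentiableOn ℂ b (Metric.ball 0 ρ)
  hF : DifferentiableOn ℂ F (Metric.ball 0 ρ)
  ha1 : ∀ w ∈ Metric.ball (0 : ℂ) ρ, ‖a w‖ ≤ 1
  hb1 : ∀ w ∈ Metric.ball (0 : ℂ) ρ, ‖b w‖ ≤ 1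
  hab : ∀ w ∈ Metric.ball (0 : ℂ) ρ, 2 * δ ≤ ‖a w‖ ∨ 2 * δ ≤ ‖b w‖
  hO : ∀ w ∈ Metric.ball (0 : ℂ) ρ, ‖a w‖ ^ 2 + ‖b w‖ ^ 2 ≤ (F w).re
  hO2 : ∀ w ∈ Metric.ball (0 : ℂ) ρ, (F w).re ≤ 2

/-- The oscillation function `O = Re F - |a|² - |b|²`. -/
def Osc (a b F : ℂ → ℂ) (p : ℝ × ℝ) : ℝ :=
  (hp F p).re - ‖hp a p‖ ^ 2 - ‖hp b p‖ ^ 2

/-- `O` as a function on the disc. -/
def OscD (a b F : ℂ → ℂ) (w : ℂ) : ℝ := (F w).re - ‖a w‖ ^ 2 - ‖b w‖ ^ 2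

/-- A Douglas algebra (a norm closed subalgebra of `L^∞` containing `H^∞`), as in the frozen
statement. -/
structure Doug (D : Set (ℝ → ℂ)) : Prop where
  mem : ∀ f ∈ D, MemLp f ⊤ mu
  ae : ∀ f ∈ D, ∀ g : ℝ → ℂ, g =ᵐ[mu] f → g ∈ D
  add : ∀ f ∈ D, ∀ g ∈ D, f + g ∈ D
  mul : ∀ f ∈ D, ∀ g ∈ D, f * g ∈ D
  smul : ∀ c : ℂ, ∀ f ∈ D, c • f ∈ D
  lim : ∀ f : ℝ → ℂ, MemLp f ⊤ mu → ∀ u : ℕ → ℝ → ℂ, (∀ n, u n ∈ D) →
    Tendsto (fun n => eLpNorm (u n - f) ⊤ mu) atTop (𝓝 0) → f ∈ D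
  hinf : ∀ f : ℝ → ℂ, Hinf f → f ∈ D

/-- `QD = D ∩ conj D`. -/
def QD (D : Set (ℝ → ℂ)) (f : ℝ → ℂ) : Prop := f ∈ D ∧ (fun t => starRingEnd ℂ (f t)) ∈ D

/-- `QDA = QD ∩ H^∞`. -/
def QDA (D : Set (ℝ → ℂ)) (f : ℝ → ℂ) : Prop := QD D f ∧ HA f

end Pool.H14.SR

end S_Defs

noncomputable section S_Basic

open MeasureTheory Set Filter Topology
namespace Pool.H14.SR

theorem norm_E (p : ℝ × ℝ) : ‖E p‖ = Real.exp (-p.2) := by
  unfold E
  rw [Complex.norm_exp]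
  congr 1
  simp

theorem E_zero (x : ℝ) : E (x, 0) = Complex.exp (Complex.I * x) := by
  unfold E; simp

theorem E_per (p : ℝ × ℝ) : E (p.1 + 2 * Real.pi, p.2) = E p := by
  unfold E
  have : Complex.I * (((p.1 + 2 * Real.pi : ℝ) : ℂ) + (p.2 : ℂ) * Complex.I)
      = Complex.I * ((p.1 : ℂ) + (p.2 : ℂ) * Complex.I) + 2 * Real.pi * Complex.I := by
    push_cast; ring
  show Complex.exp (Complex.I * (((p.1 + 2 * Real.pi : ℝ) : ℂ) + (p.2 : ℂ) * Complex.I)) = _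
  rw [this]
  exact Complex.exp_periodic _

theorem continuous_E : Continuous E := by
  unfold E; fun_prop

theorem E_mem_ball {ρ : ℝ} (hρ : 0 < ρ) {p : ℝ × ℝ} (h : -Real.log ρ < p.2) :
    E p ∈ Metric.ball (0 : ℂ) ρ := by
  rw [mem_ball_zero_iff, norm_E]
  calc Real.exp (-p.2) < Real.exp (Real.log ρ) := Real.exp_lt_exp.2 (by linarith)
    _ = ρ := Real.exp_log hρ

theorem E_mem_closedBall {p : ℝ × ℝ} (h : 0 ≤ p.2) : E p ∈ Metric.closedBall (0 : ℂ) 1 := by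
  rw [mem_closedBall_zero_iff, norm_E]
  exact Real.exp_le_one_iff.2 (by linarith)

theorem E_mem_ball_one {p : ℝ × ℝ} (h : 0 < p.2) : E p ∈ Metric.ball (0 : ℂ) 1 := by
  rw [mem_ball_zero_iff, norm_E]
  rw [← Real.exp_zero]; exact Real.exp_lt_exp.2 (by linarith)

theorem E_ne (p : ℝ × ℝ) : E p ≠ 0 := Complex.exp_ne_zero _

theorem Dz_diff {f : ℂ → ℂ} {ρ : ℝ} (hf : DifferentiableOn ℂ f (Metric.ball 0 ρ)) :
    DifferentiableOn ℂ (Dz f) (Metric.ball 0 ρ) := by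
  unfold Dz
  have h1 : DifferentiableOn ℂ (deriv f) (Metric.ball 0 ρ) := hf.deriv Metric.isOpen_ball
  have h2 : DifferentiableOn ℂ (fun w : ℂ => Complex.I * w) (Metric.ball 0 ρ) := by fun_prop
  exact h2.mul h1

theorem hasDerivAt_Ex (p : ℝ × ℝ) :
    HasDerivAt (fun x : ℝ => E (x, p.2)) (Complex.I * E p) p.1 := by
  unfold E
  have h1 : HasDerivAt (fun x : ℝ => Complex.I * ((x : ℂ) + (p.2 : ℂ) * Complex.I))
      (Complex.I * 1) p.1 := by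
    apply HasDerivAt.const_mul
    exact (Complex.ofRealCLM.hasDerivAt (x := p.1)).add_const _
  have h2 := h1.cexp
  convert h2 using 1
  ring

theorem hasDerivAt_Ey (p : ℝ × ℝ) :
    HasDerivAt (fun y : ℝ => E (p.1, y)) (-(E p)) p.2 := by
  unfold E
  have h0 : HasDerivAt (fun y : ℝ => (y : ℂ)) 1 p.2 := Complex.ofRealCLM.hasDerivAt (x := p.2)
  have h1 : HasDerivAt (fun y : ℝ => Complex.I * ((p.1 : ℂ) + (y : ℂ) * Complex.I))
      (Complex.I * (1 * Complex.I)) p.2 := by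
    apply HasDerivAt.const_mul
    exact (h0.mul_const _).const_add _
  have h2 := h1.cexp
  convert h2 using 1
  have : Complex.I * (1 * Complex.I) = -1 := by
    rw [one_mul, Complex.I_mul_I]
  rw [this]; ring

theorem hp_dx {f : ℂ → ℂ} {ρ : ℝ} (hρ : 0 < ρ) (hf : DifferentiableOn ℂ f (Metric.ball 0 ρ))
    (p : ℝ × ℝ) (h : -Real.log ρ < p.2) :
    HasDerivAt (fun x : ℝ => hp f (x, p.2)) (hp (Dz f) p) p.1 := by
  have hm := E_mem_ball hρ h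
  have hd : HasDerivAt f (deriv f (E p)) (E p) :=
    (hf.differentiableAt (Metric.isOpen_ball.mem_nhds hm)).hasDerivAt
  have := HasDerivAt.comp_of_eq p.1 hd (hasDerivAt_Ex p) rfl
  unfold hp Dz
  refine this.congr_deriv ?_
  ring

theorem hp_dy {f : ℂ → ℂ} {ρ : ℝ} (hρ : 0 < ρ) (hf : DifferentiableOn ℂ f (Metric.ball 0 ρ))
    (p : ℝ × ℝ) (h : -Real.log ρ < p.2) :
    HasDerivAt (fun y : ℝ => hp f (p.1, y)) (Complex.I * hp (Dz f) p) p.2 := by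
  have hm := E_mem_ball hρ h
  have hd : HasDerivAt f (deriv f (E p)) (E p) :=
    (hf.differentiableAt (Metric.isOpen_ball.mem_nhds hm)).hasDerivAt
  have := HasDerivAt.comp_of_eq p.2 hd (hasDerivAt_Ey p) rfl
  unfold hp Dz
  refine this.congr_deriv ?_
  have hI : Complex.I * (Complex.I * E p * deriv f (E p)) = (Complex.I * Complex.I) * (E p * deriv f (E p)) := by
    ring
  rw [hI, Complex.I_mul_I]; ring

theorem hp_cont {f : ℂ → ℂ} {ρ : ℝ} (hρ : 0 < ρ) (hf : ContinuousOn f (Metric.ball 0 ρ)) :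
    ContinuousOn (hp f) {p | -Real.log ρ < p.2} := by
  unfold hp
  exact hf.comp continuous_E.continuousOn (fun p hp => E_mem_ball hρ hp)

theorem hp_per (f : ℂ → ℂ) (p : ℝ × ℝ) : hp f (p.1 + 2 * Real.pi, p.2) = hp f p := by
  unfold hp; rw [E_per]

theorem C1_hp {f : ℂ → ℂ} {ρ : ℝ} (hρ : 0 < ρ) (hf : DifferentiableOn ℂ f (Metric.ball 0 ρ)) :
    C1 (Real.log ρ) (hp f) (hp (Dz f)) (fun p => Complex.I * hp (Dz f) p) where
  dx := fun p h => hp_dx hρ hf p h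
  dy := fun p h => hp_dy hρ hf p h
  c := hp_cont hρ hf.continuousOn
  cx := hp_cont hρ (Dz_diff hf).continuousOn
  cy := continuousOn_const.mul (hp_cont hρ (Dz_diff hf).continuousOn)
  per := fun p _ => hp_per f p

/-- Decay of the derivative: `|f'(ζ)| ≤ B e^{-y}` on the closed half plane. -/
theorem hp_decay {f : ℂ → ℂ} {ρ : ℝ} (hρ : 1 < ρ) (hf : DifferentiableOn ℂ f (Metric.ball 0 ρ)) :
    ∃ B : ℝ, 0 ≤ B ∧ ∀ p : ℝ × ℝ, 0 ≤ p.2 → ‖hp (Dz f) p‖ ≤ B * Real.exp (-p.2) := by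
  have hc : ContinuousOn (deriv f) (Metric.closedBall 0 1) :=
    ((hf.deriv Metric.isOpen_ball).continuousOn).mono (Metric.closedBall_subset_ball hρ)
  obtain ⟨B, hB⟩ := (isCompact_closedBall (0 : ℂ) 1).exists_bound_of_continuousOn hc
  refine ⟨|B|, abs_nonneg _, fun p h => ?_⟩
  unfold hp Dz
  rw [norm_mul, norm_mul, Complex.norm_I, one_mul, norm_E, mul_comm]
  exact mul_le_mul_of_nonneg_right ((hB _ (E_mem_closedBall h)).trans (le_abs_self B)) (Real.exp_pos _).le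

/-- `f(ζ)` bounded on the closed half plane. -/
theorem hp_bdd {f : ℂ → ℂ} (hf : ContinuousOn f (Metric.closedBall 0 1)) :
    ∃ B : ℝ, 0 ≤ B ∧ ∀ p : ℝ × ℝ, 0 ≤ p.2 → ‖hp f p‖ ≤ B := by
  obtain ⟨B, hB⟩ := (isCompact_closedBall (0 : ℂ) 1).exists_bound_of_continuousOn hf
  exact ⟨|B|, abs_nonneg _, fun p h => (hB _ (E_mem_closedBall h)).trans (le_abs_self B)⟩

end Pool.H14.SR

end S_Basic

noncomputable section S_CE

open MeasureTheory Set Filter Topology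
namespace Pool.H14.SR

/-- derivative of `ζ ↦ f (e^{iζ})` -/
theorem ce_hasDerivAt (f : ℂ → ℂ) (ρ : ℝ) (hρ : 0 < ρ)
    (hf : DifferentiableOn ℂ f (Metric.ball 0 ρ)) (ζ : ℂ) (h : -Real.log ρ < ζ.im) :
    HasDerivAt (fun ζ : ℂ => f (Complex.exp (Complex.I * ζ))) (hp (Dz f) (ζ.re, ζ.im)) ζ := by
  have hE : E (ζ.re, ζ.im) = Complex.exp (Complex.I * ζ) := by
    unfold E
    rw [Complex.re_add_im]
  have hm := E_mem_ball (p := (ζ.re, ζ.im)) hρ h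
  rw [hE] at hm
  have hd : HasDerivAt f (deriv f (Complex.exp (Complex.I * ζ))) (Complex.exp (Complex.I * ζ)) :=
    (hf.differentiableAt (Metric.isOpen_ball.mem_nhds hm)).hasDerivAt
  have h1 : HasDerivAt (fun ζ : ℂ => Complex.exp (Complex.I * ζ))
      (Complex.exp (Complex.I * ζ) * (Complex.I * 1)) ζ :=
    ((hasDerivAt_id ζ).const_mul Complex.I).cexp
  have h2 := HasDerivAt.comp_of_eq ζ hd h1 rfl
  unfold hp Dz
  rw [hE]
  refine h2.congr_deriv ?_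
  ring

theorem ce_norm_le (f : ℂ → ℂ) (ρ : ℝ) (hρ : 0 < ρ)
    (h1 : ∀ w ∈ Metric.ball (0 : ℂ) ρ, ‖f w‖ ≤ 1) (ζ : ℂ) (h : -Real.log ρ < ζ.im) :
    ‖f (Complex.exp (Complex.I * ζ))‖ ≤ 1 := by
  have hE : E (ζ.re, ζ.im) = Complex.exp (Complex.I * ζ) := by
    unfold E
    rw [Complex.re_add_im]
  have hm := E_mem_ball (p := (ζ.re, ζ.im)) hρ h
  rw [hE] at hm
  exact h1 _ hm

/-- Cauchy's estimate in the half plane coordinate: `|f| ≤ 1` on `|w| < ρ` gives `|f'(ζ)| ≤ 1/(y + log ρ)`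
(the disc of radius `y + log ρ` around `ζ` is in the half plane `y > -log ρ`). -/
theorem hp_cauchy (f : ℂ → ℂ) (ρ : ℝ) (hρ : 0 < ρ) (hf : DifferentiableOn ℂ f (Metric.ball 0 ρ))
    (h1 : ∀ w ∈ Metric.ball (0 : ℂ) ρ, ‖f w‖ ≤ 1) (p : ℝ × ℝ) (hy : -Real.log ρ < p.2) :
    ‖hp (Dz f) p‖ ≤ 1 / (p.2 + Real.log ρ) := by
  set ζ : ℂ := ⟨p.1, p.2⟩ with hζ
  have hR : 0 < p.2 + Real.log ρ := by linarith
  have hder := ce_hasDerivAt f ρ hρ hf ζ hy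
  have hkey : ∀ r : ℝ, 0 < r → r < p.2 + Real.log ρ → ‖hp (Dz f) p‖ ≤ 1 / r := by
    intro r hr0 hr
    have him : ∀ z ∈ Metric.closedBall ζ r, -Real.log ρ < z.im := by
      intro z hz
      rw [Metric.mem_closedBall, dist_eq_norm] at hz
      have h3 := (Complex.abs_im_le_norm (z - ζ)).trans hz
      rw [Complex.sub_im] at h3
      have h4 := (abs_le.1 h3).1
      have h5 : ζ.im = p.2 := rfl
      linarith
    have hdc : DiffContOnCl ℂ (fun ζ : ℂ => f (Complex.exp (Complex.I * ζ))) (Metric.ball ζ r) := by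
      apply DifferentiableOn.diffContOnCl
      rw [closure_ball _ hr0.ne']
      intro z hz
      exact (ce_hasDerivAt f ρ hρ hf z (him z hz)).differentiableAt.differentiableWithinAt
    have h6 := Complex.norm_deriv_le_of_forall_mem_sphere_norm_le hr0 hdc
      (fun z hz => ce_norm_le f ρ hρ h1 z (him z (Metric.sphere_subset_closedBall hz)))
    rwa [hder.deriv] at h6
  by_contra hcon
  push Not at hcon
  have hpos : 0 < ‖hp (Dz f) p‖ := lt_trans (by positivity) hcon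
  have h7 : 1 / ‖hp (Dz f) p‖ < p.2 + Real.log ρ := by
    rw [div_lt_iff₀ hR] at hcon
    rw [div_lt_iff₀ hpos]
    linarith
  obtain ⟨r, hr1, hr2⟩ := exists_between h7
  have hr0 : 0 < r := lt_trans (by positivity) hr1
  have h8 := hkey r hr0 hr2
  rw [le_div_iff₀ hr0] at h8
  rw [div_lt_iff₀ hpos] at hr1
  linarith

/-- Schwarz lemma: `|f(w) - f(0)| ≤ 2|w|` if `|f| ≤ 1` on the unit disc. -/
theorem near_zero (f : ℂ → ℂ) (hf : DifferentiableOn ℂ f (Metric.ball 0 1))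
    (h1 : ∀ w ∈ Metric.ball (0 : ℂ) 1, ‖f w‖ ≤ 1) (w : ℂ) (hw : w ∈ Metric.ball (0 : ℂ) 1) :
    ‖f w - f 0‖ ≤ 2 * ‖w‖ := by
  have h2 : MapsTo f (Metric.ball 0 1) (Metric.closedBall (f 0) 2) := by
    intro z hz
    rw [Metric.mem_closedBall, dist_eq_norm]
    have h3 := h1 z hz
    have h4 := h1 0 (Metric.mem_ball_self one_pos)
    calc ‖f z - f 0‖ ≤ ‖f z‖ + ‖f 0‖ := norm_sub_le _ _
      _ ≤ 2 := by linarith
  have h5 := Complex.dist_le_div_mul_dist_of_mapsTo_ball hf h2 hw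
  rw [dist_eq_norm, dist_eq_norm, sub_zero, div_one] at h5
  exact h5

/-- Variation of `f` along a segment: for two points of `y > -log ρ` with heights `≥ y₀ > -log ρ`,
`|f(p) - f(q)| ≤ (|p.1-q.1| + |p.2-q.2|)/(y₀ + log ρ)`. -/
theorem hp_lip (f : ℂ → ℂ) (ρ : ℝ) (hρ : 0 < ρ) (hf : DifferentiableOn ℂ f (Metric.ball 0 ρ))
    (h1 : ∀ w ∈ Metric.ball (0 : ℂ) ρ, ‖f w‖ ≤ 1) (y0 : ℝ) (hy0 : -Real.log ρ < y0)
    (p q : ℝ × ℝ) (h2 : y0 ≤ p.2) (h3 : y0 ≤ q.2) :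
    ‖hp f p - hp f q‖ ≤ (|p.1 - q.1| + |p.2 - q.2|) / (y0 + Real.log ρ) := by
  have hR : 0 < y0 + Real.log ρ := by linarith
  have hconv : Convex ℝ {z : ℂ | y0 ≤ z.im} := convex_halfSpace_im_ge y0
  have hmv := hconv.norm_image_sub_le_of_norm_deriv_le (𝕜 := ℂ)
    (f := fun ζ : ℂ => f (Complex.exp (Complex.I * ζ))) (C := 1 / (y0 + Real.log ρ))
    (fun z hz => (ce_hasDerivAt f ρ hρ hf z (lt_of_lt_of_le hy0 hz)).differentiableAt)
    (fun z hz => by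
      have hz' : y0 ≤ z.im := hz
      rw [(ce_hasDerivAt f ρ hρ hf z (lt_of_lt_of_le hy0 hz)).deriv]
      refine (hp_cauchy f ρ hρ hf h1 (z.re, z.im) (lt_of_lt_of_le hy0 hz)).trans ?_
      apply one_div_le_one_div_of_le hR
      show y0 + Real.log ρ ≤ z.im + Real.log ρ
      linarith)
    (x := (⟨q.1, q.2⟩ : ℂ)) (y := (⟨p.1, p.2⟩ : ℂ)) h3 h2
  have e : ∀ p : ℝ × ℝ, hp f p = f (Complex.exp (Complex.I * (⟨p.1, p.2⟩ : ℂ))) := by
    intro p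
    unfold hp E
    rw [Complex.mk_eq_add_mul_I]
  rw [e p, e q]
  refine hmv.trans ?_
  rw [div_mul_eq_mul_div, one_mul]
  apply div_le_div_of_nonneg_right _ hR.le
  exact Complex.norm_le_abs_re_add_abs_im _

end Pool.H14.SR

end S_CE
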