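import Mathlib
import Pool.Agent.H14.SRM.P0

/-! MP_e1e648_an, part P1: this file joins several modules to save build time. -/

noncomputable section S_G0

open MeasureTheory Set Filter Topology
namespace Pool.H14.SR

namespace G0aux

/-- continuity along horizontal segments -/
theorem cx {f : ℝ × ℝ → ℝ} (hf : ContinuousOn f {p : ℝ × ℝ | 0 < p.2}) {y : ℝ} (hy : 0 < y) :
    Continuous (fun x : ℝ => f (x, y)) := by
  rw [continuous_iff_continuousAt]
  intro x
  have h1 : ContinuousAt f (x, y) :=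
    hf.continuousAt ((isOpen_lt continuous_const continuous_snd).mem_nhds hy)
  exact ContinuousAt.comp (f := fun x : ℝ => (x, y)) h1
    (by fun_prop : Continuous (fun x : ℝ => (x, y))).continuousAt

/-- continuity along vertical segments -/
theorem cy {f : ℝ × ℝ → ℝ} (hf : ContinuousOn f {p : ℝ × ℝ | 0 < p.2}) (x : ℝ) {a b : ℝ}
    (ha : 0 < a) : ContinuousOn (fun y : ℝ => f (x, y)) (Icc a b) := by
  intro y hy
  have h1 : ContinuousAt f (x, y) :=
    hf.continuousAt ((isOpen_lt continuous_const continuous_snd).mem_nhds (lt_of_lt_of_le ha hy.1))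
  exact (ContinuousAt.comp (f := fun y : ℝ => (x, y)) h1
    (by fun_prop : Continuous (fun y : ℝ => (x, y))).continuousAt).continuousWithinAt

theorem intR {f : ℝ × ℝ → ℝ} (hf : ContinuousOn f {p : ℝ × ℝ | 0 < p.2}) {a b : ℝ}
    (ha : 0 < a) : IntegrableOn f (Ioc 0 (2 * Real.pi) ×ˢ Ioc a b) := by
  have h1 : IntegrableOn f (Icc 0 (2 * Real.pi) ×ˢ Icc a b) := by
    apply ContinuousOn.integrableOn_compact
    · exact isCompact_Icc.prod isCompact_Icc
    · apply hf.mono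
      rintro ⟨x, y⟩ ⟨_, hy⟩
      exact lt_of_lt_of_le ha hy.1
  exact h1.mono_set (prod_mono Ioc_subset_Icc_self Ioc_subset_Icc_self)

theorem intR' {f : ℝ × ℝ → ℝ} (hf : ContinuousOn f {p : ℝ × ℝ | 0 < p.2}) {a b : ℝ}
    (ha : 0 < a) : Integrable f (((volume : Measure ℝ).restrict (Ioc 0 (2 * Real.pi))).prod
      ((volume : Measure ℝ).restrict (Ioc a b))) := by
  rw [Measure.prod_restrict]
  exact intR hf ha

theorem fub1 {f : ℝ × ℝ → ℝ} (hf : ContinuousOn f {p : ℝ × ℝ | 0 < p.2}) {a b : ℝ}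
    (ha : 0 < a) : ∫ p in Ioc 0 (2 * Real.pi) ×ˢ Ioc a b, f p
      = ∫ x in Ioc 0 (2 * Real.pi), ∫ y in Ioc a b, f (x, y) :=
  setIntegral_prod f (intR hf ha)

theorem fub2 {f : ℝ × ℝ → ℝ} (hf : ContinuousOn f {p : ℝ × ℝ | 0 < p.2}) {a b : ℝ}
    (ha : 0 < a) : ∫ p in Ioc 0 (2 * Real.pi) ×ˢ Ioc a b, f p
      = ∫ y in Ioc a b, ∫ x in Ioc 0 (2 * Real.pi), f (x, y) := by
  have := integral_prod_symm f (intR' hf ha (b := b))
  rw [Measure.prod_restrict] at this
  exact this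

theorem two_pi_nn : (0 : ℝ) ≤ 2 * Real.pi := by positivity

end G0aux

open G0aux in
/-- **(G0)** `U ≥ 0` bounded, `C²`, periodic and subharmonic on `y > 0`:
`∬_{(0,2π)×(e₀,∞)} (ΔU)(y - e₀) ≤ ∫_0^{2π} U(x,e₀) dx`.

Proof: `u(y) = ∫_0^{2π} U(x,y) dx` is `C²` on `y > 0` with `u'' = ∫ (Uxx + Uyy) dx ≥ 0` (`∫ Uxx dx = 0` by
periodicity; differentiation under the integral sign, everything is continuous), `0 ≤ u ≤ 2πB`.  A bounded
convex function on `(0,∞)` is nonincreasing, `u' ≤ 0`, so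
`∫_{e₀}^Y u''(y)(y-e₀)dy = u'(Y)(Y-e₀) - u(Y) + u(e₀) ≤ u(e₀)`; let `Y → ∞` (monotone convergence, Tonelli). -/
theorem G0 (U Ux Uxx Uy Uyy : ℝ × ℝ → ℝ) (h : P2 0 U Ux Uxx Uy Uyy) (B : ℝ)
    (h0 : ∀ p : ℝ × ℝ, 0 < p.2 → 0 ≤ U p) (hB : ∀ p : ℝ × ℝ, 0 < p.2 → U p ≤ B)
    (sub : ∀ p : ℝ × ℝ, 0 < p.2 → 0 ≤ Uxx p + Uyy p) (e0 : ℝ) (he0 : 0 < e0) :
    ∫⁻ p in Set.Ioc 0 (2 * Real.pi) ×ˢ Set.Ioi e0,
        ENNReal.ofReal ((Uxx p + Uyy p) * (p.2 - e0))
      ≤ ENNReal.ofReal (∫ x in Set.Ioc 0 (2 * Real.pi), U (x, e0)) := by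
  have hc : ContinuousOn U {p : ℝ × ℝ | 0 < p.2} := by simpa using h.c
  have hcx : ContinuousOn Ux {p : ℝ × ℝ | 0 < p.2} := by simpa using h.cx
  have hcxx : ContinuousOn Uxx {p : ℝ × ℝ | 0 < p.2} := by simpa using h.cxx
  have hcy : ContinuousOn Uy {p : ℝ × ℝ | 0 < p.2} := by simpa using h.cy
  have hcyy : ContinuousOn Uyy {p : ℝ × ℝ | 0 < p.2} := by simpa using h.cyy
  -- periodicity of Ux
  have hUxper : ∀ y : ℝ, 0 < y → Ux (2 * Real.pi, y) = Ux (0, y) := by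
    intro y hy
    have h1 : HasDerivAt (fun x : ℝ => U (x, y)) (Ux (2 * Real.pi, y)) (0 + 2 * Real.pi) := by
      have := h.dx (2 * Real.pi, y) (by simpa using hy)
      simpa using this
    have h2 : HasDerivAt (fun x : ℝ => U (x + 2 * Real.pi, y)) (Ux (2 * Real.pi, y)) 0 :=
      h1.comp_add_const 0 (2 * Real.pi)
    have h3 : (fun x : ℝ => U (x + 2 * Real.pi, y)) = fun x => U (x, y) := by
      funext x
      exact h.per (x, y) (by simpa using hy)
    rw [h3] at h2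
    have h4 := h.dx (0, y) (by simpa using hy)
    exact h2.unique h4
  -- ∫ Uxx dx = 0
  have hX : ∀ y : ℝ, 0 < y → ∫ x in Ioc 0 (2 * Real.pi), Uxx (x, y) = 0 := by
    intro y hy
    rw [← intervalIntegral.integral_of_le two_pi_nn]
    rw [intervalIntegral.integral_eq_sub_of_hasDerivAt (f := fun x => Ux (x, y))]
    · show Ux (2 * Real.pi, y) - Ux (0, y) = 0
      rw [hUxper y hy, sub_self]
    · intro x _
      exact h.dxx (x, y) (by simpa using hy)
    · exact (cx hcxx hy).intervalIntegrable _ _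
  -- vertical fundamental theorems
  have hY1 : ∀ x a b : ℝ, 0 < a → a ≤ b → ∫ y in Ioc a b, Uyy (x, y) = Uy (x, b) - Uy (x, a) := by
    intro x a b ha hab
    rw [← intervalIntegral.integral_of_le hab]
    rw [intervalIntegral.integral_eq_sub_of_hasDerivAt (f := fun y => Uy (x, y))]
    · intro y hy
      rw [uIcc_of_le hab] at hy
      exact h.dyy (x, y) (by simpa using lt_of_lt_of_le ha hy.1)
    · apply ContinuousOn.intervalIntegrable
      rw [uIcc_of_le hab]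
      exact cy hcyy x ha
  have hY2 : ∀ x a b : ℝ, 0 < a → a ≤ b → ∫ y in Ioc a b, Uy (x, y) = U (x, b) - U (x, a) := by
    intro x a b ha hab
    rw [← intervalIntegral.integral_of_le hab]
    rw [intervalIntegral.integral_eq_sub_of_hasDerivAt (f := fun y => U (x, y))]
    · intro y hy
      rw [uIcc_of_le hab] at hy
      exact h.dy (x, y) (by simpa using lt_of_lt_of_le ha hy.1)
    · apply ContinuousOn.intervalIntegrable
      rw [uIcc_of_le hab]
      exact cy hcy x ha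
  have hY3 : ∀ x b : ℝ, e0 ≤ b → ∫ y in Ioc e0 b, Uyy (x, y) * (y - e0)
      = Uy (x, b) * (b - e0) - U (x, b) + U (x, e0) := by
    intro x b hab
    rw [← intervalIntegral.integral_of_le hab]
    rw [intervalIntegral.integral_eq_sub_of_hasDerivAt
      (f := fun y => Uy (x, y) * (y - e0) - U (x, y))]
    · simp
    · intro y hy
      rw [uIcc_of_le hab] at hy
      have hy0 : 0 < y := lt_of_lt_of_le he0 hy.1
      have h1 := h.dyy (x, y) (by simpa using hy0)
      have h2 := h.dy (x, y) (by simpa using hy0)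
      have h3 : HasDerivAt (fun y : ℝ => y - e0) 1 y := (hasDerivAt_id y).sub_const e0
      have h4 := (h1.mul h3).sub h2
      refine h4.congr_deriv ?_
      show Uyy (x, y) * (y - e0) + Uy (x, y) * 1 - Uy (x, y) = Uyy (x, y) * (y - e0)
      ring
    · apply ContinuousOn.intervalIntegrable
      rw [uIcc_of_le hab]
      exact (cy hcyy x he0).mul (by fun_prop)
  -- integrability along horizontals
  have hI : ∀ (f : ℝ × ℝ → ℝ), ContinuousOn f {p : ℝ × ℝ | 0 < p.2} → ∀ y : ℝ, 0 < y →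
      Integrable (fun x => f (x, y)) ((volume : Measure ℝ).restrict (Ioc 0 (2 * Real.pi))) := by
    intro f hf y hy
    have := (cx hf hy).integrableOn_Icc (μ := volume) (a := 0) (b := 2 * Real.pi)
    exact this.mono_set Ioc_subset_Icc_self
  -- monotonicity of m
  set m : ℝ → ℝ := fun y => ∫ x in Ioc 0 (2 * Real.pi), Uy (x, y) with hm
  have hmono : ∀ a b : ℝ, 0 < a → a ≤ b → m a ≤ m b := by
    intro a b ha hab
    have h1 : m b - m a = ∫ p in Ioc 0 (2 * Real.pi) ×ˢ Ioc a b, Uyy p := by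
      rw [fub1 hcyy ha, hm]
      simp only
      rw [← integral_sub (hI Uy hcy b (ha.trans_le hab)) (hI Uy hcy a ha)]
      apply integral_congr_ae
      filter_upwards with x
      rw [hY1 x a b ha hab]
    have h2 : ∫ p in Ioc 0 (2 * Real.pi) ×ˢ Ioc a b, Uxx p = 0 := by
      rw [fub2 hcxx ha]
      have : ∀ y ∈ Ioc a b, ∫ x in Ioc 0 (2 * Real.pi), Uxx (x, y) = 0 := by
        intro y hy
        exact hX y (ha.trans hy.1)
      rw [setIntegral_congr_fun measurableSet_Ioc this]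
      simp
    have h3 : 0 ≤ ∫ p in Ioc 0 (2 * Real.pi) ×ˢ Ioc a b, (Uxx p + Uyy p) := by
      apply setIntegral_nonneg (measurableSet_Ioc.prod measurableSet_Ioc)
      rintro ⟨x, y⟩ ⟨_, hy⟩
      exact sub (x, y) (ha.trans hy.1)
    rw [integral_add (intR hcxx ha) (intR hcyy ha), h2, zero_add, ← h1] at h3
    linarith
  -- B ≥ 0
  have hB0 : 0 ≤ B := (h0 (0, e0) he0).trans (hB (0, e0) he0)
  -- m ≤ 0
  have hmle : ∀ a : ℝ, 0 < a → m a ≤ 0 := by
    intro a ha
    by_contra hcon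
    push Not at hcon
    set t : ℝ := 2 * Real.pi * B / m a + 1 with ht
    have ht0 : 0 < t := by
      have : 0 ≤ 2 * Real.pi * B / m a := by positivity
      linarith
    have hab : a ≤ a + t := by linarith
    have h1 : ∫ p in Ioc 0 (2 * Real.pi) ×ˢ Ioc a (a + t), Uy p
        = ∫ x in Ioc 0 (2 * Real.pi), (U (x, a + t) - U (x, a)) := by
      rw [fub1 hcy ha]
      apply integral_congr_ae
      filter_upwards with x
      rw [hY2 x a (a + t) ha hab]
    have h2 : ∫ p in Ioc 0 (2 * Real.pi) ×ˢ Ioc a (a + t), Uy p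
        = ∫ y in Ioc a (a + t), m y := by
      rw [fub2 hcy ha]
    have h3 : ∫ x in Ioc 0 (2 * Real.pi), (U (x, a + t) - U (x, a)) ≤ 2 * Real.pi * B := by
      have h4 : ∫ x in Ioc 0 (2 * Real.pi), (U (x, a + t) - U (x, a))
          ≤ ∫ x in Ioc 0 (2 * Real.pi), B := by
        apply integral_mono_ae
        · exact (hI U hc _ (by linarith)).sub (hI U hc a ha)
        · exact integrable_const _
        · filter_upwards with x
          have := hB (x, a + t) (by show (0:ℝ) < a + t; linarith)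
          have := h0 (x, a) ha
          show U (x, a + t) - U (x, a) ≤ B
          linarith
      have h5 : ∫ x in Ioc 0 (2 * Real.pi), B = 2 * Real.pi * B := by
        rw [setIntegral_const, Measure.real, Real.volume_Ioc, sub_zero,
          ENNReal.toReal_ofReal two_pi_nn, smul_eq_mul]
      rw [← h5]
      exact h4
    have h6 : m a * t ≤ ∫ y in Ioc a (a + t), m y := by
      have h7 : ∫ y in Ioc a (a + t), m a = m a * t := by
        rw [setIntegral_const]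
        simp [Measure.real, Real.volume_Ioc, ht0.le, mul_comm]
      rw [← h7]
      apply setIntegral_mono_on
      · exact integrableOn_const (by simp)
      · have := (intR' hcy ha (b := a + t)).integral_prod_right
        exact this
      · exact measurableSet_Ioc
      · intro y hy
        exact hmono a y ha hy.1.le
    have h8 : m a * t ≤ 2 * Real.pi * B := by
      calc m a * t ≤ ∫ y in Ioc a (a + t), m y := h6
        _ = ∫ x in Ioc 0 (2 * Real.pi), (U (x, a + t) - U (x, a)) := by rw [← h2, h1]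
        _ ≤ _ := h3
    have h9 : m a * t = 2 * Real.pi * B + m a := by
      rw [ht]
      field_simp
    linarith
  -- the truncated inequality
  have hcd : ContinuousOn (fun p : ℝ × ℝ => (Uxx p + Uyy p) * (p.2 - e0)) {p : ℝ × ℝ | 0 < p.2} :=
    (hcxx.add hcyy).mul (by fun_prop)
  have htr : ∀ Y : ℝ, e0 ≤ Y → ∫ p in Ioc 0 (2 * Real.pi) ×ˢ Ioc e0 Y,
      (Uxx p + Uyy p) * (p.2 - e0) ≤ ∫ x in Ioc 0 (2 * Real.pi), U (x, e0) := by
    intro Y hY
    have hY0 : 0 < Y := he0.trans_le hY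
    have hc1 : ContinuousOn (fun p : ℝ × ℝ => Uxx p * (p.2 - e0)) {p : ℝ × ℝ | 0 < p.2} :=
      hcxx.mul (by fun_prop)
    have hc2 : ContinuousOn (fun p : ℝ × ℝ => Uyy p * (p.2 - e0)) {p : ℝ × ℝ | 0 < p.2} :=
      hcyy.mul (by fun_prop)
    have e1 : ∫ p in Ioc 0 (2 * Real.pi) ×ˢ Ioc e0 Y, (Uxx p + Uyy p) * (p.2 - e0)
        = (∫ p in Ioc 0 (2 * Real.pi) ×ˢ Ioc e0 Y, Uxx p * (p.2 - e0))
          + ∫ p in Ioc 0 (2 * Real.pi) ×ˢ Ioc e0 Y, Uyy p * (p.2 - e0) := by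
      rw [← integral_add (intR hc1 he0) (intR hc2 he0)]
      congr 1
      funext p
      ring
    have e2 : ∫ p in Ioc 0 (2 * Real.pi) ×ˢ Ioc e0 Y, Uxx p * (p.2 - e0) = 0 := by
      rw [fub2 hc1 he0]
      have : ∀ y ∈ Ioc e0 Y, ∫ x in Ioc 0 (2 * Real.pi), Uxx (x, y) * (y - e0) = 0 := by
        intro y hy
        rw [integral_mul_const, hX y (he0.trans hy.1), zero_mul]
      rw [setIntegral_congr_fun measurableSet_Ioc this]
      simp
    have e3 : ∫ p in Ioc 0 (2 * Real.pi) ×ˢ Ioc e0 Y, Uyy p * (p.2 - e0)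
        = ∫ x in Ioc 0 (2 * Real.pi), (Uy (x, Y) * (Y - e0) - U (x, Y) + U (x, e0)) := by
      rw [fub1 hc2 he0]
      apply integral_congr_ae
      filter_upwards with x
      exact hY3 x Y hY
    have e4 : ∫ x in Ioc 0 (2 * Real.pi), (Uy (x, Y) * (Y - e0) - U (x, Y) + U (x, e0))
        = m Y * (Y - e0) - (∫ x in Ioc 0 (2 * Real.pi), U (x, Y))
          + ∫ x in Ioc 0 (2 * Real.pi), U (x, e0) := by
      have i1 : Integrable (fun x : ℝ => Uy (x, Y) * (Y - e0))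
          ((volume : Measure ℝ).restrict (Ioc 0 (2 * Real.pi))) := (hI Uy hcy Y hY0).mul_const _
      have i2 : Integrable (fun x : ℝ => Uy (x, Y) * (Y - e0) - U (x, Y))
          ((volume : Measure ℝ).restrict (Ioc 0 (2 * Real.pi))) := i1.sub (hI U hc Y hY0)
      rw [integral_add i2 (hI U hc e0 he0),
        integral_sub i1 (hI U hc Y hY0), integral_mul_const]
    have e5 : 0 ≤ ∫ x in Ioc 0 (2 * Real.pi), U (x, Y) := by
      apply integral_nonneg
      intro x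
      exact h0 (x, Y) hY0
    have e6 : m Y * (Y - e0) ≤ 0 := mul_nonpos_of_nonpos_of_nonneg (hmle Y hY0) (by linarith)
    rw [e1, e2, e3, e4]
    linarith
  -- monotone limit
  have hU : (Ioc 0 (2 * Real.pi) ×ˢ Ioi e0 : Set (ℝ × ℝ))
      = ⋃ n : ℕ, Ioc 0 (2 * Real.pi) ×ˢ Ioc e0 (e0 + n) := by
    ext ⟨x, y⟩
    simp only [mem_prod, mem_Ioi, mem_iUnion, mem_Ioc]
    constructor
    · rintro ⟨hx, hy⟩
      obtain ⟨n, hn⟩ := exists_nat_ge (y - e0)
      exact ⟨n, hx, hy, by linarith⟩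
    · rintro ⟨n, hx, hy, _⟩
      exact ⟨hx, hy⟩
  rw [hU, setLIntegral_iUnion_of_directed]
  · apply iSup_le
    intro n
    have hn : e0 ≤ e0 + n := by
      have : (0 : ℝ) ≤ n := Nat.cast_nonneg n
      linarith
    rw [← ofReal_integral_eq_lintegral_ofReal (intR hcd he0)]
    · exact ENNReal.ofReal_le_ofReal (htr _ hn)
    · rw [EventuallyLE, ae_restrict_iff' (measurableSet_Ioc.prod measurableSet_Ioc)]
      filter_upwards with p hp
      exact mul_nonneg (sub p (he0.trans hp.2.1)) (by linarith [hp.2.1])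
  · apply Monotone.directed_le
    intro a b hab
    refine Set.prod_mono le_rfl (Ioc_subset_Ioc_right ?_)
    have : (a : ℝ) ≤ b := by exact_mod_cast hab
    linarith

end Pool.H14.SR

end S_G0

noncomputable section S_Uch

open MeasureTheory Set Filter Topology
namespace Pool.H14.SR

theorem Uch_meas_ST : MeasurableSet ST := by
  unfold ST
  exact (measurableSet_Ioc.preimage measurable_fst).inter
    (measurableSet_lt measurable_const measurable_snd)

/-- Fatou: passage `e₀ → 0`. -/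
theorem Uch_limit (L : ℝ × ℝ → ℝ) (hL : ContinuousOn L {p | 0 < p.2}) (g : ℝ → ℝ) (g0 : ℝ)
    (hg : Tendsto (fun n : ℕ => g (1 / ((n : ℝ) + 1))) atTop (𝓝 g0))
    (h : ∀ e0 : ℝ, 0 < e0 → ∫⁻ p in Set.Ioc 0 (2 * Real.pi) ×ˢ Set.Ioi e0,
        ENNReal.ofReal (L p * (p.2 - e0)) ≤ ENNReal.ofReal (g e0)) :
    ∫⁻ p in ST, ENNReal.ofReal (L p * p.2) ≤ ENNReal.ofReal g0 := by
  set en : ℕ → ℝ := fun n => 1 / ((n : ℝ) + 1) with hen
  have hen0 : ∀ n, 0 < en n := fun n => by simp only [hen]; positivity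
  have hent : Tendsto en atTop (𝓝 0) := tendsto_one_div_add_atTop_nhds_zero_nat
  set f : ℕ → ℝ × ℝ → ENNReal := fun n =>
    (Set.Ioc 0 (2 * Real.pi) ×ˢ Set.Ioi (en n)).indicator
      (fun p => ENNReal.ofReal (L p * (p.2 - en n))) with hf
  have hsub : ∀ n, (Set.Ioc 0 (2 * Real.pi) ×ˢ Set.Ioi (en n)) ⊆ ST := by
    intro n p hp
    exact ⟨hp.1, (hen0 n).trans hp.2⟩
  have hmeasR : ∀ n, MeasurableSet (Set.Ioc (0 : ℝ) (2 * Real.pi) ×ˢ Set.Ioi (en n)) := fun n =>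
    measurableSet_Ioc.prod measurableSet_Ioi
  have hLm : AEMeasurable L (volume.restrict ST) := by
    have : ContinuousOn L ST := hL.mono (fun p hp => hp.2)
    exact this.aemeasurable Uch_meas_ST
  have hfm : ∀ n, AEMeasurable (f n) (volume.restrict ST) := by
    intro n
    have h1 : AEMeasurable (fun p : ℝ × ℝ => ENNReal.ofReal (L p * (p.2 - en n)))
        (volume.restrict ST) := (hLm.mul (by fun_prop)).ennreal_ofReal
    exact h1.indicator (hmeasR n)
  have hlim : ∀ p ∈ ST, Tendsto (fun n => f n p) atTop (𝓝 (ENNReal.ofReal (L p * p.2))) := by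
    intro p hp
    have h1 : Tendsto (fun n => ENNReal.ofReal (L p * (p.2 - en n))) atTop
        (𝓝 (ENNReal.ofReal (L p * p.2))) := by
      apply ENNReal.tendsto_ofReal
      have := (hent.const_sub p.2).const_mul (L p)
      simpa using this
    have h2 : ∀ᶠ n in atTop, f n p = ENNReal.ofReal (L p * (p.2 - en n)) := by
      filter_upwards [hent.eventually (gt_mem_nhds hp.2)] with n hn
      simp only [hf]
      exact Set.indicator_of_mem (show p ∈ (Set.Ioc 0 (2 * Real.pi) ×ˢ Set.Ioi (en n)) from ⟨hp.1, hn⟩) _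
    exact h1.congr' (h2.mono fun n hn => hn.symm)
  have e1 : ∫⁻ p in ST, ENNReal.ofReal (L p * p.2)
      = ∫⁻ p in ST, liminf (fun n => f n p) atTop := by
    apply setLIntegral_congr_fun Uch_meas_ST
    intro p hp
    exact ((hlim p hp).liminf_eq).symm
  rw [e1]
  refine (lintegral_liminf_le' hfm).trans ?_
  have e2 : ∀ n, ∫⁻ p in ST, f n p ≤ ENNReal.ofReal (g (en n)) := by
    intro n
    simp only [hf]
    rw [setLIntegral_indicator (hmeasR n), Set.inter_eq_left.2 (hsub n)]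
    exact h (en n) (hen0 n)
  have e3 : Tendsto (fun n => ENNReal.ofReal (g (en n))) atTop (𝓝 (ENNReal.ofReal g0)) :=
    ENNReal.tendsto_ofReal hg
  calc liminf (fun n => ∫⁻ p in ST, f n p) atTop
      ≤ liminf (fun n => ENNReal.ofReal (g (en n))) atTop :=
        liminf_le_liminf (Eventually.of_forall e2)
    _ = ENNReal.ofReal g0 := e3.liminf_eq

/-- Continuity of `∫ G(E(x,y)) dx` at `y = 0`. -/
theorem Uch_tendsto (G : ℂ → ℝ) (hG : ContinuousOn G (Metric.closedBall 0 1)) :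
    Tendsto (fun n : ℕ => ∫ x in Set.Ioc 0 (2 * Real.pi), G (E (x, 1 / ((n : ℝ) + 1)))) atTop
      (𝓝 (∫ x in Set.Ioc 0 (2 * Real.pi), G (E (x, 0)))) := by
  obtain ⟨B, hB⟩ := (isCompact_closedBall (0 : ℂ) 1).exists_bound_of_continuousOn hG
  apply tendsto_integral_of_dominated_convergence (fun _ => B)
  · intro n
    have : Continuous (fun x : ℝ => G (E (x, 1 / ((n : ℝ) + 1)))) := by
      apply hG.comp_continuous
      · exact continuous_E.comp (by fun_prop)
      · intro x; exact E_mem_closedBall (by show (0 : ℝ) ≤ 1 / ((n : ℝ) + 1); positivity)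
    exact this.aestronglyMeasurable
  · exact integrable_const _
  · intro n
    refine Eventually.of_forall fun x => ?_
    exact hB _ (E_mem_closedBall (by show (0 : ℝ) ≤ 1 / ((n : ℝ) + 1); positivity))
  · refine Eventually.of_forall fun x => ?_
    have h1 : Tendsto (fun n : ℕ => E (x, 1 / ((n : ℝ) + 1))) atTop
        (𝓝[Metric.closedBall 0 1] (E (x, 0))) := by
      rw [tendsto_nhdsWithin_iff]
      refine ⟨?_, Eventually.of_forall fun n =>
        E_mem_closedBall (by show (0 : ℝ) ≤ 1 / ((n : ℝ) + 1); positivity)⟩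
      have h2 : Tendsto (fun n : ℕ => ((x, 1 / ((n : ℝ) + 1)) : ℝ × ℝ)) atTop (𝓝 (x, 0)) :=
        tendsto_const_nhds.prodMk_nhds tendsto_one_div_add_atTop_nhds_zero_nat
      exact (continuous_E.tendsto (x, 0)).comp h2
    exact (hG (E (x, 0)) (E_mem_closedBall le_rfl)).tendsto.comp h1

/-- derivatives of the real and imaginary parts of an analytic function in half plane coordinates -/
theorem Uch_reim {k : ℂ → ℂ} (hk : DifferentiableOn ℂ k (Metric.ball 0 1)) (p : ℝ × ℝ)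
    (hp0 : 0 < p.2) :
    HasDerivAt (fun x : ℝ => (hp k (x, p.2)).re) (hp (Dz k) p).re p.1 ∧
    HasDerivAt (fun x : ℝ => (hp k (x, p.2)).im) (hp (Dz k) p).im p.1 ∧
    HasDerivAt (fun y : ℝ => (hp k (p.1, y)).re) (-(hp (Dz k) p).im) p.2 ∧
    HasDerivAt (fun y : ℝ => (hp k (p.1, y)).im) (hp (Dz k) p).re p.2 := by
  have hl : -Real.log 1 < p.2 := by simpa using hp0
  have hx := hp_dx one_pos hk p hl
  have hy := hp_dy one_pos hk p hl
  refine ⟨?_, ?_, ?_, ?_⟩
  · exact (Complex.reCLM.hasFDerivAt.comp_hasDerivAt p.1 hx)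
  · exact (Complex.imCLM.hasFDerivAt.comp_hasDerivAt p.1 hx)
  · have := (Complex.reCLM.hasFDerivAt.comp_hasDerivAt p.2 hy)
    refine this.congr_deriv ?_
    simp
  · have := (Complex.imCLM.hasFDerivAt.comp_hasDerivAt p.2 hy)
    refine this.congr_deriv ?_
    simp

theorem Uch_cont {k : ℂ → ℂ} (hk : ContinuousOn k (Metric.ball 0 1)) :
    ContinuousOn (hp k) {p | -(0 : ℝ) < p.2} := by
  have := hp_cont one_pos hk
  simpa using this

/-- `|k|²` has Laplacian `4|k'|²`. -/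
theorem Uch_sq {k : ℂ → ℂ} (hk : DifferentiableOn ℂ k (Metric.ball 0 1)) :
    P2 0 (fun p => (hp k p).re ^ 2 + (hp k p).im ^ 2)
      (fun p => 2 * ((hp k p).re * (hp (Dz k) p).re + (hp k p).im * (hp (Dz k) p).im))
      (fun p => 2 * ((hp (Dz k) p).re ^ 2 + (hp (Dz k) p).im ^ 2
        + (hp k p).re * (hp (Dz (Dz k)) p).re + (hp k p).im * (hp (Dz (Dz k)) p).im))
      (fun p => 2 * (-((hp k p).re * (hp (Dz k) p).im) + (hp k p).im * (hp (Dz k) p).re))
      (fun p => 2 * ((hp (Dz k) p).re ^ 2 + (hp (Dz k) p).im ^ 2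
        - (hp k p).re * (hp (Dz (Dz k)) p).re - (hp k p).im * (hp (Dz (Dz k)) p).im)) := by
  have hk1 := Dz_diff hk
  have hk2 := Dz_diff hk1
  have c0 := Uch_cont hk.continuousOn
  have c1 := Uch_cont hk1.continuousOn
  have c2 := Uch_cont hk2.continuousOn
  have re0 := Complex.continuous_re.comp_continuousOn c0
  have im0 := Complex.continuous_im.comp_continuousOn c0
  have re1 := Complex.continuous_re.comp_continuousOn c1
  have im1 := Complex.continuous_im.comp_continuousOn c1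
  have re2 := Complex.continuous_re.comp_continuousOn c2
  have im2 := Complex.continuous_im.comp_continuousOn c2
  refine ⟨?_, ?_, ?_, ?_, ?_, ?_, ?_, ?_, ?_, ?_⟩
  · intro p h
    have h : 0 < p.2 := by simpa using h
    obtain ⟨a1, a2, -, -⟩ := Uch_reim hk p h
    have := (a1.pow 2).add (a2.pow 2)
    refine this.congr_deriv ?_
    simp only [Prod.mk.eta]
    ring
  · intro p h
    have h : 0 < p.2 := by simpa using h
    obtain ⟨a1, a2, -, -⟩ := Uch_reim hk p h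
    obtain ⟨b1, b2, -, -⟩ := Uch_reim hk1 p h
    have := ((a1.mul b1).add (a2.mul b2)).const_mul 2
    refine this.congr_deriv ?_
    simp only [Prod.mk.eta]
    ring
  · intro p h
    have h : 0 < p.2 := by simpa using h
    obtain ⟨-, -, a1, a2⟩ := Uch_reim hk p h
    have := (a1.pow 2).add (a2.pow 2)
    refine this.congr_deriv ?_
    simp only [Prod.mk.eta]
    ring
  · intro p h
    have h : 0 < p.2 := by simpa using h
    obtain ⟨-, -, a1, a2⟩ := Uch_reim hk p h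
    obtain ⟨-, -, b1, b2⟩ := Uch_reim hk1 p h
    have := (((a1.mul b2).neg).add (a2.mul b1)).const_mul 2
    refine this.congr_deriv ?_
    simp only [Prod.mk.eta]
    ring
  · exact (re0.pow 2).add (im0.pow 2)
  · exact continuousOn_const.mul ((re0.mul re1).add (im0.mul im1))
  · exact continuousOn_const.mul ((((re1.pow 2).add (im1.pow 2)).add (re0.mul re2)).add (im0.mul im2))
  · exact continuousOn_const.mul (((re0.mul im1).neg).add (im0.mul re1))
  · exact continuousOn_const.mul ((((re1.pow 2).add (im1.pow 2)).sub (re0.mul re2)).sub (im0.mul im2))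
  · intro p _
    show (hp k (p.1 + 2 * Real.pi, p.2)).re ^ 2 + _ = _
    rw [hp_per]

theorem Uch_normsq (z : ℂ) : ‖z‖ ^ 2 = z.re ^ 2 + z.im ^ 2 := by
  rw [Complex.sq_norm, Complex.normSq_apply]; ring

/-- **(Uch)** Uchiyama's lemma. -/
theorem Uch (S Sx Sxx Sy Syy : ℝ × ℝ → ℝ) (h : P2 0 S Sx Sxx Sy Syy)
    (h0 : ∀ p : ℝ × ℝ, 0 < p.2 → 0 ≤ S p)
    (sup : ∀ p : ℝ × ℝ, 0 < p.2 → Sxx p + Syy p ≤ 0)
    (k : ℂ → ℂ) (hkc : ContinuousOn k (Metric.closedBall 0 1))
    (hk : DifferentiableOn ℂ k (Metric.ball 0 1)) :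
    ∫⁻ p in ST, ENNReal.ofReal (-(Sxx p + Syy p) * Real.exp (-S p) * ‖hp k p‖ ^ 2 * p.2)
      ≤ ENNReal.ofReal (∫ x in Set.Ioc 0 (2 * Real.pi), ‖k (E (x, 0))‖ ^ 2) := by
  obtain ⟨B, hB0, hB⟩ := hp_bdd hkc
  have hq := Uch_sq hk
  set q : ℝ × ℝ → ℝ := fun p => (hp k p).re ^ 2 + (hp k p).im ^ 2 with hqdef
  set qx : ℝ × ℝ → ℝ :=
    fun p => 2 * ((hp k p).re * (hp (Dz k) p).re + (hp k p).im * (hp (Dz k) p).im) with hqx
  set qxx : ℝ × ℝ → ℝ := (fun p => 2 * ((hp (Dz k) p).re ^ 2 + (hp (Dz k) p).im ^ 2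
        + (hp k p).re * (hp (Dz (Dz k)) p).re + (hp k p).im * (hp (Dz (Dz k)) p).im)) with hqxx
  set qy : ℝ × ℝ → ℝ :=
      (fun p => 2 * (-((hp k p).re * (hp (Dz k) p).im) + (hp k p).im * (hp (Dz k) p).re)) with hqy
  set qyy : ℝ × ℝ → ℝ := (fun p => 2 * ((hp (Dz k) p).re ^ 2 + (hp (Dz k) p).im ^ 2
        - (hp k p).re * (hp (Dz (Dz k)) p).re - (hp k p).im * (hp (Dz (Dz k)) p).im)) with hqyy
  have hqn : ∀ p, q p = ‖hp k p‖ ^ 2 := fun p => (Uch_normsq _).symm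
  have hq0 : ∀ p, 0 ≤ q p := fun p => by rw [hqn]; positivity
  set U : ℝ × ℝ → ℝ := fun p => Real.exp (-S p) * q p with hU
  set Ux : ℝ × ℝ → ℝ := fun p => Real.exp (-S p) * (-Sx p * q p + qx p) with hUx
  set Uxx : ℝ × ℝ → ℝ := fun p => Real.exp (-S p) *
    (Sx p ^ 2 * q p - 2 * Sx p * qx p - Sxx p * q p + qxx p) with hUxx
  set Uy : ℝ × ℝ → ℝ := fun p => Real.exp (-S p) * (-Sy p * q p + qy p) with hUy
  set Uyy : ℝ × ℝ → ℝ := fun p => Real.exp (-S p) *
    (Sy p ^ 2 * q p - 2 * Sy p * qy p - Syy p * q p + qyy p) with hUyy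
  have hexpc : ContinuousOn (fun p => Real.exp (-S p)) {p : ℝ × ℝ | -(0 : ℝ) < p.2} :=
    Real.continuous_exp.comp_continuousOn h.c.neg
  have hUP : P2 0 U Ux Uxx Uy Uyy := by
    refine ⟨?_, ?_, ?_, ?_, ?_, ?_, ?_, ?_, ?_, ?_⟩
    · intro p hp
      have := ((h.dx p hp).neg.exp).mul (hq.dx p hp)
      refine this.congr_deriv ?_
      simp only [hUx, Pi.neg_apply, Prod.mk.eta]; ring
    · intro p hp
      have := ((h.dx p hp).neg.exp).mul ((((h.dxx p hp).neg).mul (hq.dx p hp)).add (hq.dxx p hp))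
      refine this.congr_deriv ?_
      simp only [hUxx, Pi.neg_apply, Pi.add_apply, Pi.mul_apply, Prod.mk.eta]; ring
    · intro p hp
      have := ((h.dy p hp).neg.exp).mul (hq.dy p hp)
      refine this.congr_deriv ?_
      simp only [hUy, Pi.neg_apply, Prod.mk.eta]; ring
    · intro p hp
      have := ((h.dy p hp).neg.exp).mul ((((h.dyy p hp).neg).mul (hq.dy p hp)).add (hq.dyy p hp))
      refine this.congr_deriv ?_
      simp only [hUyy, Pi.neg_apply, Pi.add_apply, Pi.mul_apply, Prod.mk.eta]; ring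
    · exact hexpc.mul hq.c
    · exact hexpc.mul ((h.cx.neg.mul hq.c).add hq.cx)
    · exact hexpc.mul (((((h.cx.pow 2).mul hq.c).sub ((continuousOn_const.mul h.cx).mul hq.cx)).sub
        (h.cxx.mul hq.c)).add hq.cxx)
    · exact hexpc.mul ((h.cy.neg.mul hq.c).add hq.cy)
    · exact hexpc.mul (((((h.cy.pow 2).mul hq.c).sub ((continuousOn_const.mul h.cy).mul hq.cy)).sub
        (h.cyy.mul hq.c)).add hq.cyy)
    · intro p hp
      simp only [hU]
      rw [h.per p hp, hq.per p hp]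
  have hkey : ∀ p : ℝ × ℝ, 0 < p.2 →
      -(Sxx p + Syy p) * Real.exp (-S p) * q p ≤ Uxx p + Uyy p := by
    intro p _
    have hE := (Real.exp_pos (-S p)).le
    have e1 : Uxx p + Uyy p - (-(Sxx p + Syy p) * Real.exp (-S p) * q p)
        = Real.exp (-S p) * ((Sx p ^ 2 + Sy p ^ 2) * q p - 2 * Sx p * qx p - 2 * Sy p * qy p
            + (qxx p + qyy p)) := by
      simp only [hUxx, hUyy]; ring
    have e2 : 0 ≤ (Sx p ^ 2 + Sy p ^ 2) * q p - 2 * Sx p * qx p - 2 * Sy p * qy p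
            + (qxx p + qyy p) := by
      simp only [hqdef, hqx, hqy, hqxx, hqyy]
      have : ((Sx p ^ 2 + Sy p ^ 2) * ((hp k p).re ^ 2 + (hp k p).im ^ 2)
          - 2 * Sx p * (2 * ((hp k p).re * (hp (Dz k) p).re + (hp k p).im * (hp (Dz k) p).im))
          - 2 * Sy p * (2 * (-((hp k p).re * (hp (Dz k) p).im) + (hp k p).im * (hp (Dz k) p).re))
          + (2 * ((hp (Dz k) p).re ^ 2 + (hp (Dz k) p).im ^ 2
              + (hp k p).re * (hp (Dz (Dz k)) p).re + (hp k p).im * (hp (Dz (Dz k)) p).im)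
            + 2 * ((hp (Dz k) p).re ^ 2 + (hp (Dz k) p).im ^ 2
              - (hp k p).re * (hp (Dz (Dz k)) p).re - (hp k p).im * (hp (Dz (Dz k)) p).im)))
          = (2 * (hp (Dz k) p).re - Sx p * (hp k p).re - Sy p * (hp k p).im) ^ 2
            + (2 * (hp (Dz k) p).im - Sx p * (hp k p).im + Sy p * (hp k p).re) ^ 2 := by ring
      rw [this]; positivity
    nlinarith [mul_nonneg hE e2]
  have hLc : ContinuousOn (fun p => Uxx p + Uyy p) {p : ℝ × ℝ | 0 < p.2} := by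
    refine (hUP.cxx.add hUP.cyy).mono (fun p hp => ?_)
    simpa using hp
  have hUnn : ∀ p : ℝ × ℝ, 0 < p.2 → 0 ≤ Uxx p + Uyy p := by
    intro p hp
    refine le_trans ?_ (hkey p hp)
    have h1 := sup p hp
    have h2 := (Real.exp_pos (-S p)).le
    have h3 := hq0 p
    have : 0 ≤ -(Sxx p + Syy p) := by linarith
    positivity
  have hUle : ∀ p : ℝ × ℝ, 0 < p.2 → U p ≤ ‖hp k p‖ ^ 2 := by
    intro p hp
    simp only [hU]
    rw [hqn]
    have : Real.exp (-S p) ≤ 1 := Real.exp_le_one_iff.2 (by linarith [h0 p hp])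
    nlinarith [sq_nonneg ‖Pool.H14.SR.hp k p‖]
  have main : ∫⁻ p in ST, ENNReal.ofReal ((Uxx p + Uyy p) * p.2)
      ≤ ENNReal.ofReal (∫ x in Set.Ioc 0 (2 * Real.pi), ‖k (E (x, 0))‖ ^ 2) := by
    apply Uch_limit (fun p => Uxx p + Uyy p) hLc
      (fun y => ∫ x in Set.Ioc 0 (2 * Real.pi), ‖k (E (x, y))‖ ^ 2)
    · exact Uch_tendsto (fun z => ‖k z‖ ^ 2) (hkc.norm.pow 2)
    · intro e0 he0
      refine (G0 U Ux Uxx Uy Uyy hUP (B ^ 2) (fun p hp => ?_) (fun p hp => ?_) hUnn e0 he0).trans ?_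
      · simp only [hU]
        exact mul_nonneg (Real.exp_pos _).le (hq0 p)
      · exact (hUle p hp).trans (pow_le_pow_left₀ (norm_nonneg _) (hB p hp.le) 2)
      · apply ENNReal.ofReal_le_ofReal
        apply setIntegral_mono_on
        · apply Continuous.integrableOn_Ioc
          exact hUP.c.comp_continuous (by fun_prop) (fun x => show -(0 : ℝ) < e0 by linarith)
        · apply Continuous.integrableOn_Ioc
          have : Continuous (fun x : ℝ => k (E (x, e0))) :=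
            hkc.comp_continuous (continuous_E.comp (by fun_prop))
              (fun x => E_mem_closedBall (show (0 : ℝ) ≤ e0 from he0.le))
          exact this.norm.pow 2
        · exact measurableSet_Ioc
        · intro x _
          exact hUle (x, e0) he0
  refine le_trans ?_ main
  apply setLIntegral_mono_ae'
  · exact Uch_meas_ST
  · refine Eventually.of_forall fun p hp => ?_
    apply ENNReal.ofReal_le_ofReal
    have := hkey p hp.2
    rw [← hqn]
    exact mul_le_mul_of_nonneg_right this hp.2.le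

end Pool.H14.SR

end S_Uch

noncomputable section S_HS

open MeasureTheory Set Filter Topology
namespace Pool.H14.SR


/-- **(HS)** Hardy-Stein inequality.  `f` continuous on the closed disc, analytic inside, `s > 0`:
`∬_{ST} |f'|² (|f|²+s²)^{-1/2} y ≤ ∫_0^{2π} (|f|²+s²)^{1/2} dx`. -/
theorem HS (f : ℂ → ℂ) (hfc : ContinuousOn f (Metric.closedBall 0 1))
    (hf : DifferentiableOn ℂ f (Metric.ball 0 1)) (s : ℝ) (hs : 0 < s) :
    ∫⁻ p in ST, ENNReal.ofReal (‖hp (Dz f) p‖ ^ 2 / Real.sqrt (‖hp f p‖ ^ 2 + s ^ 2) * p.2)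
      ≤ ENNReal.ofReal (∫ x in Set.Ioc 0 (2 * Real.pi), Real.sqrt (‖f (E (x, 0))‖ ^ 2 + s ^ 2)) := by
  obtain ⟨B, hB0, hB⟩ := hp_bdd hfc
  have hq := Uch_sq hf
  set q : ℝ × ℝ → ℝ := fun p => (hp f p).re ^ 2 + (hp f p).im ^ 2 with hqdef
  set qx : ℝ × ℝ → ℝ :=
    fun p => 2 * ((hp f p).re * (hp (Dz f) p).re + (hp f p).im * (hp (Dz f) p).im) with hqx
  set qxx : ℝ × ℝ → ℝ := (fun p => 2 * ((hp (Dz f) p).re ^ 2 + (hp (Dz f) p).im ^ 2
        + (hp f p).re * (hp (Dz (Dz f)) p).re + (hp f p).im * (hp (Dz (Dz f)) p).im)) with hqxx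
  set qy : ℝ × ℝ → ℝ :=
      (fun p => 2 * (-((hp f p).re * (hp (Dz f) p).im) + (hp f p).im * (hp (Dz f) p).re)) with hqy
  set qyy : ℝ × ℝ → ℝ := (fun p => 2 * ((hp (Dz f) p).re ^ 2 + (hp (Dz f) p).im ^ 2
        - (hp f p).re * (hp (Dz (Dz f)) p).re - (hp f p).im * (hp (Dz (Dz f)) p).im)) with hqyy
  have hqn : ∀ p, q p = ‖hp f p‖ ^ 2 := fun p => (Uch_normsq _).symm
  have hq0 : ∀ p, 0 ≤ q p := fun p => by rw [hqn]; positivity
  have hg0 : ∀ p, 0 < q p + s ^ 2 := fun p => by have := hq0 p; positivity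
  set R : ℝ × ℝ → ℝ := fun p => Real.sqrt (q p + s ^ 2) with hR
  have hRpos : ∀ p, 0 < R p := fun p => Real.sqrt_pos.2 (hg0 p)
  have hRsq : ∀ p, R p ^ 2 = q p + s ^ 2 := fun p => Real.sq_sqrt (hg0 p).le
  set Rx : ℝ × ℝ → ℝ := fun p => qx p / (2 * R p) with hRx
  set Rxx : ℝ × ℝ → ℝ := fun p => (qxx p * (2 * R p) - qx p * (2 * Rx p)) / (2 * R p) ^ 2 with hRxx
  set Ry : ℝ × ℝ → ℝ := fun p => qy p / (2 * R p) with hRy
  set Ryy : ℝ × ℝ → ℝ := fun p => (qyy p * (2 * R p) - qy p * (2 * Ry p)) / (2 * R p) ^ 2 with hRyy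
  have hRc : ContinuousOn R {p : ℝ × ℝ | -(0 : ℝ) < p.2} :=
    Real.continuous_sqrt.comp_continuousOn (hq.c.add continuousOn_const)
  have h2R : ∀ p ∈ {p : ℝ × ℝ | -(0 : ℝ) < p.2}, 2 * R p ≠ 0 := fun p _ => by
    have := hRpos p; positivity
  have h2R2 : ∀ p ∈ {p : ℝ × ℝ | -(0 : ℝ) < p.2}, (2 * R p) ^ 2 ≠ 0 := fun p _ => by
    have := hRpos p; positivity
  have hRxc : ContinuousOn Rx {p : ℝ × ℝ | -(0 : ℝ) < p.2} :=
    hq.cx.div (continuousOn_const.mul hRc) h2R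
  have hRyc : ContinuousOn Ry {p : ℝ × ℝ | -(0 : ℝ) < p.2} :=
    hq.cy.div (continuousOn_const.mul hRc) h2R
  have dRx : ∀ p : ℝ × ℝ, -(0 : ℝ) < p.2 → HasDerivAt (fun x => R (x, p.2)) (Rx p) p.1 := by
    intro p h
    have := ((hq.dx p h).add_const (s ^ 2)).sqrt (hg0 (p.1, p.2)).ne'
    exact this
  have dRy : ∀ p : ℝ × ℝ, -(0 : ℝ) < p.2 → HasDerivAt (fun y => R (p.1, y)) (Ry p) p.2 := by
    intro p h
    have := ((hq.dy p h).add_const (s ^ 2)).sqrt (hg0 (p.1, p.2)).ne'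
    exact this
  have hUP : P2 0 R Rx Rxx Ry Ryy := by
    refine ⟨dRx, ?_, dRy, ?_, hRc, hRxc, ?_, hRyc, ?_, ?_⟩
    · intro p h
      have := (hq.dxx p h).div ((dRx p h).const_mul 2) (h2R (p.1, p.2) h)
      exact this
    · intro p h
      have := (hq.dyy p h).div ((dRy p h).const_mul 2) (h2R (p.1, p.2) h)
      exact this
    · exact ((hq.cxx.mul (continuousOn_const.mul hRc)).sub
        (hq.cx.mul (continuousOn_const.mul hRxc))).div ((continuousOn_const.mul hRc).pow 2) h2R2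
    · exact ((hq.cyy.mul (continuousOn_const.mul hRc)).sub
        (hq.cy.mul (continuousOn_const.mul hRyc))).div ((continuousOn_const.mul hRc).pow 2) h2R2
    · intro p h
      simp only [hR]
      rw [hq.per p h]
  have hkey : ∀ p : ℝ × ℝ, ‖hp (Dz f) p‖ ^ 2 / Real.sqrt (‖hp f p‖ ^ 2 + s ^ 2)
      ≤ Rxx p + Ryy p := by
    intro p
    have hRp := hRpos p
    have hfq : Real.sqrt (‖hp f p‖ ^ 2 + s ^ 2) = R p := by simp only [hR]; rw [hqn]
    rw [hfq]
    set d : ℝ := ‖hp (Dz f) p‖ ^ 2 with hd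
    have hd' : d = (hp (Dz f) p).re ^ 2 + (hp (Dz f) p).im ^ 2 := Uch_normsq _
    have hd0 : 0 ≤ d := by positivity
    have e1 : qxx p + qyy p = 4 * d := by
      simp only [hqxx, hqyy]; rw [hd']; ring
    have e2 : qx p ^ 2 + qy p ^ 2 = 4 * q p * d := by
      simp only [hqx, hqy, hqdef]; rw [hd']; ring
    have e3 : Rxx p + Ryy p = ((qxx p + qyy p) * (2 * R p) - (qx p ^ 2 + qy p ^ 2) / R p)
        / (2 * R p) ^ 2 := by
      simp only [hRxx, hRyy, hRx, hRy]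
      field_simp
      ring
    rw [e3, e1, e2, div_le_div_iff₀ hRp (by positivity)]
    have e4 : (4 * d * (2 * R p) - 4 * q p * d / R p) * R p = 8 * d * R p ^ 2 - 4 * q p * d := by
      field_simp
      ring
    rw [e4]
    have := hRsq p
    have hs2 : 0 ≤ s ^ 2 := by positivity
    nlinarith [mul_nonneg hd0 hs2]
  have hLc : ContinuousOn (fun p => Rxx p + Ryy p) {p : ℝ × ℝ | 0 < p.2} := by
    refine (hUP.cxx.add hUP.cyy).mono (fun p hp => ?_)
    simpa using hp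
  have hUnn : ∀ p : ℝ × ℝ, 0 < p.2 → 0 ≤ Rxx p + Ryy p := by
    intro p _
    exact le_trans (by positivity) (hkey p)
  have main : ∫⁻ p in ST, ENNReal.ofReal ((Rxx p + Ryy p) * p.2)
      ≤ ENNReal.ofReal (∫ x in Set.Ioc 0 (2 * Real.pi), Real.sqrt (‖f (E (x, 0))‖ ^ 2 + s ^ 2)) := by
    apply Uch_limit (fun p => Rxx p + Ryy p) hLc
      (fun y => ∫ x in Set.Ioc 0 (2 * Real.pi), Real.sqrt (‖f (E (x, y))‖ ^ 2 + s ^ 2))
    · exact Uch_tendsto (fun z => Real.sqrt (‖f z‖ ^ 2 + s ^ 2))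
        (Real.continuous_sqrt.comp_continuousOn ((hfc.norm.pow 2).add continuousOn_const))
    · intro e0 he0
      refine (G0 R Rx Rxx Ry Ryy hUP (Real.sqrt (B ^ 2 + s ^ 2)) (fun p _ => (hRpos p).le)
        (fun p hp => ?_) hUnn e0 he0).trans ?_
      · simp only [hR]
        rw [hqn]
        apply Real.sqrt_le_sqrt
        have := pow_le_pow_left₀ (norm_nonneg _) (hB p hp.le) 2
        linarith
      · apply le_of_eq
        congr 1
        apply setIntegral_congr_fun measurableSet_Ioc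
        intro x _
        simp only [hR]
        rw [hqn]
        rfl
  refine le_trans ?_ main
  apply setLIntegral_mono_ae'
  · exact Uch_meas_ST
  · refine Eventually.of_forall fun p hp => ?_
    apply ENNReal.ofReal_le_ofReal
    exact mul_le_mul_of_nonneg_right (hkey p) hp.2.le

end Pool.H14.SR

end S_HS

noncomputable section S_OS

open MeasureTheory Set Filter Topology
namespace Pool.H14.SR

theorem OS_re_dx {g : ℝ → ℂ} {g' : ℂ} {x : ℝ} (h : HasDerivAt g g' x) :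
    HasDerivAt (fun t => (g t).re) g'.re x :=
  Complex.reCLM.hasFDerivAt.comp_hasDerivAt x h

theorem OS_P2_re {ρ : ℝ} {f : ℂ → ℂ} (hρ : 1 < ρ) (hf : DifferentiableOn ℂ f (Metric.ball 0 ρ)) :
    P2 (Real.log ρ) (fun p => (hp f p).re) (fun p => (hp (Dz f) p).re)
      (fun p => (hp (Dz (Dz f)) p).re) (fun p => (Complex.I * hp (Dz f) p).re)
      (fun p => (Complex.I * (Complex.I * hp (Dz (Dz f)) p)).re) where
  dx := fun p h => OS_re_dx (hp_dx (by linarith) hf p h)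
  dxx := fun p h => OS_re_dx (hp_dx (by linarith) (Dz_diff hf) p h)
  dy := fun p h => OS_re_dx (hp_dy (by linarith) hf p h)
  dyy := fun p h => OS_re_dx ((hp_dy (by linarith) (Dz_diff hf) p h).const_mul _)
  c := Complex.continuous_re.comp_continuousOn (hp_cont (by linarith) hf.continuousOn)
  cx := Complex.continuous_re.comp_continuousOn (hp_cont (by linarith) (Dz_diff hf).continuousOn)
  cxx := Complex.continuous_re.comp_continuousOn
    (hp_cont (by linarith) (Dz_diff (Dz_diff hf)).continuousOn)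
  cy := Complex.continuous_re.comp_continuousOn
    (continuousOn_const.mul (hp_cont (by linarith) (Dz_diff hf).continuousOn))
  cyy := Complex.continuous_re.comp_continuousOn (continuousOn_const.mul
    (continuousOn_const.mul (hp_cont (by linarith) (Dz_diff (Dz_diff hf)).continuousOn)))
  per := fun p _ => by rw [hp_per]

theorem OS_P2_nsq {ρ : ℝ} {f : ℂ → ℂ} (hρ : 1 < ρ) (hf : DifferentiableOn ℂ f (Metric.ball 0 ρ)) :
    P2 (Real.log ρ) (fun p => ‖hp f p‖ ^ 2) (fun p => 2 * inner ℝ (hp f p) (hp (Dz f) p))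
      (fun p => 2 * (inner ℝ (hp f p) (hp (Dz (Dz f)) p) + inner ℝ (hp (Dz f) p) (hp (Dz f) p)))
      (fun p => 2 * inner ℝ (hp f p) (Complex.I * hp (Dz f) p))
      (fun p => 2 * (inner ℝ (hp f p) (Complex.I * (Complex.I * hp (Dz (Dz f)) p))
        + inner ℝ (Complex.I * hp (Dz f) p) (Complex.I * hp (Dz f) p))) := by
  have c0 := hp_cont (ρ := ρ) (by linarith) hf.continuousOn
  have c1 := hp_cont (ρ := ρ) (by linarith) (Dz_diff hf).continuousOn
  have c2 := hp_cont (ρ := ρ) (by linarith) (Dz_diff (Dz_diff hf)).continuousOn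
  have d1 : ContinuousOn (fun p => Complex.I * hp (Dz f) p) {p | -Real.log ρ < p.2} :=
    continuousOn_const.mul c1
  have d2 : ContinuousOn (fun p => Complex.I * (Complex.I * hp (Dz (Dz f)) p)) {p | -Real.log ρ < p.2} :=
    continuousOn_const.mul (continuousOn_const.mul c2)
  exact
  { dx := fun p h => (hp_dx (by linarith) hf p h).norm_sq
    dxx := fun p h => ((hp_dx (by linarith) hf p h).inner ℝ
      (hp_dx (by linarith) (Dz_diff hf) p h)).const_mul 2
    dy := fun p h => (hp_dy (by linarith) hf p h).norm_sq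
    dyy := fun p h => ((hp_dy (by linarith) hf p h).inner ℝ
      ((hp_dy (by linarith) (Dz_diff hf) p h).const_mul Complex.I)).const_mul 2
    c := c0.norm.pow 2
    cx := continuousOn_const.mul (c0.inner c1)
    cxx := continuousOn_const.mul ((c0.inner c2).add (c1.inner c1))
    cy := continuousOn_const.mul (c0.inner d1)
    cyy := continuousOn_const.mul ((c0.inner d2).add (d1.inner d1))
    per := fun p _ => by rw [hp_per] }

theorem OS_lap_nsq (f : ℂ → ℂ) (p : ℝ × ℝ) :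
    2 * (inner ℝ (hp f p) (hp (Dz (Dz f)) p) + inner ℝ (hp (Dz f) p) (hp (Dz f) p))
      + 2 * (inner ℝ (hp f p) (Complex.I * (Complex.I * hp (Dz (Dz f)) p))
        + inner ℝ (Complex.I * hp (Dz f) p) (Complex.I * hp (Dz f) p))
      = 4 * ‖hp (Dz f) p‖ ^ 2 := by
  have h1 : Complex.I * (Complex.I * hp (Dz (Dz f)) p) = -hp (Dz (Dz f)) p := by
    rw [← mul_assoc, Complex.I_mul_I]; ring
  rw [h1, inner_neg_right, real_inner_self_eq_norm_sq, real_inner_self_eq_norm_sq, norm_mul,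
    Complex.norm_I]
  ring

theorem OS_Uy_bound {ρ : ℝ} {f : ℂ → ℂ} (hρ : 1 < ρ)
    (hf : DifferentiableOn ℂ f (Metric.ball 0 ρ)) :
    ∃ B : ℝ, 0 ≤ B ∧ ∀ p : ℝ × ℝ, 0 ≤ p.2 →
      |2 * inner ℝ (hp f p) (Complex.I * hp (Dz f) p)| ≤ B * Real.exp (-p.2) := by
  obtain ⟨B1, hB1, h1⟩ := hp_bdd (hf.continuousOn.mono (Metric.closedBall_subset_ball hρ))
  obtain ⟨B2, hB2, h2⟩ := hp_decay hρ hf
  refine ⟨2 * (B1 * B2), by positivity, fun p h => ?_⟩
  rw [abs_mul, abs_two]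
  have h3 := abs_real_inner_le_norm (hp f p) (Complex.I * hp (Dz f) p)
  rw [norm_mul, Complex.norm_I, one_mul] at h3
  have h4 : ‖hp f p‖ * ‖hp (Dz f) p‖ ≤ B1 * (B2 * Real.exp (-p.2)) :=
    mul_le_mul (h1 p h) (h2 p h) (norm_nonneg _) hB1
  linarith

theorem OS_P2_sub {U Ux Uxx Uy Uyy V Vx Vxx Vy Vyy : ℝ × ℝ → ℝ} {σ : ℝ}
    (h : P2 σ U Ux Uxx Uy Uyy) (k : P2 σ V Vx Vxx Vy Vyy) :
    P2 σ (fun p => U p - V p) (fun p => Ux p - Vx p) (fun p => Uxx p - Vxx p)
      (fun p => Uy p - Vy p) (fun p => Uyy p - Vyy p) where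
  dx := fun p hp => (h.dx p hp).sub (k.dx p hp)
  dxx := fun p hp => (h.dxx p hp).sub (k.dxx p hp)
  dy := fun p hp => (h.dy p hp).sub (k.dy p hp)
  dyy := fun p hp => (h.dyy p hp).sub (k.dyy p hp)
  c := h.c.sub k.c
  cx := h.cx.sub k.cx
  cxx := h.cxx.sub k.cxx
  cy := h.cy.sub k.cy
  cyy := h.cyy.sub k.cyy
  per := fun p hp => by rw [h.per p hp, k.per p hp]

/-- `O` is `C²` with `ΔO = -4(|a'|²+|b'|²)`, and `|∂y O| ≤ B e^{-y}` on `y ≥ 0`.
(`∂x f = f'`, `∂y f = i f'` with `f' = hp (Dz f)`; `Re F` is harmonic, `Δ|f|² = 4|f'|²`; `hp_decay`.) -/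
theorem Osc_P2 {δ ρ : ℝ} {a b F : ℂ → ℂ} (h : Dat δ ρ a b F) :
    ∃ Ox Oxx Oy Oyy : ℝ × ℝ → ℝ, P2 (Real.log ρ) (Osc a b F) Ox Oxx Oy Oyy ∧
      (∀ p : ℝ × ℝ, -Real.log ρ < p.2 →
        Oxx p + Oyy p = -4 * (‖hp (Dz a) p‖ ^ 2 + ‖hp (Dz b) p‖ ^ 2)) ∧
      ∃ B : ℝ, 0 ≤ B ∧ ∀ p : ℝ × ℝ, 0 ≤ p.2 → |Oy p| ≤ B * Real.exp (-p.2) := by
  refine ⟨_, _, _, _, OS_P2_sub (OS_P2_sub (OS_P2_re h.hρ h.hF) (OS_P2_nsq h.hρ h.ha))
    (OS_P2_nsq h.hρ h.hb), fun p _ => ?_, ?_⟩
  · have h1 := OS_lap_nsq a p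
    have h2 := OS_lap_nsq b p
    have h3 : (hp (Dz (Dz F)) p).re + (Complex.I * (Complex.I * hp (Dz (Dz F)) p)).re = 0 := by
      rw [← mul_assoc, Complex.I_mul_I]; simp
    linarith
  · obtain ⟨B1, hB1, h1⟩ := OS_Uy_bound h.hρ h.ha
    obtain ⟨B2, hB2, h2⟩ := OS_Uy_bound h.hρ h.hb
    obtain ⟨B3, hB3, h3⟩ := hp_decay h.hρ h.hF
    refine ⟨B3 + B1 + B2, by positivity, fun p hp0 => ?_⟩
    have e1 := h1 p hp0
    have e2 := h2 p hp0
    have e3 : |(Complex.I * hp (Dz F) p).re| ≤ B3 * Real.exp (-p.2) := by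
      refine (Complex.abs_re_le_norm _).trans ?_
      rw [norm_mul, Complex.norm_I, one_mul]
      exact h3 p hp0
    refine (abs_sub _ _).trans ?_
    have e4 := abs_sub ((Complex.I * hp (Dz F) p).re) (2 * inner ℝ (hp a p) (Complex.I * hp (Dz a) p))
    nlinarith

theorem Osc_nonneg {δ ρ : ℝ} {a b F : ℂ → ℂ} (h : Dat δ ρ a b F) (p : ℝ × ℝ)
    (hp : -Real.log ρ < p.2) : 0 ≤ Osc a b F p ∧ Osc a b F p ≤ 2 := by
  have h1 := h.hO (E p) (E_mem_ball (by linarith [h.hρ]) hp)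
  have h2 := h.hO2 (E p) (E_mem_ball (by linarith [h.hρ]) hp)
  unfold Osc Pool.H14.SR.hp
  constructor
  · linarith
  · nlinarith [sq_nonneg ‖a (E p)‖, sq_nonneg ‖b (E p)‖]

end Pool.H14.SR

end S_OS

noncomputable section S_STK

open MeasureTheory Set Filter Topology
namespace Pool.H14.SR

/-- the rectangle -/
def STKR (Y : ℝ) : Set (ℝ × ℝ) := Set.Ioc 0 (2 * Real.pi) ×ˢ Set.Ioc 0 Y

theorem STKR_int {σ : ℝ} (hσ : 0 < σ) {f : ℝ × ℝ → ℂ} (hf : ContinuousOn f {p | -σ < p.2}) (Y : ℝ) :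
    IntegrableOn f (STKR Y) := by
  have h1 : ContinuousOn f (Set.Icc 0 (2 * Real.pi) ×ˢ Set.Icc 0 Y) := by
    apply hf.mono
    rintro ⟨x, y⟩ ⟨_, hy⟩
    exact lt_of_lt_of_le (by linarith) hy.1
  have h2 : IntegrableOn f (Set.Icc 0 (2 * Real.pi) ×ˢ Set.Icc 0 Y) :=
    h1.integrableOn_compact (isCompact_Icc.prod isCompact_Icc)
  exact h2.mono_set (Set.prod_mono Set.Ioc_subset_Icc_self Set.Ioc_subset_Icc_self)

theorem STKR_fub {f : ℝ × ℝ → ℂ} {Y : ℝ} (hf : IntegrableOn f (STKR Y)) :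
    ∫ p in STKR Y, f p = ∫ x in Set.Ioc 0 (2 * Real.pi), ∫ y in Set.Ioc 0 Y, f (x, y) := by
  unfold STKR at *
  rw [Measure.volume_eq_prod] at *
  exact setIntegral_prod f hf

theorem STKR_fub' {f : ℝ × ℝ → ℂ} {Y : ℝ} (hf : IntegrableOn f (STKR Y)) :
    ∫ p in STKR Y, f p = ∫ y in Set.Ioc 0 Y, ∫ x in Set.Ioc 0 (2 * Real.pi), f (x, y) := by
  unfold STKR at *
  rw [Measure.volume_eq_prod] at *
  rw [IntegrableOn, ← Measure.prod_restrict] at hf
  rw [← Measure.prod_restrict]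
  exact integral_prod_symm f hf

theorem STK_x {σ : ℝ} (hσ : 0 < σ) {u ux uy : ℝ × ℝ → ℂ} (h : C1 σ u ux uy) {y : ℝ} (hy : 0 ≤ y) :
    ∫ x in Set.Ioc 0 (2 * Real.pi), ux (x, y) = 0 := by
  have hpi : (0 : ℝ) ≤ 2 * Real.pi := by positivity
  rw [← intervalIntegral.integral_of_le hpi]
  have hc : Continuous (fun x : ℝ => ux (x, y)) := by
    have := h.cx.comp (f := fun x : ℝ => (x, y)) (s := Set.univ) (by fun_prop)
      (fun x _ => (by show -σ < y; linarith))
    exact continuousOn_univ.1 this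
  rw [intervalIntegral.integral_eq_sub_of_hasDerivAt (f := fun x => u (x, y))
    (fun x _ => h.dx (x, y) (by show -σ < y; linarith)) (hc.intervalIntegrable _ _)]
  have := h.per (0, y) (by show -σ < y; linarith)
  simp only [zero_add] at this
  rw [this, sub_self]

theorem STK_y {σ : ℝ} (hσ : 0 < σ) {u ux uy : ℝ × ℝ → ℂ} (h : C1 σ u ux uy) {Y : ℝ} (hY : 0 ≤ Y) (x : ℝ) :
    ∫ y in Set.Ioc 0 Y, uy (x, y) = u (x, Y) - u (x, 0) := by
  rw [← intervalIntegral.integral_of_le hY]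
  have hc : ContinuousOn (fun y : ℝ => uy (x, y)) (Set.uIcc 0 Y) := by
    refine h.cy.comp (f := fun y : ℝ => (x, y)) (by fun_prop) ?_
    intro y hy
    rw [Set.uIcc_of_le hY] at hy
    show -σ < y
    linarith [hy.1]
  rw [intervalIntegral.integral_eq_sub_of_hasDerivAt (f := fun y => u (x, y)) ?_ hc.intervalIntegrable]
  intro y hy
  rw [Set.uIcc_of_le hY] at hy
  exact h.dy (x, y) (by show -σ < y; linarith [hy.1])

theorem STK_cx {σ : ℝ} (hσ : 0 < σ) {u : ℝ × ℝ → ℂ} (h : ContinuousOn u {p | -σ < p.2}) {y : ℝ} (hy : 0 ≤ y) :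
    Continuous (fun x : ℝ => u (x, y)) := by
  have := h.comp (f := fun x : ℝ => (x, y)) (s := Set.univ) (by fun_prop)
      (fun x _ => (by show -σ < y; linarith))
  exact continuousOn_univ.1 this

theorem STK_rect {σ : ℝ} (hσ : 0 < σ) {u ux uy : ℝ × ℝ → ℂ} (h : C1 σ u ux uy) {Y : ℝ} (hY : 0 ≤ Y) :
    ∫ p in STKR Y, (1 / 2 : ℂ) * (ux p + Complex.I * uy p)
      = (1 / 2 : ℂ) * Complex.I * ((∫ x in Set.Ioc 0 (2 * Real.pi), u (x, Y))
        - ∫ x in Set.Ioc 0 (2 * Real.pi), u (x, 0)) := by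
  have h1 : IntegrableOn ux (STKR Y) := STKR_int hσ h.cx Y
  have h2 : IntegrableOn uy (STKR Y) := STKR_int hσ h.cy Y
  rw [integral_const_mul, integral_add h1 (h2.const_mul _), integral_const_mul, STKR_fub' h1, STKR_fub h2]
  have e1 : ∫ y in Set.Ioc 0 Y, ∫ x in Set.Ioc 0 (2 * Real.pi), ux (x, y) = 0 := by
    rw [setIntegral_congr_fun (g := fun _ => (0 : ℂ)) measurableSet_Ioc (fun y hy => STK_x hσ h hy.1.le)]
    simp
  have e2 : ∫ x in Set.Ioc 0 (2 * Real.pi), ∫ y in Set.Ioc 0 Y, uy (x, y)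
      = (∫ x in Set.Ioc 0 (2 * Real.pi), u (x, Y)) - ∫ x in Set.Ioc 0 (2 * Real.pi), u (x, 0) := by
    rw [setIntegral_congr_fun measurableSet_Ioc (fun x _ => STK_y hσ h hY x)]
    apply integral_sub
    · exact (STK_cx hσ h.c hY).integrableOn_Ioc
    · exact (STK_cx hσ h.c le_rfl).integrableOn_Ioc
  rw [e1, e2]
  ring

theorem STKR_iUnion : ⋃ n : ℕ, STKR n = ST := by
  ext ⟨x, y⟩
  simp only [STKR, ST, Set.mem_iUnion, Set.mem_prod, Set.mem_Ioc, Set.mem_ofPred_eq]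
  constructor
  · rintro ⟨n, h1, h2, h3⟩
    exact ⟨h1, h2⟩
  · rintro ⟨h1, h2⟩
    obtain ⟨n, hn⟩ := exists_nat_ge y
    exact ⟨n, h1, h2, hn⟩

theorem STKR_meas (Y : ℝ) : MeasurableSet (STKR Y) := measurableSet_Ioc.prod measurableSet_Ioc

theorem STKR_lim {f : ℝ × ℝ → ℂ} (hf : IntegrableOn f ST) :
    Tendsto (fun n : ℕ => ∫ p in STKR n, f p) atTop (𝓝 (∫ p in ST, f p)) := by
  have := tendsto_setIntegral_of_monotone (μ := volume) (f := f) (s := fun n : ℕ => STKR n)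
    (fun n => STKR_meas n) ?_ (by rw [STKR_iUnion]; exact hf)
  · rwa [STKR_iUnion] at this
  · intro m n hmn
    apply Set.prod_mono subset_rfl
    exact Set.Ioc_subset_Ioc_right (by exact_mod_cast hmn)

/-- **(STK)** Stokes on the strip: `u` is `C¹`, periodic on `y > -σ`, `|u| ≤ B e^{-y}` on `y ≥ 0`, and
`∂̄u = (1/2)(ux + i uy)` is integrable over the strip.  Then
`∫_0^{2π} u(x,0) dx = 2i ∬_{ST} ∂̄u`.
(`∫ ux dx = 0` by periodicity, `∫_0^∞ uy dy = -u(x,0)`.) -/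
theorem STK (σ : ℝ) (hσ : 0 < σ) (u ux uy : ℝ × ℝ → ℂ) (h : C1 σ u ux uy) (B : ℝ)
    (hB : ∀ p : ℝ × ℝ, 0 ≤ p.2 → ‖u p‖ ≤ B * Real.exp (-p.2))
    (hint : IntegrableOn (fun p => (1 / 2 : ℂ) * (ux p + Complex.I * uy p)) ST) :
    ∫ x in Set.Ioc 0 (2 * Real.pi), u (x, 0)
      = 2 * Complex.I * ∫ p in ST, (1 / 2 : ℂ) * (ux p + Complex.I * uy p) := by
  have h1 := STKR_lim hint
  have h2 : Tendsto (fun n : ℕ => ∫ x in Set.Ioc 0 (2 * Real.pi), u (x, (n : ℝ))) atTop (𝓝 0) := by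
    have hb : ∀ n : ℕ, ‖∫ x in Set.Ioc 0 (2 * Real.pi), u (x, (n : ℝ))‖
        ≤ (B * Real.exp (-(n : ℝ))) * (2 * Real.pi) := by
      intro n
      have := norm_setIntegral_le_of_norm_le_const (μ := volume) (s := Set.Ioc 0 (2 * Real.pi))
        (f := fun x => u (x, (n : ℝ))) (C := B * Real.exp (-(n : ℝ)))
        (by rw [Real.volume_Ioc]; exact ENNReal.ofReal_lt_top)
        (fun x _ => hB (x, (n : ℝ)) (Nat.cast_nonneg n))
      refine this.trans (le_of_eq ?_)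
      congr 1
      rw [Real.volume_real_Ioc_of_le (by positivity)]
      ring
    refine squeeze_zero_norm hb ?_
    have h3 : Tendsto (fun n : ℕ => Real.exp (-(n : ℝ))) atTop (𝓝 0) :=
      Real.tendsto_exp_neg_atTop_nhds_zero.comp tendsto_natCast_atTop_atTop
    have h4 := (h3.const_mul B).mul_const (2 * Real.pi)
    simpa using h4
  have h3 : Tendsto (fun n : ℕ => ∫ p in STKR n, (1 / 2 : ℂ) * (ux p + Complex.I * uy p)) atTop
      (𝓝 ((1 / 2 : ℂ) * Complex.I * (0 - ∫ x in Set.Ioc 0 (2 * Real.pi), u (x, 0)))) := by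
    have : (fun n : ℕ => ∫ p in STKR n, (1 / 2 : ℂ) * (ux p + Complex.I * uy p)) = fun n : ℕ =>
      (1 / 2 : ℂ) * Complex.I * ((∫ x in Set.Ioc 0 (2 * Real.pi), u (x, (n : ℝ)))
        - ∫ x in Set.Ioc 0 (2 * Real.pi), u (x, 0)) := by
      funext n
      exact STK_rect hσ h (Nat.cast_nonneg n)
    rw [this]
    exact (h2.sub_const _).const_mul _
  have h4 := tendsto_nhds_unique h1 h3
  rw [h4]
  linear_combination (∫ x in Set.Ioc 0 (2 * Real.pi), u (x, 0)) * Complex.I_sq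

theorem STK_red {f : ℝ × ℝ → ℂ} {Y : ℝ} (hf : ∀ p : ℝ × ℝ, Y < p.2 → f p = 0) :
    ∫ p in ST, f p = ∫ p in STKR Y, f p := by
  apply setIntegral_eq_of_subset_of_forall_sdiff_eq_zero
  · have : ST = Set.Ioc 0 (2 * Real.pi) ×ˢ Set.Ioi 0 := by
      ext ⟨x, y⟩; simp [ST]
    rw [this]
    exact measurableSet_Ioc.prod measurableSet_Ioi
  · rintro ⟨x, y⟩ ⟨h1, h2⟩
    exact ⟨h1, h2.1⟩
  · rintro ⟨x, y⟩ ⟨⟨h1, h2⟩, h3⟩
    apply hf
    by_contra h4
    push Not at h4
    exact h3 ⟨h1, h2, h4⟩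

/-- Weighted version: `g` is `C¹`, periodic on `y > -σ` and zero for `y ≥ Y`:
`∬_{ST} g = -2i ∬_{ST} (∂g) y`, `∂g = (1/2)(gx - i gy)`. -/
theorem STK' (σ : ℝ) (hσ : 0 < σ) (g gx gy : ℝ × ℝ → ℂ) (h : C1 σ g gx gy) (Y : ℝ)
    (hY : ∀ p : ℝ × ℝ, Y ≤ p.2 → g p = 0) :
    ∫ p in ST, g p
      = -2 * Complex.I * ∫ p in ST, (1 / 2 : ℂ) * (gx p - Complex.I * gy p) * (p.2 : ℂ) := by
  set Z : ℝ := max Y 0 with hZ
  have hZ0 : 0 ≤ Z := le_max_right _ _
  have hZY : Y ≤ Z := le_max_left _ _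
  have hgx : ∀ p : ℝ × ℝ, Z < p.2 → gx p = 0 := by
    intro p hp
    have h1 := h.dx p (by linarith)
    have h2 : HasDerivAt (fun x : ℝ => g (x, p.2)) 0 p.1 := by
      have : (fun x : ℝ => g (x, p.2)) = fun _ => 0 := by
        funext x; exact hY (x, p.2) (by show Y ≤ p.2; linarith)
      rw [this]; exact hasDerivAt_const _ _
    exact h1.unique h2
  have hgy : ∀ p : ℝ × ℝ, Z < p.2 → gy p = 0 := by
    intro p hp
    have h1 := h.dy p (by linarith)
    have h2 : HasDerivAt (fun y : ℝ => g (p.1, y)) 0 p.2 := by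
      refine (hasDerivAt_const p.2 (0 : ℂ)).congr_of_eventuallyEq ?_
      filter_upwards [Ioi_mem_nhds hp] with y hy
      exact hY (p.1, y) (by show Y ≤ y; linarith [show Z < y from hy])
    exact h1.unique h2
  rw [STK_red (Y := Z) (f := g) (fun p hp => hY p (by linarith)),
    STK_red (Y := Z) (f := fun p => (1 / 2 : ℂ) * (gx p - Complex.I * gy p) * (p.2 : ℂ))
      (fun p hp => by rw [hgx p hp, hgy p hp]; simp)]
  have c2 : ContinuousOn (fun p : ℝ × ℝ => (p.2 : ℂ)) {p | -σ < p.2} :=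
    (Complex.continuous_ofReal.comp continuous_snd).continuousOn
  have i1 : IntegrableOn (fun p : ℝ × ℝ => gx p * (p.2 : ℂ)) (STKR Z) := STKR_int hσ (h.cx.mul c2) Z
  have i2 : IntegrableOn (fun p : ℝ × ℝ => gy p * (p.2 : ℂ)) (STKR Z) := STKR_int hσ (h.cy.mul c2) Z
  have i3 : IntegrableOn g (STKR Z) := STKR_int hσ h.c Z
  have e0 : (fun p : ℝ × ℝ => (1 / 2 : ℂ) * (gx p - Complex.I * gy p) * (p.2 : ℂ)) =
      fun p => (1 / 2 : ℂ) * (gx p * (p.2 : ℂ)) - (1 / 2 * Complex.I) * (gy p * (p.2 : ℂ)) := by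
    funext p; ring
  rw [e0, integral_sub (i1.const_mul _) (i2.const_mul _), integral_const_mul, integral_const_mul]
  have e1 : ∫ p in STKR Z, gx p * (p.2 : ℂ) = 0 := by
    rw [STKR_fub' i1]
    rw [setIntegral_congr_fun (g := fun _ => (0 : ℂ)) measurableSet_Ioc]
    · simp
    · intro y hy
      show ∫ x in Set.Ioc 0 (2 * Real.pi), gx (x, y) * (y : ℂ) = 0
      rw [integral_mul_const, STK_x hσ h hy.1.le, zero_mul]
  have e2 : ∫ p in STKR Z, gy p * (p.2 : ℂ) = -∫ p in STKR Z, g p := by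
    rw [STKR_fub i2, STKR_fub i3, ← integral_neg]
    apply setIntegral_congr_fun measurableSet_Ioc
    intro x _
    show ∫ y in Set.Ioc 0 Z, gy (x, y) * (y : ℂ) = -∫ y in Set.Ioc 0 Z, g (x, y)
    rw [← intervalIntegral.integral_of_le hZ0, ← intervalIntegral.integral_of_le hZ0]
    have hc : ContinuousOn (fun y : ℝ => gy (x, y)) (Set.uIcc 0 Z) := by
      refine h.cy.comp (f := fun y : ℝ => (x, y)) (by fun_prop) ?_
      intro y hy
      rw [Set.uIcc_of_le hZ0] at hy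
      show -σ < y
      linarith [hy.1]
    have hib := intervalIntegral.integral_mul_deriv_eq_deriv_mul (a := 0) (b := Z)
      (u := fun y : ℝ => (y : ℂ)) (u' := fun _ => 1) (v := fun y : ℝ => g (x, y)) (v' := fun y => gy (x, y))
      (fun y _ => Complex.ofRealCLM.hasDerivAt (x := y)) (fun y hy => by
        rw [Set.uIcc_of_le hZ0] at hy
        exact h.dy (x, y) (by show -σ < y; linarith [hy.1]))
      (continuous_const.intervalIntegrable _ _) hc.intervalIntegrable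
    have hgZ : g (x, Z) = 0 := hY (x, Z) hZY
    simp only [hgZ, mul_zero, Complex.ofReal_zero, zero_mul, sub_zero, one_mul, zero_sub] at hib
    rw [← hib]
    congr 1
    funext y
    ring
  rw [e1, e2]
  linear_combination (∫ p in STKR Z, g p) * Complex.I_sq

/-- Boundary values of periodic analytic functions have `HA`: `u` is `C¹`, periodic on `y > -σ`,
`ux + i uy = 0`, bounded on `y ≥ 0`.  (Apply `STK` to `u e^{i(n+1)ζ}`.) -/
theorem HA_of_analytic (σ : ℝ) (hσ : 0 < σ) (u ux uy : ℝ × ℝ → ℂ) (h : C1 σ u ux uy) (B : ℝ)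
    (hB : ∀ p : ℝ × ℝ, 0 ≤ p.2 → ‖u p‖ ≤ B)
    (han : ∀ p : ℝ × ℝ, -σ < p.2 → ux p + Complex.I * uy p = 0) :
    HA (fun x => u (x, 0)) := by
  intro n
  have hB0 : 0 ≤ B := (norm_nonneg _).trans (hB (0, 0) le_rfl)
  have hEx : ∀ p : ℝ × ℝ, HasDerivAt (fun x : ℝ => E (x, p.2) ^ (n + 1))
      (((n : ℂ) + 1) * E p ^ n * (Complex.I * E p)) p.1 := by
    intro p
    have := (hasDerivAt_Ex p).pow (n + 1)
    refine this.congr_deriv ?_
    simp
  have hEy : ∀ p : ℝ × ℝ, HasDerivAt (fun y : ℝ => E (p.1, y) ^ (n + 1))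
      (((n : ℂ) + 1) * E p ^ n * (-(E p))) p.2 := by
    intro p
    have := (hasDerivAt_Ey p).pow (n + 1)
    refine this.congr_deriv ?_
    simp
  have cE : Continuous E := continuous_E
  have hC : C1 σ (fun p => u p * E p ^ (n + 1))
      (fun p => ux p * E p ^ (n + 1) + u p * (((n : ℂ) + 1) * E p ^ n * (Complex.I * E p)))
      (fun p => uy p * E p ^ (n + 1) + u p * (((n : ℂ) + 1) * E p ^ n * (-(E p)))) := by
    refine ⟨fun p hp => ?_, fun p hp => ?_, ?_, ?_, ?_, fun p hp => ?_⟩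
    · exact (h.dx p hp).mul (hEx p)
    · exact (h.dy p hp).mul (hEy p)
    · exact h.c.mul (by fun_prop)
    · exact (h.cx.mul (by fun_prop)).add (h.c.mul (by fun_prop))
    · exact (h.cy.mul (by fun_prop)).add (h.c.mul (by fun_prop))
    · simp only [h.per p hp, E_per]
  have hz : ∀ p : ℝ × ℝ, -σ < p.2 → (1 / 2 : ℂ) *
      ((ux p * E p ^ (n + 1) + u p * (((n : ℂ) + 1) * E p ^ n * (Complex.I * E p))) + Complex.I *
      (uy p * E p ^ (n + 1) + u p * (((n : ℂ) + 1) * E p ^ n * (-(E p))))) = 0 := by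
    intro p hp
    linear_combination (1 / 2 * E p ^ (n + 1)) * han p hp
  have hzero : ∀ p ∈ ST, (1 / 2 : ℂ) *
      ((ux p * E p ^ (n + 1) + u p * (((n : ℂ) + 1) * E p ^ n * (Complex.I * E p))) + Complex.I *
      (uy p * E p ^ (n + 1) + u p * (((n : ℂ) + 1) * E p ^ n * (-(E p))))) = 0 :=
    fun p hp => hz p (by linarith [hp.2])
  have hSTm : MeasurableSet ST := by
    have : ST = Set.Ioc 0 (2 * Real.pi) ×ˢ Set.Ioi 0 := by
      ext ⟨x, y⟩; simp [ST]
    rw [this]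
    exact measurableSet_Ioc.prod measurableSet_Ioi
  have key := STK σ hσ _ _ _ hC B (fun p hp => ?_) ?_
  · rw [setIntegral_congr_fun hSTm hzero] at key
    simp only [integral_zero, mul_zero] at key
    rw [← key]
    apply setIntegral_congr_fun measurableSet_Ioc
    intro x _
    show Complex.exp (((n : ℂ) + 1) * Complex.I * (x : ℂ)) * u (x, 0) = u (x, 0) * E (x, 0) ^ (n + 1)
    rw [E_zero, ← Complex.exp_nat_mul, mul_comm]
    congr 2
    push_cast; ring
  · rw [norm_mul, norm_pow, norm_E]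
    have h1 : Real.exp (-p.2) ^ (n + 1) ≤ Real.exp (-p.2) := by
      have h2 : Real.exp (-p.2) ≤ 1 := Real.exp_le_one_iff.2 (by linarith)
      exact pow_le_of_le_one (Real.exp_pos _).le h2 (by omega)
    exact mul_le_mul (hB p hp) h1 (by positivity) hB0
  · refine (integrableOn_zero (μ := volume)).congr_fun (fun p hp => (hzero p hp).symm) hSTm

end Pool.H14.SR

end S_STK

noncomputable section S_WO

open MeasureTheory Set Filter Topology
namespace Pool.H14.SR

theorem wo_ST : ST = Set.Ioc 0 (2 * Real.pi) ×ˢ Set.Ioi (0 : ℝ) := by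
  ext p; simp [ST, Set.mem_prod]

theorem wo_meas_ST : MeasurableSet ST := by
  rw [wo_ST]; exact measurableSet_Ioc.prod measurableSet_Ioi

theorem wo_int (B : ℝ) : IntegrableOn (fun p : ℝ × ℝ => B * Real.exp (-p.2)) ST := by
  rw [wo_ST]
  unfold IntegrableOn
  rw [Measure.volume_eq_prod, ← Measure.prod_restrict]
  have h1 : Integrable (fun _ : ℝ => B) (volume.restrict (Set.Ioc 0 (2 * Real.pi))) :=
    integrable_const _
  have h2 : Integrable (fun y : ℝ => Real.exp (-y)) (volume.restrict (Set.Ioi 0)) := by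
    have := exp_neg_integrableOn_Ioi 0 one_pos
    simpa [IntegrableOn] using this
  exact h1.mul_prod h2

/-- `∬ |b'|² y < ∞`. -/
theorem wo_fin {b : ℂ → ℂ} {ρ : ℝ} (hρ : 1 < ρ) (hb : DifferentiableOn ℂ b (Metric.ball 0 ρ)) :
    (∫⁻ p in ST, ENNReal.ofReal (‖hp (Dz b) p‖ ^ 2 * p.2)) < ⊤ := by
  obtain ⟨B, hB, h⟩ := hp_decay hρ hb
  refine lt_of_le_of_lt ?_ (wo_int (B ^ 2)).lintegral_lt_top
  refine setLIntegral_mono' wo_meas_ST fun p hp' => ENNReal.ofReal_le_ofReal ?_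
  have hy : 0 < p.2 := hp'.2
  have h1 := h p hy.le
  have h2 : ‖hp (Dz b) p‖ ^ 2 ≤ (B * Real.exp (-p.2)) ^ 2 := pow_le_pow_left₀ (norm_nonneg _) h1 2
  have h3 : p.2 * Real.exp (-p.2) ≤ 1 := by
    rw [Real.exp_neg]
    rw [← div_eq_mul_inv, div_le_one (Real.exp_pos _)]
    linarith [Real.add_one_le_exp p.2]
  calc ‖hp (Dz b) p‖ ^ 2 * p.2 ≤ (B * Real.exp (-p.2)) ^ 2 * p.2 :=
        mul_le_mul_of_nonneg_right h2 hy.le
    _ = B ^ 2 * Real.exp (-p.2) * (p.2 * Real.exp (-p.2)) := by ring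
    _ ≤ B ^ 2 * Real.exp (-p.2) * 1 := mul_le_mul_of_nonneg_left h3 (by positivity)
    _ = B ^ 2 * Real.exp (-p.2) := by ring

theorem wo_C1 {σ : ℝ} {G Gx Gy : ℝ × ℝ → ℂ} (hG : C1 σ G Gx Gy) {f : ℂ → ℂ} {ρ' : ℝ}
    (hρ' : 1 < ρ') (hf : DifferentiableOn ℂ f (Metric.ball 0 ρ')) :
    C1 (min σ (Real.log ρ')) (fun p => G p * hp f p)
      (fun p => Gx p * hp f p + G p * hp (Dz f) p)
      (fun p => Gy p * hp f p + G p * (Complex.I * hp (Dz f) p)) := by
  have hF := C1_hp (by linarith : (0 : ℝ) < ρ') hf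
  have s1 : {p : ℝ × ℝ | -(min σ (Real.log ρ')) < p.2} ⊆ {p | -σ < p.2} := fun p h => by
    have h' : -(min σ (Real.log ρ')) < p.2 := h
    show -σ < p.2
    linarith [min_le_left σ (Real.log ρ')]
  have s2 : {p : ℝ × ℝ | -(min σ (Real.log ρ')) < p.2} ⊆ {p | -(Real.log ρ') < p.2} := fun p h => by
    have h' : -(min σ (Real.log ρ')) < p.2 := h
    show -(Real.log ρ') < p.2
    linarith [min_le_right σ (Real.log ρ')]
  exact
    { dx := fun p h => (hG.dx p (s1 h)).mul (hF.dx p (s2 h))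
      dy := fun p h => (hG.dy p (s1 h)).mul (hF.dy p (s2 h))
      c := (hG.c.mono s1).mul (hF.c.mono s2)
      cx := ((hG.cx.mono s1).mul (hF.c.mono s2)).add ((hG.c.mono s1).mul (hF.cx.mono s2))
      cy := ((hG.cy.mono s1).mul (hF.c.mono s2)).add ((hG.c.mono s1).mul (hF.cy.mono s2))
      per := fun p h => by
        show G (p.1 + 2 * Real.pi, p.2) * hp f (p.1 + 2 * Real.pi, p.2) = G p * hp f p
        rw [hG.per p (s1 h), hF.per p (s2 h)] }

theorem wo_P2 {σ : ℝ} (hσ : 0 ≤ σ) {U Ux Uxx Uy Uyy : ℝ × ℝ → ℝ} (h : P2 σ U Ux Uxx Uy Uyy)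
    (c : ℝ) : P2 0 (fun p => c * U p) (fun p => c * Ux p) (fun p => c * Uxx p)
      (fun p => c * Uy p) (fun p => c * Uyy p) := by
  have s : {p : ℝ × ℝ | -0 < p.2} ⊆ {p | -σ < p.2} := fun p h => by
    have h' : -0 < p.2 := h
    show -σ < p.2
    rw [neg_zero] at h'
    linarith
  exact
    { dx := fun p hp => (h.dx p (s hp)).const_mul c
      dxx := fun p hp => (h.dxx p (s hp)).const_mul c
      dy := fun p hp => (h.dy p (s hp)).const_mul c
      dyy := fun p hp => (h.dyy p (s hp)).const_mul c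
      c := continuousOn_const.mul (h.c.mono s)
      cx := continuousOn_const.mul (h.cx.mono s)
      cxx := continuousOn_const.mul (h.cxx.mono s)
      cy := continuousOn_const.mul (h.cy.mono s)
      cyy := continuousOn_const.mul (h.cyy.mono s)
      per := fun p hp => by
        show c * U (p.1 + 2 * Real.pi, p.2) = c * U p
        rw [h.per p (s hp)] }

/-- `∬ |b'|² |f| y ≤ I / (2t)`. -/
theorem wo_A {δ ρ : ℝ} {a b F : ℂ → ℂ} (H : Dat δ ρ a b F) (f k : ℂ → ℂ)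
    (hkc : ContinuousOn k (Metric.closedBall 0 1)) (hk : DifferentiableOn ℂ k (Metric.ball 0 1))
    (t : ℝ) (ht : 1 ≤ t)
    (hfk : ∀ w ∈ Metric.closedBall (0 : ℂ) 1,
      ‖f w‖ ≤ Real.exp (-(t * OscD a b F w / 2)) * ‖k w‖ ^ 2) :
    ∫⁻ p in ST, ENNReal.ofReal (‖hp (Dz b) p‖ ^ 2 * ‖hp f p‖ * p.2)
      ≤ ENNReal.ofReal (1 / (2 * t) * ∫ x in Set.Ioc 0 (2 * Real.pi), ‖k (E (x, 0))‖ ^ 2) := by
  obtain ⟨Ox, Oxx, Oy, Oyy, hP, hL, -⟩ := Osc_P2 H
  have hlog : 0 ≤ Real.log ρ := Real.log_nonneg H.hρ.le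
  have t0 : 0 < t := by linarith
  have hU := Uch _ _ _ _ _ (wo_P2 hlog hP (t / 2))
    (fun p hp' => by
      have := (Osc_nonneg H p (by linarith)).1
      positivity)
    (fun p hp' => by
      have h1 := hL p (by linarith)
      have h2 : t / 2 * Oxx p + t / 2 * Oyy p = t / 2 * (Oxx p + Oyy p) := by ring
      rw [h2, h1]
      nlinarith [sq_nonneg ‖hp (Dz a) p‖, sq_nonneg ‖hp (Dz b) p‖])
    k hkc hk
  rw [ENNReal.ofReal_mul (by positivity)]
  refine le_trans ?_ (mul_le_mul_right hU _)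
  rw [← lintegral_const_mul' _ _ ENNReal.ofReal_ne_top]
  refine setLIntegral_mono' wo_meas_ST fun p hp' => ?_
  have hy : 0 < p.2 := hp'.2
  rw [← ENNReal.ofReal_mul (by positivity)]
  refine ENNReal.ofReal_le_ofReal ?_
  have h1 := hL p (by linarith)
  have h2 : ‖hp f p‖ ≤ Real.exp (-(t / 2 * Osc a b F p)) * ‖hp k p‖ ^ 2 := by
    have := hfk (E p) (E_mem_closedBall hy.le)
    have e : t * OscD a b F (E p) / 2 = t / 2 * Osc a b F p := by
      unfold OscD Osc hp; ring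
    rw [e] at this
    exact this
  have h3 : 0 ≤ Real.exp (-(t / 2 * Osc a b F p)) * ‖hp k p‖ ^ 2 := by positivity
  calc ‖hp (Dz b) p‖ ^ 2 * ‖hp f p‖ * p.2
      ≤ (‖hp (Dz a) p‖ ^ 2 + ‖hp (Dz b) p‖ ^ 2) *
          (Real.exp (-(t / 2 * Osc a b F p)) * ‖hp k p‖ ^ 2) * p.2 := by
        refine mul_le_mul_of_nonneg_right ?_ hy.le
        refine mul_le_mul ?_ h2 (norm_nonneg _) (by positivity)
        linarith [sq_nonneg ‖hp (Dz a) p‖]
    _ = 1 / (2 * t) * (-(t / 2 * Oxx p + t / 2 * Oyy p) * Real.exp (-(t / 2 * Osc a b F p)) *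
          ‖hp k p‖ ^ 2 * p.2) := by
        have h4 : t / 2 * Oxx p + t / 2 * Oyy p = t / 2 * (Oxx p + Oyy p) := by ring
        rw [h4, h1]
        field_simp
        ring

/-- the pointwise inequality -/
theorem wo_pt (β φ φ' s lam y : ℝ) (hφ : 0 ≤ φ) (hs : 0 < s)
    (hl : 0 < lam) (hy : 0 ≤ y) :
    β ^ 2 * φ * y + β * φ' * y ≤ (1 + lam / 2) * (β ^ 2 * φ * y) + (lam * s / 2) * (β ^ 2 * y)
      + (1 / (2 * lam)) * (φ' ^ 2 / Real.sqrt (φ ^ 2 + s ^ 2) * y) := by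
  set w := Real.sqrt (φ ^ 2 + s ^ 2) with hw
  have hw0 : 0 < w := Real.sqrt_pos.2 (by positivity)
  have hw1 : w ≤ φ + s := by
    rw [hw]
    rw [Real.sqrt_le_left (by positivity)]
    nlinarith
  have key : β * φ' ≤ lam / 2 * (β ^ 2 * w) + (1 / (2 * lam)) * (φ' ^ 2 / w) := by
    have : 0 ≤ (lam * w * β - φ') ^ 2 / (2 * lam * w) := by positivity
    have e : (lam * w * β - φ') ^ 2 / (2 * lam * w)
        = lam / 2 * (β ^ 2 * w) + (1 / (2 * lam)) * (φ' ^ 2 / w) - β * φ' := by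
      field_simp
      ring
    linarith
  have key2 : lam / 2 * (β ^ 2 * w) ≤ lam / 2 * (β ^ 2 * (φ + s)) := by gcongr
  calc β ^ 2 * φ * y + β * φ' * y = β ^ 2 * φ * y + (β * φ') * y := by ring
    _ ≤ β ^ 2 * φ * y + (lam / 2 * (β ^ 2 * (φ + s)) + (1 / (2 * lam)) * (φ' ^ 2 / w)) * y := by
        have := mul_le_mul_of_nonneg_right (key.trans (add_le_add_left key2 _)) hy
        linarith
    _ = _ := by ring

/-- **(WO)** Wolff's estimate.  `G` is `C¹` periodic, `0` for `y ≥ Y`, `|G| ≤ C|b'|`, `|∂G| ≤ C|b'|²`;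
`f` analytic on a larger disc, `|f| ≤ e^{-tO/2}|k|²` on the closed disc, `t ≥ 1`:
`|∬_{ST} G f| ≤ (3C/√t) ∫|k|²`.

Proof: `STK'` for `Gf`: `|∬ Gf| ≤ 2∬ (|∂G||f| + |G||f'|) y ≤ 2C(∬|b'|²|f|y + ∬|b'||f'|y)`, (`∂(Gf) = ∂G f + G f'`).
`A := ∬|b'|²|f|y ≤ ∬|b'|²e^{-tO/2}|k|²y ≤ (1/2t) I`, `I = ∫|k|²` (`Uch` with `S = tO/2`,
`-ΔS = 2t(|a'|²+|b'|²)`, `Osc_P2`).  `∬|b'||f'|y ≤ (∬|b'|²(|f|²+s²)^{1/2}y)^{1/2}(∬|f'|²(|f|²+s²)^{-1/2}y)^{1/2}
≤ (A + s∬_{ST}|b'|²y)^{1/2}(∫(|f|²+s²)^{1/2})^{1/2}` (`HS`), `∬|b'|²y < ∞`; `s → 0`: `≤ (A I)^{1/2}`, since `|f| ≤ |k|²` on the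
circle (`O ≥ 0`).  `2(1/(2t) + 1/√(2t)) ≤ 3/√t`. -/
theorem WO {δ ρ : ℝ} {a b F : ℂ → ℂ} (H : Dat δ ρ a b F) (σ : ℝ) (hσ : 0 < σ)
    (G Gx Gy : ℝ × ℝ → ℂ) (hG : C1 σ G Gx Gy) (Y : ℝ) (hY : ∀ p : ℝ × ℝ, Y ≤ p.2 → G p = 0)
    (C : ℝ) (hC : 0 ≤ C) (h1 : ∀ p : ℝ × ℝ, 0 ≤ p.2 → ‖G p‖ ≤ C * ‖hp (Dz b) p‖)
    (h2 : ∀ p : ℝ × ℝ, 0 ≤ p.2 → ‖Gx p - Complex.I * Gy p‖ ≤ 2 * C * ‖hp (Dz b) p‖ ^ 2)
    (f k : ℂ → ℂ) (ρ' : ℝ) (hρ' : 1 < ρ') (hf : DifferentiableOn ℂ f (Metric.ball 0 ρ'))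
    (hkc : ContinuousOn k (Metric.closedBall 0 1)) (hk : DifferentiableOn ℂ k (Metric.ball 0 1))
    (t : ℝ) (ht : 1 ≤ t)
    (hfk : ∀ w ∈ Metric.closedBall (0 : ℂ) 1,
      ‖f w‖ ≤ Real.exp (-(t * OscD a b F w / 2)) * ‖k w‖ ^ 2) :
    ‖∫ p in ST, G p * hp f p‖
      ≤ 3 * C / Real.sqrt t * ∫ x in Set.Ioc 0 (2 * Real.pi), ‖k (E (x, 0))‖ ^ 2 := by
  set I := ∫ x in Set.Ioc 0 (2 * Real.pi), ‖k (E (x, 0))‖ ^ 2 with hI
  have I0 : 0 ≤ I := integral_nonneg fun x => by positivity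
  have t0 : 0 < t := by linarith
  have hlog : 0 < Real.log ρ' := Real.log_pos hρ'
  have hρ0 : (0 : ℝ) < ρ' := by linarith
  have hbρ0 : (0 : ℝ) < ρ := by linarith [H.hρ]
  have hblog : 0 < Real.log ρ := Real.log_pos H.hρ
  have hC1 := wo_C1 hG hρ' hf
  have hst := STK' _ (lt_min hσ hlog) _ _ _ hC1 Y (fun p hp' => by rw [hY p hp', zero_mul])
  rw [hst, norm_mul, norm_mul, norm_neg, Complex.norm_I, mul_one]
  rw [show ‖(2 : ℂ)‖ = 2 by simp]
  -- measurability
  have mb : AEMeasurable (fun p : ℝ × ℝ => ‖hp (Dz b) p‖) (volume.restrict ST) := by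
    refine ContinuousOn.aemeasurable ?_ wo_meas_ST
    exact ((hp_cont hbρ0 (Dz_diff H.hb).continuousOn).mono
      (fun p hp' => by
        have : 0 < p.2 := hp'.2
        show -Real.log ρ < p.2
        linarith)).norm
  have mf : AEMeasurable (fun p : ℝ × ℝ => ‖hp f p‖) (volume.restrict ST) := by
    refine ContinuousOn.aemeasurable ?_ wo_meas_ST
    exact ((hp_cont hρ0 hf.continuousOn).mono
      (fun p hp' => by
        have : 0 < p.2 := hp'.2
        show -Real.log ρ' < p.2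
        linarith)).norm
  have my : AEMeasurable (fun p : ℝ × ℝ => p.2) (volume.restrict ST) :=
    measurable_snd.aemeasurable
  set M := (∫⁻ p in ST, ENNReal.ofReal (‖hp (Dz b) p‖ ^ 2 * p.2)) with hM
  have hMfin : M ≠ ⊤ := (wo_fin H.hρ H.hb).ne
  set m := M.toReal with hm
  have m0 : 0 ≤ m := ENNReal.toReal_nonneg
  have hMm : M = ENNReal.ofReal m := (ENNReal.ofReal_toReal hMfin).symm
  have hA := wo_A H f k hkc hk t ht hfk
  rw [← hI] at hA
  set lam := Real.sqrt t with hlam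
  have lam0 : 0 < lam := Real.sqrt_pos.2 t0
  have lam1 : 1 ≤ lam := by
    rw [hlam]; exact Real.one_le_sqrt.2 ht
  have lam2 : lam * lam = t := Real.mul_self_sqrt t0.le
  -- the boundary integral
  have hkcont : Continuous fun x : ℝ => k (E (x, 0)) :=
    hkc.comp_continuous (continuous_E.comp (by fun_prop)) (fun x => E_mem_closedBall le_rfl)
  have hfcont : Continuous fun x : ℝ => f (E (x, 0)) :=
    (hf.continuousOn.mono (Metric.closedBall_subset_ball hρ')).comp_continuous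
      (continuous_E.comp (by fun_prop)) (fun x => E_mem_closedBall le_rfl)
  have hfk0 : ∀ x : ℝ, ‖f (E (x, 0))‖ ≤ ‖k (E (x, 0))‖ ^ 2 := fun x => by
    have e1 := hfk (E (x, 0)) (E_mem_closedBall le_rfl)
    have e2 : E (x, 0) ∈ Metric.ball (0 : ℂ) ρ :=
      Metric.closedBall_subset_ball H.hρ (E_mem_closedBall le_rfl)
    have e3 : 0 ≤ OscD a b F (E (x, 0)) := by
      unfold OscD
      linarith [H.hO _ e2]
    have e4 : Real.exp (-(t * OscD a b F (E (x, 0)) / 2)) ≤ 1 := by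
      apply Real.exp_le_one_iff.2
      have : 0 ≤ t * OscD a b F (E (x, 0)) / 2 := by positivity
      linarith
    calc _ ≤ _ := e1
      _ ≤ 1 * ‖k (E (x, 0))‖ ^ 2 := mul_le_mul_of_nonneg_right e4 (by positivity)
      _ = _ := one_mul _
  -- the bound for each s
  have key : ∀ s : ℝ, 0 < s →
      ‖∫ p in ST, (1 / 2 : ℂ) * ((Gx p * hp f p + G p * hp (Dz f) p) -
        Complex.I * (Gy p * hp f p + G p * (Complex.I * hp (Dz f) p))) * (p.2 : ℂ)‖
      ≤ C * ((1 + lam / 2) * (1 / (2 * t) * I) + (lam * s / 2) * m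
          + (1 / (2 * lam)) * (I + 2 * Real.pi * s)) := by
    intro s hs
    have hJ : ∫ x in Set.Ioc 0 (2 * Real.pi), Real.sqrt (‖f (E (x, 0))‖ ^ 2 + s ^ 2)
        ≤ I + 2 * Real.pi * s := by
      have e1 : ∫ x in Set.Ioc 0 (2 * Real.pi), (‖k (E (x, 0))‖ ^ 2 + s) = I + 2 * Real.pi * s := by
        rw [integral_add]
        · rw [← hI]
          congr 1
          rw [setIntegral_const]
          simp [Real.pi_pos.le]
        · exact (hkcont.norm.pow 2).integrableOn_Ioc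
        · exact continuous_const.integrableOn_Ioc
      rw [← e1]
      refine setIntegral_mono ?_ ?_ ?_
      · exact ((hfcont.norm.pow 2).add continuous_const).sqrt.integrableOn_Ioc
      · exact ((hkcont.norm.pow 2).add continuous_const).integrableOn_Ioc
      · intro x
        have h5 := hfk0 x
        have h6 := norm_nonneg (f (E (x, 0)))
        show Real.sqrt (‖f (E (x, 0))‖ ^ 2 + s ^ 2) ≤ ‖k (E (x, 0))‖ ^ 2 + s
        rw [Real.sqrt_le_left (by positivity)]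
        nlinarith
    have hHS := HS f (hf.continuousOn.mono (Metric.closedBall_subset_ball hρ'))
      (hf.mono (Metric.ball_subset_ball hρ'.le)) s hs
    have hHS' := hHS.trans (ENNReal.ofReal_le_ofReal hJ)
    refine (norm_integral_le_lintegral_norm _).trans ?_
    refine ENNReal.toReal_le_of_le_ofReal (by positivity) ?_
    -- pointwise
    have hpt : ∀ p ∈ ST, ENNReal.ofReal ‖(1 / 2 : ℂ) * ((Gx p * hp f p + G p * hp (Dz f) p) -
        Complex.I * (Gy p * hp f p + G p * (Complex.I * hp (Dz f) p))) * (p.2 : ℂ)‖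
        ≤ ENNReal.ofReal C * (ENNReal.ofReal (1 + lam / 2) *
            ENNReal.ofReal (‖hp (Dz b) p‖ ^ 2 * ‖hp f p‖ * p.2)
          + ENNReal.ofReal (lam * s / 2) * ENNReal.ofReal (‖hp (Dz b) p‖ ^ 2 * p.2)
          + ENNReal.ofReal (1 / (2 * lam)) *
            ENNReal.ofReal (‖hp (Dz f) p‖ ^ 2 / Real.sqrt (‖hp f p‖ ^ 2 + s ^ 2) * p.2)) := by
      intro p hp'
      have hy : 0 < p.2 := hp'.2
      rw [← ENNReal.ofReal_mul (by positivity), ← ENNReal.ofReal_mul (by positivity),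
        ← ENNReal.ofReal_mul (by positivity), ← ENNReal.ofReal_add (by positivity) (by positivity),
        ← ENNReal.ofReal_add (by positivity) (by positivity), ← ENNReal.ofReal_mul hC]
      refine ENNReal.ofReal_le_ofReal ?_
      have e1 : (Gx p * hp f p + G p * hp (Dz f) p) -
        Complex.I * (Gy p * hp f p + G p * (Complex.I * hp (Dz f) p))
        = (Gx p - Complex.I * Gy p) * hp f p + 2 * (G p * hp (Dz f) p) := by
        linear_combination (-(G p * hp (Dz f) p)) * Complex.I_mul_I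
      rw [e1, norm_mul, norm_mul]
      have e2 : ‖(p.2 : ℂ)‖ = p.2 := by
        rw [Complex.norm_real, Real.norm_eq_abs, abs_of_pos hy]
      have e3 : ‖(1 / 2 : ℂ)‖ = 1 / 2 := by simp
      rw [e2, e3]
      have e4 : ‖(Gx p - Complex.I * Gy p) * hp f p + 2 * (G p * hp (Dz f) p)‖
          ≤ 2 * C * ‖hp (Dz b) p‖ ^ 2 * ‖hp f p‖ + 2 * (C * ‖hp (Dz b) p‖ * ‖hp (Dz f) p‖) := by
        refine (norm_add_le _ _).trans ?_
        rw [norm_mul, norm_mul, norm_mul]
        rw [show ‖(2 : ℂ)‖ = 2 by simp]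
        have := h1 p hy.le
        have := h2 p hy.le
        gcongr
      have e5 := wo_pt ‖hp (Dz b) p‖ ‖hp f p‖ ‖hp (Dz f) p‖ s lam p.2 (norm_nonneg _) hs lam0 hy.le
      calc 1 / 2 * ‖(Gx p - Complex.I * Gy p) * hp f p + 2 * (G p * hp (Dz f) p)‖ * p.2
          ≤ 1 / 2 * (2 * C * ‖hp (Dz b) p‖ ^ 2 * ‖hp f p‖ +
            2 * (C * ‖hp (Dz b) p‖ * ‖hp (Dz f) p‖)) * p.2 := by gcongr
        _ = C * (‖hp (Dz b) p‖ ^ 2 * ‖hp f p‖ * p.2 + ‖hp (Dz b) p‖ * ‖hp (Dz f) p‖ * p.2) := by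
            ring
        _ ≤ _ := mul_le_mul_of_nonneg_left e5 hC
    refine (setLIntegral_mono' wo_meas_ST hpt).trans ?_
    rw [lintegral_const_mul' _ _ ENNReal.ofReal_ne_top, ENNReal.ofReal_mul hC]
    refine mul_le_mul_right ?_ _
    have mA : AEMeasurable (fun p : ℝ × ℝ => ENNReal.ofReal (1 + lam / 2) *
            ENNReal.ofReal (‖hp (Dz b) p‖ ^ 2 * ‖hp f p‖ * p.2)) (volume.restrict ST) :=
      ((((mb.pow_const 2).mul mf).mul my).ennreal_ofReal).const_mul _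
    have mB : AEMeasurable (fun p : ℝ × ℝ => ENNReal.ofReal (lam * s / 2) *
            ENNReal.ofReal (‖hp (Dz b) p‖ ^ 2 * p.2)) (volume.restrict ST) :=
      ((((mb.pow_const 2)).mul my).ennreal_ofReal).const_mul _
    have split : ∫⁻ p in ST, (ENNReal.ofReal (1 + lam / 2) *
            ENNReal.ofReal (‖hp (Dz b) p‖ ^ 2 * ‖hp f p‖ * p.2)
          + ENNReal.ofReal (lam * s / 2) * ENNReal.ofReal (‖hp (Dz b) p‖ ^ 2 * p.2)
          + ENNReal.ofReal (1 / (2 * lam)) *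
            ENNReal.ofReal (‖hp (Dz f) p‖ ^ 2 / Real.sqrt (‖hp f p‖ ^ 2 + s ^ 2) * p.2))
        = (∫⁻ p in ST, ENNReal.ofReal (1 + lam / 2) *
            ENNReal.ofReal (‖hp (Dz b) p‖ ^ 2 * ‖hp f p‖ * p.2))
          + (∫⁻ p in ST, ENNReal.ofReal (lam * s / 2) * ENNReal.ofReal (‖hp (Dz b) p‖ ^ 2 * p.2))
          + ∫⁻ p in ST, ENNReal.ofReal (1 / (2 * lam)) *
            ENNReal.ofReal (‖hp (Dz f) p‖ ^ 2 / Real.sqrt (‖hp f p‖ ^ 2 + s ^ 2) * p.2) := by
      rw [← lintegral_add_left' mA]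
      exact lintegral_add_left' (mA.add mB) _
    have rsplit : ENNReal.ofReal ((1 + lam / 2) * (1 / (2 * t) * I) + (lam * s / 2) * m
          + (1 / (2 * lam)) * (I + 2 * Real.pi * s))
        = ENNReal.ofReal (1 + lam / 2) * ENNReal.ofReal (1 / (2 * t) * I)
          + ENNReal.ofReal (lam * s / 2) * ENNReal.ofReal m
          + ENNReal.ofReal (1 / (2 * lam)) * ENNReal.ofReal (I + 2 * Real.pi * s) := by
      rw [← ENNReal.ofReal_mul (by positivity), ← ENNReal.ofReal_mul (by positivity),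
        ← ENNReal.ofReal_mul (by positivity), ← ENNReal.ofReal_add (by positivity) (by positivity),
        ← ENNReal.ofReal_add (by positivity) (by positivity)]
    rw [split,
      lintegral_const_mul' _ _ ENNReal.ofReal_ne_top, lintegral_const_mul' _ _ ENNReal.ofReal_ne_top,
      lintegral_const_mul' _ _ ENNReal.ofReal_ne_top, rsplit]
    refine add_le_add (add_le_add ?_ ?_) ?_
    · exact mul_le_mul_right hA _
    · refine mul_le_mul_right ?_ _
      rw [← hM, hMm]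
    · exact mul_le_mul_right hHS' _
  -- let s → 0
  set X := ‖∫ p in ST, (1 / 2 : ℂ) * ((Gx p * hp f p + G p * hp (Dz f) p) -
        Complex.I * (Gy p * hp f p + G p * (Complex.I * hp (Dz f) p))) * (p.2 : ℂ)‖ with hX
  have lim : X ≤ C * ((1 + lam / 2) * (1 / (2 * t) * I) + (1 / (2 * lam)) * I) := by
    have hc : Tendsto (fun s : ℝ => C * ((1 + lam / 2) * (1 / (2 * t) * I) + (lam * s / 2) * m
          + (1 / (2 * lam)) * (I + 2 * Real.pi * s))) (𝓝[>] 0)
        (𝓝 (C * ((1 + lam / 2) * (1 / (2 * t) * I) + (lam * 0 / 2) * m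
          + (1 / (2 * lam)) * (I + 2 * Real.pi * 0)))) := by
      refine Tendsto.mono_left (Continuous.tendsto ?_ 0) nhdsWithin_le_nhds
      fun_prop
    have := ge_of_tendsto hc (eventually_nhdsWithin_of_forall fun s hs => key s hs)
    calc X ≤ _ := this
      _ = _ := by ring
  have fin : C * ((1 + lam / 2) * (1 / (2 * t) * I) + (1 / (2 * lam)) * I)
      ≤ C * (5 / (4 * lam) * I) := by
    refine mul_le_mul_of_nonneg_left ?_ hC
    have e : (1 + lam / 2) * (1 / (2 * t) * I) + (1 / (2 * lam)) * I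
        = ((1 / lam) * (1 / 2) + 3 / 4) * (1 / lam) * I := by
      rw [← lam2]
      field_simp
      ring
    rw [e]
    have e2 : 5 / (4 * lam) * I = (1 / 2 + 3 / 4) * (1 / lam) * I := by
      field_simp
      ring
    rw [e2]
    have e3 : 1 / lam ≤ 1 := (div_le_one lam0).2 lam1
    gcongr
    linarith
  calc 2 * X ≤ 2 * (C * (5 / (4 * lam) * I)) := by linarith [lim.trans fin]
    _ = 5 / 2 * (C / lam * I) := by
        field_simp
        ring
    _ ≤ 3 * (C / lam * I) := by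
        have : 0 ≤ C / lam * I := by positivity
        linarith
    _ = 3 * C / lam * I := by ring

end Pool.H14.SR

end S_WO
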