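import Mathlib
import Pool.Agent.H14.SRM.P0

/-! MP_e1e648_an, part P10: this file joins several modules to save build time. -/

noncomputable section S_STEP

open MeasureTheory Set Filter Topology
namespace Pool.H14.SR


/-- A smooth step at scale `d` avoiding the value `v`. -/
structure Step (C0 d v : ℝ) (s s' s'' : ℝ → ℝ) : Prop where
  d1 : ∀ q, HasDerivAt s (s' q) q
  d2 : ∀ q, HasDerivAt s' (s'' q) q
  c2 : Continuous s''
  h0 : ∀ q, 0 ≤ s q ∧ s q ≤ 1
  h1 : ∀ q, 0 ≤ s' q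
  low : ∀ q, q ≤ d ^ 2 / 4 → s q = 0
  high : ∀ q, d ^ 2 ≤ q → s q = 1
  b1 : ∀ q, |s' q| ≤ C0 / d ^ 2
  b2 : ∀ q, |s'' q| ≤ C0 / d ^ 4
  av : ∀ r, 0 ≤ r → |r - v| ≤ d / 8 → s' (r ^ 2) = 0

theorem STEP_T : ∃ (T T' T'' : ℝ → ℝ) (M : ℝ), 0 < M ∧ (∀ q, HasDerivAt T (T' q) q) ∧
    (∀ q, HasDerivAt T' (T'' q) q) ∧ Continuous T'' ∧ (∀ q, 0 ≤ T q ∧ T q ≤ 1) ∧ (∀ q, 0 ≤ T' q) ∧
    (∀ q, q ≤ 0 → T q = 0 ∧ T' q = 0) ∧ (∀ q, 1 ≤ q → T q = 1 ∧ T' q = 0) ∧ (∀ q, |T' q| ≤ M) ∧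
    (∀ q, |T'' q| ≤ M) := by
  have hcd : ContDiff ℝ 2 Real.smoothTransition := Real.smoothTransition.contDiff
  have hcd1 : ContDiff ℝ 1 (deriv Real.smoothTransition) := by
    have : ContDiff ℝ (1 + 1) Real.smoothTransition := by
      norm_num
      exact hcd
    exact ContDiff.deriv' this
  have hcd0 : Continuous (deriv (deriv Real.smoothTransition)) := hcd1.continuous_deriv le_rfl
  have hc1 : Continuous (deriv Real.smoothTransition) := hcd1.continuous
  have z0 : ∀ q : ℝ, q < 0 → deriv Real.smoothTransition q = 0 := by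
    intro q hq
    have : Real.smoothTransition =ᶠ[𝓝 q] fun _ => 0 := by
      filter_upwards [Iio_mem_nhds hq] with x hx
      exact Real.smoothTransition.zero_of_nonpos (le_of_lt hx)
    rw [this.deriv_eq]; simp
  have z1 : ∀ q : ℝ, 1 < q → deriv Real.smoothTransition q = 0 := by
    intro q hq
    have : Real.smoothTransition =ᶠ[𝓝 q] fun _ => 1 := by
      filter_upwards [Ioi_mem_nhds hq] with x hx
      exact Real.smoothTransition.one_of_one_le (le_of_lt hx)
    rw [this.deriv_eq]; simp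
  have z0' : ∀ q : ℝ, q ≤ 0 → deriv Real.smoothTransition q = 0 := by
    intro q hq
    have hcl : IsClosed {q | deriv Real.smoothTransition q = 0} := isClosed_eq hc1 continuous_const
    have : Set.Iic (0 : ℝ) ⊆ {q | deriv Real.smoothTransition q = 0} := by
      rw [← closure_Iio (0 : ℝ)]
      exact hcl.closure_subset_iff.2 (fun x hx => z0 x hx)
    exact this hq
  have z1' : ∀ q : ℝ, 1 ≤ q → deriv Real.smoothTransition q = 0 := by
    intro q hq
    have hcl : IsClosed {q | deriv Real.smoothTransition q = 0} := isClosed_eq hc1 continuous_const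
    have : Set.Ici (1 : ℝ) ⊆ {q | deriv Real.smoothTransition q = 0} := by
      rw [← closure_Ioi (1 : ℝ)]
      exact hcl.closure_subset_iff.2 (fun x hx => z1 x hx)
    exact this hq
  have y0 : ∀ q : ℝ, q < 0 → deriv (deriv Real.smoothTransition) q = 0 := by
    intro q hq
    have : deriv Real.smoothTransition =ᶠ[𝓝 q] fun _ => 0 := by
      filter_upwards [Iio_mem_nhds hq] with x hx
      exact z0 x hx
    rw [this.deriv_eq]; simp
  have y1 : ∀ q : ℝ, 1 < q → deriv (deriv Real.smoothTransition) q = 0 := by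
    intro q hq
    have : deriv Real.smoothTransition =ᶠ[𝓝 q] fun _ => 0 := by
      filter_upwards [Ioi_mem_nhds hq] with x hx
      exact z1 x hx
    rw [this.deriv_eq]; simp
  obtain ⟨M1, hM1⟩ := (isCompact_Icc (a := (0 : ℝ)) (b := 1)).exists_bound_of_continuousOn
    hc1.continuousOn
  obtain ⟨M2, hM2⟩ := (isCompact_Icc (a := (0 : ℝ)) (b := 1)).exists_bound_of_continuousOn
    hcd0.continuousOn
  refine ⟨Real.smoothTransition, deriv Real.smoothTransition, deriv (deriv Real.smoothTransition),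
    |M1| + |M2| + 1, by positivity, ?_, ?_, hcd0, ?_, ?_, ?_, ?_, ?_, ?_⟩
  · intro q
    exact (hcd.differentiable (by norm_num) q).hasDerivAt
  · intro q
    exact (hcd1.differentiable (by norm_num) q).hasDerivAt
  · intro q
    exact ⟨Real.smoothTransition.nonneg q, Real.smoothTransition.le_one q⟩
  · intro q
    exact Real.smoothTransition.monotone.deriv_nonneg
  · intro q hq
    exact ⟨Real.smoothTransition.zero_of_nonpos hq, z0' q hq⟩
  · intro q hq
    exact ⟨Real.smoothTransition.one_of_one_le hq, z1' q hq⟩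
  · intro q
    by_cases h0 : q < 0
    · rw [z0 q h0, abs_zero]; positivity
    by_cases h1 : 1 < q
    · rw [z1 q h1, abs_zero]; positivity
    have := hM1 q ⟨not_lt.1 h0, not_lt.1 h1⟩
    rw [Real.norm_eq_abs] at this
    linarith [le_abs_self M1, abs_nonneg M2]
  · intro q
    by_cases h0 : q < 0
    · rw [y0 q h0, abs_zero]; positivity
    by_cases h1 : 1 < q
    · rw [y1 q h1, abs_zero]; positivity
    have := hM2 q ⟨not_lt.1 h0, not_lt.1 h1⟩
    rw [Real.norm_eq_abs] at this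
    linarith [le_abs_self M2, abs_nonneg M1]

/-- **(STEP)** Existence of steps.  `s(q) = S(q/d²)` with `S` one of two fixed smooth nondecreasing steps, rising on
`[1/4, 25/64]` (i.e. `r ∈ [d/2, 5d/8]`) or on `[49/64, 1]` (`r ∈ [7d/8, d]`); the interval
`[v - d/8, v + d/8]` misses the interior of one of the two `r`-intervals. -/
theorem STEP : ∃ C0 : ℝ, 0 < C0 ∧ ∀ d v : ℝ, 0 < d →
    ∃ s s' s'' : ℝ → ℝ, Step C0 d v s s' s'' := by
  obtain ⟨T, T', T'', M, hM, hT1, hT2, hTc, hT0, hTp, hTl, hTh, hb1, hb2⟩ := STEP_T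
  have key : ∀ (d v l r : ℝ), 0 < d → 1 / 4 ≤ l → l + 1 / 8 ≤ r → r ≤ 1 →
      (∀ t, 0 ≤ t → |t - v| ≤ d / 8 → t ^ 2 ≤ l * d ^ 2 ∨ r * d ^ 2 ≤ t ^ 2) →
      Step (64 * M) d v (fun q => T ((q / d ^ 2 - l) / (r - l)))
        (fun q => T' ((q / d ^ 2 - l) / (r - l)) * (1 / d ^ 2 / (r - l)))
        (fun q => T'' ((q / d ^ 2 - l) / (r - l)) * (1 / d ^ 2 / (r - l)) * (1 / d ^ 2 / (r - l))) := by
    intro d v l r hd hl hlr hr hav
    have hrl : 0 < r - l := by linarith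
    have hd2 : 0 < d ^ 2 := by positivity
    have hlin : ∀ q : ℝ, HasDerivAt (fun q : ℝ => (q / d ^ 2 - l) / (r - l)) (1 / d ^ 2 / (r - l)) q := by
      intro q
      exact (((hasDerivAt_id q).div_const _).sub_const _).div_const _
    have hpos : 0 < 1 / d ^ 2 / (r - l) := by positivity
    have h8 : 1 / d ^ 2 / (r - l) ≤ 8 * (1 / d ^ 2) := by
      rw [div_le_iff₀ hrl]
      have : 0 < 1 / d ^ 2 := by positivity
      nlinarith
    refine ⟨?_, ?_, ?_, ?_, ?_, ?_, ?_, ?_, ?_, ?_⟩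
    · intro q
      exact HasDerivAt.comp q (hT1 _) (hlin q)
    · intro q
      exact (HasDerivAt.comp q (hT2 _) (hlin q)).mul_const _
    · have : Continuous (fun q : ℝ => (q / d ^ 2 - l) / (r - l)) := by fun_prop
      exact ((hTc.comp this).mul continuous_const).mul continuous_const
    · intro q; exact hT0 _
    · intro q; exact mul_nonneg (hTp _) hpos.le
    · intro q hq
      refine (hTl _ ?_).1
      apply div_nonpos_of_nonpos_of_nonneg _ hrl.le
      have : q / d ^ 2 ≤ 1 / 4 := by rw [div_le_iff₀ hd2]; linarith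
      linarith
    · intro q hq
      refine (hTh _ ?_).1
      rw [le_div_iff₀ hrl]
      have : 1 ≤ q / d ^ 2 := by rw [le_div_iff₀ hd2]; linarith
      linarith
    · intro q
      rw [abs_mul, abs_of_pos hpos]
      calc |T' ((q / d ^ 2 - l) / (r - l))| * (1 / d ^ 2 / (r - l)) ≤ M * (8 * (1 / d ^ 2)) :=
            mul_le_mul (hb1 _) h8 hpos.le hM.le
        _ ≤ 64 * M / d ^ 2 := by
            have : 64 * M / d ^ 2 = M * (64 * (1 / d ^ 2)) := by ring
            rw [this]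
            have : 0 < 1 / d ^ 2 := by positivity
            apply mul_le_mul_of_nonneg_left _ hM.le
            linarith
    · intro q
      rw [abs_mul, abs_mul, abs_of_pos hpos]
      calc |T'' ((q / d ^ 2 - l) / (r - l))| * (1 / d ^ 2 / (r - l)) * (1 / d ^ 2 / (r - l))
            ≤ M * (8 * (1 / d ^ 2)) * (8 * (1 / d ^ 2)) := by
              apply mul_le_mul _ h8 hpos.le (by positivity)
              exact mul_le_mul (hb2 _) h8 hpos.le hM.le
        _ = 64 * M / d ^ 4 := by field_simp; ring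
    · intro t ht htv
      show T' ((t ^ 2 / d ^ 2 - l) / (r - l)) * (1 / d ^ 2 / (r - l)) = 0
      rcases hav t ht htv with h | h
      · rw [(hTl _ _).2, zero_mul]
        apply div_nonpos_of_nonpos_of_nonneg _ hrl.le
        have : t ^ 2 / d ^ 2 ≤ l := by rw [div_le_iff₀ hd2]; linarith
        linarith
      · rw [(hTh _ _).2, zero_mul]
        rw [le_div_iff₀ hrl]
        have : r ≤ t ^ 2 / d ^ 2 := by rw [le_div_iff₀ hd2]; linarith
        linarith
  refine ⟨64 * M, by positivity, fun d v hd => ?_⟩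
  by_cases hv : v ≤ 3 / 4 * d
  · refine ⟨_, _, _, key d v (49 / 64) 1 hd (by norm_num) (by norm_num) le_rfl ?_⟩
    intro t ht htv
    left
    have h1 := (abs_le.1 htv).2
    have h2 : t ≤ 7 / 8 * d := by linarith
    nlinarith
  · refine ⟨_, _, _, key d v (1 / 4) (25 / 64) hd (by norm_num) (by norm_num) (by norm_num) ?_⟩
    intro t ht htv
    right
    have h1 := (abs_le.1 htv).1
    have h2 : 5 / 8 * d ≤ t := by linarith
    nlinarith

/-- **(TH)** The truncated logarithm: `Θ' = s(q)/(2q)`, `Θ(q) = (1/2) log q` for `q ≥ δ²`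
(`Θ(q) = log δ - ∫_q^{δ²} s(u)/(2u) du`; `Θ` is constant for `q ≤ δ²/4` and `≥ (1/2) log(δ²/4)`). -/
theorem TH (C0 δ v : ℝ) (hδ : 0 < δ) (hδ2 : δ ≤ 1 / 2) (s s' s'' : ℝ → ℝ)
    (h : Step C0 δ v s s' s'') :
    ∃ Θ : ℝ → ℝ, (∀ q, HasDerivAt Θ (s q / (2 * q)) q) ∧
      (∀ q, δ ^ 2 ≤ q → Θ q = Real.log q / 2) ∧
      (∀ q, 0 ≤ q → q ≤ 1 → -Real.log (2 / δ) ≤ Θ q ∧ Θ q ≤ 0) := by
  have hδ2' : 0 < δ ^ 2 := by positivity
  have hsc : Continuous s := continuous_iff_continuousAt.2 fun q => (h.d1 q).continuousAt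
  have hz : ∀ q, q ≤ δ ^ 2 / 4 → s q / (2 * q) = 0 := by
    intro q hq; rw [h.low q hq, zero_div]
  have hfc : Continuous (fun q => s q / (2 * q)) := by
    rw [continuous_iff_continuousAt]
    intro q
    by_cases hq : q < δ ^ 2 / 4
    · have : (fun q => s q / (2 * q)) =ᶠ[𝓝 q] fun _ => 0 := by
        filter_upwards [Iio_mem_nhds hq] with x hx
        exact hz x (le_of_lt hx)
      exact continuousAt_const.congr this.symm
    · have hq0 : 0 < q := by
        have := not_lt.1 hq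
        have h2 : 0 < δ ^ 2 / 4 := by positivity
        linarith
      exact hsc.continuousAt.div (continuousAt_const.mul continuousAt_id) (by positivity)
  have hf0 : ∀ q, 0 ≤ s q / (2 * q) := by
    intro q
    by_cases hq : q ≤ δ ^ 2 / 4
    · rw [hz q hq]
    · have hq0 : 0 < q := by
        have h2 : 0 < δ ^ 2 / 4 := by positivity
        linarith [not_le.1 hq]
      exact div_nonneg (h.h0 q).1 (by positivity)
  set Θ : ℝ → ℝ := fun q => Real.log δ + ∫ u in (δ ^ 2)..q, s u / (2 * u) with hΘ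
  have hd : ∀ q, HasDerivAt Θ (s q / (2 * q)) q := by
    intro q
    exact ((hfc.integral_hasStrictDerivAt (δ ^ 2) q).hasDerivAt).const_add _
  have hmono : Monotone Θ := by
    apply monotone_of_deriv_nonneg (fun q => (hd q).differentiableAt)
    intro q; rw [(hd q).deriv]; exact hf0 q
  have hΘδ : Θ (δ ^ 2) = Real.log δ := by simp [hΘ]
  have hlog : ∀ q, 0 < q → HasDerivAt (fun q => Real.log q / 2) (1 / (2 * q)) q := by
    intro q hq
    have := (Real.hasDerivAt_log hq.ne').div_const 2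
    refine this.congr_deriv ?_
    rw [inv_eq_one_div, div_div, mul_comm]
  have hlδ : Real.log (δ ^ 2) / 2 = Real.log δ := by
    rw [Real.log_pow]; push_cast; ring
  have hhigh : ∀ q, δ ^ 2 ≤ q → Θ q = Real.log q / 2 := by
    intro q hq
    have h1 : ∫ u in (δ ^ 2)..q, s u / (2 * u) = ∫ u in (δ ^ 2)..q, 1 / (2 * u) := by
      apply intervalIntegral.integral_congr
      intro u hu
      rw [Set.uIcc_of_le hq] at hu
      show s u / (2 * u) = 1 / (2 * u)
      rw [h.high u hu.1]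
    have h2 : ∫ u in (δ ^ 2)..q, 1 / (2 * u) = Real.log q / 2 - Real.log (δ ^ 2) / 2 := by
      apply intervalIntegral.integral_eq_sub_of_hasDerivAt (f := fun q => Real.log q / 2)
      · intro u hu
        rw [Set.uIcc_of_le hq] at hu
        exact hlog u (hδ2'.trans_le hu.1)
      · apply ContinuousOn.intervalIntegrable
        intro u hu
        rw [Set.uIcc_of_le hq] at hu
        have : 0 < u := hδ2'.trans_le hu.1
        have hne : 2 * u ≠ 0 := by positivity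
        exact (continuousAt_const.div (continuousAt_const.mul continuousAt_id) hne).continuousWithinAt
    show Real.log δ + ∫ u in (δ ^ 2)..q, s u / (2 * u) = _
    rw [h1, h2, hlδ]; ring
  refine ⟨Θ, hd, hhigh, fun q hq0 hq1 => ⟨?_, ?_⟩⟩
  · -- lower bound
    have hq4 : Θ (δ ^ 2 / 4) ≤ Θ q := by
      by_cases hq : δ ^ 2 / 4 ≤ q
      · exact hmono hq
      · have hq' : q ≤ δ ^ 2 / 4 := (not_le.1 hq).le
        have e1 : Θ (δ ^ 2 / 4) - Θ q = ∫ u in q..(δ ^ 2 / 4), s u / (2 * u) := by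
          have := intervalIntegral.integral_eq_sub_of_hasDerivAt (f := Θ) (f' := fun q => s q / (2 * q))
            (a := q) (b := δ ^ 2 / 4) (fun u _ => hd u) (hfc.intervalIntegrable _ _)
          rw [this]
        have e2 : ∫ u in q..(δ ^ 2 / 4), s u / (2 * u) = ∫ u in q..(δ ^ 2 / 4), (0 : ℝ) := by
          apply intervalIntegral.integral_congr
          intro u hu
          rw [Set.uIcc_of_le hq'] at hu
          exact hz u hu.2
        rw [e2] at e1
        simp only [intervalIntegral.integral_zero] at e1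
        linarith
    have hanti : AntitoneOn (fun q => Θ q - Real.log q / 2) (Set.Icc (δ ^ 2 / 4) (δ ^ 2)) := by
      have hd' : ∀ x ∈ Set.Icc (δ ^ 2 / 4) (δ ^ 2), HasDerivAt (fun q => Θ q - Real.log q / 2)
          (s x / (2 * x) - 1 / (2 * x)) x := by
        intro x hx
        have : 0 < x := by
          have h2 : 0 < δ ^ 2 / 4 := by positivity
          linarith [hx.1]
        exact (hd x).sub (hlog x this)
      apply antitoneOn_of_deriv_nonpos (convex_Icc _ _)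
      · intro x hx
        exact (hd' x hx).continuousAt.continuousWithinAt
      · intro x hx
        exact (hd' x (interior_subset hx)).differentiableAt.differentiableWithinAt
      · intro x hx
        have hx' := interior_subset hx
        rw [(hd' x hx').deriv]
        have : 0 < x := by
          have h2 : 0 < δ ^ 2 / 4 := by positivity
          linarith [hx'.1]
        rw [← sub_div]
        apply div_nonpos_of_nonpos_of_nonneg _ (by positivity)
        linarith [(h.h0 x).2]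
    have h4 := hanti (a := δ ^ 2 / 4) (b := δ ^ 2) ⟨le_rfl, by linarith⟩ ⟨by linarith, le_rfl⟩ (by linarith)
    simp only [hΘδ, hlδ, sub_self] at h4
    have h5 : Real.log (δ ^ 2 / 4) / 2 = -Real.log (2 / δ) := by
      have : δ ^ 2 / 4 = (2 / δ)⁻¹ ^ 2 := by field_simp; norm_num
      rw [this, Real.log_pow, Real.log_inv]; push_cast; ring
    linarith
  · have h1 : Θ 1 = 0 := by
      rw [hhigh 1 (by nlinarith), Real.log_one, zero_div]
    rw [← h1]
    exact hmono hq1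

end Pool.H14.SR

end S_STEP

noncomputable section S_PH

open MeasureTheory Set Filter Topology
namespace Pool.H14.SR


/-! ### auxiliary lemmas for (PH) -/

theorem PH_s1_high {C0 d v : ℝ} {s s' s'' : ℝ → ℝ} (hs : Step C0 d v s s' s'') {q : ℝ}
    (hq : d ^ 2 ≤ q) : s' q = 0 := by
  have h1 : HasDerivWithinAt s (s' q) (Ici q) q := (hs.d1 q).hasDerivWithinAt
  have h2 : HasDerivWithinAt s 0 (Ici q) q :=
    (hasDerivWithinAt_const q (Ici q) (1 : ℝ)).congr (fun x hx => hs.high x (hq.trans hx))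
      (hs.high q hq)
  exact UniqueDiffWithinAt.eq_deriv (Ici q) (uniqueDiffOn_Ici q q self_mem_Ici) h1 h2

theorem PH_s2_high {C0 d v : ℝ} {s s' s'' : ℝ → ℝ} (hs : Step C0 d v s s' s'') {q : ℝ}
    (hq : d ^ 2 ≤ q) : s'' q = 0 := by
  have h1 : HasDerivWithinAt s' (s'' q) (Ici q) q := (hs.d2 q).hasDerivWithinAt
  have h2 : HasDerivWithinAt s' 0 (Ici q) q :=
    (hasDerivWithinAt_const q (Ici q) (0 : ℝ)).congr (fun x hx => PH_s1_high hs (hq.trans hx))
      (PH_s1_high hs hq)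
  exact UniqueDiffWithinAt.eq_deriv (Ici q) (uniqueDiffOn_Ici q q self_mem_Ici) h1 h2

theorem PH_s1_low {C0 d v : ℝ} {s s' s'' : ℝ → ℝ} (hs : Step C0 d v s s' s'') {q : ℝ}
    (hq : q < d ^ 2 / 4) : s' q = 0 := by
  have h2 : HasDerivAt s 0 q := by
    refine (hasDerivAt_const q (0 : ℝ)).congr_of_eventuallyEq ?_
    filter_upwards [Iio_mem_nhds hq] with x hx
    exact hs.low x (le_of_lt hx)
  exact (hs.d1 q).unique h2

/-- continuity of `k * cc` -/
theorem PH_mul_cont {σ : ℝ} {k : ℝ × ℝ → ℂ} (hk : ContinuousOn k {p | -σ < p.2})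
    (cc : ℝ × ℝ → ℝ) (Om : Set (ℝ × ℝ)) (hb : ∀ p, |cc p| ≤ 4)
    (hloc : ∀ p ∈ Om, -σ < p.2 → ∀ᶠ p' in 𝓝 p, cc p' = cc p)
    (h0 : ∀ p : ℝ × ℝ, -σ < p.2 → p ∉ Om → k p = 0) :
    ContinuousOn (fun p => k p * (cc p : ℂ)) {p | -σ < p.2} := by
  intro p hp
  by_cases hpO : p ∈ Om
  · have h1 : ContinuousWithinAt (fun p' => k p' * (cc p : ℂ)) {p | -σ < p.2} p :=
      (hk p hp).mul continuousWithinAt_const
    refine h1.congr_of_eventuallyEq ?_ rfl
    filter_upwards [mem_nhdsWithin_of_mem_nhds (hloc p hpO hp)] with p' hp'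
    rw [hp']
  · have hk0 := h0 p hp hpO
    have h1 : Tendsto k (𝓝[{p | -σ < p.2}] p) (𝓝 0) := by
      have := (hk p hp).tendsto
      rwa [hk0] at this
    have h2 : Tendsto (fun p' => 4 * ‖k p'‖) (𝓝[{p | -σ < p.2}] p) (𝓝 0) := by
      have := (h1.norm).const_mul 4
      simpa using this
    show Tendsto (fun p => k p * (cc p : ℂ)) (𝓝[{p | -σ < p.2}] p) (𝓝 (k p * (cc p : ℂ)))
    rw [hk0, zero_mul]
    refine squeeze_zero_norm (fun p' => ?_) h2
    rw [norm_mul, Complex.norm_real, Real.norm_eq_abs, mul_comm]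
    exact mul_le_mul_of_nonneg_right (hb p') (norm_nonneg _)

theorem PH_mul_deriv (f : ℝ → ℂ) (f' : ℂ) (c : ℝ → ℝ) (x : ℝ) (hf : HasDerivAt f f' x)
    (hc : ∀ t, |c t| ≤ 4) (h : (∀ᶠ t in 𝓝 x, c t = c x) ∨ (f x = 0 ∧ f' = 0)) :
    HasDerivAt (fun t => f t * (c t : ℂ)) (f' * (c x : ℂ)) x := by
  rcases h with h | ⟨h1, h2⟩
  · refine (hf.mul_const (c x : ℂ)).congr_of_eventuallyEq ?_
    filter_upwards [h] with t ht
    rw [ht]
  · subst h2
    rw [zero_mul]
    rw [hasDerivAt_iff_isLittleO] at hf ⊢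
    simp only [h1, sub_zero, smul_zero, zero_mul] at hf ⊢
    have hO : (fun t => (c t : ℂ)) =O[𝓝 x] (fun _ => (1 : ℝ)) := by
      refine Asymptotics.IsBigO.of_bound 4 (Filter.Eventually.of_forall fun t => ?_)
      rw [Complex.norm_real, Real.norm_eq_abs, norm_one, mul_one]
      exact hc t
    have := hf.mul_isBigO hO
    simpa using this

theorem PH_mul {σ : ℝ} {k kx ky : ℝ × ℝ → ℂ} (hk : C1 σ k kx ky)
    (cc : ℝ × ℝ → ℝ) (Om : Set (ℝ × ℝ)) (hb : ∀ p, |cc p| ≤ 4)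
    (hloc : ∀ p ∈ Om, -σ < p.2 → ∀ᶠ p' in 𝓝 p, cc p' = cc p)
    (hper : ∀ p : ℝ × ℝ, -σ < p.2 → cc (p.1 + 2 * Real.pi, p.2) = cc p)
    (h0 : ∀ p : ℝ × ℝ, -σ < p.2 → p ∉ Om → k p = 0 ∧ kx p = 0 ∧ ky p = 0) :
    C1 σ (fun p => k p * (cc p : ℂ)) (fun p => kx p * (cc p : ℂ))
      (fun p => ky p * (cc p : ℂ)) where
  dx := fun p hp => by
    refine PH_mul_deriv (fun x => k (x, p.2)) (kx p) (fun x => cc (x, p.2)) p.1 (hk.dx p hp)
      (fun t => hb _) ?_
    by_cases hpO : p ∈ Om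
    · left
      have hc : Tendsto (fun x : ℝ => (x, p.2)) (𝓝 p.1) (𝓝 p) := by
        have : Continuous (fun x : ℝ => (x, p.2)) := by fun_prop
        exact this.tendsto p.1
      exact hc.eventually (hloc p hpO hp)
    · right
      exact ⟨(h0 p hp hpO).1, (h0 p hp hpO).2.1⟩
  dy := fun p hp => by
    refine PH_mul_deriv (fun y => k (p.1, y)) (ky p) (fun y => cc (p.1, y)) p.2 (hk.dy p hp)
      (fun t => hb _) ?_
    by_cases hpO : p ∈ Om
    · left
      have hc : Tendsto (fun y : ℝ => (p.1, y)) (𝓝 p.2) (𝓝 p) := by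
        have : Continuous (fun y : ℝ => (p.1, y)) := by fun_prop
        exact this.tendsto p.2
      exact hc.eventually (hloc p hpO hp)
    · right
      exact ⟨(h0 p hp hpO).1, (h0 p hp hpO).2.2⟩
  c := PH_mul_cont hk.c cc Om hb hloc (fun p hp hpO => (h0 p hp hpO).1)
  cx := PH_mul_cont hk.cx cc Om hb hloc (fun p hp hpO => (h0 p hp hpO).2.1)
  cy := PH_mul_cont hk.cy cc Om hb hloc (fun p hp hpO => (h0 p hp hpO).2.2)
  per := fun p hp => by
    rw [hk.per p hp, hper p hp]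

/-- monotonicity of `C1` in `σ` -/
theorem PH_C1_mono {V : Type*} [NormedAddCommGroup V] [NormedSpace ℝ V] {σ σ' : ℝ}
    {u ux uy : ℝ × ℝ → V} (h : C1 σ u ux uy) (hs : σ' ≤ σ) : C1 σ' u ux uy where
  dx := fun p hp => h.dx p (by linarith)
  dy := fun p hp => h.dy p (by linarith)
  c := h.c.mono (fun p (hp : -σ' < p.2) => (by linarith : -σ < p.2))
  cx := h.cx.mono (fun p (hp : -σ' < p.2) => (by linarith : -σ < p.2))
  cy := h.cy.mono (fun p (hp : -σ' < p.2) => (by linarith : -σ < p.2))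
  per := fun p hp => h.per p (by linarith)

/-- A function with vanishing partial derivatives on an open box is constant there. -/
theorem PH_const (u : ℝ × ℝ → ℂ) (p : ℝ × ℝ) (r : ℝ)
    (hx : ∀ q : ℝ × ℝ, |q.1 - p.1| < r → |q.2 - p.2| < r →
      HasDerivAt (fun x : ℝ => u (x, q.2)) 0 q.1)
    (hy : ∀ q : ℝ × ℝ, |q.1 - p.1| < r → |q.2 - p.2| < r →
      HasDerivAt (fun y : ℝ => u (q.1, y)) 0 q.2)
    (q : ℝ × ℝ) (h1 : |q.1 - p.1| < r) (h2 : |q.2 - p.2| < r) : u q = u p := by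
  have hr : 0 < r := lt_of_le_of_lt (abs_nonneg _) h1
  have e1 : u (q.1, q.2) = u (p.1, q.2) := by
    refine IsOpen.is_const_of_deriv_eq_zero (s := Ioo (p.1 - r) (p.1 + r)) (f := fun x => u (x, q.2))
      isOpen_Ioo isPreconnected_Ioo ?_ ?_ ?_ ?_
    · intro x hx'
      have : |x - p.1| < r := by rw [abs_lt]; constructor <;> linarith [hx'.1, hx'.2]
      exact (hx (x, q.2) this h2).differentiableAt.differentiableWithinAt
    · intro x hx'
      have : |x - p.1| < r := by rw [abs_lt]; constructor <;> linarith [hx'.1, hx'.2]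
      exact (hx (x, q.2) this h2).deriv
    · rw [abs_lt] at h1; constructor <;> linarith
    · constructor <;> linarith
  have e2 : u (p.1, q.2) = u (p.1, p.2) := by
    have h0 : |p.1 - p.1| < r := by simpa using hr
    refine IsOpen.is_const_of_deriv_eq_zero (s := Ioo (p.2 - r) (p.2 + r)) (f := fun y => u (p.1, y))
      isOpen_Ioo isPreconnected_Ioo ?_ ?_ ?_ ?_
    · intro y hy'
      have : |y - p.2| < r := by rw [abs_lt]; constructor <;> linarith [hy'.1, hy'.2]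
      exact (hy (p.1, y) h0 this).differentiableAt.differentiableWithinAt
    · intro y hy'
      have : |y - p.2| < r := by rw [abs_lt]; constructor <;> linarith [hy'.1, hy'.2]
      exact (hy (p.1, y) h0 this).deriv
    · rw [abs_lt] at h2; constructor <;> linarith
    · constructor <;> linarith
  exact e1.trans e2

/-- `|f|^2` for a `C1` function. -/
theorem PH_sq {σ : ℝ} {f fx fy : ℝ × ℝ → ℂ} (hf : C1 σ f fx fy) :
    C1 σ (fun p => ‖f p‖ ^ 2) (fun p => 2 * (starRingEnd ℂ (f p) * fx p).re)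
      (fun p => 2 * (starRingEnd ℂ (f p) * fy p).re) where
  dx := fun p hp => by
    have h := (hf.dx p hp).norm_sq
    refine h.congr_deriv ?_
    rw [Complex.inner, mul_comm (fx p)]
  dy := fun p hp => by
    have h := (hf.dy p hp).norm_sq
    refine h.congr_deriv ?_
    rw [Complex.inner, mul_comm (fy p)]
  c := (hf.c.norm).pow 2
  cx := by
    have h1 : ContinuousOn (fun p => starRingEnd ℂ (f p)) {p | -σ < p.2} :=
      Complex.continuous_conj.comp_continuousOn hf.c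
    exact continuousOn_const.mul (Complex.continuous_re.comp_continuousOn (h1.mul hf.cx))
  cy := by
    have h1 : ContinuousOn (fun p => starRingEnd ℂ (f p)) {p | -σ < p.2} :=
      Complex.continuous_conj.comp_continuousOn hf.c
    exact continuousOn_const.mul (Complex.continuous_re.comp_continuousOn (h1.mul hf.cy))
  per := fun p hp => by rw [hf.per p hp]

/-- composition of a real `C1` function with a `C¹` function of one variable. -/
theorem PH_comp {σ : ℝ} {f fx fy : ℝ × ℝ → ℝ} (hf : C1 σ f fx fy) {g g' : ℝ → ℝ}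
    (hg : ∀ q, HasDerivAt g (g' q) q) (hg' : Continuous g') :
    C1 σ (fun p => ((g (f p) : ℝ) : ℂ)) (fun p => ((g' (f p) * fx p : ℝ) : ℂ))
      (fun p => ((g' (f p) * fy p : ℝ) : ℂ)) where
  dx := fun p hp => by
    have h1 : HasDerivAt g (g' (f (p.1, p.2))) (f (p.1, p.2)) := hg _
    have h := HasDerivAt.comp p.1 (h₂ := g) (h := fun x => f (x, p.2)) h1 (hf.dx p hp)
    exact h.ofReal_comp
  dy := fun p hp => by
    have h1 : HasDerivAt g (g' (f (p.1, p.2))) (f (p.1, p.2)) := hg _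
    have h := HasDerivAt.comp p.2 (h₂ := g) (h := fun y => f (p.1, y)) h1 (hf.dy p hp)
    exact h.ofReal_comp
  c := by
    have hgc : Continuous g := continuous_iff_continuousAt.2 (fun q => (hg q).continuousAt)
    exact Complex.continuous_ofReal.comp_continuousOn (hgc.comp_continuousOn hf.c)
  cx := Complex.continuous_ofReal.comp_continuousOn ((hg'.comp_continuousOn hf.c).mul hf.cx)
  cy := Complex.continuous_ofReal.comp_continuousOn ((hg'.comp_continuousOn hf.c).mul hf.cy)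
  per := fun p hp => by rw [hf.per p hp]

theorem PH_conj {σ : ℝ} {f fx fy : ℝ × ℝ → ℂ} (hf : C1 σ f fx fy) :
    C1 σ (fun p => starRingEnd ℂ (f p)) (fun p => starRingEnd ℂ (fx p))
      (fun p => starRingEnd ℂ (fy p)) where
  dx := fun p hp => (Complex.conjCLE : ℂ →L[ℝ] ℂ).hasFDerivAt.comp_hasDerivAt p.1 (hf.dx p hp)
  dy := fun p hp => (Complex.conjCLE : ℂ →L[ℝ] ℂ).hasFDerivAt.comp_hasDerivAt p.2 (hf.dy p hp)
  c := Complex.continuous_conj.comp_continuousOn hf.c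
  cx := Complex.continuous_conj.comp_continuousOn hf.cx
  cy := Complex.continuous_conj.comp_continuousOn hf.cy
  per := fun p hp => by rw [hf.per p hp]

theorem PH_prod {σ : ℝ} {f fx fy g gx gy : ℝ × ℝ → ℂ} (hf : C1 σ f fx fy) (hg : C1 σ g gx gy) :
    C1 σ (fun p => f p * g p) (fun p => fx p * g p + f p * gx p)
      (fun p => fy p * g p + f p * gy p) where
  dx := fun p hp => (hf.dx p hp).mul (hg.dx p hp)
  dy := fun p hp => (hf.dy p hp).mul (hg.dy p hp)
  c := hf.c.mul hg.c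
  cx := (hf.cx.mul hg.c).add (hf.c.mul hg.cx)
  cy := (hf.cy.mul hg.c).add (hf.c.mul hg.cy)
  per := fun p hp => by rw [hf.per p hp, hg.per p hp]

theorem PH_cmul {σ : ℝ} {f fx fy : ℝ × ℝ → ℂ} (c : ℂ) (hf : C1 σ f fx fy) :
    C1 σ (fun p => c * f p) (fun p => c * fx p) (fun p => c * fy p) where
  dx := fun p hp => (hf.dx p hp).const_mul c
  dy := fun p hp => (hf.dy p hp).const_mul c
  c := continuousOn_const.mul hf.c
  cx := continuousOn_const.mul hf.cx
  cy := continuousOn_const.mul hf.cy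
  per := fun p hp => by rw [hf.per p hp]

theorem PH_add {σ : ℝ} {f fx fy g gx gy : ℝ × ℝ → ℂ} (hf : C1 σ f fx fy) (hg : C1 σ g gx gy) :
    C1 σ (fun p => f p + g p) (fun p => fx p + gx p) (fun p => fy p + gy p) where
  dx := fun p hp => (hf.dx p hp).add (hg.dx p hp)
  dy := fun p hp => (hf.dy p hp).add (hg.dy p hp)
  c := hf.c.add hg.c
  cx := hf.cx.add hg.cx
  cy := hf.cy.add hg.cy
  per := fun p hp => by rw [hf.per p hp, hg.per p hp]

theorem PH_real {σ : ℝ} {f fx fy : ℝ × ℝ → ℝ} (hf : C1 σ f fx fy) :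
    C1 σ (fun p => ((f p : ℝ) : ℂ)) (fun p => ((fx p : ℝ) : ℂ)) (fun p => ((fy p : ℝ) : ℂ)) where
  dx := fun p hp => (hf.dx p hp).ofReal_comp
  dy := fun p hp => (hf.dy p hp).ofReal_comp
  c := Complex.continuous_ofReal.comp_continuousOn hf.c
  cx := Complex.continuous_ofReal.comp_continuousOn hf.cx
  cy := Complex.continuous_ofReal.comp_continuousOn hf.cy
  per := fun p hp => by rw [hf.per p hp]

theorem PH_congr {V : Type*} [NormedAddCommGroup V] [NormedSpace ℝ V] {σ : ℝ}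
    {u ux uy ux' uy' : ℝ × ℝ → V} (h : C1 σ u ux uy)
    (hx : ∀ p : ℝ × ℝ, -σ < p.2 → ux' p = ux p) (hy : ∀ p : ℝ × ℝ, -σ < p.2 → uy' p = uy p) :
    C1 σ u ux' uy' where
  dx := fun p hp => by rw [hx p hp]; exact h.dx p hp
  dy := fun p hp => by rw [hy p hp]; exact h.dy p hp
  c := h.c
  cx := h.cx.congr hx
  cy := h.cy.congr hy
  per := h.per

/-- The set where `|b| < ε` is open in the half plane. -/
theorem PH_open {σ ε : ℝ} {f : ℝ × ℝ → ℂ} (hf : ContinuousOn f {p | -σ < p.2}) {p : ℝ × ℝ}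
    (hp : -σ < p.2) (h : ‖f p‖ < ε) : ∀ᶠ p' in 𝓝 p, -σ < p'.2 ∧ ‖f p'‖ < ε := by
  have ho : IsOpen {p : ℝ × ℝ | -σ < p.2} := isOpen_lt continuous_const continuous_snd
  have h1 : ContinuousAt f p := hf.continuousAt (ho.mem_nhds hp)
  have h2 : ∀ᶠ p' in 𝓝 p, ‖f p'‖ < ε := h1.norm.eventually (gt_mem_nhds h)
  filter_upwards [ho.mem_nhds hp, h2] with p' h3 h4 using ⟨h3, h4⟩

/-- `X/b` for `X` vanishing where `|b| < ε`. -/
theorem PH_div {σ ε : ℝ} (hε : 0 < ε) {f fx fy X Xx Xy : ℝ × ℝ → ℂ} (hf : C1 σ f fx fy)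
    (hX : C1 σ X Xx Xy) (h0 : ∀ p : ℝ × ℝ, -σ < p.2 → ‖f p‖ < ε → X p = 0) :
    C1 σ (fun p => X p / f p) (fun p => (Xx p * f p - X p * fx p) / f p ^ 2)
      (fun p => (Xy p * f p - X p * fy p) / f p ^ 2) := by
  have hx0 : ∀ p : ℝ × ℝ, -σ < p.2 → ‖f p‖ < ε → Xx p = 0 := by
    intro p hp hb
    have hc : Tendsto (fun x : ℝ => (x, p.2)) (𝓝 p.1) (𝓝 p) := by
      have : Continuous (fun x : ℝ => (x, p.2)) := by fun_prop
      exact this.tendsto p.1
    have h1 : HasDerivAt (fun x : ℝ => X (x, p.2)) 0 p.1 := by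
      refine (hasDerivAt_const p.1 (0 : ℂ)).congr_of_eventuallyEq ?_
      filter_upwards [hc.eventually (PH_open hf.c hp hb)] with x hx
      exact h0 (x, p.2) hx.1 hx.2
    exact (hX.dx p hp).unique h1
  have hy0 : ∀ p : ℝ × ℝ, -σ < p.2 → ‖f p‖ < ε → Xy p = 0 := by
    intro p hp hb
    have hc : Tendsto (fun y : ℝ => (p.1, y)) (𝓝 p.2) (𝓝 p) := by
      have : Continuous (fun y : ℝ => (p.1, y)) := by fun_prop
      exact this.tendsto p.2
    have h1 : HasDerivAt (fun y : ℝ => X (p.1, y)) 0 p.2 := by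
      refine (hasDerivAt_const p.2 (0 : ℂ)).congr_of_eventuallyEq ?_
      filter_upwards [hc.eventually (PH_open hf.c hp hb)] with y hy
      exact h0 (p.1, y) hy.1 hy.2
    exact (hX.dy p hp).unique h1
  have cont : ∀ Y : ℝ × ℝ → ℂ, ContinuousOn Y {p | -σ < p.2} → ∀ n : ℕ,
      (∀ p : ℝ × ℝ, -σ < p.2 → ‖f p‖ < ε → Y p = 0) →
      ContinuousOn (fun p => Y p / f p ^ n) {p | -σ < p.2} := by
    intro Y hY n hY0 p hp
    by_cases hfp : f p = 0
    · have hb : ‖f p‖ < ε := by rw [hfp, norm_zero]; exact hε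
      have h1 : ContinuousWithinAt (fun _ : ℝ × ℝ => (0 : ℂ)) {p | -σ < p.2} p :=
        continuousWithinAt_const
      refine h1.congr_of_eventuallyEq ?_ ?_
      · filter_upwards [mem_nhdsWithin_of_mem_nhds (PH_open hf.c hp hb)] with p' hp'
        rw [hY0 p' hp'.1 hp'.2, zero_div]
      · rw [hY0 p hp hb, zero_div]
    · exact (hY p hp).div ((hf.c p hp).pow n) (pow_ne_zero _ hfp)
  refine ⟨?_, ?_, ?_, ?_, ?_, ?_⟩
  · intro p hp
    by_cases hfp : f p = 0
    · have hb : ‖f p‖ < ε := by rw [hfp, norm_zero]; exact hε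
      have hc : Tendsto (fun x : ℝ => (x, p.2)) (𝓝 p.1) (𝓝 p) := by
        have : Continuous (fun x : ℝ => (x, p.2)) := by fun_prop
        exact this.tendsto p.1
      have h1 : HasDerivAt (fun x : ℝ => X (x, p.2) / f (x, p.2)) 0 p.1 := by
        refine (hasDerivAt_const p.1 (0 : ℂ)).congr_of_eventuallyEq ?_
        filter_upwards [hc.eventually (PH_open hf.c hp hb)] with x hx
        rw [h0 (x, p.2) hx.1 hx.2, zero_div]
      have h2 : (Xx p * f p - X p * fx p) / f p ^ 2 = 0 := by rw [hfp]; simp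
      rw [h2]; exact h1
    · exact (hX.dx p hp).div (hf.dx p hp) hfp
  · intro p hp
    by_cases hfp : f p = 0
    · have hb : ‖f p‖ < ε := by rw [hfp, norm_zero]; exact hε
      have hc : Tendsto (fun y : ℝ => (p.1, y)) (𝓝 p.2) (𝓝 p) := by
        have : Continuous (fun y : ℝ => (p.1, y)) := by fun_prop
        exact this.tendsto p.2
      have h1 : HasDerivAt (fun y : ℝ => X (p.1, y) / f (p.1, y)) 0 p.2 := by
        refine (hasDerivAt_const p.2 (0 : ℂ)).congr_of_eventuallyEq ?_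
        filter_upwards [hc.eventually (PH_open hf.c hp hb)] with y hy
        rw [h0 (p.1, y) hy.1 hy.2, zero_div]
      have h2 : (Xy p * f p - X p * fy p) / f p ^ 2 = 0 := by rw [hfp]; simp
      rw [h2]; exact h1
    · exact (hX.dy p hp).div (hf.dy p hp) hfp
  · have := cont X hX.c 1 h0
    simpa using this
  · refine cont _ ((hX.cx.mul hf.c).sub (hX.c.mul hf.cx)) 2 ?_
    intro p hp hb
    show Xx p * f p - X p * fx p = 0
    rw [h0 p hp hb, hx0 p hp hb]; simp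
  · refine cont _ ((hX.cy.mul hf.c).sub (hX.c.mul hf.cy)) 2 ?_
    intro p hp hb
    show Xy p * f p - X p * fy p = 0
    rw [h0 p hp hb, hy0 p hp hb]; simp
  · intro p hp
    show X _ / f _ = X p / f p
    rw [hX.per p hp, hf.per p hp]

/-- **(PH)** Phase correction.  On `Ω = {|b| < ε₂}` (where `X = 0`, `ψ(|a|²) = 1`) the function `u = e^φ/a` has modulus one
and is locally constant (`ux = u(φx - a'/a) = 0`, `uy = u(φy - ia'/a) = 0`), so `cc = arg u` is locally constant on `Ω`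
(put `cc = 0` outside).  `φ' = φ - i(1 - s(|b|²)) cc` (`s` = `Step` at scale `ε₂` for `|b(0)|`; `1 - s(|b|²)` vanishes for
`|b| ≥ ε₂`, so `φ'` is `C¹`), `G₂ = i cc s'(|b|²) conj(b')`:
`φ'x + iφ'y = (φx + iφy) + i·cc·s'(|b|²)(qx + i qy)`, `q = |b|²`, `qx + i qy = 2 b conj(b')`, and
`φx + iφy = X₁ - iX₂`.  `G₁ = (X₁ - iX₂)/(2b)` is `C¹` because `X = 0` on `Ω`.
`G₂x - iG₂y = 2 i cc s''(|b|²) conj(b) b' conj(b')` (`∂ conj(b') = 0`). -/
theorem PH {δ ρ : ℝ} {a b F : ℂ → ℂ} (H : Dat δ ρ a b F) (C0 ε : ℝ) (hε : 0 < ε) (hεδ : ε < δ)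
    (ψ : ℝ → ℝ) (hψ1 : ∀ q, δ ^ 2 ≤ q → ψ q = 1) (Θ : ℝ → ℝ)
    (hΘ1 : ∀ q, δ ^ 2 ≤ q → Θ q = Real.log q / 2) (s s' s'' : ℝ → ℝ)
    (hs : Step C0 ε ‖b 0‖ s s' s'')
    (σ : ℝ) (hσ : 0 < σ) (hσρ : σ < Real.log ρ) (X1 X1x X1y X2 X2x X2y : ℝ × ℝ → ℝ)
    (hX1 : C1 σ X1 X1x X1y) (hX2 : C1 σ X2 X2x X2y)
    (hX : ∀ p : ℝ × ℝ, -σ < p.2 → ‖hp b p‖ < ε → X1 p = 0 ∧ X2 p = 0)
    (φ : ℝ × ℝ → ℂ) (hφ : C1 σ φ
        (fun p => (ψ (‖hp a p‖ ^ 2) : ℂ) * hp (Dz a) p / hp a p - Complex.I * X2 p)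
        (fun p => Complex.I * ((ψ (‖hp a p‖ ^ 2) : ℂ) * hp (Dz a) p / hp a p)
          - Complex.I * X1 p))
    (hφre : ∀ p : ℝ × ℝ, -σ < p.2 → (φ p).re = Θ (‖hp a p‖ ^ 2))
    (Bφ : ℝ) (hφB : ∀ p : ℝ × ℝ, 0 ≤ p.2 → ‖φ p‖ ≤ Bφ) :
    ∃ φ' φx φy G1x G1y G2 G2x G2y : ℝ × ℝ → ℂ,
      C1 σ φ' φx φy ∧
      C1 σ (fun p => ((X1 p : ℂ) - Complex.I * X2 p) / (2 * hp b p)) G1x G1y ∧
      C1 σ G2 G2x G2y ∧
      (∀ p : ℝ × ℝ, -σ < p.2 → (φ' p).re = Θ (‖hp a p‖ ^ 2)) ∧
      (∀ p : ℝ × ℝ, -σ < p.2 → φx p + Complex.I * φy p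
        = 2 * hp b p * (((X1 p : ℂ) - Complex.I * X2 p) / (2 * hp b p) + G2 p)) ∧
      (∀ p : ℝ × ℝ, -σ < p.2 → ‖hp b p‖ < ε / 2 → Complex.exp (φ' p) = hp a p ∧ G2 p = 0) ∧
      (∀ p : ℝ × ℝ, 0 ≤ p.2 → ‖G2 p‖ ≤ 4 * C0 / ε ^ 2 * ‖hp (Dz b) p‖) ∧
      (∀ p : ℝ × ℝ, 0 ≤ p.2 → ‖G2x p - Complex.I * G2y p‖
        ≤ 8 * C0 / ε ^ 4 * ‖hp (Dz b) p‖ ^ 2) ∧
      (∀ p : ℝ × ℝ, Real.log (16 / ε) ≤ p.2 → G2 p = 0) ∧
      ∃ B : ℝ, ∀ p : ℝ × ℝ, 0 ≤ p.2 → ‖φ' p‖ ≤ B := by
  have hρ0 : 0 < ρ := by linarith [H.hρ]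
  have hBl : C1 (Real.log ρ) (hp b) (hp (Dz b)) (fun p => Complex.I * hp (Dz b) p) := C1_hp hρ0 H.hb
  have hB : C1 σ (hp b) (hp (Dz b)) (fun p => Complex.I * hp (Dz b) p) := PH_C1_mono hBl hσρ.le
  have hB2l : C1 (Real.log ρ) (hp (Dz b)) (hp (Dz (Dz b)))
      (fun p => Complex.I * hp (Dz (Dz b)) p) := C1_hp hρ0 (Dz_diff H.hb)
  have hB2 : C1 σ (hp (Dz b)) (hp (Dz (Dz b))) (fun p => Complex.I * hp (Dz (Dz b)) p) :=
    PH_C1_mono hB2l hσρ.le
  have hA : C1 σ (hp a) (hp (Dz a)) (fun p => Complex.I * hp (Dz a) p) :=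
    PH_C1_mono (C1_hp hρ0 H.ha) hσρ.le
  have hmem : ∀ p : ℝ × ℝ, -σ < p.2 → E p ∈ Metric.ball (0 : ℂ) ρ := fun p hpp =>
    E_mem_ball hρ0 (by linarith)
  have ha2 : ∀ p : ℝ × ℝ, -σ < p.2 → ‖hp b p‖ < ε → 2 * δ ≤ ‖hp a p‖ := by
    intro p hpp hb
    rcases H.hab _ (hmem p hpp) with h | h
    · exact h
    · exfalso
      have : ‖hp b p‖ = ‖b (E p)‖ := rfl
      have := H.hδ
      linarith
  have hane : ∀ p : ℝ × ℝ, -σ < p.2 → ‖hp b p‖ < ε → hp a p ≠ 0 := by
    intro p hpp hb h0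
    have := ha2 p hpp hb
    rw [h0, norm_zero] at this
    linarith [H.hδ]
  have hasq : ∀ p : ℝ × ℝ, -σ < p.2 → ‖hp b p‖ < ε → δ ^ 2 ≤ ‖hp a p‖ ^ 2 := by
    intro p hpp hb
    have := ha2 p hpp hb
    have h3 := H.hδ
    exact pow_le_pow_left₀ h3.le (by linarith) 2
  set u : ℝ × ℝ → ℂ := fun p => Complex.exp (φ p) / hp a p with hu
  have hunorm : ∀ p : ℝ × ℝ, -σ < p.2 → ‖hp b p‖ < ε → ‖u p‖ = 1 := by
    intro p hpp hb
    have hpos : 0 < ‖hp a p‖ := norm_pos_iff.2 (hane p hpp hb)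
    show ‖Complex.exp (φ p) / hp a p‖ = 1
    rw [norm_div, Complex.norm_exp, hφre p hpp, hΘ1 _ (hasq p hpp hb), Real.log_pow]
    push_cast
    rw [show 2 * Real.log ‖hp a p‖ / 2 = Real.log ‖hp a p‖ by ring, Real.exp_log hpos]
    exact div_self hpos.ne'
  have hux : ∀ p : ℝ × ℝ, -σ < p.2 → ‖hp b p‖ < ε →
      HasDerivAt (fun x : ℝ => u (x, p.2)) 0 p.1 := by
    intro p hpp hb
    have hne := hane p hpp hb
    have h1 := (hφ.dx p hpp).cexp.div (hA.dx p hpp) (by exact hne)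
    refine h1.congr_deriv ?_
    rw [hψ1 _ (hasq p hpp hb), (hX p hpp hb).2]
    show (Complex.exp (φ p) * (((1 : ℝ) : ℂ) * hp (Dz a) p / hp a p - Complex.I * ((0 : ℝ) : ℂ)) * hp a p
      - Complex.exp (φ p) * hp (Dz a) p) / hp a p ^ 2 = 0
    push_cast
    field_simp
    ring
  have huy : ∀ p : ℝ × ℝ, -σ < p.2 → ‖hp b p‖ < ε →
      HasDerivAt (fun y : ℝ => u (p.1, y)) 0 p.2 := by
    intro p hpp hb
    have hne := hane p hpp hb
    have h1 := (hφ.dy p hpp).cexp.div (hA.dy p hpp) (by exact hne)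
    refine h1.congr_deriv ?_
    rw [hψ1 _ (hasq p hpp hb), (hX p hpp hb).1]
    show (Complex.exp (φ p) * (Complex.I * (((1 : ℝ) : ℂ) * hp (Dz a) p / hp a p)
      - Complex.I * ((0 : ℝ) : ℂ)) * hp a p
      - Complex.exp (φ p) * (Complex.I * hp (Dz a) p)) / hp a p ^ 2 = 0
    push_cast
    field_simp
    ring
  have huloc : ∀ p : ℝ × ℝ, -σ < p.2 → ‖hp b p‖ < ε →
      ∀ᶠ p' in 𝓝 p, u p' = u p ∧ ‖hp b p'‖ < ε := by
    intro p hpp hb
    obtain ⟨r, hr, hr2⟩ := Metric.eventually_nhds_iff.1 (PH_open hB.c hpp hb)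
    have hbox : ∀ q : ℝ × ℝ, |q.1 - p.1| < r → |q.2 - p.2| < r → -σ < q.2 ∧ ‖hp b q‖ < ε := by
      intro q h1 h2
      apply hr2
      rw [Prod.dist_eq, Real.dist_eq, Real.dist_eq]
      exact max_lt h1 h2
    refine Metric.eventually_nhds_iff.2 ⟨r, hr, fun q hq => ?_⟩
    rw [Prod.dist_eq, Real.dist_eq, Real.dist_eq] at hq
    have h1 : |q.1 - p.1| < r := lt_of_le_of_lt (le_max_left _ _) hq
    have h2 : |q.2 - p.2| < r := lt_of_le_of_lt (le_max_right _ _) hq
    refine ⟨PH_const u p r (fun q h3 h4 => ?_) (fun q h3 h4 => ?_) q h1 h2, (hbox q h1 h2).2⟩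
    · exact hux q (hbox q h3 h4).1 (hbox q h3 h4).2
    · exact huy q (hbox q h3 h4).1 (hbox q h3 h4).2
  set cc : ℝ × ℝ → ℝ := fun p => if ‖hp b p‖ < ε then (u p).arg else 0 with hcc
  have hccb : ∀ p, |cc p| ≤ 4 := by
    intro p
    show |if ‖hp b p‖ < ε then (u p).arg else 0| ≤ 4
    split_ifs
    · exact (Complex.abs_arg_le_pi _).trans Real.pi_le_four
    · norm_num
  set Om : Set (ℝ × ℝ) := {p | ‖hp b p‖ < ε} with hOm
  have hloc : ∀ p ∈ Om, -σ < p.2 → ∀ᶠ p' in 𝓝 p, cc p' = cc p := by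
    intro p hpO hpp
    filter_upwards [huloc p hpp hpO] with p' hp'
    have h1 : ‖hp b p‖ < ε := hpO
    show (if ‖hp b p'‖ < ε then (u p').arg else 0) = (if ‖hp b p‖ < ε then (u p).arg else 0)
    rw [if_pos hp'.2, if_pos h1, hp'.1]
  have hccper : ∀ p : ℝ × ℝ, -σ < p.2 → cc (p.1 + 2 * Real.pi, p.2) = cc p := by
    intro p hpp
    show (if ‖hp b (p.1 + 2 * Real.pi, p.2)‖ < ε then
      (Complex.exp (φ (p.1 + 2 * Real.pi, p.2)) / hp a (p.1 + 2 * Real.pi, p.2)).arg else 0)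
      = (if ‖hp b p‖ < ε then (Complex.exp (φ p) / hp a p).arg else 0)
    rw [hp_per, hp_per, hφ.per p hpp]
  -- the functions of `q = |b|^2`
  have hq := PH_sq hB
  set qx : ℝ × ℝ → ℝ := fun p => 2 * (starRingEnd ℂ (hp b p) * hp (Dz b) p).re with hqx
  set qy : ℝ × ℝ → ℝ := fun p => 2 * (starRingEnd ℂ (hp b p) * (Complex.I * hp (Dz b) p)).re with hqy
  have hs'c : Continuous s' := continuous_iff_continuousAt.2 (fun q => (hs.d2 q).continuousAt)
  have hk1 : C1 σ (fun p => (((1 - s (‖hp b p‖ ^ 2)) : ℝ) : ℂ))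
      (fun p => ((-(s' (‖hp b p‖ ^ 2)) * qx p : ℝ) : ℂ))
      (fun p => ((-(s' (‖hp b p‖ ^ 2)) * qy p : ℝ) : ℂ)) :=
    PH_comp hq (g := fun q => 1 - s q) (g' := fun q => -(s' q))
      (fun q => by simpa using (hs.d1 q).const_sub 1) hs'c.neg
  have hk2 : C1 σ (fun p => ((s' (‖hp b p‖ ^ 2) : ℝ) : ℂ))
      (fun p => ((s'' (‖hp b p‖ ^ 2) * qx p : ℝ) : ℂ))
      (fun p => ((s'' (‖hp b p‖ ^ 2) * qy p : ℝ) : ℂ)) :=
    PH_comp hq (g := s') (g' := s'') hs.d2 hs.c2
  have hge : ∀ p : ℝ × ℝ, p ∉ Om → ε ^ 2 ≤ ‖hp b p‖ ^ 2 := by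
    intro p hpO
    have : ε ≤ ‖hp b p‖ := not_lt.1 hpO
    exact pow_le_pow_left₀ hε.le this 2
  have hM1 := PH_mul hk1 cc Om hccb hloc hccper (fun p hpp hpO => by
    have h1 := hge p hpO
    rw [hs.high _ h1, PH_s1_high hs h1]
    simp)
  have hK3 := PH_prod hk2 (PH_conj hB2)
  have hM2 := PH_mul hK3 cc Om hccb hloc hccper (fun p hpp hpO => by
    have h1 := hge p hpO
    simp only [PH_s1_high hs h1, PH_s2_high hs h1]
    simp)
  have hG2 := PH_cmul Complex.I hM2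
  have hφ' := PH_add hφ (PH_cmul (-Complex.I) hM1)
  have hXc : C1 σ (fun p => (X1 p : ℂ) - Complex.I * X2 p)
      (fun p => (X1x p : ℂ) - Complex.I * X2x p) (fun p => (X1y p : ℂ) - Complex.I * X2y p) := by
    have h := PH_add (PH_real hX1) (PH_cmul (-Complex.I) (PH_real hX2))
    have e : ∀ f g : ℝ × ℝ → ℝ, (fun p => ((f p : ℝ) : ℂ) + -Complex.I * ((g p : ℝ) : ℂ))
        = (fun p => (f p : ℂ) - Complex.I * g p) := by
      intro f g; funext p; ring
    rw [e, e, e] at h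
    exact h
  have h2B := PH_cmul 2 hB
  have hG1 := PH_div (ε := 2 * ε) (by linarith) h2B hXc (fun p hpp hb => by
    have h1 : ‖hp b p‖ < ε := by
      rw [norm_mul] at hb
      simp only [Complex.norm_ofNat] at hb
      linarith
    rw [(hX p hpp h1).1, (hX p hpp h1).2]; simp)
  have hlow : ∀ p : ℝ × ℝ, ‖hp b p‖ < ε / 2 → ‖hp b p‖ ^ 2 < ε ^ 2 / 4 := by
    intro p hpp
    have : ‖hp b p‖ ^ 2 < (ε / 2) ^ 2 := pow_lt_pow_left₀ hpp (norm_nonneg _) (by norm_num)
    calc ‖hp b p‖ ^ 2 < (ε / 2) ^ 2 := this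
      _ = ε ^ 2 / 4 := by ring
  have hC0 : 0 ≤ C0 / ε ^ 2 := (abs_nonneg _).trans (hs.b1 0)
  have hC04 : 0 ≤ C0 / ε ^ 4 := (abs_nonneg _).trans (hs.b2 0)
  refine ⟨_, _, _, _, _, _, _, _, hφ', hG1, hG2, ?_, ?_, ?_, ?_, ?_, ?_, ?_⟩
  · intro p hpp
    show (φ p + -Complex.I * ((((1 - s (‖hp b p‖ ^ 2)) : ℝ) : ℂ) * (cc p : ℂ))).re = _
    rw [← Complex.ofReal_mul, Complex.add_re, hφre p hpp]
    simp
  · intro p hpp
    have e1 : (qx p : ℂ) + Complex.I * (qy p : ℂ)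
        = 2 * (hp b p * starRingEnd ℂ (hp (Dz b) p)) := by
      apply Complex.ext
      · simp [hqx, hqy]
      · simp [hqx, hqy]
    have e2 : 2 * hp b p * (((X1 p : ℂ) - Complex.I * X2 p) / (2 * hp b p))
        = (X1 p : ℂ) - Complex.I * X2 p := by
      by_cases hb0 : hp b p = 0
      · have h1 : ‖hp b p‖ < ε := by rw [hb0, norm_zero]; exact hε
        rw [(hX p hpp h1).1, (hX p hpp h1).2]; simp
      · field_simp
    rw [mul_add (2 * hp b p), e2]
    have e3 : ∀ z w x y c q1 q2 t b1 b2 : ℂ, q1 + Complex.I * q2 = 2 * (b1 * b2) →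
        (z - Complex.I * y + -Complex.I * (-t * q1 * c))
          + Complex.I * (Complex.I * z - Complex.I * x + -Complex.I * (-t * q2 * c))
        = x - Complex.I * y + 2 * b1 * (Complex.I * (t * b2 * c)) := by
      intro z w x y c q1 q2 t b1 b2 h
      have hI : Complex.I * Complex.I = -1 := Complex.I_mul_I
      have : (z - Complex.I * y + -Complex.I * (-t * q1 * c))
          + Complex.I * (Complex.I * z - Complex.I * x + -Complex.I * (-t * q2 * c))
          = z + (Complex.I * Complex.I) * z - Complex.I * y - (Complex.I * Complex.I) * x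
            + Complex.I * t * c * (q1 + Complex.I * q2) := by ring
      rw [this, h, hI]; ring
    have := e3 ((ψ (‖hp a p‖ ^ 2) : ℂ) * hp (Dz a) p / hp a p) 0 (X1 p) (X2 p) (cc p) (qx p) (qy p)
      (s' (‖hp b p‖ ^ 2)) (hp b p) (starRingEnd ℂ (hp (Dz b) p)) e1
    push_cast
    exact this
  · intro p hpp hb
    have h1 : ‖hp b p‖ < ε := by linarith
    have hl := hlow p hb
    constructor
    · show Complex.exp (φ p + -Complex.I * ((((1 - s (‖hp b p‖ ^ 2)) : ℝ) : ℂ) * (cc p : ℂ))) = hp a p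
      rw [hs.low _ hl.le]
      have hccp : cc p = (u p).arg := if_pos h1
      rw [hccp]
      have hne := hane p hpp h1
      have h2 : u p = Complex.exp (((u p).arg : ℂ) * Complex.I) := by
        have := Complex.norm_mul_exp_arg_mul_I (u p)
        rw [hunorm p hpp h1] at this
        simpa using this.symm
      have h3 : Complex.exp (φ p) = u p * hp a p := by
        show Complex.exp (φ p) = Complex.exp (φ p) / hp a p * hp a p
        field_simp
      rw [Complex.exp_add, h3]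
      nth_rewrite 1 [h2]
      rw [mul_comm (Complex.exp _) (hp a p), mul_assoc, ← Complex.exp_add]
      have : ((u p).arg : ℂ) * Complex.I + -Complex.I * (((1 - 0 : ℝ) : ℂ) * ((u p).arg : ℂ)) = 0 := by
        push_cast; ring
      rw [this, Complex.exp_zero, mul_one]
    · show Complex.I * ((((s' (‖hp b p‖ ^ 2) : ℝ) : ℂ) * starRingEnd ℂ (hp (Dz b) p)) * (cc p : ℂ)) = 0
      rw [PH_s1_low hs hl]; simp
  · intro p hpp
    show ‖Complex.I * ((((s' (‖hp b p‖ ^ 2) : ℝ) : ℂ) * starRingEnd ℂ (hp (Dz b) p)) * (cc p : ℂ))‖ ≤ _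
    rw [norm_mul, norm_mul, norm_mul, Complex.norm_I, one_mul, Complex.norm_real, Complex.norm_real,
      RCLike.norm_conj, Real.norm_eq_abs, Real.norm_eq_abs]
    have h1 := hs.b1 (‖hp b p‖ ^ 2)
    calc |s' (‖hp b p‖ ^ 2)| * ‖hp (Dz b) p‖ * |cc p|
        ≤ (C0 / ε ^ 2) * ‖hp (Dz b) p‖ * 4 := by
          gcongr
          exact hccb p
      _ = 4 * C0 / ε ^ 2 * ‖hp (Dz b) p‖ := by ring
  · intro p hpp
    have e1 : (qx p : ℂ) - Complex.I * (qy p : ℂ)
        = 2 * (starRingEnd ℂ (hp b p) * hp (Dz b) p) := by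
      apply Complex.ext
      · simp [hqx, hqy]
      · simp [hqx, hqy]; ring
    have e2 : Complex.I * ((((s'' (‖hp b p‖ ^ 2) * qx p : ℝ) : ℂ) * starRingEnd ℂ (hp (Dz b) p)
          + ((s' (‖hp b p‖ ^ 2) : ℝ) : ℂ) * starRingEnd ℂ (hp (Dz (Dz b)) p)) * (cc p : ℂ))
        - Complex.I * (Complex.I * ((((s'' (‖hp b p‖ ^ 2) * qy p : ℝ) : ℂ) * starRingEnd ℂ (hp (Dz b) p)
          + ((s' (‖hp b p‖ ^ 2) : ℝ) : ℂ) * starRingEnd ℂ (Complex.I * hp (Dz (Dz b)) p)) * (cc p : ℂ)))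
        = Complex.I * (cc p : ℂ) * ((s'' (‖hp b p‖ ^ 2) : ℝ) : ℂ) * starRingEnd ℂ (hp (Dz b) p)
          * (2 * (starRingEnd ℂ (hp b p) * hp (Dz b) p)) := by
      rw [← e1]
      rw [map_mul, Complex.conj_I]
      push_cast
      have hI : Complex.I * Complex.I = -1 := Complex.I_mul_I
      have e3 : ∀ s2 q1 q2 b1 s1 b2 c : ℂ,
          Complex.I * ((s2 * q1 * b1 + s1 * b2) * c)
            - Complex.I * (Complex.I * ((s2 * q2 * b1 + s1 * (-Complex.I * b2)) * c))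
          = Complex.I * c * s2 * b1 * (q1 - Complex.I * q2) + Complex.I * s1 * b2 * c
            + Complex.I * (Complex.I * Complex.I) * s1 * b2 * c := by
        intro s2 q1 q2 b1 s1 b2 c; ring
      rw [e3, hI]; ring
    show ‖Complex.I * ((((s'' (‖hp b p‖ ^ 2) * qx p : ℝ) : ℂ) * starRingEnd ℂ (hp (Dz b) p)
          + ((s' (‖hp b p‖ ^ 2) : ℝ) : ℂ) * starRingEnd ℂ (hp (Dz (Dz b)) p)) * (cc p : ℂ))
        - Complex.I * (Complex.I * ((((s'' (‖hp b p‖ ^ 2) * qy p : ℝ) : ℂ) * starRingEnd ℂ (hp (Dz b) p)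
          + ((s' (‖hp b p‖ ^ 2) : ℝ) : ℂ) * starRingEnd ℂ (Complex.I * hp (Dz (Dz b)) p)) * (cc p : ℂ)))‖
        ≤ _
    rw [e2]
    simp only [norm_mul, Complex.norm_I, one_mul, Complex.norm_real, RCLike.norm_conj,
      Real.norm_eq_abs, Complex.norm_ofNat]
    have hb1 : ‖hp b p‖ ≤ 1 := H.hb1 _ (hmem p (by linarith))
    have h2 := hs.b2 (‖hp b p‖ ^ 2)
    calc |cc p| * |s'' (‖hp b p‖ ^ 2)| * ‖hp (Dz b) p‖ * (2 * (‖hp b p‖ * ‖hp (Dz b) p‖))
        ≤ 4 * (C0 / ε ^ 4) * ‖hp (Dz b) p‖ * (2 * (1 * ‖hp (Dz b) p‖)) := by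
          gcongr
          exact hccb p
      _ = 8 * C0 / ε ^ 4 * ‖hp (Dz b) p‖ ^ 2 := by ring
  · intro p hpp
    have hεs : ε < 1 / 2 := by linarith [H.hδ2]
    have h16 : 1 < 16 / ε := by rw [lt_div_iff₀ hε]; linarith
    have hp0 : 0 < p.2 := lt_of_lt_of_le (Real.log_pos h16) hpp
    have hE : ‖E p‖ ≤ ε / 16 := by
      rw [norm_E]
      have h3 : Real.exp (-p.2) ≤ Real.exp (-Real.log (16 / ε)) := Real.exp_le_exp.2 (by linarith)
      rw [Real.exp_neg (Real.log (16 / ε)), Real.exp_log (by linarith)] at h3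
      refine h3.trans (le_of_eq ?_)
      field_simp
    have h1 := near_zero b (H.hb.mono (Metric.ball_subset_ball H.hρ.le))
      (fun w hw => H.hb1 w (Metric.ball_subset_ball H.hρ.le hw)) (E p) (E_mem_ball_one hp0)
    have h2 : |‖hp b p‖ - ‖b 0‖| ≤ ε / 8 := by
      have h3 : |‖b (E p)‖ - ‖b 0‖| ≤ ‖b (E p) - b 0‖ := abs_norm_sub_norm_le _ _
      have : ‖hp b p‖ = ‖b (E p)‖ := rfl
      rw [this]
      linarith
    have h3 := hs.av ‖hp b p‖ (norm_nonneg _) h2
    show Complex.I * ((((s' (‖hp b p‖ ^ 2) : ℝ) : ℂ) * starRingEnd ℂ (hp (Dz b) p)) * (cc p : ℂ)) = 0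
    rw [h3]; simp
  · refine ⟨Bφ + 4, fun p hpp => ?_⟩
    show ‖φ p + -Complex.I * ((((1 - s (‖hp b p‖ ^ 2)) : ℝ) : ℂ) * (cc p : ℂ))‖ ≤ Bφ + 4
    have h0 := hs.h0 (‖hp b p‖ ^ 2)
    have h1 : ‖-Complex.I * ((((1 - s (‖hp b p‖ ^ 2)) : ℝ) : ℂ) * (cc p : ℂ))‖ ≤ 4 := by
      rw [norm_mul, norm_neg, Complex.norm_I, one_mul, norm_mul, Complex.norm_real,
        Complex.norm_real, Real.norm_eq_abs, Real.norm_eq_abs]
      have h2 : |1 - s (‖hp b p‖ ^ 2)| ≤ 1 := by rw [abs_le]; constructor <;> linarith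
      calc |1 - s (‖hp b p‖ ^ 2)| * |cc p| ≤ 1 * 4 := by
            gcongr
            exact hccb p
        _ = 4 := by ring
    exact (norm_add_le _ _).trans (add_le_add (hφB p hpp) h1)

end Pool.H14.SR

end S_PH

noncomputable section S_SRC

open MeasureTheory Set Filter Topology
namespace Pool.H14.SR

/-- derivative of `g(‖f‖²) * (f1 * conj f)` along a real parameter -/
theorem SRC_aux1 {g g1 : ℝ → ℝ} (hg : ∀ q, HasDerivAt g (g1 q) q) {f f1 : ℝ → ℂ} {f' f1' : ℂ}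
    {x : ℝ} (hf : HasDerivAt f f' x) (hf1 : HasDerivAt f1 f1' x) :
    HasDerivAt (fun t => ((g (‖f t‖ ^ 2) : ℝ) : ℂ) * (f1 t * starRingEnd ℂ (f t)))
      (((g1 (‖f x‖ ^ 2) * (2 * (f' * starRingEnd ℂ (f x)).re) : ℝ) : ℂ) *
          (f1 x * starRingEnd ℂ (f x)) +
        ((g (‖f x‖ ^ 2) : ℝ) : ℂ) * (f1' * starRingEnd ℂ (f x) + f1 x * starRingEnd ℂ f')) x := by
  have h1 : HasDerivAt (fun t => ‖f t‖ ^ 2) (2 * (f' * starRingEnd ℂ (f x)).re) x := by
    have := hf.norm_sq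
    rwa [Complex.inner] at this
  have h2 : HasDerivAt (fun t => g (‖f t‖ ^ 2))
      (g1 (‖f x‖ ^ 2) * (2 * (f' * starRingEnd ℂ (f x)).re)) x :=
    (hg (‖f x‖ ^ 2)).comp x h1
  have h3 := h2.ofReal_comp
  have h4 : HasDerivAt (fun t => starRingEnd ℂ (f t)) (starRingEnd ℂ f') x := hf.star
  exact h3.mul (hf1.mul h4)

/-- derivative of `2 g(‖f‖²) ‖f1‖²` along a real parameter -/
theorem SRC_aux2 {g g1 : ℝ → ℝ} (hg : ∀ q, HasDerivAt g (g1 q) q) {f f1 : ℝ → ℂ} {f' f1' : ℂ}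
    {x : ℝ} (hf : HasDerivAt f f' x) (hf1 : HasDerivAt f1 f1' x) :
    HasDerivAt (fun t => 2 * g (‖f t‖ ^ 2) * ‖f1 t‖ ^ 2)
      (2 * (g1 (‖f x‖ ^ 2) * (2 * (f' * starRingEnd ℂ (f x)).re)) * ‖f1 x‖ ^ 2 +
        2 * g (‖f x‖ ^ 2) * (2 * (f1' * starRingEnd ℂ (f1 x)).re)) x := by
  have h1 : HasDerivAt (fun t => ‖f t‖ ^ 2) (2 * (f' * starRingEnd ℂ (f x)).re) x := by
    have := hf.norm_sq
    rwa [Complex.inner] at this
  have h1' : HasDerivAt (fun t => ‖f1 t‖ ^ 2) (2 * (f1' * starRingEnd ℂ (f1 x)).re) x := by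
    have := hf1.norm_sq
    rwa [Complex.inner] at this
  have h2 : HasDerivAt (fun t => g (‖f t‖ ^ 2))
      (g1 (‖f x‖ ^ 2) * (2 * (f' * starRingEnd ℂ (f x)).re)) x :=
    (hg (‖f x‖ ^ 2)).comp x h1
  exact (h2.const_mul 2).mul h1'

/-- `ψ(q)/q` has a continuous derivative -/
theorem SRC_aux3 {C0 δ v : ℝ} (hδ : 0 < δ) {ψ ψ' ψ'' : ℝ → ℝ} (hψ : Step C0 δ v ψ ψ' ψ'') :
    (∀ q, q < δ ^ 2 / 4 → ψ' q = 0) ∧ (∀ q, δ ^ 2 < q → ψ' q = 0) ∧
    (∀ q, HasDerivAt (fun q => ψ q / q) ((ψ' q * q - ψ q) / q ^ 2) q) ∧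
    Continuous (fun q => (ψ' q * q - ψ q) / q ^ 2) := by
  have hlow : ∀ q, q < δ ^ 2 / 4 → ψ' q = 0 := by
    intro q hq
    have h1 : HasDerivAt ψ 0 q := by
      refine (hasDerivAt_const q (0 : ℝ)).congr_of_eventuallyEq ?_
      filter_upwards [Iio_mem_nhds hq] with r hr
      exact hψ.low r (le_of_lt hr)
    exact (hψ.d1 q).unique h1
  have hhigh : ∀ q, δ ^ 2 < q → ψ' q = 0 := by
    intro q hq
    have h1 : HasDerivAt ψ 0 q := by
      refine (hasDerivAt_const q (1 : ℝ)).congr_of_eventuallyEq ?_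
      filter_upwards [Ioi_mem_nhds hq] with r hr
      exact hψ.high r (le_of_lt hr)
    exact (hψ.d1 q).unique h1
  have hq4 : 0 < δ ^ 2 / 4 := by positivity
  refine ⟨hlow, hhigh, ?_, ?_⟩
  · intro q
    by_cases hq : q < δ ^ 2 / 4
    · have h1 : (ψ' q * q - ψ q) / q ^ 2 = 0 := by
        rw [hlow q hq, hψ.low q hq.le]; simp
      rw [h1]
      refine (hasDerivAt_const q (0 : ℝ)).congr_of_eventuallyEq ?_
      filter_upwards [Iio_mem_nhds hq] with r hr
      rw [hψ.low r (le_of_lt hr), zero_div]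
    · have hq0 : q ≠ 0 := by
        intro h; rw [h] at hq; exact hq hq4
      have := (hψ.d1 q).div (hasDerivAt_id q) hq0
      simp only [id, mul_one] at this
      exact this
  · rw [continuous_iff_continuousAt]
    intro q
    have c' : Continuous ψ' := continuous_iff_continuousAt.2 fun q => (hψ.d2 q).continuousAt
    have c0 : Continuous ψ := continuous_iff_continuousAt.2 fun q => (hψ.d1 q).continuousAt
    by_cases hq : q < δ ^ 2 / 4
    · have : (fun q => (ψ' q * q - ψ q) / q ^ 2) =ᶠ[𝓝 q] fun _ => (0 : ℝ) := by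
        filter_upwards [Iio_mem_nhds hq] with r hr
        rw [hlow r hr, hψ.low r (le_of_lt hr)]; simp
      exact continuousAt_const.congr this.symm
    · have hq0 : q ^ 2 ≠ 0 := by
        have : q ≠ 0 := by
          intro h; rw [h] at hq; exact hq hq4
        positivity
      exact ((c'.mul continuous_id).sub c0).continuousAt.div (continuous_pow 2).continuousAt hq0

/-- **(SRC)** The sources.  `T = ψ(|a|²) a'/a`, `m = 2ψ'(|a|²)|a'|²`: `∂x Re T - ∂y Im T = m`.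

Proof: near points with `|a| < δ/2` both are `0`; near points with `a ≠ 0`, `L = a'/a` is analytic in `ζ`
(`∂x L = L'`, `∂y L = iL'`), `q = |a|²`, `qx = 2q Re L`, `qy = -2q Im L`,
`Tx = ψ'(q)qx L + ψ L'`, `Ty = ψ'(q) qy L + iψL'`, `Re Tx - Im Ty = ψ'(q)(qx Re L - qy Im L) = 2qψ'(q)|L|² = 2ψ'(q)|a'|²`.
`m ≠ 0` implies `|a|² < δ²` hence `|b| ≥ 2δ`; for `y ≥ log(16/δ)`: `||a| - |a(0)|| ≤ 2e^{-y} ≤ δ/8` (`near_zero`), so
`ψ'(|a|²) = 0` (`Step.av`).  Decay of `T`: `hp_decay` and `|a| ≥ δ/2` where `ψ ≠ 0`. -/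
theorem SRC {δ ρ : ℝ} {a b F : ℂ → ℂ} (H : Dat δ ρ a b F) (C0 : ℝ) (ψ ψ' ψ'' : ℝ → ℝ)
    (hψ : Step C0 δ ‖a 0‖ ψ ψ' ψ'') :
    (∃ Tx Ty : ℝ × ℝ → ℂ, C1 (Real.log ρ)
        (fun p => (ψ (‖hp a p‖ ^ 2) : ℂ) * hp (Dz a) p / hp a p) Tx Ty ∧
      ∀ p : ℝ × ℝ, -Real.log ρ < p.2 →
        (Tx p).re - (Ty p).im = 2 * ψ' (‖hp a p‖ ^ 2) * ‖hp (Dz a) p‖ ^ 2) ∧
    (∃ mx my : ℝ × ℝ → ℝ, C1 (Real.log ρ)
        (fun p => 2 * ψ' (‖hp a p‖ ^ 2) * ‖hp (Dz a) p‖ ^ 2) mx my) ∧
    (∃ B : ℝ, ∀ p : ℝ × ℝ, 0 ≤ p.2 →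
      ‖(ψ (‖hp a p‖ ^ 2) : ℂ) * hp (Dz a) p / hp a p‖ ≤ B * Real.exp (-p.2)) ∧
    (∀ p : ℝ × ℝ, -Real.log ρ < p.2 → 2 * ψ' (‖hp a p‖ ^ 2) * ‖hp (Dz a) p‖ ^ 2 ≠ 0 →
      2 * δ ≤ ‖hp b p‖) ∧
    (∀ p : ℝ × ℝ, Real.log (16 / δ) ≤ p.2 →
      2 * ψ' (‖hp a p‖ ^ 2) * ‖hp (Dz a) p‖ ^ 2 = 0) := by
  have hδ := H.hδ
  have hρ0 : 0 < ρ := lt_trans one_pos H.hρ
  obtain ⟨hlow, hhigh, hg, hgc⟩ := SRC_aux3 hδ hψ
  have cψ' : Continuous ψ' := continuous_iff_continuousAt.2 fun q => (hψ.d2 q).continuousAt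
  have cψ : Continuous ψ := continuous_iff_continuousAt.2 fun q => (hψ.d1 q).continuousAt
  have A0 := C1_hp hρ0 H.ha
  have A1 := C1_hp hρ0 (Dz_diff H.ha)
  have hgcont : Continuous (fun q => ψ q / q) :=
    continuous_iff_continuousAt.2 fun q => (hg q).continuousAt
  -- T in the new form
  have hT : (fun p => (ψ (‖hp a p‖ ^ 2) : ℂ) * hp (Dz a) p / hp a p) =
      fun p => (((ψ (‖hp a p‖ ^ 2) / ‖hp a p‖ ^ 2 : ℝ)) : ℂ) *
        (hp (Dz a) p * starRingEnd ℂ (hp a p)) := by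
    funext p
    by_cases h0 : hp a p = 0
    · rw [h0]; simp
    · have h1 : (hp a p) * starRingEnd ℂ (hp a p) = ((‖hp a p‖ ^ 2 : ℝ) : ℂ) := by
        rw [Complex.mul_conj, Complex.normSq_eq_norm_sq]
      have h2 : ((‖hp a p‖ ^ 2 : ℝ) : ℂ) ≠ 0 := by
        rw [Complex.ofReal_ne_zero]; positivity
      have h3 : starRingEnd ℂ (hp a p) = ((‖hp a p‖ ^ 2 : ℝ) : ℂ) / hp a p := by
        rw [← h1]; field_simp
      rw [h3, Complex.ofReal_div]
      field_simp
  -- continuity helpers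
  have cA : ContinuousOn (hp a) {p | -Real.log ρ < p.2} := A0.c
  have cA1 : ContinuousOn (hp (Dz a)) {p | -Real.log ρ < p.2} := A0.cx
  have cA2 : ContinuousOn (hp (Dz (Dz a))) {p | -Real.log ρ < p.2} := A1.cx
  have cn : ContinuousOn (fun p => ‖hp a p‖ ^ 2) {p | -Real.log ρ < p.2} := cA.norm.pow 2
  have cn1 : ContinuousOn (fun p => ‖hp (Dz a) p‖ ^ 2) {p | -Real.log ρ < p.2} := cA1.norm.pow 2
  have ccA : ContinuousOn (fun p => starRingEnd ℂ (hp a p)) {p | -Real.log ρ < p.2} :=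
    Complex.continuous_conj.comp_continuousOn cA
  have ccA1 : ContinuousOn (fun p => starRingEnd ℂ (hp (Dz a) p)) {p | -Real.log ρ < p.2} :=
    Complex.continuous_conj.comp_continuousOn cA1
  refine ⟨?_, ?_, ?_, ?_, ?_⟩
  · refine ⟨fun p => ((((ψ' (‖hp a p‖ ^ 2) * (‖hp a p‖ ^ 2) - ψ (‖hp a p‖ ^ 2)) /
            (‖hp a p‖ ^ 2) ^ 2) * (2 * (hp (Dz a) p * starRingEnd ℂ (hp a p)).re) : ℝ) : ℂ) *
          (hp (Dz a) p * starRingEnd ℂ (hp a p)) +
        ((ψ (‖hp a p‖ ^ 2) / ‖hp a p‖ ^ 2 : ℝ) : ℂ) *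
          (hp (Dz (Dz a)) p * starRingEnd ℂ (hp a p) +
            hp (Dz a) p * starRingEnd ℂ (hp (Dz a) p)),
      fun p => ((((ψ' (‖hp a p‖ ^ 2) * (‖hp a p‖ ^ 2) - ψ (‖hp a p‖ ^ 2)) /
            (‖hp a p‖ ^ 2) ^ 2) *
            (2 * ((Complex.I * hp (Dz a) p) * starRingEnd ℂ (hp a p)).re) : ℝ) : ℂ) *
          (hp (Dz a) p * starRingEnd ℂ (hp a p)) +
        ((ψ (‖hp a p‖ ^ 2) / ‖hp a p‖ ^ 2 : ℝ) : ℂ) *
          ((Complex.I * hp (Dz (Dz a)) p) * starRingEnd ℂ (hp a p) +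
            hp (Dz a) p * starRingEnd ℂ (Complex.I * hp (Dz a) p)), ?_, ?_⟩
    · rw [hT]
      refine ⟨?_, ?_, ?_, ?_, ?_, ?_⟩
      · intro p h
        exact SRC_aux1 hg (A0.dx p h) (A1.dx p h)
      · intro p h
        exact SRC_aux1 hg (A0.dy p h) (A1.dy p h)
      · exact (Complex.continuous_ofReal.comp_continuousOn (hgcont.comp_continuousOn cn)).mul
          (cA1.mul ccA)
      · refine ContinuousOn.add (ContinuousOn.mul ?_ (cA1.mul ccA)) (ContinuousOn.mul ?_ ?_)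
        · refine Complex.continuous_ofReal.comp_continuousOn
            ((hgc.comp_continuousOn cn).mul (continuousOn_const.mul
              (Complex.continuous_re.comp_continuousOn (cA1.mul ccA))))
        · exact Complex.continuous_ofReal.comp_continuousOn (hgcont.comp_continuousOn cn)
        · exact (cA2.mul ccA).add (cA1.mul ccA1)
      · refine ContinuousOn.add (ContinuousOn.mul ?_ (cA1.mul ccA)) (ContinuousOn.mul ?_ ?_)
        · refine Complex.continuous_ofReal.comp_continuousOn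
            ((hgc.comp_continuousOn cn).mul (continuousOn_const.mul
              (Complex.continuous_re.comp_continuousOn ((continuousOn_const.mul cA1).mul ccA))))
        · exact Complex.continuous_ofReal.comp_continuousOn (hgcont.comp_continuousOn cn)
        · exact ((continuousOn_const.mul cA2).mul ccA).add
            (cA1.mul (Complex.continuous_conj.comp_continuousOn (continuousOn_const.mul cA1)))
      · intro p _
        simp only [hp_per]
    · intro p _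
      beta_reduce
      set q : ℝ := ‖hp a p‖ ^ 2 with hq
      set w : ℂ := hp (Dz a) p * starRingEnd ℂ (hp a p) with hw
      have e1 : (Complex.I * hp (Dz a) p) * starRingEnd ℂ (hp a p) = Complex.I * w := by
        rw [hw]; ring
      have e2 : hp (Dz a) p * starRingEnd ℂ (hp (Dz a) p) = ((‖hp (Dz a) p‖ ^ 2 : ℝ) : ℂ) := by
        rw [Complex.mul_conj, Complex.normSq_eq_norm_sq]
      have e3 : hp (Dz a) p * starRingEnd ℂ (Complex.I * hp (Dz a) p) =
          -(Complex.I * ((‖hp (Dz a) p‖ ^ 2 : ℝ) : ℂ)) := by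
        rw [map_mul, Complex.conj_I, ← e2]; ring
      have e4 : (Complex.I * hp (Dz (Dz a)) p) * starRingEnd ℂ (hp a p) =
          Complex.I * (hp (Dz (Dz a)) p * starRingEnd ℂ (hp a p)) := by ring
      have e5 : w.re ^ 2 + w.im ^ 2 = ‖hp (Dz a) p‖ ^ 2 * q := by
        have : ‖w‖ ^ 2 = ‖hp (Dz a) p‖ ^ 2 * q := by
          rw [hw, norm_mul, RCLike.norm_conj, mul_pow]
        rw [← this, ← Complex.normSq_eq_norm_sq, Complex.normSq_apply]; ring
      rw [e1, e2, e3, e4]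
      set X : ℂ := hp (Dz (Dz a)) p * starRingEnd ℂ (hp a p) with hX
      set G : ℝ := ψ q / q with hG
      set G1 : ℝ := (ψ' q * q - ψ q) / q ^ 2 with hG1
      set N : ℝ := ‖hp (Dz a) p‖ ^ 2 with hN
      have key : G1 * q + G = ψ' q := by
        by_cases h0 : q = 0
        · have h1 : q < δ ^ 2 / 4 := by rw [h0]; positivity
          rw [hG1, hG, hlow q h1, hψ.low q h1.le]; simp
        · rw [hG1, hG]; field_simp; ring
      have r1 : (Complex.I * w).re = -w.im := by simp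
      rw [r1]
      simp only [Complex.add_re, Complex.add_im, Complex.mul_re, Complex.mul_im,
        Complex.ofReal_re, Complex.ofReal_im, Complex.I_re, Complex.I_im, Complex.neg_im]
      ring_nf
      have : 2 * ψ' q * N = 2 * (G1 * (N * q) + G * N) := by rw [← key]; ring
      rw [← e5] at this
      linarith [this]
  · refine ⟨fun p => 2 * (ψ'' (‖hp a p‖ ^ 2) * (2 * (hp (Dz a) p * starRingEnd ℂ (hp a p)).re)) *
          ‖hp (Dz a) p‖ ^ 2 +
        2 * ψ' (‖hp a p‖ ^ 2) * (2 * (hp (Dz (Dz a)) p * starRingEnd ℂ (hp (Dz a) p)).re),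
      fun p => 2 * (ψ'' (‖hp a p‖ ^ 2) *
          (2 * ((Complex.I * hp (Dz a) p) * starRingEnd ℂ (hp a p)).re)) *
          ‖hp (Dz a) p‖ ^ 2 +
        2 * ψ' (‖hp a p‖ ^ 2) *
          (2 * ((Complex.I * hp (Dz (Dz a)) p) * starRingEnd ℂ (hp (Dz a) p)).re), ?_⟩
    refine ⟨?_, ?_, ?_, ?_, ?_, ?_⟩
    · intro p h
      exact SRC_aux2 hψ.d2 (A0.dx p h) (A1.dx p h)
    · intro p h
      exact SRC_aux2 hψ.d2 (A0.dy p h) (A1.dy p h)
    · exact (continuousOn_const.mul (cψ'.comp_continuousOn cn)).mul cn1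
    · refine ContinuousOn.add (ContinuousOn.mul (continuousOn_const.mul ?_) cn1)
        (ContinuousOn.mul (continuousOn_const.mul (cψ'.comp_continuousOn cn)) ?_)
      · exact (hψ.c2.comp_continuousOn cn).mul (continuousOn_const.mul
          (Complex.continuous_re.comp_continuousOn (cA1.mul ccA)))
      · exact continuousOn_const.mul
          (Complex.continuous_re.comp_continuousOn (cA2.mul ccA1))
    · refine ContinuousOn.add (ContinuousOn.mul (continuousOn_const.mul ?_) cn1)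
        (ContinuousOn.mul (continuousOn_const.mul (cψ'.comp_continuousOn cn)) ?_)
      · exact (hψ.c2.comp_continuousOn cn).mul (continuousOn_const.mul
          (Complex.continuous_re.comp_continuousOn ((continuousOn_const.mul cA1).mul ccA)))
      · exact continuousOn_const.mul
          (Complex.continuous_re.comp_continuousOn ((continuousOn_const.mul cA2).mul ccA1))
    · intro p _
      simp only [hp_per]
  · obtain ⟨B, hB0, hB⟩ := hp_decay H.hρ H.ha
    refine ⟨B * (2 / δ), fun p hy => ?_⟩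
    by_cases hq : ‖hp a p‖ ^ 2 ≤ δ ^ 2 / 4
    · rw [hψ.low _ hq]
      simp only [Complex.ofReal_zero, zero_mul, zero_div, norm_zero]
      positivity
    · push Not at hq
      have h1 : δ / 2 < ‖hp a p‖ := by
        have : (δ / 2) ^ 2 < ‖hp a p‖ ^ 2 := by nlinarith
        exact lt_of_pow_lt_pow_left₀ 2 (norm_nonneg _) this
      have h2 := hψ.h0 (‖hp a p‖ ^ 2)
      have h3 := hB p hy
      rw [norm_div, norm_mul, Complex.norm_real, Real.norm_of_nonneg h2.1]
      rw [div_le_iff₀ (lt_trans (by positivity) h1)]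
      have h4 : ψ (‖hp a p‖ ^ 2) * ‖hp (Dz a) p‖ ≤ 1 * (B * Real.exp (-p.2)) :=
        mul_le_mul h2.2 h3 (norm_nonneg _) zero_le_one
      have h5 : B * Real.exp (-p.2) ≤ B * (2 / δ) * Real.exp (-p.2) * ‖hp a p‖ := by
        have h6 : 1 ≤ (2 / δ) * ‖hp a p‖ := by
          rw [div_mul_eq_mul_div, le_div_iff₀ hδ]; linarith
        have h7 : 0 ≤ B * Real.exp (-p.2) := mul_nonneg hB0 (Real.exp_pos _).le
        nlinarith [mul_le_mul_of_nonneg_left h6 h7]
      linarith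
  · intro p hp' hm
    have hE := E_mem_ball hρ0 hp'
    rcases H.hab (E p) hE with h | h
    · exfalso
      apply hm
      have h1 : δ ^ 2 < ‖hp a p‖ ^ 2 := by
        have h2 : 2 * δ ≤ ‖hp a p‖ := h
        nlinarith
      rw [hhigh _ h1]; ring
    · exact h
  · intro p hp'
    have h1 : 1 < 16 / δ := by
      rw [lt_div_iff₀ hδ]; linarith [H.hδ2]
    have hy : 0 < p.2 := lt_of_lt_of_le (Real.log_pos h1) hp'
    have hE := E_mem_ball_one hy
    have hsub : Metric.ball (0 : ℂ) 1 ⊆ Metric.ball 0 ρ := Metric.ball_subset_ball H.hρ.le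
    have h2 := near_zero a (H.ha.mono hsub) (fun w hw => H.ha1 w (hsub hw)) (E p) hE
    have h3 : ‖E p‖ ≤ δ / 16 := by
      rw [norm_E]
      calc Real.exp (-p.2) ≤ Real.exp (-Real.log (16 / δ)) := Real.exp_le_exp.2 (by linarith)
        _ = δ / 16 := by rw [Real.exp_neg, Real.exp_log (by positivity)]; field_simp
    have h4 : |‖hp a p‖ - ‖a 0‖| ≤ δ / 8 := by
      have := abs_norm_sub_norm_le (hp a p) (a 0)
      have h5 : ‖hp a p - a 0‖ ≤ 2 * ‖E p‖ := h2
      linarith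
    rw [hψ.av _ (norm_nonneg _) h4]; ring

end Pool.H14.SR

end S_SRC

noncomputable section S_POT

open MeasureTheory Set Filter Topology
namespace Pool.H14.SR

theorem pot_cy {σ : ℝ} {u : ℝ × ℝ → ℝ} (hu : ContinuousOn u {p | -σ < p.2}) (x : ℝ) :
    ContinuousOn (fun y : ℝ => u (x, y)) (Ioi (-σ)) :=
  hu.comp (by fun_prop) (fun y hy => hy)

theorem pot_cx {σ : ℝ} {u : ℝ × ℝ → ℝ} (hu : ContinuousOn u {p | -σ < p.2}) {y : ℝ}
    (hy : -σ < y) : Continuous (fun x : ℝ => u (x, y)) :=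
  hu.comp_continuous (by fun_prop) (fun x => hy)

theorem pot_sub {σ y1 y2 : ℝ} (h1 : -σ < y1) (h2 : -σ < y2) : uIcc y1 y2 ⊆ Ioi (-σ) := by
  intro s hs
  rw [mem_uIcc] at hs
  show -σ < s
  rcases hs with h | h
  · linarith [h.1]
  · linarith [h.1]

theorem pot_ii {σ : ℝ} {u : ℝ × ℝ → ℝ} (hu : ContinuousOn u {p | -σ < p.2}) (x : ℝ) {y1 y2 : ℝ}
    (h1 : -σ < y1) (h2 : -σ < y2) : IntervalIntegrable (fun s => u (x, s)) volume y1 y2 :=
  ((pot_cy hu x).mono (pot_sub h1 h2)).intervalIntegrable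

/-- derivative of the primitive in `y` -/
theorem pot_dy {σ : ℝ} (hσ : 0 < σ) {Q : ℝ × ℝ → ℝ} (hQ : ContinuousOn Q {p | -σ < p.2})
    (x y : ℝ) (hy : -σ < y) :
    HasDerivAt (fun y : ℝ => ∫ s in (0 : ℝ)..y, Q (x, s)) (Q (x, y)) y := by
  refine intervalIntegral.integral_hasDerivAt_right (pot_ii hQ x (by linarith) hy) ?_ ?_
  · exact (pot_cy hQ x).stronglyMeasurableAtFilter isOpen_Ioi y hy
  · exact (pot_cy hQ x).continuousAt (isOpen_Ioi.mem_nhds hy)

/-- derivative of the `y`-primitive in `x` -/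
theorem pot_dx {σ : ℝ} (hσ : 0 < σ) {Q Qx Qy : ℝ × ℝ → ℝ} (hQ : C1 σ Q Qx Qy)
    (x y : ℝ) (hy : -σ < y) :
    HasDerivAt (fun x : ℝ => ∫ s in (0 : ℝ)..y, Q (x, s)) (∫ s in (0 : ℝ)..y, Qx (x, s)) x := by
  have h0 : -σ < (0 : ℝ) := by linarith
  have hK : IsCompact (Icc (x - 1) (x + 1) ×ˢ uIcc 0 y) := isCompact_Icc.prod isCompact_uIcc
  obtain ⟨B, hB⟩ := hK.exists_bound_of_continuousOn (f := Qx)
    (hQ.cx.mono (fun p hp => pot_sub h0 hy hp.2))
  refine (intervalIntegral.hasDerivAt_integral_of_dominated_loc_of_deriv_le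
    (F := fun x s => Q (x, s)) (F' := fun x s => Qx (x, s)) (bound := fun _ => B)
    (s := Icc (x - 1) (x + 1)) (Icc_mem_nhds (by linarith) (by linarith)) ?_ ?_ ?_ ?_ ?_ ?_).2
  · refine Eventually.of_forall fun z => ?_
    exact (intervalIntegrable_iff.1 (pot_ii hQ.c z h0 hy)).aestronglyMeasurable
  · exact pot_ii hQ.c x h0 hy
  · exact (intervalIntegrable_iff.1 (pot_ii hQ.cx x h0 hy)).aestronglyMeasurable
  · refine Eventually.of_forall fun s hs z hz => ?_
    exact hB (z, s) ⟨hz, uIoc_subset_uIcc hs⟩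
  · exact intervalIntegrable_const
  · refine Eventually.of_forall fun s hs z hz => ?_
    exact hQ.dx (z, s) (pot_sub h0 hy (uIoc_subset_uIcc hs))

/-- **(POT)** Poincaré lemma on the periodic half plane: `P dx + Q dy` closed, `C¹`, periodic, decaying.
There is a periodic bounded `α` with `αx = P`, `αy = Q`.
(`α(x,y) = ∫_0^x P(t,0)dt + ∫_0^y Q(x,s)ds`; `∂xα = P(x,0) + ∫_0^y Qx = P(x,0) + ∫_0^y Py = P(x,y)`;
`α(x+2π,y) - α(x,y) = ∫_x^{x+2π} P(t,y)dt` does not depend on `(x,y)` and tends to `0` as `y → ∞`;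
bounded on `y ≥ 0` since `|Q| ≤ B e^{-y}`.) -/
theorem POT (σ : ℝ) (hσ : 0 < σ) (P Px Py Q Qx Qy : ℝ × ℝ → ℝ) (hP : C1 σ P Px Py)
    (hQ : C1 σ Q Qx Qy) (hcl : ∀ p : ℝ × ℝ, -σ < p.2 → Qx p = Py p) (B : ℝ)
    (hB : ∀ p : ℝ × ℝ, 0 ≤ p.2 → |P p| ≤ B * Real.exp (-p.2) ∧ |Q p| ≤ B * Real.exp (-p.2)) :
    ∃ α : ℝ × ℝ → ℝ, C1 σ α P Q ∧ ∃ B' : ℝ, ∀ p : ℝ × ℝ, 0 ≤ p.2 → |α p| ≤ B' := by
  have h0 : -σ < (0 : ℝ) := by linarith
  set A : ℝ → ℝ := fun x => ∫ t in (0 : ℝ)..x, P (t, 0) with hA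
  set α : ℝ × ℝ → ℝ := fun p => A p.1 + ∫ s in (0 : ℝ)..p.2, Q (p.1, s) with hα
  have hPc0 : Continuous fun t : ℝ => P (t, 0) := pot_cx hP.c h0
  have hAd : ∀ x, HasDerivAt A (P (x, 0)) x := fun x =>
    intervalIntegral.integral_hasDerivAt_right (hPc0.intervalIntegrable _ _)
      (hPc0.stronglyMeasurableAtFilter _ _) hPc0.continuousAt
  have hAc : Continuous A := continuous_iff_continuousAt.2 fun x => (hAd x).continuousAt
  have dx : ∀ p : ℝ × ℝ, -σ < p.2 → HasDerivAt (fun x : ℝ => α (x, p.2)) (P p) p.1 := by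
    intro p hp
    have h1 := (hAd p.1).add (pot_dx hσ hQ p.1 p.2 hp)
    refine h1.congr_deriv ?_
    have h2 : ∫ s in (0 : ℝ)..p.2, Qx (p.1, s) = P (p.1, p.2) - P (p.1, 0) := by
      have h3 : ∫ s in (0 : ℝ)..p.2, Qx (p.1, s) = ∫ s in (0 : ℝ)..p.2, Py (p.1, s) := by
        refine intervalIntegral.integral_congr fun s hs => ?_
        exact hcl (p.1, s) (pot_sub h0 hp hs)
      rw [h3]
      refine intervalIntegral.integral_eq_sub_of_hasDerivAt (f := fun s => P (p.1, s))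
        (fun s hs => ?_) (pot_ii hP.cy p.1 h0 hp)
      exact hP.dy (p.1, s) (pot_sub h0 hp hs)
    rw [h2]
    ring
  have dy : ∀ p : ℝ × ℝ, -σ < p.2 → HasDerivAt (fun y : ℝ => α (p.1, y)) (Q p) p.2 :=
    fun p hp => HasDerivAt.const_add (A p.1) (pot_dy hσ hQ.c p.1 p.2 hp)
  have c : ContinuousOn α {p | -σ < p.2} := by
    intro p0 hp0
    have hp0' : -σ < p0.2 := hp0
    apply ContinuousAt.continuousWithinAt
    obtain ⟨m, hm1, hm2⟩ := exists_between (lt_min h0 hp0')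
    have hg : Continuous fun p : ℝ × ℝ => A p.1 + ∫ s in (0 : ℝ)..p.2, Q (p.1, max s m) := by
      refine (hAc.comp continuous_fst).add ?_
      refine intervalIntegral.continuous_parametric_intervalIntegral_of_continuous
        (f := fun (p : ℝ × ℝ) (s : ℝ) => Q (p.1, max s m)) ?_ continuous_snd
      refine hQ.c.comp_continuous (f := fun q : (ℝ × ℝ) × ℝ => ((q.1.1, max q.2 m) : ℝ × ℝ))
        (by fun_prop) (fun q => ?_)
      exact lt_of_lt_of_le hm1 (le_max_right _ _)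
    refine hg.continuousAt.congr ?_
    have ho : {p : ℝ × ℝ | m < p.2} ∈ 𝓝 p0 :=
      (isOpen_lt continuous_const continuous_snd).mem_nhds (lt_of_lt_of_le hm2 (min_le_right _ _))
    filter_upwards [ho] with p hp
    have hp' : m < p.2 := hp
    show A p.1 + ∫ s in (0 : ℝ)..p.2, Q (p.1, max s m) = A p.1 + ∫ s in (0 : ℝ)..p.2, Q (p.1, s)
    congr 1
    refine intervalIntegral.integral_congr fun s hs => ?_
    have : m ≤ s := by
      have hm0 : m < 0 := lt_of_lt_of_le hm2 (min_le_left _ _)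
      rw [mem_uIcc] at hs
      rcases hs with h | h
      · linarith [h.1]
      · linarith [h.1]
    show Q (p.1, max s m) = Q (p.1, s)
    rw [max_eq_left this]
  -- `A` is periodic
  have hD : ∀ x y : ℝ, -σ < y → A (x + 2 * Real.pi) - A x = ∫ t in x..(x + 2 * Real.pi), P (t, y) := by
    intro x y hy
    have h1 : ∫ t in x..(x + 2 * Real.pi), P (t, y) = α (x + 2 * Real.pi, y) - α (x, y) := by
      refine intervalIntegral.integral_eq_sub_of_hasDerivAt (f := fun t => α (t, y))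
        (fun t _ => ?_) ((pot_cx hP.c hy).intervalIntegrable _ _)
      exact dx (t, y) hy
    rw [h1]
    have h2 : ∫ s in (0 : ℝ)..y, Q (x + 2 * Real.pi, s) = ∫ s in (0 : ℝ)..y, Q (x, s) := by
      refine intervalIntegral.integral_congr fun s hs => ?_
      exact hQ.per (x, s) (pot_sub h0 hy hs)
    show _ = (A (x + 2 * Real.pi) + ∫ s in (0 : ℝ)..y, Q (x + 2 * Real.pi, s)) -
      (A x + ∫ s in (0 : ℝ)..y, Q (x, s))
    rw [h2]
    ring
  have hB0 : 0 ≤ B := by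
    have := (hB (0, 0) le_rfl).1
    simp only [neg_zero, Real.exp_zero, mul_one] at this
    exact (abs_nonneg _).trans this
  have hper : ∀ x : ℝ, A (x + 2 * Real.pi) = A x := by
    intro x
    have hb : ∀ y : ℝ, 0 ≤ y → |A (x + 2 * Real.pi) - A x| ≤ B * Real.exp (-y) * (2 * Real.pi) := by
      intro y hy
      rw [hD x y (by linarith)]
      have := intervalIntegral.norm_integral_le_of_norm_le_const (a := x) (b := x + 2 * Real.pi)
        (f := fun t => P (t, y)) (C := B * Real.exp (-y)) (fun t _ => (hB (t, y) hy).1)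
      rw [Real.norm_eq_abs] at this
      refine this.trans (le_of_eq ?_)
      congr 1
      rw [add_sub_cancel_left, abs_of_pos (by positivity)]
    have hlim : Tendsto (fun y : ℝ => B * Real.exp (-y) * (2 * Real.pi)) atTop
        (𝓝 (B * 0 * (2 * Real.pi))) :=
      ((Real.tendsto_exp_neg_atTop_nhds_zero).const_mul B).mul_const _
    have hle := ge_of_tendsto hlim ((eventually_ge_atTop 0).mono fun y hy => hb y hy)
    rw [mul_zero, zero_mul] at hle
    have := abs_eq_zero.1 (le_antisymm hle (abs_nonneg _))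
    linarith
  refine ⟨α, ⟨dx, dy, c, hP.c, hQ.c, ?_⟩, B * (2 * Real.pi) + B, ?_⟩
  · intro p hp
    show A (p.1 + 2 * Real.pi) + ∫ s in (0 : ℝ)..p.2, Q (p.1 + 2 * Real.pi, s)
      = A p.1 + ∫ s in (0 : ℝ)..p.2, Q (p.1, s)
    rw [hper]
    congr 1
    refine intervalIntegral.integral_congr fun s hs => ?_
    exact hQ.per (p.1, s) (pot_sub h0 hp hs)
  · intro p hp
    have hA1 : |A p.1| ≤ B * (2 * Real.pi) := by
      obtain ⟨x, hx, hx2⟩ := Function.Periodic.exists_mem_Ico₀ (f := A) (c := 2 * Real.pi) hper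
        (by positivity) p.1
      rw [hx2]
      have := intervalIntegral.norm_integral_le_of_norm_le_const (a := 0) (b := x)
        (f := fun t => P (t, 0)) (C := B) (fun t _ => by
          have := (hB (t, 0) le_rfl).1
          simpa using this)
      rw [Real.norm_eq_abs] at this
      refine this.trans ?_
      rw [sub_zero, abs_of_nonneg hx.1]
      exact mul_le_mul_of_nonneg_left hx.2.le hB0
    have hQ1 : |∫ s in (0 : ℝ)..p.2, Q (p.1, s)| ≤ B := by
      have e1 : |∫ s in (0 : ℝ)..p.2, Q (p.1, s)| ≤ ∫ s in (0 : ℝ)..p.2, B * Real.exp (-s) := by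
        rw [← Real.norm_eq_abs]
        refine intervalIntegral.norm_integral_le_of_norm_le hp ?_ ?_
        · refine Eventually.of_forall fun s hs => ?_
          exact (hB (p.1, s) hs.1.le).2
        · exact Continuous.intervalIntegrable (by fun_prop) _ _
      refine e1.trans ?_
      have e2 : ∫ s in (0 : ℝ)..p.2, B * Real.exp (-s) = B * (1 - Real.exp (-p.2)) := by
        have : ∫ s in (0 : ℝ)..p.2, B * Real.exp (-s)
            = (-(B * Real.exp (-p.2))) - (-(B * Real.exp (-0))) := by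
          refine intervalIntegral.integral_eq_sub_of_hasDerivAt
            (f := fun s => -(B * Real.exp (-s))) (fun s _ => ?_)
            (Continuous.intervalIntegrable (by fun_prop) _ _)
          have h1 : HasDerivAt (fun s : ℝ => Real.exp (-s)) (Real.exp (-s) * (-1)) s :=
            (hasDerivAt_neg s).exp
          have h2 := (h1.const_mul B).neg
          refine h2.congr_deriv ?_
          ring
        rw [this, neg_zero, Real.exp_zero]
        ring
      rw [e2]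
      have := Real.exp_pos (-p.2)
      nlinarith
    calc |α p| ≤ |A p.1| + |∫ s in (0 : ℝ)..p.2, Q (p.1, s)| := abs_add_le _ _
      _ ≤ B * (2 * Real.pi) + B := add_le_add hA1 hQ1

end Pool.H14.SR

end S_POT

noncomputable section S_PHI

open MeasureTheory Set Filter Topology
namespace Pool.H14.SR

theorem phi_bdd {σ : ℝ} (hσ : 0 < σ) {X : ℝ × ℝ → ℝ} (hc : ContinuousOn X {p | -σ < p.2})
    (hper : ∀ p : ℝ × ℝ, -σ < p.2 → X (p.1 + 2 * Real.pi, p.2) = X p) (L : ℝ)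
    (hL : ∀ p : ℝ × ℝ, L ≤ p.2 → X p = 0) :
    ∃ B : ℝ, 0 ≤ B ∧ ∀ p : ℝ × ℝ, 0 ≤ p.2 → |X p| ≤ B * Real.exp (-p.2) := by
  have hcomp : IsCompact (Set.Icc (0 : ℝ) (2 * Real.pi) ×ˢ Set.Icc (0 : ℝ) L) :=
    isCompact_Icc.prod isCompact_Icc
  have hsub : (Set.Icc (0 : ℝ) (2 * Real.pi) ×ˢ Set.Icc (0 : ℝ) L) ⊆ {p : ℝ × ℝ | -σ < p.2} := by
    rintro ⟨x, y⟩ ⟨_, hy⟩
    have : (0 : ℝ) ≤ y := hy.1
    show -σ < y
    linarith
  obtain ⟨M, hM⟩ := hcomp.exists_bound_of_continuousOn (hc.mono hsub)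
  have hperfix : ∀ y : ℝ, -σ < y → Function.Periodic (fun x : ℝ => X (x, y)) (2 * Real.pi) :=
    fun y hy x => hper (x, y) hy
  have hall : ∀ p : ℝ × ℝ, 0 ≤ p.2 → p.2 ≤ L → |X p| ≤ M := by
    rintro ⟨x, y⟩ h0 h1
    have h0' : (0 : ℝ) ≤ y := h0
    obtain ⟨x', hx', hxx⟩ := (hperfix y (by linarith)).exists_mem_Ico₀ Real.two_pi_pos x
    have h2 := hM (x', y) ⟨⟨hx'.1, hx'.2.le⟩, ⟨h0, h1⟩⟩
    have h3 : X (x, y) = X (x', y) := hxx
    rw [h3]
    exact h2
  refine ⟨|M| * Real.exp |L|, by positivity, fun p hp => ?_⟩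
  by_cases hpL : p.2 ≤ L
  · calc |X p| ≤ M := hall p hp hpL
      _ ≤ |M| := le_abs_self M
      _ = |M| * 1 := (mul_one _).symm
      _ ≤ |M| * (Real.exp |L| * Real.exp (-p.2)) := by
          apply mul_le_mul_of_nonneg_left _ (abs_nonneg M)
          rw [← Real.exp_add]
          apply Real.one_le_exp
          have := le_abs_self L
          linarith
      _ = |M| * Real.exp |L| * Real.exp (-p.2) := by ring
  · rw [hL p (by linarith), abs_zero]
    positivity

/-- **(PHI)** The function `φ = Θ(|a|²) + iα`, `dα = (Im T - X₂)dx + (Re T - X₁)dy`.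

Proof: `POT` with `P = Im T - X₂`, `Q = Re T - X₁`; `Qx = Re Tx - X₁x`, `Py = Im Ty - X₂y`, equal by `SRC` and the
equation for `X`; decay: `T` decays, `X = 0` for `y ≥ log(16/δ)` and `X` is bounded on the compact rest (periodic).
`∂x Θ(|a|²) = Re T`, `∂y Θ(|a|²) = -Im T` (`Θ'(q) = ψ(q)/(2q)`, `qx = 2 Re(conj a a')`, `qy = -2 Im(conj a a')`). -/
theorem PHI {δ ρ : ℝ} {a b F : ℂ → ℂ} (H : Dat δ ρ a b F) (C0 : ℝ) (ψ ψ' ψ'' Θ : ℝ → ℝ)
    (hψ : Step C0 δ ‖a 0‖ ψ ψ' ψ'') (hΘ : ∀ q, HasDerivAt Θ (ψ q / (2 * q)) q)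
    (σ : ℝ) (hσ : 0 < σ) (hσρ : σ < Real.log ρ) (X1 X1x X1y X2 X2x X2y : ℝ × ℝ → ℝ)
    (hX1 : C1 σ X1 X1x X1y) (hX2 : C1 σ X2 X2x X2y)
    (hX : ∀ p : ℝ × ℝ, -σ < p.2 → X1x p - X2y p = 2 * ψ' (‖hp a p‖ ^ 2) * ‖hp (Dz a) p‖ ^ 2)
    (hXY : ∀ p : ℝ × ℝ, Real.log (16 / δ) ≤ p.2 → X1 p = 0 ∧ X2 p = 0) :
    ∃ φ : ℝ × ℝ → ℂ, C1 σ φ
        (fun p => (ψ (‖hp a p‖ ^ 2) : ℂ) * hp (Dz a) p / hp a p - Complex.I * X2 p)
        (fun p => Complex.I * ((ψ (‖hp a p‖ ^ 2) : ℂ) * hp (Dz a) p / hp a p)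
          - Complex.I * X1 p) ∧
      (∀ p : ℝ × ℝ, -σ < p.2 → (φ p).re = Θ (‖hp a p‖ ^ 2)) ∧
      ∃ B : ℝ, ∀ p : ℝ × ℝ, 0 ≤ p.2 → ‖φ p‖ ≤ B := by
  have hρ0 : 0 < ρ := by linarith [H.hρ]
  obtain ⟨⟨Tx, Ty, hT, hTe⟩, -, ⟨BT, hBT⟩, -, -⟩ := SRC H C0 ψ ψ' ψ'' hψ
  set T : ℝ × ℝ → ℂ := fun p => (ψ (‖hp a p‖ ^ 2) : ℂ) * hp (Dz a) p / hp a p with hTdef
  have hsub : {p : ℝ × ℝ | -σ < p.2} ⊆ {p : ℝ × ℝ | -Real.log ρ < p.2} := by
    intro p hp'
    have : -σ < p.2 := hp'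
    show -Real.log ρ < p.2
    linarith
  have hlt : ∀ p : ℝ × ℝ, -σ < p.2 → -Real.log ρ < p.2 := fun p h => by linarith
  have hcT : ContinuousOn T {p | -σ < p.2} := hT.c.mono hsub
  have hcTx : ContinuousOn Tx {p | -σ < p.2} := hT.cx.mono hsub
  have hcTy : ContinuousOn Ty {p | -σ < p.2} := hT.cy.mono hsub
  have him : ∀ {f : ℝ → ℂ} {f' : ℂ} {x : ℝ}, HasDerivAt f f' x →
      HasDerivAt (fun t => (f t).im) f'.im x := fun h =>
    (Complex.imCLM.hasFDerivAt.comp_hasDerivAt _ h)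
  have hre : ∀ {f : ℝ → ℂ} {f' : ℂ} {x : ℝ}, HasDerivAt f f' x →
      HasDerivAt (fun t => (f t).re) f'.re x := fun h =>
    (Complex.reCLM.hasFDerivAt.comp_hasDerivAt _ h)
  have hP : C1 σ (fun p => (T p).im - X2 p) (fun p => (Tx p).im - X2x p)
      (fun p => (Ty p).im - X2y p) :=
    { dx := fun p h => (him (hT.dx p (hlt p h))).sub (hX2.dx p h)
      dy := fun p h => (him (hT.dy p (hlt p h))).sub (hX2.dy p h)
      c := (Complex.continuous_im.comp_continuousOn hcT).sub hX2.c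
      cx := (Complex.continuous_im.comp_continuousOn hcTx).sub hX2.cx
      cy := (Complex.continuous_im.comp_continuousOn hcTy).sub hX2.cy
      per := fun p h => by
        show (T (p.1 + 2 * Real.pi, p.2)).im - X2 (p.1 + 2 * Real.pi, p.2) = _
        rw [hT.per p (hlt p h), hX2.per p h] }
  have hQ : C1 σ (fun p => (T p).re - X1 p) (fun p => (Tx p).re - X1x p)
      (fun p => (Ty p).re - X1y p) :=
    { dx := fun p h => (hre (hT.dx p (hlt p h))).sub (hX1.dx p h)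
      dy := fun p h => (hre (hT.dy p (hlt p h))).sub (hX1.dy p h)
      c := (Complex.continuous_re.comp_continuousOn hcT).sub hX1.c
      cx := (Complex.continuous_re.comp_continuousOn hcTx).sub hX1.cx
      cy := (Complex.continuous_re.comp_continuousOn hcTy).sub hX1.cy
      per := fun p h => by
        show (T (p.1 + 2 * Real.pi, p.2)).re - X1 (p.1 + 2 * Real.pi, p.2) = _
        rw [hT.per p (hlt p h), hX1.per p h] }
  obtain ⟨B1, hB10, hB1⟩ := phi_bdd hσ hX1.c hX1.per _ (fun p h => (hXY p h).1)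
  obtain ⟨B2, hB20, hB2⟩ := phi_bdd hσ hX2.c hX2.per _ (fun p h => (hXY p h).2)
  obtain ⟨α, hα, B', hB'⟩ := POT σ hσ _ _ _ _ _ _ hP hQ
    (fun p h => by
      have h1 := hTe p (hlt p h)
      have h2 := hX p h
      show (Tx p).re - X1x p = (Ty p).im - X2y p
      linarith) (BT + B1 + B2)
    (fun p h => by
      have h0 := hBT p h
      have h1 := hB1 p h
      have h2 := hB2 p h
      have e := (Real.exp_pos (-p.2)).le
      constructor
      · calc |(T p).im - X2 p| ≤ |(T p).im| + |X2 p| := abs_sub _ _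
          _ ≤ BT * Real.exp (-p.2) + B2 * Real.exp (-p.2) :=
            add_le_add ((Complex.abs_im_le_norm _).trans h0) h2
          _ ≤ (BT + B1 + B2) * Real.exp (-p.2) := by nlinarith [mul_nonneg hB10 e]
      · calc |(T p).re - X1 p| ≤ |(T p).re| + |X1 p| := abs_sub _ _
          _ ≤ BT * Real.exp (-p.2) + B1 * Real.exp (-p.2) :=
            add_le_add ((Complex.abs_re_le_norm _).trans h0) h1
          _ ≤ (BT + B1 + B2) * Real.exp (-p.2) := by nlinarith [mul_nonneg hB20 e])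
  have hΘc : Continuous Θ := continuous_iff_continuousAt.mpr fun q => (hΘ q).continuousAt
  have hca : ContinuousOn (hp a) {p | -σ < p.2} := (hp_cont hρ0 H.ha.continuousOn).mono hsub
  -- derivative of `q`
  have key : ∀ (f : ℝ → ℂ) (f' : ℂ) (x : ℝ), HasDerivAt f f' x →
      HasDerivAt (fun t => Θ (‖f t‖ ^ 2)) ((ψ (‖f x‖ ^ 2) : ℂ) * f' / f x).re x := by
    intro f f' x hf
    have h1 : HasDerivAt (fun t => ‖f t‖ ^ 2) (2 * inner ℝ (f x) f') x := hf.norm_sq
    have h2 := (hΘ (‖f x‖ ^ 2)).comp x h1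
    refine h2.congr_deriv ?_
    rw [Complex.inner]
    by_cases h0 : f x = 0
    · simp [h0]
    · have hn : (Complex.normSq (f x)) ≠ 0 := by
        rwa [Ne, Complex.normSq_eq_zero]
      have h3 : ((ψ (‖f x‖ ^ 2) : ℂ) * f' / f x) =
          ((ψ (‖f x‖ ^ 2) / Complex.normSq (f x) : ℝ) : ℂ) * (starRingEnd ℂ (f x) * f') := by
        rw [div_eq_mul_inv, Complex.inv_def]
        push_cast
        field_simp
      rw [h3, Complex.re_ofReal_mul, Complex.normSq_eq_norm_sq]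
      have hn2 : ‖f x‖ ≠ 0 := by simpa using h0
      field_simp
  refine ⟨fun p => (Θ (‖hp a p‖ ^ 2) : ℂ) + Complex.I * (α p : ℂ), ?_, ?_, ?_⟩
  · refine ⟨?_, ?_, ?_, ?_, ?_, ?_⟩
    · intro p h
      have h1 := (key _ _ _ (hp_dx hρ0 H.ha p (hlt p h))).ofReal_comp
      have h2 := ((hα.dx p h).ofReal_comp).const_mul Complex.I
      refine (h1.add h2).congr_deriv ?_
      have h4 : (T p) = ((T p).re : ℂ) + ((T p).im : ℂ) * Complex.I := (Complex.re_add_im _).symm
      show (((T p).re : ℝ) : ℂ) + Complex.I * (((T p).im - X2 p : ℝ) : ℂ) = T p - Complex.I * X2 p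
      conv_rhs => rw [h4]
      push_cast
      ring
    · intro p h
      have h1 := (key _ _ _ (hp_dy hρ0 H.ha p (hlt p h))).ofReal_comp
      have h2 := ((hα.dy p h).ofReal_comp).const_mul Complex.I
      refine (h1.add h2).congr_deriv ?_
      have h3 : ((ψ (‖hp a p‖ ^ 2) : ℂ) * (Complex.I * hp (Dz a) p) / hp a p) =
          Complex.I * T p := by
        rw [hTdef]
        ring
      have h4 : (T p) = ((T p).re : ℂ) + ((T p).im : ℂ) * Complex.I := (Complex.re_add_im _).symm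
      show ((((ψ (‖hp a p‖ ^ 2) : ℂ) * (Complex.I * hp (Dz a) p) / hp a p).re : ℝ) : ℂ) +
        Complex.I * (((T p).re - X1 p : ℝ) : ℂ) = Complex.I * T p - Complex.I * X1 p
      rw [h3]
      have h5 : (Complex.I * T p).re = -(T p).im := by simp
      rw [h5]
      conv_rhs => rw [h4]
      push_cast
      linear_combination -((T p).im : ℂ) * Complex.I_sq
    · apply ContinuousOn.add
      · exact Complex.continuous_ofReal.comp_continuousOn
          (hΘc.comp_continuousOn ((hca.norm).pow 2))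
      · exact continuousOn_const.mul (Complex.continuous_ofReal.comp_continuousOn hα.c)
    · exact hcT.sub (continuousOn_const.mul (Complex.continuous_ofReal.comp_continuousOn hX2.c))
    · exact (continuousOn_const.mul hcT).sub
        (continuousOn_const.mul (Complex.continuous_ofReal.comp_continuousOn hX1.c))
    · intro p h
      show (Θ (‖hp a (p.1 + 2 * Real.pi, p.2)‖ ^ 2) : ℂ) +
        Complex.I * (α (p.1 + 2 * Real.pi, p.2) : ℂ) = _
      rw [hp_per, hα.per p h]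
  · intro p _
    simp
  · obtain ⟨M, hM⟩ := (isCompact_Icc (a := (0 : ℝ)) (b := 1)).exists_bound_of_continuousOn
      hΘc.continuousOn
    refine ⟨M + B', fun p h => ?_⟩
    have hσp : -σ < p.2 := by linarith
    have h1 : ‖hp a p‖ ≤ 1 := H.ha1 _ (E_mem_ball hρ0 (hlt p hσp))
    have h2 : ‖Θ (‖hp a p‖ ^ 2)‖ ≤ M := hM _ ⟨by positivity, by
      have := norm_nonneg (hp a p)
      nlinarith⟩
    calc ‖(Θ (‖hp a p‖ ^ 2) : ℂ) + Complex.I * (α p : ℂ)‖
        ≤ ‖(Θ (‖hp a p‖ ^ 2) : ℂ)‖ + ‖Complex.I * (α p : ℂ)‖ := norm_add_le _ _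
      _ ≤ M + B' := by
          apply add_le_add
          · rw [Complex.norm_real]; exact h2
          · rw [norm_mul, Complex.norm_I, one_mul, Complex.norm_real]
            exact hB' p h

end Pool.H14.SR

end S_PHI

noncomputable section S_PA

open MeasureTheory Set Filter Topology
namespace Pool.H14.SR

/-- the smooth step at height `Y/2^k` -/
def pa_P (Y : ℝ) (k : ℕ) (y : ℝ) : ℝ := Real.smoothTransition (2 * (y * 2 ^ k / Y) - 1)

theorem pa_P_contDiff (Y : ℝ) (k : ℕ) : ContDiff ℝ 2 (pa_P Y k) := by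
  unfold pa_P
  exact (Real.smoothTransition.contDiff (n := 2)).comp (by fun_prop)

theorem pa_P_zero (Y : ℝ) (hY : 0 < Y) (k : ℕ) (y : ℝ) (h : y ≤ Y / 2 ^ k / 2) : pa_P Y k y = 0 := by
  unfold pa_P
  apply Real.smoothTransition.zero_of_nonpos
  rw [div_div, le_div_iff₀ (by positivity)] at h
  have : y * 2 ^ k / Y ≤ 1 / 2 := by
    rw [div_le_iff₀ hY]
    linarith
  linarith

theorem pa_P_one (Y : ℝ) (hY : 0 < Y) (k : ℕ) (y : ℝ) (h : Y / 2 ^ k ≤ y) : pa_P Y k y = 1 := by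
  unfold pa_P
  apply Real.smoothTransition.one_of_one_le
  rw [div_le_iff₀ (by positivity)] at h
  have : 1 ≤ y * 2 ^ k / Y := by
    rw [le_div_iff₀ hY]
    linarith
  linarith

theorem pa_P_mono (Y : ℝ) (hY : 0 < Y) (k : ℕ) (y : ℝ) : pa_P Y k y ≤ pa_P Y (k + 1) y := by
  rcases le_total y 0 with hy | hy
  · rw [pa_P_zero Y hY k y (hy.trans (by positivity)),
      pa_P_zero Y hY (k + 1) y (hy.trans (by positivity))]
  · unfold pa_P
    apply Real.smoothTransition.monotone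
    have : y * 2 ^ k / Y ≤ y * 2 ^ (k + 1) / Y := by
      apply div_le_div_of_nonneg_right _ hY.le
      apply mul_le_mul_of_nonneg_left _ hy
      exact pow_le_pow_right₀ (by norm_num) (by omega)
    linarith

/-- `0, P_0, …, P_{K-1}, 1, 1, …` -/
def pa_Q (Y : ℝ) (K : ℕ) : ℕ → ℝ → ℝ
  | 0 => fun _ => 0
  | (k + 1) => fun y => if k < K then pa_P Y k y else 1

theorem pa_Q_contDiff (Y : ℝ) (K k : ℕ) : ContDiff ℝ 2 (pa_Q Y K k) := by
  cases k with
  | zero => exact contDiff_const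
  | succ k =>
    by_cases h : k < K
    · have : pa_Q Y K (k + 1) = pa_P Y k := by
        funext y; simp [pa_Q, h]
      rw [this]; exact pa_P_contDiff Y k
    · have : pa_Q Y K (k + 1) = fun _ => 1 := by
        funext y; simp [pa_Q, h]
      rw [this]; exact contDiff_const

theorem pa_Q_mem (Y : ℝ) (K k : ℕ) (y : ℝ) : 0 ≤ pa_Q Y K k y ∧ pa_Q Y K k y ≤ 1 := by
  cases k with
  | zero => simp [pa_Q]
  | succ k =>
    by_cases h : k < K
    · simp only [pa_Q, if_pos h]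
      exact ⟨Real.smoothTransition.nonneg _, Real.smoothTransition.le_one _⟩
    · simp [pa_Q, h]

theorem pa_Q_mono (Y : ℝ) (hY : 0 < Y) (K k : ℕ) (y : ℝ) : pa_Q Y K k y ≤ pa_Q Y K (k + 1) y := by
  cases k with
  | zero =>
    simpa [pa_Q] using (pa_Q_mem Y K 1 y).1
  | succ k =>
    by_cases h : k + 1 < K
    · simp only [pa_Q, if_pos h, if_pos (show k < K by omega)]
      exact pa_P_mono Y hY k y
    · have : pa_Q Y K (k + 1 + 1) y = 1 := by simp only [pa_Q, if_neg h]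
      rw [this]
      exact (pa_Q_mem Y K (k + 1) y).2

/-- **(PA)** Partition in height.  `h_k = Y/2^k`.  (`P_k(y) = step(y/h_k)` with a smooth nondecreasing step,
`0` for `u ≤ 1/2`, `1` for `u ≥ 1`; `p_0 = P_0`, `p_k = P_k - P_{k-1}` for `1 ≤ k < K`, `p_K = 1 - P_{K-1}`.) -/
theorem PA (Y : ℝ) (hY : 0 < Y) (K : ℕ) (hK : 1 ≤ K) :
    ∃ p : ℕ → ℝ → ℝ, (∀ k, ContDiff ℝ 2 (p k)) ∧ (∀ k y, 0 ≤ p k y ∧ p k y ≤ 1) ∧
      (∀ y, ∑ k ∈ Finset.range (K + 1), p k y = 1) ∧
      (∀ k < K, ∀ y, p k y ≠ 0 → Y / 2 ^ k / 2 ≤ y) ∧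
      (∀ k < K, 1 ≤ k → ∀ y, p k y ≠ 0 → y ≤ 2 * (Y / 2 ^ k)) ∧
      (∀ y, p K y ≠ 0 → y ≤ 2 * (Y / 2 ^ K)) := by
  refine ⟨fun k y => pa_Q Y K (k + 1) y - pa_Q Y K k y, ?_, ?_, ?_, ?_, ?_, ?_⟩
  · intro k
    exact (pa_Q_contDiff Y K (k + 1)).sub (pa_Q_contDiff Y K k)
  · intro k y
    have h1 := pa_Q_mem Y K (k + 1) y
    have h2 := pa_Q_mem Y K k y
    have h3 := pa_Q_mono Y hY K k y
    exact ⟨by linarith, by linarith [h1.2, h2.1]⟩
  · intro y
    rw [Finset.sum_range_sub (fun k => pa_Q Y K k y)]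
    simp [pa_Q]
  · intro k hk y hne
    by_contra hlt
    push Not at hlt
    apply hne
    have h1 : pa_Q Y K (k + 1) y = 0 := by
      simp only [pa_Q, if_pos hk]
      exact pa_P_zero Y hY k y hlt.le
    have h2 := pa_Q_mono Y hY K k y
    have h3 := (pa_Q_mem Y K k y).1
    show pa_Q Y K (k + 1) y - pa_Q Y K k y = 0
    linarith
  · intro k hk hk1 y hne
    by_contra hlt
    push Not at hlt
    apply hne
    obtain ⟨l, rfl⟩ : ∃ l, k = l + 1 := ⟨k - 1, by omega⟩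
    have e : 2 * (Y / 2 ^ (l + 1)) = Y / 2 ^ l := by
      rw [pow_succ]; field_simp
    rw [e] at hlt
    have h1 : pa_Q Y K (l + 1) y = 1 := by
      simp only [pa_Q, if_pos (show l < K by omega)]
      exact pa_P_one Y hY l y hlt.le
    have h2 := pa_Q_mono Y hY K (l + 1) y
    have h3 := (pa_Q_mem Y K (l + 1 + 1) y).2
    show pa_Q Y K (l + 1 + 1) y - pa_Q Y K (l + 1) y = 0
    linarith
  · intro y hne
    by_contra hlt
    push Not at hlt
    apply hne
    obtain ⟨l, rfl⟩ : ∃ l, K = l + 1 := ⟨K - 1, by omega⟩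
    have e : 2 * (Y / 2 ^ (l + 1)) = Y / 2 ^ l := by
      rw [pow_succ]; field_simp
    rw [e] at hlt
    have h1 : pa_Q Y (l + 1) (l + 1) y = 1 := by
      simp only [pa_Q, if_pos (show l < l + 1 by omega)]
      exact pa_P_one Y hY l y hlt.le
    have h2 := pa_Q_mono Y hY (l + 1) (l + 1) y
    have h3 := (pa_Q_mem Y (l + 1) (l + 1 + 1) y).2
    show pa_Q Y (l + 1) (l + 1 + 1) y - pa_Q Y (l + 1) (l + 1) y = 0
    linarith

end Pool.H14.SR

end S_PA

noncomputable section S_LB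

open MeasureTheory Set Filter Topology
namespace Pool.H14.SR

namespace LBaux

/-- clamp the second coordinate from below -/
def cl (c : ℝ) (u : ℝ × ℝ → ℝ) (p : ℝ × ℝ) : ℝ := u (p.1, max p.2 c)

theorem cl_cont {u : ℝ × ℝ → ℝ} {σ c : ℝ} (hc : -σ < c) (hu : ContinuousOn u {p | -σ < p.2}) :
    Continuous (cl c u) := by
  unfold cl
  have h : Continuous fun p : ℝ × ℝ => (p.1, max p.2 c) := by fun_prop
  exact hu.comp_continuous h (fun p => lt_of_lt_of_le hc (le_max_right _ _))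

theorem int_cl (u : ℝ × ℝ → ℝ) {c x y Y : ℝ} (h1 : c ≤ y) (h2 : c ≤ Y) :
    ∫ s in y..Y, u (x, s) = ∫ s in y..Y, cl c u (x, s) := by
  refine intervalIntegral.integral_congr fun s hs => ?_
  have : c ≤ s := (le_min h1 h2).trans hs.1
  simp [cl, max_eq_left this]

theorem param_deriv {u ux : ℝ × ℝ → ℝ} (hu : Continuous u) (hux : Continuous ux)
    (hd : ∀ p : ℝ × ℝ, HasDerivAt (fun x => u (x, p.2)) (ux p) p.1) (a b x : ℝ) :
    HasDerivAt (fun x => ∫ t in a..b, u (x, t)) (∫ t in a..b, ux (x, t)) x := by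
  obtain ⟨C, hC⟩ := ((isCompact_Icc : IsCompact (Icc (x - 1) (x + 1))).prod isCompact_uIcc).exists_bound_of_continuousOn
    (f := ux) (s := Icc (x - 1) (x + 1) ×ˢ uIcc a b) hux.continuousOn
  refine (intervalIntegral.hasDerivAt_integral_of_dominated_loc_of_deriv_le
    (F := fun x t => u (x, t)) (F' := fun x t => ux (x, t)) (bound := fun _ => C)
    (s := Icc (x - 1) (x + 1)) (Icc_mem_nhds (by linarith) (by linarith)) ?_ ?_ ?_ ?_ ?_ ?_).2
  · exact Eventually.of_forall fun x =>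
      (hu.comp (continuous_const.prodMk continuous_id)).aestronglyMeasurable
  · exact (hu.comp (continuous_const.prodMk continuous_id)).intervalIntegrable _ _
  · exact (hux.comp (continuous_const.prodMk continuous_id)).aestronglyMeasurable
  · exact ae_of_all _ fun t ht x hx => hC (x, t) ⟨hx, uIoc_subset_uIcc ht⟩
  · exact intervalIntegrable_const
  · exact ae_of_all _ fun t _ x _ => hd (x, t)

theorem param_cont {u : ℝ × ℝ → ℝ} {σ Y : ℝ} (hY : -σ < Y) (hu : ContinuousOn u {p | -σ < p.2}) :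
    ContinuousOn (fun p : ℝ × ℝ => ∫ s in p.2..Y, u (p.1, s)) {p | -σ < p.2} := by
  intro p hp
  have hp' : -σ < p.2 := hp
  set c : ℝ := (-σ + min p.2 Y) / 2 with hc
  have hm : -σ < min p.2 Y := lt_min hp' hY
  have h1 : -σ < c := by rw [hc]; linarith
  have h2 : c < p.2 := by have := min_le_left p.2 Y; rw [hc]; linarith
  have h3 : c < Y := by have := min_le_right p.2 Y; rw [hc]; linarith
  have hcont : Continuous (fun p : ℝ × ℝ => ∫ s in p.2..Y, cl c u (p.1, s)) := by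
    have e : (fun p : ℝ × ℝ => ∫ s in p.2..Y, cl c u (p.1, s)) =
        fun p : ℝ × ℝ => -∫ s in Y..p.2, cl c u (p.1, s) := by
      funext q
      rw [intervalIntegral.integral_symm]
    rw [e]
    have hF : Continuous (Function.uncurry fun (q : ℝ × ℝ) (t : ℝ) => cl c u (q.1, t)) :=
      (cl_cont h1 hu).comp ((continuous_fst.comp continuous_fst).prodMk continuous_snd)
    exact (intervalIntegral.continuous_parametric_intervalIntegral_of_continuous hF
      continuous_snd).neg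
  have hev : (fun p : ℝ × ℝ => ∫ s in p.2..Y, u (p.1, s)) =ᶠ[𝓝 p]
      (fun p : ℝ × ℝ => ∫ s in p.2..Y, cl c u (p.1, s)) := by
    have : ∀ᶠ q : ℝ × ℝ in 𝓝 p, c < q.2 :=
      (isOpen_lt continuous_const continuous_snd).mem_nhds h2
    filter_upwards [this] with q hq
    exact int_cl u hq.le h3.le
  exact (hcont.continuousAt.congr hev.symm).continuousWithinAt

theorem int_qk (z : ℝ × ℝ) (hz : 0 < z.2) (y : ℝ) (hy : 0 ≤ y) :
    ∫⁻ x : ℝ, ENNReal.ofReal (qk z (x, y)) ≤ ENNReal.ofReal (4 * Real.pi) := by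
  have hb : 0 < y + z.2 := by linarith
  have hfun : (fun x : ℝ => qk z (x, y)) = fun x : ℝ =>
      (4 * z.2 / (y + z.2) ^ 2) * (1 + ((x - z.1) / (y + z.2)) ^ 2)⁻¹ := by
    funext x
    unfold qk
    simp only
    have h1 : 0 < (x - z.1) ^ 2 + (y + z.2) ^ 2 := by positivity
    have h2 : 0 < 1 + ((x - z.1) / (y + z.2)) ^ 2 := by positivity
    field_simp
    ring
  have hint : Integrable (fun x : ℝ => (1 + ((x - z.1) / (y + z.2)) ^ 2)⁻¹) := by
    have h1 := (integrable_inv_one_add_sq.comp_div hb.ne')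
    exact h1.comp_sub_right z.1
  have hval : ∫ x : ℝ, (1 + ((x - z.1) / (y + z.2)) ^ 2)⁻¹ = (y + z.2) * Real.pi := by
    have h1 := integral_sub_right_eq_self (μ := volume)
      (fun x : ℝ => (1 + (x / (y + z.2)) ^ 2)⁻¹) z.1
    rw [h1]
    have h2 := Measure.integral_comp_div (fun x : ℝ => (1 + x ^ 2)⁻¹) (y + z.2)
    rw [h2, integral_univ_inv_one_add_sq, abs_of_pos hb, smul_eq_mul]
  rw [← ofReal_integral_eq_lintegral_ofReal]
  · apply ENNReal.ofReal_le_ofReal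
    rw [hfun, integral_const_mul, hval]
    have h3 : 4 * z.2 / (y + z.2) ^ 2 * ((y + z.2) * Real.pi) =
        4 * Real.pi * (z.2 / (y + z.2)) := by
      field_simp
    rw [h3]
    have h4 : z.2 / (y + z.2) ≤ 1 := by
      rw [div_le_one hb]; linarith
    have hpi := Real.pi_pos
    nlinarith
  · rw [hfun]
    exact hint.const_mul _
  · refine ae_of_all _ fun x => ?_
    unfold qk
    simp only [Pi.zero_apply]
    positivity

theorem meas_qk (z : ℝ × ℝ) : Measurable (qk z) := by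
  unfold qk
  fun_prop

end LBaux

open LBaux in
/-- **(LB)** The last band: sources in `y ≤ 2h` (`h` tiny) flow straight down.  `X₂(x,y) = ∫_y^{2h} m(x,s)ds`.
`X₂(p) ≠ 0` gives `s ∈ [p.2, 2h]` with `m(p.1,s) ≠ 0`, `|b(p.1,s)| ≥ 2δ`, and `|b(p)| ≥ 2δ - (2h+σ)/(log ρ - σ) ≥ δ`.
Potential: `0 ≤ X₂ ≤ 2h·Cm/(log ρ)²` on `y ≥ 0` (`hp_cauchy`), `X₂ = 0` for `y ≥ 2h`,
`∬_{0<y<2h} q_z ≤ 4π·2h`. -/
theorem LB {δ ρ : ℝ} {a b F : ℂ → ℂ} (H : Dat δ ρ a b F) (Cm h σ : ℝ) (hCm : 0 ≤ Cm) (hh : 0 < h)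
    (hσ : 0 < σ) (hσρ : σ < Real.log ρ) (hsm : (2 * h + σ) / (Real.log ρ - σ) ≤ δ)
    (m mx my : ℝ × ℝ → ℝ) (hm : C1 σ m mx my) (m0 : ∀ p : ℝ × ℝ, -σ < p.2 → 0 ≤ m p)
    (hma : ∀ p : ℝ × ℝ, 0 < p.2 → m p ≤ Cm * ‖hp (Dz a) p‖ ^ 2)
    (hsupp : ∀ p : ℝ × ℝ, -σ < p.2 → m p ≠ 0 → p.2 ≤ 2 * h ∧ 2 * δ ≤ ‖hp b p‖) :
    ∃ X2 X2x X2y : ℝ × ℝ → ℝ, C1 σ X2 X2x X2y ∧
      (∀ p : ℝ × ℝ, -σ < p.2 → -X2y p = m p) ∧
      (∀ p : ℝ × ℝ, -σ < p.2 → 0 ≤ X2 p) ∧
      (∀ p : ℝ × ℝ, 2 * h ≤ p.2 → X2 p = 0) ∧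
      (∀ p : ℝ × ℝ, -σ < p.2 → ‖hp b p‖ < δ → X2 p = 0) ∧
      (∀ z : ℝ × ℝ, 0 < z.2 →
        ∫⁻ p in HP, ENNReal.ofReal (X2 p * qk z p)
          ≤ ENNReal.ofReal (60 * Cm * h ^ 2 / (Real.log ρ) ^ 2)) := by
  classical
  have hρ := H.hρ
  have hρ0 : 0 < ρ := by linarith
  have hlog : 0 < Real.log ρ := Real.log_pos hρ
  have hlσ : 0 < Real.log ρ - σ := by linarith
  set X2 : ℝ × ℝ → ℝ := fun p => ∫ s in p.2..(2 * h), m (p.1, s) with hX2
  have hY : -σ < 2 * h := by linarith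
  have hsl : ∀ x : ℝ, ContinuousOn (fun s => m (x, s)) (Ioi (-σ)) := by
    intro x
    exact hm.c.comp (by fun_prop) (fun s hs => hs)
  have hX0 : ∀ p : ℝ × ℝ, 2 * h ≤ p.2 → X2 p = 0 := by
    intro p hp
    simp only [hX2]
    rw [intervalIntegral.integral_of_ge hp, setIntegral_eq_zero_of_forall_eq_zero, neg_zero]
    intro s hs
    by_contra hne
    have := (hsupp (p.1, s) (by have := hs.1; simp only; linarith) hne).1
    simp only at this
    linarith [hs.1]
  refine ⟨X2, fun p => ∫ s in p.2..(2 * h), mx (p.1, s), fun p => -m p, ?_, ?_, ?_, ?_, ?_, ?_⟩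
  · refine ⟨?_, ?_, ?_, ?_, ?_, ?_⟩
    · intro p hp
      set c : ℝ := min p.2 (2 * h) with hc
      have h1 : -σ < c := lt_min hp hY
      have h2 : c ≤ p.2 := min_le_left _ _
      have h3 : c ≤ 2 * h := min_le_right _ _
      have e1 : (fun x : ℝ => X2 (x, p.2)) = fun x : ℝ => ∫ s in p.2..(2 * h), cl c m (x, s) := by
        funext x
        exact int_cl m h2 h3
      rw [e1, int_cl mx h2 h3]
      refine param_deriv (cl_cont h1 hm.c) (cl_cont h1 hm.cx) ?_ _ _ _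
      intro q
      exact hm.dx (q.1, max q.2 c) (lt_of_lt_of_le h1 (le_max_right _ _))
    · intro p hp'
      show HasDerivAt (fun y => ∫ s in y..(2 * h), m (p.1, s)) (-m (p.1, p.2)) p.2
      refine intervalIntegral.integral_hasDerivAt_left (f := fun s => m (p.1, s)) ?_ ?_ ?_
      · apply ContinuousOn.intervalIntegrable
        refine (hsl p.1).mono fun s hs => ?_
        exact lt_of_lt_of_le (lt_min hp' hY) hs.1
      · exact (hsl p.1).stronglyMeasurableAtFilter isOpen_Ioi _ hp'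
      · exact (hsl p.1).continuousAt (Ioi_mem_nhds hp')
    · exact param_cont hY hm.c
    · exact param_cont hY hm.cx
    · exact hm.c.neg
    · intro p hp
      refine intervalIntegral.integral_congr fun s hs => ?_
      exact hm.per (p.1, s) (lt_of_lt_of_le (lt_min hp hY) hs.1)
  · intro p _
    simp
  · intro p hp
    rcases le_total p.2 (2 * h) with h1 | h1
    · exact intervalIntegral.integral_nonneg h1 fun s hs => m0 _ (lt_of_lt_of_le hp hs.1)
    · rw [hX0 p h1]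
  · exact hX0
  · intro p hps hb
    by_contra hne
    have hlt : p.2 < 2 * h := by
      by_contra hcon
      exact hne (hX0 p (not_lt.1 hcon))
    have hex : ∃ s ∈ Icc p.2 (2 * h), m (p.1, s) ≠ 0 := by
      by_contra hcon
      push Not at hcon
      apply hne
      simp only [hX2]
      rw [intervalIntegral.integral_congr (g := fun _ => (0 : ℝ))]
      · simp
      · intro s hs
        rw [uIcc_of_le hlt.le] at hs
        exact hcon s hs
    obtain ⟨s, hs, hms⟩ := hex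
    have hσs : -σ < s := lt_of_lt_of_le hps hs.1
    have hbs := (hsupp (p.1, s) hσs hms).2
    have hlip := hp_lip b ρ hρ0 H.hb H.hb1 (-σ) (by linarith) (p.1, s) p hσs.le hps.le
    have e1 : |(p.1, s).1 - p.1| + |(p.1, s).2 - p.2| = s - p.2 := by
      simp only [sub_self, abs_zero, zero_add]
      rw [abs_of_nonneg (by linarith [hs.1])]
    rw [e1] at hlip
    have h3 : (s - p.2) / (-σ + Real.log ρ) ≤ (2 * h + σ) / (Real.log ρ - σ) := by
      rw [show -σ + Real.log ρ = Real.log ρ - σ by ring]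
      apply div_le_div_of_nonneg_right _ hlσ.le
      linarith [hs.2]
    have h4 : ‖hp b (p.1, s)‖ - ‖hp b p‖ ≤ ‖hp b (p.1, s) - hp b p‖ := norm_sub_norm_le _ _
    linarith
  · intro z hz
    set K : ℝ := 2 * h * (Cm / (Real.log ρ) ^ 2) with hK
    have hK0 : 0 ≤ K := by positivity
    have hXle : ∀ p : ℝ × ℝ, 0 < p.2 → X2 p ≤ K := by
      intro p hp0
      rcases le_total p.2 (2 * h) with h1 | h1
      · have h2 : X2 p ≤ ∫ s in p.2..(2 * h), (Cm / (Real.log ρ) ^ 2 : ℝ) := by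
          refine intervalIntegral.integral_mono_on h1 ?_ intervalIntegrable_const ?_
          · apply ContinuousOn.intervalIntegrable
            refine (hsl p.1).mono fun s hs => ?_
            exact lt_of_lt_of_le (lt_min (by linarith) hY) hs.1
          · intro s hs
            have hs0 : 0 < s := lt_of_lt_of_le hp0 hs.1
            refine (hma (p.1, s) hs0).trans ?_
            have h3 := hp_cauchy a ρ hρ0 H.ha H.ha1 (p.1, s) (by simp only; linarith)
            have h4 : 1 / ((p.1, s).2 + Real.log ρ) ≤ 1 / Real.log ρ := by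
              apply one_div_le_one_div_of_le hlog
              simp only
              linarith
            have h5 : ‖hp (Dz a) (p.1, s)‖ ^ 2 ≤ (1 / Real.log ρ) ^ 2 :=
              pow_le_pow_left₀ (norm_nonneg _) (h3.trans h4) 2
            calc Cm * ‖hp (Dz a) (p.1, s)‖ ^ 2 ≤ Cm * (1 / Real.log ρ) ^ 2 :=
                  mul_le_mul_of_nonneg_left h5 hCm
              _ = Cm / (Real.log ρ) ^ 2 := by rw [div_pow]; ring
        rw [intervalIntegral.integral_const, smul_eq_mul] at h2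
        refine h2.trans ?_
        rw [hK]
        apply mul_le_mul_of_nonneg_right _ (by positivity)
        linarith
      · rw [hX0 p h1]
        exact hK0
    have hq0 : ∀ p, 0 ≤ qk z p := by
      intro p
      unfold qk
      positivity
    have hmeas : Measurable fun p : ℝ × ℝ =>
        ({p : ℝ × ℝ | 0 < p.2 ∧ p.2 < 2 * h}).indicator (fun p => ENNReal.ofReal (K * qk z p)) p := by
      apply Measurable.indicator
      · exact ((meas_qk z).const_mul K).ennreal_ofReal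
      · exact (measurableSet_lt measurable_const measurable_snd).inter
          (measurableSet_lt measurable_snd measurable_const)
    have hHP : MeasurableSet HP := measurableSet_lt measurable_const measurable_snd
    calc ∫⁻ p in HP, ENNReal.ofReal (X2 p * qk z p)
        ≤ ∫⁻ p : ℝ × ℝ, ({p : ℝ × ℝ | 0 < p.2 ∧ p.2 < 2 * h}).indicator
            (fun p => ENNReal.ofReal (K * qk z p)) p := by
          rw [← lintegral_indicator hHP]
          refine lintegral_mono fun p => ?_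
          by_cases hp : p ∈ HP
          · rw [indicator_of_mem hp]
            by_cases hp2 : p.2 < 2 * h
            · rw [indicator_of_mem (show p ∈ {p : ℝ × ℝ | 0 < p.2 ∧ p.2 < 2 * h} from ⟨hp, hp2⟩)]
              apply ENNReal.ofReal_le_ofReal
              exact mul_le_mul_of_nonneg_right (hXle p hp) (hq0 p)
            · rw [hX0 p (not_lt.1 hp2)]
              simp
          · rw [indicator_of_notMem hp]
            exact zero_le
      _ = ∫⁻ y : ℝ, ∫⁻ x : ℝ, ({p : ℝ × ℝ | 0 < p.2 ∧ p.2 < 2 * h}).indicator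
            (fun p => ENNReal.ofReal (K * qk z p)) (x, y) := by
          rw [Measure.volume_eq_prod, lintegral_prod_symm' _ hmeas]
      _ ≤ ∫⁻ y : ℝ, (Ioo 0 (2 * h)).indicator (fun _ => ENNReal.ofReal (K * (4 * Real.pi))) y := by
          refine lintegral_mono fun y => ?_
          by_cases hy : y ∈ Ioo 0 (2 * h)
          · rw [indicator_of_mem hy]
            have e : ∀ x : ℝ, ({p : ℝ × ℝ | 0 < p.2 ∧ p.2 < 2 * h}).indicator
                (fun p => ENNReal.ofReal (K * qk z p)) (x, y) =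
                ENNReal.ofReal K * ENNReal.ofReal (qk z (x, y)) := by
              intro x
              rw [indicator_of_mem (show (x, y) ∈ {p : ℝ × ℝ | 0 < p.2 ∧ p.2 < 2 * h} from hy),
                ENNReal.ofReal_mul hK0]
            simp_rw [e]
            rw [lintegral_const_mul _ (by
              exact ((meas_qk z).comp (measurable_id.prodMk measurable_const)).ennreal_ofReal),
              ENNReal.ofReal_mul hK0]
            gcongr
            exact int_qk z hz y hy.1.le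
          · have e : ∀ x : ℝ, ({p : ℝ × ℝ | 0 < p.2 ∧ p.2 < 2 * h}).indicator
                (fun p => ENNReal.ofReal (K * qk z p)) (x, y) = 0 := by
              intro x
              exact indicator_of_notMem
                (show (x, y) ∉ {p : ℝ × ℝ | 0 < p.2 ∧ p.2 < 2 * h} from fun hmem => hy hmem) _
            simp_rw [e]
            simp
      _ = ENNReal.ofReal (K * (4 * Real.pi) * (2 * h)) := by
          rw [lintegral_indicator measurableSet_Ioo, setLIntegral_const, Real.volume_Ioo,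
            sub_zero, ← ENNReal.ofReal_mul (by positivity)]
      _ ≤ ENNReal.ofReal (60 * Cm * h ^ 2 / (Real.log ρ) ^ 2) := by
          apply ENNReal.ofReal_le_ofReal
          rw [hK]
          have e : 2 * h * (Cm / Real.log ρ ^ 2) * (4 * Real.pi) * (2 * h) =
              16 * Real.pi * (Cm * h ^ 2 / Real.log ρ ^ 2) := by ring
          have e2 : 60 * Cm * h ^ 2 / Real.log ρ ^ 2 = 60 * (Cm * h ^ 2 / Real.log ρ ^ 2) := by ring
          rw [e, e2]
          apply mul_le_mul_of_nonneg_right _ (by positivity)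
          have := Real.pi_lt_d2
          linarith

end Pool.H14.SR

end S_LB
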