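import Mathlib
import Pool.Agent.H14.SRM.P0
import Pool.Agent.H14.SRM.P1

/-! MP_e1e648_an, part P2: this file joins several modules to save build time. -/

noncomputable section S_E5a

open MeasureTheory Set Filter Topology
namespace Pool.H14.SR

namespace E5aAux

/-- Kernels to which differentiation under the integral sign applies. -/
structure GK (K : ℝ × ℝ → ℝ × ℝ → ℝ) : Prop where
  meas : ∀ z, Measurable (K z)
  cont : ∀ p : ℝ × ℝ, 0 < p.2 → ContinuousOn (fun z => K z p) {z | 0 < z.2}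
  dom : ∀ z0 : ℝ × ℝ, 0 < z0.2 → ∃ C : ℝ, ∀ z p : ℝ × ℝ, |z.1 - z0.1| < 1 → z0.2 / 2 < z.2 →
    z.2 < 2 * z0.2 → 0 < p.2 → |K z p| ≤ C * (1 / (1 + p.1 ^ 2))

theorem measHP : MeasurableSet HP := (isOpen_lt continuous_const continuous_snd).measurableSet

theorem int_bound (C Y : ℝ) :
    Integrable (fun p : ℝ × ℝ => (if p.2 < Y then C * (1 / (1 + p.1 ^ 2)) else 0))
      (volume.restrict HP) := by
  have h1 : Integrable (fun p : ℝ × ℝ => (fun x : ℝ => C * (1 / (1 + x ^ 2))) p.1 *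
      ((Ioo (0 : ℝ) Y).indicator (fun _ => (1 : ℝ))) p.2) (volume.prod volume) := by
    have i1 : Integrable (fun x : ℝ => C * (1 / (1 + x ^ 2))) := by
      apply Integrable.const_mul
      simpa [one_div] using integrable_inv_one_add_sq
    have i2 : Integrable ((Ioo (0 : ℝ) Y).indicator (fun _ => (1 : ℝ))) := by
      apply (integrable_indicator_iff measurableSet_Ioo).2
      exact integrableOn_const (by simp)
    exact i1.mul_prod i2
  have h2 := h1.restrict (s := HP)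
  refine h2.congr ?_
  refine (ae_restrict_iff' measHP).2 (Eventually.of_forall fun p hp => ?_)
  have hp' : 0 < p.2 := hp
  by_cases h : p.2 < Y
  · simp [h, indicator, hp']
  · simp [h, indicator]

section
variable {M : ℝ × ℝ → ℝ} (hM : Measurable M) {B Y : ℝ} (hM0 : ∀ p, 0 ≤ M p) (hMB : ∀ p, M p ≤ B)
    (hMY : ∀ p : ℝ × ℝ, Y ≤ p.2 → M p = 0) {K K' : ℝ × ℝ → ℝ × ℝ → ℝ}

include hM0 hMB hMY in
theorem pt_bound {C : ℝ} {k : ℝ} {p : ℝ × ℝ} (hk : |k| ≤ C * (1 / (1 + p.1 ^ 2))) :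
    ‖M p * k‖ ≤ (if p.2 < Y then (B * C) * (1 / (1 + p.1 ^ 2)) else 0) := by
  split_ifs with h
  · rw [norm_mul, Real.norm_eq_abs, Real.norm_eq_abs, abs_of_nonneg (hM0 p), mul_assoc]
    exact mul_le_mul (hMB p) hk (abs_nonneg _) ((hM0 p).trans (hMB p))
  · rw [hMY p (not_lt.1 h)]; simp

include hM in
theorem aesm (hK : GK K) (z : ℝ × ℝ) :
    AEStronglyMeasurable (fun p => M p * K z p) (volume.restrict HP) :=
  (hM.mul (hK.meas z)).aestronglyMeasurable

include hM hM0 hMB hMY in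
theorem GK.integrable (hK : GK K) {z : ℝ × ℝ} (hz : 0 < z.2) :
    IntegrableOn (fun p => M p * K z p) HP := by
  obtain ⟨C, hC⟩ := hK.dom z hz
  refine (int_bound (B * C) Y).mono' (aesm hM hK z) ?_
  refine (ae_restrict_iff' measHP).2 (Eventually.of_forall fun p hp => ?_)
  exact pt_bound hM0 hMB hMY (hC z p (by simp) (by linarith) (by linarith) hp)

theorem nhd {z0 : ℝ × ℝ} (hz : 0 < z0.2) :
    ∀ᶠ z in 𝓝 z0, |z.1 - z0.1| < 1 ∧ z0.2 / 2 < z.2 ∧ z.2 < 2 * z0.2 := by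
  have h1 : ∀ᶠ z : ℝ × ℝ in 𝓝 z0, |z.1 - z0.1| < 1 := by
    apply (isOpen_lt (by fun_prop) continuous_const).mem_nhds
    simp
  have h2 : ∀ᶠ z : ℝ × ℝ in 𝓝 z0, z0.2 / 2 < z.2 := by
    apply (isOpen_lt continuous_const continuous_snd).mem_nhds
    show z0.2 / 2 < z0.2
    linarith
  have h3 : ∀ᶠ z : ℝ × ℝ in 𝓝 z0, z.2 < 2 * z0.2 := by
    apply (isOpen_lt continuous_snd continuous_const).mem_nhds
    show z0.2 < 2 * z0.2
    linarith
  exact h1.and (h2.and h3)

include hM hM0 hMB hMY in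
theorem GK.continuous (hK : GK K) :
    ContinuousOn (fun z => ∫ p in HP, M p * K z p) {z | -(0 : ℝ) < z.2} := by
  intro z0 hz0
  have hz : 0 < z0.2 := by simpa using hz0
  apply ContinuousAt.continuousWithinAt
  obtain ⟨C, hC⟩ := hK.dom z0 hz
  refine continuousAt_of_dominated (bound := fun p => (if p.2 < Y then (B * C) * (1 / (1 + p.1 ^ 2)) else 0))
    (Eventually.of_forall fun z => aesm hM hK z) ?_ (int_bound _ _) ?_
  · filter_upwards [nhd hz] with z hz'
    refine (ae_restrict_iff' measHP).2 (Eventually.of_forall fun p hp => ?_)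
    exact pt_bound hM0 hMB hMY (hC z p hz'.1 hz'.2.1 hz'.2.2 hp)
  · refine (ae_restrict_iff' measHP).2 (Eventually.of_forall fun p hp => ?_)
    apply ContinuousAt.mul continuousAt_const
    exact (hK.cont p hp).continuousAt
      ((isOpen_lt continuous_const continuous_snd).mem_nhds hz)

include hM hM0 hMB hMY in
theorem GK.dx (hK : GK K) (hK' : GK K')
    (hd : ∀ z p : ℝ × ℝ, 0 < z.2 → 0 < p.2 → HasDerivAt (fun x : ℝ => K (x, z.2) p) (K' z p) z.1)
    (z0 : ℝ × ℝ) (hz0 : -(0 : ℝ) < z0.2) :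
    HasDerivAt (fun x : ℝ => ∫ p in HP, M p * K (x, z0.2) p) (∫ p in HP, M p * K' z0 p) z0.1 := by
  have hz : 0 < z0.2 := by simpa using hz0
  obtain ⟨C, hC⟩ := hK'.dom z0 hz
  have hs : Metric.ball z0.1 1 ∈ 𝓝 z0.1 := Metric.ball_mem_nhds _ one_pos
  refine (hasDerivAt_integral_of_dominated_loc_of_deriv_le
    (bound := fun p => (if p.2 < Y then (B * C) * (1 / (1 + p.1 ^ 2)) else 0))
    (F := fun x p => M p * K (x, z0.2) p) (F' := fun x p => M p * K' (x, z0.2) p) hs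
    (Eventually.of_forall fun x => aesm hM hK _) (GK.integrable hM hM0 hMB hMY hK hz)
    (aesm hM hK' _) ?_ (int_bound _ _) ?_).2
  · refine (ae_restrict_iff' measHP).2 (Eventually.of_forall fun p hp x hx => ?_)
    refine pt_bound hM0 hMB hMY (hC (x, z0.2) p ?_ ?_ ?_ hp)
    · simpa [Real.dist_eq] using hx
    · show z0.2 / 2 < z0.2
      linarith
    · show z0.2 < 2 * z0.2
      linarith
  · refine (ae_restrict_iff' measHP).2 (Eventually.of_forall fun p hp x _ => ?_)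
    exact (hd (x, z0.2) p hz hp).const_mul (M p)

include hM hM0 hMB hMY in
theorem GK.dy (hK : GK K) (hK' : GK K')
    (hd : ∀ z p : ℝ × ℝ, 0 < z.2 → 0 < p.2 → HasDerivAt (fun y : ℝ => K (z.1, y) p) (K' z p) z.2)
    (z0 : ℝ × ℝ) (hz0 : -(0 : ℝ) < z0.2) :
    HasDerivAt (fun y : ℝ => ∫ p in HP, M p * K (z0.1, y) p) (∫ p in HP, M p * K' z0 p) z0.2 := by
  have hz : 0 < z0.2 := by simpa using hz0
  obtain ⟨C, hC⟩ := hK'.dom z0 hz
  have hs : Ioo (z0.2 / 2) (2 * z0.2) ∈ 𝓝 z0.2 := Ioo_mem_nhds (by linarith) (by linarith)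
  refine (hasDerivAt_integral_of_dominated_loc_of_deriv_le
    (bound := fun p => (if p.2 < Y then (B * C) * (1 / (1 + p.1 ^ 2)) else 0))
    (F := fun y p => M p * K (z0.1, y) p) (F' := fun y p => M p * K' (z0.1, y) p) hs
    (Eventually.of_forall fun x => aesm hM hK _) (GK.integrable hM hM0 hMB hMY hK hz)
    (aesm hM hK' _) ?_ (int_bound _ _) ?_).2
  · refine (ae_restrict_iff' measHP).2 (Eventually.of_forall fun p hp y hy => ?_)
    exact pt_bound hM0 hMB hMY (hC (z0.1, y) p (by simp) hy.1 hy.2 hp)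
  · refine (ae_restrict_iff' measHP).2 (Eventually.of_forall fun p hp y hy => ?_)
    refine (hd (z0.1, y) p ?_ hp).const_mul (M p)
    show 0 < y
    linarith [hy.1]

end

/-! ### the kernels -/

/-- The denominator. -/
def Dn (z p : ℝ × ℝ) : ℝ := (p.1 - z.1) ^ 2 + (p.2 + z.2) ^ 2

theorem Dn_pos {z p : ℝ × ℝ} (hz : 0 < z.2) (hp : 0 < p.2) : 0 < Dn z p := by
  unfold Dn; positivity

def kx (z p : ℝ × ℝ) : ℝ := 8 * z.2 * (p.1 - z.1) / Dn z p ^ 2
def kxx (z p : ℝ × ℝ) : ℝ := -(8 * z.2) / Dn z p ^ 2 + 32 * z.2 * (p.1 - z.1) ^ 2 / Dn z p ^ 3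
def ky (z p : ℝ × ℝ) : ℝ := 4 / Dn z p - 8 * z.2 * (z.2 + p.2) / Dn z p ^ 2
def kyy (z p : ℝ × ℝ) : ℝ :=
  -(8 * (3 * z.2 + 2 * p.2)) / Dn z p ^ 2 + 32 * z.2 * (z.2 + p.2) ^ 2 / Dn z p ^ 3
def kl (z p : ℝ × ℝ) : ℝ := 16 * p.2 / Dn z p ^ 2

/-- A kernel with `|K| ≤ (c y + c + c/y)/D` is dominated. -/
theorem GK.mk' {K : ℝ × ℝ → ℝ × ℝ → ℝ} (c : ℝ) (hc : 0 ≤ c) (meas : ∀ z, Measurable (K z))
    (cont : ∀ p : ℝ × ℝ, 0 < p.2 → ContinuousOn (fun z => K z p) {z | 0 < z.2})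
    (h : ∀ z p : ℝ × ℝ, 0 < z.2 → 0 < p.2 → |K z p| ≤ c * (z.2 + 1 + 1 / z.2) / Dn z p) : GK K where
  meas := meas
  cont := cont
  dom := by
    intro z0 hz0
    set A : ℝ := |z0.1| + 1 with hA
    have hA0 : 0 ≤ A := by positivity
    set L : ℝ := 2 + (1 + 2 * A ^ 2) / (z0.2 / 2) ^ 2 with hL
    refine ⟨c * (2 * z0.2 + 1 + 1 / (z0.2 / 2)) * L, fun z p h1 h2 h3 hp => ?_⟩
    have hz : 0 < z.2 := by linarith
    have hD := Dn_pos hz hp
    refine (h z p hz hp).trans ?_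
    have hN : c * (z.2 + 1 + 1 / z.2) ≤ c * (2 * z0.2 + 1 + 1 / (z0.2 / 2)) := by
      apply mul_le_mul_of_nonneg_left _ hc
      have : 1 / z.2 ≤ 1 / (z0.2 / 2) := one_div_le_one_div_of_le (by linarith) h2.le
      linarith
    have hN0 : 0 ≤ c * (2 * z0.2 + 1 + 1 / (z0.2 / 2)) := by positivity
    have hDL : 1 / Dn z p ≤ L * (1 / (1 + p.1 ^ 2)) := by
      rw [mul_one_div, div_le_div_iff₀ hD (by positivity), one_mul]
      have hzA : z.1 ^ 2 ≤ A ^ 2 := by
        apply sq_le_sq'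
        · have := abs_lt.1 h1
          have := neg_abs_le z0.1
          linarith
        · have := abs_lt.1 h1
          have := le_abs_self z0.1
          linarith
      have e1 : 1 + p.1 ^ 2 ≤ 2 * (p.1 - z.1) ^ 2 + (1 + 2 * A ^ 2) := by
        nlinarith [sq_nonneg (p.1 - 2 * z.1)]
      have e2 : (z0.2 / 2) ^ 2 ≤ (p.2 + z.2) ^ 2 := by
        apply pow_le_pow_left₀ (by positivity); linarith
      have e3 : (1 + 2 * A ^ 2) ≤ (1 + 2 * A ^ 2) / (z0.2 / 2) ^ 2 * (p.2 + z.2) ^ 2 := by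
        rw [div_mul_eq_mul_div, le_div_iff₀ (by positivity)]
        exact mul_le_mul_of_nonneg_left e2 (by positivity)
      have e4 : 0 ≤ (1 + 2 * A ^ 2) / (z0.2 / 2) ^ 2 * (p.1 - z.1) ^ 2 := by positivity
      have e5 : L * Dn z p = 2 * (p.1 - z.1) ^ 2 + 2 * (p.2 + z.2) ^ 2
          + (1 + 2 * A ^ 2) / (z0.2 / 2) ^ 2 * (p.1 - z.1) ^ 2
          + (1 + 2 * A ^ 2) / (z0.2 / 2) ^ 2 * (p.2 + z.2) ^ 2 := by
        rw [hL]; unfold Dn; ring
      rw [e5]
      have e6 : 0 ≤ 2 * (p.2 + z.2) ^ 2 := by positivity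
      linarith
    calc c * (z.2 + 1 + 1 / z.2) / Dn z p = c * (z.2 + 1 + 1 / z.2) * (1 / Dn z p) := by ring
      _ ≤ c * (2 * z0.2 + 1 + 1 / (z0.2 / 2)) * (L * (1 / (1 + p.1 ^ 2))) :=
          mul_le_mul hN hDL (by positivity) hN0
      _ = _ := by ring

theorem measDn (z : ℝ × ℝ) : Measurable (Dn z) := by
  unfold Dn; fun_prop

theorem contDn (p : ℝ × ℝ) : Continuous (fun z => Dn z p) := by
  unfold Dn; fun_prop

/-- elementary estimates: `y ≤ r`, `|x| ≤ √D`. -/
theorem bx {z p : ℝ × ℝ} (hz : 0 < z.2) (hp : 0 < p.2) : z.2 * |p.1 - z.1| ≤ Dn z p := by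
  unfold Dn
  have := sq_abs (p.1 - z.1)
  nlinarith [sq_nonneg (z.2 - |p.1 - z.1|), mul_pos hz hp, sq_nonneg p.2]

theorem by2 {z p : ℝ × ℝ} (hz : 0 < z.2) (hp : 0 < p.2) : z.2 ^ 2 ≤ Dn z p := by
  unfold Dn
  nlinarith [sq_nonneg (p.1 - z.1), mul_pos hz hp, sq_nonneg p.2]

theorem gk_q : GK qk := by
  refine GK.mk' 4 (by norm_num) (fun z => ?_) (fun p hp => ?_) (fun z p hz hp => ?_)
  · unfold qk; fun_prop
  · unfold qk
    apply ContinuousOn.div (by fun_prop) (by fun_prop)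
    intro z hz
    exact (Dn_pos hz hp).ne'
  · have hD := Dn_pos hz hp
    have : qk z p = 4 * z.2 / Dn z p := rfl
    rw [this, abs_of_nonneg (by positivity)]
    apply div_le_div_of_nonneg_right _ hD.le
    have : 0 < 1 / z.2 := by positivity
    linarith

theorem gk_x : GK kx := by
  refine GK.mk' 8 (by norm_num) (fun z => ?_) (fun p hp => ?_) (fun z p hz hp => ?_)
  · unfold kx Dn; fun_prop
  · unfold kx
    apply ContinuousOn.div (by fun_prop) ((contDn p).pow 2).continuousOn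
    intro z hz
    exact (pow_pos (Dn_pos hz hp) 2).ne'
  · have hD := Dn_pos hz hp
    unfold kx
    rw [abs_div, abs_of_pos (pow_pos hD 2), abs_mul, abs_of_nonneg (by positivity : 0 ≤ 8 * z.2),
      div_le_div_iff₀ (pow_pos hD 2) hD]
    have h1 := bx hz hp
    have h2 : 0 < 1 / z.2 := by positivity
    calc 8 * z.2 * |p.1 - z.1| * Dn z p = 8 * (z.2 * |p.1 - z.1|) * Dn z p := by ring
      _ ≤ 8 * Dn z p * Dn z p := by gcongr
      _ = 8 * 1 * Dn z p ^ 2 := by ring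
      _ ≤ 8 * (z.2 + 1 + 1 / z.2) * Dn z p ^ 2 := by gcongr; linarith

theorem gk_xx : GK kxx := by
  refine GK.mk' 40 (by norm_num) (fun z => ?_) (fun p hp => ?_) (fun z p hz hp => ?_)
  · unfold kxx Dn; fun_prop
  · unfold kxx
    apply ContinuousOn.add
    · apply ContinuousOn.div (by fun_prop) ((contDn p).pow 2).continuousOn
      intro z hz
      exact (pow_pos (Dn_pos hz hp) 2).ne'
    · apply ContinuousOn.div (by fun_prop) ((contDn p).pow 3).continuousOn
      intro z hz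
      exact (pow_pos (Dn_pos hz hp) 3).ne'
  · have hD := Dn_pos hz hp
    have h1 := by2 hz hp
    have hi : 0 < 1 / z.2 := by positivity
    have hx : (p.1 - z.1) ^ 2 ≤ Dn z p := by unfold Dn; nlinarith [sq_nonneg (p.2 + z.2)]
    have key : z.2 ≤ 1 / z.2 * Dn z p := by
      rw [one_div, inv_mul_eq_div, le_div_iff₀ hz]; nlinarith
    unfold kxx
    refine (abs_add_le _ _).trans ?_
    have a1 : |-(8 * z.2) / Dn z p ^ 2| ≤ 8 * (1 / z.2) / Dn z p := by
      rw [abs_div, abs_of_pos (pow_pos hD 2), abs_neg, abs_of_nonneg (by positivity),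
        div_le_div_iff₀ (pow_pos hD 2) hD]
      calc 8 * z.2 * Dn z p ≤ 8 * (1 / z.2 * Dn z p) * Dn z p := by gcongr
        _ = _ := by ring
    have a2 : |32 * z.2 * (p.1 - z.1) ^ 2 / Dn z p ^ 3| ≤ 32 * (1 / z.2) / Dn z p := by
      rw [abs_of_nonneg (by positivity), div_le_div_iff₀ (pow_pos hD 3) hD]
      calc 32 * z.2 * (p.1 - z.1) ^ 2 * Dn z p ≤ 32 * (1 / z.2 * Dn z p) * Dn z p * Dn z p := by
            gcongr
        _ = _ := by ring
    calc _ ≤ 8 * (1 / z.2) / Dn z p + 32 * (1 / z.2) / Dn z p := add_le_add a1 a2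
      _ = (40 * (1 / z.2)) / Dn z p := by ring
      _ ≤ _ := by
        apply div_le_div_of_nonneg_right _ hD.le
        apply mul_le_mul_of_nonneg_left _ (by norm_num)
        linarith

theorem gk_y : GK ky := by
  refine GK.mk' 12 (by norm_num) (fun z => ?_) (fun p hp => ?_) (fun z p hz hp => ?_)
  · unfold ky Dn; fun_prop
  · unfold ky
    apply ContinuousOn.sub
    · apply ContinuousOn.div (by fun_prop) (contDn p).continuousOn
      intro z hz
      exact (Dn_pos hz hp).ne'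
    · apply ContinuousOn.div (by fun_prop) ((contDn p).pow 2).continuousOn
      intro z hz
      exact (pow_pos (Dn_pos hz hp) 2).ne'
  · have hD := Dn_pos hz hp
    have hi : 0 < 1 / z.2 := by positivity
    have hy : z.2 * (z.2 + p.2) ≤ Dn z p := by
      unfold Dn; nlinarith [sq_nonneg (p.1 - z.1), mul_pos hz hp, sq_nonneg p.2]
    unfold ky
    refine (abs_sub _ _).trans ?_
    have a1 : |4 / Dn z p| = 4 / Dn z p := abs_of_pos (by positivity)
    have a2 : |8 * z.2 * (z.2 + p.2) / Dn z p ^ 2| ≤ 8 / Dn z p := by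
      rw [abs_of_nonneg (by positivity), div_le_div_iff₀ (pow_pos hD 2) hD]
      calc 8 * z.2 * (z.2 + p.2) * Dn z p = 8 * (z.2 * (z.2 + p.2)) * Dn z p := by ring
        _ ≤ 8 * Dn z p * Dn z p := by gcongr
        _ = _ := by ring
    calc _ ≤ 4 / Dn z p + 8 / Dn z p := add_le_add a1.le a2
      _ = (12 * 1) / Dn z p := by ring
      _ ≤ _ := by
        apply div_le_div_of_nonneg_right _ hD.le
        apply mul_le_mul_of_nonneg_left _ (by norm_num)
        linarith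

theorem gk_yy : GK kyy := by
  refine GK.mk' 56 (by norm_num) (fun z => ?_) (fun p hp => ?_) (fun z p hz hp => ?_)
  · unfold kyy Dn; fun_prop
  · unfold kyy
    apply ContinuousOn.add
    · apply ContinuousOn.div (by fun_prop) ((contDn p).pow 2).continuousOn
      intro z hz
      exact (pow_pos (Dn_pos hz hp) 2).ne'
    · apply ContinuousOn.div (by fun_prop) ((contDn p).pow 3).continuousOn
      intro z hz
      exact (pow_pos (Dn_pos hz hp) 3).ne'
  · have hD := Dn_pos hz hp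
    have hi : 0 < 1 / z.2 := by positivity
    have hw : (z.2 + p.2) ^ 2 ≤ Dn z p := by unfold Dn; nlinarith [sq_nonneg (p.1 - z.1)]
    have key : z.2 + p.2 ≤ 1 / z.2 * Dn z p := by
      rw [one_div, inv_mul_eq_div, le_div_iff₀ hz]; nlinarith [mul_pos hz hp, sq_nonneg p.2]
    have key2 : z.2 ≤ 1 / z.2 * Dn z p := by linarith
    unfold kyy
    refine (abs_add_le _ _).trans ?_
    have a1 : |-(8 * (3 * z.2 + 2 * p.2)) / Dn z p ^ 2| ≤ 24 * (1 / z.2) / Dn z p := by
      rw [abs_div, abs_of_pos (pow_pos hD 2), abs_neg, abs_of_nonneg (by positivity),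
        div_le_div_iff₀ (pow_pos hD 2) hD]
      calc 8 * (3 * z.2 + 2 * p.2) * Dn z p ≤ 24 * (z.2 + p.2) * Dn z p :=
            mul_le_mul_of_nonneg_right (by linarith) hD.le
        _ ≤ 24 * (1 / z.2 * Dn z p) * Dn z p := by gcongr
        _ = _ := by ring
    have a2 : |32 * z.2 * (z.2 + p.2) ^ 2 / Dn z p ^ 3| ≤ 32 * (1 / z.2) / Dn z p := by
      rw [abs_of_nonneg (by positivity), div_le_div_iff₀ (pow_pos hD 3) hD]
      calc 32 * z.2 * (z.2 + p.2) ^ 2 * Dn z p ≤ 32 * (1 / z.2 * Dn z p) * Dn z p * Dn z p := by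
            gcongr
        _ = _ := by ring
    calc _ ≤ 24 * (1 / z.2) / Dn z p + 32 * (1 / z.2) / Dn z p := add_le_add a1 a2
      _ = (56 * (1 / z.2)) / Dn z p := by ring
      _ ≤ _ := by
        apply div_le_div_of_nonneg_right _ hD.le
        apply mul_le_mul_of_nonneg_left _ (by norm_num)
        linarith

theorem gk_l : GK kl := by
  refine GK.mk' 16 (by norm_num) (fun z => ?_) (fun p hp => ?_) (fun z p hz hp => ?_)
  · unfold kl Dn; fun_prop
  · unfold kl
    apply ContinuousOn.div (by fun_prop) ((contDn p).pow 2).continuousOn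
    intro z hz
    exact (pow_pos (Dn_pos hz hp) 2).ne'
  · have hD := Dn_pos hz hp
    have hi : 0 < 1 / z.2 := by positivity
    have key : p.2 ≤ 1 / z.2 * Dn z p := by
      rw [one_div, inv_mul_eq_div, le_div_iff₀ hz]
      unfold Dn
      nlinarith [mul_pos hz hp, sq_nonneg (p.1 - z.1), sq_nonneg p.2, sq_nonneg z.2]
    unfold kl
    rw [abs_of_nonneg (by positivity), div_le_div_iff₀ (pow_pos hD 2) hD]
    calc 16 * p.2 * Dn z p ≤ 16 * (1 / z.2 * Dn z p) * Dn z p := by gcongr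
      _ = 16 * (1 / z.2) * Dn z p ^ 2 := by ring
      _ ≤ 16 * (z.2 + 1 + 1 / z.2) * Dn z p ^ 2 := by gcongr; linarith

/-! ### derivatives -/

theorem dDx (z p : ℝ × ℝ) :
    HasDerivAt (fun x : ℝ => Dn (x, z.2) p) (-(2 * (p.1 - z.1))) z.1 := by
  unfold Dn
  have h : HasDerivAt (fun x : ℝ => p.1 - x) (-1) z.1 := by
    simpa using (hasDerivAt_id z.1).const_sub p.1
  have h2 := (h.pow 2).add_const ((p.2 + z.2) ^ 2)
  refine h2.congr_deriv ?_
  simp

theorem dDy (z p : ℝ × ℝ) :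
    HasDerivAt (fun y : ℝ => Dn (z.1, y) p) (2 * (p.2 + z.2)) z.2 := by
  unfold Dn
  have h : HasDerivAt (fun y : ℝ => p.2 + y) 1 z.2 := by
    simpa using (hasDerivAt_id z.2).const_add p.2
  have h2 := (h.pow 2).const_add ((p.1 - z.1) ^ 2)
  refine h2.congr_deriv ?_
  simp

theorem dqx (z p : ℝ × ℝ) (hz : 0 < z.2) (hp : 0 < p.2) :
    HasDerivAt (fun x : ℝ => qk (x, z.2) p) (kx z p) z.1 := by
  have hD := Dn_pos hz hp
  have h := ((hasDerivAt_const z.1 (4 * z.2)).div (dDx z p) hD.ne')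
  refine h.congr_deriv ?_
  unfold kx
  field_simp
  ring

theorem dqxx (z p : ℝ × ℝ) (hz : 0 < z.2) (hp : 0 < p.2) :
    HasDerivAt (fun x : ℝ => kx (x, z.2) p) (kxx z p) z.1 := by
  have hD := Dn_pos hz hp
  have hn : HasDerivAt (fun x : ℝ => 8 * z.2 * (p.1 - x)) (-(8 * z.2)) z.1 := by
    have h : HasDerivAt (fun x : ℝ => p.1 - x) (-1) z.1 := by
      simpa using (hasDerivAt_id z.1).const_sub p.1
    simpa using h.const_mul (8 * z.2)
  have h := hn.div ((dDx z p).pow 2) (pow_pos hD 2).ne'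
  refine h.congr_deriv ?_
  unfold kxx
  simp only [Nat.cast_ofNat, Nat.add_one_sub_one, pow_one, Pi.pow_apply]
  have hD' : Dn (z.1, z.2) p = Dn z p := rfl
  rw [hD']
  field_simp
  ring

theorem dqy (z p : ℝ × ℝ) (hz : 0 < z.2) (hp : 0 < p.2) :
    HasDerivAt (fun y : ℝ => qk (z.1, y) p) (ky z p) z.2 := by
  have hD := Dn_pos hz hp
  have hn : HasDerivAt (fun y : ℝ => 4 * y) 4 z.2 := by
    simpa using (hasDerivAt_id z.2).const_mul 4
  have h := hn.div (dDy z p) hD.ne'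
  refine h.congr_deriv ?_
  unfold ky
  have hD' : Dn (z.1, z.2) p = Dn z p := rfl
  rw [hD']
  field_simp
  ring

theorem dqyy (z p : ℝ × ℝ) (hz : 0 < z.2) (hp : 0 < p.2) :
    HasDerivAt (fun y : ℝ => ky (z.1, y) p) (kyy z p) z.2 := by
  have hD := Dn_pos hz hp
  have h1 := (hasDerivAt_const z.2 (4 : ℝ)).div (dDy z p) hD.ne'
  have hn : HasDerivAt (fun y : ℝ => 8 * y * (y + p.2)) (8 * (z.2 + p.2) + 8 * z.2) z.2 := by
    have a : HasDerivAt (fun y : ℝ => 8 * y) 8 z.2 := by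
      simpa using (hasDerivAt_id z.2).const_mul 8
    have b : HasDerivAt (fun y : ℝ => y + p.2) 1 z.2 := by
      simpa using (hasDerivAt_id z.2).add_const p.2
    exact (a.mul b).congr_deriv (by simp)
  have h2 := hn.div ((dDy z p).pow 2) (pow_pos hD 2).ne'
  have h := h1.sub h2
  refine h.congr_deriv ?_
  unfold kyy
  simp only [Nat.cast_ofNat, Nat.add_one_sub_one, pow_one, Pi.pow_apply]
  have hD' : Dn (z.1, z.2) p = Dn z p := rfl
  rw [hD']
  field_simp
  ring

theorem lap (z p : ℝ × ℝ) (hz : 0 < z.2) (hp : 0 < p.2) : kxx z p + kyy z p = -kl z p := by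
  have hD := Dn_pos hz hp
  unfold kxx kyy kl
  have e : Dn z p = (p.1 - z.1) ^ 2 + (z.2 + p.2) ^ 2 := by unfold Dn; ring
  have e3 : 32 * z.2 * (p.1 - z.1) ^ 2 / Dn z p ^ 3 + 32 * z.2 * (z.2 + p.2) ^ 2 / Dn z p ^ 3
      = 32 * z.2 / Dn z p ^ 2 := by
    rw [← add_div, ← mul_add, ← e]
    field_simp
  have : -(8 * z.2) / Dn z p ^ 2 + 32 * z.2 * (p.1 - z.1) ^ 2 / Dn z p ^ 3 +
      (-(8 * (3 * z.2 + 2 * p.2)) / Dn z p ^ 2 + 32 * z.2 * (z.2 + p.2) ^ 2 / Dn z p ^ 3)
      = -(8 * z.2) / Dn z p ^ 2 + -(8 * (3 * z.2 + 2 * p.2)) / Dn z p ^ 2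
        + (32 * z.2 * (p.1 - z.1) ^ 2 / Dn z p ^ 3 + 32 * z.2 * (z.2 + p.2) ^ 2 / Dn z p ^ 3) := by
    ring
  rw [this, e3]
  ring

end E5aAux

open E5aAux in
/-- **(E5a)** The potential `S(z) = ∬_{HP} M q_z` of a bounded density `M ≥ 0` supported in `0 < y ≤ Y` is
`C²` with Laplacian `-∬ M(ζ) 16η/((x_ζ-x_z)²+(η+y_z)²)² dζ` (`η = Im ζ`), by differentiation under the integral
sign: for `K(z) = 4y/D`, `D = (x_z-x_ζ)²+(y_z+η)²`, `∂y K = 4/D - 8y(y+η)/D²`,
`∂y²K = -8(3y+2η)/D² + 32y(y+η)²/D³`, `∂x K = -8y(x_z-x_ζ)/D²`, `∂x²K = -8y/D²+32y(x_z-x_ζ)²/D³`, `ΔK = -16η/D²`;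
all of them are dominated, locally uniformly in `z`, by `C/(1+x_ζ²)`.  Periodicity of `S` follows from that
of `M`. -/
theorem E5a (M : ℝ × ℝ → ℝ) (hM : Measurable M) (B Y : ℝ) (hM0 : ∀ p, 0 ≤ M p) (hMB : ∀ p, M p ≤ B)
    (hMY : ∀ p : ℝ × ℝ, Y ≤ p.2 → M p = 0)
    (hper : ∀ p : ℝ × ℝ, M (p.1 + 2 * Real.pi, p.2) = M p) :
    ∃ Sx Sxx Sy Syy : ℝ × ℝ → ℝ,
      P2 0 (fun z => ∫ p in HP, M p * qk z p) Sx Sxx Sy Syy ∧
      ∀ z : ℝ × ℝ, 0 < z.2 → IntegrableOn (fun p => M p * qk z p) HP ∧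
        IntegrableOn (fun p : ℝ × ℝ =>
          M p * (16 * p.2 / ((p.1 - z.1) ^ 2 + (p.2 + z.2) ^ 2) ^ 2)) HP ∧
        Sxx z + Syy z = -∫ p in HP, M p * (16 * p.2 / ((p.1 - z.1) ^ 2 + (p.2 + z.2) ^ 2) ^ 2) := by
  refine ⟨fun z => ∫ p in HP, M p * kx z p, fun z => ∫ p in HP, M p * kxx z p,
    fun z => ∫ p in HP, M p * ky z p, fun z => ∫ p in HP, M p * kyy z p, ?_, ?_⟩
  · exact
    { dx := GK.dx hM hM0 hMB hMY gk_q gk_x dqx
      dxx := GK.dx hM hM0 hMB hMY gk_x gk_xx dqxx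
      dy := GK.dy hM hM0 hMB hMY gk_q gk_y dqy
      dyy := GK.dy hM hM0 hMB hMY gk_y gk_yy dqyy
      c := GK.continuous hM hM0 hMB hMY gk_q
      cx := GK.continuous hM hM0 hMB hMY gk_x
      cxx := GK.continuous hM hM0 hMB hMY gk_xx
      cy := GK.continuous hM hM0 hMB hMY gk_y
      cyy := GK.continuous hM hM0 hMB hMY gk_yy
      per := by
        intro z _
        show ∫ p in HP, M p * qk (z.1 + 2 * Real.pi, z.2) p = ∫ p in HP, M p * qk z p
        rw [← integral_indicator measHP, ← integral_indicator measHP,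
          ← integral_add_right_eq_self (μ := (volume : Measure (ℝ × ℝ))) _
            ((2 * Real.pi, 0) : ℝ × ℝ)]
        congr 1
        ext p
        have hmem : (p + (2 * Real.pi, 0) ∈ HP) ↔ p ∈ HP := by
          show 0 < p.2 + 0 ↔ 0 < p.2
          rw [add_zero]
        by_cases h : p ∈ HP
        · rw [indicator_of_mem h, indicator_of_mem (hmem.2 h)]
          have e1 : p + (2 * Real.pi, 0) = (p.1 + 2 * Real.pi, p.2) := by
            ext <;> simp
          rw [e1, hper]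
          unfold qk
          simp
        · rw [indicator_of_notMem h, indicator_of_notMem (fun h' => h (hmem.1 h'))] }
  · intro z hz
    refine ⟨GK.integrable hM hM0 hMB hMY gk_q hz, GK.integrable hM hM0 hMB hMY gk_l hz, ?_⟩
    rw [← integral_add (GK.integrable hM hM0 hMB hMY gk_xx hz) (GK.integrable hM hM0 hMB hMY gk_yy hz),
      ← integral_neg]
    apply setIntegral_congr_fun measHP
    intro p hp
    show M p * kxx z p + M p * kyy z p = -(M p * kl z p)
    rw [← mul_add, lap z p hz hp]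
    ring

end Pool.H14.SR

end S_E5a

section S_Cauchy

set_option autoImplicit false
set_option linter.unusedSectionVars false

open Set Topology MeasureTheory

namespace Pool.Agent.H51.Carpet

/-- the d-bar derivative -/
noncomputable def dbar (φ : ℂ → ℂ) (z : ℂ) : ℂ :=
  (1 / 2 : ℂ) * (fderiv ℝ φ z 1 + Complex.I * fderiv ℝ φ z Complex.I)

/-- Cauchy kernel -/
noncomputable def ker (z : ℂ) : ℂ := (Real.pi * z)⁻¹

lemma integrableOn_ker (R : ℝ) : IntegrableOn ker (Metric.ball (0 : ℂ) R) volume := by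
  have h1 : IntegrableOn (fun x : ℂ => (fun y : ℝ => y⁻¹) ‖x‖) (Metric.ball (0 : ℂ) R) volume := by
    rw [integrableOn_fun_norm_addHaar volume (f := fun y : ℝ => y⁻¹)]
    have h2 : IntegrableOn (fun _ : ℝ => (1 : ℝ)) (Ioo 0 R) volume := by
      refine integrableOn_const (by simp) (by simp)
    refine h2.congr_fun ?_ measurableSet_Ioo
    intro y hy
    have : y ≠ 0 := hy.1.ne'
    simp [Complex.finrank_real_complex, this]
  have h3 : IntegrableOn (fun x : ℂ => Real.pi⁻¹ * ‖x‖⁻¹) (Metric.ball (0 : ℂ) R) volume :=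
    h1.const_mul _
  refine Integrable.mono' h3 ?_ ?_
  · have : Measurable ker := by unfold ker; fun_prop
    exact this.aestronglyMeasurable
  · refine Filter.Eventually.of_forall fun x => ?_
    simp only [ker, norm_inv, norm_mul, Complex.norm_real, Real.norm_eq_abs,
      abs_of_pos Real.pi_pos, mul_inv]
    exact le_rfl

lemma locallyIntegrable_ker : LocallyIntegrable ker volume := by
  intro x
  refine ⟨Metric.ball 0 (‖x‖ + 1), ?_, integrableOn_ker _⟩
  exact Metric.isOpen_ball.mem_nhds (by simp)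

/-- the radial part -/
lemma integral_radial (g : ℂ → ℂ) (hg : ContDiff ℝ 1 g) (hgc : HasCompactSupport g) (θ : ℝ) :
    ∫ r in Ioi (0 : ℝ), fderiv ℝ g (r * Complex.exp (θ * Complex.I)) (Complex.exp (θ * Complex.I))
      = -g 0 := by
  set e := Complex.exp (θ * Complex.I) with he
  have hd : ∀ r : ℝ, HasDerivAt (fun r : ℝ => g (r * e)) (fderiv ℝ g (r * e) e) r := by
    intro r
    have h1 : HasDerivAt (fun r : ℝ => (r : ℂ) * e) e r := by
      simpa using (Complex.ofRealCLM.hasDerivAt (x := r)).mul_const e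
    have h2 : HasFDerivAt g (fderiv ℝ g (r * e)) (r * e) :=
      (hg.differentiable (by norm_num) _).hasFDerivAt
    exact h2.comp_hasDerivAt r h1
  have hnorm : ‖e‖ = 1 := by rw [he]; exact Complex.norm_exp_ofReal_mul_I θ
  obtain ⟨R, hR⟩ : ∃ R : ℝ, ∀ z : ℂ, R < ‖z‖ → g z = 0 := by
    obtain ⟨R, hR⟩ := hgc.isCompact.isBounded.subset_closedBall (0 : ℂ)
    refine ⟨R, fun z hz => ?_⟩
    by_contra h
    have := hR (subset_tsupport g h)
    rw [mem_closedBall_zero_iff] at this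
    linarith
  have hcs : HasCompactSupport (fun r : ℝ => g (r * e)) := by
    refine HasCompactSupport.intro (isCompact_closedBall (0 : ℝ) R) fun r hr => ?_
    apply hR
    rw [norm_mul, hnorm, mul_one, Complex.norm_real]
    simpa using hr
  have hcont : Continuous fun r : ℝ => fderiv ℝ g (r * e) e := by
    have := hg.continuous_fderiv (by norm_num)
    fun_prop
  have hcs' : HasCompactSupport (fun r : ℝ => fderiv ℝ g (r * e) e) := by
    have h3 : (fun r : ℝ => fderiv ℝ g (r * e) e) = deriv (fun r : ℝ => g (r * e)) := by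
      ext r; exact (hd r).deriv.symm
    rw [h3]
    exact hcs.deriv
  have := integral_Ioi_of_hasDerivAt_of_tendsto (a := (0 : ℝ)) (f := fun r : ℝ => g (r * e))
    (f' := fun r : ℝ => fderiv ℝ g (r * e) e) (m := 0)
    ((hd 0).continuousAt.continuousWithinAt) (fun r _ => hd r)
    (hcont.integrable_of_hasCompactSupport hcs').integrableOn ?_
  · rw [this]; simp
  · refine (tendsto_const_nhds (x := (0 : ℂ))).congr' ?_
    filter_upwards [Filter.eventually_gt_atTop (max R 0)] with r hr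
    symm
    apply hR
    rw [norm_mul, hnorm, mul_one, Complex.norm_real, Real.norm_eq_abs]
    exact lt_of_lt_of_le ((le_max_left _ _).trans_lt hr) (le_abs_self r)

/-- the angular part -/
lemma integral_angular (g : ℂ → ℂ) (hg : ContDiff ℝ 1 g) (r : ℝ) (hr : r ≠ 0) :
    ∫ θ in Ioo (-Real.pi) Real.pi, fderiv ℝ g (r * Complex.exp (θ * Complex.I))
      (Complex.I * Complex.exp (θ * Complex.I)) = 0 := by
  have hd : ∀ θ : ℝ, HasDerivAt (fun θ : ℝ => g (r * Complex.exp (θ * Complex.I)))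
      (fderiv ℝ g (r * Complex.exp (θ * Complex.I)) (r * (Complex.I * Complex.exp (θ * Complex.I)))) θ := by
    intro θ
    have h1 : HasDerivAt (fun θ : ℝ => (r : ℂ) * Complex.exp (θ * Complex.I))
        (r * (Complex.I * Complex.exp (θ * Complex.I))) θ := by
      have h0 : HasDerivAt (fun θ : ℝ => (θ : ℂ) * Complex.I) Complex.I θ := by
        simpa using (Complex.ofRealCLM.hasDerivAt (x := θ)).mul_const Complex.I
      have := (h0.cexp).const_mul (r : ℂ)
      rw [mul_comm Complex.I]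
      exact this
    have h2 : HasFDerivAt g (fderiv ℝ g (r * Complex.exp (θ * Complex.I)))
        (r * Complex.exp (θ * Complex.I)) :=
      (hg.differentiable (by norm_num) _).hasFDerivAt
    exact h2.comp_hasDerivAt θ h1
  have hcont : Continuous fun θ : ℝ => fderiv ℝ g (r * Complex.exp (θ * Complex.I))
      (r * (Complex.I * Complex.exp (θ * Complex.I))) := by
    have := hg.continuous_fderiv (by norm_num)
    fun_prop
  have h3 := intervalIntegral.integral_eq_sub_of_hasDerivAt (a := -Real.pi) (b := Real.pi)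
    (fun θ _ => hd θ) (hcont.intervalIntegrable _ _)
  have h4 : Complex.exp (((Real.pi : ℝ) : ℂ) * Complex.I)
      = Complex.exp (((-Real.pi : ℝ) : ℂ) * Complex.I) := by
    push_cast
    rw [Complex.exp_pi_mul_I, neg_mul, Complex.exp_neg, Complex.exp_pi_mul_I]
    norm_num
  rw [h4, sub_self, intervalIntegral.integral_of_le (by linarith [Real.pi_pos]),
    integral_Ioc_eq_integral_Ioo] at h3
  have h5 : ∀ θ : ℝ, fderiv ℝ g (r * Complex.exp (θ * Complex.I))
      (r * (Complex.I * Complex.exp (θ * Complex.I)))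
      = r • fderiv ℝ g (r * Complex.exp (θ * Complex.I)) (Complex.I * Complex.exp (θ * Complex.I)) := by
    intro θ
    rw [← map_smul]
    congr 1
  simp only [h5] at h3
  rw [integral_smul] at h3
  exact (smul_eq_zero.mp h3).resolve_left hr

/-- directional form of dbar -/
lemma dbar_dir (g : ℂ → ℂ) (z : ℂ) (θ : ℝ) :
    dbar g z * Complex.exp (-(θ * Complex.I)) = (1 / 2 : ℂ) *
      (fderiv ℝ g z (Complex.exp (θ * Complex.I)) +
        Complex.I * fderiv ℝ g z (Complex.I * Complex.exp (θ * Complex.I))) := by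
  set L := fderiv ℝ g z
  have hL : ∀ a b : ℝ, L ((a : ℂ) + b * Complex.I) = a * L 1 + b * L Complex.I := by
    intro a b
    have e : (a : ℂ) + b * Complex.I = a • (1 : ℂ) + b • Complex.I := by
      simp
    rw [e, map_add, map_smul, map_smul]
    simp
  have e1 : Complex.exp (θ * Complex.I) = (Real.cos θ : ℂ) + (Real.sin θ : ℝ) * Complex.I := by
    rw [Complex.exp_mul_I]; simp
  have e2 : Complex.I * Complex.exp (θ * Complex.I)
      = ((-Real.sin θ : ℝ) : ℂ) + (Real.cos θ : ℝ) * Complex.I := by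
    rw [e1]
    push_cast
    linear_combination (Complex.sin θ) * Complex.I_mul_I
  have e3 : Complex.exp (-(θ * Complex.I)) = (Real.cos θ : ℂ) - (Real.sin θ : ℝ) * Complex.I := by
    have : -((θ : ℂ) * Complex.I) = ((-θ : ℝ) : ℂ) * Complex.I := by push_cast; ring
    rw [this, Complex.exp_mul_I]
    simp
    ring
  rw [e2, hL, e1, hL, e3]
  simp only [dbar]
  push_cast
  linear_combination ((-1 / 2 : ℂ) * Complex.sin θ * L 1 * 0 + (-1 / 2 : ℂ) * Complex.sin θ * (L Complex.I)) * Complex.I_mul_I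

/-- the fundamental solution identity at the origin -/
lemma integral_dbar_ker (g : ℂ → ℂ) (hg : ContDiff ℝ 1 g) (hgc : HasCompactSupport g) :
    ∫ z, ker z * dbar g z = -g 0 := by
  obtain ⟨R, hRpos, hR⟩ : ∃ R : ℝ, 0 < R ∧ ∀ z : ℂ, R < ‖z‖ → fderiv ℝ g z = 0 := by
    obtain ⟨R, hR⟩ := hgc.isCompact.isBounded.subset_closedBall (0 : ℂ)
    refine ⟨max R 1, by positivity, fun z hz => ?_⟩
    by_contra h
    have h1 : z ∈ tsupport g := support_fderiv_subset ℝ h
    have := hR h1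
    rw [mem_closedBall_zero_iff] at this
    have := le_max_left R 1
    linarith
  rw [← Complex.integral_comp_polarCoord_symm]
  have htgt : polarCoord.target = Ioi (0 : ℝ) ×ˢ Ioo (-Real.pi) Real.pi := rfl
  rw [htgt]
  let D : ℝ × ℝ → ℂ := fun p => fderiv ℝ g (p.1 * Complex.exp (p.2 * Complex.I))
    (Complex.exp (p.2 * Complex.I))
  let A : ℝ × ℝ → ℂ := fun p => fderiv ℝ g (p.1 * Complex.exp (p.2 * Complex.I))
    (Complex.I * Complex.exp (p.2 * Complex.I))
  have hgf := hg.continuous_fderiv (by norm_num)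
  have hDc : Continuous D := by simp only [D]; fun_prop
  have hAc : Continuous A := by simp only [A]; fun_prop
  have hint : ∀ F : ℝ × ℝ → ℂ, Continuous F → (∀ p : ℝ × ℝ, R < |p.1| → F p = 0) →
      IntegrableOn F (Ioi 0 ×ˢ Ioo (-Real.pi) Real.pi) (volume.prod volume) := by
    intro F hF hF0
    have h1 : IntegrableOn F (Icc (-R) R ×ˢ Icc (-Real.pi) Real.pi) (volume.prod volume) :=
      (hF.continuousOn).integrableOn_compact (isCompact_Icc.prod isCompact_Icc)
    have h2 : IntegrableOn F ((Ioi 0 \ Icc (-R) R) ×ˢ Ioo (-Real.pi) Real.pi)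
        (volume.prod volume) := by
      refine integrableOn_zero.congr_fun ?_ (by measurability)
      rintro ⟨r, θ⟩ ⟨⟨h3, h4⟩, -⟩
      symm
      apply hF0
      simp only [mem_Icc, not_and_or, not_le] at h4
      simp only [mem_Ioi] at h3
      rcases h4 with h4 | h4
      · linarith
      · exact lt_of_lt_of_le h4 (le_abs_self r)
    refine (h1.union h2).mono_set ?_
    rintro ⟨r, θ⟩ ⟨h3, h4⟩
    by_cases h5 : r ∈ Icc (-R) R
    · left; exact ⟨h5, Ioo_subset_Icc_self h4⟩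
    · right; exact ⟨⟨h3, h5⟩, h4⟩
  have hD0 : ∀ p : ℝ × ℝ, R < |p.1| → D p = 0 := by
    intro p hp
    simp only [D]
    rw [hR]
    · simp
    · rw [norm_mul, Complex.norm_exp_ofReal_mul_I, mul_one, Complex.norm_real]
      exact hp
  have hA0 : ∀ p : ℝ × ℝ, R < |p.1| → A p = 0 := by
    intro p hp
    simp only [A]
    rw [hR]
    · simp
    · rw [norm_mul, Complex.norm_exp_ofReal_mul_I, mul_one, Complex.norm_real]
      exact hp
  have hDi := hint D hDc hD0
  have hAi := hint A hAc hA0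
  have e1 : ∫ p in Ioi (0 : ℝ) ×ˢ Ioo (-Real.pi) Real.pi,
      p.1 • (ker (Complex.polarCoord.symm p) * dbar g (Complex.polarCoord.symm p))
      = ∫ p in Ioi (0 : ℝ) ×ˢ Ioo (-Real.pi) Real.pi,
        ((2 * Real.pi : ℝ) : ℂ)⁻¹ * (D p + Complex.I * A p) := by
    refine setIntegral_congr_fun (by measurability) ?_
    rintro ⟨r, θ⟩ ⟨hr, -⟩
    simp only [mem_Ioi] at hr
    have hpc : Complex.polarCoord.symm (r, θ) = r * Complex.exp (θ * Complex.I) := by
      rw [Complex.polarCoord_symm_apply, Complex.exp_mul_I]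
      simp
    simp only [hpc, D, A]
    have h1 := dbar_dir g (r * Complex.exp (θ * Complex.I)) θ
    rw [Complex.exp_neg] at h1
    have hr' : (r : ℂ) ≠ 0 := by exact_mod_cast hr.ne'
    have hπ : (Real.pi : ℂ) ≠ 0 := by exact_mod_cast Real.pi_ne_zero
    have hexp := Complex.exp_ne_zero (θ * Complex.I)
    have h2 : r • (ker (r * Complex.exp (θ * Complex.I)) * dbar g (r * Complex.exp (θ * Complex.I)))
        = (Real.pi : ℂ)⁻¹ * (dbar g (r * Complex.exp (θ * Complex.I)) * (Complex.exp (θ * Complex.I))⁻¹) := by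
      simp only [ker, Complex.real_smul]
      field_simp
    rw [h2, h1]
    push_cast
    field_simp
  rw [e1]
  have e2 : ∫ p in Ioi (0 : ℝ) ×ˢ Ioo (-Real.pi) Real.pi, D p = -((2 * Real.pi : ℝ) : ℂ) * g 0 := by
    rw [Measure.volume_eq_prod, ← setIntegral_prod_swap, setIntegral_prod]
    · simp only [Prod.swap, D]
      rw [setIntegral_congr_fun (g := fun _ => -g 0) measurableSet_Ioo
        (fun θ _ => integral_radial g hg hgc θ)]
      rw [setIntegral_const]
      simp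
      left
      rw [max_eq_left (by positivity)]
      push_cast
      ring
    · exact hDi.swap
  have e3 : ∫ p in Ioi (0 : ℝ) ×ˢ Ioo (-Real.pi) Real.pi, A p = 0 := by
    rw [Measure.volume_eq_prod, setIntegral_prod _ hAi]
    rw [setIntegral_congr_fun (g := fun _ => (0 : ℂ)) measurableSet_Ioi
        (fun r hr => integral_angular g hg r (ne_of_gt hr))]
    simp
  rw [integral_const_mul, integral_add, integral_const_mul, e2, e3]
  · have hπ : (Real.pi : ℂ) ≠ 0 := by exact_mod_cast Real.pi_ne_zero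
    push_cast
    field_simp
    ring
  · exact hDi
  · exact hAi.const_mul _

lemma continuous_dbar {g : ℂ → ℂ} (hg : ContDiff ℝ 1 g) : Continuous (dbar g) := by
  have := hg.continuous_fderiv (by norm_num)
  unfold dbar
  fun_prop

/-- solution of the d-bar equation with compactly supported data -/
lemma exists_solution (η : ℂ → ℂ) (hη : ContDiff ℝ 1 η) (hηc : HasCompactSupport η) :
    ∃ ψ : ℂ → ℂ, ContDiff ℝ 1 ψ ∧ (∀ z, dbar ψ z = η z) ∧
      ∀ z, ψ z = ∫ t, ker t * η (z - t) := by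
  let L := ContinuousLinearMap.mul ℝ ℂ
  let ψ : ℂ → ℂ := convolution ker η L volume
  have hψ : ContDiff ℝ 1 ψ := by
    have := hηc.contDiff_convolution_right (n := 1) L locallyIntegrable_ker (by exact_mod_cast hη)
    exact_mod_cast this
  have hψz : ∀ z, ψ z = ∫ t, ker t * η (z - t) := fun z => rfl
  refine ⟨ψ, hψ, fun z => ?_, hψz⟩
  have hd := hηc.hasFDerivAt_convolution_right L locallyIntegrable_ker hη z
  have hder : ∀ h : ℂ, fderiv ℝ ψ z h = ∫ t, ker t * fderiv ℝ η (z - t) h := by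
    intro h
    rw [hd.fderiv]
    have := convolution_precompR_apply (μ := volume) L locallyIntegrable_ker (hηc.fderiv ℝ)
      (hη.continuous_fderiv (by norm_num)) z h
    rw [this]
    rfl
  have hfc := hη.continuous_fderiv (by norm_num)
  have hint : ∀ h : ℂ, Integrable (fun t => ker t * fderiv ℝ η (z - t) h) := by
    intro h
    have hc : HasCompactSupport (fun t => fderiv ℝ η t h) := by
      have := (hηc.fderiv ℝ).comp_left (g := fun T : ℂ →L[ℝ] ℂ => T h) (by simp)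
      exact this
    have := hc.convolutionExists_right L locallyIntegrable_ker (by fun_prop : Continuous fun t => fderiv ℝ η t h) z
    exact this
  -- the shifted function
  let g : ℂ → ℂ := fun t => η (z - t)
  have hg : ContDiff ℝ 1 g := hη.comp (contDiff_const.sub contDiff_id)
  have hgc : HasCompactSupport g := by
    have := hηc.comp_homeomorph (Homeomorph.subLeft z)
    exact this
  have hgd : ∀ t h, fderiv ℝ g t h = -fderiv ℝ η (z - t) h := by
    intro t h
    have h1 : HasFDerivAt η (fderiv ℝ η (z - t)) (z - t) :=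
      (hη.differentiable (by norm_num) _).hasFDerivAt
    have h2 : HasFDerivAt (fun t : ℂ => z - t) (-ContinuousLinearMap.id ℝ ℂ) t := by
      simpa using (hasFDerivAt_id (𝕜 := ℝ) t).const_sub z
    have h3 : HasFDerivAt g ((fderiv ℝ η (z - t)).comp (-ContinuousLinearMap.id ℝ ℂ)) t :=
      h1.comp t h2
    rw [h3.fderiv]
    simp
  have hdbar : ∀ t, dbar g t = -dbar η (z - t) := by
    intro t
    simp only [dbar, hgd]
    ring
  have key := integral_dbar_ker g hg hgc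
  have e : dbar ψ z = ∫ t, ker t * dbar η (z - t) := by
    simp only [dbar]
    rw [hder, hder, ← integral_const_mul, ← integral_add (hint _) ((hint _).const_mul _),
      ← integral_const_mul]
    congr 1
    ext t
    ring
  rw [e]
  simp only [hdbar, mul_neg, integral_neg] at key
  have : g 0 = η z := by simp [g]
  rw [this] at key
  exact neg_injective key

/-- solving the d-bar equation on a compact set with uniform bounds -/
lemma solve {K : Set ℂ} (hK : IsCompact K) : ∃ C > (0 : ℝ), ∀ φ : ℂ → ℂ, ContDiff ℝ 1 φ →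
    ∀ M > (0 : ℝ), (∀ z ∈ K, ‖φ z‖ < M) → ∃ ψ : ℂ → ℂ, ContDiff ℝ 1 ψ ∧ (∀ z ∈ K, dbar ψ z = φ z) ∧
      ∀ z ∈ K, ‖ψ z‖ ≤ C * M := by
  obtain ⟨R, hR⟩ := hK.isBounded.subset_ball (0 : ℂ)
  have hCnn : (0 : ℝ) ≤ ∫ t in Metric.ball (0 : ℂ) (2 * R), ‖ker t‖ :=
    integral_nonneg fun _ => norm_nonneg _
  refine ⟨(∫ t in Metric.ball (0 : ℂ) (2 * R), ‖ker t‖) + 1, by positivity, ?_⟩
  intro φ hφ M hM hφM
  let U : Set ℂ := Metric.ball 0 R ∩ {z | ‖φ z‖ < M}
  have hU : IsOpen U := Metric.isOpen_ball.inter (isOpen_lt hφ.continuous.norm continuous_const)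
  obtain ⟨κ, hκ, hκr, hκ0, hκ1⟩ := exists_contMDiff_zero_iff_one_iff_of_isClosed
    (modelWithCornersSelf ℝ ℂ) (n := 1) (s := Uᶜ) (t := K) hU.isClosed_compl hK.isClosed (by
      rw [disjoint_comm, disjoint_compl_right_iff_subset]
      exact fun z hz => ⟨hR hz, hφM z hz⟩)
  have hκ' : ContDiff ℝ 1 κ := hκ.contDiff
  let η : ℂ → ℂ := fun z => (κ z : ℂ) * φ z
  have hη : ContDiff ℝ 1 η := by
    have : ContDiff ℝ 1 (fun z => ((κ z : ℝ) : ℂ)) := Complex.ofRealCLM.contDiff.comp hκ'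
    exact this.mul hφ
  have hη0 : ∀ z, z ∉ U → η z = 0 := by
    intro z hz
    have := (hκ0 z).mp hz
    simp [η, this]
  have hηc : HasCompactSupport η := by
    refine HasCompactSupport.intro (isCompact_closedBall (0 : ℂ) R) fun z hz => ?_
    exact hη0 z fun hzU => hz (Metric.ball_subset_closedBall hzU.1)
  have hηM : ∀ z, ‖η z‖ ≤ M := by
    intro z
    by_cases hz : z ∈ U
    · have h1 : κ z ∈ Icc (0 : ℝ) 1 := hκr (mem_range_self z)
      simp only [η, norm_mul, Complex.norm_real, Real.norm_eq_abs, abs_of_nonneg h1.1]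
      have h2 : ‖φ z‖ < M := hz.2
      nlinarith [h1.1, h1.2, norm_nonneg (φ z)]
    · rw [hη0 z hz]; simpa using hM.le
  obtain ⟨ψ, hψ, hψd, hψi⟩ := exists_solution η hη hηc
  refine ⟨ψ, hψ, fun z hz => ?_, fun z hz => ?_⟩
  · rw [hψd]
    simp [η, (hκ1 z).mp hz]
  · rw [hψi]
    have hzR : ‖z‖ < R := by simpa using hR hz
    have hsupp : ∀ t, t ∉ Metric.ball (0 : ℂ) (2 * R) → ker t * η (z - t) = 0 := by
      intro t ht
      rw [hη0 (z - t), mul_zero]
      intro hU'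
      apply ht
      have h1 : ‖z - t‖ < R := by simpa using hU'.1
      rw [mem_ball_zero_iff]
      calc ‖t‖ = ‖z - (z - t)‖ := by congr 1; ring
        _ ≤ ‖z‖ + ‖z - t‖ := norm_sub_le _ _
        _ < 2 * R := by linarith
    rw [← setIntegral_eq_integral_of_forall_compl_eq_zero hsupp]
    calc ‖∫ t in Metric.ball (0 : ℂ) (2 * R), ker t * η (z - t)‖
        ≤ ∫ t in Metric.ball (0 : ℂ) (2 * R), ‖ker t‖ * M := by
          refine norm_integral_le_of_norm_le ((integrableOn_ker _).norm.mul_const M) ?_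
          refine Filter.Eventually.of_forall fun t => ?_
          rw [norm_mul]
          exact mul_le_mul_of_nonneg_left (hηM _) (norm_nonneg _)
      _ = (∫ t in Metric.ball (0 : ℂ) (2 * R), ‖ker t‖) * M := by rw [integral_mul_const]
      _ ≤ _ := by
        refine mul_le_mul_of_nonneg_right (by linarith) hM.le

end Pool.Agent.H51.Carpet

end S_Cauchy

noncomputable section S_DB

open MeasureTheory Set Filter Topology
namespace Pool.H14.SR

/-- **(DB0)** `∂̄` on the plane: for `g : ℂ → ℂ` `C¹` with compact support there is a `C¹` function `u` with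
`∂̄u = g`: `u(z) = (1/π) ∫ g(z-ζ)/ζ dA(ζ)` (Mathlib convolution of `g` with the locally integrable `1/(πζ)`);
`∂̄u(z) = (1/π)∫ (∂̄g)(z-ζ)/ζ dA(ζ) = g(z)` in polar coordinates. -/
theorem DB0 (g : ℂ → ℂ) (hg : ContDiff ℝ 1 g) (hc : HasCompactSupport g) :
    ∃ u : ℂ → ℂ, ContDiff ℝ 1 u ∧
      ∀ z, fderiv ℝ u z 1 + Complex.I * fderiv ℝ u z Complex.I = 2 * g z := by
  obtain ⟨u, hu, h, _⟩ := Pool.Agent.H51.Carpet.exists_solution g hg hc
  refine ⟨u, hu, fun z => ?_⟩
  rw [← h z, Pool.Agent.H51.Carpet.dbar]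
  ring

/-- the total derivative -/
theorem DB_hasFDerivAt {σ : ℝ} {G Gx Gy : ℝ × ℝ → ℂ} (h : C1 σ G Gx Gy) (p : ℝ × ℝ) (hp : -σ < p.2) :
    HasFDerivAt G ((ContinuousLinearMap.toSpanSingleton ℝ (Gx p)).coprod
      (ContinuousLinearMap.toSpanSingleton ℝ (Gy p))) p := by
  have hopen : IsOpen {p : ℝ × ℝ | -σ < p.2} := isOpen_lt continuous_const continuous_snd
  have hn : {p : ℝ × ℝ | -σ < p.2} ∈ 𝓝 p := hopen.mem_nhds hp
  have := hasStrictFDerivAt_uncurry_coprod (𝕜 := ℝ) (u := p) (f := fun x y => G (x, y))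
    (f₁ := fun x y => ContinuousLinearMap.toSpanSingleton ℝ (Gx (x, y)))
    (f₂ := fun x y => ContinuousLinearMap.toSpanSingleton ℝ (Gy (x, y)))
    (by
      filter_upwards [hn] with q hq
      exact (h.dx q hq).hasFDerivAt)
    (by
      filter_upwards [hn] with q hq
      exact (h.dy q hq).hasFDerivAt)
    (by
      have h1 : ContinuousAt Gx p := h.cx.continuousAt hn
      exact (ContinuousLinearMap.toSpanSingletonCLE (𝕜 := ℝ) (E := ℂ)).continuous.continuousAt.comp h1)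
    (by
      have h1 : ContinuousAt Gy p := h.cy.continuousAt hn
      exact (ContinuousLinearMap.toSpanSingletonCLE (𝕜 := ℝ) (E := ℂ)).continuous.continuousAt.comp h1)
  exact this.hasFDerivAt

theorem DB_coprod_cont {X : Type*} [TopologicalSpace X] {A B : X → ℂ} {s : Set X} (hA : ContinuousOn A s)
    (hB : ContinuousOn B s) :
    ContinuousOn (fun q => (ContinuousLinearMap.toSpanSingleton ℝ (A q)).coprod
      (ContinuousLinearMap.toSpanSingleton ℝ (B q))) s := by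
  have h1 : ContinuousOn (fun q => ContinuousLinearMap.smulRightL ℝ (ℝ × ℝ) ℂ
      (ContinuousLinearMap.fst ℝ ℝ ℝ) (A q)) s :=
    (ContinuousLinearMap.smulRightL ℝ (ℝ × ℝ) ℂ
      (ContinuousLinearMap.fst ℝ ℝ ℝ)).continuous.comp_continuousOn hA
  have h2 : ContinuousOn (fun q => ContinuousLinearMap.smulRightL ℝ (ℝ × ℝ) ℂ
      (ContinuousLinearMap.snd ℝ ℝ ℝ) (B q)) s :=
    (ContinuousLinearMap.smulRightL ℝ (ℝ × ℝ) ℂ
      (ContinuousLinearMap.snd ℝ ℝ ℝ)).continuous.comp_continuousOn hB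
  refine (h1.add h2).congr ?_
  intro q _
  apply ContinuousLinearMap.ext
  intro v
  simp [ContinuousLinearMap.smulRightL, ContinuousLinearMap.coprod_apply]

theorem DB_contDiffAt {σ : ℝ} {G Gx Gy : ℝ × ℝ → ℂ} (h : C1 σ G Gx Gy) (p : ℝ × ℝ) (hp : -σ < p.2) :
    ContDiffAt ℝ 1 G p := by
  have hopen : IsOpen {p : ℝ × ℝ | -σ < p.2} := isOpen_lt continuous_const continuous_snd
  have hn : {p : ℝ × ℝ | -σ < p.2} ∈ 𝓝 p := hopen.mem_nhds hp
  rw [contDiffAt_one_iff]
  exact ⟨fun q => (ContinuousLinearMap.toSpanSingleton ℝ (Gx q)).coprod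
      (ContinuousLinearMap.toSpanSingleton ℝ (Gy q)), _, hn, DB_coprod_cont h.cx h.cy,
      fun q hq => DB_hasFDerivAt h q hq⟩

/-- the function in the variable `ζ` -/
def DBc (G : ℝ × ℝ → ℂ) (ζ : ℂ) : ℂ := G (ζ.re, ζ.im)

theorem DBc_contDiffAt {σ : ℝ} {G Gx Gy : ℝ × ℝ → ℂ} (h : C1 σ G Gx Gy) (ζ : ℂ) (hp : -σ < ζ.im) :
    ContDiffAt ℝ 1 (DBc G) ζ := by
  have h1 : ContDiffAt ℝ 1 (fun ζ : ℂ => (ζ.re, ζ.im)) ζ := by
    have := Complex.equivRealProdCLM.contDiff (n := 1)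
    exact this.contDiffAt
  exact (DB_contDiffAt h (ζ.re, ζ.im) hp).comp ζ h1

theorem DB_per_nat {σ : ℝ} {G Gx Gy : ℝ × ℝ → ℂ} (h : C1 σ G Gx Gy) (n : ℕ) (p : ℝ × ℝ) (hp : -σ < p.2) :
    G (p.1 + n * (2 * Real.pi), p.2) = G p := by
  induction n with
  | zero => simp
  | succ n ih =>
    rw [← ih]
    have := h.per (p.1 + n * (2 * Real.pi), p.2) hp
    rw [← this]
    congr 2
    push_cast; ring

theorem DB_per_int {σ : ℝ} {G Gx Gy : ℝ × ℝ → ℂ} (h : C1 σ G Gx Gy) (n : ℤ) (p : ℝ × ℝ) (hp : -σ < p.2) :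
    G (p.1 + n * (2 * Real.pi), p.2) = G p := by
  obtain ⟨k, rfl | rfl⟩ := n.eq_nat_or_neg
  · exact DB_per_nat h k p hp
  · have := DB_per_nat h k (p.1 + ((-(k : ℤ) : ℤ) : ℝ) * (2 * Real.pi), p.2) hp
    rw [← this]
    congr 1
    ext
    · simp
    · rfl

theorem DBc_exp {σ : ℝ} {G Gx Gy : ℝ × ℝ → ℂ} (h : C1 σ G Gx Gy) (ζ ζ' : ℂ) (hζ : -σ < ζ.im)
    (he : Complex.exp (Complex.I * ζ) = Complex.exp (Complex.I * ζ')) : DBc G ζ = DBc G ζ' := by
  rw [Complex.exp_eq_exp_iff_exists_int] at he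
  obtain ⟨n, hn⟩ := he
  have h1 : ζ = ζ' + n * (2 * Real.pi) := by
    have hI : Complex.I ≠ 0 := Complex.I_ne_zero
    have : Complex.I * ζ = Complex.I * (ζ' + n * (2 * Real.pi)) := by rw [hn]; ring
    exact mul_left_cancel₀ hI this
  have hre : ζ.re = ζ'.re + n * (2 * Real.pi) := by
    rw [h1]; simp
  have him : ζ.im = ζ'.im := by
    rw [h1]; simp
  unfold DBc
  rw [hre, him]
  exact DB_per_int h n (ζ'.re, ζ'.im) (by rw [← him]; exact hζ)

/-- the cut-off -/
def DBθ (σ y : ℝ) : ℝ := Real.smoothTransition ((y + 3 * σ / 4) / (σ / 4))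

theorem DBθ_one {σ y : ℝ} (hσ : 0 < σ) (hy : -(σ / 2) ≤ y) : DBθ σ y = 1 := by
  unfold DBθ
  apply Real.smoothTransition.one_of_one_le
  rw [le_div_iff₀ (by positivity)]
  linarith

theorem DBθ_zero {σ y : ℝ} (hσ : 0 < σ) (hy : y ≤ -(3 * σ / 4)) : DBθ σ y = 0 := by
  unfold DBθ
  apply Real.smoothTransition.zero_of_nonpos
  apply div_nonpos_of_nonpos_of_nonneg <;> linarith

theorem DBθ_contDiff (σ : ℝ) : ContDiff ℝ 1 (DBθ σ) := by
  unfold DBθ
  exact Real.smoothTransition.contDiff.comp ((contDiff_id.add contDiff_const).div_const _)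

/-- the transplanted function -/
def DBg (σ : ℝ) (G : ℝ × ℝ → ℂ) (w : ℂ) : ℂ :=
  (DBθ σ (-Real.log ‖w‖) : ℂ) * DBc G (-Complex.I * Complex.log w) / (starRingEnd ℂ) (Complex.I * w)

theorem DB_log_im (w : ℂ) : (-Complex.I * Complex.log w).im = -Real.log ‖w‖ := by
  simp [Complex.log_re]

theorem DBg_zero_out {σ : ℝ} (hσ : 0 < σ) (G : ℝ × ℝ → ℂ) {w : ℂ} (hw : -Real.log ‖w‖ ≤ -(3 * σ / 4)) :
    DBg σ G w = 0 := by
  unfold DBg
  rw [DBθ_zero hσ hw]
  simp

theorem DBg_zero_in {σ Y : ℝ} {G : ℝ × ℝ → ℂ} (hY : ∀ p : ℝ × ℝ, Y ≤ p.2 → G p = 0) {w : ℂ}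
    (hw : ‖w‖ < Real.exp (-Y)) : DBg σ G w = 0 := by
  by_cases h0 : w = 0
  · subst h0; simp [DBg]
  · unfold DBg DBc
    rw [hY _ _]
    · simp
    · change Y ≤ (-Complex.I * Complex.log w).im
      rw [DB_log_im]
      have : Real.log ‖w‖ < -Y := by
        rw [Real.log_lt_iff_lt_exp (norm_pos_iff.2 h0)]; exact hw
      linarith


theorem DBg_contDiffAt_aux {σ : ℝ} {G Gx Gy : ℝ × ℝ → ℂ} (h : C1 σ G Gx Gy) (w₀ : ℂ)
    (hw0 : w₀ ≠ 0) (hσw : -σ < -Real.log ‖w₀‖) (L : ℂ → ℂ) (hL : ContDiffAt ℝ 1 L w₀)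
    (hexp : ∀ᶠ w in 𝓝 w₀, Complex.exp (L w) = w) : ContDiffAt ℝ 1 (DBg σ G) w₀ := by
  have hre : ∀ᶠ w in 𝓝 w₀, (-Complex.I * L w).im = -Real.log ‖w‖ := by
    filter_upwards [hexp] with w hw
    have : ‖w‖ = Real.exp (L w).re := by rw [← Complex.norm_exp, hw]
    rw [this, Real.log_exp]
    simp
  have h1 : ContDiffAt ℝ 1 (fun w => DBc G (-Complex.I * L w)) w₀ := by
    have h2 : ContDiffAt ℝ 1 (fun w => -Complex.I * L w) w₀ := contDiffAt_const.mul hL
    have h3 := DBc_contDiffAt h (-Complex.I * L w₀) (by rw [hre.self_of_nhds]; exact hσw)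
    exact ContDiffAt.comp (g := DBc G) w₀ h3 h2
  have h2 : ContDiffAt ℝ 1 (fun w : ℂ => ((DBθ σ (-Real.log ‖w‖) : ℝ) : ℂ)) w₀ := by
    have h3 : ContDiffAt ℝ 1 (fun w : ℂ => -Real.log ‖w‖) w₀ := by
      apply ContDiffAt.neg
      exact (contDiffAt_norm ℝ hw0).log (norm_ne_zero_iff.2 hw0)
    have h4 : ContDiffAt ℝ 1 (fun w : ℂ => DBθ σ (-Real.log ‖w‖)) w₀ :=
      (DBθ_contDiff σ).contDiffAt.comp w₀ h3
    exact Complex.ofRealCLM.contDiff.contDiffAt.comp w₀ h4
  have h3 : ContDiffAt ℝ 1 (fun w : ℂ => ((starRingEnd ℂ) (Complex.I * w))⁻¹) w₀ := by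
    apply ContDiffAt.inv
    · have h4 : ContDiffAt ℝ 1 (fun w : ℂ => Complex.I * w) w₀ := contDiffAt_const.mul contDiffAt_id
      exact Complex.conjCLE.contDiff.contDiffAt.comp w₀ h4
    · simp [hw0]
  have h4 : ContDiffAt ℝ 1 (fun w : ℂ => ((DBθ σ (-Real.log ‖w‖) : ℝ) : ℂ) * DBc G (-Complex.I * L w) *
      ((starRingEnd ℂ) (Complex.I * w))⁻¹) w₀ := (h2.mul h1).mul h3
  refine h4.congr_of_eventuallyEq ?_
  have hopen : ∀ᶠ w in 𝓝 w₀, -σ < -Real.log ‖w‖ := by
    have hc : ContinuousAt (fun w : ℂ => -Real.log ‖w‖) w₀ := by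
      apply ContinuousAt.neg
      exact (continuous_norm.continuousAt).log (norm_ne_zero_iff.2 hw0)
    exact hc.eventually (lt_mem_nhds hσw)
  filter_upwards [hexp, hre, hopen] with w e1 e2 e3
  unfold DBg
  rw [div_eq_mul_inv]
  congr 2
  have hwne : w ≠ 0 := by rw [← e1]; exact Complex.exp_ne_zero _
  symm
  apply DBc_exp h
  · rw [e2]; exact e3
  · have hh : ∀ z : ℂ, Complex.I * (-Complex.I * z) = z := by
      intro z
      have : Complex.I * (-Complex.I * z) = -(Complex.I * Complex.I) * z := by ring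
      rw [this, Complex.I_mul_I]; ring
    rw [hh, hh, e1, Complex.exp_log hwne]

theorem DBg_contDiff {σ : ℝ} (hσ : 0 < σ) {G Gx Gy : ℝ × ℝ → ℂ} (h : C1 σ G Gx Gy) {Y : ℝ}
    (hY : ∀ p : ℝ × ℝ, Y ≤ p.2 → G p = 0) : ContDiff ℝ 1 (DBg σ G) := by
  rw [contDiff_iff_contDiffAt]
  intro w₀
  by_cases hA : ‖w₀‖ < Real.exp (-Y)
  · have : ∀ᶠ w in 𝓝 w₀, ‖w‖ < Real.exp (-Y) := (continuous_norm.tendsto w₀).eventually (gt_mem_nhds hA)
    have h0 : (fun _ : ℂ => (0 : ℂ)) =ᶠ[𝓝 w₀] DBg σ G := by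
      filter_upwards [this] with w hw
      exact (DBg_zero_in hY hw).symm
    exact contDiffAt_const.congr_of_eventuallyEq h0.symm
  by_cases hB : Real.exp (3 * σ / 4) < ‖w₀‖
  · have : ∀ᶠ w in 𝓝 w₀, Real.exp (3 * σ / 4) < ‖w‖ :=
      (continuous_norm.tendsto w₀).eventually (lt_mem_nhds hB)
    have h0 : (fun _ : ℂ => (0 : ℂ)) =ᶠ[𝓝 w₀] DBg σ G := by
      filter_upwards [this] with w hw
      refine (DBg_zero_out hσ G ?_).symm
      have : 3 * σ / 4 < Real.log ‖w‖ := by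
        rw [Real.lt_log_iff_exp_lt ((Real.exp_pos _).trans hw)]; exact hw
      linarith
    exact contDiffAt_const.congr_of_eventuallyEq h0.symm
  push Not at hA hB
  have hpos : 0 < ‖w₀‖ := (Real.exp_pos _).trans_le hA
  have hw0 : w₀ ≠ 0 := norm_pos_iff.1 hpos
  have hσw : -σ < -Real.log ‖w₀‖ := by
    have : Real.log ‖w₀‖ ≤ 3 * σ / 4 := by
      rw [Real.log_le_iff_le_exp hpos]; exact hB
    linarith
  by_cases hs : w₀ ∈ Complex.slitPlane
  · refine DBg_contDiffAt_aux h w₀ hw0 hσw Complex.log ?_ ?_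
    · exact (Complex.contDiffAt_log (n := 1) hs).restrict_scalars ℝ
    · filter_upwards [isOpen_ne.mem_nhds hw0] with w hw
      exact Complex.exp_log hw
  · refine DBg_contDiffAt_aux h w₀ hw0 hσw (fun w => Complex.log (-w) + Real.pi * Complex.I) ?_ ?_
    · have hs' : -w₀ ∈ Complex.slitPlane := by
        rw [Complex.mem_slitPlane_iff] at hs ⊢
        push Not at hs
        left
        obtain ⟨a, b⟩ := hs
        rcases lt_or_eq_of_le a with a | a
        · simpa using a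
        · exact absurd (Complex.ext a b) hw0
      have h1 := (Complex.contDiffAt_log (n := 1) hs').restrict_scalars ℝ
      have h2 : ContDiffAt ℝ 1 (fun w : ℂ => -w) w₀ := contDiffAt_id.neg
      exact (h1.comp w₀ h2).add contDiffAt_const
    · filter_upwards [isOpen_ne.mem_nhds hw0] with w hw
      rw [Complex.exp_add, Complex.exp_log (neg_ne_zero.2 hw), Complex.exp_pi_mul_I]
      ring

theorem DBg_compact {σ : ℝ} (hσ : 0 < σ) (G : ℝ × ℝ → ℂ) : HasCompactSupport (DBg σ G) := by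
  apply HasCompactSupport.intro (isCompact_closedBall (0 : ℂ) (Real.exp (3 * σ / 4)))
  intro w hw
  rw [mem_closedBall_zero_iff, not_le] at hw
  refine DBg_zero_out hσ G ?_
  have : 3 * σ / 4 < Real.log ‖w‖ := by
    rw [Real.lt_log_iff_exp_lt ((Real.exp_pos _).trans hw)]; exact hw
  linarith

theorem DB_real_lin (D : ℂ →L[ℝ] ℂ) (v : ℂ) :
    D (Complex.I * v) + Complex.I * D (-v) =
      -Complex.I * (D 1 + Complex.I * D Complex.I) * (starRingEnd ℂ) v := by
  have h1 : ∀ z : ℂ, D z = z.re • D 1 + z.im • D Complex.I := by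
    intro z
    have : z = z.re • (1 : ℂ) + z.im • Complex.I := by
      simp [Complex.re_add_im]
    conv_lhs => rw [this]
    rw [map_add, map_smul, map_smul]
  rw [h1 (Complex.I * v), h1 (-v)]
  have h2 : (starRingEnd ℂ) v = (v.re : ℂ) - v.im * Complex.I := by
    apply Complex.ext <;> simp
  rw [h2]
  simp only [Complex.mul_re, Complex.I_re, Complex.I_im, Complex.mul_im, Complex.neg_re, Complex.neg_im,
    Complex.real_smul]
  push_cast
  generalize D 1 = a
  generalize D Complex.I = b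
  linear_combination (-(v.im : ℂ) * a + v.re * b - Complex.I * v.im * b) * Complex.I_sq

/-- **(DB)** Periodic `∂̄` problem on the half plane: `G` is `C¹`, periodic on `y > -σ`, zero for `y ≥ Y`.
There is `w₀`, `C¹` and periodic on `y > -σ/2`, bounded on `y ≥ 0`, with `∂̄w₀ = G` there.

Proof: in the variable `w = e^{iζ}`: `g(w) = θ(y) G(ζ)/conj(iw)`, where `θ` is smooth, `1` for `y > -σ/2`, `0` for
`y < -3σ/4`; `g` is well defined (periodicity) and `C¹` with compact support in an annulus (use local branches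
of the logarithm, `Complex.log w` on the slit plane and `log(-w) + iπ` near the negative axis); `DB0` gives `u`;
`w₀(ζ) = u(e^{iζ})`: `∂_{conj ζ} w₀ = (∂_{conj w}u) conj(iw)`. -/
theorem DB (σ : ℝ) (hσ : 0 < σ) (G Gx Gy : ℝ × ℝ → ℂ) (h : C1 σ G Gx Gy) (Y : ℝ)
    (hY : ∀ p : ℝ × ℝ, Y ≤ p.2 → G p = 0) :
    ∃ w wx wy : ℝ × ℝ → ℂ, C1 (σ / 2) w wx wy ∧
      (∀ p : ℝ × ℝ, -(σ / 2) < p.2 → wx p + Complex.I * wy p = 2 * G p) ∧
      ∃ B : ℝ, ∀ p : ℝ × ℝ, 0 ≤ p.2 → ‖w p‖ ≤ B := by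
  obtain ⟨u, hu, hdu⟩ := DB0 (DBg σ G) (DBg_contDiff hσ h hY) (DBg_compact hσ G)
  have hdiff : ∀ z, HasFDerivAt u (fderiv ℝ u z) z := fun z =>
    ((hu.differentiable (by norm_num)) z).hasFDerivAt
  have hcf : Continuous (fun z => fderiv ℝ u z) := hu.continuous_fderiv (by norm_num)
  refine ⟨fun p => u (E p), fun p => fderiv ℝ u (E p) (Complex.I * E p),
    fun p => fderiv ℝ u (E p) (-(E p)), ⟨?_, ?_, ?_, ?_, ?_, ?_⟩, ?_, ?_⟩
  · intro p _
    exact (hdiff (E p)).comp_hasDerivAt_of_eq p.1 (hasDerivAt_Ex p) rfl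
  · intro p _
    exact (hdiff (E p)).comp_hasDerivAt_of_eq p.2 (hasDerivAt_Ey p) rfl
  · exact (hu.continuous.comp continuous_E).continuousOn
  · exact ((hcf.comp continuous_E).clm_apply (continuous_const.mul continuous_E)).continuousOn
  · exact ((hcf.comp continuous_E).clm_apply continuous_E.neg).continuousOn
  · intro p _
    simp only [E_per]
  · intro p hp
    rw [DB_real_lin, hdu (E p)]
    have h1 : DBθ σ (-Real.log ‖E p‖) = 1 := by
      rw [norm_E, Real.log_exp, neg_neg]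
      exact DBθ_one hσ hp.le
    have h2 : DBc G (-Complex.I * Complex.log (E p)) = G p := by
      have : DBc G ((p.1 : ℂ) + p.2 * Complex.I) = G p := by simp [DBc]
      rw [← this]
      symm
      apply DBc_exp h
      · simp; linarith
      · have hh : ∀ z : ℂ, Complex.I * (-Complex.I * z) = z := by
          intro z
          have : Complex.I * (-Complex.I * z) = -(Complex.I * Complex.I) * z := by ring
          rw [this, Complex.I_mul_I]; ring
        rw [hh, Complex.exp_log (E_ne p)]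
        rfl
    unfold DBg
    rw [h1, h2]
    have h3 : (starRingEnd ℂ) (E p) ≠ 0 := by
      rw [Ne, map_eq_zero]; exact E_ne p
    rw [map_mul, Complex.conj_I]
    have hI : Complex.I ≠ 0 := Complex.I_ne_zero
    push_cast
    field_simp
  · have hc : ContinuousOn u (Metric.closedBall 0 1) := hu.continuous.continuousOn
    obtain ⟨B, hB⟩ := (isCompact_closedBall (0 : ℂ) 1).exists_bound_of_continuousOn hc
    exact ⟨B, fun p hp => hB _ (E_mem_closedBall hp)⟩

end Pool.H14.SR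

end S_DB

noncomputable section S_E5

open MeasureTheory Set Filter Topology
namespace Pool.H14.SR

theorem E5_per1 (g : ℝ → ENNReal) (hg : ∀ x, g (x + 2 * Real.pi) = g x) (a : ℝ) :
    ∫⁻ x in Set.Ioc a (a + 2 * Real.pi), g x = ∫⁻ x in Set.Ioc 0 (2 * Real.pi), g x := by
  have h0 : (0:ℝ) < 2 * Real.pi := by positivity
  have h1 := (isAddFundamentalDomain_Ioc h0 a volume).setLIntegral_eq
    (isAddFundamentalDomain_Ioc h0 0 volume) g (by
      rintro ⟨y, hy⟩ x
      obtain ⟨n, rfl⟩ := AddSubgroup.mem_zmultiples_iff.1 hy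
      have hp : Function.Periodic g (2 * Real.pi) := hg
      have := (hp.zsmul n) x
      rw [add_comm] at this
      exact this)
  rw [zero_add] at h1
  exact h1

/-- the periodic strip `x ∈ (0,2π]` -/
def E5_SS : Set (ℝ × ℝ) := Set.Ioc 0 (2 * Real.pi) ×ˢ (Set.univ : Set ℝ)

theorem E5_SS_meas : MeasurableSet E5_SS := measurableSet_Ioc.prod MeasurableSet.univ

theorem E5_int_SS (g : ℝ × ℝ → ENNReal) (hg : Measurable g) (a b : ℝ) :
    ∫⁻ p in Set.Ioc a b ×ˢ (Set.univ : Set ℝ), g p = ∫⁻ y, ∫⁻ x in Set.Ioc a b, g (x, y) := by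
  rw [Measure.volume_eq_prod, ← Measure.prod_restrict, Measure.restrict_univ,
    lintegral_prod_symm _ hg.aemeasurable]

theorem E5_per2 (g : ℝ × ℝ → ENNReal) (hm : Measurable g)
    (hg : ∀ p : ℝ × ℝ, g (p.1 + 2 * Real.pi, p.2) = g p) (u : ℝ × ℝ) :
    ∫⁻ p in E5_SS, g (p - u) = ∫⁻ p in E5_SS, g p := by
  unfold E5_SS
  have hm2 : Measurable (fun p : ℝ × ℝ => g (p - u)) := hm.comp (measurable_sub_const' u)
  rw [E5_int_SS _ hm, E5_int_SS _ hm2]
  have h1 : ∀ y : ℝ, ∫⁻ x in Set.Ioc 0 (2 * Real.pi), g ((x, y) - u)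
      = ∫⁻ x in Set.Ioc 0 (2 * Real.pi), g (x, y - u.2) := by
    intro y
    have e1 : ∫⁻ x in Set.Ioc 0 (2 * Real.pi), g ((x, y) - u)
        = ∫⁻ x in Set.Ioc (-u.1) (-u.1 + 2 * Real.pi), g (x, y - u.2) := by
      have hmp := measurePreserving_sub_right (volume : Measure ℝ) u.1
      have := hmp.setLIntegral_comp_emb (measurableEmbedding_subRight u.1)
        (fun x => g (x, y - u.2)) (Set.Ioc 0 (2 * Real.pi))
      have e2 : (fun x : ℝ => x - u.1) '' Set.Ioc 0 (2 * Real.pi) = Set.Ioc (-u.1) (-u.1 + 2 * Real.pi) := by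
        rw [Set.image_sub_const_Ioc]
        congr 1 <;> ring
      rw [e2] at this
      rw [← this]
      rfl
    rw [e1]
    exact E5_per1 (fun x => g (x, y - u.2)) (fun x => hg (x, y - u.2)) _
  simp_rw [h1]
  exact lintegral_sub_right_eq_self (μ := (volume : Measure ℝ))
    (fun y => ∫⁻ x in Set.Ioc 0 (2 * Real.pi), g (x, y)) u.2

theorem E5_unf (F : ℝ × ℝ → ℝ × ℝ → ENNReal) (hF : Measurable (Function.uncurry F))
    (hper : ∀ p q : ℝ × ℝ, F (p.1 + 2 * Real.pi, p.2) (q.1 + 2 * Real.pi, q.2) = F p q) :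
    ∫⁻ p in E5_SS, ∫⁻ q, F p q = ∫⁻ q in E5_SS, ∫⁻ p, F p q := by
  have hm1 : Measurable (fun r : (ℝ × ℝ) × (ℝ × ℝ) => F r.1 (r.1 + r.2)) :=
    hF.comp (measurable_fst.prodMk (measurable_fst.add measurable_snd))
  have hm2 : Measurable (fun r : (ℝ × ℝ) × (ℝ × ℝ) => F (r.1 - r.2) r.1) :=
    hF.comp ((measurable_fst.sub measurable_snd).prodMk measurable_fst)
  calc ∫⁻ p in E5_SS, ∫⁻ q, F p q
      = ∫⁻ p in E5_SS, ∫⁻ u, F p (p + u) := by
        refine lintegral_congr fun p => ?_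
        exact (lintegral_add_left_eq_self (μ := (volume : Measure (ℝ × ℝ))) (fun q => F p q) p).symm
    _ = ∫⁻ u, ∫⁻ p in E5_SS, F p (p + u) :=
        lintegral_lintegral_swap hm1.aemeasurable
    _ = ∫⁻ u, ∫⁻ p in E5_SS, F (p - u) p := by
        refine lintegral_congr fun u => ?_
        have hmu : Measurable (fun p : ℝ × ℝ => F p (p + u)) :=
          hF.comp (measurable_id.prodMk (measurable_id.add_const u))
        have := E5_per2 (fun p => F p (p + u)) hmu (fun p => by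
          have := hper p (p + u)
          rw [← this]
          congr 1
          ext
          · simp; ring
          · simp) u
        rw [← this]
        refine lintegral_congr fun p => ?_
        simp only [sub_add_cancel]
    _ = ∫⁻ p in E5_SS, ∫⁻ u, F (p - u) p :=
        (lintegral_lintegral_swap hm2.aemeasurable).symm
    _ = ∫⁻ q in E5_SS, ∫⁻ p, F p q := by
        refine lintegral_congr fun q => ?_
        exact lintegral_sub_left_eq_self (μ := (volume : Measure (ℝ × ℝ))) (fun p => F p q) q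

theorem E5_mv (k : ℂ → ℂ) (hk : DifferentiableOn ℂ k (Metric.ball 0 1)) (z : ℝ × ℝ) (r : ℝ)
    (hr : 0 < r) (hrz : r < z.2) :
    ENNReal.ofReal (2 * Real.pi) * ENNReal.ofReal (‖hp k z‖ ^ 2)
      ≤ ∫⁻ θ in Set.Ioo (-Real.pi) Real.pi,
          ENNReal.ofReal (‖hp k (z.1 + r * Real.cos θ, z.2 + r * Real.sin θ)‖ ^ 2) := by
  set c : ℂ := (z.1 : ℂ) + (z.2 : ℂ) * Complex.I with hc
  set g : ℂ → ℂ := fun w => (k (Complex.exp (Complex.I * w))) ^ 2 with hg
  have him : ∀ w ∈ Metric.closedBall c r, 0 < w.im := by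
    intro w hw
    have h1 : |(w - c).im| ≤ r := by
      refine (Complex.abs_im_le_norm _).trans ?_
      simpa [dist_eq_norm] using hw
    have h2 : (w - c).im = w.im - z.2 := by simp [hc]
    rw [h2] at h1
    have := (abs_le.1 h1).1
    linarith
  have hexp : ∀ w ∈ Metric.closedBall c r, Complex.exp (Complex.I * w) ∈ Metric.ball (0:ℂ) 1 := by
    intro w hw
    rw [mem_ball_zero_iff, Complex.norm_exp]
    have : (Complex.I * w).re = - w.im := by simp
    rw [this, ← Real.exp_zero]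
    exact Real.exp_lt_exp.2 (by linarith [him w hw])
  have hdiff : ∀ w ∈ Metric.closedBall c r, DifferentiableAt ℂ g w := by
    intro w hw
    have h1 : DifferentiableAt ℂ k (Complex.exp (Complex.I * w)) :=
      hk.differentiableAt (Metric.isOpen_ball.mem_nhds (hexp w hw))
    have h2 : DifferentiableAt ℂ (fun w : ℂ => Complex.exp (Complex.I * w)) w := by fun_prop
    exact (DifferentiableAt.comp w h1 h2).pow 2
  have hdc : DiffContOnCl ℂ g (Metric.ball c |r|) := by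
    rw [abs_of_pos hr]
    refine DifferentiableOn.diffContOnCl ?_
    rw [closure_ball c hr.ne']
    exact fun w hw => (hdiff w hw).differentiableWithinAt
  have hav := hdc.circleAverage
  rw [Real.circleAverage_eq_integral_add (-Real.pi)] at hav
  rw [intervalIntegral.integral_comp_add_right (fun θ ↦ g (circleMap c r θ))] at hav
  have e1 : (0:ℝ) + -Real.pi = -Real.pi := by ring
  have e2 : 2 * Real.pi + -Real.pi = Real.pi := by ring
  rw [e1, e2, intervalIntegral.integral_of_le (by linarith [Real.pi_pos])] at hav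
  have hgc : ‖g c‖ = ‖hp k z‖ ^ 2 := by
    simp only [hg, norm_pow, hp, E, hc]
  have hpi : (0:ℝ) < 2 * Real.pi := by positivity
  have h3 : (2 * Real.pi) * ‖hp k z‖ ^ 2 = ‖∫ θ in Set.Ioc (-Real.pi) Real.pi, g (circleMap c r θ)‖ := by
    rw [← hgc, ← hav, norm_smul, Real.norm_of_nonneg (by positivity), ← mul_assoc,
      mul_inv_cancel₀ hpi.ne', one_mul]
  rw [← ENNReal.ofReal_mul hpi.le, h3]
  rw [MeasureTheory.integral_Ioc_eq_integral_Ioo]
  rw [ofReal_norm]
  refine (enorm_integral_le_lintegral_enorm _).trans (le_of_eq ?_)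
  refine lintegral_congr fun θ => ?_
  rw [← ofReal_norm]
  congr 1
  simp only [hg, norm_pow, hp, E]
  congr 3
  congr 1
  simp only [circleMap, hc]
  rw [Complex.exp_mul_I]
  push_cast
  ring

theorem E5_disc (k : ℂ → ℂ) (hk : DifferentiableOn ℂ k (Metric.ball 0 1)) (z : ℝ × ℝ)
    (hz : 0 < z.2) (f : ℝ × ℝ → ENNReal)
    (hf : ∀ p : ℝ × ℝ, (p.1 - z.1) ^ 2 + (p.2 - z.2) ^ 2 ≤ (z.2 / 2) ^ 2 →
      ENNReal.ofReal (‖hp k p‖ ^ 2) ≤ f p) (hfm : Measurable f) :
    ENNReal.ofReal (Real.pi * z.2 ^ 2 / 4 * ‖hp k z‖ ^ 2) ≤ ∫⁻ p, f p := by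
  have h1 : ∫⁻ p, f p = ∫⁻ p, f (p + z) :=
    (lintegral_add_right_eq_self (μ := (volume : Measure (ℝ × ℝ))) f z).symm
  rw [h1, ← lintegral_comp_polarCoord_symm]
  have hsub : Set.Ioo (0:ℝ) (z.2 / 2) ×ˢ Set.Ioo (-Real.pi) Real.pi ⊆ polarCoord.target := by
    rw [polarCoord_target]
    exact Set.prod_mono (fun x hx => hx.1) le_rfl
  refine le_trans ?_ (lintegral_mono_set hsub)
  have hmeas : Measurable (fun p : ℝ × ℝ => ENNReal.ofReal p.1 • f (polarCoord.symm p + z)) := by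
    have : Measurable (fun p : ℝ × ℝ => polarCoord.symm p) := by
      simp only [polarCoord_symm_apply]
      fun_prop
    have h2 : Measurable (fun p : ℝ × ℝ => f (polarCoord.symm p + z)) :=
      hfm.comp (this.add_const z)
    exact (ENNReal.measurable_ofReal.comp measurable_fst).smul h2
  rw [Measure.volume_eq_prod, ← Measure.prod_restrict, lintegral_prod _ hmeas.aemeasurable]
  calc ENNReal.ofReal (Real.pi * z.2 ^ 2 / 4 * ‖hp k z‖ ^ 2)
      = ∫⁻ r in Set.Ioo (0:ℝ) (z.2 / 2), ENNReal.ofReal r *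
          (ENNReal.ofReal (2 * Real.pi) * ENNReal.ofReal (‖hp k z‖ ^ 2)) := by
        have hm : Measurable (fun r : ℝ => ENNReal.ofReal r) := ENNReal.measurable_ofReal
        rw [lintegral_mul_const _ hm]
        have h3 : ∫⁻ r in Set.Ioo (0:ℝ) (z.2 / 2), ENNReal.ofReal r
            = ENNReal.ofReal (∫ r in Set.Ioo (0:ℝ) (z.2 / 2), r) := by
          rw [ofReal_integral_eq_lintegral_ofReal]
          · exact ((continuous_id.integrableOn_Icc).mono_set Set.Ioo_subset_Icc_self)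
          · refine (ae_restrict_iff' measurableSet_Ioo).2 (Filter.Eventually.of_forall fun r hr => ?_)
            exact hr.1.le
        have h4 : ∫ r in Set.Ioo (0:ℝ) (z.2 / 2), r = (z.2 / 2) ^ 2 / 2 := by
          rw [← MeasureTheory.integral_Ioc_eq_integral_Ioo,
            ← intervalIntegral.integral_of_le (by positivity), integral_id]
          ring
        rw [h3, h4, ← ENNReal.ofReal_mul (by positivity), ← ENNReal.ofReal_mul (by positivity)]
        congr 1
        ring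
    _ ≤ ∫⁻ r in Set.Ioo (0:ℝ) (z.2 / 2), ∫⁻ θ in Set.Ioo (-Real.pi) Real.pi,
          ENNReal.ofReal r • f (polarCoord.symm (r, θ) + z) := by
        refine setLIntegral_mono' measurableSet_Ioo fun r hr => ?_
        have h5 : ∫⁻ θ in Set.Ioo (-Real.pi) Real.pi,
            ENNReal.ofReal r • f (polarCoord.symm (r, θ) + z)
            = ENNReal.ofReal r * ∫⁻ θ in Set.Ioo (-Real.pi) Real.pi,
              f (polarCoord.symm (r, θ) + z) := by
          simp_rw [smul_eq_mul]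
          rw [lintegral_const_mul' _ _ ENNReal.ofReal_ne_top]
        rw [h5]
        gcongr
        refine (E5_mv k hk z r hr.1 (by linarith [hr.2])).trans ?_
        refine lintegral_mono fun θ => ?_
        have h6 : polarCoord.symm (r, θ) + z = (z.1 + r * Real.cos θ, z.2 + r * Real.sin θ) := by
          rw [polarCoord_symm_apply]
          ext
          · simp; ring
          · simp; ring
        rw [h6]
        apply hf
        have h7 : (z.1 + r * Real.cos θ - z.1) ^ 2 + (z.2 + r * Real.sin θ - z.2) ^ 2 = r ^ 2 := by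
          have := Real.sin_sq_add_cos_sq θ
          nlinarith
        show (z.1 + r * Real.cos θ - z.1) ^ 2 + (z.2 + r * Real.sin θ - z.2) ^ 2 ≤ (z.2 / 2) ^ 2
        rw [h7]
        exact pow_le_pow_left₀ hr.1.le hr.2.le 2

/-- `|k|²` on the half plane, zero elsewhere. -/
def E5_K (k : ℂ → ℂ) : ℝ × ℝ → ENNReal :=
  HP.indicator (fun p => ENNReal.ofReal (‖hp k p‖ ^ 2))

theorem E5_HP_meas : MeasurableSet HP := measurableSet_lt measurable_const measurable_snd

theorem E5_K_meas (k : ℂ → ℂ) (hk : DifferentiableOn ℂ k (Metric.ball 0 1)) :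
    Measurable (E5_K k) := by
  classical
  have h1 : ContinuousOn (fun p => ENNReal.ofReal (‖hp k p‖ ^ 2)) HP := by
    have h2 : ContinuousOn (hp k) HP :=
      hk.continuousOn.comp continuous_E.continuousOn (fun p hp => E_mem_ball_one hp)
    exact ENNReal.continuous_ofReal.comp_continuousOn (h2.norm.pow 2)
  have h3 := h1.measurable_piecewise (g := fun _ => (0:ENNReal)) continuousOn_const E5_HP_meas
  unfold E5_K
  rw [← Set.piecewise_eq_indicator]
  exact h3

theorem E5_P2_smul {U Ux Uxx Uy Uyy : ℝ × ℝ → ℝ} {σ : ℝ} (h : P2 σ U Ux Uxx Uy Uyy) (c : ℝ) :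
    P2 σ (fun p => c * U p) (fun p => c * Ux p) (fun p => c * Uxx p) (fun p => c * Uy p)
      (fun p => c * Uyy p) where
  dx := fun p hp => (h.dx p hp).const_mul c
  dxx := fun p hp => (h.dxx p hp).const_mul c
  dy := fun p hp => (h.dy p hp).const_mul c
  dyy := fun p hp => (h.dyy p hp).const_mul c
  c := continuousOn_const.mul h.c
  cx := continuousOn_const.mul h.cx
  cxx := continuousOn_const.mul h.cxx
  cy := continuousOn_const.mul h.cy
  cyy := continuousOn_const.mul h.cyy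
  per := fun p hp => by rw [h.per p hp]

theorem E5_ST_meas : MeasurableSet ST :=
  (measurableSet_Ioc.preimage measurable_fst).inter E5_HP_meas

/-- (E5) for `ε > 0`. -/
theorem E5_pos (M : ℝ × ℝ → ℝ) (hM : Measurable M) (B Y : ℝ) (hM0 : ∀ p, 0 ≤ M p) (hMB : ∀ p, M p ≤ B)
    (hMY : ∀ p : ℝ × ℝ, Y ≤ p.2 → M p = 0)
    (hper : ∀ p : ℝ × ℝ, M (p.1 + 2 * Real.pi, p.2) = M p) (ε : ℝ) (hε : 0 < ε)
    (hS : ∀ z : ℝ × ℝ, 0 < z.2 →
      ∫⁻ p in HP, ENNReal.ofReal (M p * qk z p) ≤ ENNReal.ofReal ε)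
    (k : ℂ → ℂ) (hkc : ContinuousOn k (Metric.closedBall 0 1))
    (hk : DifferentiableOn ℂ k (Metric.ball 0 1)) :
    ∫⁻ p in ST, ENNReal.ofReal (M p * ‖hp k p‖ ^ 2)
      ≤ ENNReal.ofReal (18 * ε * ∫ x in Set.Ioc 0 (2 * Real.pi), ‖k (E (x, 0))‖ ^ 2) := by
  obtain ⟨Sx, Sxx, Sy, Syy, hP, hE⟩ := E5a M hM B Y hM0 hMB hMY hper
  set S : ℝ × ℝ → ℝ := fun z => ∫ p in HP, M p * qk z p with hSdef
  set G : ℝ × ℝ → ℝ := fun z => ∫ p in HP, M p * (16 * p.2 / ((p.1 - z.1) ^ 2 + (p.2 + z.2) ^ 2) ^ 2)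
    with hGdef
  set J : ℝ := ∫ x in Set.Ioc 0 (2 * Real.pi), ‖k (E (x, 0))‖ ^ 2 with hJ
  have hJ0 : 0 ≤ J := integral_nonneg fun x => by positivity
  have hqk : ∀ z p : ℝ × ℝ, 0 < z.2 → 0 ≤ qk z p := by
    intro z p hz
    unfold qk
    positivity
  have hS0 : ∀ z : ℝ × ℝ, 0 < z.2 → 0 ≤ S z := fun z hz =>
    integral_nonneg fun p => mul_nonneg (hM0 p) (hqk z p hz)
  have hS1 : ∀ z : ℝ × ℝ, 0 < z.2 → S z ≤ ε := by
    intro z hz
    have h1 := hS z hz
    rw [← ofReal_integral_eq_lintegral_ofReal (hE z hz).1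
      (Filter.Eventually.of_forall fun p => mul_nonneg (hM0 p) (hqk z p hz))] at h1
    exact (ENNReal.ofReal_le_ofReal_iff hε.le).1 h1
  have hG0 : ∀ z : ℝ × ℝ, 0 ≤ G z := by
    intro z
    refine setIntegral_nonneg E5_HP_meas fun p hp => mul_nonneg (hM0 p) ?_
    have : 0 < p.2 := hp
    positivity
  have hLap : ∀ z : ℝ × ℝ, 0 < z.2 → Sxx z + Syy z = -G z := fun z hz => (hE z hz).2.2
  -- Uchiyama
  have hU := Uch (fun p => ε⁻¹ * S p) _ _ _ _ (E5_P2_smul hP ε⁻¹)
    (fun p hp => mul_nonneg (inv_nonneg.2 hε.le) (hS0 p hp))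
    (fun p hp => by
      rw [← mul_add, hLap p hp]
      have := mul_nonneg (inv_nonneg.2 hε.le) (hG0 p)
      linarith) k hkc hk
  have hU2 : ∫⁻ p in ST, ENNReal.ofReal (G p * ‖hp k p‖ ^ 2 * p.2)
      ≤ ENNReal.ofReal (ε * Real.exp 1 * J) := by
    have e1 : ENNReal.ofReal (ε * Real.exp 1 * J) = ENNReal.ofReal (ε * Real.exp 1) * ENNReal.ofReal J :=
      ENNReal.ofReal_mul (by positivity)
    rw [e1]
    refine le_trans ?_ (mul_le_mul_right hU _)
    rw [← lintegral_const_mul' _ _ ENNReal.ofReal_ne_top]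
    refine setLIntegral_mono' E5_ST_meas fun p hpS => ?_
    have hp2 : 0 < p.2 := hpS.2
    rw [← ENNReal.ofReal_mul (by positivity)]
    apply ENNReal.ofReal_le_ofReal
    rw [← mul_add, hLap p hp2]
    have h1 : Real.exp (-1) ≤ Real.exp (-(ε⁻¹ * S p)) := by
      apply Real.exp_le_exp.2
      have : ε⁻¹ * S p ≤ 1 := by
        rw [inv_mul_le_iff₀ hε]
        linarith [hS1 p hp2]
      linarith
    have h2 : (1:ℝ) ≤ Real.exp 1 * Real.exp (-(ε⁻¹ * S p)) := by
      calc (1:ℝ) = Real.exp 1 * Real.exp (-1) := by rw [← Real.exp_add]; simp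
        _ ≤ _ := mul_le_mul_of_nonneg_left h1 (Real.exp_pos _).le
    have h3 : 0 ≤ G p * ‖hp k p‖ ^ 2 * p.2 := by
      have := hG0 p
      positivity
    calc G p * ‖hp k p‖ ^ 2 * p.2 = (G p * ‖hp k p‖ ^ 2 * p.2) * 1 := by ring
      _ ≤ (G p * ‖hp k p‖ ^ 2 * p.2) * (Real.exp 1 * Real.exp (-(ε⁻¹ * S p))) :=
        mul_le_mul_of_nonneg_left h2 h3
      _ = ε * Real.exp 1 * (-(ε⁻¹ * -G p) * Real.exp (-(ε⁻¹ * S p)) * ‖hp k p‖ ^ 2 * p.2) := by
        field_simp
  -- the kernel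
  have hKm := E5_K_meas k hk
  set A : Set ((ℝ × ℝ) × (ℝ × ℝ)) :=
    {r | 0 < r.1.2 ∧ (r.2.1 - r.1.1) ^ 2 + (r.2.2 - r.1.2) ^ 2 ≤ (r.1.2 / 2) ^ 2} with hA
  have hAm : MeasurableSet A := by
    have h1 : MeasurableSet {r : (ℝ × ℝ) × (ℝ × ℝ) | 0 < r.1.2} :=
      measurableSet_lt measurable_const (measurable_snd.comp measurable_fst)
    have h2 : MeasurableSet {r : (ℝ × ℝ) × (ℝ × ℝ) |
        (r.2.1 - r.1.1) ^ 2 + (r.2.2 - r.1.2) ^ 2 ≤ (r.1.2 / 2) ^ 2} :=
      measurableSet_le (by fun_prop) (by fun_prop)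
    exact h1.inter h2
  set F : ℝ × ℝ → ℝ × ℝ → ENNReal := fun p q =>
    A.indicator (fun r => ENNReal.ofReal (4 / (Real.pi * r.1.2 ^ 2) * M r.1) * E5_K k r.2) (p, q) with hF
  have hFm : Measurable (Function.uncurry F) := by
    have : Function.uncurry F = A.indicator (fun r => ENNReal.ofReal (4 / (Real.pi * r.1.2 ^ 2) * M r.1)
        * E5_K k r.2) := by
      ext ⟨p, q⟩
      rfl
    rw [this]
    refine Measurable.indicator ?_ hAm
    have h1 : Measurable (fun r : (ℝ × ℝ) × (ℝ × ℝ) => 4 / (Real.pi * r.1.2 ^ 2) * M r.1) := by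
      fun_prop
    exact (ENNReal.measurable_ofReal.comp h1).mul (hKm.comp measurable_snd)
  have hKper : ∀ q : ℝ × ℝ, E5_K k (q.1 + 2 * Real.pi, q.2) = E5_K k q := by
    intro q
    unfold E5_K
    by_cases h : q ∈ HP
    · have h' : (q.1 + 2 * Real.pi, q.2) ∈ HP := h
      rw [Set.indicator_of_mem h, Set.indicator_of_mem h', hp_per]
    · have h' : (q.1 + 2 * Real.pi, q.2) ∉ HP := h
      rw [Set.indicator_of_notMem h, Set.indicator_of_notMem h']
  have hFper : ∀ p q : ℝ × ℝ, F (p.1 + 2 * Real.pi, p.2) (q.1 + 2 * Real.pi, q.2) = F p q := by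
    intro p q
    simp only [hF]
    have hiff : ((p.1 + 2 * Real.pi, p.2), (q.1 + 2 * Real.pi, q.2)) ∈ A ↔ (p, q) ∈ A := by
      simp only [hA, Set.mem_ofPred_eq]
      have : q.1 + 2 * Real.pi - (p.1 + 2 * Real.pi) = q.1 - p.1 := by ring
      rw [this]
    by_cases h : (p, q) ∈ A
    · rw [Set.indicator_of_mem h, Set.indicator_of_mem (hiff.2 h)]
      simp only
      rw [hper p, hKper q]
    · rw [Set.indicator_of_notMem h, Set.indicator_of_notMem (fun h' => h (hiff.1 h'))]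
  have hunf := E5_unf F hFm hFper
  -- lower bound
  have hlow : ∫⁻ p in ST, ENNReal.ofReal (M p * ‖hp k p‖ ^ 2) ≤ ∫⁻ p in E5_SS, ∫⁻ q, F p q := by
    have hsub : ST ⊆ E5_SS := fun p hp => ⟨hp.1, trivial⟩
    refine le_trans ?_ (lintegral_mono_set hsub)
    refine setLIntegral_mono' E5_ST_meas fun p hpS => ?_
    have hp2 : 0 < p.2 := hpS.2
    have hdisc := E5_disc k hk p hp2 (fun q => {q : ℝ × ℝ | (p, q) ∈ A}.indicator (E5_K k) q) (by
      intro q hq
      have hqA : (p, q) ∈ A := ⟨hp2, hq⟩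
      have hqH : q ∈ HP := by
        show 0 < q.2
        have h1 : (q.2 - p.2) ^ 2 ≤ (p.2 / 2) ^ 2 := by nlinarith [sq_nonneg (q.1 - p.1)]
        have h2 := abs_le_of_sq_le_sq h1 (by positivity)
        linarith [(abs_le.1 h2).1]
      rw [Set.indicator_of_mem (show q ∈ {q : ℝ × ℝ | (p, q) ∈ A} from hqA)]
      unfold E5_K
      rw [Set.indicator_of_mem hqH]) (hKm.indicator (measurable_prodMk_left hAm))
    have hFeq : ∀ q, F p q = ENNReal.ofReal (4 / (Real.pi * p.2 ^ 2) * M p) *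
        {q : ℝ × ℝ | (p, q) ∈ A}.indicator (E5_K k) q := by
      intro q
      simp only [hF]
      by_cases h : (p, q) ∈ A
      · rw [Set.indicator_of_mem h, Set.indicator_of_mem (show q ∈ {q : ℝ × ℝ | (p, q) ∈ A} from h)]
      · rw [Set.indicator_of_notMem h, Set.indicator_of_notMem (show q ∉ {q : ℝ × ℝ | (p, q) ∈ A} from h),
          mul_zero]
    simp_rw [hFeq]
    rw [lintegral_const_mul' _ _ ENNReal.ofReal_ne_top]
    refine le_trans ?_ (mul_le_mul_right hdisc _)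
    rw [← ENNReal.ofReal_mul (mul_nonneg (by positivity) (hM0 p))]
    apply ENNReal.ofReal_le_ofReal
    apply le_of_eq
    field_simp
  -- upper bound
  have hup : ∫⁻ q in E5_SS, ∫⁻ p, F p q ≤
      ENNReal.ofReal 6.4 * ∫⁻ p in ST, ENNReal.ofReal (G p * ‖hp k p‖ ^ 2 * p.2) := by
    rw [← lintegral_const_mul' _ _ ENNReal.ofReal_ne_top]
    have hST : ST = HP ∩ E5_SS := by
      ext p
      simp only [ST, E5_SS, HP, Set.mem_ofPred_eq, Set.mem_inter_iff, Set.mem_prod, Set.mem_univ, and_true]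
      exact and_comm
    rw [hST, ← setLIntegral_indicator E5_HP_meas]
    refine lintegral_mono fun q => ?_
    by_cases hq : q ∈ HP
    · rw [Set.indicator_of_mem hq]
      have hq2 : 0 < q.2 := hq
      have hFle : ∀ p, F p q ≤ HP.indicator (fun p : ℝ × ℝ => ENNReal.ofReal
          (6.4 * q.2 * ‖hp k q‖ ^ 2 * (M p * (16 * p.2 / ((p.1 - q.1) ^ 2 + (p.2 + q.2) ^ 2) ^ 2)))) p := by
        intro p
        simp only [hF]
        by_cases h : (p, q) ∈ A
        · rw [Set.indicator_of_mem h]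
          have hp2 : 0 < p.2 := h.1
          have hd : (q.1 - p.1) ^ 2 + (q.2 - p.2) ^ 2 ≤ (p.2 / 2) ^ 2 := h.2
          rw [Set.indicator_of_mem (show p ∈ HP from hp2)]
          simp only
          unfold E5_K
          rw [Set.indicator_of_mem hq, ← ENNReal.ofReal_mul (mul_nonneg (by positivity) (hM0 p))]
          apply ENNReal.ofReal_le_ofReal
          have hy1 : p.2 / 2 ≤ q.2 := by
            have h1 : (q.2 - p.2) ^ 2 ≤ (p.2 / 2) ^ 2 := by nlinarith [sq_nonneg (q.1 - p.1)]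
            have h2 := abs_le_of_sq_le_sq h1 (by positivity)
            linarith [(abs_le.1 h2).1]
          have hy2 : q.2 ≤ 3 / 2 * p.2 := by
            have h1 : (q.2 - p.2) ^ 2 ≤ (p.2 / 2) ^ 2 := by nlinarith [sq_nonneg (q.1 - p.1)]
            have h2 := abs_le_of_sq_le_sq h1 (by positivity)
            linarith [(abs_le.1 h2).2]
          have hD : (p.1 - q.1) ^ 2 + (p.2 + q.2) ^ 2 ≤ 25 / 4 * p.2 ^ 2 := by
            nlinarith [sq_nonneg (q.1 - p.1)]
          have hD0 : 0 < (p.1 - q.1) ^ 2 + (p.2 + q.2) ^ 2 := by positivity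
          have hD2 : ((p.1 - q.1) ^ 2 + (p.2 + q.2) ^ 2) ^ 2 ≤ 625 / 16 * p.2 ^ 4 := by
            calc ((p.1 - q.1) ^ 2 + (p.2 + q.2) ^ 2) ^ 2 ≤ (25 / 4 * p.2 ^ 2) ^ 2 :=
                  pow_le_pow_left₀ hD0.le hD 2
              _ = _ := by ring
          have hkey : 4 / (Real.pi * p.2 ^ 2) ≤
              6.4 * q.2 * (16 * p.2 / ((p.1 - q.1) ^ 2 + (p.2 + q.2) ^ 2) ^ 2) := by
            calc 4 / (Real.pi * p.2 ^ 2) ≤ 4 / (3.125 * p.2 ^ 2) := by
                  apply div_le_div_of_nonneg_left (by norm_num) (by positivity)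
                  have := Real.pi_gt_d2
                  have : (3.125:ℝ) ≤ Real.pi := by linarith
                  exact mul_le_mul_of_nonneg_right this (by positivity)
              _ ≤ 6.4 * (p.2 / 2) * (16 * p.2 / (625 / 16 * p.2 ^ 4)) := by
                  apply le_of_sub_nonneg
                  have : 6.4 * (p.2 / 2) * (16 * p.2 / (625 / 16 * p.2 ^ 4)) - 4 / (3.125 * p.2 ^ 2)
                      = (0.0307 + 0.00002) / p.2 ^ 2 := by
                    field_simp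
                    norm_num
                  rw [this]
                  positivity
              _ ≤ _ := by
                  gcongr
          calc 4 / (Real.pi * p.2 ^ 2) * M p * ‖hp k q‖ ^ 2
              ≤ 6.4 * q.2 * (16 * p.2 / ((p.1 - q.1) ^ 2 + (p.2 + q.2) ^ 2) ^ 2) * M p * ‖hp k q‖ ^ 2 := by
                have := hM0 p
                gcongr
            _ = _ := by ring
        · rw [Set.indicator_of_notMem h]
          exact bot_le
      refine (lintegral_mono hFle).trans ?_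
      rw [lintegral_indicator E5_HP_meas]
      have h0 : ∀ p : ℝ × ℝ, ENNReal.ofReal
          (6.4 * q.2 * ‖hp k q‖ ^ 2 * (M p * (16 * p.2 / ((p.1 - q.1) ^ 2 + (p.2 + q.2) ^ 2) ^ 2)))
          = ENNReal.ofReal (6.4 * q.2 * ‖hp k q‖ ^ 2) *
            ENNReal.ofReal (M p * (16 * p.2 / ((p.1 - q.1) ^ 2 + (p.2 + q.2) ^ 2) ^ 2)) := fun p =>
        ENNReal.ofReal_mul (by positivity)
      simp_rw [h0]
      rw [lintegral_const_mul' _ _ ENNReal.ofReal_ne_top,
        ← ofReal_integral_eq_lintegral_ofReal (hE q hq2).2.1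
        ((ae_restrict_iff' E5_HP_meas).2 (Filter.Eventually.of_forall fun p hpp => by
          have : 0 < p.2 := hpp
          exact mul_nonneg (hM0 p) (by positivity)))]
      rw [← ENNReal.ofReal_mul (by positivity), ← ENNReal.ofReal_mul (by norm_num)]
      apply ENNReal.ofReal_le_ofReal
      apply le_of_eq
      simp only [hGdef]
      ring
    · rw [Set.indicator_of_notMem hq]
      have hz : ∀ p, F p q = 0 := by
        intro p
        simp only [hF]
        by_cases h : (p, q) ∈ A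
        · rw [Set.indicator_of_mem h]
          simp only
          unfold E5_K
          rw [Set.indicator_of_notMem hq, mul_zero]
        · rw [Set.indicator_of_notMem h]
      simp_rw [hz]
      simp
  refine hlow.trans (hunf.le.trans (hup.trans ?_))
  refine (mul_le_mul_right hU2 _).trans ?_
  rw [← ENNReal.ofReal_mul (by norm_num)]
  apply ENNReal.ofReal_le_ofReal
  have he : Real.exp 1 < 2.7182818286 := Real.exp_one_lt_d9
  have h1 : 0 ≤ ε * J := mul_nonneg hε.le hJ0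
  nlinarith

/-- **(E5)** Embedding from the potential bound: if `∬_{HP} M q_z ≤ ε` for all `z` in the upper half plane then
`∬_{ST} M |k|² ≤ 18 ε ∫_0^{2π} |k|²`.

Proof: `ε > 0` wlog (replace `ε` by `ε + t`, `t → 0`).  `S` = potential, `0 ≤ S ≤ ε`.  `Uch` for `S/ε`:
`∬_{ST} (-ΔS/ε) e^{-1} |k|² y ≤ ∫|k|²`, so `∬_{ST} (-ΔS)|k|² y ≤ e ε ∫ |k|²`.
Sub-mean value property: `|k(ζ)|² ≤ 4/(πη²) ∬_{B(ζ,η/2)} |k|²` (`ζ ↦ hp k ζ` is analytic on `y>0`; mean value over
the disc, Cauchy-Schwarz).  With Tonelli and periodicity (unfolding `ζ ∈ ST, z ∈ ℝ²` to `ζ ∈ ℝ², z ∈ ST`)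
`∬_{ST} M|k|² ≤ ∬_{z ∈ ST} |k(z)|² [∬_{ζ∈HP, |ζ-z|≤η/2} (4/(πη²)) M(ζ) dζ] dz`, and for `|z-ζ| ≤ η/2`:
`y_z ≥ η/2`, `|z - conj ζ| ≤ 5η/2`, `y_z·16η/|z-conj ζ|⁴ ≥ 8η²·16/(625 η⁴)… = 128/(625 η²)·1 ≥ 0.2/η²`, while
`4/(πη²) ≤ 1.28/η²`; so `[…] ≤ 6.4 y_z (-ΔS(z))`; `6.4 e ≤ 18`. -/
theorem E5 (M : ℝ × ℝ → ℝ) (hM : Measurable M) (B Y : ℝ) (hM0 : ∀ p, 0 ≤ M p) (hMB : ∀ p, M p ≤ B)
    (hMY : ∀ p : ℝ × ℝ, Y ≤ p.2 → M p = 0)
    (hper : ∀ p : ℝ × ℝ, M (p.1 + 2 * Real.pi, p.2) = M p) (ε : ℝ) (hε : 0 ≤ ε)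
    (hS : ∀ z : ℝ × ℝ, 0 < z.2 →
      ∫⁻ p in HP, ENNReal.ofReal (M p * qk z p) ≤ ENNReal.ofReal ε)
    (k : ℂ → ℂ) (hkc : ContinuousOn k (Metric.closedBall 0 1))
    (hk : DifferentiableOn ℂ k (Metric.ball 0 1)) :
    ∫⁻ p in ST, ENNReal.ofReal (M p * ‖hp k p‖ ^ 2)
      ≤ ENNReal.ofReal (18 * ε * ∫ x in Set.Ioc 0 (2 * Real.pi), ‖k (E (x, 0))‖ ^ 2) := by
  have h1 : ∀ t : ℝ, 0 < t → ∫⁻ p in ST, ENNReal.ofReal (M p * ‖hp k p‖ ^ 2)
      ≤ ENNReal.ofReal (18 * (ε + t) * ∫ x in Set.Ioc 0 (2 * Real.pi), ‖k (E (x, 0))‖ ^ 2) :=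
    fun t ht => E5_pos M hM B Y hM0 hMB hMY hper (ε + t) (by linarith)
      (fun z hz => (hS z hz).trans (ENNReal.ofReal_le_ofReal (by linarith))) k hkc hk
  have h2 : Tendsto (fun t : ℝ => ENNReal.ofReal
      (18 * (ε + t) * ∫ x in Set.Ioc 0 (2 * Real.pi), ‖k (E (x, 0))‖ ^ 2)) (𝓝[>] 0)
      (𝓝 (ENNReal.ofReal (18 * ε * ∫ x in Set.Ioc 0 (2 * Real.pi), ‖k (E (x, 0))‖ ^ 2))) := by
    have h3 : Continuous (fun t : ℝ => ENNReal.ofReal
      (18 * (ε + t) * ∫ x in Set.Ioc 0 (2 * Real.pi), ‖k (E (x, 0))‖ ^ 2)) := by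
      apply ENNReal.continuous_ofReal.comp
      fun_prop
    have h4 := (h3.tendsto 0).mono_left (nhdsWithin_le_nhds (s := Set.Ioi (0:ℝ)))
    simpa using h4
  refine ge_of_tendsto h2 ?_
  filter_upwards [self_mem_nhdsWithin] with t ht using h1 t ht

end Pool.H14.SR

end S_E5

noncomputable section S_GE

open MeasureTheory Set Filter Topology
namespace Pool.H14.SR

theorem GE_measHP : MeasurableSet HP := measurableSet_lt measurable_const measurable_snd

/-- A periodic `C¹` function vanishing for large `y` is bounded on `y ≥ 0`. -/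
theorem GE_bdd {σ : ℝ} (hσ : 0 < σ) {X Xx Xy : ℝ × ℝ → ℝ} (h : C1 σ X Xx Xy) (Y : ℝ)
    (hY : ∀ p : ℝ × ℝ, Y ≤ p.2 → X p = 0) : ∃ B : ℝ, 0 ≤ B ∧ ∀ p : ℝ × ℝ, 0 ≤ p.2 → |X p| ≤ B := by
  have hK : IsCompact (Set.Icc (0 : ℝ) (2 * Real.pi) ×ˢ Set.Icc (0 : ℝ) Y) :=
    isCompact_Icc.prod isCompact_Icc
  obtain ⟨B, hB⟩ := hK.exists_bound_of_continuousOn (h.c.mono (fun p hp => by
    show -σ < p.2
    have := hp.2.1
    linarith))
  refine ⟨|B|, abs_nonneg _, fun p hp => ?_⟩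
  by_cases hpY : Y ≤ p.2
  · rw [hY p hpY]; simp
  · push_neg at hpY
    have hper : Function.Periodic (fun x : ℝ => X (x, p.2)) (2 * Real.pi) := fun x =>
      h.per (x, p.2) (by show -σ < p.2; linarith)
    obtain ⟨x, hx, hxe⟩ := hper.exists_mem_Ico₀ (by positivity) p.1
    have e : X p = X (x, p.2) := hxe
    rw [e]
    have := hB (x, p.2) ⟨⟨hx.1, hx.2.le⟩, ⟨hp, hpY.le⟩⟩
    exact (this.trans (le_abs_self B))

theorem GE_Osc_cont {δ ρ : ℝ} {a b F : ℂ → ℂ} (H : Dat δ ρ a b F) :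
    ContinuousOn (Osc a b F) {p | -Real.log ρ < p.2} := by
  have hρ : 0 < ρ := by linarith [H.hρ]
  unfold Osc
  exact ((Complex.continuous_re.comp_continuousOn (hp_cont hρ H.hF.continuousOn)).sub
    ((hp_cont hρ H.ha.continuousOn).norm.pow 2)).sub ((hp_cont hρ H.hb.continuousOn).norm.pow 2)

theorem GE_Osc_nonneg {δ ρ : ℝ} {a b F : ℂ → ℂ} (H : Dat δ ρ a b F) (p : ℝ × ℝ)
    (hp : -Real.log ρ < p.2) : 0 ≤ Osc a b F p := by
  have hρ : 0 < ρ := by linarith [H.hρ]
  have := H.hO (E p) (E_mem_ball hρ hp)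
  unfold Osc Pool.H14.SR.hp
  linarith

/-- **(GE)** Estimate of the flow part: `|∬_{ST} (X₁-iX₂)/(2b) f| ≤ (9/ε) η ∫|k|²` if
`∬_{HP} e^{-tO/2}(|X₁|+|X₂|)q_z ≤ η` for all `z`, `X = 0` on `|b| < ε` and for `y ≥ Y`.
(`|(X₁-iX₂)/(2b)| ≤ (|X₁|+|X₂|)/(2ε)`; `E5` for `M = e^{-tO/2}(|X₁|+|X₂|)` on `y > 0`, `0` elsewhere.) -/
theorem GE {δ ρ : ℝ} {a b F : ℂ → ℂ} (H : Dat δ ρ a b F) (σ : ℝ) (hσ : 0 < σ) (ε : ℝ) (hε : 0 < ε)
    (X1 X1x X1y X2 X2x X2y : ℝ × ℝ → ℝ)
    (hX1 : C1 σ X1 X1x X1y) (hX2 : C1 σ X2 X2x X2y)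
    (hX : ∀ p : ℝ × ℝ, -σ < p.2 → ‖hp b p‖ < ε → X1 p = 0 ∧ X2 p = 0)
    (Y : ℝ) (hXY : ∀ p : ℝ × ℝ, Y ≤ p.2 → X1 p = 0 ∧ X2 p = 0) (t : ℝ) (ht : 1 ≤ t)
    (η : ℝ) (hη : 0 ≤ η)
    (hpot : ∀ z : ℝ × ℝ, 0 < z.2 →
        ∫⁻ p in HP, ENNReal.ofReal (Real.exp (-(t * Osc a b F p / 2))
            * (|X1 p| + |X2 p|) * qk z p) ≤ ENNReal.ofReal η)
    (f k : ℂ → ℂ) (ρ' : ℝ) (hρ' : 1 < ρ') (hf : DifferentiableOn ℂ f (Metric.ball 0 ρ'))
    (hkc : ContinuousOn k (Metric.closedBall 0 1)) (hk : DifferentiableOn ℂ k (Metric.ball 0 1))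
    (hfk : ∀ w ∈ Metric.closedBall (0 : ℂ) 1,
      ‖f w‖ ≤ Real.exp (-(t * OscD a b F w / 2)) * ‖k w‖ ^ 2) :
    ‖∫ p in ST, ((X1 p : ℂ) - Complex.I * X2 p) / (2 * hp b p) * hp f p‖
      ≤ 9 / ε * η * ∫ x in Set.Ioc 0 (2 * Real.pi), ‖k (E (x, 0))‖ ^ 2 := by
  classical
  have hlog : 0 < Real.log ρ := Real.log_pos H.hρ
  obtain ⟨B1, hB10, hB1⟩ := GE_bdd hσ hX1 Y (fun p hp => (hXY p hp).1)
  obtain ⟨B2, hB20, hB2⟩ := GE_bdd hσ hX2 Y (fun p hp => (hXY p hp).2)
  set M0 : ℝ × ℝ → ℝ := fun p => Real.exp (-(t * Osc a b F p / 2)) * (|X1 p| + |X2 p|) with hM0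
  set M : ℝ × ℝ → ℝ := HP.piecewise M0 (fun _ => 0) with hMdef
  have hMin : ∀ p, p ∈ HP → M p = M0 p := fun p hp => Set.piecewise_eq_of_mem _ _ _ hp
  have hMout : ∀ p, p ∉ HP → M p = 0 := fun p hp => Set.piecewise_eq_of_notMem _ _ _ hp
  have hM0c : ContinuousOn M0 HP := by
    refine ContinuousOn.mul ?_ ?_
    · apply Real.continuous_exp.comp_continuousOn
      refine (ContinuousOn.div_const (continuousOn_const.mul ((GE_Osc_cont H).mono ?_)) 2).neg
      intro p hp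
      show -Real.log ρ < p.2
      have : (0 : ℝ) < p.2 := hp
      linarith
    · have hsub : HP ⊆ {p : ℝ × ℝ | -σ < p.2} := fun p hp => by
        show -σ < p.2
        have : (0 : ℝ) < p.2 := hp
        linarith
      exact (hX1.c.mono hsub).abs.add (hX2.c.mono hsub).abs
  have hMm : Measurable M := hM0c.measurable_piecewise continuousOn_const GE_measHP
  have hM0nn : ∀ p, 0 ≤ M0 p := fun p => by simp only [hM0]; positivity
  have hMnn : ∀ p, 0 ≤ M p := by
    intro p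
    by_cases hp : p ∈ HP
    · rw [hMin p hp]; exact hM0nn p
    · rw [hMout p hp]
  have hexp1 : ∀ p : ℝ × ℝ, 0 < p.2 → Real.exp (-(t * Osc a b F p / 2)) ≤ 1 := by
    intro p hp
    apply Real.exp_le_one_iff.2
    have := GE_Osc_nonneg H p (by linarith)
    have : 0 ≤ t * Osc a b F p := by positivity
    linarith
  have hMB : ∀ p, M p ≤ B1 + B2 := by
    intro p
    by_cases hp : p ∈ HP
    · rw [hMin p hp]
      have hp' : (0 : ℝ) < p.2 := hp
      have h1 := hB1 p hp'.le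
      have h2 := hB2 p hp'.le
      have h3 := hexp1 p hp'
      simp only [hM0]
      have h4 : 0 ≤ |X1 p| + |X2 p| := by positivity
      calc Real.exp (-(t * Osc a b F p / 2)) * (|X1 p| + |X2 p|) ≤ 1 * (|X1 p| + |X2 p|) :=
            mul_le_mul_of_nonneg_right h3 h4
        _ ≤ B1 + B2 := by linarith
    · rw [hMout p hp]; positivity
  have hMY : ∀ p : ℝ × ℝ, Y ≤ p.2 → M p = 0 := by
    intro p hpY
    by_cases hp : p ∈ HP
    · rw [hMin p hp]
      simp only [hM0]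
      rw [(hXY p hpY).1, (hXY p hpY).2]; simp
    · exact hMout p hp
  have hMper : ∀ p : ℝ × ℝ, M (p.1 + 2 * Real.pi, p.2) = M p := by
    intro p
    by_cases hp : p ∈ HP
    · have hp' : (0 : ℝ) < p.2 := hp
      have hp2 : (p.1 + 2 * Real.pi, p.2) ∈ HP := hp
      rw [hMin p hp, hMin _ hp2]
      simp only [hM0, Osc]
      rw [hp_per, hp_per, hp_per, hX1.per p (by linarith), hX2.per p (by linarith)]
    · have hp2 : (p.1 + 2 * Real.pi, p.2) ∉ HP := hp
      rw [hMout p hp, hMout _ hp2]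
  have hMS : ∀ z : ℝ × ℝ, 0 < z.2 →
      ∫⁻ p in HP, ENNReal.ofReal (M p * qk z p) ≤ ENNReal.ofReal η := by
    intro z hz
    refine le_trans (le_of_eq ?_) (hpot z hz)
    apply setLIntegral_congr_fun GE_measHP
    intro p hp
    simp only []
    rw [hMin p hp]
  have h5 := E5 M hMm (B1 + B2) Y hMnn hMB hMY hMper η hη hMS k hkc hk
  set I : ℝ := ∫ x in Set.Ioc 0 (2 * Real.pi), ‖k (E (x, 0))‖ ^ 2 with hI
  have hI0 : 0 ≤ I := by
    apply setIntegral_nonneg measurableSet_Ioc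
    intro x _; positivity
  have hpt : ∀ p ∈ ST, ‖((X1 p : ℂ) - Complex.I * X2 p) / (2 * hp b p) * hp f p‖
      ≤ 1 / (2 * ε) * (M p * ‖hp k p‖ ^ 2) := by
    intro p hpST
    have hp0 : (0 : ℝ) < p.2 := hpST.2
    rw [hMin p hp0]
    have hfk' := hfk (E p) (E_mem_closedBall hp0.le)
    have hfk2 : ‖hp f p‖ ≤ Real.exp (-(t * Osc a b F p / 2)) * ‖hp k p‖ ^ 2 := hfk'
    by_cases hb : ‖hp b p‖ < ε
    · obtain ⟨e1, e2⟩ := hX p (by linarith) hb
      rw [e1, e2]
      have : 0 ≤ 1 / (2 * ε) * (M0 p * ‖hp k p‖ ^ 2) := by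
        have := hM0nn p
        positivity
      simpa using this
    · push_neg at hb
      rw [norm_mul, norm_div, norm_mul]
      have h1 : ‖(X1 p : ℂ) - Complex.I * X2 p‖ ≤ |X1 p| + |X2 p| := by
        refine (norm_sub_le _ _).trans ?_
        rw [norm_mul, Complex.norm_I, one_mul, Complex.norm_real, Complex.norm_real]
        rfl
      have h2 : ‖(X1 p : ℂ) - Complex.I * X2 p‖ / (‖(2 : ℂ)‖ * ‖hp b p‖)
          ≤ (|X1 p| + |X2 p|) / (2 * ε) := by
        have h3 : ‖(2 : ℂ)‖ = 2 := by simp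
        rw [h3]
        apply div_le_div₀ (by positivity) h1 (by positivity)
        linarith
      calc ‖(X1 p : ℂ) - Complex.I * X2 p‖ / (‖(2 : ℂ)‖ * ‖hp b p‖) * ‖hp f p‖
          ≤ (|X1 p| + |X2 p|) / (2 * ε) * (Real.exp (-(t * Osc a b F p / 2)) * ‖hp k p‖ ^ 2) :=
            mul_le_mul h2 hfk2 (norm_nonneg _) (by positivity)
        _ = 1 / (2 * ε) * (M0 p * ‖hp k p‖ ^ 2) := by
            simp only [hM0]; ring
  have hl : ∫⁻ p in ST, ENNReal.ofReal
        ‖((X1 p : ℂ) - Complex.I * X2 p) / (2 * hp b p) * hp f p‖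
      ≤ ENNReal.ofReal (9 / ε * η * I) := by
    calc ∫⁻ p in ST, ENNReal.ofReal
          ‖((X1 p : ℂ) - Complex.I * X2 p) / (2 * hp b p) * hp f p‖
        ≤ ∫⁻ p in ST, ENNReal.ofReal (1 / (2 * ε)) * ENNReal.ofReal (M p * ‖hp k p‖ ^ 2) := by
          apply setLIntegral_mono_ae'
          · exact Uch_meas_ST
          · refine Eventually.of_forall fun p hpST => ?_
            rw [← ENNReal.ofReal_mul (by positivity)]
            exact ENNReal.ofReal_le_ofReal (hpt p hpST)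
      _ = ENNReal.ofReal (1 / (2 * ε)) * ∫⁻ p in ST, ENNReal.ofReal (M p * ‖hp k p‖ ^ 2) := by
          rw [lintegral_const_mul' _ _ ENNReal.ofReal_ne_top]
      _ ≤ ENNReal.ofReal (1 / (2 * ε)) * ENNReal.ofReal (18 * η * I) := by gcongr
      _ = ENNReal.ofReal (9 / ε * η * I) := by
          rw [← ENNReal.ofReal_mul (by positivity)]
          congr 1
          field_simp
          ring
  refine (norm_integral_le_lintegral_norm _).trans ?_
  exact ENNReal.toReal_le_of_le_ofReal (by positivity) hl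

end Pool.H14.SR

end S_GE
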