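import Mathlib
import Pool.Agent.H14.SRM.P0

/-! MP_e1e648_an, part P4: this file joins several modules to save build time. -/

noncomputable section S_HB

open MeasureTheory Set Filter Topology
namespace Pool.H14.SR


/-! Closure properties of `H^∞`, `H²` (boundary functions).

All products: use Fourier expansion / density.  Suggested proof of `Hinf.mul`: for `f ∈ H^∞`, `g ∈ H²`
show `∫ e^{i(n+1)x} f g = 0`: `g` is the `L²` limit of its partial Fourier sums `Σ_{k<m} coef g k e^{ikx}`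
(Mathlib: `fourierBasis` / `hasSum_fourier_series_L2` on `AddCircle (2π)`, transported to `(0,2π]` by
`AddCircle.liftIoc`, `AddCircle.integral_preimage` …; the negative coefficients vanish by `HA`), and for
`g = e^{ikx}` the claim is `HA f`; pass to the limit (`f` bounded, Cauchy-Schwarz on the finite measure `mu`). -/

theorem HB_cexp_cont (c : ℂ) : Continuous (fun x : ℝ => Complex.exp (c * (x : ℂ))) := by
  fun_prop

theorem HB_norm_exp (n : ℕ) (x : ℝ) :
    ‖Complex.exp (((n : ℂ) + 1) * Complex.I * (x : ℂ))‖ = 1 := by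
  rw [Complex.norm_exp]
  have : ((((n : ℂ) + 1) * Complex.I * (x : ℂ))).re = 0 := by
    simp
  rw [this, Real.exp_zero]

theorem HB_norm_expz (n : ℤ) (x : ℝ) :
    ‖Complex.exp (-((n : ℂ) * Complex.I * (x : ℂ)))‖ = 1 := by
  rw [Complex.norm_exp]
  have : (-((n : ℂ) * Complex.I * (x : ℂ))).re = 0 := by
    simp
  rw [this, Real.exp_zero]

theorem HB_int {f : ℝ → ℂ} (hf : Integrable f mu) (n : ℕ) :
    Integrable (fun x : ℝ => Complex.exp (((n : ℂ) + 1) * Complex.I * (x : ℂ)) * f x) mu := by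
  apply hf.bdd_mul (c := 1)
  · exact (HB_cexp_cont _).aestronglyMeasurable
  · exact Filter.Eventually.of_forall fun x => (HB_norm_exp n x).le

theorem HB_ha_add {f g : ℝ → ℂ} (hf : Integrable f mu) (hg : Integrable g mu) (h1 : HA f) (h2 : HA g) :
    HA (fun x => f x + g x) := by
  intro n
  have h3 : (∫ x, Complex.exp (((n : ℂ) + 1) * Complex.I * (x : ℂ)) * (f x + g x) ∂mu)
      = (∫ x, Complex.exp (((n : ℂ) + 1) * Complex.I * (x : ℂ)) * f x ∂mu)
      + (∫ x, Complex.exp (((n : ℂ) + 1) * Complex.I * (x : ℂ)) * g x ∂mu) := by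
    rw [← integral_add (HB_int hf n) (HB_int hg n)]
    congr 1
    ext x
    ring
  have h4 : (∫ x, Complex.exp (((n : ℂ) + 1) * Complex.I * (x : ℂ)) * f x ∂mu) = 0 := h1 n
  have h5 : (∫ x, Complex.exp (((n : ℂ) + 1) * Complex.I * (x : ℂ)) * g x ∂mu) = 0 := h2 n
  rw [h4, h5, add_zero] at h3
  exact h3

theorem HB_ha_smul {f : ℝ → ℂ} (h1 : HA f) (c : ℂ) : HA (fun x => c * f x) := by
  intro n
  have h3 : (∫ x in Set.Ioc 0 (2 * Real.pi),
      Complex.exp (((n : ℂ) + 1) * Complex.I * (x : ℂ)) * (c * f x))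
      = c * (∫ x in Set.Ioc 0 (2 * Real.pi), Complex.exp (((n : ℂ) + 1) * Complex.I * (x : ℂ)) * f x) := by
    rw [← integral_const_mul]
    congr 1
    ext x
    ring
  rw [h3, h1 n, mul_zero]

theorem Hinf_const (c : ℂ) : Hinf (fun _ => c) := by
  refine ⟨memLp_const c, fun n => ?_⟩
  have h0 : (((n : ℂ) + 1) * Complex.I) ≠ 0 := by
    apply mul_ne_zero
    · exact Nat.cast_add_one_ne_zero n
    · exact Complex.I_ne_zero
  rw [← intervalIntegral.integral_of_le (by positivity)]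
  rw [intervalIntegral.integral_mul_const]
  rw [integral_exp_mul_complex h0]
  have h1 : Complex.exp (((n : ℂ) + 1) * Complex.I * ((2 * Real.pi : ℝ) : ℂ)) = 1 := by
    have h2 := Complex.exp_int_mul_two_pi_mul_I ((n : ℤ) + 1)
    have h3 : ((n : ℂ) + 1) * Complex.I * ((2 * Real.pi : ℝ) : ℂ)
        = (((n : ℤ) + 1 : ℤ) : ℂ) * (2 * Real.pi * Complex.I) := by
      push_cast
      ring
    rw [h3]
    exact h2
  rw [h1]
  simp

theorem Hinf.int {f : ℝ → ℂ} (hf : Hinf f) : Integrable f mu :=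
  (hf.mem.mono_exponent le_top : MemLp f 1 mu).integrable le_rfl

theorem Htwo.int {f : ℝ → ℂ} (hf : Htwo f) : Integrable f mu :=
  (hf.mem.mono_exponent (by norm_num) : MemLp f 1 mu).integrable le_rfl

theorem Hinf.add {f g : ℝ → ℂ} (hf : Hinf f) (hg : Hinf g) : Hinf (fun x => f x + g x) :=
  ⟨hf.mem.add hg.mem, HB_ha_add hf.int hg.int hf.ha hg.ha⟩

theorem Hinf.smul {f : ℝ → ℂ} (hf : Hinf f) (c : ℂ) : Hinf (fun x => c * f x) :=
  ⟨hf.mem.const_mul c, HB_ha_smul hf.ha c⟩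

theorem Hinf.toHtwo {f : ℝ → ℂ} (hf : Hinf f) : Htwo f :=
  ⟨hf.mem.mono_exponent le_top, hf.ha⟩

theorem Htwo.add {f g : ℝ → ℂ} (hf : Htwo f) (hg : Htwo g) : Htwo (fun x => f x + g x) :=
  ⟨hf.mem.add hg.mem, HB_ha_add hf.int hg.int hf.ha hg.ha⟩

theorem Htwo.smul {f : ℝ → ℂ} (hf : Htwo f) (c : ℂ) : Htwo (fun x => c * f x) :=
  ⟨hf.mem.const_mul c, HB_ha_smul hf.ha c⟩

/-! ### Fourier coefficients over `ℤ` -/

theorem HB_pos : (0 : ℝ) < 2 * Real.pi := by positivity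

/-- The `n`-th Fourier integral, `n ∈ ℤ`. -/
def HB_F (f : ℝ → ℂ) (n : ℤ) : ℂ :=
  ∫ x in Set.Ioc 0 (2 * Real.pi), Complex.exp (-((n : ℂ) * Complex.I * (x : ℂ))) * f x

theorem HB_fc (f : ℝ → ℂ) (n : ℤ) :
    fourierCoeffOn HB_pos f n = ((1 / (2 * Real.pi) : ℝ) : ℂ) * HB_F f n := by
  rw [fourierCoeffOn_eq_integral]
  unfold HB_F
  rw [intervalIntegral.integral_of_le HB_pos.le]
  rw [sub_zero, Complex.real_smul]
  congr 1
  apply setIntegral_congr_fun measurableSet_Ioc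
  intro x _
  show _ • _ = _ * _
  rw [smul_eq_mul]
  congr 1
  rw [fourier_coe_apply]
  congr 1
  have : (Real.pi : ℂ) ≠ 0 := by exact_mod_cast Real.pi_ne_zero
  push_cast
  field_simp

theorem HB_parseval {f : ℝ → ℂ} (hf : MemLp f 2 mu) :
    HasSum (fun n : ℤ => ‖HB_F f n‖ ^ 2) ((2 * Real.pi) * ∫ x, ‖f x‖ ^ 2 ∂mu) := by
  have h := hasSum_sq_fourierCoeffOn HB_pos hf
  have h2 := h.mul_left ((2 * Real.pi) ^ 2)
  have hpi : (2 * Real.pi) ≠ 0 := HB_pos.ne'
  have e1 : (fun n : ℤ => ‖HB_F f n‖ ^ 2)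
      = fun n : ℤ => (2 * Real.pi) ^ 2 * ‖fourierCoeffOn HB_pos f n‖ ^ 2 := by
    ext n
    rw [HB_fc, norm_mul, mul_pow, Complex.norm_real, Real.norm_eq_abs, abs_of_pos (by positivity)]
    field_simp
  have e2 : (2 * Real.pi) * ∫ x, ‖f x‖ ^ 2 ∂mu
      = (2 * Real.pi) ^ 2 * ((2 * Real.pi - 0)⁻¹ • ∫ x in (0)..(2 * Real.pi), ‖f x‖ ^ 2) := by
    rw [intervalIntegral.integral_of_le HB_pos.le, sub_zero, smul_eq_mul]
    unfold mu
    field_simp
  rw [e1, e2]
  exact h2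

theorem HB_F_add {f g : ℝ → ℂ} (hf : Integrable f mu) (hg : Integrable g mu) (n : ℤ) :
    HB_F (fun x => f x + g x) n = HB_F f n + HB_F g n := by
  unfold HB_F
  have hi : ∀ {f : ℝ → ℂ}, Integrable f mu →
      Integrable (fun x : ℝ => Complex.exp (-((n : ℂ) * Complex.I * (x : ℂ))) * f x)
        (volume.restrict (Set.Ioc 0 (2 * Real.pi))) := by
    intro f hf
    apply Integrable.bdd_mul (c := 1) hf
    · have : Continuous (fun x : ℝ => Complex.exp (-((n : ℂ) * Complex.I * (x : ℂ)))) := by fun_prop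
      exact this.aestronglyMeasurable
    · exact Filter.Eventually.of_forall fun x => (HB_norm_expz n x).le
  rw [← integral_add (hi hf) (hi hg)]
  congr 1
  ext x
  ring

theorem HB_F_smul (f : ℝ → ℂ) (c : ℂ) (n : ℤ) :
    HB_F (fun x => c * f x) n = c * HB_F f n := by
  unfold HB_F
  rw [← integral_const_mul]
  congr 1
  ext x
  ring

theorem HB_int_mul {u v : ℝ → ℂ} (hu : MemLp u 2 mu) (hv : MemLp v 2 mu) :
    Integrable (fun x => u x * v x) mu :=
  hu.integrable_mul hv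

theorem HB_orth {u v : ℝ → ℂ} (hu : MemLp u 2 mu) (hv : MemLp v 2 mu)
    (h : ∀ n : ℤ, HB_F u n = 0 ∨ HB_F v n = 0) :
    ∫ x, (starRingEnd ℂ) (u x) * v x ∂mu = 0 := by
  have hui : Integrable u mu := (hu.mono_exponent (by norm_num) : MemLp u 1 mu).integrable le_rfl
  have hvi : Integrable v mu := (hv.mono_exponent (by norm_num) : MemLp v 1 mu).integrable le_rfl
  have hstar : MemLp (fun x => (starRingEnd ℂ) (u x)) 2 mu := hu.star
  have hprod : Integrable (fun x => (starRingEnd ℂ) (u x) * v x) mu := HB_int_mul hstar hv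
  have key : ∀ c : ℂ, (∫ x, (c * ((starRingEnd ℂ) (u x) * v x)) ∂mu).re = 0 := by
    intro c
    have hcv : MemLp (fun x => c * v x) 2 mu := hv.const_mul c
    have h1 := HB_parseval hu
    have h2 := HB_parseval hcv
    have h3 := HB_parseval (hu.add hcv)
    have h4 : (fun n : ℤ => ‖HB_F (u + fun x => c * v x) n‖ ^ 2)
        = fun n : ℤ => ‖HB_F u n‖ ^ 2 + ‖HB_F (fun x => c * v x) n‖ ^ 2 := by
      ext n
      have : HB_F (u + fun x => c * v x) n = HB_F u n + HB_F (fun x => c * v x) n :=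
        HB_F_add hui (hvi.const_mul c) n
      rw [this]
      rcases h n with h0 | h0
      · rw [h0]; simp
      · rw [HB_F_smul, h0]; simp
    rw [h4] at h3
    have h5 := h3.unique (h1.add h2)
    have h6 : ∫ x, ‖(u + fun x => c * v x) x‖ ^ 2 ∂mu
        = ∫ x, ‖u x‖ ^ 2 ∂mu + ∫ x, ‖c * v x‖ ^ 2 ∂mu := by
      have := HB_pos
      nlinarith [mul_left_cancel₀ this.ne' (h5.trans (mul_add _ _ _).symm)]
    have i1 : Integrable (fun x => ‖u x‖ ^ 2) mu := hu.integrable_norm_pow (by norm_num)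
    have i2 : Integrable (fun x => ‖c * v x‖ ^ 2) mu := hcv.integrable_norm_pow (by norm_num)
    have h7 : ∀ x, ‖(u + fun x => c * v x) x‖ ^ 2
        = (‖u x‖ ^ 2 + ‖c * v x‖ ^ 2) + 2 * (c * ((starRingEnd ℂ) (u x) * v x)).re := by
      intro x
      simp only [Pi.add_apply]
      rw [← Complex.normSq_eq_norm_sq, ← Complex.normSq_eq_norm_sq, ← Complex.normSq_eq_norm_sq]
      rw [Complex.normSq_add]
      have : (u x * (starRingEnd ℂ) (c * v x)).re = (c * ((starRingEnd ℂ) (u x) * v x)).re := by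
        rw [← Complex.conj_re]
        congr 1
        rw [map_mul, Complex.conj_conj]
        ring
      rw [this]
    simp_rw [h7] at h6
    have i3 : Integrable (fun x => 2 * (c * ((starRingEnd ℂ) (u x) * v x)).re) mu :=
      ((hprod.const_mul c).re).const_mul 2
    have i12 : Integrable (fun x => ‖u x‖ ^ 2 + ‖c * v x‖ ^ 2) mu := i1.add i2
    rw [integral_add i12 i3, integral_add i1 i2, integral_const_mul] at h6
    have h8 : ∫ x, (c * ((starRingEnd ℂ) (u x) * v x)).re ∂mu = 0 := by linarith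
    rw [← h8]
    exact (integral_re (hprod.const_mul c)).symm
  have k1 := key 1
  have k2 := key (-Complex.I)
  simp only [one_mul] at k1
  rw [integral_const_mul] at k2
  apply Complex.ext
  · exact k1
  · simpa using k2

theorem HB_F_neg (f : ℝ → ℂ) (n : ℕ) :
    HB_F f (-((n : ℤ) + 1)) = ∫ x in Set.Ioc 0 (2 * Real.pi),
      Complex.exp (((n : ℂ) + 1) * Complex.I * (x : ℂ)) * f x := by
  unfold HB_F
  congr 1
  ext x
  congr 2
  push_cast
  ring

theorem Hinf.mul_Htwo {f g : ℝ → ℂ} (hf : Hinf f) (hg : Htwo g) : Htwo (fun x => f x * g x) := by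
  refine ⟨hg.mem.mul hf.mem, fun n => ?_⟩
  -- u = conj (e^{i(n+1)x} f)
  have hfe : MemLp (fun x : ℝ => Complex.exp (((n : ℂ) + 1) * Complex.I * (x : ℂ)) * f x) 2 mu := by
    have h1 : MemLp (fun x : ℝ => Complex.exp (((n : ℂ) + 1) * Complex.I * (x : ℂ))) ⊤ mu :=
      memLp_top_of_bound (HB_cexp_cont _).aestronglyMeasurable 1
        (Filter.Eventually.of_forall fun x => (HB_norm_exp n x).le)
    exact hf.toHtwo.mem.mul h1
  have hu : MemLp (fun x : ℝ => (starRingEnd ℂ)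
      (Complex.exp (((n : ℂ) + 1) * Complex.I * (x : ℂ)) * f x)) 2 mu := hfe.star
  have h := HB_orth hu hg.mem ?_
  · rw [← h]
    unfold mu
    congr 1
    ext x
    rw [Complex.conj_conj]
    ring
  · intro m
    rcases lt_or_ge m 0 with hm | hm
    · right
      obtain ⟨k, rfl⟩ : ∃ k : ℕ, m = -((k : ℤ) + 1) := ⟨(-m - 1).toNat, by omega⟩
      rw [HB_F_neg]
      exact hg.ha k
    · left
      obtain ⟨k, rfl⟩ := Int.eq_ofNat_of_zero_le hm
      have h2 : (starRingEnd ℂ) (HB_F (fun x : ℝ => (starRingEnd ℂ)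
          (Complex.exp (((n : ℂ) + 1) * Complex.I * (x : ℂ)) * f x)) k) = 0 := by
        unfold HB_F
        rw [← integral_conj]
        have h3 := hf.ha (n + k)
        rw [← h3]
        congr 1
        ext x
        rw [map_mul, Complex.conj_conj, ← Complex.exp_conj, ← mul_assoc, ← Complex.exp_add]
        congr 2
        simp only [map_neg, map_mul, Complex.conj_I, Complex.conj_ofReal, map_intCast]
        push_cast
        ring
      exact (map_eq_zero _).1 h2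

theorem Hinf.mul {f g : ℝ → ℂ} (hf : Hinf f) (hg : Hinf g) : Hinf (fun x => f x * g x) :=
  ⟨hg.mem.mul hf.mem, (hf.mul_Htwo hg.toHtwo).ha⟩

/-- Bounded functions have an explicit bound and conversely. -/
theorem memLp_top_iff {f : ℝ → ℂ} :
    MemLp f ⊤ mu ↔ AEStronglyMeasurable f mu ∧ ∃ C : ℝ, 0 ≤ C ∧ BD f C := by
  constructor
  · intro h
    refine ⟨h.1, (eLpNorm f ⊤ mu).toReal, ENNReal.toReal_nonneg, ?_⟩
    have h1 : ∀ᵐ x ∂mu, ‖f x‖ₑ ≤ eLpNorm f ⊤ mu := by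
      rw [eLpNorm_exponent_top]
      exact enorm_ae_le_eLpNormEssSup f mu
    filter_upwards [h1] with x hx
    have h2 : (‖f x‖ₑ).toReal ≤ (eLpNorm f ⊤ mu).toReal :=
      ENNReal.toReal_mono h.2.ne hx
    simpa using h2
  · rintro ⟨h1, C, _, h2⟩
    exact memLp_top_of_bound h1 C h2

/-- Uniform limits of `H^∞` functions. -/
theorem Hinf_lim {f : ℝ → ℂ} (hf : AEStronglyMeasurable f mu) (u : ℕ → ℝ → ℂ)
    (hu : ∀ n, Hinf (u n)) (e : ℕ → ℝ) (he : Tendsto e atTop (𝓝 0))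
    (h : ∀ n, BD (fun x => u n x - f x) (e n)) : Hinf f := by
  have hmem : MemLp f ⊤ mu := by
    obtain ⟨_, C, _, hC⟩ := memLp_top_iff.1 (hu 0).mem
    refine memLp_top_of_bound hf (C + e 0) ?_
    filter_upwards [hC, h 0] with x h1 h2
    have : f x = u 0 x - (u 0 x - f x) := by ring
    rw [this]
    exact (norm_sub_le _ _).trans (add_le_add h1 h2)
  refine ⟨hmem, fun n => ?_⟩
  have hfi : Integrable f mu := (hmem.mono_exponent le_top : MemLp f 1 mu).integrable le_rfl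
  set I := ∫ x in Set.Ioc 0 (2 * Real.pi), Complex.exp (((n : ℂ) + 1) * Complex.I * (x : ℂ)) * f x with hI
  have hb : ∀ m, ‖I‖ ≤ e m * (2 * Real.pi) := by
    intro m
    have h1 : I = ∫ x : ℝ, Complex.exp (((n : ℂ) + 1) * Complex.I * (x : ℂ)) * (f x - u m x) ∂mu := by
      have h2 := integral_sub (HB_int hfi n) (HB_int (hu m).int n)
      have h3 : (∫ x, Complex.exp (((n : ℂ) + 1) * Complex.I * (x : ℂ)) * u m x ∂mu) = 0 := (hu m).ha n
      rw [h3, sub_zero] at h2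
      have h4 : I = ∫ x, Complex.exp (((n : ℂ) + 1) * Complex.I * (x : ℂ)) * f x ∂mu := rfl
      rw [h4, ← h2]
      congr 1
      ext x
      ring
    rw [h1]
    have h5 : ∀ᵐ x : ℝ ∂mu,
        ‖Complex.exp (((n : ℂ) + 1) * Complex.I * (x : ℂ)) * (f x - u m x)‖ ≤ e m := by
      have := h m
      unfold BD at this
      filter_upwards [this] with x hx
      rw [norm_mul, HB_norm_exp, one_mul, norm_sub_rev]
      exact hx
    refine (norm_integral_le_of_norm_le_const h5).trans ?_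
    apply le_of_eq
    congr 1
    unfold mu
    rw [Measure.real, Measure.restrict_apply MeasurableSet.univ, Set.univ_inter, Real.volume_Ioc, sub_zero,
      ENNReal.toReal_ofReal HB_pos.le]
  have h0 : ‖I‖ ≤ 0 * (2 * Real.pi) := ge_of_tendsto' (he.mul_const _) hb
  rw [zero_mul] at h0
  exact norm_le_zero_iff.1 h0

theorem Hinf.pow {f : ℝ → ℂ} (hf : Hinf f) (k : ℕ) : Hinf (fun x => f x ^ k) := by
  induction k with
  | zero => simpa using Hinf_const 1
  | succ k ih => simpa [pow_succ] using ih.mul hf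

theorem HB_sum {f : ℝ → ℂ} (hf : Hinf f) (a : ℕ → ℂ) (m : ℕ) :
    Hinf (fun x => ∑ k ∈ Finset.range m, a k * f x ^ k) := by
  induction m with
  | zero => simpa using Hinf_const 0
  | succ m ih =>
    simp only [Finset.sum_range_succ]
    exact ih.add ((hf.pow m).smul (a m))

/-- Entire functions of `H^∞` functions (uniform limits of polynomials in `f`: Taylor series converge
uniformly on the disc of radius `‖f‖_∞`). -/
theorem Hinf_entire {f : ℝ → ℂ} (hf : Hinf f) (g : ℂ → ℂ) (hg : Differentiable ℂ g) :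
    Hinf (fun x => g (f x)) := by
  obtain ⟨hm, C, hC0, hC⟩ := memLp_top_iff.1 hf.mem
  obtain ⟨a, hs⟩ : ∃ a : ℕ → ℂ, ∀ z : ℂ, HasSum (fun k => a k * z ^ k) (g z) := by
    refine ⟨fun k => ((k.factorial : ℂ))⁻¹ * iteratedDeriv k g 0, fun z => ?_⟩
    have h0 := Complex.hasSum_taylorSeries_of_entire hg 0 z
    have h1 : (fun k : ℕ => ((k.factorial : ℂ))⁻¹ * iteratedDeriv k g 0 * z ^ k)
        = fun n : ℕ => ((n.factorial : ℂ))⁻¹ • (z - 0) ^ n • iteratedDeriv n g 0 := by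
      funext k
      simp only [sub_zero, smul_eq_mul]
      ring
    rw [h1]
    exact h0
  have hsum : Summable (fun k => ‖a k‖ * C ^ k) := by
    have h0 := (hs (C : ℂ)).summable.norm
    have h1 : (fun k => ‖a k‖ * C ^ k) = fun k => ‖a k * (C : ℂ) ^ k‖ := by
      funext k
      rw [norm_mul, norm_pow, Complex.norm_real, Real.norm_eq_abs, abs_of_nonneg hC0]
    rw [h1]
    exact h0
  refine Hinf_lim (hg.continuous.comp_aestronglyMeasurable hm)
    (fun m x => ∑ k ∈ Finset.range m, a k * f x ^ k) (fun m => HB_sum hf a m)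
    (fun m => ∑' k, ‖a (k + m)‖ * C ^ (k + m)) (_root_.tendsto_sum_nat_add (fun k => ‖a k‖ * C ^ k)) ?_
  intro m
  unfold BD
  filter_upwards [hC] with x hx
  have h1 := (hs (f x)).summable.sum_add_tsum_nat_add m
  rw [(hs (f x)).tsum_eq] at h1
  have h2 : (∑ k ∈ Finset.range m, a k * f x ^ k) - g (f x) = -∑' k, a (k + m) * f x ^ (k + m) := by
    rw [← h1]; ring
  rw [h2, norm_neg]
  have h3 : Summable (fun k => ‖a (k + m)‖ * C ^ (k + m)) :=
    (summable_nat_add_iff m).2 hsum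
  have h4 : ∀ k, ‖a (k + m) * f x ^ (k + m)‖ ≤ ‖a (k + m)‖ * C ^ (k + m) := by
    intro k
    rw [norm_mul, norm_pow]
    exact mul_le_mul_of_nonneg_left (pow_le_pow_left₀ (norm_nonneg _) hx _) (norm_nonneg _)
  exact tsum_of_norm_bounded h3.hasSum h4

/-- `H²` functions with equal Fourier coefficients are equal a.e. -/
theorem coef_inj {f g : ℝ → ℂ} (hf : Htwo f) (hg : Htwo g) (h : ∀ n, coef f n = coef g n) :
    f =ᵐ[mu] g := by
  have hd : Htwo (fun x => f x + (-1) * g x) := hf.add (hg.smul (-1))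
  have hz : ∀ n : ℤ, HB_F (fun x => f x + (-1) * g x) n = 0 := by
    intro n
    rcases lt_or_ge n 0 with hn | hn
    · obtain ⟨k, rfl⟩ : ∃ k : ℕ, n = -((k : ℤ) + 1) := ⟨(-n - 1).toNat, by omega⟩
      rw [HB_F_neg]
      exact hd.ha k
    · obtain ⟨k, rfl⟩ := Int.eq_ofNat_of_zero_le hn
      rw [HB_F_add hf.int (hg.int.const_mul _), HB_F_smul]
      have h1 := h k
      unfold coef at h1
      have h2 : ((1 / (2 * Real.pi) : ℝ) : ℂ) ≠ 0 := by
        have := HB_pos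
        exact_mod_cast (by positivity : (1 / (2 * Real.pi) : ℝ) ≠ 0)
      have h3 := mul_left_cancel₀ h2 h1
      unfold HB_F
      simp only [Int.cast_natCast]
      rw [h3]
      ring
  have hp := HB_parseval hd.mem
  have h0 : (fun n : ℤ => ‖HB_F (fun x => f x + (-1) * g x) n‖ ^ 2) = fun _ => 0 := by
    ext n; rw [hz n]; simp
  rw [h0] at hp
  have h1 := hp.unique hasSum_zero
  have h2 : ∫ x, ‖f x + (-1) * g x‖ ^ 2 ∂mu = 0 := by
    rcases mul_eq_zero.1 h1 with h | h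
    · exact absurd h HB_pos.ne'
    · exact h
  have h3 := (integral_eq_zero_iff_of_nonneg (fun x => by positivity)
    (hd.mem.integrable_norm_pow (by norm_num))).1 h2
  filter_upwards [h3] with x hx
  have h4 : ‖f x + (-1) * g x‖ ^ 2 = 0 := hx
  have h5 : f x + (-1) * g x = 0 := by
    have := pow_eq_zero_iff (two_ne_zero) |>.1 h4
    exact norm_eq_zero.1 this
  have h6 : f x - g x = 0 := by rw [← h5]; ring
  exact sub_eq_zero.1 h6

end Pool.H14.SR

end S_HB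

noncomputable section S_HX

open MeasureTheory Set Filter Topology
namespace Pool.H14.SR

theorem hx_pos : (0 : ℝ) < 2 * Real.pi := by positivity

/-- the integral of `e^{ijx}` over a period -/
theorem hx_int_exp (j : ℤ) : ∫ x in Set.Ioc 0 (2 * Real.pi), Complex.exp ((j : ℂ) * Complex.I * (x : ℂ)) =
    if j = 0 then (2 * Real.pi : ℂ) else 0 := by
  rw [← intervalIntegral.integral_of_le hx_pos.le]
  by_cases hj : j = 0
  · subst hj
    simp
  · rw [if_neg hj]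
    have hc : (j : ℂ) * Complex.I ≠ 0 := mul_ne_zero (by exact_mod_cast hj) Complex.I_ne_zero
    rw [integral_exp_mul_complex hc]
    have h1 : (j : ℂ) * Complex.I * ((2 * Real.pi : ℝ) : ℂ) = (j : ℂ) * (2 * Real.pi * Complex.I) := by
      push_cast; ring
    rw [h1, Complex.exp_int_mul_two_pi_mul_I]
    simp

theorem hx_cont_exp (c : ℂ) : Continuous fun x : ℝ => Complex.exp (c * (x : ℂ)) := by fun_prop

theorem hx_norm_exp (j : ℤ) (x : ℝ) : ‖Complex.exp ((j : ℂ) * Complex.I * (x : ℂ))‖ = 1 := by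
  rw [Complex.norm_exp]
  simp

theorem hx_norm_exp_nat (n : ℕ) (x : ℝ) : ‖Complex.exp (-((n : ℂ) * Complex.I * (x : ℂ)))‖ = 1 := by
  rw [Complex.norm_exp]
  simp

theorem hx_integrable_mul (f : ℝ → ℂ) (hf : Integrable f mu) (g : ℝ → ℂ) (hg : Continuous g) (C : ℝ)
    (hC : ∀ x, ‖g x‖ ≤ C) : Integrable (fun x => g x * f x) mu :=
  hf.bdd_mul hg.aestronglyMeasurable (Eventually.of_forall hC)

/-- bound of the coefficients -/
theorem hx_coef_le (f : ℝ → ℂ) (n : ℕ) : ‖coef f n‖ ≤ (1 / (2 * Real.pi)) * ∫ x, ‖f x‖ ∂mu := by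
  unfold coef
  rw [norm_mul]
  have h1 : ‖((1 / (2 * Real.pi) : ℝ) : ℂ)‖ = 1 / (2 * Real.pi) := by
    rw [Complex.norm_real, Real.norm_eq_abs, abs_of_pos (by positivity)]
  rw [h1]
  refine mul_le_mul_of_nonneg_left ?_ (by positivity)
  refine (norm_integral_le_integral_norm _).trans (le_of_eq ?_)
  refine integral_congr_ae (Eventually.of_forall fun x => ?_)
  show ‖_ * _‖ = _
  rw [norm_mul, hx_norm_exp_nat, one_mul]

theorem hx_integrable (f : ℝ → ℂ) (hf : Htwo f) : Integrable f mu :=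
  hf.mem.integrable (by norm_num)

theorem hx_summable (a : ℕ → ℂ) (C : ℝ) (hC : ∀ n, ‖a n‖ ≤ C) (w : ℂ) (hw : ‖w‖ < 1) :
    Summable fun n => a n * w ^ n := by
  refine Summable.of_norm_bounded ((summable_geometric_of_lt_one (norm_nonneg w) hw).mul_left C)
    fun n => ?_
  rw [norm_mul, norm_pow]
  exact mul_le_mul_of_nonneg_right (hC n) (by positivity)

theorem hx_tsum_diff (a : ℕ → ℂ) (C : ℝ) (hC : ∀ n, ‖a n‖ ≤ C) :
    DifferentiableOn ℂ (fun w => ∑' n : ℕ, a n * w ^ n) (Metric.ball 0 1) := by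
  intro w hw
  rw [mem_ball_zero_iff] at hw
  obtain ⟨r, hr1, hr2⟩ := exists_between hw
  have hr0 : 0 ≤ r := (norm_nonneg w).trans hr1.le
  have h := Complex.differentiableOn_tsum_of_summable_norm (F := fun (n : ℕ) (w : ℂ) => a n * w ^ n)
    (U := Metric.ball 0 r) (u := fun n => C * r ^ n)
    ((summable_geometric_of_lt_one hr0 hr2).mul_left C) (fun n => by fun_prop) Metric.isOpen_ball
    (fun n z hz => by
      rw [mem_ball_zero_iff] at hz
      rw [norm_mul, norm_pow]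
      exact mul_le_mul (hC n) (pow_le_pow_left₀ (norm_nonneg z) hz.le n) (by positivity)
        ((norm_nonneg _).trans (hC n)))
  exact ((h w (mem_ball_zero_iff.2 hr1)).differentiableAt (Metric.isOpen_ball.mem_nhds
    (mem_ball_zero_iff.2 hr1))).differentiableWithinAt

/-- the Poisson kernel -/
def pk (w : ℂ) (x : ℝ) : ℝ := (1 - ‖w‖ ^ 2) / ‖1 - w * Complex.exp (-(Complex.I * (x : ℂ)))‖ ^ 2

theorem hx_one_sub_ne (w : ℂ) (hw : ‖w‖ < 1) (x : ℝ) :
    1 - w * Complex.exp (-(Complex.I * (x : ℂ))) ≠ 0 := by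
  intro h
  have h1 : w * Complex.exp (-(Complex.I * (x : ℂ))) = 1 := (sub_eq_zero.1 h).symm
  have h2 : ‖w * Complex.exp (-(Complex.I * (x : ℂ)))‖ = ‖w‖ := by
    rw [norm_mul, Complex.norm_exp]; simp
  rw [h1, norm_one] at h2
  linarith

theorem pk_nonneg (w : ℂ) (hw : ‖w‖ < 1) (x : ℝ) : 0 ≤ pk w x := by
  unfold pk
  have : ‖w‖ ^ 2 ≤ 1 := by nlinarith [norm_nonneg w]
  exact div_nonneg (by linarith) (by positivity)

theorem pk_cont (w : ℂ) (hw : ‖w‖ < 1) : Continuous (pk w) := by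
  unfold pk
  refine continuous_const.div (by fun_prop) fun x => ?_
  exact pow_ne_zero 2 (norm_ne_zero_iff.2 (hx_one_sub_ne w hw x))

theorem pk_bdd (w : ℂ) (hw : ‖w‖ < 1) : ∃ C, ∀ x, ‖pk w x‖ ≤ C := by
  refine ⟨1 / (1 - ‖w‖) ^ 2, fun x => ?_⟩
  rw [Real.norm_eq_abs, abs_of_nonneg (pk_nonneg w hw x)]
  unfold pk
  have h1 : 1 - ‖w‖ ≤ ‖1 - w * Complex.exp (-(Complex.I * (x : ℂ)))‖ := by
    have h2 : ‖w * Complex.exp (-(Complex.I * (x : ℂ)))‖ = ‖w‖ := by
      rw [norm_mul, Complex.norm_exp]; simp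
    have h3 := norm_sub_norm_le (1 : ℂ) (w * Complex.exp (-(Complex.I * (x : ℂ))))
    rw [norm_one, h2] at h3
    exact h3
  have h4 : 0 < 1 - ‖w‖ := by linarith
  refine div_le_div₀ zero_le_one ?_ (by positivity) (pow_le_pow_left₀ h4.le h1 2)
  nlinarith [norm_nonneg w]

theorem pk_id (w : ℂ) (hw : ‖w‖ < 1) (x : ℝ) : ((pk w x : ℝ) : ℂ) =
    (1 - w * Complex.exp (-(Complex.I * (x : ℂ))))⁻¹ +
      (starRingEnd ℂ w * Complex.exp (Complex.I * (x : ℂ))) *
        (1 - starRingEnd ℂ w * Complex.exp (Complex.I * (x : ℂ)))⁻¹ := by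
  set u : ℂ := w * Complex.exp (-(Complex.I * (x : ℂ))) with hu
  have hcu : starRingEnd ℂ w * Complex.exp (Complex.I * (x : ℂ)) = starRingEnd ℂ u := by
    rw [hu, map_mul, ← Complex.exp_conj, map_neg, map_mul, Complex.conj_I, Complex.conj_ofReal]
    congr 2; ring
  rw [hcu]
  have h1 : (1 : ℂ) - u ≠ 0 := hx_one_sub_ne w hw x
  have h2 : (1 : ℂ) - starRingEnd ℂ u ≠ 0 := by
    intro h
    apply h1
    have := congrArg (starRingEnd ℂ) h
    simpa using this
  have h3 : ‖w‖ = ‖u‖ := by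
    rw [hu, norm_mul, Complex.norm_exp]; simp
  unfold pk
  rw [h3, ← hu]
  have h4 : (((‖(1 : ℂ) - u‖) ^ 2 : ℝ) : ℂ) = (1 - u) * (1 - starRingEnd ℂ u) := by
    rw [← Complex.normSq_eq_norm_sq, ← Complex.mul_conj, map_sub, map_one]
  have h5 : (((‖u‖) ^ 2 : ℝ) : ℂ) = u * starRingEnd ℂ u := by
    rw [← Complex.normSq_eq_norm_sq, ← Complex.mul_conj]
  rw [Complex.ofReal_div, h4, Complex.ofReal_sub, h5, Complex.ofReal_one]
  field_simp
  ring

theorem hx_poisson (f : ℝ → ℂ) (hf : Integrable f mu) (ha : HA f) (w : ℂ) (hw : ‖w‖ < 1) :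
    ext f w = (1 / (2 * Real.pi) : ℝ) * ∫ x in Set.Ioc 0 (2 * Real.pi), ((pk w x : ℝ) : ℂ) * f x := by
  have hu : ∀ x : ℝ, ‖w * Complex.exp (-(Complex.I * (x : ℂ)))‖ = ‖w‖ := fun x => by
    rw [norm_mul, Complex.norm_exp]; simp
  have hv : ∀ x : ℝ, ‖starRingEnd ℂ w * Complex.exp (Complex.I * (x : ℂ))‖ = ‖w‖ := fun x => by
    rw [norm_mul, Complex.norm_exp]; simp
  have hc1 : ∀ n : ℕ, Continuous fun x : ℝ => (w * Complex.exp (-(Complex.I * (x : ℂ)))) ^ n :=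
    fun n => by fun_prop
  have hc2 : ∀ n : ℕ, Continuous fun x : ℝ =>
      (starRingEnd ℂ w * Complex.exp (Complex.I * (x : ℂ))) ^ (n + 1) := fun n => by fun_prop
  have hi1 : ∀ n : ℕ, Integrable (fun x : ℝ => (w * Complex.exp (-(Complex.I * (x : ℂ)))) ^ n * f x) mu :=
    fun n => hx_integrable_mul f hf _ (hc1 n) (‖w‖ ^ n) fun x => by rw [norm_pow, hu]
  have hi2 : ∀ n : ℕ, Integrable (fun x : ℝ =>
      (starRingEnd ℂ w * Complex.exp (Complex.I * (x : ℂ))) ^ (n + 1) * f x) mu :=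
    fun n => hx_integrable_mul f hf _ (hc2 n) (‖w‖ ^ (n + 1)) fun x => by rw [norm_pow, hv]
  have hs1 : Summable fun n : ℕ => ∫ x : ℝ, ‖(w * Complex.exp (-(Complex.I * (x : ℂ)))) ^ n * f x‖ ∂mu := by
    have : (fun n : ℕ => ∫ x : ℝ, ‖(w * Complex.exp (-(Complex.I * (x : ℂ)))) ^ n * f x‖ ∂mu) =
        fun n => ‖w‖ ^ n * ∫ x, ‖f x‖ ∂mu := by
      funext n
      rw [← integral_const_mul]
      congr 1
      funext x
      rw [norm_mul, norm_pow, hu]
    rw [this]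
    exact (summable_geometric_of_lt_one (norm_nonneg w) hw).mul_right _
  have hs2 : Summable fun n : ℕ => ∫ x : ℝ, ‖(starRingEnd ℂ w * Complex.exp (Complex.I * (x : ℂ))) ^ (n + 1)
      * f x‖ ∂mu := by
    have : (fun n : ℕ => ∫ x : ℝ, ‖(starRingEnd ℂ w * Complex.exp (Complex.I * (x : ℂ))) ^ (n + 1) *
        f x‖ ∂mu) = fun n => ‖w‖ ^ n * (‖w‖ * ∫ x, ‖f x‖ ∂mu) := by
      funext n
      rw [← mul_assoc, ← pow_succ, ← integral_const_mul]
      congr 1
      funext x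
      rw [norm_mul, norm_pow, hv]
    rw [this]
    exact (summable_geometric_of_lt_one (norm_nonneg w) hw).mul_right _
  have h1 := hasSum_integral_of_summable_integral_norm hi1 hs1
  have h2 := hasSum_integral_of_summable_integral_norm hi2 hs2
  have e1 : ∀ n : ℕ, ∫ x : ℝ, (w * Complex.exp (-(Complex.I * (x : ℂ)))) ^ n * f x ∂mu =
      (2 * Real.pi : ℂ) * (coef f n * w ^ n) := by
    intro n
    have h3 : ∀ x : ℝ, (w * Complex.exp (-(Complex.I * (x : ℂ)))) ^ n * f x =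
        w ^ n * (Complex.exp (-((n : ℂ) * Complex.I * (x : ℂ))) * f x) := by
      intro x
      rw [mul_pow, ← Complex.exp_nat_mul, mul_assoc]
      congr 3
      ring
    simp_rw [h3]
    rw [integral_const_mul]
    have h4 : ∫ x : ℝ, Complex.exp (-((n : ℂ) * Complex.I * (x : ℂ))) * f x ∂mu =
        (2 * Real.pi : ℂ) * coef f n := by
      unfold coef mu
      rw [← mul_assoc]
      have hpi : (Real.pi : ℂ) ≠ 0 := by exact_mod_cast Real.pi_ne_zero
      have : (2 * Real.pi : ℂ) * ((1 / (2 * Real.pi) : ℝ) : ℂ) = 1 := by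
        push_cast
        field_simp
      rw [this, one_mul]
    rw [h4]; ring
  have e2 : ∀ n : ℕ, ∫ x : ℝ, (starRingEnd ℂ w * Complex.exp (Complex.I * (x : ℂ))) ^ (n + 1) * f x ∂mu =
      0 := by
    intro n
    have h3 : ∀ x : ℝ, (starRingEnd ℂ w * Complex.exp (Complex.I * (x : ℂ))) ^ (n + 1) * f x =
        (starRingEnd ℂ w) ^ (n + 1) * (Complex.exp (((n : ℂ) + 1) * Complex.I * (x : ℂ)) * f x) := by
      intro x
      rw [mul_pow, ← Complex.exp_nat_mul, mul_assoc]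
      congr 3
      push_cast
      ring
    simp_rw [h3]
    rw [integral_const_mul]
    have h4 : ∫ x : ℝ, Complex.exp (((n : ℂ) + 1) * Complex.I * (x : ℂ)) * f x ∂mu = 0 := ha n
    rw [h4, mul_zero]
  have t1 : ∀ x : ℝ, ∑' n : ℕ, (w * Complex.exp (-(Complex.I * (x : ℂ)))) ^ n * f x =
      (1 - w * Complex.exp (-(Complex.I * (x : ℂ))))⁻¹ * f x := by
    intro x
    rw [tsum_mul_right, tsum_geometric_of_norm_lt_one (by rw [hu]; exact hw)]
  have t2 : ∀ x : ℝ, ∑' n : ℕ, (starRingEnd ℂ w * Complex.exp (Complex.I * (x : ℂ))) ^ (n + 1) * f x =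
      (starRingEnd ℂ w * Complex.exp (Complex.I * (x : ℂ))) *
        (1 - starRingEnd ℂ w * Complex.exp (Complex.I * (x : ℂ)))⁻¹ * f x := by
    intro x
    rw [tsum_mul_right]
    congr 1
    simp_rw [pow_succ']
    rw [tsum_mul_left, tsum_geometric_of_norm_lt_one (by rw [hv]; exact hw)]
  simp_rw [e1, t1] at h1
  simp_rw [e2, t2] at h2
  have h5 := h1.tsum_eq
  have h6 := h2.tsum_eq
  rw [tsum_zero] at h6
  rw [tsum_mul_left] at h5
  have h7 : ∀ x : ℝ, ((pk w x : ℝ) : ℂ) * f x = (1 - w * Complex.exp (-(Complex.I * (x : ℂ))))⁻¹ * f x +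
      (starRingEnd ℂ w * Complex.exp (Complex.I * (x : ℂ))) *
        (1 - starRingEnd ℂ w * Complex.exp (Complex.I * (x : ℂ)))⁻¹ * f x := by
    intro x
    rw [pk_id w hw x]
    ring
  have h8 : ∫ x : ℝ, ((pk w x : ℝ) : ℂ) * f x ∂mu = (2 * Real.pi : ℂ) * ext f w := by
    simp_rw [h7]
    have hd : ∀ x : ℝ, 1 - ‖w‖ ≤ ‖1 - w * Complex.exp (-(Complex.I * (x : ℂ)))‖ := by
      intro x
      have h3 := norm_sub_norm_le (1 : ℂ) (w * Complex.exp (-(Complex.I * (x : ℂ))))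
      rw [norm_one, hu] at h3
      exact h3
    have hd' : ∀ x : ℝ, 1 - ‖w‖ ≤ ‖1 - starRingEnd ℂ w * Complex.exp (Complex.I * (x : ℂ))‖ := by
      intro x
      have h3 := norm_sub_norm_le (1 : ℂ) (starRingEnd ℂ w * Complex.exp (Complex.I * (x : ℂ)))
      rw [norm_one, hv] at h3
      exact h3
    have hw1 : 0 < 1 - ‖w‖ := by linarith
    have hne : ∀ x : ℝ, 1 - w * Complex.exp (-(Complex.I * (x : ℂ))) ≠ 0 := fun x =>
      norm_pos_iff.1 (hw1.trans_le (hd x))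
    have hne' : ∀ x : ℝ, 1 - starRingEnd ℂ w * Complex.exp (Complex.I * (x : ℂ)) ≠ 0 := fun x =>
      norm_pos_iff.1 (hw1.trans_le (hd' x))
    rw [integral_add]
    · rw [← h5, ← h6, add_zero]
      rfl
    · refine hx_integrable_mul f hf _ ?_ ((1 - ‖w‖)⁻¹) fun x => ?_
      · exact Continuous.inv₀ (by fun_prop) hne
      · rw [norm_inv]
        exact inv_anti₀ hw1 (hd x)
    · refine hx_integrable_mul f hf _ ?_ (‖w‖ * (1 - ‖w‖)⁻¹) fun x => ?_
      · exact Continuous.mul (by fun_prop) (Continuous.inv₀ (by fun_prop) hne')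
      · rw [norm_mul, norm_inv, hv]
        exact mul_le_mul_of_nonneg_left (inv_anti₀ hw1 (hd' x)) (norm_nonneg w)
  have h9 : ∫ x in Set.Ioc 0 (2 * Real.pi), ((pk w x : ℝ) : ℂ) * f x = (2 * Real.pi : ℂ) * ext f w := h8
  rw [h9, ← mul_assoc]
  have hpi : (Real.pi : ℂ) ≠ 0 := by exact_mod_cast Real.pi_ne_zero
  have : ((1 / (2 * Real.pi) : ℝ) : ℂ) * (2 * Real.pi : ℂ) = 1 := by
    push_cast
    field_simp
  rw [this, one_mul]

theorem hx_coef_one (n : ℕ) : coef (fun _ => (1 : ℂ)) n = if n = 0 then 1 else 0 := by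
  have h := hx_int_exp (-(n : ℤ))
  unfold coef
  have h1 : ∫ x in Set.Ioc 0 (2 * Real.pi), Complex.exp (-((n : ℂ) * Complex.I * (x : ℂ))) * (1 : ℂ) =
      if n = 0 then (2 * Real.pi : ℂ) else 0 := by
    simp only [mul_one]
    have h2 : (fun x : ℝ => Complex.exp (-((n : ℂ) * Complex.I * (x : ℂ)))) =
        fun x : ℝ => Complex.exp (((-(n : ℤ) : ℤ) : ℂ) * Complex.I * (x : ℂ)) := by
      funext x
      congr 1
      push_cast
      ring
    rw [h2, h]
    by_cases hn : n = 0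
    · simp [hn]
    · simp [hn]
  rw [h1]
  by_cases hn : n = 0
  · rw [if_pos hn, if_pos hn]
    have hpi : (Real.pi : ℂ) ≠ 0 := by exact_mod_cast Real.pi_ne_zero
    push_cast
    field_simp
  · rw [if_neg hn, if_neg hn, mul_zero]

theorem hx_ext_one (w : ℂ) : ext (fun _ => (1 : ℂ)) w = 1 := by
  unfold ext
  simp_rw [hx_coef_one]
  rw [tsum_eq_single 0]
  · simp
  · intro n hn
    simp [hn]

theorem pk_integrable (w : ℂ) (hw : ‖w‖ < 1) : Integrable (pk w) mu := by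
  obtain ⟨C, hC⟩ := pk_bdd w hw
  exact (integrable_const C).mono' (pk_cont w hw).aestronglyMeasurable (Eventually.of_forall hC)

theorem pk_integral (w : ℂ) (hw : ‖w‖ < 1) : ∫ x, pk w x ∂mu = 2 * Real.pi := by
  have h := hx_poisson (fun _ => (1 : ℂ)) (integrable_const _) (Hinf_const 1).ha w hw
  rw [hx_ext_one] at h
  have h1 : ∫ x in Set.Ioc 0 (2 * Real.pi), ((pk w x : ℝ) : ℂ) * (1 : ℂ) =
      ((∫ x, pk w x ∂mu : ℝ) : ℂ) := by
    simp only [mul_one]
    exact integral_ofReal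
  rw [h1, ← Complex.ofReal_mul] at h
  have h2 : (1 : ℝ) = 1 / (2 * Real.pi) * ∫ x, pk w x ∂mu := by exact_mod_cast h
  have h3 : (0 : ℝ) < 2 * Real.pi := hx_pos
  field_simp at h2
  linarith

theorem pk_mul_integrable (w : ℂ) (hw : ‖w‖ < 1) (g : ℝ → ℝ) (hg : Integrable g mu) :
    Integrable (fun x => pk w x * g x) mu := by
  obtain ⟨C, hC⟩ := pk_bdd w hw
  exact hg.bdd_mul (pk_cont w hw).aestronglyMeasurable (Eventually.of_forall hC)

theorem pk_mul_integrable' (w : ℂ) (hw : ‖w‖ < 1) (g : ℝ → ℂ) (hg : Integrable g mu) :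
    Integrable (fun x => ((pk w x : ℝ) : ℂ) * g x) mu := by
  obtain ⟨C, hC⟩ := pk_bdd w hw
  refine hg.bdd_mul (Complex.continuous_ofReal.comp (pk_cont w hw)).aestronglyMeasurable
    (Eventually.of_forall fun x => ?_) (c := C)
  show ‖((pk w x : ℝ) : ℂ)‖ ≤ C
  rw [Complex.norm_real]
  exact hC x

theorem hx_half : ‖((1 / (2 * Real.pi) : ℝ) : ℂ)‖ = 1 / (2 * Real.pi) := by
  rw [Complex.norm_real, Real.norm_eq_abs, abs_of_pos (by positivity)]

theorem ext_bd (f : ℝ → ℂ) (hf : Hinf f) (C : ℝ) (hC : BD f C) :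
    DifferentiableOn ℂ (ext f) (Metric.ball 0 1) ∧ ∀ w ∈ Metric.ball (0 : ℂ) 1, ‖ext f w‖ ≤ C := by
  refine ⟨hx_tsum_diff (coef f) _ (hx_coef_le f), fun w hw => ?_⟩
  rw [mem_ball_zero_iff] at hw
  have hfi : Integrable f mu := hf.mem.integrable le_top
  rw [hx_poisson f hfi hf.ha w hw, norm_mul, hx_half]
  have h1 : ‖∫ x in Set.Ioc 0 (2 * Real.pi), ((pk w x : ℝ) : ℂ) * f x‖ ≤ ∫ x, pk w x * C ∂mu := by
    refine norm_integral_le_of_norm_le ((pk_integrable w hw).mul_const C) ?_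
    filter_upwards [hC] with x hx
    rw [norm_mul, Complex.norm_real, Real.norm_eq_abs, abs_of_nonneg (pk_nonneg w hw x)]
    exact mul_le_mul_of_nonneg_left hx (pk_nonneg w hw x)
  rw [integral_mul_const, pk_integral w hw] at h1
  have h3 : (0 : ℝ) < 2 * Real.pi := hx_pos
  calc 1 / (2 * Real.pi) * _ ≤ 1 / (2 * Real.pi) * (2 * Real.pi * C) :=
        mul_le_mul_of_nonneg_left h1 (by positivity)
    _ = C := by field_simp

theorem ext_diff (f : ℝ → ℂ) (hf : Htwo f) : DifferentiableOn ℂ (ext f) (Metric.ball 0 1) :=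
  hx_tsum_diff (coef f) _ (hx_coef_le f)

theorem hx_re (V : ℝ → ℂ) (hV : Integrable V mu) (ha : HA V) (w : ℂ) (hw : ‖w‖ < 1) :
    (ext V w).re = 1 / (2 * Real.pi) * ∫ x, pk w x * (V x).re ∂mu := by
  rw [hx_poisson V hV ha w hw, Complex.re_ofReal_mul]
  congr 1
  have h := integral_re (𝕜 := ℂ) (pk_mul_integrable' w hw V hV)
  have h2 : RCLike.re (∫ x, ((pk w x : ℝ) : ℂ) * V x ∂mu) =
      (∫ x in Set.Ioc 0 (2 * Real.pi), ((pk w x : ℝ) : ℂ) * V x).re := rfl
  rw [← h2, ← h]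
  refine integral_congr_ae (Eventually.of_forall fun x => ?_)
  show (((pk w x : ℝ) : ℂ) * V x).re = _
  rw [Complex.re_ofReal_mul]

theorem ext_re (V : ℝ → ℂ) (hV : Htwo V) (m M : ℝ)
    (h : ∀ᵐ x ∂mu, m ≤ (V x).re ∧ (V x).re ≤ M) :
    ∀ w ∈ Metric.ball (0 : ℂ) 1, m ≤ (ext V w).re ∧ (ext V w).re ≤ M := by
  intro w hw
  rw [mem_ball_zero_iff] at hw
  have hVi := hx_integrable V hV
  rw [hx_re V hVi hV.ha w hw]
  have hre : Integrable (fun x => (V x).re) mu := hVi.re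
  have h3 : (0 : ℝ) < 2 * Real.pi := hx_pos
  have h1 : ∫ x, pk w x * m ∂mu ≤ ∫ x, pk w x * (V x).re ∂mu :=
    integral_mono_ae ((pk_integrable w hw).mul_const m) (pk_mul_integrable w hw _ hre) (by
      filter_upwards [h] with x hx
      exact mul_le_mul_of_nonneg_left hx.1 (pk_nonneg w hw x))
  have h2 : ∫ x, pk w x * (V x).re ∂mu ≤ ∫ x, pk w x * M ∂mu :=
    integral_mono_ae (pk_mul_integrable w hw _ hre) ((pk_integrable w hw).mul_const M) (by
      filter_upwards [h] with x hx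
      exact mul_le_mul_of_nonneg_left hx.2 (pk_nonneg w hw x))
  rw [integral_mul_const, pk_integral w hw] at h1 h2
  constructor
  · calc m = 1 / (2 * Real.pi) * (2 * Real.pi * m) := by field_simp
      _ ≤ _ := mul_le_mul_of_nonneg_left h1 (by positivity)
  · calc _ ≤ 1 / (2 * Real.pi) * (2 * Real.pi * M) := mul_le_mul_of_nonneg_left h2 (by positivity)
      _ = M := by field_simp

theorem hx_sq_integrable (a : ℝ → ℂ) (ha : Htwo a) : Integrable (fun x => ‖a x‖ ^ 2) mu :=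
  (memLp_two_iff_integrable_sq_norm ha.mem.aestronglyMeasurable).1 ha.mem

theorem hx_jensen (a : ℝ → ℂ) (ha : Htwo a) (w : ℂ) (hw : ‖w‖ < 1) :
    ‖ext a w‖ ^ 2 ≤ 1 / (2 * Real.pi) * ∫ x, pk w x * ‖a x‖ ^ 2 ∂mu := by
  have hai := hx_integrable a ha
  have hsq := hx_sq_integrable a ha
  set A : ℂ := ext a w with hA
  have h3 : (0 : ℝ) < 2 * Real.pi := hx_pos
  -- the integral of `pk * a`
  have h1 : ∫ x, ((pk w x : ℝ) : ℂ) * a x ∂mu = (2 * Real.pi : ℝ) * A := by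
    have h := hx_poisson a hai ha.ha w hw
    have h' : A = ((1 / (2 * Real.pi) : ℝ) : ℂ) * ∫ x, ((pk w x : ℝ) : ℂ) * a x ∂mu := h
    rw [h', ← mul_assoc, ← Complex.ofReal_mul]
    have : 2 * Real.pi * (1 / (2 * Real.pi)) = 1 := by field_simp
    rw [this]; simp
  have h2 : ∫ x, pk w x * (starRingEnd ℂ A * a x).re ∂mu = 2 * Real.pi * ‖A‖ ^ 2 := by
    have h4 : Integrable (fun x => starRingEnd ℂ A * (((pk w x : ℝ) : ℂ) * a x)) mu :=
      (pk_mul_integrable' w hw a hai).const_mul _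
    have h5 := integral_re (𝕜 := ℂ) h4
    have h6 : ∀ x, RCLike.re (starRingEnd ℂ A * (((pk w x : ℝ) : ℂ) * a x)) =
        pk w x * (starRingEnd ℂ A * a x).re := by
      intro x
      have : starRingEnd ℂ A * (((pk w x : ℝ) : ℂ) * a x) =
          ((pk w x : ℝ) : ℂ) * (starRingEnd ℂ A * a x) := by ring
      rw [this]
      exact Complex.re_ofReal_mul _ _
    simp_rw [h6] at h5
    rw [h5, integral_const_mul, h1]
    have h7 : starRingEnd ℂ A * (((2 * Real.pi : ℝ) : ℂ) * A) = ((2 * Real.pi * ‖A‖ ^ 2 : ℝ) : ℂ) := by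
      have : starRingEnd ℂ A * A = ((‖A‖ ^ 2 : ℝ) : ℂ) := by
        rw [mul_comm, Complex.mul_conj, Complex.normSq_eq_norm_sq]
      calc starRingEnd ℂ A * (((2 * Real.pi : ℝ) : ℂ) * A) =
            ((2 * Real.pi : ℝ) : ℂ) * (starRingEnd ℂ A * A) := by ring
        _ = _ := by rw [this, ← Complex.ofReal_mul]
    rw [h7]
    exact Complex.ofReal_re _
  have h4 : 0 ≤ ∫ x, pk w x * ‖a x - A‖ ^ 2 ∂mu :=
    integral_nonneg fun x => mul_nonneg (pk_nonneg w hw x) (by positivity)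
  have h5 : ∀ x, pk w x * ‖a x - A‖ ^ 2 = pk w x * ‖a x‖ ^ 2 -
      2 * (pk w x * (starRingEnd ℂ A * a x).re) + pk w x * ‖A‖ ^ 2 := by
    intro x
    have h6 : ‖a x - A‖ ^ 2 = ‖a x‖ ^ 2 - 2 * (starRingEnd ℂ A * a x).re + ‖A‖ ^ 2 := by
      rw [← Complex.normSq_eq_norm_sq, ← Complex.normSq_eq_norm_sq, ← Complex.normSq_eq_norm_sq,
        Complex.normSq_sub]
      have : (a x * starRingEnd ℂ A).re = (starRingEnd ℂ A * a x).re := by rw [mul_comm]
      rw [this]; ring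
    rw [h6]; ring
  simp_rw [h5] at h4
  have i1 := pk_mul_integrable w hw _ hsq
  have i2 : Integrable (fun x => pk w x * (starRingEnd ℂ A * a x).re) mu :=
    pk_mul_integrable w hw _ (hai.const_mul (starRingEnd ℂ A)).re
  have i3 : Integrable (fun x => pk w x * ‖A‖ ^ 2) mu := (pk_integrable w hw).mul_const _
  have i12 : Integrable (fun x => pk w x * ‖a x‖ ^ 2 -
      2 * (pk w x * (starRingEnd ℂ A * a x).re)) mu := i1.sub (i2.const_mul 2)
  rw [integral_add i12 i3, integral_sub i1 (i2.const_mul 2),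
    integral_const_mul, integral_mul_const, h2, pk_integral w hw] at h4
  have h6 : 2 * Real.pi * ‖A‖ ^ 2 ≤ ∫ x, pk w x * ‖a x‖ ^ 2 ∂mu := by linarith
  calc ‖A‖ ^ 2 = 1 / (2 * Real.pi) * (2 * Real.pi * ‖A‖ ^ 2) := by field_simp
    _ ≤ _ := mul_le_mul_of_nonneg_left h6 (by positivity)

theorem ext_convex (F a b : ℝ → ℂ) (hF : Htwo F) (ha : Hinf a) (hb : Hinf b)
    (h : ∀ᵐ x ∂mu, (F x).re = ‖a x‖ ^ 2 + ‖b x‖ ^ 2) :
    ∀ w ∈ Metric.ball (0 : ℂ) 1, ‖ext a w‖ ^ 2 + ‖ext b w‖ ^ 2 ≤ (ext F w).re := by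
  intro w hw
  rw [mem_ball_zero_iff] at hw
  have h1 := hx_jensen a ha.toHtwo w hw
  have h2 := hx_jensen b hb.toHtwo w hw
  rw [hx_re F (hx_integrable F hF) hF.ha w hw]
  have h3 : ∫ x, pk w x * (F x).re ∂mu = ∫ x, pk w x * ‖a x‖ ^ 2 ∂mu + ∫ x, pk w x * ‖b x‖ ^ 2 ∂mu := by
    rw [← integral_add (pk_mul_integrable w hw _ (hx_sq_integrable a ha.toHtwo))
      (pk_mul_integrable w hw _ (hx_sq_integrable b hb.toHtwo))]
    refine integral_congr_ae ?_
    filter_upwards [h] with x hx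
    rw [hx]; ring
  rw [h3, mul_add]
  exact add_le_add h1 h2

/-! ### `L²` convergence -/

theorem hx_coef_nat (f : ℝ → ℂ) (n : ℕ) : fourierCoeffOn hx_pos f (n : ℤ) = coef f n := by
  rw [fourierCoeffOn_eq_integral]
  unfold coef
  rw [intervalIntegral.integral_of_le hx_pos.le, sub_zero, Complex.real_smul]
  congr 1
  refine integral_congr_ae (Eventually.of_forall fun x => ?_)
  show fourier (-(n : ℤ)) ((x : ℝ) : AddCircle (2 * Real.pi)) • f x = _
  rw [fourier_coe_apply, smul_eq_mul]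
  congr 2
  have hpi : (Real.pi : ℂ) ≠ 0 := by exact_mod_cast Real.pi_ne_zero
  push_cast
  field_simp

theorem hx_coef_neg (f : ℝ → ℂ) (hf : HA f) (n : ℕ) :
    fourierCoeffOn hx_pos f (-((n : ℤ) + 1)) = 0 := by
  rw [fourierCoeffOn_eq_integral]
  rw [intervalIntegral.integral_of_le hx_pos.le]
  have h1 : ∫ x in Set.Ioc 0 (2 * Real.pi),
      fourier (-(-((n : ℤ) + 1))) ((x : ℝ) : AddCircle (2 * Real.pi - 0)) • f x = 0 := by
    rw [← hf n]
    refine integral_congr_ae (Eventually.of_forall fun x => ?_)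
    show fourier (-(-((n : ℤ) + 1))) ((x : ℝ) : AddCircle (2 * Real.pi - 0)) • f x = _
    rw [fourier_coe_apply, smul_eq_mul]
    congr 2
    have hpi : (Real.pi : ℂ) ≠ 0 := by exact_mod_cast Real.pi_ne_zero
    push_cast
    rw [sub_zero]
    field_simp
  rw [h1, smul_zero]

theorem hx_parseval (g : ℝ → ℂ) (hg : Htwo g) :
    HasSum (fun n : ℕ => ‖coef g n‖ ^ 2)
      ((2 * Real.pi)⁻¹ * ∫ x in Set.Ioc 0 (2 * Real.pi), ‖g x‖ ^ 2) := by
  have h := hasSum_sq_fourierCoeffOn hx_pos hg.mem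
  rw [sub_zero, smul_eq_mul, intervalIntegral.integral_of_le hx_pos.le] at h
  have h1 : (fun n : ℕ => ‖coef g n‖ ^ 2) =
      (fun i : ℤ => ‖fourierCoeffOn hx_pos g i‖ ^ 2) ∘ (fun n : ℕ => (n : ℤ)) := by
    funext n
    rw [Function.comp_apply, hx_coef_nat]
  rw [h1]
  refine (Function.Injective.hasSum_iff Nat.cast_injective ?_).2 h
  intro i hi
  have h2 : ∃ n : ℕ, i = -((n : ℤ) + 1) := by
    refine ⟨(-i - 1).toNat, ?_⟩
    have h3 : i < 0 := by
      by_contra h4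
      exact hi ⟨i.toNat, Int.toNat_of_nonneg (not_lt.1 h4)⟩
    rw [Int.toNat_of_nonneg (by omega)]
    ring
  obtain ⟨n, rfl⟩ := h2
  rw [hx_coef_neg g hg.ha n]
  simp

/-- the function `x ↦ Σ a_n r^n e^{inx}` -/
def hxS (a : ℕ → ℂ) (r : ℝ) (x : ℝ) : ℂ := ∑' n : ℕ, a n * ((r : ℂ) * E (x, 0)) ^ n

theorem hx_norm_rE (r x : ℝ) (hr : 0 ≤ r) : ‖(r : ℂ) * E (x, 0)‖ = r := by
  rw [norm_mul, norm_E, Complex.norm_real, Real.norm_eq_abs, abs_of_nonneg hr]
  simp

theorem hx_S_cont (a : ℕ → ℂ) (C : ℝ) (hC : ∀ n, ‖a n‖ ≤ C) (r : ℝ) (hr : 0 ≤ r) (hr1 : r < 1) :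
    Continuous (hxS a r) := by
  refine continuous_tsum (u := fun n => C * r ^ n) (fun n => ?_)
    ((summable_geometric_of_lt_one hr hr1).mul_left C) fun n x => ?_
  · have : Continuous fun x : ℝ => E (x, 0) := continuous_E.comp (by fun_prop)
    fun_prop
  · rw [norm_mul, norm_pow, hx_norm_rE r x hr]
    exact mul_le_mul_of_nonneg_right (hC n) (by positivity)

theorem hx_S_bdd (a : ℕ → ℂ) (C : ℝ) (hC : ∀ n, ‖a n‖ ≤ C) (r : ℝ) (hr : 0 ≤ r) (hr1 : r < 1) (x : ℝ) :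
    ‖hxS a r x‖ ≤ ∑' n : ℕ, C * r ^ n := by
  refine tsum_of_norm_bounded ((summable_geometric_of_lt_one hr hr1).mul_left C).hasSum fun n => ?_
  rw [norm_mul, norm_pow, hx_norm_rE r x hr]
  exact mul_le_mul_of_nonneg_right (hC n) (by positivity)

theorem hx_S_int (a : ℕ → ℂ) (C : ℝ) (hC : ∀ n, ‖a n‖ ≤ C) (r : ℝ) (hr : 0 ≤ r) (hr1 : r < 1) (m : ℤ) :
    ∫ x in Set.Ioc 0 (2 * Real.pi), Complex.exp (-((m : ℂ) * Complex.I * (x : ℂ))) * hxS a r x =
      ∑' n : ℕ, a n * (r : ℂ) ^ n * (if (n : ℤ) = m then (2 * Real.pi : ℂ) else 0) := by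
  have h1 : ∀ (n : ℕ) (x : ℝ), Complex.exp (-((m : ℂ) * Complex.I * (x : ℂ))) *
      (a n * ((r : ℂ) * E (x, 0)) ^ n) =
      a n * (r : ℂ) ^ n * Complex.exp ((((n : ℤ) - m : ℤ) : ℂ) * Complex.I * (x : ℂ)) := by
    intro n x
    rw [E_zero, mul_pow, ← Complex.exp_nat_mul]
    have : Complex.exp ((((n : ℤ) - m : ℤ) : ℂ) * Complex.I * (x : ℂ)) =
        Complex.exp (-((m : ℂ) * Complex.I * (x : ℂ))) * Complex.exp ((n : ℂ) * (Complex.I * (x : ℂ))) := by
      rw [← Complex.exp_add]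
      congr 1
      push_cast
      ring
    rw [this]; ring
  have hint : ∀ n : ℕ, Integrable (fun x : ℝ => Complex.exp (-((m : ℂ) * Complex.I * (x : ℂ))) *
      (a n * ((r : ℂ) * E (x, 0)) ^ n)) mu := by
    intro n
    simp_rw [h1]
    refine Integrable.mono' (integrable_const (‖a n * (r : ℂ) ^ n‖))
      (Continuous.aestronglyMeasurable (by fun_prop)) (Eventually.of_forall fun x => ?_)
    rw [norm_mul, hx_norm_exp, mul_one]
  have hnorm : ∀ (n : ℕ) (x : ℝ), ‖Complex.exp (-((m : ℂ) * Complex.I * (x : ℂ))) *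
      (a n * ((r : ℂ) * E (x, 0)) ^ n)‖ = ‖a n‖ * r ^ n := by
    intro n x
    rw [h1, norm_mul, hx_norm_exp, mul_one, norm_mul, norm_pow, Complex.norm_real, Real.norm_eq_abs,
      abs_of_nonneg hr]
  have hsum : Summable fun n : ℕ => ∫ x : ℝ, ‖Complex.exp (-((m : ℂ) * Complex.I * (x : ℂ))) *
      (a n * ((r : ℂ) * E (x, 0)) ^ n)‖ ∂mu := by
    simp_rw [hnorm]
    simp_rw [integral_const, smul_eq_mul]
    refine Summable.mul_left _ ?_
    refine Summable.of_nonneg_of_le (fun n => by positivity)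
      (fun n => mul_le_mul_of_nonneg_right (hC n) (by positivity))
      ((summable_geometric_of_lt_one hr hr1).mul_left C)
  have h2 := (hasSum_integral_of_summable_integral_norm hint hsum).tsum_eq
  have h3 : ∫ x, ∑' n : ℕ, Complex.exp (-((m : ℂ) * Complex.I * (x : ℂ))) *
      (a n * ((r : ℂ) * E (x, 0)) ^ n) ∂mu =
      ∫ x in Set.Ioc 0 (2 * Real.pi), Complex.exp (-((m : ℂ) * Complex.I * (x : ℂ))) * hxS a r x := by
    unfold mu
    congr 1
    funext x
    rw [tsum_mul_left]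
    rfl
  rw [← h3, ← h2]
  congr 1
  funext n
  simp_rw [h1]
  rw [integral_const_mul]
  congr 1
  have h4 := hx_int_exp ((n : ℤ) - m)
  have h5 : ∫ x : ℝ, Complex.exp ((((n : ℤ) - m : ℤ) : ℂ) * Complex.I * (x : ℂ)) ∂mu =
      if (n : ℤ) - m = 0 then (2 * Real.pi : ℂ) else 0 := h4
  rw [h5]
  simp only [sub_eq_zero]

theorem hx_S_coef (a : ℕ → ℂ) (C : ℝ) (hC : ∀ n, ‖a n‖ ≤ C) (r : ℝ) (hr : 0 ≤ r) (hr1 : r < 1) (m : ℕ) :
    coef (hxS a r) m = a m * (r : ℂ) ^ m := by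
  have h := hx_S_int a C hC r hr hr1 (m : ℤ)
  unfold coef
  have h1 : ∫ x in Set.Ioc 0 (2 * Real.pi), Complex.exp (-((m : ℂ) * Complex.I * (x : ℂ))) * hxS a r x =
      a m * (r : ℂ) ^ m * (2 * Real.pi : ℂ) := by
    have h2 : ∫ x in Set.Ioc 0 (2 * Real.pi), Complex.exp (-((((m : ℤ) : ℂ)) * Complex.I * (x : ℂ))) *
        hxS a r x = ∫ x in Set.Ioc 0 (2 * Real.pi),
          Complex.exp (-((m : ℂ) * Complex.I * (x : ℂ))) * hxS a r x := by simp
    rw [← h2, h, tsum_eq_single m]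
    · simp
    · intro n hn
      rw [if_neg (by exact_mod_cast hn), mul_zero]
  rw [h1]
  have hpi : (Real.pi : ℂ) ≠ 0 := by exact_mod_cast Real.pi_ne_zero
  push_cast
  field_simp

theorem hx_S_HA (a : ℕ → ℂ) (C : ℝ) (hC : ∀ n, ‖a n‖ ≤ C) (r : ℝ) (hr : 0 ≤ r) (hr1 : r < 1) :
    HA (hxS a r) := by
  intro n
  have h := hx_S_int a C hC r hr hr1 (-((n : ℤ) + 1))
  have h1 : ∀ k : ℕ, a k * (r : ℂ) ^ k *
      (if (k : ℤ) = -((n : ℤ) + 1) then (2 * Real.pi : ℂ) else 0) = 0 := by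
    intro k
    rw [if_neg (by omega), mul_zero]
  simp_rw [h1] at h
  rw [tsum_zero] at h
  rw [← h]
  congr 1
  funext x
  congr 2
  push_cast
  ring

theorem hx_S_Htwo (a : ℕ → ℂ) (C : ℝ) (hC : ∀ n, ‖a n‖ ≤ C) (r : ℝ) (hr : 0 ≤ r) (hr1 : r < 1) :
    Htwo (hxS a r) :=
  ⟨MemLp.of_bound (hx_S_cont a C hC r hr hr1).aestronglyMeasurable _
    (Eventually.of_forall (hx_S_bdd a C hC r hr hr1)), hx_S_HA a C hC r hr hr1⟩

theorem hx_coef_sub (f g : ℝ → ℂ) (hf : Htwo f) (hg : Htwo g) (n : ℕ) :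
    coef (fun x => f x - g x) n = coef f n - coef g n := by
  unfold coef
  rw [← mul_sub]
  congr 1
  have hc : Continuous fun x : ℝ => Complex.exp (-((n : ℂ) * Complex.I * (x : ℂ))) := by fun_prop
  have i1 := hx_integrable_mul f (hx_integrable f hf) _ hc 1 fun x => (hx_norm_exp_nat n x).le
  have i2 := hx_integrable_mul g (hx_integrable g hg) _ hc 1 fun x => (hx_norm_exp_nat n x).le
  have h := integral_sub i1 i2
  have h2 : ∫ x, (Complex.exp (-((n : ℂ) * Complex.I * (x : ℂ))) * f x -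
      Complex.exp (-((n : ℂ) * Complex.I * (x : ℂ))) * g x) ∂mu =
      ∫ x in Set.Ioc 0 (2 * Real.pi), Complex.exp (-((n : ℂ) * Complex.I * (x : ℂ))) * (f x - g x) := by
    unfold mu
    congr 1
    funext x
    ring
  rw [← h2]
  exact h

theorem ext_L2 (f : ℝ → ℂ) (hf : Htwo f) :
    Tendsto (fun r : ℝ => ∫ x in Set.Ioc 0 (2 * Real.pi), ‖ext f ((r : ℂ) * E (x, 0)) - f x‖ ^ 2)
      (𝓝[<] 1) (𝓝 0) := by
  have hsum := (hx_parseval f hf).summable
  have hev : ∀ᶠ r : ℝ in 𝓝[<] 1, 0 ≤ r ∧ r < 1 := by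
    have h1 : ∀ᶠ r : ℝ in 𝓝[<] 1, r < 1 := self_mem_nhdsWithin
    have h2 : ∀ᶠ r : ℝ in 𝓝[<] 1, 0 < r :=
      (lt_mem_nhds (show (0 : ℝ) < 1 from one_pos)).filter_mono nhdsWithin_le_nhds
    filter_upwards [h1, h2] with r h3 h4
    exact ⟨h4.le, h3⟩
  have hkey : ∀ r : ℝ, 0 ≤ r → r < 1 →
      ∫ x in Set.Ioc 0 (2 * Real.pi), ‖ext f ((r : ℂ) * E (x, 0)) - f x‖ ^ 2 =
        (2 * Real.pi) * ∑' n : ℕ, ‖coef f n‖ ^ 2 * (1 - r ^ n) ^ 2 := by
    intro r hr hr1
    have hS := hx_S_Htwo (coef f) _ (hx_coef_le f) r hr hr1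
    have hg : Htwo (fun x => hxS (coef f) r x - f x) := by
      have := hS.add (hf.smul (-1))
      refine ⟨?_, ?_⟩
      · convert this.mem using 1
        funext x; ring
      · intro n
        have h1 := this.ha n
        rw [← h1]
        congr 1
        funext x
        ring
    have h1 := (hx_parseval _ hg).tsum_eq
    have h2 : ∀ n, coef (fun x => hxS (coef f) r x - f x) n = -(coef f n * (1 - (r : ℂ) ^ n)) := by
      intro n
      rw [hx_coef_sub _ _ hS hf, hx_S_coef (coef f) _ (hx_coef_le f) r hr hr1]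
      ring
    have h3 : ∀ n, ‖coef (fun x => hxS (coef f) r x - f x) n‖ ^ 2 = ‖coef f n‖ ^ 2 * (1 - r ^ n) ^ 2 := by
      intro n
      rw [h2, norm_neg, norm_mul, mul_pow]
      congr 1
      have : (1 : ℂ) - (r : ℂ) ^ n = ((1 - r ^ n : ℝ) : ℂ) := by push_cast; ring
      rw [this, Complex.norm_real, Real.norm_eq_abs, sq_abs]
    simp_rw [h3] at h1
    rw [h1]
    have h4 : ∀ x, ext f ((r : ℂ) * E (x, 0)) = hxS (coef f) r x := fun x => rfl
    simp_rw [h4]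
    have h5 : (2 * Real.pi : ℝ) ≠ 0 := hx_pos.ne'
    field_simp
  have hlim : Tendsto (fun r : ℝ => ∑' n : ℕ, ‖coef f n‖ ^ 2 * (1 - r ^ n) ^ 2) (𝓝[<] 1)
      (𝓝 (∑' n : ℕ, ‖coef f n‖ ^ 2 * (1 - (1 : ℝ) ^ n) ^ 2)) := by
    refine tendsto_tsum_of_dominated_convergence (bound := fun n => ‖coef f n‖ ^ 2) hsum
      (fun n => ?_) ?_
    · have hc : Continuous fun r : ℝ => ‖coef f n‖ ^ 2 * (1 - r ^ n) ^ 2 := by fun_prop
      exact (hc.tendsto 1).mono_left nhdsWithin_le_nhds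
    · filter_upwards [hev] with r hr n
      have h1 : 0 ≤ r ^ n := pow_nonneg hr.1 n
      have h2 : r ^ n ≤ 1 := pow_le_one₀ hr.1 hr.2.le
      rw [Real.norm_eq_abs, abs_of_nonneg (by positivity)]
      have h3 : (1 - r ^ n) ^ 2 ≤ 1 := by nlinarith
      calc ‖coef f n‖ ^ 2 * (1 - r ^ n) ^ 2 ≤ ‖coef f n‖ ^ 2 * 1 :=
            mul_le_mul_of_nonneg_left h3 (by positivity)
        _ = _ := mul_one _
  have h0 : ∑' n : ℕ, ‖coef f n‖ ^ 2 * (1 - (1 : ℝ) ^ n) ^ 2 = 0 := by simp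
  rw [h0] at hlim
  have h1 := hlim.const_mul (2 * Real.pi)
  rw [mul_zero] at h1
  refine h1.congr' ?_
  filter_upwards [hev] with r hr
  exact (hkey r hr.1 hr.2).symm

theorem ext_zero (f : ℝ → ℂ) : ext f 0 = coef f 0 := by
  unfold ext
  rw [tsum_eq_single 0]
  · simp
  · intro n hn
    simp [hn]

theorem coef_of_ext (f g : ℝ → ℂ) (hf : Htwo f) (hg : Htwo g)
    (h : ∀ w ∈ Metric.ball (0 : ℂ) 1, ext f w = ext g w) : ∀ n, coef f n = coef g n := by
  have key : ∀ f : ℝ → ℂ, HasFPowerSeriesAt (ext f) (FormalMultilinearSeries.ofScalars ℂ (coef f)) 0 := by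
    intro f
    rw [hasFPowerSeriesAt_iff]
    filter_upwards [Metric.ball_mem_nhds (0 : ℂ) one_pos] with z hz
    rw [mem_ball_zero_iff] at hz
    have h1 := (hx_summable (coef f) _ (hx_coef_le f) z hz).hasSum
    rw [zero_add]
    have h2 : (fun n => z ^ n • (FormalMultilinearSeries.ofScalars ℂ (coef f)).coeff n) =
        fun n => coef f n * z ^ n := by
      funext n
      rw [FormalMultilinearSeries.coeff_ofScalars, smul_eq_mul, mul_comm]
    rw [h2]
    exact h1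
  have h1 : ext f =ᶠ[𝓝 0] ext g := by
    filter_upwards [Metric.ball_mem_nhds (0 : ℂ) one_pos] with z hz
    exact h z hz
  have h2 := (key f).congr h1
  have h3 := h2.eq_formalMultilinearSeries (key g)
  intro n
  have h4 := congrArg (fun p => FormalMultilinearSeries.coeff p n) h3
  simpa using h4

end Pool.H14.SR

end S_HX

noncomputable section S_HJ

open MeasureTheory Set Filter Topology
namespace Pool.H14.SR

/-- integral against `e^{ikx}` -/
def hjI (f : ℝ → ℂ) (k : ℤ) : ℂ :=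
  ∫ x, Complex.exp ((k : ℂ) * Complex.I * (x : ℂ)) * f x ∂mu

/-- the character `e^{ikx}` -/
def hjE (k : ℤ) : ℝ → ℂ := fun x => Complex.exp ((k : ℂ) * Complex.I * (x : ℂ))

theorem hj_conj_int (k : ℤ) : starRingEnd ℂ (k : ℂ) = (k : ℂ) := by
  have : (k : ℂ) = ((k : ℝ) : ℂ) := by push_cast; rfl
  rw [this, Complex.conj_ofReal]

theorem hj_norm_exp (k : ℤ) (x : ℝ) : ‖Complex.exp ((k : ℂ) * Complex.I * (x : ℂ))‖ = 1 := by
  have : (k : ℂ) * Complex.I * (x : ℂ) = ((k * x : ℝ) : ℂ) * Complex.I := by push_cast; ring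
  rw [this, Complex.norm_exp_ofReal_mul_I]

theorem hj_cont (k : ℤ) : Continuous (hjE k) := by
  unfold hjE
  fun_prop

theorem hj_memLp (k : ℤ) (p : ENNReal) : MemLp (hjE k) p mu :=
  MemLp.of_bound (hj_cont k).aestronglyMeasurable 1 (ae_of_all _ fun x => (hj_norm_exp k x).le)

theorem hj_int {f : ℝ → ℂ} (hf : MemLp f 2 mu) (k : ℤ) :
    Integrable (fun x : ℝ => Complex.exp ((k : ℂ) * Complex.I * (x : ℂ)) * f x) mu :=
  (hf.integrable one_le_two).bdd_mul (c := 1) (hj_cont k).aestronglyMeasurable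
    (ae_of_all _ fun x => (hj_norm_exp k x).le)

theorem hj_congr {f g : ℝ → ℂ} (h : f =ᵐ[mu] g) (k : ℤ) : hjI f k = hjI g k := by
  unfold hjI
  apply integral_congr_ae
  filter_upwards [h] with x hx
  rw [hx]

theorem hj_add {f g : ℝ → ℂ} (hf : MemLp f 2 mu) (hg : MemLp g 2 mu) (k : ℤ) :
    hjI (fun x => f x + g x) k = hjI f k + hjI g k := by
  unfold hjI
  rw [← integral_add (hj_int hf k) (hj_int hg k)]
  congr 1
  ext x
  ring

theorem hj_sub {f g : ℝ → ℂ} (hf : MemLp f 2 mu) (hg : MemLp g 2 mu) (k : ℤ) :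
    hjI (fun x => f x - g x) k = hjI f k - hjI g k := by
  unfold hjI
  rw [← integral_sub (hj_int hf k) (hj_int hg k)]
  congr 1
  ext x
  ring

theorem hj_smul (c : ℂ) (f : ℝ → ℂ) (k : ℤ) :
    hjI (fun x => c * f x) k = c * hjI f k := by
  unfold hjI
  rw [← integral_const_mul]
  congr 1
  ext x
  ring

theorem hj_conj (f : ℝ → ℂ) (k : ℤ) :
    hjI (fun x => starRingEnd ℂ (f x)) k = starRingEnd ℂ (hjI f (-k)) := by
  unfold hjI
  rw [← integral_conj]
  congr 1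
  ext x
  rw [map_mul, ← Complex.exp_conj]
  congr 2
  rw [map_mul, map_mul, Complex.conj_I, Complex.conj_ofReal]
  push_cast
  rw [map_neg, hj_conj_int]
  ring

theorem hj_one (k : ℤ) : hjI (fun _ => 1) k = if k = 0 then ((2 * Real.pi : ℝ) : ℂ) else 0 := by
  unfold hjI mu
  rw [← intervalIntegral.integral_of_le (by positivity)]
  by_cases hk : k = 0
  · rw [if_pos hk, hk]
    simp
  · rw [if_neg hk]
    have h1 : (k : ℂ) * Complex.I ≠ 0 :=
      mul_ne_zero (by exact_mod_cast hk) Complex.I_ne_zero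
    have h2 : (∫ x in (0 : ℝ)..(2 * Real.pi), Complex.exp ((k : ℂ) * Complex.I * (x : ℂ)) * 1)
        = ∫ x in (0 : ℝ)..(2 * Real.pi), Complex.exp (((k : ℂ) * Complex.I) * (x : ℂ)) := by
      congr 1
      ext x
      rw [mul_one]
    rw [h2, integral_exp_mul_complex h1]
    have h3 : (k : ℂ) * Complex.I * ((2 * Real.pi : ℝ) : ℂ) = (k : ℂ) * (2 * Real.pi * Complex.I) := by
      push_cast
      ring
    rw [h3, Complex.exp_int_mul_two_pi_mul_I]
    simp

theorem hj_const (c : ℂ) (k : ℤ) :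
    hjI (fun _ => c) k = if k = 0 then c * ((2 * Real.pi : ℝ) : ℂ) else 0 := by
  have h := hj_smul c (fun _ => 1) k
  simp only [mul_one] at h
  rw [h, hj_one]
  split_ifs <;> simp

theorem hj_HA (f : ℝ → ℂ) : HA f ↔ ∀ n : ℕ, hjI f ((n : ℤ) + 1) = 0 := by
  unfold HA hjI mu
  constructor
  · intro h n
    have := h n
    push_cast
    exact this
  · intro h n
    have := h n
    push_cast at this
    exact this

theorem hj_coef (f : ℝ → ℂ) (n : ℕ) :
    coef f n = ((1 / (2 * Real.pi) : ℝ) : ℂ) * hjI f (-(n : ℤ)) := by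
  unfold coef hjI mu
  congr 1
  congr 1
  ext x
  congr 2
  push_cast
  ring

/-- the characters in `L²` -/
def hjL (k : ℤ) : Lp ℂ 2 mu := (hj_memLp k 2).toLp (hjE k)

theorem hj_inner (k : ℤ) (f : Lp ℂ 2 mu) :
    inner ℂ (hjL k) f = hjI (f : ℝ → ℂ) (-k) := by
  rw [L2.inner_def]
  unfold hjI
  apply integral_congr_ae
  filter_upwards [(hj_memLp k 2).coeFn_toLp] with x hx
  show inner ℂ ((hjL k : ℝ → ℂ) x) ((f : ℝ → ℂ) x) = _
  have hx' : (hjL k : ℝ → ℂ) x = hjE k x := hx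
  rw [hx']
  unfold hjE
  rw [RCLike.inner_apply, mul_comm]
  congr 1
  rw [← Complex.exp_conj]
  congr 1
  rw [map_mul, map_mul, Complex.conj_I, Complex.conj_ofReal, hj_conj_int]
  push_cast
  ring

/-- `H²` as a subspace of `L²` -/
def hjK : Submodule ℂ (Lp ℂ 2 mu) :=
  (Submodule.span ℂ (Set.range fun n : ℕ => hjL (-((n : ℤ) + 1))))ᗮ

instance : hjK.HasOrthogonalProjection := by
  unfold hjK
  infer_instance

theorem hj_mem_K (f : Lp ℂ 2 mu) : f ∈ hjK ↔ HA (f : ℝ → ℂ) := by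
  rw [hj_HA]
  unfold hjK
  rw [Submodule.mem_orthogonal]
  constructor
  · intro h n
    have := h _ (Submodule.subset_span ⟨n, rfl⟩)
    rw [hj_inner, neg_neg] at this
    exact this
  · intro h u hu
    induction hu using Submodule.span_induction with
    | mem x hx =>
      obtain ⟨n, rfl⟩ := hx
      simp only
      rw [hj_inner, neg_neg]
      exact h n
    | zero => exact inner_zero_left _
    | add x y _ _ hx hy => rw [inner_add_left, hx, hy, add_zero]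
    | smul a x _ hx => rw [inner_smul_left, hx, mul_zero]

theorem hj_L_mem (n : ℕ) : hjL (n : ℤ) ∈ hjK := by
  rw [hj_mem_K, hj_HA]
  intro m
  have h1 : hjI (hjL (n : ℤ) : ℝ → ℂ) ((m : ℤ) + 1) = hjI (hjE n) ((m : ℤ) + 1) :=
    hj_congr (hj_memLp (n : ℤ) 2).coeFn_toLp _
  rw [h1]
  have h2 : hjI (hjE n) ((m : ℤ) + 1) = hjI (fun _ => 1) ((n : ℤ) + ((m : ℤ) + 1)) := by
    unfold hjI hjE
    congr 1
    ext x
    rw [← Complex.exp_add, mul_one]
    congr 1
    push_cast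
    ring
  rw [h2, hj_one, if_neg]
  omega

theorem hj_memLp_coe (f : Lp ℂ 2 mu) : MemLp (f : ℝ → ℂ) 2 mu := Lp.memLp f

/-- complexification -/
def hjC : Lp ℝ 2 mu →L[ℝ] Lp ℂ 2 mu := Complex.ofRealCLM.compLpL 2 mu

theorem hj_C (u : Lp ℝ 2 mu) : (hjC u : ℝ → ℂ) =ᵐ[mu] fun x => (((u : ℝ → ℝ) x : ℝ) : ℂ) :=
  Complex.ofRealCLM.coeFn_compLpL u

theorem hj_C_norm (u : Lp ℝ 2 mu) : ‖hjC u‖ ≤ ‖u‖ := by
  have h := Complex.ofRealCLM.norm_compLp_le u
  rw [Complex.ofRealCLM_norm, one_mul] at h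
  exact h

/-- the zeroth Fourier coefficient of a real function is real -/
theorem hj_c_real (u : Lp ℝ 2 mu) :
    starRingEnd ℂ (coef (hjC u : ℝ → ℂ) 0) = coef (hjC u : ℝ → ℂ) 0 := by
  rw [hj_coef, map_mul, Complex.conj_ofReal]
  congr 1
  have h1 := hj_conj (hjC u : ℝ → ℂ) 0
  have h2 : hjI (fun x => starRingEnd ℂ ((hjC u : ℝ → ℂ) x)) 0 = hjI (hjC u : ℝ → ℂ) 0 := by
    apply hj_congr
    filter_upwards [hj_C u] with x hx
    rw [hx, Complex.conj_ofReal]
  rw [h2] at h1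
  simp only [neg_zero, Nat.cast_zero] at h1 ⊢
  exact h1.symm

theorem hj_conj_real (u : Lp ℝ 2 mu) (k : ℤ) :
    starRingEnd ℂ (hjI (hjC u : ℝ → ℂ) (-k)) = hjI (hjC u : ℝ → ℂ) k := by
  have h1 := hj_conj (hjC u : ℝ → ℂ) k
  have h2 : hjI (fun x => starRingEnd ℂ ((hjC u : ℝ → ℂ) x)) k = hjI (hjC u : ℝ → ℂ) k := by
    apply hj_congr
    filter_upwards [hj_C u] with x hx
    rw [hx, Complex.conj_ofReal]
  rw [h2] at h1
  exact h1.symm

/-- positive coefficients of the projection -/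
theorem hj_P_coef (v : Lp ℂ 2 mu) (n : ℕ) :
    hjI (hjK.starProjection v : ℝ → ℂ) (-(n : ℤ)) = hjI (v : ℝ → ℂ) (-(n : ℤ)) := by
  rw [← hj_inner, ← hj_inner]
  have h1 := hjK.starProjection_inner_eq_zero v (hjL n) (hj_L_mem n)
  rw [inner_sub_left, sub_eq_zero] at h1
  rw [← inner_conj_symm, ← h1, inner_conj_symm]

theorem hj_P_HA (v : Lp ℂ 2 mu) : HA (hjK.starProjection v : ℝ → ℂ) :=
  (hj_mem_K _).1 (hjK.starProjection_apply_mem v)

theorem hj_conj_memLp {f : ℝ → ℂ} (hf : MemLp f 2 mu) :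
    MemLp (fun x => starRingEnd ℂ (f x)) 2 mu := hf.star

/-- key identity: `v = P v + conj (P v) - c` -/
theorem hj_key (u : Lp ℝ 2 mu) :
    ∀ᵐ x ∂mu, (((u : ℝ → ℝ) x : ℝ) : ℂ) = (hjK.starProjection (hjC u) : ℝ → ℂ) x
      + starRingEnd ℂ ((hjK.starProjection (hjC u) : ℝ → ℂ) x)
      - coef (hjC u : ℝ → ℂ) 0 := by
  set v := hjC u with hv
  set p := hjK.starProjection v with hp
  set c := coef (v : ℝ → ℂ) 0 with hc
  have mv := hj_memLp_coe v
  have mp := hj_memLp_coe p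
  have mcp := hj_conj_memLp mp
  have mc : MemLp (fun _ : ℝ => c) 2 mu := memLp_const c
  have m1 : MemLp (fun x => (v : ℝ → ℂ) x - (p : ℝ → ℂ) x) 2 mu := mv.sub mp
  have m2 : MemLp (fun x => ((v : ℝ → ℂ) x - (p : ℝ → ℂ) x)
      - starRingEnd ℂ ((p : ℝ → ℂ) x)) 2 mu := m1.sub mcp
  have m3 : MemLp (fun x => (((v : ℝ → ℂ) x - (p : ℝ → ℂ) x)
      - starRingEnd ℂ ((p : ℝ → ℂ) x)) + c) 2 mu := m2.add mc
  have hI : ∀ k : ℤ, hjI (fun x => (((v : ℝ → ℂ) x - (p : ℝ → ℂ) x)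
      - starRingEnd ℂ ((p : ℝ → ℂ) x)) + c) k
      = hjI (v : ℝ → ℂ) k - hjI (p : ℝ → ℂ) k - starRingEnd ℂ (hjI (p : ℝ → ℂ) (-k))
        + hjI (fun _ => c) k := by
    intro k
    rw [hj_add m2 mc, hj_sub m1 mcp, hj_sub mv mp, hj_conj]
  have hpos : ∀ n : ℕ, hjI (p : ℝ → ℂ) (-(n : ℤ)) = hjI (v : ℝ → ℂ) (-(n : ℤ)) :=
    fun n => hj_P_coef v n
  have hneg : ∀ n : ℕ, hjI (p : ℝ → ℂ) ((n : ℤ) + 1) = 0 := (hj_HA _).1 (hj_P_HA v)
  have hw : (fun x => (((v : ℝ → ℂ) x - (p : ℝ → ℂ) x)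
      - starRingEnd ℂ ((p : ℝ → ℂ) x)) + c) =ᵐ[mu] fun _ => (0 : ℂ) := by
    apply coef_inj
    · refine ⟨m3, ?_⟩
      rw [hj_HA]
      intro n
      rw [hI, hneg n]
      have h1 : -((n : ℤ) + 1) = -((n + 1 : ℕ) : ℤ) := by push_cast; ring
      rw [h1, hpos (n + 1), ← h1, hj_conj_real u ((n : ℤ) + 1), hj_const, if_neg (by omega)]
      ring
    · refine ⟨memLp_const 0, ?_⟩
      rw [hj_HA]
      intro n
      rw [hj_const]
      split_ifs <;> simp
    · intro n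
      rw [hj_coef, hj_coef, hj_const, hI, hpos n, hj_const]
      by_cases hn : n = 0
      · subst hn
        have h2 : hjI (p : ℝ → ℂ) (- -(((0 : ℕ) : ℤ))) = hjI (v : ℝ → ℂ) 0 := by
          have := hpos 0
          simpa using this
        rw [h2]
        have h3 : starRingEnd ℂ (hjI (v : ℝ → ℂ) 0) = hjI (v : ℝ → ℂ) 0 := by
          have := hj_conj_real u 0
          simpa using this
        rw [h3]
        have h4 : c = ((1 / (2 * Real.pi) : ℝ) : ℂ) * hjI (v : ℝ → ℂ) 0 := by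
          rw [hc, hj_coef]
          simp
        have hpi : (Real.pi : ℂ) ≠ 0 := by exact_mod_cast Real.pi_ne_zero
        simp only [Nat.cast_zero, neg_zero, if_true]
        rw [h4]
        push_cast
        field_simp
        ring
      · obtain ⟨m, rfl⟩ := Nat.exists_eq_succ_of_ne_zero hn
        have h2 : - -(((m.succ : ℕ) : ℤ)) = (m : ℤ) + 1 := by push_cast; ring
        rw [h2, hneg m]
        have h3 : -((m.succ : ℕ) : ℤ) ≠ 0 := by
          push_cast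
          omega
        rw [if_neg h3, if_neg h3]
        simp
  filter_upwards [hw, hj_C u] with x hx hx2
  rw [← hx2]
  have : (v : ℝ → ℂ) x - (p : ℝ → ℂ) x - starRingEnd ℂ ((p : ℝ → ℂ) x) + c = 0 := hx
  linear_combination this

/-- the complex linear part of `J` -/
def hjA : Lp ℂ 2 mu →L[ℂ] Lp ℂ 2 mu :=
  (2 : ℂ) • hjK.starProjection
    - ((1 / (2 * Real.pi) : ℝ) : ℂ) • (innerSL ℂ (hjL 0)).smulRight (hjL 0)

/-- the conjugation operator -/
def hjJ : Lp ℝ 2 mu →L[ℝ] Lp ℂ 2 mu := (hjA.restrictScalars ℝ).comp hjC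

theorem hj_J_eq (u : Lp ℝ 2 mu) :
    hjJ u = (2 : ℂ) • hjK.starProjection (hjC u) - coef (hjC u : ℝ → ℂ) 0 • hjL 0 := by
  show hjA (hjC u) = _
  unfold hjA
  rw [_root_.sub_apply, _root_.smul_apply,
    _root_.smul_apply, ContinuousLinearMap.smulRight_apply, innerSL_apply_apply,
    hj_inner, smul_smul, hj_coef]
  simp

theorem hj_L0 : (hjL 0 : ℝ → ℂ) =ᵐ[mu] fun _ => (1 : ℂ) := by
  filter_upwards [(hj_memLp 0 2).coeFn_toLp] with x hx
  show (hjL 0 : ℝ → ℂ) x = 1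
  have hx' : (hjL 0 : ℝ → ℂ) x = hjE 0 x := hx
  rw [hx']
  unfold hjE
  simp

theorem hj_J_ae (u : Lp ℝ 2 mu) :
    (hjJ u : ℝ → ℂ) =ᵐ[mu] fun x => 2 * (hjK.starProjection (hjC u) : ℝ → ℂ) x
      - coef (hjC u : ℝ → ℂ) 0 := by
  rw [hj_J_eq]
  filter_upwards [Lp.coeFn_sub ((2 : ℂ) • hjK.starProjection (hjC u))
    (coef (hjC u : ℝ → ℂ) 0 • hjL 0), Lp.coeFn_smul (2 : ℂ) (hjK.starProjection (hjC u)),
    Lp.coeFn_smul (coef (hjC u : ℝ → ℂ) 0) (hjL 0), hj_L0] with x h1 h2 h3 h4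
  rw [h1, Pi.sub_apply, h2, h3, Pi.smul_apply, Pi.smul_apply, h4]
  simp

/-- **The conjugation operator**: `J u = u + i ũ`.

Proof: for `u ∈ L²` real with Fourier coefficients `û(n)` (`n ∈ ℤ`, `û(-n) = conj û(n)`), put
`J u = û(0) + 2 Σ_{n≥1} û(n) e^{inx}` (`L²` convergent, Parseval).  `Re (J u) = u`, and
`‖J u‖² = 2π(|û(0)|² + 4 Σ_{n≥1} |û(n)|²) ≤ 2 ‖u‖²`. -/
theorem conjOp : ∃ J : Lp ℝ 2 mu →L[ℝ] Lp ℂ 2 mu,
    (∀ u : Lp ℝ 2 mu, ∀ᵐ x ∂mu, ((J u : ℝ → ℂ) x).re = (u : ℝ → ℝ) x) ∧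
    (∀ u : Lp ℝ 2 mu, HA (J u : ℝ → ℂ)) ∧
    (∀ u : Lp ℝ 2 mu, ‖J u‖ ≤ Real.sqrt 2 * ‖u‖) ∧
    (∀ (u : Lp ℝ 2 mu) (n : ℕ), coef (J u : ℝ → ℂ) n
      = (if n = 0 then 1 else 2) * coef (fun x => ((u : ℝ → ℝ) x : ℂ)) n) := by
  have hJI : ∀ (u : Lp ℝ 2 mu) (k : ℤ), hjI (hjJ u : ℝ → ℂ) k
      = 2 * hjI (hjK.starProjection (hjC u) : ℝ → ℂ) k
        - hjI (fun _ => coef (hjC u : ℝ → ℂ) 0) k := by
    intro u k
    rw [hj_congr (hj_J_ae u) k]
    rw [hj_sub (f := fun x => 2 * (hjK.starProjection (hjC u) : ℝ → ℂ) x)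
      (g := fun _ => coef (hjC u : ℝ → ℂ) 0)
      ((hj_memLp_coe _).const_mul 2) (memLp_const _), hj_smul]
  refine ⟨hjJ, ?_, ?_, ?_, ?_⟩
  · intro u
    filter_upwards [hj_J_ae u, hj_key u] with x h1 h2
    rw [h1]
    have h3 := congrArg Complex.re h2
    rw [Complex.ofReal_re, Complex.sub_re, Complex.add_re, Complex.conj_re] at h3
    rw [Complex.sub_re, Complex.mul_re]
    simp only [Complex.re_ofNat, Complex.im_ofNat, zero_mul, sub_zero]
    linarith
  · intro u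
    rw [hj_HA]
    intro n
    rw [hJI, (hj_HA _).1 (hj_P_HA (hjC u)) n, hj_const, if_neg (by omega)]
    ring
  · intro u
    set v := hjC u with hv
    set p := hjK.starProjection v with hp
    set c := coef (v : ℝ → ℂ) 0 with hc
    have hpyth : ‖v‖ ^ 2 = ‖p‖ ^ 2 + ‖v - p‖ ^ 2 := by
      have h1 := hjK.starProjection_inner_eq_zero v p (hjK.starProjection_apply_mem v)
      have h2 : inner ℂ p (v - p) = 0 := by
        rw [← inner_conj_symm, h1, map_zero]
      have h3 := norm_add_sq_eq_norm_sq_add_norm_sq_of_inner_eq_zero p (v - p) h2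
      rw [add_sub_cancel] at h3
      nlinarith [h3]
    have hs : ‖v - p‖ = ‖p - c • hjL 0‖ := by
      have h1 : ∀ᵐ x ∂mu, ‖((v - p : Lp ℂ 2 mu) : ℝ → ℂ) x‖
          = ‖((p - c • hjL 0 : Lp ℂ 2 mu) : ℝ → ℂ) x‖ := by
        filter_upwards [Lp.coeFn_sub v p, Lp.coeFn_sub p (c • hjL 0),
          Lp.coeFn_smul c (hjL 0), hj_L0, hj_key u, hj_C u] with x h1 h2 h3 h4 h5 h6
        rw [h1, h2, Pi.sub_apply, Pi.sub_apply, h3, Pi.smul_apply, h4]
        have h7 : (v : ℝ → ℂ) x - (p : ℝ → ℂ) x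
            = starRingEnd ℂ ((p : ℝ → ℂ) x - c • (1 : ℂ)) := by
          rw [h6, h5, smul_eq_mul, mul_one, map_sub]
          rw [hc, hj_c_real u]
          ring
        rw [h7, RCLike.norm_conj]
      apply le_antisymm
      · exact Lp.norm_le_norm_of_ae_le (h1.mono fun x hx => hx.le)
      · exact Lp.norm_le_norm_of_ae_le (h1.mono fun x hx => hx.ge)
    have hJ : hjJ u = p + (p - c • hjL 0) := by
      rw [hj_J_eq, two_smul]
      abel
    have hpar := parallelogram_law_with_norm ℂ p (p - c • hjL 0)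
    have h4 : ‖hjJ u‖ ^ 2 ≤ 2 * ‖u‖ ^ 2 := by
      rw [hJ]
      have h5 : ‖v‖ ^ 2 ≤ ‖u‖ ^ 2 := by
        have := hj_C_norm u
        gcongr
      have h6 : 0 ≤ ‖p - (p - c • hjL 0)‖ ^ 2 := by positivity
      rw [hs] at hpyth
      nlinarith
    have h5 : ‖hjJ u‖ = Real.sqrt (‖hjJ u‖ ^ 2) := (Real.sqrt_sq (norm_nonneg _)).symm
    have h6 : Real.sqrt 2 * ‖u‖ = Real.sqrt (2 * ‖u‖ ^ 2) := by
      rw [Real.sqrt_mul (by norm_num), Real.sqrt_sq (norm_nonneg _)]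
    rw [h5, h6]
    exact Real.sqrt_le_sqrt h4
  · intro u n
    have h0 : coef (fun x => ((u : ℝ → ℝ) x : ℂ)) n = coef (hjC u : ℝ → ℂ) n := by
      rw [hj_coef, hj_coef, hj_congr (hj_C u)]
    rw [h0, hj_coef, hJI, hj_P_coef, hj_const, hj_coef]
    by_cases hn : n = 0
    · subst hn
      rw [if_pos (by simp), if_pos rfl, hj_coef]
      have hpi : (Real.pi : ℂ) ≠ 0 := by exact_mod_cast Real.pi_ne_zero
      push_cast
      field_simp
      ring
    · rw [if_neg (by omega), if_neg hn, hj_coef]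
      ring

/-- An `H²` function is determined by its real part up to an imaginary constant:
coefficients. (If `V ∈ H²` has real part `u` then `coef V n = 2 coef u n` for `n ≥ 1` and
`Re coef V 0 = coef u 0`, because `u = (V + conj V)/2` and `conj V` has no positive frequencies.) -/
theorem hj_re (V : ℝ → ℂ) (hV : Htwo V) (k : ℤ) :
    hjI (fun x => ((V x).re : ℂ)) k = (1 / 2 : ℂ) * (hjI V k + starRingEnd ℂ (hjI V (-k))) := by
  rw [← hj_conj, ← hj_add hV.mem (hj_conj_memLp hV.mem), ← hj_smul]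
  congr 1
  ext x
  rw [Complex.re_eq_add_conj]
  ring

theorem coef_of_re (V : ℝ → ℂ) (hV : Htwo V) (n : ℕ) (hn : n ≠ 0) :
    coef V n = 2 * coef (fun x => ((V x).re : ℂ)) n := by
  obtain ⟨m, rfl⟩ := Nat.exists_eq_succ_of_ne_zero hn
  rw [hj_coef, hj_coef, hj_re V hV]
  have h1 : - -(((m.succ : ℕ) : ℤ)) = (m : ℤ) + 1 := by push_cast; ring
  rw [h1, (hj_HA V).1 hV.ha m, map_zero]
  ring

theorem coef_zero_re (V : ℝ → ℂ) (hV : Htwo V) :
    ((coef V 0).re : ℂ) = coef (fun x => ((V x).re : ℂ)) 0 := by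
  rw [hj_coef, hj_coef, hj_re V hV, Complex.re_eq_add_conj, map_mul, Complex.conj_ofReal]
  simp only [Nat.cast_zero, neg_zero]
  ring

end Pool.H14.SR

end S_HJ
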