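import Mathlib
import Pool.Agent.H14.SRM.P0
import Pool.Agent.H14.SRM.P4

/-! MP_e1e648_an, part P5: this file joins several modules to save build time. -/

noncomputable section S_HM

open MeasureTheory Set Filter Topology
namespace Pool.H14.SR


/-! ### auxiliary lemmas -/

theorem hm_orth (j : ℤ) : ∫ x, Complex.exp ((j : ℂ) * Complex.I * (x : ℂ)) ∂mu
    = if j = 0 then (2 * Real.pi : ℂ) else 0 := by
  change ∫ x in Set.Ioc 0 (2 * Real.pi), Complex.exp ((j : ℂ) * Complex.I * (x : ℂ)) = _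
  rw [← intervalIntegral.integral_of_le (by positivity)]
  by_cases hj : j = 0
  · simp [hj]
  · rw [if_neg hj]
    have hc : (j : ℂ) * Complex.I ≠ 0 := mul_ne_zero (by exact_mod_cast hj) Complex.I_ne_zero
    rw [integral_exp_mul_complex hc]
    have h1 : Complex.exp ((j : ℂ) * Complex.I * ((2 * Real.pi : ℝ) : ℂ)) = 1 := by
      have h2 : (j : ℂ) * Complex.I * ((2 * Real.pi : ℝ) : ℂ) = (j : ℂ) * (2 * Real.pi * Complex.I) := by
        push_cast; ring
      rw [h2]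
      exact Complex.exp_int_mul_two_pi_mul_I j
    rw [h1]
    simp

theorem hm_norm_exp (t x : ℝ) : ‖Complex.exp ((t : ℂ) * Complex.I * (x : ℂ))‖ = 1 := by
  have h : (t : ℂ) * Complex.I * (x : ℂ) = ((t * x : ℝ) : ℂ) * Complex.I := by push_cast; ring
  rw [h, Complex.norm_exp_ofReal_mul_I]

theorem hm_cont_exp (t : ℂ) : Continuous (fun x : ℝ => Complex.exp (t * (x : ℂ))) := by fun_prop

theorem hm_int_exp_mul (t : ℝ) {h : ℝ → ℂ} (hh : Integrable h mu) :
    Integrable (fun x : ℝ => Complex.exp ((t : ℂ) * Complex.I * (x : ℂ)) * h x) mu := by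
  refine Integrable.mono' hh.norm ((hm_cont_exp _).aestronglyMeasurable.mul hh.1)
    (Filter.Eventually.of_forall fun x => ?_)
  rw [norm_mul, hm_norm_exp, one_mul]

theorem hm_series (a : ℕ → ℂ) (ha : Summable fun k => ‖a k‖) {h : ℝ → ℂ} (hh : Integrable h mu) :
    ∫ x : ℝ, (∑' k : ℕ, a k * Complex.exp ((k : ℂ) * Complex.I * (x : ℂ))) * h x ∂mu
      = ∑' k : ℕ, a k * ∫ x : ℝ, Complex.exp ((k : ℂ) * Complex.I * (x : ℂ)) * h x ∂mu := by
  have h1 : ∀ k : ℕ, Integrable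
      (fun x : ℝ => a k * (Complex.exp ((k : ℂ) * Complex.I * (x : ℂ)) * h x)) mu := by
    intro k
    have := (hm_int_exp_mul (k : ℝ) hh).const_mul (a k)
    simpa using this
  have hn : ∀ k : ℕ, ∀ x : ℝ, ‖a k * (Complex.exp ((k : ℂ) * Complex.I * (x : ℂ)) * h x)‖
      = ‖a k‖ * ‖h x‖ := by
    intro k x
    have h3 := hm_norm_exp (k : ℝ) x
    rw [Complex.ofReal_natCast] at h3
    rw [norm_mul, norm_mul, h3, one_mul]
  have h2 : Summable (fun k : ℕ =>
      ∫ x : ℝ, ‖a k * (Complex.exp ((k : ℂ) * Complex.I * (x : ℂ)) * h x)‖ ∂mu) := by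
    simp only [hn, integral_const_mul]
    exact ha.mul_right _
  have h3 := hasSum_integral_of_summable_integral_norm h1 h2
  have h4 : ∀ x : ℝ, ∑' k : ℕ, a k * (Complex.exp ((k : ℂ) * Complex.I * (x : ℂ)) * h x)
      = (∑' k : ℕ, a k * Complex.exp ((k : ℂ) * Complex.I * (x : ℂ))) * h x := by
    intro x
    rw [← tsum_mul_right]
    exact tsum_congr (fun k => by ring)
  simp only [h4] at h3
  rw [← h3.tsum_eq]
  exact tsum_congr (fun k => by rw [integral_const_mul])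

theorem hm_coef_bound {f : ℝ → ℂ} (n : ℕ) :
    ‖coef f n‖ ≤ (1 / (2 * Real.pi)) * ∫ x, ‖f x‖ ∂mu := by
  unfold coef
  rw [norm_mul, Complex.norm_real, Real.norm_of_nonneg (by positivity)]
  refine mul_le_mul_of_nonneg_left ?_ (by positivity)
  refine (norm_integral_le_integral_norm _).trans (le_of_eq ?_)
  refine integral_congr_ae (Filter.Eventually.of_forall fun x => ?_)
  change ‖Complex.exp (-((n : ℂ) * Complex.I * (x : ℂ))) * f x‖ = ‖f x‖
  have h : -((n : ℂ) * Complex.I * (x : ℂ)) = ((-(n : ℝ) : ℝ) : ℂ) * Complex.I * (x : ℂ) := by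
    push_cast; ring
  rw [norm_mul, h, hm_norm_exp, one_mul]

theorem hm_summable (f : ℝ → ℂ) {w : ℂ} (hw : ‖w‖ < 1) : Summable (fun k => ‖coef f k * w ^ k‖) := by
  have h1 : Summable (fun k : ℕ => ((1 / (2 * Real.pi)) * ∫ x, ‖f x‖ ∂mu) * ‖w‖ ^ k) :=
    (summable_geometric_of_lt_one (norm_nonneg _) hw).mul_left _
  refine Summable.of_nonneg_of_le (fun k => norm_nonneg _) (fun k => ?_) h1
  rw [norm_mul, norm_pow]
  exact mul_le_mul_of_nonneg_right (hm_coef_bound k) (by positivity)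

theorem hm_circle (f : ℝ → ℂ) (r x : ℝ) : ext f ((r : ℂ) * E (x, 0))
    = ∑' k : ℕ, (coef f k * (r : ℂ) ^ k) * Complex.exp ((k : ℂ) * Complex.I * (x : ℂ)) := by
  unfold ext
  refine tsum_congr (fun k => ?_)
  rw [E_zero, mul_pow, ← Complex.exp_nat_mul]
  ring_nf

theorem hm_neg_exp (n : ℕ) (x : ℝ) : Complex.exp (-((n : ℂ) * Complex.I * (x : ℂ)))
    = Complex.exp (((-(n : ℝ) : ℝ) : ℂ) * Complex.I * (x : ℂ)) := by
  congr 1; push_cast; ring

/-- `L²` smallness implies `L¹` smallness -/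
theorem hm_L1 {l : Filter ℝ} (D : ℝ → ℝ → ℂ) (hD : ∀ᶠ r in l, MemLp (D r) 2 mu)
    (h : Tendsto (fun r => ∫ x, ‖D r x‖ ^ 2 ∂mu) l (𝓝 0)) :
    Tendsto (fun r => ∫ x, ‖D r x‖ ∂mu) l (𝓝 0) := by
  rw [Metric.tendsto_nhds]
  intro ε hε
  have hpi := Real.pi_pos
  have hmu : mu.real Set.univ = 2 * Real.pi := by
    unfold mu
    rw [Measure.real, Measure.restrict_apply_univ, Real.volume_Ioc, sub_zero,
      ENNReal.toReal_ofReal (by positivity)]
  obtain ⟨t, ht⟩ : ∃ t, t = ε / (2 * Real.pi) := ⟨_, rfl⟩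
  have ht0 : 0 < t := by rw [ht]; positivity
  have h2 := (Metric.tendsto_nhds.1 h) (t * ε) (by positivity)
  filter_upwards [hD, h2] with r hr hr2
  rw [Real.dist_eq, sub_zero] at hr2 ⊢
  have hi1 : Integrable (fun x => ‖D r x‖) mu := (hr.integrable (by norm_num)).norm
  have hi2 : Integrable (fun x => ‖D r x‖ ^ 2) mu := by
    have := hr.integrable_norm_pow (by norm_num)
    simpa using this
  have hnn : 0 ≤ ∫ x, ‖D r x‖ ∂mu := integral_nonneg (fun x => norm_nonneg _)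
  have hnn2 : 0 ≤ ∫ x, ‖D r x‖ ^ 2 ∂mu := integral_nonneg (fun x => by positivity)
  rw [abs_of_nonneg hnn2] at hr2
  rw [abs_of_nonneg hnn]
  have h3 : ∫ x, ‖D r x‖ ∂mu ≤ ∫ x, (t / 2 + (1 / (2 * t)) * ‖D r x‖ ^ 2) ∂mu := by
    refine integral_mono hi1 ((integrable_const _).add (hi2.const_mul _)) (fun x => ?_)
    have h4 : t / 2 + (1 / (2 * t)) * ‖D r x‖ ^ 2 - ‖D r x‖ = (1 / (2 * t)) * (t - ‖D r x‖) ^ 2 := by
      field_simp; ring
    have h5 : 0 ≤ (1 / (2 * t)) * (t - ‖D r x‖) ^ 2 := by positivity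
    change ‖D r x‖ ≤ t / 2 + (1 / (2 * t)) * ‖D r x‖ ^ 2
    linarith
  rw [integral_add (integrable_const _) (hi2.const_mul _), integral_const, integral_const_mul,
    hmu, smul_eq_mul] at h3
  have h6 : (1 / (2 * t)) * ∫ x, ‖D r x‖ ^ 2 ∂mu < ε / 2 := by
    have h7 : (1 / (2 * t)) * ∫ x, ‖D r x‖ ^ 2 ∂mu < (1 / (2 * t)) * (t * ε) :=
      mul_lt_mul_of_pos_left hr2 (by positivity)
    have h8 : (1 / (2 * t)) * (t * ε) = ε / 2 := by field_simp
    linarith
  have h9 : 2 * Real.pi * (t / 2) = ε / 2 := by rw [ht]; field_simp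
  linarith

theorem hm_ball (r : ℝ) (h0 : 0 ≤ r) (h1 : r < 1) (x : ℝ) :
    (r : ℂ) * E (x, 0) ∈ Metric.ball (0 : ℂ) 1 := by
  rw [mem_ball_zero_iff, norm_mul, norm_E, Complex.norm_real, Real.norm_of_nonneg h0]
  simpa using h1

theorem hm_circle_memLp {G : ℂ → ℂ} (hG : ContinuousOn G (Metric.ball 0 1)) (r : ℝ) (h0 : 0 ≤ r)
    (h1 : r < 1) : MemLp (fun x => G ((r : ℂ) * E (x, 0))) 2 mu := by
  have hsub : Metric.closedBall (0 : ℂ) r ⊆ Metric.ball 0 1 := Metric.closedBall_subset_ball h1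
  obtain ⟨C, hC⟩ := (isCompact_closedBall (0 : ℂ) r).exists_bound_of_continuousOn (hG.mono hsub)
  have hE : Continuous (fun x : ℝ => (r : ℂ) * E (x, 0)) := by
    have := continuous_E
    fun_prop
  have hcont : Continuous (fun x : ℝ => G ((r : ℂ) * E (x, 0))) :=
    hG.comp_continuous hE (fun x => hm_ball r h0 h1 x)
  refine MemLp.of_bound hcont.aestronglyMeasurable C (Filter.Eventually.of_forall fun x => ?_)
  apply hC
  rw [mem_closedBall_zero_iff, norm_mul, norm_E, Complex.norm_real, Real.norm_of_nonneg h0]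
  simp

theorem hm_ev : ∀ᶠ r : ℝ in 𝓝[<] (1:ℝ), 0 ≤ r ∧ r < 1 := by
  have h1 : ∀ᶠ r : ℝ in 𝓝[<] (1:ℝ), 0 < r :=
    nhdsWithin_le_nhds (lt_mem_nhds (by norm_num))
  filter_upwards [h1, self_mem_nhdsWithin] with r hr hr2
  exact ⟨hr.le, hr2⟩

/-- convergence of integrals against bounded functions -/
theorem hm_conv (F : ℝ → ℝ → ℂ) (F0 h : ℝ → ℂ) (C : ℝ) (hh : AEStronglyMeasurable h mu)
    (hC : ∀ᵐ x ∂mu, ‖h x‖ ≤ C) (hF : ∀ᶠ r : ℝ in 𝓝[<] (1:ℝ), Integrable (F r) mu) (hF0 : Integrable F0 mu)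
    (hl : Tendsto (fun r => ∫ x, ‖F r x - F0 x‖ ∂mu) (𝓝[<] 1) (𝓝 0)) :
    Tendsto (fun r => ∫ x, h x * F r x ∂mu) (𝓝[<] 1) (𝓝 (∫ x, h x * F0 x ∂mu)) := by
  have hint : ∀ {k : ℝ → ℂ}, Integrable k mu → Integrable (fun x => h x * k x) mu := by
    intro k hk
    refine Integrable.mono' (hk.norm.const_mul C) (hh.mul hk.1) ?_
    filter_upwards [hC] with x hx
    rw [norm_mul]
    exact mul_le_mul_of_nonneg_right hx (norm_nonneg _)
  rw [tendsto_iff_norm_sub_tendsto_zero]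
  have h0 : Tendsto (fun r => C * ∫ x, ‖F r x - F0 x‖ ∂mu) (𝓝[<] 1) (𝓝 0) := by
    simpa using hl.const_mul C
  refine squeeze_zero' (Filter.Eventually.of_forall fun r => norm_nonneg _) ?_ h0
  filter_upwards [hF] with r hr
  rw [← integral_sub (hint hr) (hint hF0), ← integral_const_mul]
  refine (norm_integral_le_integral_norm _).trans ?_
  refine integral_mono_ae ((hint hr).sub (hint hF0)).norm ((hr.sub hF0).norm.const_mul C) ?_
  filter_upwards [hC] with x hx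
  change ‖h x * F r x - h x * F0 x‖ ≤ C * ‖F r x - F0 x‖
  rw [← mul_sub, norm_mul]
  exact mul_le_mul_of_nonneg_right hx (norm_nonneg _)

theorem hm_two_pi_coef (g : ℝ → ℂ) (n : ℕ) :
    ∫ x : ℝ, Complex.exp (-((n : ℂ) * Complex.I * (x : ℂ))) * g x ∂mu = 2 * Real.pi * coef g n := by
  unfold coef
  have h : ((2 * Real.pi : ℝ) : ℂ) ≠ 0 := by
    have := Real.pi_pos
    exact_mod_cast (by positivity : (2 * Real.pi : ℝ) ≠ 0)
  have h2 : (2 * Real.pi : ℂ) * (((1 / (2 * Real.pi) : ℝ) : ℂ)) = 1 := by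
    push_cast
    push_cast at h
    field_simp
  rw [← mul_assoc, h2, one_mul]
  rfl

theorem hm_bd {g : ℝ → ℂ} (hg : Hinf g) : ∃ C : ℝ, ∀ᵐ x ∂mu, ‖g x‖ ≤ C := by
  obtain ⟨_, C, _, hC⟩ := memLp_top_iff.1 hg.mem
  exact ⟨C, hC⟩

/-- coefficients of a product -/
theorem hm_coef_mul (f g : ℝ → ℂ) (hf : Htwo f) (hg : Hinf g) (n : ℕ) :
    coef (fun x => f x * g x) n = ∑ k ∈ Finset.range (n + 1), coef f k * coef g (n - k) := by
  obtain ⟨C, hC⟩ := hm_bd hg
  have hgi : Integrable g mu := hg.mem.integrable (by simp)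
  obtain ⟨h, hh⟩ : ∃ h : ℝ → ℂ, h = fun x : ℝ => Complex.exp (-((n : ℂ) * Complex.I * (x : ℂ))) * g x :=
    ⟨_, rfl⟩
  have hhi : Integrable h mu := by
    have h1 := hm_int_exp_mul (-(n : ℝ)) hgi
    rw [hh]
    simpa only [hm_neg_exp] using h1
  have hhC : ∀ᵐ x ∂mu, ‖h x‖ ≤ C := by
    filter_upwards [hC] with x hx
    rw [hh]
    change ‖Complex.exp (-((n : ℂ) * Complex.I * (x : ℂ))) * g x‖ ≤ C
    rw [norm_mul, hm_neg_exp, hm_norm_exp, one_mul]
    exact hx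
  have hfi : Integrable f mu := hf.mem.integrable (by norm_num)
  have hec := (ext_diff f hf).continuousOn
  have hD : ∀ᶠ r : ℝ in 𝓝[<] (1:ℝ), MemLp (fun x => ext f ((r : ℂ) * E (x, 0)) - f x) 2 mu := by
    filter_upwards [hm_ev] with r hr
    exact (hm_circle_memLp hec r hr.1 hr.2).sub hf.mem
  have hL1 := hm_L1 (fun r x => ext f ((r : ℂ) * E (x, 0)) - f x) hD (ext_L2 f hf)
  have hFi : ∀ᶠ r : ℝ in 𝓝[<] (1:ℝ), Integrable (fun x => ext f ((r : ℂ) * E (x, 0))) mu := by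
    filter_upwards [hm_ev] with r hr
    exact (hm_circle_memLp hec r hr.1 hr.2).integrable (by norm_num)
  have hlim := hm_conv (fun r x => ext f ((r : ℂ) * E (x, 0))) f h C hhi.1 hhC hFi hfi hL1
  -- evaluate for r < 1
  have hval : ∀ᶠ r : ℝ in 𝓝[<] (1:ℝ), ∫ x, h x * ext f ((r : ℂ) * E (x, 0)) ∂mu
      = ∑ k ∈ Finset.range (n + 1), coef f k * (r : ℂ) ^ k * (2 * Real.pi * coef g (n - k)) := by
    filter_upwards [hm_ev] with r hr
    have hs : Summable (fun k => ‖coef f k * (r : ℂ) ^ k‖) := hm_summable f (by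
      rw [Complex.norm_real, Real.norm_of_nonneg hr.1]; exact hr.2)
    have h1 := hm_series (fun k => coef f k * (r : ℂ) ^ k) hs hhi
    have h2 : ∀ x : ℝ, h x * ext f ((r : ℂ) * E (x, 0))
        = (∑' k : ℕ, (coef f k * (r : ℂ) ^ k) * Complex.exp ((k : ℂ) * Complex.I * (x : ℂ))) * h x := by
      intro x
      rw [hm_circle, mul_comm]
    simp only [h2]
    rw [h1]
    have h3 : ∀ k : ℕ, ∫ x : ℝ, Complex.exp ((k : ℂ) * Complex.I * (x : ℂ)) * h x ∂mu
        = if k ∈ Finset.range (n + 1) then 2 * Real.pi * coef g (n - k) else 0 := by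
      intro k
      rw [hh]
      by_cases hk : k ∈ Finset.range (n + 1)
      · rw [if_pos hk, ← hm_two_pi_coef]
        have hk' : k ≤ n := by simpa [Nat.lt_succ_iff] using hk
        refine integral_congr_ae (Filter.Eventually.of_forall fun x => ?_)
        change Complex.exp ((k : ℂ) * Complex.I * (x : ℂ)) *
          (Complex.exp (-((n : ℂ) * Complex.I * (x : ℂ))) * g x)
          = Complex.exp (-(((n - k : ℕ) : ℂ) * Complex.I * (x : ℂ))) * g x
        rw [← mul_assoc, ← Complex.exp_add]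
        congr 2
        rw [Nat.cast_sub hk']
        ring
      · rw [if_neg hk]
        have hk' : n < k := by
          simp only [Finset.mem_range, not_lt] at hk
          omega
        have h4 := hg.ha (k - n - 1)
        refine Eq.trans ?_ h4
        change _ = ∫ x : ℝ, Complex.exp ((((k - n - 1 : ℕ) : ℂ) + 1) * Complex.I * (x : ℂ)) * g x ∂mu
        refine integral_congr_ae (Filter.Eventually.of_forall fun x => ?_)
        change Complex.exp ((k : ℂ) * Complex.I * (x : ℂ)) *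
          (Complex.exp (-((n : ℂ) * Complex.I * (x : ℂ))) * g x)
          = Complex.exp ((((k - n - 1 : ℕ) : ℂ) + 1) * Complex.I * (x : ℂ)) * g x
        rw [← mul_assoc, ← Complex.exp_add]
        congr 2
        have h5 : ((k - n - 1 : ℕ) : ℂ) + 1 = (k : ℂ) - n := by
          have h6 : (k - n - 1 : ℕ) + 1 + n = k := by omega
          have h7 : (((k - n - 1 : ℕ) + 1 + n : ℕ) : ℂ) = (k : ℂ) := by rw [h6]
          push_cast at h7
          linear_combination h7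
        rw [h5]
        ring
    simp only [h3]
    rw [tsum_eq_sum (s := Finset.range (n + 1))]
    · refine Finset.sum_congr rfl (fun k hk => ?_)
      rw [if_pos hk]
    · intro k hk
      rw [if_neg hk, mul_zero]
  have hlim2 : Tendsto (fun r : ℝ =>
      ∑ k ∈ Finset.range (n + 1), coef f k * (r : ℂ) ^ k * (2 * Real.pi * coef g (n - k)))
      (𝓝[<] 1) (𝓝 (∑ k ∈ Finset.range (n + 1), coef f k * ((1 : ℝ) : ℂ) ^ k *
        (2 * Real.pi * coef g (n - k)))) := by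
    have hcont : Continuous (fun r : ℝ =>
      ∑ k ∈ Finset.range (n + 1), coef f k * (r : ℂ) ^ k * (2 * Real.pi * coef g (n - k))) := by
      fun_prop
    exact (hcont.tendsto 1).mono_left nhdsWithin_le_nhds
  have heq := tendsto_nhds_unique (hlim.congr' hval) hlim2
  have h1 : ∫ x, h x * f x ∂mu = 2 * Real.pi * coef (fun x => f x * g x) n := by
    rw [← hm_two_pi_coef, hh]
    refine integral_congr_ae (Filter.Eventually.of_forall fun x => ?_)
    change Complex.exp (-((n : ℂ) * Complex.I * (x : ℂ))) * g x * f x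
      = Complex.exp (-((n : ℂ) * Complex.I * (x : ℂ))) * (f x * g x)
    ring
  rw [h1] at heq
  have h2 : ∑ k ∈ Finset.range (n + 1), coef f k * ((1 : ℝ) : ℂ) ^ k * (2 * Real.pi * coef g (n - k))
      = 2 * Real.pi * ∑ k ∈ Finset.range (n + 1), coef f k * coef g (n - k) := by
    rw [Finset.mul_sum]
    refine Finset.sum_congr rfl (fun k _ => ?_)
    rw [Complex.ofReal_one, one_pow]
    ring
  rw [h2] at heq
  have hpi : (2 * Real.pi : ℂ) ≠ 0 := by
    have := Real.pi_pos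
    exact_mod_cast (by positivity : (2 * Real.pi : ℝ) ≠ 0)
  exact mul_left_cancel₀ hpi heq

theorem hm_exp_lip (M : ℝ) (z w : ℂ) (hz : z.re ≤ M) (hw : w.re ≤ M) :
    ‖Complex.exp z - Complex.exp w‖ ≤ Real.exp M * ‖z - w‖ := by
  have hconv : Convex ℝ {u : ℂ | u.re ≤ M} := convex_halfSpace_re_le M
  refine hconv.norm_image_sub_le_of_norm_deriv_le (𝕜 := ℂ) (f := Complex.exp) (fun u _ => ?_)
    (fun u hu => ?_) hw hz
  · exact Complex.differentiable_exp u
  · rw [Complex.deriv_exp, Complex.norm_exp]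
    exact Real.exp_le_exp.2 hu

/-- Fourier coefficients of an analytic function on a circle -/
theorem hm_taylor (G : ℂ → ℂ) (hG : DifferentiableOn ℂ G (Metric.ball 0 1)) :
    ∃ c : ℕ → ℂ, (∀ w ∈ Metric.ball (0 : ℂ) 1, HasSum (fun n => c n * w ^ n) (G w)) ∧
      ∀ (j : ℤ) (r : ℝ), 0 ≤ r → r < 1 →
        ∫ x : ℝ, Complex.exp ((j : ℂ) * Complex.I * (x : ℂ)) * G ((r : ℂ) * E (x, 0)) ∂mu
          = if j ≤ 0 then 2 * Real.pi * (c j.natAbs * (r : ℂ) ^ j.natAbs) else 0 := by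
  obtain ⟨c, hc⟩ : ∃ c : ℕ → ℂ, c = fun n => (n.factorial : ℂ)⁻¹ * iteratedDeriv n G 0 := ⟨_, rfl⟩
  have hcs : ∀ w ∈ Metric.ball (0 : ℂ) 1, HasSum (fun n => c n * w ^ n) (G w) := by
    intro w hw
    have h := Complex.hasSum_taylorSeries_on_ball hG hw
    rw [hc]
    refine h.congr_fun ?_
    intro n
    simp only [sub_zero, smul_eq_mul]
    ring
  refine ⟨c, hcs, ?_⟩
  · intro j r h0 h1
    have hrb : (r : ℂ) ∈ Metric.ball (0 : ℂ) 1 := by
      rw [mem_ball_zero_iff, Complex.norm_real, Real.norm_of_nonneg h0]; exact h1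
    have hs : Summable (fun k => ‖c k * (r : ℂ) ^ k‖) := (hcs _ hrb).summable.norm
    have hi : Integrable (fun x : ℝ => Complex.exp ((j : ℂ) * Complex.I * (x : ℂ))) mu := by
      have := hm_int_exp_mul (j : ℝ) (integrable_const (μ := mu) (1 : ℂ))
      simpa using this
    have h2 := hm_series (fun k => c k * (r : ℂ) ^ k) hs hi
    have h3 : ∀ x : ℝ, Complex.exp ((j : ℂ) * Complex.I * (x : ℂ)) * G ((r : ℂ) * E (x, 0))
        = (∑' k : ℕ, (c k * (r : ℂ) ^ k) * Complex.exp ((k : ℂ) * Complex.I * (x : ℂ)))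
          * Complex.exp ((j : ℂ) * Complex.I * (x : ℂ)) := by
      intro x
      rw [← (hcs _ (hm_ball r h0 h1 x)).tsum_eq, mul_comm]
      congr 1
      refine tsum_congr (fun k => ?_)
      rw [E_zero, mul_pow, ← Complex.exp_nat_mul]
      ring_nf
    have h4 : ∀ k : ℕ, ∫ x : ℝ, Complex.exp ((k : ℂ) * Complex.I * (x : ℂ)) *
        Complex.exp ((j : ℂ) * Complex.I * (x : ℂ)) ∂mu
        = if (k : ℤ) + j = 0 then (2 * Real.pi : ℂ) else 0 := by
      intro k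
      rw [← hm_orth]
      refine integral_congr_ae (Filter.Eventually.of_forall fun x => ?_)
      change Complex.exp ((k : ℂ) * Complex.I * (x : ℂ)) *
        Complex.exp ((j : ℂ) * Complex.I * (x : ℂ)) = Complex.exp ((((k : ℤ) + j : ℤ) : ℂ) * Complex.I * (x : ℂ))
      rw [← Complex.exp_add]
      congr 1
      push_cast
      ring
    simp only [h3]
    rw [h2]
    simp only [h4]
    by_cases hj : j ≤ 0
    · rw [if_pos hj, tsum_eq_single j.natAbs]
      · have h5 : ((j.natAbs : ℕ) : ℤ) + j = 0 := by omega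
        rw [if_pos h5]
        ring
      · intro k hk
        have h5 : ¬ ((k : ℤ) + j = 0) := by
          intro h
          apply hk
          omega
        rw [if_neg h5, mul_zero]
    · rw [if_neg hj]
      have h5 : ∀ k : ℕ, (c k * (r : ℂ) ^ k) * (if (k : ℤ) + j = 0 then (2 * Real.pi : ℂ) else 0) = 0 := by
        intro k
        have h6 : ¬ ((k : ℤ) + j = 0) := by omega
        rw [if_neg h6, mul_zero]
      simp only [h5, tsum_zero]

/-- Multiplicativity of the extension.  (Both sides are analytic in `w`; radial functions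
`f_r(x) = ext f (r e^{ix})` have `ext f_r (w) = ext f (r w)` and are uniform limits of polynomials, for which
multiplicativity is clear; let `r → 1` with `ext_L2`: the coefficients of `f_r g_r` tend to those of `f g`.) -/
theorem ext_mul (f g : ℝ → ℂ) (hf : Hinf f) (hg : Hinf g) :
    ∀ w ∈ Metric.ball (0 : ℂ) 1, ext (fun x => f x * g x) w = ext f w * ext g w := by
  intro w hw
  have hw' : ‖w‖ < 1 := by simpa using hw
  have h1 := tsum_mul_tsum_eq_tsum_sum_range_of_summable_norm (hm_summable f hw') (hm_summable g hw')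
  unfold ext
  rw [h1]
  refine tsum_congr (fun n => ?_)
  rw [hm_coef_mul f g hf.toHtwo hg n, Finset.sum_mul]
  refine Finset.sum_congr rfl (fun k hk => ?_)
  have hk' : k + (n - k) = n := by
    rw [Finset.mem_range] at hk
    omega
  calc coef f k * coef g (n - k) * w ^ n = coef f k * coef g (n - k) * w ^ (k + (n - k)) := by rw [hk']
    _ = _ := by rw [pow_add]; ring

theorem ext_add (f g : ℝ → ℂ) (hf : Hinf f) (hg : Hinf g) :
    ∀ w ∈ Metric.ball (0 : ℂ) 1, ext (fun x => f x + g x) w = ext f w + ext g w := by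
  intro w hw
  have hw' : ‖w‖ < 1 := by simpa using hw
  have hfi : Integrable f mu := hf.mem.integrable (by simp)
  have hgi : Integrable g mu := hg.mem.integrable (by simp)
  unfold ext
  rw [← (hm_summable f hw').of_norm.tsum_add (hm_summable g hw').of_norm]
  refine tsum_congr (fun n => ?_)
  have h1 : ∀ {k : ℝ → ℂ}, Integrable k mu →
      Integrable (fun x : ℝ => Complex.exp (-((n : ℂ) * Complex.I * (x : ℂ))) * k x) mu := by
    intro k hk
    have h1 := hm_int_exp_mul (-(n : ℝ)) hk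
    simpa only [hm_neg_exp] using h1
  have h2 : coef (fun x => f x + g x) n = coef f n + coef g n := by
    unfold coef
    rw [← mul_add]
    congr 1
    have h3 := integral_add (h1 hfi) (h1 hgi)
    refine Eq.trans ?_ h3
    change ∫ x : ℝ, Complex.exp (-((n : ℂ) * Complex.I * (x : ℂ))) * (f x + g x) ∂mu = _
    simp only [mul_add]
  rw [h2]
  ring

theorem ext_congr (f g : ℝ → ℂ) (h : f =ᵐ[mu] g) : ext f = ext g := by
  funext w
  unfold ext
  refine tsum_congr (fun n => ?_)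
  have h1 : coef f n = coef g n := by
    unfold coef
    congr 1
    change ∫ x : ℝ, Complex.exp (-((n : ℂ) * Complex.I * (x : ℂ))) * f x ∂mu
      = ∫ x : ℝ, Complex.exp (-((n : ℂ) * Complex.I * (x : ℂ))) * g x ∂mu
    refine integral_congr_ae ?_
    filter_upwards [h] with x hx
    rw [hx]
  rw [h1]

/-- Exponentials: if `V ∈ H²` and `Re V ≤ C` then `e^V ∈ H^∞` and `ext (e^V) = e^{ext V}`.
Proof: `V_r(x) = ext V (r e^{ix})` is smooth, `Re V_r ≤ C` (`ext_re` for the upper bound; see the variant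
with only an upper bound below), `e^{V_r} → e^V` in `L²` because `|e^z - e^w| ≤ e^C |z - w|` for
`Re z, Re w ≤ C`; `e^{V_r(x)} = g(r e^{ix})`, `g = exp ∘ ext V` analytic in the disc, so its negative Fourier
coefficients vanish and its `n`-th one is `r^n` times the Taylor coefficient of `g`.
Here both bounds `m ≤ Re V ≤ M` are assumed for simplicity. -/
theorem ext_exp (V : ℝ → ℂ) (hV : Htwo V) (m M : ℝ)
    (h : ∀ᵐ x ∂mu, m ≤ (V x).re ∧ (V x).re ≤ M) :
    Hinf (fun x => Complex.exp (V x)) ∧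
      ∀ w ∈ Metric.ball (0 : ℂ) 1, ext (fun x => Complex.exp (V x)) w = Complex.exp (ext V w) := by
  have hVd := ext_diff V hV
  have hG : DifferentiableOn ℂ (fun w => Complex.exp (ext V w)) (Metric.ball 0 1) := hVd.cexp
  obtain ⟨c, hc1, hc2⟩ := hm_taylor _ hG
  have hVi : Integrable V mu := hV.mem.integrable (by norm_num)
  have hmeas : AEStronglyMeasurable (fun x => Complex.exp (V x)) mu :=
    Complex.continuous_exp.comp_aestronglyMeasurable hV.mem.1
  have hbd : ∀ᵐ x ∂mu, ‖Complex.exp (V x)‖ ≤ Real.exp M := by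
    filter_upwards [h] with x hx
    rw [Complex.norm_exp]
    exact Real.exp_le_exp.2 hx.2
  have hmem : MemLp (fun x => Complex.exp (V x)) ⊤ mu := memLp_top_of_bound hmeas _ hbd
  have hexpi : Integrable (fun x => Complex.exp (V x)) mu := hmem.integrable (by simp)
  have hre := ext_re V hV m M h
  have hD : ∀ᶠ r : ℝ in 𝓝[<] (1:ℝ), MemLp (fun x => ext V ((r : ℂ) * E (x, 0)) - V x) 2 mu := by
    filter_upwards [hm_ev] with r hr
    exact (hm_circle_memLp hVd.continuousOn r hr.1 hr.2).sub hV.mem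
  have hL1 := hm_L1 (fun r x => ext V ((r : ℂ) * E (x, 0)) - V x) hD (ext_L2 V hV)
  have hFi : ∀ᶠ r : ℝ in 𝓝[<] (1:ℝ), Integrable (fun x => Complex.exp (ext V ((r : ℂ) * E (x, 0)))) mu := by
    filter_upwards [hm_ev] with r hr
    exact (hm_circle_memLp hG.continuousOn r hr.1 hr.2).integrable (by norm_num)
  have hl : Tendsto (fun r : ℝ => ∫ x, ‖Complex.exp (ext V ((r : ℂ) * E (x, 0))) - Complex.exp (V x)‖ ∂mu)
      (𝓝[<] 1) (𝓝 0) := by
    have h0 : Tendsto (fun r : ℝ => Real.exp M * ∫ x, ‖ext V ((r : ℂ) * E (x, 0)) - V x‖ ∂mu)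
        (𝓝[<] 1) (𝓝 0) := by
      simpa using hL1.const_mul (Real.exp M)
    refine squeeze_zero' (Filter.Eventually.of_forall fun r => integral_nonneg fun x => norm_nonneg _) ?_ h0
    filter_upwards [hm_ev, hFi, hD] with r hr hi hd
    rw [← integral_const_mul]
    refine integral_mono_ae (hi.sub hexpi).norm ((hd.integrable (by norm_num)).norm.const_mul _) ?_
    filter_upwards [h] with x hx
    exact hm_exp_lip M _ _ (hre _ (hm_ball r hr.1 hr.2 x)).2 hx.2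
  have key : ∀ j : ℤ, ∫ x : ℝ, Complex.exp ((j : ℂ) * Complex.I * (x : ℂ)) * Complex.exp (V x) ∂mu
      = if j ≤ 0 then 2 * Real.pi * c j.natAbs else 0 := by
    intro j
    have hjm : AEStronglyMeasurable (fun x : ℝ => Complex.exp ((j : ℂ) * Complex.I * (x : ℂ))) mu :=
      (hm_cont_exp _).aestronglyMeasurable
    have hj1 : ∀ᵐ x : ℝ ∂mu, ‖Complex.exp ((j : ℂ) * Complex.I * (x : ℂ))‖ ≤ 1 := by
      refine Filter.Eventually.of_forall fun x => ?_
      have := hm_norm_exp (j : ℝ) x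
      rw [Complex.ofReal_intCast] at this
      exact this.le
    have hlim := hm_conv (fun r x => Complex.exp (ext V ((r : ℂ) * E (x, 0)))) (fun x => Complex.exp (V x))
      (fun x : ℝ => Complex.exp ((j : ℂ) * Complex.I * (x : ℂ))) 1 hjm hj1 hFi hexpi hl
    have hval : ∀ᶠ r : ℝ in 𝓝[<] (1:ℝ),
        ∫ x : ℝ, Complex.exp ((j : ℂ) * Complex.I * (x : ℂ)) * Complex.exp (ext V ((r : ℂ) * E (x, 0))) ∂mu
        = if j ≤ 0 then 2 * Real.pi * (c j.natAbs * (r : ℂ) ^ j.natAbs) else 0 := by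
      filter_upwards [hm_ev] with r hr
      exact hc2 j r hr.1 hr.2
    have hlim2 : Tendsto (fun r : ℝ =>
        if j ≤ 0 then 2 * Real.pi * (c j.natAbs * (r : ℂ) ^ j.natAbs) else 0)
        (𝓝[<] 1) (𝓝 (if j ≤ 0 then 2 * Real.pi * (c j.natAbs * ((1 : ℝ) : ℂ) ^ j.natAbs) else 0)) := by
      by_cases hj : j ≤ 0
      · simp only [if_pos hj]
        have hcont : Continuous (fun r : ℝ => 2 * Real.pi * (c j.natAbs * (r : ℂ) ^ j.natAbs)) := by
          fun_prop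
        exact (hcont.tendsto 1).mono_left nhdsWithin_le_nhds
      · simp only [if_neg hj]
        exact tendsto_const_nhds
    have heq := tendsto_nhds_unique (hlim.congr' hval) hlim2
    rw [heq]
    simp
  have hHA : HA (fun x => Complex.exp (V x)) := by
    intro n
    have h1 := key ((n : ℤ) + 1)
    rw [if_neg (by omega)] at h1
    refine Eq.trans ?_ h1
    change ∫ x : ℝ, Complex.exp (((n : ℂ) + 1) * Complex.I * (x : ℂ)) * Complex.exp (V x) ∂mu = _
    push_cast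
    rfl
  refine ⟨⟨hmem, hHA⟩, fun w hw => ?_⟩
  have hcoef : ∀ n, coef (fun x => Complex.exp (V x)) n = c n := by
    intro n
    have h1 := key (-(n : ℤ))
    rw [if_pos (by omega)] at h1
    have h2 := hm_two_pi_coef (fun x => Complex.exp (V x)) n
    have h3 : ∫ x : ℝ, Complex.exp (-((n : ℂ) * Complex.I * (x : ℂ))) * Complex.exp (V x) ∂mu
        = ∫ x : ℝ, Complex.exp (((-(n : ℤ) : ℤ) : ℂ) * Complex.I * (x : ℂ)) * Complex.exp (V x) ∂mu := by
      refine integral_congr_ae (Filter.Eventually.of_forall fun x => ?_)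
      change Complex.exp (-((n : ℂ) * Complex.I * (x : ℂ))) * Complex.exp (V x)
        = Complex.exp (((-(n : ℤ) : ℤ) : ℂ) * Complex.I * (x : ℂ)) * Complex.exp (V x)
      congr 2
      push_cast
      ring
    rw [h3, h1] at h2
    have hpi : (2 * Real.pi : ℂ) ≠ 0 := by
      have := Real.pi_pos
      exact_mod_cast (by positivity : (2 * Real.pi : ℝ) ≠ 0)
    have h4 : (-(n : ℤ)).natAbs = n := by simp
    rw [h4] at h2
    exact (mul_left_cancel₀ hpi h2).symm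
  unfold ext
  simp only [hcoef]
  exact (hc1 w hw).tsum_eq

end Pool.H14.SR

end S_HM

noncomputable section S_HP4

open MeasureTheory Set Filter Topology
namespace Pool.H14.SR



theorem hp4_exp_lip {V₁ V₂ : ℂ} (h1 : -Real.log 2 ≤ V₁.re) (h2 : -Real.log 2 ≤ V₂.re) :
    ‖Complex.exp (-V₁) - Complex.exp (-V₂)‖ ≤ 2 * ‖V₁ - V₂‖ := by
  have hconv : Convex ℝ {z : ℂ | z.re ≤ Real.log 2} :=
    convex_halfSpace_re_le (Real.log 2)
  have h := Convex.norm_image_sub_le_of_norm_deriv_le (𝕜 := ℂ) (f := Complex.exp)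
    (s := {z : ℂ | z.re ≤ Real.log 2}) (x := -V₂) (y := -V₁) (C := 2)
    (fun z _ => Complex.differentiable_exp z)
    (fun z hz => by
      rw [Complex.deriv_exp, Complex.norm_exp]
      calc Real.exp z.re ≤ Real.exp (Real.log 2) := Real.exp_le_exp.2 hz
        _ = 2 := Real.exp_log (by norm_num)) hconv
    (by show (-V₂).re ≤ Real.log 2; rw [Complex.neg_re]; linarith)
    (by show (-V₁).re ≤ Real.log 2; rw [Complex.neg_re]; linarith)
  have h3 : -V₁ - -V₂ = -(V₁ - V₂) := by ring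
  rw [h3, norm_neg] at h
  exact h

theorem hp4_small {w V : ℂ} (hw : ‖w‖ ≤ 1 / 8) (h : -Real.log 2 ≤ V.re) :
    ‖w * Complex.exp (-V)‖ ≤ 1 / 4 := by
  rw [norm_mul, Complex.norm_exp, Complex.neg_re]
  have h1 : Real.exp (-V.re) ≤ 2 := by
    calc Real.exp (-V.re) ≤ Real.exp (Real.log 2) := Real.exp_le_exp.2 (by linarith)
      _ = 2 := Real.exp_log (by norm_num)
  calc ‖w‖ * Real.exp (-V.re) ≤ 1 / 8 * 2 :=
        mul_le_mul hw h1 (Real.exp_pos _).le (by norm_num)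
    _ = 1 / 4 := by norm_num

theorem hp4_low {z : ℂ} (h : ‖z‖ ≤ 1 / 4) : 3 / 4 ≤ ‖1 + z‖ := by
  have h1 : ‖(1 : ℂ)‖ ≤ ‖1 + z‖ + ‖z‖ := by
    calc ‖(1 : ℂ)‖ = ‖(1 + z) - z‖ := by congr 1; ring
      _ ≤ ‖1 + z‖ + ‖z‖ := norm_sub_le _ _
  rw [norm_one] at h1
  linarith

theorem hp4_up {z : ℂ} (h : ‖z‖ ≤ 1 / 4) : ‖1 + z‖ ≤ 5 / 4 := by
  calc ‖1 + z‖ ≤ ‖(1 : ℂ)‖ + ‖z‖ := norm_add_le _ _
    _ ≤ 5 / 4 := by rw [norm_one]; linarith

theorem hp4_log_le {a b : ℝ} (ha : 0 < a) (hb : 3 / 4 ≤ b) :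
    Real.log a - Real.log b ≤ 4 / 3 * |a - b| := by
  have hb0 : 0 < b := by linarith
  rw [← Real.log_div ha.ne' hb0.ne']
  have h1 := Real.log_le_sub_one_of_pos (div_pos ha hb0)
  have h2 : a / b - 1 = (a - b) / b := by field_simp
  rw [h2] at h1
  refine h1.trans ?_
  rw [div_le_iff₀ hb0]
  have h3 : a - b ≤ |a - b| := le_abs_self _
  nlinarith [abs_nonneg (a - b)]

theorem hp4_log_lip {z₁ z₂ : ℂ} (h1 : ‖z₁‖ ≤ 1 / 4) (h2 : ‖z₂‖ ≤ 1 / 4) :
    |(-Real.log ‖1 + z₁‖) - (-Real.log ‖1 + z₂‖)| ≤ 4 / 3 * ‖z₁ - z₂‖ := by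
  have l1 := hp4_low h1
  have l2 := hp4_low h2
  have h3 : |‖1 + z₁‖ - ‖1 + z₂‖| ≤ ‖z₁ - z₂‖ := by
    refine (abs_norm_sub_norm_le _ _).trans (le_of_eq ?_)
    congr 1
    ring
  have e1 := hp4_log_le (a := ‖1 + z₁‖) (b := ‖1 + z₂‖) (by linarith) l2
  have e2 := hp4_log_le (a := ‖1 + z₂‖) (b := ‖1 + z₁‖) (by linarith) l1
  rw [abs_sub_comm ‖1 + z₂‖ ‖1 + z₁‖] at e2
  rw [abs_le]
  constructor
  · linarith
  · linarith

theorem hp4_log_bd {z : ℂ} (h : ‖z‖ ≤ 1 / 4) : |(-Real.log ‖1 + z‖)| ≤ Real.log 2 := by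
  have l := hp4_low h
  have u := hp4_up h
  have h1 : Real.log ‖1 + z‖ ≤ Real.log 2 := Real.log_le_log (by linarith) (by linarith)
  have h2 : Real.log (1 / 2) ≤ Real.log ‖1 + z‖ := Real.log_le_log (by norm_num) (by linarith)
  have h3 : Real.log (1 / 2) = -Real.log 2 := by
    rw [one_div, Real.log_inv]
  rw [abs_le]
  constructor
  · linarith
  · linarith

theorem hp4_fix (w : ℝ → ℂ) (hw : AEStronglyMeasurable w mu) (hw8 : BD w (1 / 8))
    (J : Lp ℝ 2 mu →L[ℝ] Lp ℂ 2 mu)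
    (hJre : ∀ u : Lp ℝ 2 mu, ∀ᵐ x ∂mu, ((J u : ℝ → ℂ) x).re = (u : ℝ → ℝ) x)
    (hJn : ∀ u : Lp ℝ 2 mu, ‖J u‖ ≤ Real.sqrt 2 * ‖u‖) :
    ∃ u : Lp ℝ 2 mu, (∀ᵐ x ∂mu, |(u : ℝ → ℝ) x| ≤ Real.log 2) ∧
      ∀ᵐ x ∂mu, (u : ℝ → ℝ) x = -Real.log ‖1 + w x * Complex.exp (-((J u : ℝ → ℂ) x))‖ := by
  classical
  set K : Set (Lp ℝ 2 mu) := {u | ∀ᵐ x ∂mu, |(u : ℝ → ℝ) x| ≤ Real.log 2} with hK
  have hKc : IsClosed K := by
    rw [← isSeqClosed_iff_isClosed]
    intro un u hun hu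
    obtain ⟨ns, -, hns⟩ := (tendstoInMeasure_of_tendsto_Lp hu).exists_seq_tendsto_ae
    have hall : ∀ᵐ x ∂mu, ∀ n, |(un n : ℝ → ℝ) x| ≤ Real.log 2 := ae_all_iff.2 (fun n => hun n)
    filter_upwards [hns, hall] with x hx hxa
    exact le_of_tendsto hx.abs (Filter.Eventually.of_forall (fun i => hxa (ns i)))
  set φ : Lp ℝ 2 mu → ℝ → ℝ := fun u x => -Real.log ‖1 + w x * Complex.exp (-((J u : ℝ → ℂ) x))‖
    with hφ
  have hsm : ∀ u ∈ K, ∀ᵐ x ∂mu, ‖w x * Complex.exp (-((J u : ℝ → ℂ) x))‖ ≤ 1 / 4 := by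
    intro u hu
    have hu' : ∀ᵐ x ∂mu, |(u : ℝ → ℝ) x| ≤ Real.log 2 := hu
    filter_upwards [hw8, hJre u, hu'] with x h1 h2 h3
    apply hp4_small h1
    rw [h2]
    exact (abs_le.1 h3).1
  have hmeas : ∀ u, AEStronglyMeasurable (φ u) mu := by
    intro u
    have h1 : AEStronglyMeasurable (fun x => 1 + w x * Complex.exp (-((J u : ℝ → ℂ) x))) mu := by
      refine aestronglyMeasurable_const.add (hw.mul ?_)
      exact Complex.continuous_exp.comp_aestronglyMeasurable (Lp.aestronglyMeasurable (J u)).neg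
    have h2 := h1.norm.aemeasurable
    exact (Real.measurable_log.comp_aemeasurable h2).neg.aestronglyMeasurable
  have hmem : ∀ u ∈ K, MemLp (φ u) 2 mu := by
    intro u hu
    refine MemLp.of_bound (hmeas u) (Real.log 2) ?_
    filter_upwards [hsm u hu] with x hx
    rw [Real.norm_eq_abs]
    exact hp4_log_bd hx
  set f : Lp ℝ 2 mu → Lp ℝ 2 mu := fun u => if h : MemLp (φ u) 2 mu then h.toLp (φ u) else 0
    with hf
  have hfe : ∀ u ∈ K, (f u : ℝ → ℝ) =ᵐ[mu] φ u := by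
    intro u hu
    rw [hf]
    simp only [dif_pos (hmem u hu)]
    exact (hmem u hu).coeFn_toLp
  have hmaps : Set.MapsTo f K K := by
    intro u hu
    show ∀ᵐ x ∂mu, |(f u : ℝ → ℝ) x| ≤ Real.log 2
    filter_upwards [hfe u hu, hsm u hu] with x h1 h2
    rw [h1]
    exact hp4_log_bd h2
  have hlip : ∀ u₁ ∈ K, ∀ u₂ ∈ K, ‖f u₁ - f u₂‖ ≤ 1 / 2 * ‖u₁ - u₂‖ := by
    intro u₁ hu₁ u₂ hu₂
    have hu₁' : ∀ᵐ x ∂mu, |(u₁ : ℝ → ℝ) x| ≤ Real.log 2 := hu₁
    have hu₂' : ∀ᵐ x ∂mu, |(u₂ : ℝ → ℝ) x| ≤ Real.log 2 := hu₂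
    have h1 : ‖f u₁ - f u₂‖ ≤ 1 / 3 * ‖J u₁ - J u₂‖ := by
      apply Lp.norm_le_mul_norm_of_ae_le_mul
      filter_upwards [Lp.coeFn_sub (f u₁) (f u₂), Lp.coeFn_sub (J u₁) (J u₂), hfe u₁ hu₁,
        hfe u₂ hu₂, hsm u₁ hu₁, hsm u₂ hu₂, hw8, hJre u₁, hJre u₂, hu₁', hu₂'] with x e1 e2 e3 e4
        s1 s2 wx r1 r2 b1 b2
      rw [e1, e2, Pi.sub_apply, Pi.sub_apply, e3, e4, Real.norm_eq_abs]
      refine (hp4_log_lip s1 s2).trans ?_
      have h5 : w x * Complex.exp (-((J u₁ : ℝ → ℂ) x)) - w x * Complex.exp (-((J u₂ : ℝ → ℂ) x)) =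
          w x * (Complex.exp (-((J u₁ : ℝ → ℂ) x)) - Complex.exp (-((J u₂ : ℝ → ℂ) x))) := by ring
      rw [h5, norm_mul]
      have h6 := hp4_exp_lip (V₁ := (J u₁ : ℝ → ℂ) x) (V₂ := (J u₂ : ℝ → ℂ) x)
        (by rw [r1]; exact (abs_le.1 b1).1) (by rw [r2]; exact (abs_le.1 b2).1)
      have h7 : ‖w x‖ * ‖Complex.exp (-((J u₁ : ℝ → ℂ) x)) - Complex.exp (-((J u₂ : ℝ → ℂ) x))‖ ≤
          1 / 8 * (2 * ‖(J u₁ : ℝ → ℂ) x - (J u₂ : ℝ → ℂ) x‖) :=
        mul_le_mul wx h6 (norm_nonneg _) (by norm_num)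
      linarith
    have h2 : ‖J u₁ - J u₂‖ ≤ Real.sqrt 2 * ‖u₁ - u₂‖ := by
      rw [← map_sub]
      exact hJn _
    have h3 : Real.sqrt 2 ≤ 3 / 2 := by
      rw [Real.sqrt_le_left (by norm_num)]
      norm_num
    have h4 : Real.sqrt 2 * ‖u₁ - u₂‖ ≤ 3 / 2 * ‖u₁ - u₂‖ :=
      mul_le_mul_of_nonneg_right h3 (norm_nonneg _)
    linarith
  have hcontr : ContractingWith (1 / 2 : NNReal) (Set.MapsTo.restrict f K K hmaps) := by
    constructor
    · rw [← NNReal.coe_lt_coe]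
      norm_num
    · apply LipschitzWith.of_dist_le_mul
      intro a b
      rw [Subtype.dist_eq, Subtype.dist_eq, dist_eq_norm, dist_eq_norm]
      have := hlip a.1 a.2 b.1 b.2
      simpa using this
  have h0K : (0 : Lp ℝ 2 mu) ∈ K := by
    show ∀ᵐ x ∂mu, |((0 : Lp ℝ 2 mu) : ℝ → ℝ) x| ≤ Real.log 2
    filter_upwards [Lp.coeFn_zero ℝ 2 mu] with x hx
    rw [hx]
    simp
    exact Real.log_nonneg (by norm_num)
  obtain ⟨u, huK, hufix, -⟩ := ContractingWith.exists_fixedPoint' hKc.isComplete hmaps hcontr h0K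
    (edist_ne_top _ _)
  refine ⟨u, huK, ?_⟩
  have h1 := hfe u huK
  rw [hufix] at h1
  exact h1

/-- **Lemma M'**: if `|w| ≤ 1/8` a.e. there is an invertible `h ∈ H^∞` with `|w + h| = 1` a.e.

Proof: `h = e^V`, `V = J u`, `u` real with `|u| ≤ log 2`.  `|w + e^V| = e^u |1 + w e^{-V}|`, so we need
`u = Φ(u) := -log |1 + w e^{-J u}|`.  If `|u| ≤ log 2` then `|w e^{-Ju}| ≤ 1/4`, so `|Φ(u)| ≤ log (4/3) ≤ log 2`.
`|log|1+z₁| - log|1+z₂|| ≤ (4/3)|z₁ - z₂|` for `|z_i| ≤ 1/4`, `|e^{-V₁} - e^{-V₂}| ≤ 2|V₁ - V₂|` for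
`Re V_i ≥ -log 2`, so `‖Φ u₁ - Φ u₂‖₂ ≤ (4/3)(1/8)2 √2 ‖u₁-u₂‖₂ < (1/2)‖u₁ - u₂‖₂`; the set
`{u ∈ L²(mu,ℝ) : |u| ≤ log 2 a.e.}` is closed in `L²`, Banach fixed point theorem.  Then `e^V, e^{-V} ∈ H^∞` by
`ext_exp`. -/
theorem Mprime (w : ℝ → ℂ) (hw : AEStronglyMeasurable w mu) (hw8 : BD w (1 / 8)) :
    ∃ h g : ℝ → ℂ, Hinf h ∧ Hinf g ∧ (∀ᵐ x ∂mu, h x * g x = 1) ∧ ∀ᵐ x ∂mu, ‖w x + h x‖ = 1 := by
  obtain ⟨J, hJre, hJha, hJn, -⟩ := conjOp
  obtain ⟨u, hub, hu⟩ := hp4_fix w hw hw8 J hJre hJn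
  have hV : Htwo (J u : ℝ → ℂ) := ⟨Lp.memLp (J u), hJha u⟩
  have hVn : Htwo (fun x => -((J u : ℝ → ℂ) x)) := by
    have := hV.smul (-1)
    simpa using this
  have hb1 : ∀ᵐ x ∂mu, -Real.log 2 ≤ ((J u : ℝ → ℂ) x).re ∧ ((J u : ℝ → ℂ) x).re ≤ Real.log 2 := by
    filter_upwards [hJre u, hub] with x h1 h2
    rw [h1]
    exact abs_le.1 h2
  have hb2 : ∀ᵐ x ∂mu, -Real.log 2 ≤ (-((J u : ℝ → ℂ) x)).re ∧
      (-((J u : ℝ → ℂ) x)).re ≤ Real.log 2 := by
    filter_upwards [hb1] with x h1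
    rw [Complex.neg_re]
    constructor
    · linarith [h1.2]
    · linarith [h1.1]
  refine ⟨fun x => Complex.exp ((J u : ℝ → ℂ) x), fun x => Complex.exp (-((J u : ℝ → ℂ) x)),
    (ext_exp _ hV _ _ hb1).1, (ext_exp _ hVn _ _ hb2).1, ?_, ?_⟩
  · refine Filter.Eventually.of_forall (fun x => ?_)
    show Complex.exp ((J u : ℝ → ℂ) x) * Complex.exp (-((J u : ℝ → ℂ) x)) = 1
    rw [← Complex.exp_add, add_neg_cancel, Complex.exp_zero]
  · filter_upwards [hJre u, hub, hu, hw8, hb1] with x h1 h2 h3 h4 h5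
    have hs := hp4_small h4 h5.1
    have hl := hp4_low hs
    have e1 : w x + Complex.exp ((J u : ℝ → ℂ) x) =
        Complex.exp ((J u : ℝ → ℂ) x) * (1 + w x * Complex.exp (-((J u : ℝ → ℂ) x))) := by
      have : Complex.exp ((J u : ℝ → ℂ) x) * Complex.exp (-((J u : ℝ → ℂ) x)) = 1 := by
        rw [← Complex.exp_add, add_neg_cancel, Complex.exp_zero]
      calc w x + Complex.exp ((J u : ℝ → ℂ) x) = Complex.exp ((J u : ℝ → ℂ) x) + w x * 1 := by ring
        _ = Complex.exp ((J u : ℝ → ℂ) x) + w x *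
            (Complex.exp ((J u : ℝ → ℂ) x) * Complex.exp (-((J u : ℝ → ℂ) x))) := by rw [this]
        _ = _ := by ring
    rw [e1, norm_mul, Complex.norm_exp, h1, h3]
    have h6 : 0 < ‖1 + w x * Complex.exp (-((J u : ℝ → ℂ) x))‖ := by linarith
    rw [Real.exp_neg, Real.exp_log h6, inv_mul_cancel₀ h6.ne']

/-- Outer functions: for real bounded `q` there is `V ∈ H²` with `Re V = q` a.e. (`V = J q`); `e^V`, `e^{-V}`
are in `H^∞`. -/
theorem outer (q : ℝ → ℝ) (hq : AEStronglyMeasurable q mu) (C : ℝ) (hC : ∀ᵐ x ∂mu, |q x| ≤ C) :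
    ∃ V : ℝ → ℂ, Htwo V ∧ (∀ᵐ x ∂mu, (V x).re = q x) ∧
      Hinf (fun x => Complex.exp (V x)) ∧ Hinf (fun x => Complex.exp (-(V x))) := by
  obtain ⟨J, hJre, hJha, hJn, -⟩ := conjOp
  have hm : MemLp q 2 mu := MemLp.of_bound hq C (by simpa [Real.norm_eq_abs] using hC)
  set u : Lp ℝ 2 mu := hm.toLp q with hu
  have hue : (u : ℝ → ℝ) =ᵐ[mu] q := hm.coeFn_toLp
  have hV : Htwo (J u : ℝ → ℂ) := ⟨Lp.memLp (J u), hJha u⟩
  have hVn : Htwo (fun x => -((J u : ℝ → ℂ) x)) := by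
    have := hV.smul (-1)
    simpa using this
  have hre : ∀ᵐ x ∂mu, ((J u : ℝ → ℂ) x).re = q x := by
    filter_upwards [hJre u, hue] with x h1 h2
    rw [h1, h2]
  have hb1 : ∀ᵐ x ∂mu, -C ≤ ((J u : ℝ → ℂ) x).re ∧ ((J u : ℝ → ℂ) x).re ≤ C := by
    filter_upwards [hre, hC] with x h1 h2
    rw [h1]
    exact abs_le.1 h2
  have hb2 : ∀ᵐ x ∂mu, -C ≤ (-((J u : ℝ → ℂ) x)).re ∧ (-((J u : ℝ → ℂ) x)).re ≤ C := by
    filter_upwards [hb1] with x h1
    rw [Complex.neg_re]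
    constructor
    · linarith [h1.2]
    · linarith [h1.1]
  exact ⟨(J u : ℝ → ℂ), hV, hre, (ext_exp _ hV _ _ hb1).1, (ext_exp _ hVn _ _ hb2).1⟩

end Pool.H14.SR

end S_HP4

noncomputable section S_A1

open MeasureTheory Set Filter Topology
namespace Pool.H14.SR


variable {D : Set (ℝ → ℂ)}

theorem Doug.const (hD : Doug D) (c : ℂ) : (fun _ => c) ∈ D := hD.hinf _ (Hinf_const c)

/-- Uniform limits, in convenient form. -/
theorem Doug.unif (hD : Doug D) (f : ℝ → ℂ) (hf : AEStronglyMeasurable f mu) (u : ℕ → ℝ → ℂ)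
    (hu : ∀ n, u n ∈ D) (e : ℕ → ℝ) (he : Tendsto e atTop (𝓝 0))
    (h : ∀ n, BD (fun x => u n x - f x) (e n)) : f ∈ D := by
  have hmem : MemLp f ⊤ mu := by
    rw [memLp_top_iff]
    obtain ⟨-, C, hC, hB⟩ := memLp_top_iff.1 (hD.mem _ (hu 0))
    refine ⟨hf, C + |e 0|, by positivity, ?_⟩
    have h0 := h 0
    unfold BD at *
    filter_upwards [hB, h0] with x h1 h2
    have : ‖f x‖ ≤ ‖u 0 x‖ + ‖u 0 x - f x‖ := by
      calc ‖f x‖ = ‖u 0 x - (u 0 x - f x)‖ := by congr 1; ring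
        _ ≤ _ := norm_sub_le _ _
    linarith [le_abs_self (e 0)]
  refine hD.lim f hmem u hu ?_
  have hle : ∀ n, eLpNorm (u n - f) ⊤ mu ≤ ENNReal.ofReal (e n) := by
    intro n
    rw [eLpNorm_exponent_top]
    exact eLpNormEssSup_le_of_ae_bound (h n)
  refine tendsto_of_tendsto_of_tendsto_of_le_of_le tendsto_const_nhds ?_ (fun n => zero_le) hle
  have := ENNReal.tendsto_ofReal he
  rwa [ENNReal.ofReal_zero] at this

/-- Approximation form: `f ∈ D` as soon as for every `e > 0` there is `g ∈ D` with `|g - f| ≤ e`. -/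
theorem Doug.approx (hD : Doug D) (f : ℝ → ℂ) (hf : AEStronglyMeasurable f mu)
    (h : ∀ e : ℝ, 0 < e → ∃ g ∈ D, BD (fun x => g x - f x) e) : f ∈ D := by
  choose g hg hb using fun n : ℕ => h (1 / ((n : ℝ) + 1)) (by positivity)
  exact hD.unif f hf g hg _ tendsto_one_div_add_atTop_nhds_zero_nat hb

theorem a1_poly (hD : Doug D) (q : ℝ → ℝ) (hq : (fun x => (q x : ℂ)) ∈ D) (p : Polynomial ℝ) :
    (fun x => ((p.eval (q x) : ℝ) : ℂ)) ∈ D := by
  induction p using Polynomial.induction_on' with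
  | add p r hp hr =>
    have := hD.add _ hp _ hr
    convert this using 1
    funext x
    simp
  | monomial n a =>
    have hpow : ∀ n : ℕ, (fun x => ((q x : ℂ)) ^ n) ∈ D := by
      intro n
      induction n with
      | zero => simpa using hD.const 1
      | succ n ih =>
        have := hD.mul _ ih _ hq
        convert this using 1
        funext x
        simp [pow_succ]
    have := hD.smul (a : ℂ) _ (hpow n)
    convert this using 1
    funext x
    simp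

/-- Continuous functional calculus for real valued elements of `D` (Weierstrass). -/
theorem Doug.fc (hD : Doug D) (q : ℝ → ℝ) (hq : (fun x => (q x : ℂ)) ∈ D) (g : ℝ → ℝ)
    (hg : Continuous g) : (fun x => (g (q x) : ℂ)) ∈ D := by
  obtain ⟨hm, C, hC, hB⟩ := memLp_top_iff.1 (hD.mem _ hq)
  have hqm : AEStronglyMeasurable q mu := by
    have := Complex.continuous_re.comp_aestronglyMeasurable hm
    simpa [Function.comp_def] using this
  have hgm : AEStronglyMeasurable (fun x => (g (q x) : ℂ)) mu :=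
    Complex.continuous_ofReal.comp_aestronglyMeasurable (hg.comp_aestronglyMeasurable hqm)
  refine hD.approx _ hgm ?_
  intro e he
  obtain ⟨p, hp⟩ := exists_polynomial_near_of_continuousOn (-C) C g hg.continuousOn e he
  refine ⟨_, a1_poly hD q hq p, ?_⟩
  unfold BD at *
  filter_upwards [hB] with x hx
  have hx' : |q x| ≤ C := by simpa using hx
  have := hp (q x) (abs_le.1 hx')
  rw [← Complex.ofReal_sub, Complex.norm_real, Real.norm_eq_abs]
  exact this.le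

/-- Real valued elements of `D` are in `QD`. -/
theorem Doug.qd_real (hD : Doug D) (q : ℝ → ℝ) (hq : (fun x => (q x : ℂ)) ∈ D) :
    QD D (fun x => (q x : ℂ)) := by
  refine ⟨hq, ?_⟩
  simpa using hq

/-- `g(|b|) ∈ D` for `b ∈ QD` (`|b|² = b conj b`, then functional calculus with `g ∘ sqrt`). -/
theorem Doug.fc_norm (hD : Doug D) (b : ℝ → ℂ) (hb : QD D b) (g : ℝ → ℝ) (hg : Continuous g) :
    (fun x => (g ‖b x‖ : ℂ)) ∈ D := by
  have h1 : (fun x => ((‖b x‖ ^ 2 : ℝ) : ℂ)) ∈ D := by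
    have := hD.mul _ hb.1 _ hb.2
    convert this using 1
    funext x
    simp [Complex.mul_conj, Complex.normSq_eq_norm_sq]
  have h2 := hD.fc (fun x => ‖b x‖ ^ 2) h1 (fun t => g (Real.sqrt t))
    (hg.comp Real.continuous_sqrt)
  convert h2 using 1
  funext x
  simp [Real.sqrt_sq (norm_nonneg (b x))]

theorem QD.add (hD : Doug D) {f g : ℝ → ℂ} (hf : QD D f) (hg : QD D g) :
    QD D (fun x => f x + g x) := by
  refine ⟨hD.add _ hf.1 _ hg.1, ?_⟩
  have := hD.add _ hf.2 _ hg.2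
  convert this using 1
  funext x
  simp

theorem QD.mul (hD : Doug D) {f g : ℝ → ℂ} (hf : QD D f) (hg : QD D g) :
    QD D (fun x => f x * g x) := by
  refine ⟨hD.mul _ hf.1 _ hg.1, ?_⟩
  have := hD.mul _ hf.2 _ hg.2
  convert this using 1
  funext x
  simp

theorem QD.conj {f : ℝ → ℂ} (hf : QD D f) : QD D (fun x => starRingEnd ℂ (f x)) := by
  refine ⟨hf.2, ?_⟩
  simpa using hf.1

theorem QDA.hinf (hD : Doug D) {f : ℝ → ℂ} (hf : QDA D f) : Hinf f :=
  ⟨hD.mem _ hf.1.1, hf.2⟩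

theorem QDA.add (hD : Doug D) {f g : ℝ → ℂ} (hf : QDA D f) (hg : QDA D g) :
    QDA D (fun x => f x + g x) :=
  ⟨QD.add hD hf.1 hg.1, ((QDA.hinf hD hf).add (QDA.hinf hD hg)).ha⟩

theorem QDA.mul (hD : Doug D) {f g : ℝ → ℂ} (hf : QDA D f) (hg : QDA D g) :
    QDA D (fun x => f x * g x) :=
  ⟨QD.mul hD hf.1 hg.1, ((QDA.hinf hD hf).mul (QDA.hinf hD hg)).ha⟩

/-- Uniform limits of `QDA` functions are in `QDA`. -/
theorem QDA.approx (hD : Doug D) (f : ℝ → ℂ) (hf : AEStronglyMeasurable f mu)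
    (h : ∀ e : ℝ, 0 < e → ∃ g, QDA D g ∧ BD (fun x => g x - f x) e) : QDA D f := by
  refine ⟨⟨?_, ?_⟩, ?_⟩
  · refine hD.approx f hf ?_
    intro e he
    obtain ⟨g, hg, hb⟩ := h e he
    exact ⟨g, hg.1.1, hb⟩
  · refine hD.approx _ (Complex.continuous_conj.comp_aestronglyMeasurable hf) ?_
    intro e he
    obtain ⟨g, hg, hb⟩ := h e he
    refine ⟨_, hg.1.2, ?_⟩
    unfold BD at *
    filter_upwards [hb] with x hx
    rw [← map_sub, RCLike.norm_conj]
    exact hx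
  · choose g hg hb using fun n : ℕ => h (1 / ((n : ℝ) + 1)) (by positivity)
    exact (Hinf_lim hf g (fun n => QDA.hinf hD (hg n)) _ tendsto_one_div_add_atTop_nhds_zero_nat
      hb).ha

end Pool.H14.SR

end S_A1

noncomputable section S_A2

open MeasureTheory Set Filter Topology
namespace Pool.H14.SR


variable {D : Set (ℝ → ℂ)}

/-- (A2) If `F ∈ (H^∞)^{-1}` (inverse `G`) and `|F| ∈ D` then `F, G ∈ QDA`:
`conj F = |F|² G`, `conj G = F / |F|²` and `1/|F|² = g(|F|)` with `g` continuous (`|F| ≥ c > 0` a.e.). -/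
theorem A2 (hD : Doug D) (F G : ℝ → ℂ) (hF : Hinf F) (hG : Hinf G)
    (hFG : ∀ᵐ x ∂mu, F x * G x = 1) (h : (fun x => (‖F x‖ : ℂ)) ∈ D) : QDA D F ∧ QDA D G := by
  have hFD := hD.hinf _ hF
  have hGD := hD.hinf _ hG
  obtain ⟨-, C, hC, hB⟩ := memLp_top_iff.1 hG.mem
  unfold BD at hB
  refine ⟨⟨⟨hFD, ?_⟩, hF.ha⟩, ⟨⟨hGD, ?_⟩, hG.ha⟩⟩
  · have h1 := hD.mul _ (hD.mul _ h _ h) _ hGD
    refine hD.ae _ h1 _ ?_
    filter_upwards [hFG] with x hx
    have h2 : starRingEnd ℂ (F x) * F x = (‖F x‖ : ℂ) * (‖F x‖ : ℂ) := by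
      rw [mul_comm, Complex.mul_conj, Complex.normSq_eq_norm_sq]
      push_cast
      ring
    show starRingEnd ℂ (F x) = (‖F x‖ : ℂ) * (‖F x‖ : ℂ) * G x
    rw [← h2, mul_assoc, hx, mul_one]
  · set c : ℝ := 1 / (C + 1) with hc
    have hc0 : 0 < c := by positivity
    have hcont : Continuous (fun t : ℝ => 1 / (max t c) ^ 2) := by
      refine continuous_const.div ((continuous_id.max continuous_const).pow 2) ?_
      intro t
      have : 0 < max t c := lt_max_of_lt_right hc0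
      positivity
    have h1 := hD.fc (fun x => ‖F x‖) h _ hcont
    have h2 := hD.mul _ hFD _ h1
    refine hD.ae _ h2 _ ?_
    filter_upwards [hFG, hB] with x hx hb
    have hn : ‖F x‖ * ‖G x‖ = 1 := by rw [← norm_mul, hx, norm_one]
    have hF0 : F x ≠ 0 := by
      intro h0; rw [h0, zero_mul] at hx; exact zero_ne_one hx
    have hge : c ≤ ‖F x‖ := by
      rw [hc, div_le_iff₀ (by positivity)]
      have : ‖F x‖ * ‖G x‖ ≤ ‖F x‖ * (C + 1) :=
        mul_le_mul_of_nonneg_left (by linarith) (norm_nonneg _)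
      linarith
    show starRingEnd ℂ (G x) = F x * ((1 / (max ‖F x‖ c) ^ 2 : ℝ) : ℂ)
    rw [max_eq_left hge]
    have hFn : (‖F x‖ : ℂ) ≠ 0 := by
      exact_mod_cast (norm_ne_zero_iff.2 hF0)
    have h3 : F x * starRingEnd ℂ (F x) = (‖F x‖ : ℂ) ^ 2 := by
      rw [Complex.mul_conj, Complex.normSq_eq_norm_sq]
      push_cast
      rfl
    have h4 : starRingEnd ℂ (F x) * starRingEnd ℂ (G x) = 1 := by
      rw [← map_mul, hx, map_one]
    push_cast
    field_simp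
    rw [← h3]
    linear_combination (F x) * h4

/-- (A3) If `U ∈ D`, `|U| = 1`, `|U - h| ≤ 1/8` for an invertible `h ∈ H^∞` (inverse `g`), then
`conj U ∈ D`: `|h| ≥ 7/8`, `X = gU ∈ D`, `|X - 1| = |g||U - h| ≤ 1/7`, so `X^{-1} = Σ (1-X)^n ∈ D` and
`conj U = U^{-1} = X^{-1} g`. -/
theorem A3 (hD : Doug D) (U h g : ℝ → ℂ) (hU : U ∈ D) (hU1 : ∀ᵐ x ∂mu, ‖U x‖ = 1)
    (hh : Hinf h) (hg : Hinf g) (hhg : ∀ᵐ x ∂mu, h x * g x = 1)
    (hUh : BD (fun x => U x - h x) (1 / 8)) : QD D U := by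
  refine ⟨hU, ?_⟩
  have hgD := hD.hinf _ hg
  have hX := hD.mul _ hgD _ hU
  have hbd : ∀ᵐ x ∂mu, ‖1 - g x * U x‖ ≤ 1 / 7 := by
    unfold BD at hUh
    filter_upwards [hU1, hhg, hUh] with x h1 h2 h3
    have h4 : 1 ≤ ‖U x - h x‖ + ‖h x‖ := by
      calc (1 : ℝ) = ‖(U x - h x) + h x‖ := by rw [sub_add_cancel, h1]
        _ ≤ _ := norm_add_le _ _
    have h5 : 7 / 8 ≤ ‖h x‖ := by linarith
    have h6 : ‖h x‖ * ‖g x‖ = 1 := by rw [← norm_mul, h2, norm_one]
    have h7 : ‖g x‖ ≤ 8 / 7 := by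
      nlinarith [norm_nonneg (g x)]
    have h8 : 1 - g x * U x = -(g x * (U x - h x)) := by
      linear_combination -h2
    rw [h8, norm_neg, norm_mul]
    calc ‖g x‖ * ‖U x - h x‖ ≤ 8 / 7 * (1 / 8) :=
          mul_le_mul h7 h3 (norm_nonneg _) (by norm_num)
      _ = 1 / 7 := by norm_num
  have hY : (fun x => 1 - g x * U x) ∈ D := by
    have := hD.add _ (hD.const 1) _ (hD.smul (-1) _ hX)
    convert this using 1
    funext x
    simp [sub_eq_add_neg]
  have hYpow : ∀ n : ℕ, (fun x => (1 - g x * U x) ^ n) ∈ D := by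
    intro n
    induction n with
    | zero => simpa using hD.const 1
    | succ n ih =>
      have := hD.mul _ ih _ hY
      convert this using 1
      funext x
      simp [pow_succ]
  have hsum : ∀ n : ℕ, (fun x => ∑ k ∈ Finset.range n, (1 - g x * U x) ^ k) ∈ D := by
    intro n
    induction n with
    | zero => simpa using hD.const 0
    | succ n ih =>
      have := hD.add _ ih _ (hYpow n)
      convert this using 1
      funext x
      simp [Finset.sum_range_succ]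
  have hgm : AEStronglyMeasurable g mu := hg.mem.1
  have hUm : AEStronglyMeasurable U mu := (hD.mem _ hU).1
  have hfm : AEStronglyMeasurable (fun x => (g x * U x)⁻¹) mu := by
    have := (hgm.mul hUm).aemeasurable.inv.aestronglyMeasurable
    exact this
  have hinv : (fun x => (g x * U x)⁻¹) ∈ D := by
    refine hD.unif _ hfm _ hsum (fun n => 7 / 6 * (1 / 7) ^ n) ?_ ?_
    · have := (tendsto_pow_atTop_nhds_zero_of_lt_one (r := (1 / 7 : ℝ)) (by norm_num)
        (by norm_num)).const_mul (7 / 6)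
      simpa using this
    · intro n
      unfold BD
      filter_upwards [hbd] with x hx
      set X := g x * U x with hXd
      have h1 : 6 / 7 ≤ ‖X‖ := by
        have : (1 : ℝ) ≤ ‖1 - X‖ + ‖X‖ := by
          calc (1 : ℝ) = ‖(1 - X) + X‖ := by rw [sub_add_cancel, norm_one]
            _ ≤ _ := norm_add_le _ _
        linarith
      have hX0 : X ≠ 0 := by
        intro h0; rw [h0, norm_zero] at h1; norm_num at h1
      have h2 : X * ∑ k ∈ Finset.range n, (1 - X) ^ k = 1 - (1 - X) ^ n := by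
        have := mul_neg_geom_sum (1 - X) n
        rw [← this]
        congr 1
        ring
      have h3 : ∑ k ∈ Finset.range n, (1 - X) ^ k - X⁻¹ = -((1 - X) ^ n * X⁻¹) := by
        have : ∑ k ∈ Finset.range n, (1 - X) ^ k = (1 - (1 - X) ^ n) * X⁻¹ := by
          rw [← h2]; field_simp
        rw [this]; ring
      rw [h3, norm_neg, norm_mul, norm_pow, norm_inv, mul_comm]
      refine mul_le_mul ?_ (pow_le_pow_left₀ (norm_nonneg _) hx n) (by positivity) (by norm_num)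
      rw [inv_le_comm₀ (by linarith) (by norm_num)]
      norm_num
      linarith
  refine hD.ae _ (hD.mul _ hinv _ hgD) _ ?_
  filter_upwards [hU1, hhg] with x h1 h2
  show starRingEnd ℂ (U x) = (g x * U x)⁻¹ * g x
  have hg0 : g x ≠ 0 := by
    intro h0; rw [h0, mul_zero] at h2; exact zero_ne_one h2
  have hU0 : U x ≠ 0 := by
    intro h0; rw [h0, norm_zero] at h1; exact zero_ne_one h1
  have h3 : U x * starRingEnd ℂ (U x) = 1 := by
    rw [Complex.mul_conj, Complex.normSq_eq_norm_sq, h1]; simp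
  field_simp
  linear_combination h3

end Pool.H14.SR

end S_A2

noncomputable section S_DU

open MeasureTheory Set Filter Topology
namespace Pool.H14.SR

namespace DUaux

open scoped ENNReal InnerProductSpace

/-- Euclidean space. -/
abbrev En (N : ℕ) := EuclideanSpace ℂ (Fin N)

theorem integrable_Lp2 {N : ℕ} (h : Lp (En N) 2 mu) : Integrable (fun x => h x) mu :=
  (Lp.memLp h).integrable (by norm_num)

/-- The `L¹` seminorm on `L²`. -/
def sn (N : ℕ) : Seminorm ℂ (Lp (En N) 2 mu) :=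
  Seminorm.of (fun h => ∫ x, ‖h x‖ ∂mu)
    (by
      intro h k
      rw [← integral_add (integrable_Lp2 h).norm (integrable_Lp2 k).norm]
      refine integral_mono_ae (integrable_Lp2 (h + k)).norm
        ((integrable_Lp2 h).norm.add (integrable_Lp2 k).norm) ?_
      filter_upwards [Lp.coeFn_add h k] with x hx
      rw [hx]; exact norm_add_le _ _)
    (by
      intro a h
      rw [← integral_const_mul]
      refine integral_congr_ae ?_
      filter_upwards [Lp.coeFn_smul a h] with x hx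
      rw [hx, Pi.smul_apply, norm_smul])

theorem sn_apply {N : ℕ} (h : Lp (En N) 2 mu) : sn N h = ∫ x, ‖h x‖ ∂mu := rfl

theorem snC_apply {N : ℕ} (C : ℝ) (hC : 0 ≤ C) (h : Lp (En N) 2 mu) :
    (Real.toNNReal C • sn N) h = C * sn N h := by
  rw [_root_.smul_apply, NNReal.smul_def, Real.coe_toNNReal _ hC, smul_eq_mul]

theorem sn_continuous (N : ℕ) (C : ℝ) : Continuous (Real.toNNReal C • sn N) := by
  have h0 : ∀ h : Lp (En N) 2 mu, sn N h ≤ ((mu univ ^ (1 / 2 : ℝ)).toReal) * ‖h‖ := by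
    intro h
    have h1 := eLpNorm_le_eLpNorm_mul_rpow_measure_univ (μ := mu) (p := 1) (q := 2)
      (by norm_num) (Lp.aestronglyMeasurable h)
    have h2 : sn N h = (eLpNorm h 1 mu).toReal := by
      rw [sn_apply, integral_norm_eq_lintegral_enorm (Lp.aestronglyMeasurable h),
        eLpNorm_one_eq_lintegral_enorm]
    rw [h2, Lp.norm_def, mul_comm, ← ENNReal.toReal_mul]
    apply ENNReal.toReal_mono
    · apply ENNReal.mul_ne_top (Lp.eLpNorm_ne_top h)
      exact ENNReal.rpow_ne_top_of_nonneg (by norm_num) (measure_ne_top _ _)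
    · refine h1.trans (le_of_eq ?_)
      congr 2
      norm_num
  have h1 : Continuous (sn N) := by
    refine Seminorm.continuous_of_le (q := (mu univ ^ (1 / 2 : ℝ)).toNNReal •
      normSeminorm ℂ (Lp (En N) 2 mu)) ?_ ?_
    · exact continuous_norm.const_smul _
    · intro h
      exact h0 h
  exact h1.const_smul _

/-- The vector polynomials. -/
def hh {N : ℕ} (p : Fin N → Polynomial ℂ) (x : ℝ) : En N :=
  WithLp.toLp 2 (fun i => E (x, 0) * (p i).eval (E (x, 0)))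

theorem hh_continuous {N : ℕ} (p : Fin N → Polynomial ℂ) : Continuous (hh p) := by
  unfold hh
  have hE : Continuous (fun x : ℝ => E (x, 0)) := continuous_E.comp (by fun_prop)
  have h1 : Continuous (fun x : ℝ => (fun i => E (x, 0) * (p i).eval (E (x, 0)) : Fin N → ℂ)) :=
    continuous_pi fun i => hE.mul ((p i).continuous.comp hE)
  exact (PiLp.continuous_toLp 2 _).comp h1

theorem hh_memLp {N : ℕ} (p : Fin N → Polynomial ℂ) : MemLp (hh p) 2 mu := by
  obtain ⟨B, hB⟩ := (isCompact_Icc (a := (0 : ℝ)) (b := 2 * Real.pi)).exists_bound_of_continuousOn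
    (hh_continuous p).continuousOn
  refine MemLp.of_bound (hh_continuous p).aestronglyMeasurable B ?_
  unfold mu
  rw [ae_restrict_iff' measurableSet_Ioc]
  exact ae_of_all _ fun x hx => hB x (Ioc_subset_Icc_self hx)

/-- The vector polynomials as elements of `L²`. -/
def TT (N : ℕ) : (Fin N → Polynomial ℂ) →ₗ[ℂ] Lp (En N) 2 mu where
  toFun p := (hh_memLp p).toLp (hh p)
  map_add' p q := by
    rw [← MemLp.toLp_add]
    apply MemLp.toLp_congr
    refine ae_of_all _ fun x => ?_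
    ext i
    simp [hh, mul_add]
  map_smul' c p := by
    rw [RingHom.id_apply, ← MemLp.toLp_const_smul]
    apply MemLp.toLp_congr
    refine ae_of_all _ fun x => ?_
    ext i
    simp only [hh, Pi.smul_apply, Polynomial.eval_smul, smul_eq_mul, PiLp.smul_apply]
    ring

theorem TT_coe {N : ℕ} (p : Fin N → Polynomial ℂ) : ∀ᵐ x ∂mu, TT N p x = hh p x :=
  MemLp.coeFn_toLp (hh_memLp p)

theorem memLp_vec {N : ℕ} (v : ℝ → Fin N → ℂ) (hv : ∀ i, MemLp (fun x => v x i) 2 mu) :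
    MemLp (fun x => (WithLp.toLp 2 (fun i => starRingEnd ℂ (v x i)) : En N)) 2 mu := by
  have h1 : AEStronglyMeasurable
      (fun x => (WithLp.toLp 2 (fun i => starRingEnd ℂ (v x i)) : En N)) mu := by
    have h2 : AEStronglyMeasurable (fun x => (fun i => starRingEnd ℂ (v x i) : Fin N → ℂ)) mu := by
      have : AEMeasurable (fun x => (fun i => starRingEnd ℂ (v x i) : Fin N → ℂ)) mu :=
        aemeasurable_pi_lambda _ fun i =>
          (Complex.continuous_conj.comp_aestronglyMeasurable (hv i).1).aemeasurable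
      exact this.aestronglyMeasurable
    exact (PiLp.continuous_toLp 2 _).comp_aestronglyMeasurable h2
  have h3 : MemLp (fun x => ∑ i, ‖v x i‖) 2 mu := memLp_finsetSum _ fun i _ => (hv i).norm
  refine h3.mono h1 (ae_of_all _ fun x => ?_)
  rw [EuclideanSpace.norm_eq]
  simp only [RCLike.norm_conj]
  have h4 : 0 ≤ ∑ i, ‖v x i‖ := Finset.sum_nonneg fun i _ => norm_nonneg _
  rw [Real.norm_of_nonneg h4]
  apply Real.sqrt_le_iff.2 ⟨h4, ?_⟩
  exact Finset.sum_sq_le_sq_sum_of_nonneg fun i _ => norm_nonneg _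

end DUaux

open scoped ENNReal InnerProductSpace in
open DUaux in
/-- **(DU)** Duality.  Let `v = (v_i)` be an `L²` vector function and `C ≥ 0` with
`|∫ Σ v_i h_i| ≤ C ∫ (Σ|h_i|²)^{1/2}` for all analytic polynomials `h_i` with `h_i(0) = 0`.  Then there are
`g_i ∈ H²` with `Σ|v_i - g_i|² ≤ C²` a.e.

Proof: on `X = L¹(mu; ℂ^N)` (Euclidean norm) the functional `h ↦ ∫ Σ v_i h_i`, defined on the subspace of
polynomials vanishing at `0`, is bounded by `C`; Hahn-Banach extends it to `Λ ∈ X*`, `‖Λ‖ ≤ C`.  Restrict `Λ` to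
`L²(mu;ℂ^N)` (Riesz): `Λ(h) = ∫ Σ r_i h_i` with `r_i ∈ L²`.  Testing with `h = 1_A ξ` (`A` measurable, `ξ ∈ ℂ^N`
constant) gives `|Σ r_i ξ_i| ≤ C|ξ|` a.e. for `ξ` in a countable dense set, so `Σ|r_i|² ≤ C²` a.e.
`g = v - r` satisfies `∫ g_i e^{i(n+1)x} = 0`. -/
theorem DU (N : ℕ) (v : ℝ → Fin N → ℂ) (hv : ∀ i, MemLp (fun x => v x i) 2 mu) (C : ℝ) (hC : 0 ≤ C)
    (H : ∀ p : Fin N → Polynomial ℂ,
      ‖∫ x in Set.Ioc 0 (2 * Real.pi), ∑ i, v x i * (E (x, 0) * (p i).eval (E (x, 0)))‖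
        ≤ C * ∫ x in Set.Ioc 0 (2 * Real.pi),
            Real.sqrt (∑ i, ‖E (x, 0) * (p i).eval (E (x, 0))‖ ^ 2)) :
    ∃ g : ℝ → Fin N → ℂ, (∀ i, Htwo (fun x => g x i)) ∧
      ∀ᵐ x ∂mu, ∑ i, ‖v x i - g x i‖ ^ 2 ≤ C ^ 2 := by
  classical
  set V : Lp (En N) 2 mu := (memLp_vec v hv).toLp _ with hV
  have hVc : ∀ᵐ x ∂mu, V x = WithLp.toLp 2 (fun i => starRingEnd ℂ (v x i)) :=
    MemLp.coeFn_toLp (memLp_vec v hv)
  have hVT : ∀ p, ⟪V, TT N p⟫_ℂ =
      ∫ x in Set.Ioc 0 (2 * Real.pi), ∑ i, v x i * (E (x, 0) * (p i).eval (E (x, 0))) := by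
    intro p
    rw [L2.inner_def]
    refine integral_congr_ae ?_
    filter_upwards [hVc, TT_coe p] with x hx1 hx2
    rw [hx1, hx2, PiLp.inner_apply]
    refine Finset.sum_congr rfl fun i _ => ?_
    simp [hh, RCLike.inner_apply, mul_comm]
  have hsnT : ∀ p, sn N (TT N p) = ∫ x in Set.Ioc 0 (2 * Real.pi),
      Real.sqrt (∑ i, ‖E (x, 0) * (p i).eval (E (x, 0))‖ ^ 2) := by
    intro p
    rw [sn_apply]
    refine integral_congr_ae ?_
    filter_upwards [TT_coe p] with x hx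
    rw [hx, EuclideanSpace.norm_eq]
    rfl
  set S : Submodule ℂ (Lp (En N) 2 mu) := LinearMap.range (TT N) with hS
  set f : Module.Dual ℂ S := (innerSL ℂ V).toLinearMap.comp S.subtype with hf
  obtain ⟨Λ, hΛ1, hΛ2⟩ := Module.Dual.exists_continuous_extension_of_le_seminorm S f
    (sn_continuous N C) (by
      rintro ⟨_, p, rfl⟩
      have h1 := H p
      rw [← hVT, ← hsnT, ← snC_apply C hC] at h1
      exact h1)
  set r : Lp (En N) 2 mu := (InnerProductSpace.toDual ℂ (Lp (En N) 2 mu)).symm Λ with hr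
  have hrΛ : ∀ h, ⟪r, h⟫_ℂ = Λ h := fun h => InnerProductSpace.toDual_symm_apply
  -- testing
  have htest : ∀ ξ : En N, ∀ᵐ x ∂mu, RCLike.re (⟪ξ, r x⟫_ℂ) ≤ C * ‖ξ‖ := by
    intro ξ
    have hint : Integrable (fun x => ⟪ξ, r x⟫_ℂ) mu := (integrable_Lp2 r).const_inner ξ
    refine ae_le_of_forall_setIntegral_le hint.re (integrable_const _) ?_
    intro A hA hmA
    have h1 := hΛ2 (indicatorConstLp 2 hA hmA.ne ξ)
    rw [snC_apply C hC, ← hrΛ, ← inner_conj_symm, RCLike.norm_conj,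
      L2.inner_indicatorConstLp_eq_setIntegral_inner] at h1
    have h2 : sn N (indicatorConstLp 2 hA hmA.ne ξ) = ‖ξ‖ * mu.real A := by
      rw [sn_apply]
      have h3 : ∫ x, ‖(indicatorConstLp 2 hA hmA.ne ξ : Lp (En N) 2 mu) x‖ ∂mu =
          ∫ x, A.indicator (fun _ => ‖ξ‖) x ∂mu := by
        refine integral_congr_ae ?_
        filter_upwards [indicatorConstLp_coeFn (p := 2) (hs := hA) (hμs := hmA.ne) (c := ξ)]
          with x hx
        rw [hx, norm_indicator_eq_indicator_norm]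
      rw [h3, integral_indicator hA, setIntegral_const, smul_eq_mul, mul_comm]
    have h3 : ‖∫ x in A, ⟪ξ, r x⟫_ℂ ∂mu‖ ≤ C * (‖ξ‖ * mu.real A) := by
      rw [← h2]; exact h1
    rw [setIntegral_const, smul_eq_mul]
    have h4 : ∫ x in A, RCLike.re (⟪ξ, r x⟫_ℂ) ∂mu = RCLike.re (∫ x in A, ⟪ξ, r x⟫_ℂ ∂mu) :=
      integral_re hint.integrableOn
    rw [h4]
    calc RCLike.re (∫ x in A, ⟪ξ, r x⟫_ℂ ∂mu) ≤ ‖∫ x in A, ⟪ξ, r x⟫_ℂ ∂mu‖ := RCLike.re_le_norm _
      _ ≤ C * (‖ξ‖ * mu.real A) := h3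
      _ = mu.real A * (C * ‖ξ‖) := by ring
  have hbd : ∀ᵐ x ∂mu, ‖r x‖ ≤ C := by
    have h1 : ∀ᵐ x ∂mu, ∀ n : ℕ, RCLike.re (⟪TopologicalSpace.denseSeq (En N) n, r x⟫_ℂ) ≤
        C * ‖TopologicalSpace.denseSeq (En N) n‖ := ae_all_iff.2 fun n => htest _
    filter_upwards [h1] with x hx
    have h2 : ∀ ξ : En N, RCLike.re (⟪ξ, r x⟫_ℂ) ≤ C * ‖ξ‖ := by
      intro ξ
      refine (TopologicalSpace.denseRange_denseSeq (En N)).induction_on ξ ?_ hx
      exact isClosed_le (RCLike.continuous_re.comp (continuous_id.inner continuous_const))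
        (continuous_const.mul continuous_norm)
    have h3 := h2 (r x)
    rw [inner_self_eq_norm_sq] at h3
    by_contra hcon
    push Not at hcon
    have h4 : 0 < ‖r x‖ := lt_of_le_of_lt hC hcon
    nlinarith
  -- the components of `r`
  have hrc : ∀ i, MemLp (fun x => starRingEnd ℂ (r x i)) 2 mu := by
    intro i
    refine (Lp.memLp r).mono ?_ (ae_of_all _ fun x => ?_)
    · exact (Complex.continuous_conj.comp (PiLp.continuous_apply 2 _ i)).comp_aestronglyMeasurable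
        (Lp.aestronglyMeasurable r)
    · rw [RCLike.norm_conj]
      exact PiLp.norm_apply_le (r x) i
  refine ⟨fun x i => v x i - starRingEnd ℂ (r x i), fun i => ⟨(hv i).sub (hrc i), ?_⟩, ?_⟩
  · intro n
    set p : Fin N → Polynomial ℂ := Pi.single i (Polynomial.X ^ n) with hp
    have h1 : ⟪V, TT N p⟫_ℂ = ⟪r, TT N p⟫_ℂ := by
      rw [hrΛ]
      exact (hΛ1 ⟨TT N p, p, rfl⟩).symm
    have hEp : ∀ (x : ℝ) (u : Fin N → ℂ), ∑ j, u j * (E (x, 0) * (p j).eval (E (x, 0))) =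
        Complex.exp (((n : ℂ) + 1) * Complex.I * (x : ℂ)) * u i := by
      intro x u
      rw [Finset.sum_eq_single i]
      · have : E (x, 0) * (p i).eval (E (x, 0)) =
            Complex.exp (((n : ℂ) + 1) * Complex.I * (x : ℂ)) := by
          rw [hp, Pi.single_eq_same, Polynomial.eval_pow, Polynomial.eval_X, E_zero,
            ← pow_succ', ← Complex.exp_nat_mul]
          congr 1
          push_cast; ring
        rw [this, mul_comm]
      · intro j _ hj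
        simp [hp, Pi.single_eq_of_ne hj]
      · simp
    rw [hVT] at h1
    have h2 : ⟪r, TT N p⟫_ℂ = ∫ x in Set.Ioc 0 (2 * Real.pi),
        ∑ j, starRingEnd ℂ (r x j) * (E (x, 0) * (p j).eval (E (x, 0))) := by
      rw [L2.inner_def]
      refine integral_congr_ae ?_
      filter_upwards [TT_coe p] with x hx2
      rw [hx2, PiLp.inner_apply]
      refine Finset.sum_congr rfl fun j _ => ?_
      simp [hh, RCLike.inner_apply, mul_comm]
    rw [h2] at h1
    simp only [hEp] at h1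
    have hexp : ∀ w : ℝ → ℂ, MemLp w 2 mu → Integrable
        (fun x : ℝ => Complex.exp (((n : ℂ) + 1) * Complex.I * (x : ℂ)) * w x) mu := by
      intro w hw
      have hc : Continuous (fun x : ℝ => Complex.exp (((n : ℂ) + 1) * Complex.I * (x : ℂ))) := by
        fun_prop
      refine (hw.integrable (by norm_num)).bdd_mul (c := 1) hc.aestronglyMeasurable
        (ae_of_all _ fun x => ?_)
      rw [Complex.norm_exp]
      simp
    simp only [mul_sub]
    have h3 := integral_sub (hexp _ (hv i)) (hexp _ (hrc i))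
    change ∫ x, _ ∂mu = 0
    rw [h3]
    exact sub_eq_zero.2 h1
  · filter_upwards [hbd] with x hx
    have h1 : ∑ i, ‖v x i - (v x i - starRingEnd ℂ (r x i))‖ ^ 2 = ‖r x‖ ^ 2 := by
      rw [EuclideanSpace.norm_sq_eq]
      refine Finset.sum_congr rfl fun i _ => ?_
      rw [sub_sub_cancel, RCLike.norm_conj]
    rw [h1]
    exact pow_le_pow_left₀ (norm_nonneg _) hx 2

end Pool.H14.SR

end S_DU

noncomputable section S_WL

open MeasureTheory Set Filter Topology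
namespace Pool.H14.SR

namespace WLaux

open scoped ENNReal InnerProductSpace

theorem integrable_Lp2 (h : Lp ℂ 2 mu) : Integrable (fun x => h x) mu :=
  (Lp.memLp h).integrable (by norm_num)

/-- The `L¹` norm on `L²`. -/
def sn (h : Lp ℂ 2 mu) : ℝ := ∫ x, ‖h x‖ ∂mu

theorem sn_le (h : Lp ℂ 2 mu) : sn h ≤ ((mu univ ^ (1 / 2 : ℝ)).toReal) * ‖h‖ := by
  have h1 := eLpNorm_le_eLpNorm_mul_rpow_measure_univ (μ := mu) (p := 1) (q := 2)
    (by norm_num) (Lp.aestronglyMeasurable h)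
  have h2 : sn h = (eLpNorm h 1 mu).toReal := by
    rw [sn, integral_norm_eq_lintegral_enorm (Lp.aestronglyMeasurable h),
      eLpNorm_one_eq_lintegral_enorm]
  rw [h2, Lp.norm_def, mul_comm, ← ENNReal.toReal_mul]
  apply ENNReal.toReal_mono
  · apply ENNReal.mul_ne_top (Lp.eLpNorm_ne_top h)
    exact ENNReal.rpow_ne_top_of_nonneg (by norm_num) (measure_ne_top _ _)
  · refine h1.trans (le_of_eq ?_)
    congr 2
    norm_num

/-- A functional bounded by the `L¹` norm is represented by a bounded function. -/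
theorem riesz_bd (Λ : StrongDual ℂ (Lp ℂ 2 mu)) (C : ℝ) (hC : 0 ≤ C)
    (hΛ : ∀ h, ‖Λ h‖ ≤ C * sn h) :
    ∃ r : Lp ℂ 2 mu, (∀ h, ⟪r, h⟫_ℂ = Λ h) ∧ ∀ᵐ x ∂mu, ‖r x‖ ≤ C := by
  set r : Lp ℂ 2 mu := (InnerProductSpace.toDual ℂ (Lp ℂ 2 mu)).symm Λ with hr
  have hrΛ : ∀ h, ⟪r, h⟫_ℂ = Λ h := fun h => InnerProductSpace.toDual_symm_apply
  have htest : ∀ ξ : ℂ, ∀ᵐ x ∂mu, RCLike.re (⟪ξ, r x⟫_ℂ) ≤ C * ‖ξ‖ := by
    intro ξ
    have hint : Integrable (fun x => ⟪ξ, r x⟫_ℂ) mu := (integrable_Lp2 r).const_inner ξ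
    refine ae_le_of_forall_setIntegral_le hint.re (integrable_const _) ?_
    intro A hA hmA
    have h1 := hΛ (indicatorConstLp 2 hA hmA.ne ξ)
    rw [← hrΛ, ← inner_conj_symm, RCLike.norm_conj,
      L2.inner_indicatorConstLp_eq_setIntegral_inner] at h1
    have h2 : sn (indicatorConstLp 2 hA hmA.ne ξ) = ‖ξ‖ * mu.real A := by
      rw [sn]
      have h3 : ∫ x, ‖(indicatorConstLp 2 hA hmA.ne ξ : Lp ℂ 2 mu) x‖ ∂mu =
          ∫ x, A.indicator (fun _ => ‖ξ‖) x ∂mu := by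
        refine integral_congr_ae ?_
        filter_upwards [indicatorConstLp_coeFn (p := 2) (hs := hA) (hμs := hmA.ne) (c := ξ)]
          with x hx
        rw [hx, norm_indicator_eq_indicator_norm]
      rw [h3, integral_indicator hA, setIntegral_const, smul_eq_mul, mul_comm]
    have h3 : ‖∫ x in A, ⟪ξ, r x⟫_ℂ ∂mu‖ ≤ C * (‖ξ‖ * mu.real A) := by
      rw [← h2]; exact h1
    rw [setIntegral_const, smul_eq_mul]
    have h4 : ∫ x in A, RCLike.re (⟪ξ, r x⟫_ℂ) ∂mu = RCLike.re (∫ x in A, ⟪ξ, r x⟫_ℂ ∂mu) :=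
      integral_re hint.integrableOn
    rw [h4]
    calc RCLike.re (∫ x in A, ⟪ξ, r x⟫_ℂ ∂mu) ≤ ‖∫ x in A, ⟪ξ, r x⟫_ℂ ∂mu‖ := RCLike.re_le_norm _
      _ ≤ C * (‖ξ‖ * mu.real A) := h3
      _ = mu.real A * (C * ‖ξ‖) := by ring
  refine ⟨r, hrΛ, ?_⟩
  have h1 : ∀ᵐ x ∂mu, ∀ n : ℕ, RCLike.re (⟪TopologicalSpace.denseSeq ℂ n, r x⟫_ℂ) ≤
      C * ‖TopologicalSpace.denseSeq ℂ n‖ := ae_all_iff.2 fun n => htest _
  filter_upwards [h1] with x hx
  have h2 : ∀ ξ : ℂ, RCLike.re (⟪ξ, r x⟫_ℂ) ≤ C * ‖ξ‖ := by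
    intro ξ
    refine (TopologicalSpace.denseRange_denseSeq ℂ).induction_on ξ ?_ hx
    exact isClosed_le (RCLike.continuous_re.comp (continuous_id.inner continuous_const))
      (continuous_const.mul continuous_norm)
  have h3 := h2 (r x)
  rw [inner_self_eq_norm_sq] at h3
  by_contra hcon
  push Not at hcon
  have h4 : 0 < ‖r x‖ := lt_of_le_of_lt hC hcon
  nlinarith

theorem integrable_mul {f h : ℝ → ℂ} {C : ℝ} (hf : AEStronglyMeasurable f mu) (hb : BD f C)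
    (hh : Integrable h mu) : Integrable (fun x => f x * h x) mu :=
  hh.bdd_mul hf hb

theorem norm_integral_le {f h : ℝ → ℂ} {C : ℝ} (hb : BD f C)
    (hh : Integrable h mu) : ‖∫ x, f x * h x ∂mu‖ ≤ C * ∫ x, ‖h x‖ ∂mu := by
  rw [← integral_const_mul]
  refine norm_integral_le_of_norm_le (hh.norm.const_mul C) ?_
  filter_upwards [hb] with x hx
  rw [norm_mul]
  exact mul_le_mul_of_nonneg_right hx (norm_nonneg _)

theorem sq_integral_le {w : ℝ → ℝ} (hw : MemLp w 2 mu) :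
    (∫ x, w x ∂mu) ^ 2 ≤ mu.real univ * ∫ x, (w x) ^ 2 ∂mu := by
  have h1 : Integrable w mu := hw.integrable (by norm_num)
  have h2 : Integrable (fun x => (w x) ^ 2) mu := hw.integrable_sq
  have key : ∀ m : ℝ, 0 ≤ (∫ x, (w x) ^ 2 ∂mu) - 2 * m * (∫ x, w x ∂mu) + m ^ 2 * mu.real univ := by
    intro m
    have h3 : 0 ≤ ∫ x, (w x - m) ^ 2 ∂mu := integral_nonneg fun x => sq_nonneg _
    have h4 : ∫ x, (w x - m) ^ 2 ∂mu =
        (∫ x, (w x) ^ 2 ∂mu) - 2 * m * (∫ x, w x ∂mu) + m ^ 2 * mu.real univ := by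
      have e : ∀ x, (w x - m) ^ 2 = (w x) ^ 2 - 2 * m * w x + m ^ 2 := fun x => by ring
      simp only [e]
      have e1 : ∫ x, (w x ^ 2 - 2 * m * w x + m ^ 2) ∂mu =
          ∫ x, (w x ^ 2 - 2 * m * w x) ∂mu + ∫ _x, m ^ 2 ∂mu :=
        integral_add (h2.sub (h1.const_mul _)) (integrable_const _)
      have e2 : ∫ x, (w x ^ 2 - 2 * m * w x) ∂mu = ∫ x, w x ^ 2 ∂mu - ∫ x, 2 * m * w x ∂mu :=
        integral_sub h2 (h1.const_mul _)
      rw [e1, e2, integral_const_mul, integral_const, smul_eq_mul]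
      ring
    rw [← h4]; exact h3
  by_cases h0 : mu.real univ = 0
  · have h5 : mu = 0 := by
      rw [← Measure.measure_univ_eq_zero]
      rcases (ENNReal.toReal_eq_zero_iff _).1 h0 with h | h
      · exact h
      · exact absurd h (measure_ne_top _ _)
    simp [h5]
  · have h5 : 0 < mu.real univ := lt_of_le_of_ne measureReal_nonneg (Ne.symm h0)
    have h6 := key ((∫ x, w x ∂mu) / mu.real univ)
    have h7 : (∫ x, (w x) ^ 2 ∂mu) - 2 * ((∫ x, w x ∂mu) / mu.real univ) * (∫ x, w x ∂mu) +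
        ((∫ x, w x ∂mu) / mu.real univ) ^ 2 * mu.real univ =
        (∫ x, (w x) ^ 2 ∂mu) - (∫ x, w x ∂mu) ^ 2 / mu.real univ := by
      field_simp
      ring
    rw [h7, sub_nonneg, div_le_iff₀ h5] at h6
    linarith

end WLaux

open scoped ENNReal InnerProductSpace in
open WLaux in
/-- **(WL)** Weak limits along an ultrafilter: if `|f_n| ≤ C` a.e. for every `n`, there is `g`, `|g| ≤ C` a.e., with
`∫ f_n h → ∫ g h` along `U` for every `h ∈ L²`.
(The functional `h ↦ lim_U ∫ f_n h` on `L²(mu;ℂ)` is bounded, Riesz; `|g| ≤ C` by testing with indicators times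
unimodular constants from a countable dense set.) -/
theorem WL (U : Ultrafilter ℕ) (f : ℕ → ℝ → ℂ) (C : ℝ) (hC : 0 ≤ C)
    (hf : ∀ n, AEStronglyMeasurable (f n) mu) (hb : ∀ n, BD (f n) C) :
    ∃ g : ℝ → ℂ, MemLp g ⊤ mu ∧ BD g C ∧ ∀ h : ℝ → ℂ, MemLp h 2 mu →
      Tendsto (fun n => ∫ x in Set.Ioc 0 (2 * Real.pi), f n x * h x) U
        (𝓝 (∫ x in Set.Ioc 0 (2 * Real.pi), g x * h x)) := by
  have hbd : ∀ (h : Lp ℂ 2 mu) n, ‖∫ x, f n x * h x ∂mu‖ ≤ C * sn h := fun h n =>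
    norm_integral_le (hb n) (integrable_Lp2 h)
  have hlim : ∀ h : Lp ℂ 2 mu, ∃ l : ℂ, Tendsto (fun n => ∫ x, f n x * h x ∂mu) U (𝓝 l) ∧
      ‖l‖ ≤ C * sn h := by
    intro h
    have h1 : ((U.map (fun n => ∫ x, f n x * h x ∂mu) : Ultrafilter ℂ) : Filter ℂ) ≤
        𝓟 (Metric.closedBall 0 (C * sn h)) := by
      rw [le_principal_iff]
      exact Filter.mem_map.2 (Filter.univ_mem' fun n => mem_closedBall_zero_iff.2 (hbd h n))
    obtain ⟨l, hl1, hl2⟩ := (isCompact_closedBall (0 : ℂ) (C * sn h)).ultrafilter_le_nhds _ h1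
    exact ⟨l, hl2, mem_closedBall_zero_iff.1 hl1⟩
  choose L hL1 hL2 using hlim
  set Ll : Lp ℂ 2 mu →ₗ[ℂ] ℂ :=
    { toFun := L
      map_add' := by
        intro h k
        refine tendsto_nhds_unique (hL1 (h + k)) ?_
        have h1 := (hL1 h).add (hL1 k)
        refine h1.congr fun n => ?_
        rw [← integral_add (integrable_mul (hf n) (hb n) (integrable_Lp2 h))
          (integrable_mul (hf n) (hb n) (integrable_Lp2 k))]
        refine integral_congr_ae ?_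
        filter_upwards [Lp.coeFn_add h k] with x hx
        rw [hx, Pi.add_apply, mul_add]
      map_smul' := by
        intro c h
        refine tendsto_nhds_unique (hL1 (c • h)) ?_
        have h1 := (hL1 h).const_smul c
        refine h1.congr fun n => ?_
        rw [← integral_smul]
        refine integral_congr_ae ?_
        filter_upwards [Lp.coeFn_smul c h] with x hx
        rw [hx, Pi.smul_apply, smul_eq_mul, smul_eq_mul]
        ring } with hLl
  set Λ : StrongDual ℂ (Lp ℂ 2 mu) := Ll.mkContinuous (C * (mu univ ^ (1 / 2 : ℝ)).toReal) (by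
    intro h
    refine (hL2 h).trans ?_
    rw [mul_assoc]
    exact mul_le_mul_of_nonneg_left (sn_le h) hC) with hΛ
  obtain ⟨r, hr1, hr2⟩ := riesz_bd Λ C hC (fun h => hL2 h)
  have hrm : AEStronglyMeasurable (fun x => starRingEnd ℂ (r x)) mu :=
    Complex.continuous_conj.comp_aestronglyMeasurable (Lp.aestronglyMeasurable r)
  have hrb : BD (fun x => starRingEnd ℂ (r x)) C := by
    unfold BD
    filter_upwards [hr2] with x hx
    rw [RCLike.norm_conj]; exact hx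
  refine ⟨fun x => starRingEnd ℂ (r x), memLp_top_of_bound hrm C hrb, hrb, fun h hh => ?_⟩
  have h1 := hL1 hh.toLp
  have h2 : L hh.toLp = ∫ x in Set.Ioc 0 (2 * Real.pi), starRingEnd ℂ (r x) * h x := by
    have h3 : L hh.toLp = ⟪r, hh.toLp⟫_ℂ := (hr1 _).symm
    rw [h3, L2.inner_def]
    refine integral_congr_ae ?_
    filter_upwards [hh.coeFn_toLp] with x hx
    rw [hx, RCLike.inner_apply, mul_comm]
  rw [h2] at h1
  refine h1.congr fun n => ?_
  refine integral_congr_ae ?_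
  filter_upwards [hh.coeFn_toLp] with x hx
  rw [hx]

open WLaux in
/-- **(WP)** Weak times strong: `f_n → g` weakly as in `WL`, `k_n → k` in `L²`, then
`∫ f_n k_n h → ∫ g k h` along `U` for every bounded `h`. -/
theorem WP (U : Ultrafilter ℕ) (f : ℕ → ℝ → ℂ) (C : ℝ) (hf : ∀ n, AEStronglyMeasurable (f n) mu)
    (hb : ∀ n, BD (f n) C) (g : ℝ → ℂ)
    (hg : ∀ h : ℝ → ℂ, MemLp h 2 mu →
      Tendsto (fun n => ∫ x in Set.Ioc 0 (2 * Real.pi), f n x * h x) U
        (𝓝 (∫ x in Set.Ioc 0 (2 * Real.pi), g x * h x)))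
    (k : ℕ → ℝ → ℂ) (k' : ℝ → ℂ) (hk : ∀ n, MemLp (k n) 2 mu) (hk' : MemLp k' 2 mu)
    (hkk : Tendsto (fun n => ∫ x in Set.Ioc 0 (2 * Real.pi), ‖k n x - k' x‖ ^ 2) U (𝓝 0))
    (h : ℝ → ℂ) (hh : MemLp h ⊤ mu) :
    Tendsto (fun n => ∫ x in Set.Ioc 0 (2 * Real.pi), f n x * (k n x * h x)) U
      (𝓝 (∫ x in Set.Ioc 0 (2 * Real.pi), g x * (k' x * h x))) := by
  obtain ⟨M, hM0, hM⟩ : ∃ M : ℝ, 0 ≤ M ∧ BD h M := (memLp_top_iff.1 hh).2
  have hkh : ∀ u : ℝ → ℂ, MemLp u 2 mu → MemLp (fun x => u x * h x) 2 mu := by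
    intro u hu
    refine MemLp.of_le_mul (c := M) hu (hu.1.mul hh.1) ?_
    filter_upwards [hM] with x hx
    rw [norm_mul, mul_comm]
    exact mul_le_mul_of_nonneg_right hx (norm_nonneg _)
  have h1 := hg (fun x => k' x * h x) (hkh k' hk')
  have hb' : ∀ n, BD (f n) |C| := fun n => by
    filter_upwards [hb n] with x hx
    exact hx.trans (le_abs_self C)
  have hdiff : Tendsto (fun n => ∫ x, f n x * ((k n x - k' x) * h x) ∂mu) U (𝓝 0) := by
    have h2 : Tendsto (fun n => |C| * (M * Real.sqrt (mu.real univ *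
        ∫ x, ‖k n x - k' x‖ ^ 2 ∂mu))) U (𝓝 0) := by
      have h3 : Tendsto (fun n => mu.real univ * ∫ x, ‖k n x - k' x‖ ^ 2 ∂mu) U (𝓝 0) := by
        have := Tendsto.const_mul (mu.real univ) hkk
        rw [mul_zero] at this
        exact this
      have h4 := (Real.continuous_sqrt.tendsto 0).comp h3
      rw [Real.sqrt_zero] at h4
      simpa using (h4.const_mul M).const_mul |C|
    refine squeeze_zero_norm (fun n => ?_) h2
    have h5 : MemLp (fun x => k n x - k' x) 2 mu := (hk n).sub hk'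
    have h6 := norm_integral_le (hb' n) ((hkh _ h5).integrable (by norm_num))
    refine h6.trans (mul_le_mul_of_nonneg_left ?_ (abs_nonneg C))
    have h7 : ∫ x, ‖(k n x - k' x) * h x‖ ∂mu ≤ M * ∫ x, ‖k n x - k' x‖ ∂mu := by
      rw [← integral_const_mul]
      refine integral_mono_ae ((hkh _ h5).integrable (by norm_num)).norm
        ((h5.integrable (by norm_num)).norm.const_mul M) ?_
      filter_upwards [hM] with x hx
      rw [norm_mul, mul_comm]
      exact mul_le_mul_of_nonneg_right hx (norm_nonneg _)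
    refine h7.trans (mul_le_mul_of_nonneg_left ?_ hM0)
    exact Real.le_sqrt_of_sq_le (sq_integral_le h5.norm)
  have h2 := hdiff.add h1
  rw [zero_add] at h2
  refine h2.congr fun n => ?_
  have h3 : ∫ x, f n x * (k n x * h x) ∂mu =
      ∫ x, f n x * ((k n x - k' x) * h x) ∂mu + ∫ x, f n x * (k' x * h x) ∂mu := by
    have h5 : MemLp (fun x => k n x - k' x) 2 mu := (hk n).sub hk'
    have h6 := integral_add (integrable_mul (hf n) (hb n) ((hkh _ h5).integrable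
      (by norm_num))) (integrable_mul (hf n) (hb n) ((hkh _ hk').integrable (by norm_num)))
    rw [← h6]
    refine integral_congr_ae (ae_of_all _ fun x => ?_)
    simp only
    ring
  exact h3.symm

end Pool.H14.SR

end S_WL

noncomputable section S_TD

open MeasureTheory Set Filter Topology
namespace Pool.H14.SR

theorem td_coef_smul (c : ℂ) (f : ℝ → ℂ) (n : ℕ) :
    coef (fun x => c * f x) n = c * coef f n := by
  unfold coef
  have : ∀ x : ℝ, Complex.exp (-((n : ℂ) * Complex.I * (x : ℂ))) * (c * f x)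
      = c * (Complex.exp (-((n : ℂ) * Complex.I * (x : ℂ))) * f x) := by
    intro x; ring
  simp_rw [this]
  rw [integral_const_mul]
  ring

theorem td_ext_smul (c : ℂ) (f : ℝ → ℂ) (z : ℂ) :
    ext (fun x => c * f x) z = c * ext f z := by
  unfold ext
  simp_rw [td_coef_smul]
  rw [← tsum_mul_left]
  congr 1
  funext n
  ring

theorem td_Hinf_pow {f : ℝ → ℂ} (hf : Hinf f) (n : ℕ) : Hinf (fun x => f x ^ n) := by
  induction n with
  | zero => simpa using Hinf_const 1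
  | succ n ih =>
    simp_rw [pow_succ]
    exact ih.mul hf

theorem td_ext_one (z : ℂ) : ext (fun _ => (1 : ℂ)) z = 1 := by
  have hc : ∀ n : ℕ, coef (fun _ => (1 : ℂ)) n = if n = 0 then 1 else 0 := by
    intro n
    unfold coef
    rcases Nat.eq_zero_or_pos n with h | h
    · subst h
      simp only [Nat.cast_zero, zero_mul, neg_zero, Complex.exp_zero, mul_one, if_true]
      rw [setIntegral_const]
      have hpi : (0 : ℝ) < 2 * Real.pi := by positivity
      rw [Measure.real, Real.volume_Ioc, ENNReal.toReal_ofReal (by linarith)]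
      simp only [sub_zero]
      have hpi' : (Real.pi : ℂ) ≠ 0 := by exact_mod_cast Real.pi_ne_zero
      rw [Complex.real_smul]
      push_cast
      field_simp
    · rw [if_neg (Nat.pos_iff_ne_zero.1 h)]
      have hn : (n : ℂ) ≠ 0 := by exact_mod_cast (Nat.pos_iff_ne_zero.1 h)
      have hpi : (0 : ℝ) ≤ 2 * Real.pi := by positivity
      rw [← intervalIntegral.integral_of_le hpi]
      have hne : -((n : ℂ) * Complex.I) ≠ 0 := by
        simp [hn, Complex.I_ne_zero]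
      have h1 : ∀ x : ℝ, Complex.exp (-((n : ℂ) * Complex.I * (x : ℂ))) * 1
          = Complex.exp (-((n : ℂ) * Complex.I) * (x : ℂ)) := by
        intro x; rw [mul_one]; congr 1; ring
      simp_rw [h1]
      rw [integral_exp_mul_complex hne]
      have h2 : -((n : ℂ) * Complex.I) * ((2 * Real.pi : ℝ) : ℂ)
          = ((-(n : ℤ) : ℤ) : ℂ) * (2 * Real.pi * Complex.I) := by
        push_cast; ring
      rw [h2, Complex.exp_int_mul_two_pi_mul_I]
      simp
  unfold ext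
  simp_rw [hc]
  rw [tsum_eq_single 0]
  · simp
  · intro n hn
    simp [hn]

theorem td_ext_pow (f : ℝ → ℂ) (hf : Hinf f) (n : ℕ) :
    ∀ z ∈ Metric.ball (0 : ℂ) 1, ext (fun x => f x ^ n) z = ext f z ^ n := by
  induction n with
  | zero => intro z _; simpa using td_ext_one z
  | succ n ih =>
    intro z hz
    simp_rw [pow_succ]
    rw [ext_mul _ _ (td_Hinf_pow hf n) hf z hz, ih z hz]

variable {D : Set (ℝ → ℂ)}

theorem td_QDA_const (hD : Doug D) (c : ℂ) : QDA D (fun _ => c) := by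
  refine ⟨⟨hD.const c, ?_⟩, (Hinf_const c).ha⟩
  exact hD.const _

theorem td_QDA_pow (hD : Doug D) {f : ℝ → ℂ} (hf : QDA D f) (n : ℕ) :
    QDA D (fun x => f x ^ n) := by
  induction n with
  | zero => simpa using td_QDA_const hD 1
  | succ n ih =>
    simp_rw [pow_succ]
    exact ih.mul hD hf

/-- tail bound for the exponential series, uniform on `[0,t]`. -/
theorem td_tail (t η : ℝ) (hη : 0 < η) :
    ∃ n : ℕ, ∀ s : ℝ, 0 ≤ s → s ≤ t →
      1 - η ≤ Real.exp (-s) * ∑ i ∈ Finset.range n, s ^ i / (i.factorial : ℝ) := by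
  have h0 : Tendsto (fun n : ℕ => t ^ n / (n.factorial : ℝ) * 2) atTop (𝓝 (0 * 2)) :=
    (FloorSemiring.tendsto_pow_div_factorial_atTop t).mul_const 2
  rw [zero_mul] at h0
  have h1 : ∀ᶠ n : ℕ in atTop, t ^ n / (n.factorial : ℝ) * 2 < η :=
    h0.eventually (gt_mem_nhds hη)
  have h2 : ∀ᶠ n : ℕ in atTop, 2 * t ≤ n := by
    obtain ⟨N, hN⟩ := exists_nat_ge (2 * t)
    filter_upwards [eventually_ge_atTop N] with n hn
    exact hN.trans (by exact_mod_cast hn)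
  obtain ⟨n, hn1, hn2⟩ := (h1.and h2).exists
  refine ⟨n, fun s hs hst => ?_⟩
  have hb := Complex.exp_bound' (x := (s : ℂ)) (n := n) (by
    rw [Complex.norm_real, Real.norm_eq_abs, abs_of_nonneg hs]
    rw [div_le_iff₀ (by positivity)]
    push_cast
    linarith)
  have hb2 : ‖Complex.exp (s : ℂ) - ∑ m ∈ Finset.range n, (s : ℂ) ^ m / (m.factorial : ℂ)‖
      = |Real.exp s - ∑ m ∈ Finset.range n, s ^ m / (m.factorial : ℝ)| := by
    rw [← Real.norm_eq_abs, ← Complex.norm_real]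
    push_cast
    rfl
  rw [hb2, Complex.norm_real, Real.norm_eq_abs, abs_of_nonneg hs] at hb
  have hb3 : s ^ n / (n.factorial : ℝ) * 2 ≤ t ^ n / (n.factorial : ℝ) * 2 := by
    gcongr
  have hb4 := (abs_le.1 (hb.trans hb3)).2
  have hE : Real.exp (-s) * Real.exp s = 1 := by rw [← Real.exp_add]; simp
  have hE1 : Real.exp (-s) ≤ 1 := Real.exp_le_one_iff.2 (by linarith)
  have hE0 : 0 < Real.exp (-s) := Real.exp_pos _
  have : Real.exp (-s) * (Real.exp s - η) ≤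
      Real.exp (-s) * ∑ i ∈ Finset.range n, s ^ i / (i.factorial : ℝ) :=
    mul_le_mul_of_nonneg_left (by linarith) hE0.le
  nlinarith

theorem td_head (n : ℕ) (s : ℝ) (hs : 0 ≤ s) :
    Real.exp (-s) * ∑ i ∈ Finset.range n, s ^ i / (i.factorial : ℝ) ≤ 1 := by
  have h := Real.sum_le_exp_of_nonneg hs n
  have hE : Real.exp (-s) * Real.exp s = 1 := by rw [← Real.exp_add]; simp
  have := mul_le_mul_of_nonneg_left h (Real.exp_pos (-s)).le
  linarith

/-- the weights -/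
def tdc (t : ℝ) (i j : ℕ) : ℂ :=
  ((Real.sqrt t ^ (i + j) / Real.sqrt ((i.factorial : ℝ) * (j.factorial : ℝ)) : ℝ) : ℂ)

theorem tdc_norm_sq (t : ℝ) (ht : 0 ≤ t) (i j : ℕ) (u v : ℂ) :
    ‖tdc t i j * (u ^ i * v ^ j)‖ ^ 2
      = ((t * ‖u‖ ^ 2) ^ i / (i.factorial : ℝ)) * ((t * ‖v‖ ^ 2) ^ j / (j.factorial : ℝ)) := by
  unfold tdc
  rw [norm_mul, norm_mul, norm_pow, norm_pow, Complex.norm_real, Real.norm_eq_abs, mul_pow,
    sq_abs, div_pow, Real.sq_sqrt (by positivity), ← pow_mul, mul_comm (i + j) 2, pow_mul,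
    Real.sq_sqrt ht]
  rw [mul_pow, mul_pow, mul_pow, pow_add, ← pow_mul, ← pow_mul, ← pow_mul, ← pow_mul,
    mul_comm i 2, mul_comm j 2]
  field_simp

/-- The sum over the product index set. -/
theorem td_sum (t : ℝ) (ht : 0 ≤ t) (n : ℕ) (u v κ : ℂ) :
    ∑ l : Fin (n * n), ‖κ * (tdc t (finProdFinEquiv.symm l).1 (finProdFinEquiv.symm l).2 *
        (u ^ ((finProdFinEquiv.symm l).1 : ℕ) * v ^ ((finProdFinEquiv.symm l).2 : ℕ)))‖ ^ 2
      = ‖κ‖ ^ 2 * ((∑ i ∈ Finset.range n, (t * ‖u‖ ^ 2) ^ i / (i.factorial : ℝ)) *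
          ∑ j ∈ Finset.range n, (t * ‖v‖ ^ 2) ^ j / (j.factorial : ℝ)) := by
  have h1 : ∀ l : Fin (n * n), ‖κ * (tdc t (finProdFinEquiv.symm l).1 (finProdFinEquiv.symm l).2 *
        (u ^ ((finProdFinEquiv.symm l).1 : ℕ) * v ^ ((finProdFinEquiv.symm l).2 : ℕ)))‖ ^ 2
      = ‖κ‖ ^ 2 * (((t * ‖u‖ ^ 2) ^ ((finProdFinEquiv.symm l).1 : ℕ) /
          (((finProdFinEquiv.symm l).1 : ℕ).factorial : ℝ)) *
          ((t * ‖v‖ ^ 2) ^ ((finProdFinEquiv.symm l).2 : ℕ) /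
          (((finProdFinEquiv.symm l).2 : ℕ).factorial : ℝ))) := by
    intro l
    rw [norm_mul, mul_pow, tdc_norm_sq t ht]
  simp_rw [h1]
  rw [← Finset.mul_sum]
  congr 1
  rw [← Fin.sum_univ_eq_sum_range (fun i => (t * ‖u‖ ^ 2) ^ i / (i.factorial : ℝ)) n,
    ← Fin.sum_univ_eq_sum_range (fun i => (t * ‖v‖ ^ 2) ^ i / (i.factorial : ℝ)) n]
  rw [Finset.sum_mul_sum, ← Finset.sum_product']
  rw [Equiv.sum_comp (finProdFinEquiv (m := n) (n := n)).symm (fun q : Fin n × Fin n =>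
    ((t * ‖u‖ ^ 2) ^ (q.1 : ℕ) / ((q.1 : ℕ).factorial : ℝ)) *
      ((t * ‖v‖ ^ 2) ^ (q.2 : ℕ) / ((q.2 : ℕ).factorial : ℝ)))]
  rfl

theorem td_QD_finsum (hD : Doug D) {N : ℕ} (f : Fin N → ℝ → ℂ) (hf : ∀ i, f i ∈ D)
    (s : Finset (Fin N)) : (fun x => ∑ i ∈ s, f i x) ∈ D := by
  classical
  induction s using Finset.induction_on with
  | empty => simpa using hD.const 0
  | insert i s hi ih =>
    have := hD.add _ (hf i) _ ih
    convert this using 1
    funext x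
    rw [Finset.sum_insert hi]
    rfl

/-- Cauchy-Schwarz for `∑ conj(K) y`. -/
theorem td_cs {N : ℕ} (K y : Fin N → ℂ) (C : ℝ) (hC : 0 ≤ C) (hK : ∑ i, ‖K i‖ ^ 2 ≤ 1)
    (hy : ∑ i, ‖y i‖ ^ 2 ≤ C ^ 2) : ‖∑ i, starRingEnd ℂ (K i) * y i‖ ≤ C := by
  have h1 : ‖∑ i, starRingEnd ℂ (K i) * y i‖ ≤ ∑ i, ‖K i‖ * ‖y i‖ := by
    refine (norm_sum_le _ _).trans (Finset.sum_le_sum fun i _ => ?_)
    rw [norm_mul, RCLike.norm_conj]
  have h2 : (∑ i, ‖K i‖ * ‖y i‖) ^ 2 ≤ (∑ i, ‖K i‖ ^ 2) * ∑ i, ‖y i‖ ^ 2 :=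
    Finset.sum_mul_sq_le_sq_mul_sq _ _ _
  have h3 : 0 ≤ ∑ i, ‖K i‖ * ‖y i‖ := Finset.sum_nonneg fun i _ => by positivity
  have h4 : (∑ i, ‖K i‖ ^ 2) * ∑ i, ‖y i‖ ^ 2 ≤ 1 * C ^ 2 := by
    apply mul_le_mul hK hy (Finset.sum_nonneg fun i _ => by positivity) zero_le_one
  have h5 : ∑ i, ‖K i‖ * ‖y i‖ ≤ C := by
    apply le_of_sq_le_sq _ hC
    linarith
  exact h1.trans h5

/-- The kernel family `K`. -/
def tdK (t : ℝ) (n : ℕ) (a b F : ℝ → ℂ) (l : Fin (n * n)) (x : ℝ) : ℂ :=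
  Complex.exp (-((t : ℂ) / 2) * F x) *
    (tdc t (finProdFinEquiv.symm l).1 (finProdFinEquiv.symm l).2 *
      (a x ^ ((finProdFinEquiv.symm l).1 : ℕ) * b x ^ ((finProdFinEquiv.symm l).2 : ℕ)))

theorem td_k_QDA (hD : Doug D) (a b F : ℝ → ℂ) (ha : QDA D a) (hb : QDA D b)
    (ha1 : BD a 1) (hb1 : BD b 1) (hF : Htwo F)
    (hFre : ∀ᵐ x ∂mu, (F x).re = ‖a x‖ ^ 2 + ‖b x‖ ^ 2) (t : ℝ) (ht : 0 ≤ t) :
    QDA D (fun x => Complex.exp (-((t : ℂ) / 2) * F x)) ∧
      ∀ z ∈ Metric.ball (0 : ℂ) 1, ext (fun x => Complex.exp (-((t : ℂ) / 2) * F x)) z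
        = Complex.exp (-((t : ℂ) / 2) * ext F z) := by
  have hre : ∀ᵐ x ∂mu, 0 ≤ (F x).re ∧ (F x).re ≤ 2 := by
    unfold BD at ha1 hb1
    filter_upwards [hFre, ha1, hb1] with x h1 h2 h3
    rw [h1]
    have h4 : ‖a x‖ ^ 2 ≤ 1 := by nlinarith [norm_nonneg (a x)]
    have h5 : ‖b x‖ ^ 2 ≤ 1 := by nlinarith [norm_nonneg (b x)]
    constructor
    · positivity
    · linarith
  have hre1 : ∀ x, (-((t : ℂ) / 2) * F x).re = -(t / 2) * (F x).re := by
    intro x
    have : -((t : ℂ) / 2) = ((-(t / 2) : ℝ) : ℂ) := by push_cast; ring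
    rw [this, Complex.re_ofReal_mul]
  have hre2 : ∀ x, (((t : ℂ) / 2) * F x).re = (t / 2) * (F x).re := by
    intro x
    have : ((t : ℂ) / 2) = ((t / 2 : ℝ) : ℂ) := by push_cast; ring
    rw [this, Complex.re_ofReal_mul]
  have hV := hF.smul (-((t : ℂ) / 2))
  have hV' := hF.smul ((t : ℂ) / 2)
  obtain ⟨hk, hke⟩ := ext_exp _ hV (-t) 0 (by
    filter_upwards [hre] with x hx
    rw [hre1]
    constructor <;> nlinarith)
  obtain ⟨hk', -⟩ := ext_exp _ hV' 0 t (by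
    filter_upwards [hre] with x hx
    rw [hre2]
    constructor <;> nlinarith)
  refine ⟨?_, ?_⟩
  · refine (A2 hD _ _ hk hk' ?_ ?_).1
    · filter_upwards with x
      rw [← Complex.exp_add]
      have : -((t : ℂ) / 2) * F x + ((t : ℂ) / 2) * F x = 0 := by ring
      rw [this, Complex.exp_zero]
    · have h1 := hD.fc_norm a ha.1 (fun s => Real.exp (-(t / 2) * s ^ 2)) (by fun_prop)
      have h2 := hD.fc_norm b hb.1 (fun s => Real.exp (-(t / 2) * s ^ 2)) (by fun_prop)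
      refine hD.ae _ (hD.mul _ h1 _ h2) _ ?_
      filter_upwards [hFre] with x hx
      rw [Pi.mul_apply, Complex.norm_exp, hre1, hx, ← Complex.ofReal_mul, ← Real.exp_add]
      congr 2
      ring
  · intro z hz
    rw [hke z hz, td_ext_smul]

theorem tdK_QDA (hD : Doug D) (a b F : ℝ → ℂ) (ha : QDA D a) (hb : QDA D b)
    (ha1 : BD a 1) (hb1 : BD b 1) (hF : Htwo F)
    (hFre : ∀ᵐ x ∂mu, (F x).re = ‖a x‖ ^ 2 + ‖b x‖ ^ 2) (t : ℝ) (ht : 0 ≤ t) (n : ℕ)
    (l : Fin (n * n)) : QDA D (tdK t n a b F l) := by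
  have h := (td_k_QDA hD a b F ha hb ha1 hb1 hF hFre t ht).1
  exact h.mul hD ((td_QDA_const hD _).mul hD ((td_QDA_pow hD ha _).mul hD (td_QDA_pow hD hb _)))

theorem tdK_ext (hD : Doug D) (a b F : ℝ → ℂ) (ha : QDA D a) (hb : QDA D b)
    (ha1 : BD a 1) (hb1 : BD b 1) (hF : Htwo F)
    (hFre : ∀ᵐ x ∂mu, (F x).re = ‖a x‖ ^ 2 + ‖b x‖ ^ 2) (t : ℝ) (ht : 0 ≤ t) (n : ℕ)
    (l : Fin (n * n)) (z : ℂ) (hz : z ∈ Metric.ball (0 : ℂ) 1) :
    ext (tdK t n a b F l) z = Complex.exp (-((t : ℂ) / 2) * ext F z) *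
      (tdc t (finProdFinEquiv.symm l).1 (finProdFinEquiv.symm l).2 *
        (ext a z ^ ((finProdFinEquiv.symm l).1 : ℕ) *
          ext b z ^ ((finProdFinEquiv.symm l).2 : ℕ))) := by
  obtain ⟨h, he⟩ := td_k_QDA hD a b F ha hb ha1 hb1 hF hFre t ht
  have ha' := QDA.hinf hD ha
  have hb' := QDA.hinf hD hb
  have hab := (td_Hinf_pow ha' ((finProdFinEquiv.symm l).1 : ℕ)).mul
    (td_Hinf_pow hb' ((finProdFinEquiv.symm l).2 : ℕ))
  unfold tdK
  rw [ext_mul _ _ (QDA.hinf hD h) (hab.smul _) z hz, he z hz, td_ext_smul,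
    ext_mul _ _ (td_Hinf_pow ha' _) (td_Hinf_pow hb' _) z hz, td_ext_pow a ha' _ z hz,
    td_ext_pow b hb' _ z hz]

theorem tdK_ball (hD : Doug D) (a b F : ℝ → ℂ) (ha : QDA D a) (hb : QDA D b)
    (ha1 : BD a 1) (hb1 : BD b 1) (hF : Htwo F)
    (hFre : ∀ᵐ x ∂mu, (F x).re = ‖a x‖ ^ 2 + ‖b x‖ ^ 2) (t : ℝ) (ht : 0 ≤ t) (n : ℕ)
    (z : ℂ) (hz : z ∈ Metric.ball (0 : ℂ) 1) :
    ∑ l, ‖ext (tdK t n a b F l) z‖ ^ 2
      ≤ Real.exp (-(t * OscD (ext a) (ext b) (ext F) z)) := by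
  simp_rw [tdK_ext hD a b F ha hb ha1 hb1 hF hFre t ht n _ z hz]
  rw [td_sum t ht]
  have hA := td_head n (t * ‖ext a z‖ ^ 2) (by positivity)
  have hB := td_head n (t * ‖ext b z‖ ^ 2) (by positivity)
  set SA := ∑ i ∈ Finset.range n, (t * ‖ext a z‖ ^ 2) ^ i / (i.factorial : ℝ) with hSA
  set SB := ∑ i ∈ Finset.range n, (t * ‖ext b z‖ ^ 2) ^ i / (i.factorial : ℝ) with hSB
  have hSA0 : 0 ≤ SA := Finset.sum_nonneg fun i _ => by positivity
  have hSB0 : 0 ≤ SB := Finset.sum_nonneg fun i _ => by positivity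
  have hk : ‖Complex.exp (-((t : ℂ) / 2) * ext F z)‖ ^ 2
      = Real.exp (-(t * OscD (ext a) (ext b) (ext F) z)) *
        (Real.exp (-(t * ‖ext a z‖ ^ 2)) * Real.exp (-(t * ‖ext b z‖ ^ 2))) := by
    have : -((t : ℂ) / 2) = ((-(t / 2) : ℝ) : ℂ) := by push_cast; ring
    rw [Complex.norm_exp, this, Complex.re_ofReal_mul, ← Real.exp_nat_mul, ← Real.exp_add,
      ← Real.exp_add]
    congr 1
    unfold OscD
    push_cast
    ring
  rw [hk]
  have hprod : (Real.exp (-(t * ‖ext a z‖ ^ 2)) * SA) * (Real.exp (-(t * ‖ext b z‖ ^ 2)) * SB)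
      ≤ 1 * 1 := mul_le_mul hA hB (by positivity) zero_le_one
  have hO := Real.exp_pos (-(t * OscD (ext a) (ext b) (ext F) z))
  calc Real.exp (-(t * OscD (ext a) (ext b) (ext F) z)) *
        (Real.exp (-(t * ‖ext a z‖ ^ 2)) * Real.exp (-(t * ‖ext b z‖ ^ 2))) * (SA * SB)
      = Real.exp (-(t * OscD (ext a) (ext b) (ext F) z)) *
        ((Real.exp (-(t * ‖ext a z‖ ^ 2)) * SA) * (Real.exp (-(t * ‖ext b z‖ ^ 2)) * SB)) := by
        ring
    _ ≤ Real.exp (-(t * OscD (ext a) (ext b) (ext F) z)) * (1 * 1) :=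
        mul_le_mul_of_nonneg_left hprod hO.le
    _ = _ := by ring

theorem tdK_circle (a b F : ℝ → ℂ) (ha1 : BD a 1) (hb1 : BD b 1)
    (hFre : ∀ᵐ x ∂mu, (F x).re = ‖a x‖ ^ 2 + ‖b x‖ ^ 2) (t : ℝ) (ht : 0 ≤ t) (n : ℕ) (η : ℝ)
    (hη0 : 0 ≤ η) (hη1 : η ≤ 1)
    (hn : ∀ s : ℝ, 0 ≤ s → s ≤ t →
      1 - η ≤ Real.exp (-s) * ∑ i ∈ Finset.range n, s ^ i / (i.factorial : ℝ)) :
    ∀ᵐ x ∂mu, 1 - 2 * η ≤ ∑ l, ‖tdK t n a b F l x‖ ^ 2 ∧ ∑ l, ‖tdK t n a b F l x‖ ^ 2 ≤ 1 := by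
  unfold BD at ha1 hb1
  filter_upwards [hFre, ha1, hb1] with x h1 h2 h3
  unfold tdK
  rw [td_sum t ht]
  have hA := td_head n (t * ‖a x‖ ^ 2) (by positivity)
  have hB := td_head n (t * ‖b x‖ ^ 2) (by positivity)
  have h4 : ‖a x‖ ^ 2 ≤ 1 := by nlinarith [norm_nonneg (a x)]
  have h5 : ‖b x‖ ^ 2 ≤ 1 := by nlinarith [norm_nonneg (b x)]
  have hA' := hn (t * ‖a x‖ ^ 2) (by positivity) (by nlinarith)
  have hB' := hn (t * ‖b x‖ ^ 2) (by positivity) (by nlinarith)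
  set SA := ∑ i ∈ Finset.range n, (t * ‖a x‖ ^ 2) ^ i / (i.factorial : ℝ) with hSA
  set SB := ∑ i ∈ Finset.range n, (t * ‖b x‖ ^ 2) ^ i / (i.factorial : ℝ) with hSB
  have hSA0 : 0 ≤ SA := Finset.sum_nonneg fun i _ => by positivity
  have hSB0 : 0 ≤ SB := Finset.sum_nonneg fun i _ => by positivity
  have hk : ‖Complex.exp (-((t : ℂ) / 2) * F x)‖ ^ 2
      = Real.exp (-(t * ‖a x‖ ^ 2)) * Real.exp (-(t * ‖b x‖ ^ 2)) := by
    have : -((t : ℂ) / 2) = ((-(t / 2) : ℝ) : ℂ) := by push_cast; ring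
    rw [Complex.norm_exp, this, Complex.re_ofReal_mul, ← Real.exp_nat_mul, ← Real.exp_add, h1]
    congr 1
    push_cast
    ring
  rw [hk]
  have he : Real.exp (-(t * ‖a x‖ ^ 2)) * Real.exp (-(t * ‖b x‖ ^ 2)) * (SA * SB)
      = (Real.exp (-(t * ‖a x‖ ^ 2)) * SA) * (Real.exp (-(t * ‖b x‖ ^ 2)) * SB) := by ring
  rw [he]
  set PA := Real.exp (-(t * ‖a x‖ ^ 2)) * SA
  set PB := Real.exp (-(t * ‖b x‖ ^ 2)) * SB
  have hPA : 0 ≤ PA := by positivity
  have hPB : 0 ≤ PB := by positivity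
  constructor
  · have : (1 - η) * (1 - η) ≤ PA * PB := mul_le_mul hA' hB' (by linarith) hPA
    nlinarith
  · nlinarith

/-- **(TD)** `w ∈ D`.  `D` a Douglas algebra, `a, b ∈ QDA`, `|a|,|b| ≤ 1`, `F ∈ H²`, `Re F = |a|²+|b|²`, `w ∈ L^∞` with the estimates of `TI`.

Proof: fix `t ≥ 1` and `n`; `k = e^{-tF/2}`, `K_{ij} = k (√t)^{i+j} a^i b^j/√(i! j!)`, `i, j < n`.  `k, 1/k ∈ H^∞` (`ext_exp`),
`|k| = exp(-t(|a|²+|b|²)/2) ∈ D` (`Doug.fc_norm`, products), so `k ∈ QDA` (`A2`), `K_{ij} ∈ QDA`.  In the disc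
(`ext_mul`, `ext_exp`) `Σ|ext K_ij|² ≤ e^{-t Re F}e^{t|a|²}e^{t|b|²} = e^{-tO}`.  `DU` with `v = wK`, `C = ε(t)` (use `max (ε t) 0`):
`G_ij ∈ H²` with `Σ|wK_ij - G_ij|² ≤ ε(t)²`, so `G_ij` is bounded, in `H^∞ ⊂ D`, and
`g := Σ conj(K_ij) G_ij ∈ D`, `|wΣ|K_ij|² - g| ≤ (Σ|K_ij|²)^{1/2} ε(t) ≤ ε(t)`.  On the circle
`1 ≥ Σ|K_ij|² = e^{-t(|a|²+|b|²)} (Σ_{i<n} (t|a|²)^i/i!)(Σ_{j<n}(t|b|²)^j/j!) ≥ 1 - η_n`, `η_n → 0` for fixed `t`
(`|a|,|b| ≤ 1`).  So `|w - g| ≤ ε(t) + Cη_n`; `Doug.approx`. -/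
theorem TD (D : Set (ℝ → ℂ)) (hD : Doug D) (a b F w : ℝ → ℂ) (ha : QDA D a) (hb : QDA D b)
    (ha1 : BD a 1) (hb1 : BD b 1) (hF : Htwo F)
    (hFre : ∀ᵐ x ∂mu, (F x).re = ‖a x‖ ^ 2 + ‖b x‖ ^ 2) (hw : MemLp w ⊤ mu)
    (ε : ℝ → ℝ) (hε : Tendsto ε atTop (𝓝 0))
    (hest : ∀ t : ℝ, 1 ≤ t → ∀ (N : ℕ) (K : Fin N → ℝ → ℂ), (∀ i, Hinf (K i)) →
          (∀ z ∈ Metric.ball (0 : ℂ) 1, ∑ i, ‖ext (K i) z‖ ^ 2
            ≤ Real.exp (-(t * OscD (ext a) (ext b) (ext F) z))) →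
          ∀ p : Fin N → Polynomial ℂ,
          ‖∫ x in Set.Ioc 0 (2 * Real.pi),
              ∑ i, w x * K i x * (E (x, 0) * (p i).eval (E (x, 0)))‖
            ≤ ε t * ∫ x in Set.Ioc 0 (2 * Real.pi),
                Real.sqrt (∑ i, ‖E (x, 0) * (p i).eval (E (x, 0))‖ ^ 2)) :
    w ∈ D := by
  obtain ⟨hwm, M, hM, hwM⟩ := memLp_top_iff.1 hw
  refine hD.approx w hwm ?_
  intro e he
  obtain ⟨t, ht1, hte⟩ : ∃ t : ℝ, 1 ≤ t ∧ ε t < e / 2 :=
    ((eventually_ge_atTop 1).and (hε.eventually (gt_mem_nhds (by positivity)))).exists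
  have ht0 : 0 ≤ t := by linarith
  set η : ℝ := min 1 (e / (4 * (M + 1))) with hηdef
  have hη0 : 0 < η := lt_min one_pos (by positivity)
  have hη1 : η ≤ 1 := min_le_left _ _
  have hηM : 2 * η * M ≤ e / 2 := by
    have h1 : η ≤ e / (4 * (M + 1)) := min_le_right _ _
    have h2 : η * (4 * (M + 1)) ≤ e := by
      rw [le_div_iff₀ (by positivity)] at h1
      exact h1
    nlinarith
  obtain ⟨n, hn⟩ := td_tail t η hη0
  set K := tdK t n a b F with hK
  have hKQ : ∀ l, QDA D (K l) := tdK_QDA hD a b F ha hb ha1 hb1 hF hFre t ht0 n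
  have hKH : ∀ l, Hinf (K l) := fun l => QDA.hinf hD (hKQ l)
  have hKball := tdK_ball hD a b F ha hb ha1 hb1 hF hFre t ht0 n
  have hKc := tdK_circle a b F ha1 hb1 hFre t ht0 n η hη0.le hη1 hn
  have hest' := hest t ht1 (n * n) K hKH hKball
  set C : ℝ := max (ε t) 0 with hC
  have hC0 : 0 ≤ C := le_max_right _ _
  have hCe : C ≤ e / 2 := max_le hte.le (by positivity)
  have hv : ∀ l, MemLp (fun x => w x * K l x) ⊤ mu := by
    intro l
    obtain ⟨hm, B, hB, hKB⟩ := memLp_top_iff.1 (hKH l).mem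
    refine memLp_top_iff.2 ⟨hwm.mul hm, M * B, by positivity, ?_⟩
    unfold BD at *
    filter_upwards [hwM, hKB] with x h1 h2
    rw [norm_mul]
    exact mul_le_mul h1 h2 (norm_nonneg _) hM
  obtain ⟨g, hg, hgC⟩ := DU (n * n) (fun x l => w x * K l x)
    (fun l => (hv l).mono_exponent le_top) C hC0 (by
      intro p
      refine (hest' p).trans ?_
      exact mul_le_mul_of_nonneg_right (le_max_left _ _)
        (integral_nonneg fun x => Real.sqrt_nonneg _))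
  have hgH : ∀ l, Hinf (fun x => g x l) := by
    intro l
    obtain ⟨hm, B, hB, hvB⟩ := memLp_top_iff.1 (hv l)
    refine ⟨memLp_top_iff.2 ⟨(hg l).mem.1, B + C, by positivity, ?_⟩, (hg l).ha⟩
    unfold BD at *
    filter_upwards [hvB, hgC] with x h1 h2
    have h3 : ‖w x * K l x - g x l‖ ^ 2 ≤ C ^ 2 :=
      (Finset.single_le_sum (f := fun i => ‖w x * K i x - g x i‖ ^ 2)
        (fun i _ => by positivity) (Finset.mem_univ l)).trans h2
    have h4 : ‖w x * K l x - g x l‖ ≤ C := le_of_sq_le_sq h3 hC0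
    calc ‖g x l‖ = ‖w x * K l x - (w x * K l x - g x l)‖ := by congr 1; ring
      _ ≤ ‖w x * K l x‖ + ‖w x * K l x - g x l‖ := norm_sub_le _ _
      _ ≤ B + C := add_le_add h1 h4
  refine ⟨fun x => ∑ l, (fun l x => starRingEnd ℂ (K l x) * g x l) l x, ?_, ?_⟩
  · apply td_QD_finsum hD (fun l x => starRingEnd ℂ (K l x) * g x l)
    intro l
    exact hD.mul _ (hKQ l).1.2 _ (hD.hinf _ (hgH l))
  · unfold BD at *
    filter_upwards [hwM, hgC, hKc] with x h1 h2 h3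
    have h4 := td_cs (fun l => K l x) (fun l => w x * K l x - g x l) C hC0 h3.2 h2
    have h5 : ∑ l, starRingEnd ℂ (K l x) * (w x * K l x - g x l)
        = w x * ((∑ l, ‖K l x‖ ^ 2 : ℝ) : ℂ) - ∑ l, starRingEnd ℂ (K l x) * g x l := by
      push_cast
      rw [Finset.mul_sum, ← Finset.sum_sub_distrib]
      refine Finset.sum_congr rfl fun l _ => ?_
      have : ((‖K l x‖ : ℂ)) ^ 2 = starRingEnd ℂ (K l x) * K l x := by
        rw [mul_comm, Complex.mul_conj, Complex.normSq_eq_norm_sq]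
        push_cast; rfl
      rw [this]
      ring
    rw [h5] at h4
    have h6 : ‖w x * (1 - ((∑ l, ‖K l x‖ ^ 2 : ℝ) : ℂ))‖ ≤ M * (2 * η) := by
      rw [norm_mul]
      have h7 : ‖1 - ((∑ l, ‖K l x‖ ^ 2 : ℝ) : ℂ)‖ = |1 - ∑ l, ‖K l x‖ ^ 2| := by
        rw [← Real.norm_eq_abs, ← Complex.norm_real]
        push_cast
        rfl
      rw [h7]
      refine mul_le_mul h1 ?_ (abs_nonneg _) hM
      rw [abs_le]
      constructor <;> linarith [h3.1, h3.2]
    calc ‖(∑ l, starRingEnd ℂ (K l x) * g x l) - w x‖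
        = ‖-(w x * ((∑ l, ‖K l x‖ ^ 2 : ℝ) : ℂ) - ∑ l, starRingEnd ℂ (K l x) * g x l)
            - w x * (1 - ((∑ l, ‖K l x‖ ^ 2 : ℝ) : ℂ))‖ := by congr 1; ring
      _ ≤ ‖-(w x * ((∑ l, ‖K l x‖ ^ 2 : ℝ) : ℂ) - ∑ l, starRingEnd ℂ (K l x) * g x l)‖
            + ‖w x * (1 - ((∑ l, ‖K l x‖ ^ 2 : ℝ) : ℂ))‖ := norm_sub_le _ _
      _ ≤ C + M * (2 * η) := by rw [norm_neg]; exact add_le_add h4 h6
      _ ≤ e := by nlinarith

end Pool.H14.SR

end S_TD

noncomputable section S_A5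

open MeasureTheory Set Filter Topology
namespace Pool.H14.SR


variable {D : Set (ℝ → ℂ)}

theorem a5_smul (hD : Doug D) {f : ℝ → ℂ} (hf : QD D f) (c : ℂ) : QD D (fun x => c * f x) := by
  refine ⟨hD.smul c _ hf.1, ?_⟩
  have := hD.smul (starRingEnd ℂ c) _ hf.2
  convert this using 1
  funext x
  simp

/-- (A5a) Every `w ∈ D` is `lam • U - s` with `lam ≥ 0` real, `U ∈ QD`, `s ∈ H^∞`.
(`lam = 8 ‖w‖_∞ + 1`, `Mprime` for `w/lam`: `U = w/lam + h`, `|U| = 1`, `U - h = w/lam`, `A3`; `s = lam h`.) -/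
theorem A5a (hD : Doug D) (w : ℝ → ℂ) (hw : w ∈ D) :
    ∃ (lam : ℝ) (U s : ℝ → ℂ), 0 < lam ∧ QD D U ∧ Hinf s ∧ ∀ᵐ x ∂mu, w x = lam * U x - s x := by
  obtain ⟨hm, C, hC, hB⟩ := memLp_top_iff.1 (hD.mem _ hw)
  unfold BD at hB
  set lam : ℝ := 8 * C + 1 with hlam
  have hl0 : 0 < lam := by positivity
  have hlc : (lam : ℂ) ≠ 0 := by exact_mod_cast hl0.ne'
  have hwl : (fun x => (lam : ℂ)⁻¹ * w x) ∈ D := hD.smul _ _ hw
  have hwm : AEStronglyMeasurable (fun x => (lam : ℂ)⁻¹ * w x) mu := (hD.mem _ hwl).1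
  have hw8 : BD (fun x => (lam : ℂ)⁻¹ * w x) (1 / 8) := by
    unfold BD
    filter_upwards [hB] with x hx
    rw [norm_mul, norm_inv, Complex.norm_real, Real.norm_eq_abs, abs_of_pos hl0,
      inv_mul_le_iff₀ hl0]
    linarith
  obtain ⟨h, g, hh, hg, hhg, h1⟩ := Mprime _ hwm hw8
  refine ⟨lam, fun x => (lam : ℂ)⁻¹ * w x + h x, fun x => (lam : ℂ) * h x, hl0, ?_, hh.smul _,
    Filter.Eventually.of_forall fun x => ?_⟩
  · refine A3 hD _ h g (hD.add _ hwl _ (hD.hinf _ hh)) h1 hh hg hhg ?_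
    unfold BD at hw8 ⊢
    simpa using hw8
  · show w x = (lam : ℂ) * ((lam : ℂ)⁻¹ * w x + h x) - (lam : ℂ) * h x
    field_simp
    ring

/-- (A5b) `ψ ∈ QD`, `s₀ ∈ H^∞`, `|ψ - s₀| ≤ η`: there is `s ∈ QDA` with `|ψ - s| ≤ 8η`.
(`Mprime` for `(ψ - s₀)/(8η)`: `U = (ψ-s₀)/(8η) + h`, `U ∈ QD` by `A3`, `s = ψ - 8ηU = s₀ - 8ηh`.) -/
theorem A5b (hD : Doug D) (ψ s0 : ℝ → ℂ) (η : ℝ) (hη : 0 < η) (hψ : QD D ψ) (hs0 : Hinf s0)
    (h : BD (fun x => ψ x - s0 x) η) : ∃ s : ℝ → ℂ, QDA D s ∧ BD (fun x => ψ x - s x) (8 * η) := by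
  unfold BD at h
  have he0 : (0 : ℝ) < 8 * η := by positivity
  have hec : ((8 * η : ℝ) : ℂ) ≠ 0 := by exact_mod_cast he0.ne'
  have hwD : (fun x => ((8 * η : ℝ) : ℂ)⁻¹ * (ψ x - s0 x)) ∈ D := by
    have := hD.smul ((8 * η : ℝ) : ℂ)⁻¹ _
      (hD.add _ hψ.1 _ (hD.smul (-1) _ (hD.hinf _ hs0)))
    convert this using 1
    funext x
    simp [sub_eq_add_neg]
  have hwm := (hD.mem _ hwD).1
  have hw8 : BD (fun x => ((8 * η : ℝ) : ℂ)⁻¹ * (ψ x - s0 x)) (1 / 8) := by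
    unfold BD
    filter_upwards [h] with x hx
    rw [norm_mul, norm_inv, Complex.norm_real, Real.norm_eq_abs, abs_of_pos he0,
      inv_mul_le_iff₀ he0]
    linarith
  obtain ⟨k, g, hk, hg, hkg, h1⟩ := Mprime _ hwm hw8
  have hU : QD D (fun x => ((8 * η : ℝ) : ℂ)⁻¹ * (ψ x - s0 x) + k x) := by
    refine A3 hD _ k g (hD.add _ hwD _ (hD.hinf _ hk)) h1 hk hg hkg ?_
    unfold BD at hw8 ⊢
    simpa using hw8
  set s : ℝ → ℂ := fun x => ψ x + (-((8 * η : ℝ) : ℂ)) *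
    (((8 * η : ℝ) : ℂ)⁻¹ * (ψ x - s0 x) + k x) with hs
  have hs' : s = fun x => s0 x + (-((8 * η : ℝ) : ℂ)) * k x := by
    funext x
    simp only [hs]
    rw [mul_add, ← mul_assoc, neg_mul, mul_inv_cancel₀ hec]
    ring
  refine ⟨s, ⟨QD.add hD hψ (a5_smul hD hU _), ?_⟩, ?_⟩
  · rw [hs']
    exact (hs0.add (hk.smul _)).ha
  · unfold BD
    filter_upwards [h1] with x hx
    have e1 : ψ x - s x = ((8 * η : ℝ) : ℂ) * (((8 * η : ℝ) : ℂ)⁻¹ * (ψ x - s0 x) + k x) := by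
      simp only [hs]; ring
    rw [e1, norm_mul, hx, Complex.norm_real, Real.norm_eq_abs, abs_of_pos he0, mul_one]

end Pool.H14.SR

end S_A5

noncomputable section S_A6

open MeasureTheory Set Filter Topology
namespace Pool.H14.SR


variable {D : Set (ℝ → ℂ)}

/-- (A6) **Lemma L**: `b ∈ QDA`, `t₀ ∈ H^∞`, `b t₀ ∈ QDA`, `η > 0`: there is `t ∈ QDA` with `|b(t - t₀)| ≤ η`.

Proof: `τ > 0` with `9 τ ‖t₀‖_∞ ≤ η`; `p` outer with `|p| = max(|b|, τ)` (`outer` with
`q = log max(|b|,τ)`), `|p| ∈ D` by `Doug.fc_norm`, so `p, 1/p ∈ QDA` (`A2`); `β = b/p ∈ QDA`, `|β| ≤ 1` and `|β| = 1`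
where `|b| ≥ τ`; `s₀ = p t₀`, `ψ = conj β · b t₀ ∈ QD`; `ψ - s₀ = (|β|² - 1) s₀`, which is `0` where `|b| ≥ τ` and
bounded by `|s₀| = τ|t₀|` elsewhere; `A5b` gives `s ∈ QDA`, `|ψ - s| ≤ 8τ‖t₀‖`; `t = s/p`,
`b(t - t₀) = β(s - s₀)`. -/
theorem A6 (hD : Doug D) (b t0 : ℝ → ℂ) (hb : QDA D b) (ht0 : Hinf t0)
    (hbt : QDA D (fun x => b x * t0 x)) (η : ℝ) (hη : 0 < η) :
    ∃ t : ℝ → ℂ, QDA D t ∧ BD (fun x => b x * (t x - t0 x)) η := by
  obtain ⟨-, C, hC0, hC⟩ := memLp_top_iff.1 ht0.mem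
  obtain ⟨hbm, B, hB0, hB⟩ := memLp_top_iff.1 (hD.mem _ hb.1.1)
  set τ : ℝ := η / (9 * (C + 1)) with hτdef
  have hτ : 0 < τ := by positivity
  have hτη : 9 * (τ * (C + 1)) = η := by
    rw [hτdef]; field_simp
  set q : ℝ → ℝ := fun x => Real.log (max ‖b x‖ τ) with hq
  have hmaxpos : ∀ x, 0 < max ‖b x‖ τ := fun x => lt_max_of_lt_right hτ
  have hqm : AEStronglyMeasurable q mu := by
    have h1 : AEStronglyMeasurable (fun x => ‖b x‖) mu := hbm.norm
    have h2 : Continuous (fun r : ℝ => Real.log (max r τ)) := by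
      apply Continuous.log (by fun_prop)
      intro r
      exact (lt_max_of_lt_right hτ).ne'
    exact h2.comp_aestronglyMeasurable h1
  have hqb : ∀ᵐ x ∂mu, |q x| ≤ |Real.log τ| + |Real.log (max B τ)| := by
    filter_upwards [hB] with x hx
    have h1 : Real.log τ ≤ q x := Real.log_le_log hτ (le_max_right _ _)
    have h2 : q x ≤ Real.log (max B τ) := Real.log_le_log (hmaxpos x) (max_le_max hx le_rfl)
    rw [abs_le]
    constructor
    · have := neg_abs_le (Real.log τ)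
      have := abs_nonneg (Real.log (max B τ))
      linarith
    · have := le_abs_self (Real.log (max B τ))
      have := abs_nonneg (Real.log τ)
      linarith
  obtain ⟨V, hV, hVre, hp, hpi⟩ := outer q hqm _ hqb
  set p : ℝ → ℂ := fun x => Complex.exp (V x) with hpdef
  set r : ℝ → ℂ := fun x => Complex.exp (-(V x)) with hrdef
  have hpr : ∀ x, p x * r x = 1 := by
    intro x
    simp only [hpdef, hrdef]
    rw [← Complex.exp_add, add_neg_cancel, Complex.exp_zero]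
  have hpn : ∀ᵐ x ∂mu, ‖p x‖ = max ‖b x‖ τ := by
    filter_upwards [hVre] with x hx
    simp only [hpdef]
    rw [Complex.norm_exp, hx, hq]
    exact Real.exp_log (hmaxpos x)
  have hpD : (fun x => (‖p x‖ : ℂ)) ∈ D := by
    have h1 := hD.fc_norm b hb.1 (fun s => max s τ) (by fun_prop)
    refine hD.ae _ h1 _ ?_
    filter_upwards [hpn] with x hx
    rw [hx]
  obtain ⟨hpQ, hrQ⟩ := A2 hD p r hp hpi (Filter.Eventually.of_forall hpr) hpD
  have hβ : QDA D (fun x => b x * r x) := QDA.mul hD hb hrQ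
  have hψ : QD D (fun x => starRingEnd ℂ (b x * r x) * (b x * t0 x)) :=
    QD.mul hD (QD.conj hβ.1) hbt.1
  have hs0 : Hinf (fun x => p x * t0 x) := hp.mul ht0
  have hβn : ∀ᵐ x ∂mu, ‖b x * r x‖ = ‖b x‖ / max ‖b x‖ τ := by
    filter_upwards [hpn] with x hx
    have h1 : ‖p x‖ * ‖r x‖ = 1 := by rw [← norm_mul, hpr, norm_one]
    rw [norm_mul, eq_div_iff (hmaxpos x).ne', ← hx]
    calc ‖b x‖ * ‖r x‖ * ‖p x‖ = ‖b x‖ * (‖p x‖ * ‖r x‖) := by ring
      _ = ‖b x‖ := by rw [h1, mul_one]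
  have hdiff : BD (fun x => starRingEnd ℂ (b x * r x) * (b x * t0 x) - p x * t0 x) (τ * (C + 1)) := by
    unfold BD
    filter_upwards [hpn, hβn, hC] with x h1 h2 h3
    have e1 : b x = (b x * r x) * p x := by
      calc b x = b x * (p x * r x) := by rw [hpr, mul_one]
        _ = _ := by ring
    have e2 : starRingEnd ℂ (b x * r x) * (b x * t0 x) - p x * t0 x
        = (((‖b x * r x‖ ^ 2 - 1 : ℝ)) : ℂ) * (p x * t0 x) := by
      have e3 : starRingEnd ℂ (b x * r x) * (b x * r x) = ((‖b x * r x‖ ^ 2 : ℝ) : ℂ) := by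
        rw [mul_comm, Complex.mul_conj, Complex.normSq_eq_norm_sq]
      calc starRingEnd ℂ (b x * r x) * (b x * t0 x) - p x * t0 x
          = starRingEnd ℂ (b x * r x) * (((b x * r x) * p x) * t0 x) - p x * t0 x := by rw [← e1]
        _ = (starRingEnd ℂ (b x * r x) * (b x * r x)) * (p x * t0 x) - p x * t0 x := by ring
        _ = _ := by rw [e3]; push_cast; ring
    show ‖starRingEnd ℂ (b x * r x) * (b x * t0 x) - p x * t0 x‖ ≤ _
    rw [e2, norm_mul, Complex.norm_real, norm_mul (p x) (t0 x), h1, h2]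
    rcases le_total τ ‖b x‖ with hc | hc
    · rw [max_eq_left hc, div_self (by linarith : ‖b x‖ ≠ 0)]
      norm_num
      positivity
    · rw [max_eq_right hc]
      have h4 : ‖(‖b x‖ / τ) ^ 2 - 1‖ ≤ 1 := by
        rw [Real.norm_eq_abs, abs_le]
        have h5 : 0 ≤ ‖b x‖ / τ := by positivity
        have h6 : ‖b x‖ / τ ≤ 1 := (div_le_one hτ).2 hc
        constructor
        · nlinarith
        · nlinarith
      calc ‖(‖b x‖ / τ) ^ 2 - 1‖ * (τ * ‖t0 x‖) ≤ 1 * (τ * (C + 1)) := by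
            apply mul_le_mul h4 _ (by positivity) zero_le_one
            exact mul_le_mul_of_nonneg_left (by linarith) hτ.le
        _ = _ := one_mul _
  obtain ⟨s, hs, hsb⟩ := A5b hD _ _ (τ * (C + 1)) (by positivity) hψ hs0 hdiff
  refine ⟨fun x => s x * r x, QDA.mul hD hs hrQ, ?_⟩
  unfold BD at hdiff hsb ⊢
  filter_upwards [hdiff, hsb, hβn] with x h1 h2 h3
  have e1 : b x * (s x * r x - t0 x) = (b x * r x) * (s x - p x * t0 x) := by
    have := hpr x
    calc b x * (s x * r x - t0 x) = (b x * r x) * s x - b x * (1 * t0 x) := by ring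
      _ = (b x * r x) * s x - b x * ((p x * r x) * t0 x) := by rw [this]
      _ = _ := by ring
  rw [e1, norm_mul, h3]
  have h4 : ‖b x‖ / max ‖b x‖ τ ≤ 1 := (div_le_one (hmaxpos x)).2 (le_max_left _ _)
  have h5 : ‖s x - p x * t0 x‖ ≤ 9 * (τ * (C + 1)) := by
    have e2 : s x - p x * t0 x = (starRingEnd ℂ (b x * r x) * (b x * t0 x) - p x * t0 x)
        - (starRingEnd ℂ (b x * r x) * (b x * t0 x) - s x) := by ring
    rw [e2]
    refine (norm_sub_le _ _).trans ?_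
    linarith
  rw [hτη] at h5
  calc ‖b x‖ / max ‖b x‖ τ * ‖s x - p x * t0 x‖ ≤ 1 * η :=
        mul_le_mul h4 h5 (norm_nonneg _) zero_le_one
    _ = η := one_mul _

end Pool.H14.SR

end S_A6

noncomputable section S_A7

open MeasureTheory Set Filter Topology
namespace Pool.H14.SR


variable {D : Set (ℝ → ℂ)}

theorem a7_smul (hD : Doug D) {f : ℝ → ℂ} (hf : QDA D f) (c : ℂ) : QDA D (fun x => c * f x) :=
  ⟨a5_smul hD hf.1 c, ((QDA.hinf hD hf).smul c).ha⟩

theorem a7_const (hD : Doug D) (c : ℂ) : QDA D (fun _ => c) :=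
  ⟨⟨hD.const c, hD.const _⟩, (Hinf_const c).ha⟩

theorem a7_pow (hD : Doug D) {f : ℝ → ℂ} (hf : QDA D f) (n : ℕ) : QDA D (fun x => f x ^ n) := by
  induction n with
  | zero => simpa using a7_const hD 1
  | succ n ih => simpa [pow_succ] using QDA.mul hD ih hf

theorem a7_geom (hD : Doug D) {f : ℝ → ℂ} (hf : QDA D f) (n : ℕ) :
    QDA D (fun x => ∑ k ∈ Finset.range n, f x ^ k) := by
  induction n with
  | zero => simpa using a7_const hD 0
  | succ n ih => simpa [Finset.sum_range_succ] using QDA.add hD ih (a7_pow hD hf n)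

/-- Neumann series. -/
theorem a7_neumann (hD : Doug D) {r : ℝ → ℂ} (hr : QDA D r) (hb : BD r (1 / 2)) :
    QDA D (fun x => (1 + r x)⁻¹) := by
  have hm : AEStronglyMeasurable (fun x => (1 + r x)⁻¹) mu := by
    have h1 : AEStronglyMeasurable (fun x => 1 + r x) mu :=
      aestronglyMeasurable_const.add (QDA.hinf hD hr).mem.1
    exact h1.aemeasurable.inv.aestronglyMeasurable
  refine QDA.approx hD _ hm ?_
  intro e he
  have hlim := (tendsto_pow_atTop_nhds_zero_of_lt_one (r := (1 / 2 : ℝ)) (by norm_num)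
    (by norm_num)).const_mul 2
  rw [mul_zero] at hlim
  obtain ⟨n, hn⟩ := ((hlim.eventually (gt_mem_nhds he))).exists
  refine ⟨_, a7_geom hD (a7_smul hD hr (-1)) n, ?_⟩
  unfold BD at hb ⊢
  filter_upwards [hb] with x hx
  refine le_trans ?_ hn.le
  set X := 1 + r x with hX
  have hX1 : (-1 : ℂ) * r x = 1 - X := by rw [hX]; ring
  rw [hX1]
  have h1 : 1 / 2 ≤ ‖X‖ := by
    have : (1 : ℝ) ≤ ‖X‖ + ‖r x‖ := by
      calc (1 : ℝ) = ‖X - r x‖ := by rw [hX, add_sub_cancel_right, norm_one]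
        _ ≤ _ := norm_sub_le _ _
    linarith
  have hX0 : X ≠ 0 := by
    intro h0; rw [h0, norm_zero] at h1; norm_num at h1
  have h2 : X * ∑ k ∈ Finset.range n, (1 - X) ^ k = 1 - (1 - X) ^ n := by
    have := mul_neg_geom_sum (1 - X) n
    rw [← this]
    congr 1
    ring
  have h3 : ∑ k ∈ Finset.range n, (1 - X) ^ k - X⁻¹ = -((1 - X) ^ n * X⁻¹) := by
    have : ∑ k ∈ Finset.range n, (1 - X) ^ k = (1 - (1 - X) ^ n) * X⁻¹ := by
      rw [← h2]; field_simp
    rw [this]; ring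
  rw [h3, norm_neg, norm_mul, norm_pow, norm_inv, mul_comm]
  have h4 : ‖1 - X‖ ≤ 1 / 2 := by
    rw [← hX1, neg_one_mul, norm_neg]; exact hx
  refine mul_le_mul ?_ (pow_le_pow_left₀ (norm_nonneg _) h4 n) (by positivity) (by norm_num)
  rw [inv_le_comm₀ (by linarith) (by norm_num)]
  norm_num
  linarith

/-- (A7) `a, b ∈ QDA`, `e ∈ H^∞` invertible (inverse `e'`), `|e| ∈ D`, `e = a + b c₀` with `c₀ ∈ H^∞`: then
`a + t b` is invertible in `QDA` for some `t ∈ QDA`.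
Proof: `e, e' ∈ QDA` (`A2`), `b c₀ = e - a ∈ QDA`, `A6` with `η = 1/(2(‖e'‖_∞+1))`:
`e'(a + tb) = 1 + e' b (t - c₀) =: 1 + r`, `r ∈ QDA`, `|r| ≤ 1/2`, `Σ (-r)^n ∈ QDA` (`QDA.approx`),
`u = e' Σ(-r)^n`. -/
theorem A7 (hD : Doug D) (a b e e' c0 : ℝ → ℂ) (ha : QDA D a) (hb : QDA D b)
    (he : Hinf e) (he' : Hinf e') (hee : ∀ᵐ x ∂mu, e x * e' x = 1)
    (heD : (fun x => (‖e x‖ : ℂ)) ∈ D) (hc0 : Hinf c0)
    (h : ∀ᵐ x ∂mu, e x = a x + b x * c0 x) :
    ∃ t u : ℝ → ℂ, QDA D t ∧ QDA D u ∧ ∀ᵐ x ∂mu, (a x + t x * b x) * u x = 1 := by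
  obtain ⟨heQ, heQ'⟩ := A2 hD e e' he he' hee heD
  have hbc : QDA D (fun x => b x * c0 x) := by
    have h1 := QDA.add hD heQ (a7_smul hD ha (-1))
    refine ⟨⟨hD.ae _ h1.1.1 _ ?_, hD.ae _ h1.1.2 _ ?_⟩, ((QDA.hinf hD hb).mul hc0).ha⟩
    · filter_upwards [h] with x hx
      rw [hx]; ring
    · filter_upwards [h] with x hx
      rw [hx]
      congr 1
      ring
  obtain ⟨-, C, hC, hB⟩ := memLp_top_iff.1 he'.mem
  obtain ⟨t, ht, htb⟩ := A6 hD b c0 hb hc0 hbc (1 / (2 * (C + 1))) (by positivity)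
  set r : ℝ → ℂ := fun x => e' x * (b x * t x + (-1) * (b x * c0 x)) with hr
  have hrQ : QDA D r := QDA.mul hD heQ' (QDA.add hD (QDA.mul hD hb ht) (a7_smul hD hbc (-1)))
  have hrb : BD r (1 / 2) := by
    unfold BD at hB htb ⊢
    filter_upwards [hB, htb] with x h1 h2
    have h3 : r x = e' x * (b x * (t x - c0 x)) := by simp only [hr]; ring
    rw [h3, norm_mul]
    calc ‖e' x‖ * ‖b x * (t x - c0 x)‖ ≤ (C + 1) * (1 / (2 * (C + 1))) :=
          mul_le_mul (by linarith) h2 (norm_nonneg _) (by positivity)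
      _ = 1 / 2 := by field_simp
  have hf := a7_neumann hD hrQ hrb
  refine ⟨t, fun x => e' x * (1 + r x)⁻¹, ht, QDA.mul hD heQ' hf, ?_⟩
  unfold BD at hrb
  filter_upwards [hee, h, hrb] with x h1 h2 h3
  have h4 : 1 + r x ≠ 0 := by
    intro h0
    have : r x = -1 := by linear_combination h0
    rw [this, norm_neg, norm_one] at h3
    norm_num at h3
  have h5 : (a x + t x * b x) * e' x = 1 + r x := by
    simp only [hr]
    linear_combination h1 - e' x * h2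
  rw [← mul_assoc, h5, mul_inv_cancel₀ h4]

end Pool.H14.SR

end S_A7

noncomputable section S_A8

open MeasureTheory Set Filter Topology
namespace Pool.H14.SR


variable {D : Set (ℝ → ℂ)}

/-- (A8) The reduction.
Proof: `w = lam U - s` (`A5a`), `V' = V - b s ∈ H²` (`Htwo.add`, `Hinf.mul_Htwo` …),
`Re V' = Θ(|a|²) - Re(bw) - Re(bs) = Θ(|a|²) - lam Re(bU)`, which is in `D` and bounded (`Doug.fc`, real part
`= (f + conj f)/2`); `e = e^{V'}`, `e' = e^{-V'}` are in `H^∞` (`ext_exp`), `|e| = exp(Re V') ∈ D` (`Doug.fc` with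
`exp`).  `e = e^V e^{-bs} = (a + bc)e^{-bs} = a + b c'`, `c' = c e^{-bs} - a s ε(bs)`, where
`ε(t) = (1 - e^{-t})/t` is entire (`ε(0) = 1`; `Hinf_entire`).  Then `A7`. -/
theorem A8 (hD : Doug D) (a b w V c : ℝ → ℂ) (Θ : ℝ → ℝ) (hΘ : Continuous Θ)
    (ha : QDA D a) (hb : QDA D b) (hw : w ∈ D) (hV : Htwo V)
    (hRe : ∀ᵐ x ∂mu, (V x).re = Θ (‖a x‖ ^ 2) - (b x * w x).re) (hc : Hinf c)
    (he : ∀ᵐ x ∂mu, Complex.exp (V x) = a x + b x * c x) :
    ∃ t u : ℝ → ℂ, QDA D t ∧ QDA D u ∧ ∀ᵐ x ∂mu, (a x + t x * b x) * u x = 1 := by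
  obtain ⟨lam, U, s, hlam, hU, hs, hws⟩ := A5a hD w hw
  have haH := QDA.hinf hD ha
  have hbH := QDA.hinf hD hb
  have hbs : Hinf (fun x => b x * s x) := hbH.mul hs
  set V' : ℝ → ℂ := fun x => V x + (-1) * (b x * s x) with hV'
  have hV'2 : Htwo V' := hV.add (hbs.toHtwo.smul (-1))
  set q : ℝ → ℝ := fun x => Θ (‖a x‖ ^ 2) - lam * (b x * U x).re with hq
  -- `q ∈ D`
  have hqD : (fun x => (q x : ℂ)) ∈ D := by
    have h1 : (fun x => ((Θ (‖a x‖ ^ 2) : ℝ) : ℂ)) ∈ D :=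
      Doug.fc_norm hD a ha.1 (fun t => Θ (t ^ 2)) (by fun_prop)
    have h2 : QD D (fun x => b x * U x) := QD.mul hD hb.1 hU
    have h3 := hD.smul (-(lam / 2 : ℂ)) _ (hD.add _ h2.1 _ h2.2)
    have h4 := hD.add _ h1 _ h3
    convert h4 using 1
    funext x
    simp only [hq, Pi.add_apply, Pi.smul_apply, smul_eq_mul, Complex.ofReal_sub,
      Complex.ofReal_mul]
    rw [Complex.add_conj]
    push_cast
    ring
  have hReV' : ∀ᵐ x ∂mu, (V' x).re = q x := by
    filter_upwards [hRe, hws] with x h1 h2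
    have h3 : b x * w x = (lam : ℂ) * (b x * U x) - b x * s x := by rw [h2]; ring
    simp only [hV', hq]
    rw [Complex.add_re, h1, h3, Complex.sub_re, Complex.re_ofReal_mul]
    simp only [neg_mul, one_mul, Complex.neg_re]
    ring
  obtain ⟨-, C, hC, hB⟩ := memLp_top_iff.1 (hD.mem _ hqD)
  have hbd : ∀ᵐ x ∂mu, -C ≤ (V' x).re ∧ (V' x).re ≤ C := by
    unfold BD at hB
    filter_upwards [hReV', hB] with x h1 h2
    rw [h1]
    rw [Complex.norm_real, Real.norm_eq_abs] at h2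
    exact abs_le.1 h2
  have heH := (ext_exp V' hV'2 (-C) C hbd).1
  have heH' := (ext_exp (fun x => (-1) * V' x) (hV'2.smul (-1)) (-C) C (by
    filter_upwards [hbd] with x h1
    have h2 : ((-1) * V' x).re = -(V' x).re := by simp
    rw [h2]
    constructor <;> linarith [h1.1, h1.2])).1
  -- the entire function
  have hg : Differentiable ℂ (dslope (fun t : ℂ => Complex.exp (-t)) 0) := by
    rw [← differentiableOn_univ]
    rw [Complex.differentiableOn_dslope Filter.univ_mem]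
    have : Differentiable ℂ (fun t : ℂ => Complex.exp (-t)) := by fun_prop
    exact this.differentiableOn
  have hexp : Differentiable ℂ (fun t : ℂ => Complex.exp (-t)) := by fun_prop
  have hc0 : Hinf (fun x => c x * Complex.exp (-(b x * s x)) +
      a x * s x * dslope (fun t : ℂ => Complex.exp (-t)) 0 (b x * s x)) :=
    (hc.mul (Hinf_entire hbs _ hexp)).add ((haH.mul hs).mul (Hinf_entire hbs _ hg))
  refine A7 hD a b (fun x => Complex.exp (V' x)) (fun x => Complex.exp ((-1) * V' x)) _ ha hb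
    heH heH' ?_ ?_ hc0 ?_
  · refine Filter.Eventually.of_forall fun x => ?_
    rw [← Complex.exp_add]
    simp
  · have h1 := Doug.fc hD q hqD Real.exp Real.continuous_exp
    refine hD.ae _ h1 _ ?_
    filter_upwards [hReV'] with x hx
    rw [Complex.norm_exp, hx]
  · filter_upwards [he] with x hx
    have h1 : Complex.exp (V' x) = Complex.exp (V x) * Complex.exp (-(b x * s x)) := by
      rw [← Complex.exp_add]
      congr 1
      simp only [hV']
      ring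
    have h2 : b x * s x * dslope (fun t : ℂ => Complex.exp (-t)) 0 (b x * s x) =
        Complex.exp (-(b x * s x)) - 1 := by
      have h3 := sub_smul_dslope (fun t : ℂ => Complex.exp (-t)) 0 (b x * s x)
      simp only [sub_zero, smul_eq_mul, neg_zero, Complex.exp_zero] at h3
      exact h3
    rw [h1, hx]
    linear_combination (a x) * (-h2)

end Pool.H14.SR

end S_A8
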