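import Mathlib
import Pool.Agent.H14.SRM.P0
import Pool.Agent.H14.SRM.P1

/-! MP_e1e648_an, part P6: this file joins several modules to save build time. -/

noncomputable section S_G1

open MeasureTheory Set Filter Topology
namespace Pool.H14.SR

namespace G1aux

/-- Green on a rectangle. -/
theorem rect (F Fx G Gy : ℝ × ℝ → ℝ)
    (hF : ∀ p : ℝ × ℝ, 0 ≤ p.2 → HasDerivAt (fun x => F (x, p.2)) (Fx p) p.1)
    (hG : ∀ p : ℝ × ℝ, 0 ≤ p.2 → HasDerivAt (fun y => G (p.1, y)) (Gy p) p.2)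
    (cF : ContinuousOn Fx {p | 0 ≤ p.2}) (cG : ContinuousOn Gy {p | 0 ≤ p.2})
    (a b d : ℝ) (hab : a ≤ b) (hd : 0 ≤ d) :
    ∫ p in Icc a b ×ˢ Icc 0 d, (Fx p + Gy p) =
      (∫ y in (0 : ℝ)..d, (F (b, y) - F (a, y))) + ∫ x in a..b, (G (x, d) - G (x, 0)) := by
  have hK : IsCompact (Icc a b ×ˢ Icc 0 d) := isCompact_Icc.prod isCompact_Icc
  have hsub : Icc a b ×ˢ Icc 0 d ⊆ {p : ℝ × ℝ | 0 ≤ p.2} := fun p hp => hp.2.1
  have iF : IntegrableOn Fx (Icc a b ×ˢ Icc 0 d) := (cF.mono hsub).integrableOn_compact hK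
  have iG : IntegrableOn Gy (Icc a b ×ˢ Icc 0 d) := (cG.mono hsub).integrableOn_compact hK
  rw [integral_add iF iG]
  congr 1
  · have h1 : ∫ p in Icc a b ×ˢ Icc 0 d, Fx p = ∫ x in a..b, ∫ y in (0 : ℝ)..d, Fx (x, y) := by
      rw [Measure.volume_eq_prod, setIntegral_prod]
      · rw [intervalIntegral.integral_of_le hab, integral_Icc_eq_integral_Ioc]
        congr 1
        ext x
        rw [intervalIntegral.integral_of_le hd, integral_Icc_eq_integral_Ioc]
      · rw [← Measure.volume_eq_prod]; exact iF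
    rw [h1, MeasureTheory.intervalIntegral_intervalIntegral_swap]
    · apply intervalIntegral.integral_congr
      intro y hy
      rw [uIcc_of_le hd] at hy
      simp only
      rw [intervalIntegral.integral_eq_sub_of_hasDerivAt (f := fun x => F (x, y))]
      · intro x _
        exact hF (x, y) hy.1
      · apply ContinuousOn.intervalIntegrable
        have : ContinuousOn (Fx ∘ fun x : ℝ => (x, y)) (uIcc a b) :=
          cF.comp (continuous_id.prodMk continuous_const).continuousOn fun x _ => hy.1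
        exact this
    · refine iF.mono_set ?_
      rw [uIoc_of_le hab, uIoc_of_le hd]
      exact prod_mono Ioc_subset_Icc_self Ioc_subset_Icc_self
  · have h1 : ∫ p in Icc a b ×ˢ Icc 0 d, Gy p = ∫ x in a..b, ∫ y in (0 : ℝ)..d, Gy (x, y) := by
      rw [Measure.volume_eq_prod, setIntegral_prod]
      · rw [intervalIntegral.integral_of_le hab, integral_Icc_eq_integral_Ioc]
        congr 1
        ext x
        rw [intervalIntegral.integral_of_le hd, integral_Icc_eq_integral_Ioc]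
      · rw [← Measure.volume_eq_prod]; exact iG
    rw [h1]
    apply intervalIntegral.integral_congr
    intro x _
    simp only
    rw [intervalIntegral.integral_eq_sub_of_hasDerivAt (f := fun y => G (x, y))]
    · intro y hy
      rw [uIcc_of_le hd] at hy
      exact hG (x, y) hy.1
    · apply ContinuousOn.intervalIntegrable
      have : ContinuousOn (Gy ∘ fun y : ℝ => (x, y)) (uIcc 0 d) :=
        cG.comp (continuous_const.prodMk continuous_id).continuousOn fun y hy => by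
          rw [uIcc_of_le hd] at hy
          exact hy.1
      exact this

/-- Cauchy kernel -/
theorem cauchy (c w : ℝ) (hw : 0 < w) :
    Integrable (fun x : ℝ => 1 / ((x - c) ^ 2 + w ^ 2)) ∧
      ∫ x : ℝ, 1 / ((x - c) ^ 2 + w ^ 2) = Real.pi / w := by
  have h1 : (fun x : ℝ => 1 / ((x - c) ^ 2 + w ^ 2)) =
      fun x => (w ^ 2)⁻¹ * (fun t : ℝ => (1 + t ^ 2)⁻¹) ((x - c) / w) := by
    ext x
    have : (x - c) ^ 2 + w ^ 2 ≠ 0 := by positivity
    field_simp
    ring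
  constructor
  · rw [h1]
    apply Integrable.const_mul
    have h2 := (integrable_inv_one_add_sq.comp_div hw.ne').comp_sub_right c
    exact h2
  · rw [h1, integral_const_mul]
    rw [integral_sub_right_eq_self (μ := volume) (fun x => (fun t : ℝ => (1 + t ^ 2)⁻¹) (x / w)) c]
    rw [Measure.integral_comp_div (fun t : ℝ => (1 + t ^ 2)⁻¹) w, integral_univ_inv_one_add_sq,
      abs_of_pos hw, smul_eq_mul]
    field_simp

def D (z p : ℝ × ℝ) : ℝ := (p.1 - z.1) ^ 2 + (p.2 + z.2) ^ 2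
def N (z p : ℝ × ℝ) : ℝ := 4 * z.2 * p.2 / D z p
def Nx (z p : ℝ × ℝ) : ℝ := -(8 * z.2 * p.2 * (p.1 - z.1)) / D z p ^ 2
def Nxx (z p : ℝ × ℝ) : ℝ := -(8 * z.2 * p.2) / D z p ^ 2 + 32 * z.2 * p.2 * (p.1 - z.1) ^ 2 / D z p ^ 3
def Ny (z p : ℝ × ℝ) : ℝ := 4 * z.2 / D z p - 8 * z.2 * p.2 * (p.2 + z.2) / D z p ^ 2
def Nyy (z p : ℝ × ℝ) : ℝ := -(8 * z.2 * (p.2 + z.2)) / D z p ^ 2 -
  8 * z.2 * (2 * p.2 + z.2) / D z p ^ 2 + 32 * z.2 * p.2 * (p.2 + z.2) ^ 2 / D z p ^ 3

theorem D_pos (z p : ℝ × ℝ) (hz : 0 < z.2) (hp : 0 ≤ p.2) : 0 < D z p := by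
  unfold D; positivity

theorem hNx (z : ℝ × ℝ) (hz : 0 < z.2) (p : ℝ × ℝ) (hp : 0 ≤ p.2) :
    HasDerivAt (fun x => N z (x, p.2)) (Nx z p) p.1 := by
  have hD := D_pos z p hz hp
  have h1 : HasDerivAt (fun x => D z (x, p.2)) (2 * (p.1 - z.1)) p.1 := by
    unfold D
    have := (((hasDerivAt_id p.1).sub_const z.1).pow 2).add_const ((p.2 + z.2) ^ 2)
    simpa using this
  have h2 := (hasDerivAt_const p.1 (4 * z.2 * p.2)).div h1 hD.ne'
  refine h2.congr_deriv ?_
  unfold Nx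
  ring

theorem hNxx (z : ℝ × ℝ) (hz : 0 < z.2) (p : ℝ × ℝ) (hp : 0 ≤ p.2) :
    HasDerivAt (fun x => Nx z (x, p.2)) (Nxx z p) p.1 := by
  have hD := D_pos z p hz hp
  have h1 : HasDerivAt (fun x => D z (x, p.2)) (2 * (p.1 - z.1)) p.1 := by
    unfold D
    have := (((hasDerivAt_id p.1).sub_const z.1).pow 2).add_const ((p.2 + z.2) ^ 2)
    simpa using this
  have h3 : HasDerivAt (fun x => -(8 * z.2 * p.2 * (x - z.1))) (-(8 * z.2 * p.2)) p.1 := by
    have := (((hasDerivAt_id p.1).sub_const z.1).const_mul (8 * z.2 * p.2)).fun_neg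
    simpa using this
  have h2 := h3.div (h1.pow 2) (pow_ne_zero 2 hD.ne')
  refine h2.congr_deriv ?_
  unfold Nxx
  have : D z (p.1, p.2) = D z p := rfl
  rw [this]
  have hD' := hD.ne'
  simp only [Pi.pow_apply, this]
  field_simp
  push_cast
  ring

theorem hNy (z : ℝ × ℝ) (hz : 0 < z.2) (p : ℝ × ℝ) (hp : 0 ≤ p.2) :
    HasDerivAt (fun y => N z (p.1, y)) (Ny z p) p.2 := by
  have hD := D_pos z p hz hp
  have h1 : HasDerivAt (fun y => D z (p.1, y)) (2 * (p.2 + z.2)) p.2 := by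
    unfold D
    have := (((hasDerivAt_id p.2).add_const z.2).pow 2).const_add ((p.1 - z.1) ^ 2)
    simpa using this
  have h3 : HasDerivAt (fun y => 4 * z.2 * y) (4 * z.2) p.2 := by
    simpa using (hasDerivAt_id p.2).const_mul (4 * z.2)
  have h2 := h3.div h1 hD.ne'
  refine h2.congr_deriv ?_
  unfold Ny
  have : D z (p.1, p.2) = D z p := rfl
  rw [this]
  field_simp
  ring

theorem hNyy (z : ℝ × ℝ) (hz : 0 < z.2) (p : ℝ × ℝ) (hp : 0 ≤ p.2) :
    HasDerivAt (fun y => Ny z (p.1, y)) (Nyy z p) p.2 := by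
  have hD := D_pos z p hz hp
  have h1 : HasDerivAt (fun y => D z (p.1, y)) (2 * (p.2 + z.2)) p.2 := by
    unfold D
    have := (((hasDerivAt_id p.2).add_const z.2).pow 2).const_add ((p.1 - z.1) ^ 2)
    simpa using this
  have h3 : HasDerivAt (fun y => 8 * z.2 * y * (y + z.2)) (8 * z.2 * (2 * p.2 + z.2)) p.2 := by
    have h4 : HasDerivAt (fun y => 8 * z.2 * y) (8 * z.2) p.2 := by
      simpa using (hasDerivAt_id p.2).const_mul (8 * z.2)
    have h5 := h4.mul ((hasDerivAt_id p.2).add_const z.2)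
    refine h5.congr_deriv ?_
    simp only [id]
    ring
  have h2 := ((hasDerivAt_const p.2 (4 * z.2)).div h1 hD.ne').sub
    (h3.div (h1.pow 2) (pow_ne_zero 2 hD.ne'))
  refine h2.congr_deriv ?_
  unfold Nyy
  have : D z (p.1, p.2) = D z p := rfl
  simp only [Pi.pow_apply, this]
  have hD' := hD.ne'
  field_simp
  push_cast
  ring

theorem lapN (z : ℝ × ℝ) (hz : 0 < z.2) (p : ℝ × ℝ) (hp : 0 ≤ p.2) :
    Nxx z p + Nyy z p = -(16 * z.2 ^ 2) / D z p ^ 2 := by
  have hD := (D_pos z p hz hp).ne'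
  have e : (p.1 - z.1) ^ 2 = D z p - (p.2 + z.2) ^ 2 := by unfold D; ring
  unfold Nxx Nyy
  rw [e]
  field_simp
  ring

theorem cD (z : ℝ × ℝ) : Continuous (D z) := by unfold D; fun_prop

theorem cont_all (z : ℝ × ℝ) (hz : 0 < z.2) :
    ContinuousOn (N z) {p | 0 ≤ p.2} ∧ ContinuousOn (Nx z) {p | 0 ≤ p.2} ∧
    ContinuousOn (Nxx z) {p | 0 ≤ p.2} ∧ ContinuousOn (Ny z) {p | 0 ≤ p.2} ∧
    ContinuousOn (Nyy z) {p | 0 ≤ p.2} := by
  have hD : ∀ p ∈ {p : ℝ × ℝ | 0 ≤ p.2}, D z p ≠ 0 := fun p hp => (D_pos z p hz hp).ne'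
  have hD2 : ∀ p ∈ {p : ℝ × ℝ | 0 ≤ p.2}, D z p ^ 2 ≠ 0 := fun p hp => pow_ne_zero _ (hD p hp)
  have hD3 : ∀ p ∈ {p : ℝ × ℝ | 0 ≤ p.2}, D z p ^ 3 ≠ 0 := fun p hp => pow_ne_zero _ (hD p hp)
  have c1 := cD z
  refine ⟨?_, ?_, ?_, ?_, ?_⟩
  · exact ContinuousOn.div (by fun_prop) c1.continuousOn hD
  · exact ContinuousOn.div (by fun_prop) (c1.pow 2).continuousOn hD2
  · exact (ContinuousOn.div (by fun_prop) (c1.pow 2).continuousOn hD2).add
      (ContinuousOn.div (by fun_prop) (c1.pow 3).continuousOn hD3)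
  · exact (ContinuousOn.div (by fun_prop) c1.continuousOn hD).sub
      (ContinuousOn.div (by fun_prop) (c1.pow 2).continuousOn hD2)
  · exact ((ContinuousOn.div (by fun_prop) (c1.pow 2).continuousOn hD2).sub
      (ContinuousOn.div (by fun_prop) (c1.pow 2).continuousOn hD2)).add
      (ContinuousOn.div (by fun_prop) (c1.pow 3).continuousOn hD3)


theorem Ux_per {σ : ℝ} {U Ux Uxx Uy Uyy : ℝ × ℝ → ℝ} (h : P2 σ U Ux Uxx Uy Uyy) (p : ℝ × ℝ)
    (hp : -σ < p.2) : Ux (p.1 + 2 * Real.pi, p.2) = Ux p := by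
  have h1 := h.dx (p.1 + 2 * Real.pi, p.2) hp
  have h2 : HasDerivAt (fun x : ℝ => U (x + 2 * Real.pi, p.2)) (Ux (p.1 + 2 * Real.pi, p.2)) p.1 :=
    HasDerivAt.comp_add_const (f := fun x => U (x, p.2)) p.1 (2 * Real.pi) h1
  have h3 : (fun x : ℝ => U (x + 2 * Real.pi, p.2)) = fun x => U (x, p.2) := by
    ext x
    exact h.per (x, p.2) hp
  rw [h3] at h2
  exact h2.unique (h.dx p hp)

theorem per_k {σ : ℝ} {V : ℝ × ℝ → ℝ}
    (hV : ∀ p : ℝ × ℝ, -σ < p.2 → V (p.1 + 2 * Real.pi, p.2) = V p) (y : ℝ) (hy : -σ < y)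
    (x : ℝ) (k : ℕ) : V (x + k * (2 * Real.pi), y) = V (x, y) := by
  have hp : Function.Periodic (fun t => V (t, y)) (2 * Real.pi) := fun t => hV (t, y) hy
  exact hp.nat_mul k x

/-- the estimate on one rectangle -/
theorem one (σ : ℝ) (hσ : 0 < σ) (U Ux Uxx Uy Uyy : ℝ × ℝ → ℝ) (h : P2 σ U Ux Uxx Uy Uyy) (B : ℝ)
    (h0 : ∀ p : ℝ × ℝ, 0 ≤ p.2 → 0 ≤ U p) (hB : ∀ p : ℝ × ℝ, 0 ≤ p.2 → U p ≤ B)
    (hUy : ∀ p : ℝ × ℝ, 0 ≤ p.2 → |Uy p| ≤ B * Real.exp (-p.2))
    (z : ℝ × ℝ) (hz : 0 < z.2) (n : ℕ) (hn : 1 ≤ n) :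
    ∫ p in Icc (z.1 - n ^ 2 * Real.pi) (z.1 + n ^ 2 * Real.pi) ×ˢ Icc 0 (n : ℝ),
        (Uxx p + Uyy p) * N z p ≤
      (∫ x : ℝ, U (x, 0) * (4 * z.2 / ((x - z.1) ^ 2 + z.2 ^ 2))) +
        (16 * B * z.2 * Real.pi + 16 * z.2 * B) / n := by
  have hpi := Real.pi_pos
  have hpi3 := Real.pi_gt_three
  have hn1 : (1 : ℝ) ≤ n := by exact_mod_cast hn
  have hn0 : (0 : ℝ) < n := by linarith
  have hn2 : (1 : ℝ) ≤ (n : ℝ) ^ 2 := one_le_pow₀ hn1
  have hnn : (n : ℝ) ≤ (n : ℝ) ^ 2 := by nlinarith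
  have hnp : 1 ≤ (n : ℝ) ^ 2 * Real.pi := by nlinarith
  have hnp2 : (n : ℝ) ^ 2 ≤ (n : ℝ) ^ 2 * Real.pi := by nlinarith
  have B0 : 0 ≤ B := (h0 (0, 0) le_rfl).trans (hB (0, 0) le_rfl)
  set a := z.1 - n ^ 2 * Real.pi with ha
  set b := z.1 + n ^ 2 * Real.pi with hb
  have hL : 0 < (n : ℝ) ^ 2 * Real.pi := by positivity
  have hab : a ≤ b := by linarith
  obtain ⟨cN, cNx, cNxx, cNy, cNyy⟩ := cont_all z hz
  have hsub0 : {p : ℝ × ℝ | 0 ≤ p.2} ⊆ {p : ℝ × ℝ | -σ < p.2} := fun p hp => by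
    have : (0 : ℝ) ≤ p.2 := hp
    show -σ < p.2
    linarith
  have cU := h.c.mono hsub0
  have cUx := h.cx.mono hsub0
  have cUxx := h.cxx.mono hsub0
  have cUy := h.cy.mono hsub0
  have cUyy := h.cyy.mono hsub0
  have lt0 : ∀ p : ℝ × ℝ, 0 ≤ p.2 → -σ < p.2 := fun p hp => by linarith
  set F : ℝ × ℝ → ℝ := fun p => Ux p * N z p - U p * Nx z p with hF
  set G : ℝ × ℝ → ℝ := fun p => Uy p * N z p - U p * Ny z p with hG
  set Fx : ℝ × ℝ → ℝ := fun p => Uxx p * N z p - U p * Nxx z p with hFx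
  set Gy : ℝ × ℝ → ℝ := fun p => Uyy p * N z p - U p * Nyy z p with hGy
  have dF : ∀ p : ℝ × ℝ, 0 ≤ p.2 → HasDerivAt (fun x => F (x, p.2)) (Fx p) p.1 := by
    intro p hp
    have h1 := ((h.dxx p (lt0 p hp)).mul (hNx z hz p hp)).sub
      ((h.dx p (lt0 p hp)).mul (hNxx z hz p hp))
    refine h1.congr_deriv ?_
    simp only [hFx]
    ring
  have dG : ∀ p : ℝ × ℝ, 0 ≤ p.2 → HasDerivAt (fun y => G (p.1, y)) (Gy p) p.2 := by
    intro p hp
    have h1 := ((h.dyy p (lt0 p hp)).mul (hNy z hz p hp)).sub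
      ((h.dy p (lt0 p hp)).mul (hNyy z hz p hp))
    refine h1.congr_deriv ?_
    simp only [hGy]
    ring
  have cFx : ContinuousOn Fx {p | 0 ≤ p.2} := (cUxx.mul cN).sub (cU.mul cNxx)
  have cGy : ContinuousOn Gy {p | 0 ≤ p.2} := (cUyy.mul cN).sub (cU.mul cNyy)
  have cG : ContinuousOn G {p | 0 ≤ p.2} := (cUy.mul cN).sub (cU.mul cNy)
  have cF : ContinuousOn F {p | 0 ≤ p.2} := (cUx.mul cN).sub (cU.mul cNx)
  have hR := rect F Fx G Gy dF dG cFx cGy a b n hab hn0.le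
  have hK : IsCompact (Icc a b ×ˢ Icc 0 (n : ℝ)) := isCompact_Icc.prod isCompact_Icc
  have hsub : Icc a b ×ˢ Icc 0 (n : ℝ) ⊆ {p : ℝ × ℝ | 0 ≤ p.2} := fun p hp => hp.2.1
  -- step 1
  have s1 : ∫ p in Icc a b ×ˢ Icc 0 (n : ℝ), (Uxx p + Uyy p) * N z p ≤
      ∫ p in Icc a b ×ˢ Icc 0 (n : ℝ), (Fx p + Gy p) := by
    apply setIntegral_mono_on
    · exact (((cUxx.add cUyy).mul cN).mono hsub).integrableOn_compact hK
    · exact ((cFx.add cGy).mono hsub).integrableOn_compact hK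
    · exact hK.measurableSet
    · intro p hp
      have hp0 : 0 ≤ p.2 := hp.2.1
      have e := lapN z hz p hp0
      have e2 : 0 ≤ U p * (16 * z.2 ^ 2 / D z p ^ 2) := mul_nonneg (h0 p hp0) (by positivity)
      have e3 : Fx p + Gy p = (Uxx p + Uyy p) * N z p - U p * (Nxx z p + Nyy z p) := by
        simp only [hFx, hGy]; ring
      rw [e3, e]
      have e4 : U p * (-(16 * z.2 ^ 2) / D z p ^ 2) = -(U p * (16 * z.2 ^ 2 / D z p ^ 2)) := by ring
      rw [e4]
      linarith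
  -- lateral
  have s2 : ∫ y in (0 : ℝ)..n, (F (b, y) - F (a, y)) ≤ 16 * z.2 * B / n := by
    have hcb : ContinuousOn (fun y => F (b, y) - F (a, y)) (uIcc 0 (n : ℝ)) := by
      rw [uIcc_of_le hn0.le]
      refine ContinuousOn.sub ?_ ?_
      · exact cF.comp (continuous_const.prodMk continuous_id).continuousOn fun y hy => hy.1
      · exact cF.comp (continuous_const.prodMk continuous_id).continuousOn fun y hy => hy.1
    calc ∫ y in (0 : ℝ)..n, (F (b, y) - F (a, y)) ≤ ∫ y in (0 : ℝ)..n, 16 * z.2 * B / n ^ 2 := by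
          apply intervalIntegral.integral_mono_on hn0.le hcb.intervalIntegrable
            intervalIntegrable_const
          intro y hy
          have hy0 : -σ < y := by linarith [hy.1]
          have eb : b = a + (n ^ 2 : ℕ) * (2 * Real.pi) := by
            simp only [ha, hb]; push_cast; ring
          have e1 : U (b, y) = U (a, y) := by
            rw [eb]; exact per_k h.per y hy0 a (n ^ 2)
          have e2 : Ux (b, y) = Ux (a, y) := by
            rw [eb]; exact per_k (fun p hp => Ux_per h p hp) y hy0 a (n ^ 2)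
          have e3 : D z (b, y) = D z (a, y) := by unfold D; simp only [ha, hb]; ring
          have e4 : N z (b, y) = N z (a, y) := by unfold N; rw [e3]
          have e5 : Nx z (a, y) = -Nx z (b, y) := by
            unfold Nx; rw [e3]; simp only [ha, hb]; ring
          have e6 : F (b, y) - F (a, y) = U (b, y) * (-2 * Nx z (b, y)) := by
            simp only [hF]; rw [e5, e4, e1, e2]; ring
          rw [e6]
          have hDp := D_pos z (b, y) hz hy.1
          have e7 : -2 * Nx z (b, y) = 16 * z.2 * y * (n ^ 2 * Real.pi) / D z (b, y) ^ 2 := by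
            unfold Nx; simp only [hb]; ring
          have hD : ((n : ℝ) ^ 2) ^ 2 ≤ D z (b, y) := by
            have : D z (b, y) = ((n : ℝ) ^ 2 * Real.pi) ^ 2 + (y + z.2) ^ 2 := by
              unfold D; simp only [hb]; ring
            rw [this]
            have : ((n : ℝ) ^ 2) ^ 2 ≤ ((n : ℝ) ^ 2 * Real.pi) ^ 2 :=
              pow_le_pow_left₀ (by positivity) hnp2 2
            linarith [sq_nonneg (y + z.2)]
          have hD' : ((n : ℝ) ^ 2 * Real.pi) ^ 2 ≤ D z (b, y) := by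
            have : D z (b, y) = ((n : ℝ) ^ 2 * Real.pi) ^ 2 + (y + z.2) ^ 2 := by
              unfold D; simp only [hb]; ring
            rw [this]
            linarith [sq_nonneg (y + z.2)]
          have e8 : 16 * z.2 * y * (n ^ 2 * Real.pi) / D z (b, y) ^ 2 ≤ 16 * z.2 / n ^ 2 := by
            rw [div_le_div_iff₀ (by positivity) (by positivity)]
            have g1 : y * (n ^ 2 * Real.pi) * (n : ℝ) ^ 2 ≤ D z (b, y) ^ 2 := by
              have g2 : y ≤ (n : ℝ) ^ 2 := hy.2.trans hnn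
              have g3 : (n : ℝ) ^ 2 * Real.pi ≤ ((n : ℝ) ^ 2 * Real.pi) ^ 2 := by
                exact le_self_pow₀ hnp (by norm_num)
              calc y * (n ^ 2 * Real.pi) * (n : ℝ) ^ 2
                  ≤ (n : ℝ) ^ 2 * (n ^ 2 * Real.pi) * (n : ℝ) ^ 2 := by gcongr
                _ = (((n : ℝ) ^ 2) ^ 2) * (n ^ 2 * Real.pi) := by ring
                _ ≤ D z (b, y) * D z (b, y) := by
                    apply mul_le_mul hD (g3.trans hD') hL.le hDp.le
                _ = D z (b, y) ^ 2 := by ring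
            calc 16 * z.2 * y * (n ^ 2 * Real.pi) * (n : ℝ) ^ 2
                = 16 * z.2 * (y * (n ^ 2 * Real.pi) * (n : ℝ) ^ 2) := by ring
              _ ≤ 16 * z.2 * D z (b, y) ^ 2 := by
                  apply mul_le_mul_of_nonneg_left g1 (by positivity)
          rw [e7]
          calc U (b, y) * (16 * z.2 * y * (n ^ 2 * Real.pi) / D z (b, y) ^ 2)
              ≤ B * (16 * z.2 / n ^ 2) := by
                apply mul_le_mul (hB _ hy.1) e8 _ B0
                have := hy.1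
                positivity
            _ = 16 * z.2 * B / n ^ 2 := by ring
      _ = 16 * z.2 * B / n := by
          rw [intervalIntegral.integral_const, smul_eq_mul, sub_zero]
          field_simp
  -- top and bottom
  have hcx : ∀ y : ℝ, 0 ≤ y → ContinuousOn (fun x => G (x, y)) (uIcc a b) := by
    intro y hy
    exact cG.comp (continuous_id.prodMk continuous_const).continuousOn fun x _ => hy
  have hG0 : ∀ x, G (x, 0) = -(U (x, 0) * (4 * z.2 / ((x - z.1) ^ 2 + z.2 ^ 2))) := by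
    intro x
    simp only [hG, N, Ny, D]
    simp
  obtain ⟨ci, ciI⟩ := cauchy z.1 (n + z.2) (by positivity)
  obtain ⟨cj, _⟩ := cauchy z.1 z.2 hz
  have hGn : ∀ x, G (x, n) ≤ 16 * B * z.2 * (1 / ((x - z.1) ^ 2 + (n + z.2) ^ 2)) := by
    intro x
    have hDp := D_pos z (x, (n : ℝ)) hz hn0.le
    have eD : (x - z.1) ^ 2 + ((n : ℝ) + z.2) ^ 2 = D z (x, n) := rfl
    rw [eD]
    have hNn : 0 ≤ N z (x, (n : ℝ)) := by unfold N; positivity
    have g1 : Uy (x, n) * N z (x, n) ≤ 4 * B * z.2 * (1 / D z (x, n)) := by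
      have e1 : Uy (x, n) ≤ B * Real.exp (-n) := (le_abs_self _).trans (hUy (x, n) hn0.le)
      have e2 : Real.exp (-(n : ℝ)) * n ≤ 1 := by
        rw [Real.exp_neg, inv_mul_le_iff₀ (Real.exp_pos _), mul_one]
        linarith [Real.add_one_le_exp (n : ℝ)]
      calc Uy (x, n) * N z (x, n) ≤ B * Real.exp (-n) * N z (x, n) :=
            mul_le_mul_of_nonneg_right e1 hNn
        _ = 4 * B * z.2 * (1 / D z (x, n)) * (Real.exp (-(n : ℝ)) * n) := by unfold N; ring
        _ ≤ 4 * B * z.2 * (1 / D z (x, n)) * 1 :=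
            mul_le_mul_of_nonneg_left e2 (by positivity)
        _ = _ := by ring
    have g2 : -(U (x, n) * Ny z (x, n)) ≤ 12 * B * z.2 * (1 / D z (x, n)) := by
      have e1 : -Ny z (x, n) ≤ 12 * z.2 * (1 / D z (x, n)) := by
        unfold Ny
        have e2 : 8 * z.2 * (n : ℝ) * (n + z.2) / D z (x, n) ^ 2 ≤ 8 * z.2 / D z (x, n) := by
          rw [div_le_div_iff₀ (by positivity) hDp]
          have e3 : (n : ℝ) * (n + z.2) ≤ D z (x, n) := by
            unfold D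
            nlinarith [sq_nonneg (x - z.1)]
          have : 8 * z.2 * (n : ℝ) * (n + z.2) * D z (x, n) =
            (8 * z.2 * D z (x, n)) * ((n : ℝ) * (n + z.2)) := by ring
          rw [this]
          calc (8 * z.2 * D z (x, n)) * ((n : ℝ) * (n + z.2)) ≤
            (8 * z.2 * D z (x, n)) * D z (x, n) := mul_le_mul_of_nonneg_left e3 (by positivity)
            _ = _ := by ring
        have e4 : 0 ≤ 4 * z.2 / D z (x, n) := by positivity
        have e5 : 12 * z.2 * (1 / D z (x, n)) = 4 * z.2 / D z (x, n) + 8 * z.2 / D z (x, n) := by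
          ring
        simp only
        rw [e5]
        linarith
      have e6 : -Ny z (x, n) ≤ |12 * z.2 * (1 / D z (x, n))| := e1.trans (le_abs_self _)
      calc -(U (x, n) * Ny z (x, n)) = U (x, n) * (-Ny z (x, n)) := by ring
        _ ≤ U (x, n) * (12 * z.2 * (1 / D z (x, n))) :=
            mul_le_mul_of_nonneg_left e1 (h0 _ hn0.le)
        _ ≤ B * (12 * z.2 * (1 / D z (x, n))) :=
            mul_le_mul_of_nonneg_right (hB _ hn0.le) (by positivity)
        _ = _ := by ring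
    simp only [hG]
    have : 16 * B * z.2 * (1 / D z (x, n)) = 4 * B * z.2 * (1 / D z (x, n)) +
      12 * B * z.2 * (1 / D z (x, n)) := by ring
    rw [this]
    linarith
  have s3 : ∫ x in a..b, (G (x, n) - G (x, 0)) ≤ 16 * B * z.2 * Real.pi / n +
      ∫ x : ℝ, U (x, 0) * (4 * z.2 / ((x - z.1) ^ 2 + z.2 ^ 2)) := by
    rw [intervalIntegral.integral_sub (hcx _ hn0.le).intervalIntegrable
      (hcx 0 le_rfl).intervalIntegrable]
    have t1 : ∫ x in a..b, G (x, n) ≤ 16 * B * z.2 * Real.pi / n := by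
      calc ∫ x in a..b, G (x, n) ≤ ∫ x in a..b, 16 * B * z.2 * (1 / ((x - z.1) ^ 2 + (n + z.2) ^ 2)) :=
            intervalIntegral.integral_mono_on hab (hcx _ hn0.le).intervalIntegrable
              (ci.const_mul _).intervalIntegrable fun x _ => hGn x
        _ ≤ ∫ x : ℝ, 16 * B * z.2 * (1 / ((x - z.1) ^ 2 + (n + z.2) ^ 2)) := by
            rw [intervalIntegral.integral_of_le hab]
            apply setIntegral_le_integral (ci.const_mul _)
            exact ae_of_all _ fun x => by simp only [Pi.zero_apply]; positivity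
        _ = 16 * B * z.2 * (Real.pi / (n + z.2)) := by rw [integral_const_mul, ciI]
        _ ≤ 16 * B * z.2 * (Real.pi / n) := by
            apply mul_le_mul_of_nonneg_left _ (by positivity)
            apply div_le_div_of_nonneg_left hpi.le hn0 (by linarith)
        _ = _ := by ring
    have t2 : -∫ x in a..b, G (x, 0) ≤
        ∫ x : ℝ, U (x, 0) * (4 * z.2 / ((x - z.1) ^ 2 + z.2 ^ 2)) := by
      rw [← intervalIntegral.integral_neg]
      simp_rw [hG0, neg_neg]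
      rw [intervalIntegral.integral_of_le hab]
      apply setIntegral_le_integral
      · have c0 : Continuous fun x : ℝ => U (x, 0) := by
          rw [← continuousOn_univ]
          exact cU.comp (continuous_id.prodMk continuous_const).continuousOn
            fun x _ => (le_refl (0 : ℝ) : (0 : ℝ) ≤ (x, (0 : ℝ)).2)
        have c1 : Integrable fun x : ℝ => U (x, 0) * (1 / ((x - z.1) ^ 2 + z.2 ^ 2)) := by
          refine cj.bdd_mul (c := B) c0.aestronglyMeasurable (ae_of_all _ fun x => ?_)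
          rw [Real.norm_eq_abs, abs_of_nonneg (h0 (x, 0) le_rfl)]
          exact hB (x, 0) le_rfl
        have c2 := c1.const_mul (4 * z.2)
        refine c2.congr (ae_of_all _ fun x => ?_)
        simp only
        ring
      · refine ae_of_all _ fun x => ?_
        simp only [Pi.zero_apply]
        exact mul_nonneg (h0 _ le_rfl) (by positivity)
    linarith
  rw [hR] at s1
  have : (16 * B * z.2 * Real.pi + 16 * z.2 * B) / (n : ℝ) =
    16 * B * z.2 * Real.pi / n + 16 * z.2 * B / n := by ring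
  rw [this]
  linarith

end G1aux

/-- **(G1)** Green's inequality against `N_z = y q_z`.  `U ≥ 0` bounded, periodic, `C²` and subharmonic on a
neighbourhood of `y ≥ 0`, with `|Uy| ≤ B e^{-y}` on `y ≥ 0`:
`∬_{y>0, x∈ℝ} (ΔU) N_z ≤ ∫_ℝ U(x,0) 4z_y/((x-z_x)²+z_y²) dx`.

Proof: `N(x,y) = 4 y z_y /D`, `D = (x-z_x)²+(y+z_y)²`, satisfies `N ≥ 0`, `N = 0` at `y = 0`,
`∂x N = -8 z_y y (x-z_x)/D²`, `∂y N = 4z_y/D - 8 z_y y (y+z_y)/D²`,
`ΔN = -16 z_y²/D² ≤ 0` (`Δ(y/D) = 2∂_y(1/D) + yΔ(1/D) = -4(y+z_y)/D² + 4y/D² = -4z_y/D²`, times `4z_y`).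
`W(y) = ∫_ℝ (Uy N - U ∂yN) dx` is differentiable with `W' = ∫ (ΔU·N - U ΔN) dx` (the `x`-boundary terms vanish:
`U, Ux` are bounded on compact `y`-ranges, `N, ∂xN = O(1/x²)`), `W(0) = -∫ U(x,0) 4z_y/(…) dx`, and
`W(Y) → 0` as `Y → ∞`: `∫ N dx = 4π z_y Y/(Y+z_y)`, `|Uy| ≤ B e^{-Y}`, `∫|∂yN| dx ≤ C/(Y+z_y)`.
Hence `∬ ΔU·N ≤ ∬ (ΔU·N - UΔN) = -W(0)`.  (Alternatively use rectangles and the divergence theorem.) -/
theorem G1 (σ : ℝ) (hσ : 0 < σ) (U Ux Uxx Uy Uyy : ℝ × ℝ → ℝ) (h : P2 σ U Ux Uxx Uy Uyy) (B : ℝ)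
    (h0 : ∀ p : ℝ × ℝ, 0 ≤ p.2 → 0 ≤ U p) (hB : ∀ p : ℝ × ℝ, 0 ≤ p.2 → U p ≤ B)
    (hUy : ∀ p : ℝ × ℝ, 0 ≤ p.2 → |Uy p| ≤ B * Real.exp (-p.2))
    (sub : ∀ p : ℝ × ℝ, 0 < p.2 → 0 ≤ Uxx p + Uyy p) (z : ℝ × ℝ) (hz : 0 < z.2) :
    ∫⁻ p in HP, ENNReal.ofReal ((Uxx p + Uyy p) * (p.2 * qk z p))
      ≤ ENNReal.ofReal (∫ x : ℝ, U (x, 0) * (4 * z.2 / ((x - z.1) ^ 2 + z.2 ^ 2))) := by
  set a : ℕ → Set (ℝ × ℝ) := fun n =>
    Icc (z.1 - n ^ 2 * Real.pi) (z.1 + n ^ 2 * Real.pi) ×ˢ Icc 0 (n : ℝ) with ha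
  have hpi := Real.pi_pos
  have mono : Monotone a := by
    intro n m hnm
    have h1 : (n : ℝ) ≤ m := by exact_mod_cast hnm
    have h2 : (n : ℝ) ^ 2 * Real.pi ≤ (m : ℝ) ^ 2 * Real.pi := by gcongr
    exact prod_mono (Icc_subset_Icc (by linarith) (by linarith)) (Icc_subset_Icc le_rfl h1)
  have cover : HP ⊆ ⋃ n, a n := by
    intro p hp
    obtain ⟨n, hn⟩ := exists_nat_ge (max (p.2) (max 1 |p.1 - z.1|))
    have n1 : p.2 ≤ n := (le_max_left _ _).trans hn
    have n2 : (1 : ℝ) ≤ n := ((le_max_left _ _).trans (le_max_right _ _)).trans hn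
    have n3 : |p.1 - z.1| ≤ n := ((le_max_right _ _).trans (le_max_right _ _)).trans hn
    rw [mem_iUnion]
    have hp' : 0 < p.2 := hp
    have h4 : (n : ℝ) ≤ n ^ 2 * Real.pi := by nlinarith [Real.pi_gt_three]
    rw [abs_le] at n3
    exact ⟨n, ⟨by linarith [n3.1], by linarith [n3.2]⟩, hp'.le, n1⟩
  set f : ℝ × ℝ → ENNReal := fun p => ENNReal.ofReal ((Uxx p + Uyy p) * (p.2 * qk z p)) with hf
  have hNq : ∀ p, p.2 * qk z p = G1aux.N z p := by
    intro p
    unfold qk G1aux.N G1aux.D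
    ring
  set R := ∫ x : ℝ, U (x, 0) * (4 * z.2 / ((x - z.1) ^ 2 + z.2 ^ 2)) with hR
  set C := 16 * B * z.2 * Real.pi + 16 * z.2 * B with hC
  have hsub0 : {p : ℝ × ℝ | 0 ≤ p.2} ⊆ {p : ℝ × ℝ | -σ < p.2} := fun p hp => by
    have : (0 : ℝ) ≤ p.2 := hp
    show -σ < p.2
    linarith
  have each : ∀ n : ℕ, 1 ≤ n → ∫⁻ p in a n, f p ≤ ENNReal.ofReal (R + C / n) := by
    intro n hn
    have hn0 : (0 : ℝ) ≤ n := by positivity
    have hK : IsCompact (a n) := isCompact_Icc.prod isCompact_Icc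
    have hsub : a n ⊆ {p : ℝ × ℝ | 0 ≤ p.2} := fun p hp => hp.2.1
    have hi : IntegrableOn (fun p => (Uxx p + Uyy p) * G1aux.N z p) (a n) :=
      (((h.cxx.mono (hsub.trans hsub0)).add (h.cyy.mono (hsub.trans hsub0))).mul
        ((G1aux.cont_all z hz).1.mono hsub)).integrableOn_compact hK
    simp only [hf, hNq]
    rw [← ofReal_integral_eq_lintegral_ofReal hi]
    · exact ENNReal.ofReal_le_ofReal (G1aux.one σ hσ U Ux Uxx Uy Uyy h B h0 hB hUy z hz n hn)
    · rw [EventuallyLE, ae_restrict_iff' hK.measurableSet]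
      refine ae_of_all _ fun p hp => ?_
      have hp0 : 0 ≤ p.2 := hp.2.1
      simp only [Pi.zero_apply]
      rcases hp0.lt_or_eq with h1 | h1
      · have hD := G1aux.D_pos z p hz hp0
        refine mul_nonneg (sub p h1) ?_
        unfold G1aux.N
        positivity
      · unfold G1aux.N
        rw [← h1]
        simp
  have each' : ∀ n : ℕ, ∫⁻ p in a n, f p ≤ ENNReal.ofReal R := by
    intro n
    have hlim : Tendsto (fun m : ℕ => ENNReal.ofReal (R + C / m)) atTop (𝓝 (ENNReal.ofReal R)) := by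
      apply ENNReal.tendsto_ofReal
      have := (tendsto_const_div_atTop_nhds_zero_nat C).const_add R
      simpa using this
    refine ge_of_tendsto hlim ?_
    filter_upwards [eventually_ge_atTop (max n 1)] with m hm
    exact (lintegral_mono_set (mono ((le_max_left _ _).trans hm))).trans
      (each m ((le_max_right _ _).trans hm))
  calc ∫⁻ p in HP, f p ≤ ∫⁻ p in ⋃ n, a n, f p := lintegral_mono_set cover
    _ = ⨆ n, ∫⁻ p in a n, f p := setLIntegral_iUnion_of_directed f (mono.directed_le)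
    _ ≤ ENNReal.ofReal R := iSup_le each'

end Pool.H14.SR

end S_G1

noncomputable section S_PR

open MeasureTheory Set Filter Topology
namespace Pool.H14.SR

/-- The total mass of the Poisson kernel. -/
theorem pr_one (z : ℝ × ℝ) (hz : 0 < z.2) :
    Integrable (fun x : ℝ => z.2 / ((x - z.1) ^ 2 + z.2 ^ 2)) ∧
    ∫ x : ℝ, z.2 / ((x - z.1) ^ 2 + z.2 ^ 2) = Real.pi := by
  have hγ : Real.toNNReal z.2 ≠ 0 := by
    rw [Ne, Real.toNNReal_eq_zero, not_le]
    exact hz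
  have hfun : (fun x : ℝ => z.2 / ((x - z.1) ^ 2 + z.2 ^ 2))
      = fun x => Real.pi * ProbabilityTheory.cauchyPDFReal z.1 (Real.toNNReal z.2) x := by
    funext x
    rw [ProbabilityTheory.cauchyPDFReal_def, Real.coe_toNNReal _ hz.le]
    have hpi := Real.pi_ne_zero
    have : (x - z.1) ^ 2 + z.2 ^ 2 ≠ 0 := by positivity
    field_simp
  rw [hfun]
  refine ⟨(ProbabilityTheory.integrable_cauchyPDFReal z.1).const_mul _, ?_⟩
  rw [integral_const_mul, ProbabilityTheory.integral_cauchyPDFReal_eq_one z.1 hγ, mul_one]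

/-- point of the complex plane -/
def prh (f : ℂ → ℂ) (ζ : ℂ) : ℂ := f (Complex.exp (Complex.I * ζ))

theorem pr_norm_exp (ζ : ℂ) : ‖Complex.exp (Complex.I * ζ)‖ = Real.exp (-ζ.im) := by
  rw [Complex.norm_exp]
  congr 1
  simp

theorem prh_cont (f : ℂ → ℂ) (hfc : ContinuousOn f (Metric.closedBall 0 1)) :
    ContinuousOn (prh f) {ζ | 0 ≤ ζ.im} := by
  unfold prh
  refine hfc.comp (by fun_prop) ?_
  intro ζ hζ
  rw [mem_closedBall_zero_iff, pr_norm_exp]
  exact Real.exp_le_one_iff.2 (by simpa using hζ)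

theorem prh_diff (f : ℂ → ℂ) (hf : DifferentiableOn ℂ f (Metric.ball 0 1)) (ζ : ℂ)
    (hζ : 0 < ζ.im) : DifferentiableAt ℂ (prh f) ζ := by
  unfold prh
  have hm : Complex.exp (Complex.I * ζ) ∈ Metric.ball (0 : ℂ) 1 := by
    rw [mem_ball_zero_iff, pr_norm_exp]
    rw [← Real.exp_zero]; exact Real.exp_lt_exp.2 (by linarith)
  have h1 : DifferentiableAt ℂ f (Complex.exp (Complex.I * ζ)) :=
    hf.differentiableAt (Metric.isOpen_ball.mem_nhds hm)
  exact DifferentiableAt.comp ζ h1 (by fun_prop)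

/-- The function that is integrated. -/
def prg (f : ℂ → ℂ) (ζ₀ ζ : ℂ) : ℂ := dslope (prh f) ζ₀ ζ / (ζ - starRingEnd ℂ ζ₀)

theorem prg_bound (f : ℂ → ℂ) (B : ℝ) (hB : ∀ ζ : ℂ, 0 ≤ ζ.im → ‖prh f ζ‖ ≤ B) (ζ₀ ζ : ℂ)
    (h0 : 0 < ζ₀.im) (hζ : 0 ≤ ζ.im) (R : ℝ) (hR : 0 < R) (h1 : R ≤ ‖ζ - ζ₀‖)
    (h2 : R ≤ ‖ζ - starRingEnd ℂ ζ₀‖) : ‖prg f ζ₀ ζ‖ ≤ 2 * B / R ^ 2 := by
  have hne : ζ ≠ ζ₀ := by
    intro h; rw [h, sub_self, norm_zero] at h1; linarith
  unfold prg
  rw [dslope_of_ne _ hne, slope_def_field, norm_div, norm_div]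
  have h3 : ‖prh f ζ - prh f ζ₀‖ ≤ 2 * B := by
    calc _ ≤ ‖prh f ζ‖ + ‖prh f ζ₀‖ := norm_sub_le _ _
      _ ≤ B + B := add_le_add (hB _ hζ) (hB _ h0.le)
      _ = _ := by ring
  have hB0 : 0 ≤ 2 * B := (norm_nonneg _).trans h3
  rw [div_div]
  have h4 : R ^ 2 ≤ ‖ζ - ζ₀‖ * ‖ζ - starRingEnd ℂ ζ₀‖ := by
    rw [sq]; exact mul_le_mul h1 h2 hR.le (norm_nonneg _)
  exact div_le_div₀ hB0 h3 (by positivity) h4

theorem prg_cont (f : ℂ → ℂ) (hfc : ContinuousOn f (Metric.closedBall 0 1))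
    (hf : DifferentiableOn ℂ f (Metric.ball 0 1)) (ζ₀ : ℂ) (h0 : 0 < ζ₀.im) :
    ContinuousOn (prg f ζ₀) {ζ | 0 ≤ ζ.im} := by
  unfold prg
  refine ContinuousOn.div ?_ (by fun_prop) ?_
  · rw [continuousOn_dslope]
    · exact ⟨prh_cont f hfc, prh_diff f hf ζ₀ h0⟩
    · exact Filter.mem_of_superset ((isOpen_lt continuous_const Complex.continuous_im).mem_nhds h0)
        (fun ζ hζ => (show (0:ℝ) ≤ ζ.im from le_of_lt hζ))
  · intro ζ hζ h
    have := congrArg Complex.im h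
    simp at this
    have h2 : (0:ℝ) ≤ ζ.im := hζ
    linarith

theorem prg_diff (f : ℂ → ℂ) (hf : DifferentiableOn ℂ f (Metric.ball 0 1)) (ζ₀ ζ : ℂ)
    (h0 : 0 < ζ₀.im) (hζ : 0 < ζ.im) (hne : ζ ≠ ζ₀) : DifferentiableAt ℂ (prg f ζ₀) ζ := by
  unfold prg
  refine DifferentiableAt.div ?_ (by fun_prop) ?_
  · exact (differentiableAt_dslope_of_ne hne).2 (prh_diff f hf ζ hζ)
  · intro h
    have := congrArg Complex.im h
    simp at this
    linarith

theorem prg_real (f : ℂ → ℂ) (z : ℝ × ℝ) (hz : 0 < z.2) (x : ℝ) :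
    prg f ((z.1 : ℂ) + (z.2 : ℂ) * Complex.I) (x : ℂ)
      = (f (E (x, 0)) - hp f z) * ((1 / ((x - z.1) ^ 2 + z.2 ^ 2) : ℝ) : ℂ) := by
  have hne : (x : ℂ) ≠ (z.1 : ℂ) + (z.2 : ℂ) * Complex.I := by
    intro h
    have := congrArg Complex.im h
    simp at this
    linarith
  unfold prg
  rw [dslope_of_ne _ hne, slope_def_field]
  have h1 : prh f (x : ℂ) = f (E (x, 0)) := by
    unfold prh; rw [E_zero]
  have h2 : prh f ((z.1 : ℂ) + (z.2 : ℂ) * Complex.I) = hp f z := by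
    unfold prh hp E; rfl
  rw [h1, h2, div_div]
  have h3 : ((x : ℂ) - ((z.1 : ℂ) + (z.2 : ℂ) * Complex.I)) *
      ((x : ℂ) - starRingEnd ℂ ((z.1 : ℂ) + (z.2 : ℂ) * Complex.I))
      = (((x - z.1) ^ 2 + z.2 ^ 2 : ℝ) : ℂ) := by
    simp only [map_add, map_mul, Complex.conj_ofReal, Complex.conj_I]
    push_cast
    have : Complex.I ^ 2 = -1 := Complex.I_sq
    linear_combination (-(z.2 : ℂ) ^ 2) * this
  rw [h3]
  push_cast
  ring

/-- The integral of `prg` over the real line vanishes. -/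
theorem prg_int (f : ℂ → ℂ) (hfc : ContinuousOn f (Metric.closedBall 0 1))
    (hf : DifferentiableOn ℂ f (Metric.ball 0 1)) (z : ℝ × ℝ) (hz : 0 < z.2)
    (hI : Integrable (fun x : ℝ => prg f ((z.1 : ℂ) + (z.2 : ℂ) * Complex.I) (x : ℂ))) :
    ∫ x : ℝ, prg f ((z.1 : ℂ) + (z.2 : ℂ) * Complex.I) (x : ℂ) = 0 := by
  set ζ₀ : ℂ := (z.1 : ℂ) + (z.2 : ℂ) * Complex.I with hζ₀
  have him : ζ₀.im = z.2 := by rw [hζ₀]; simp
  have hre : ζ₀.re = z.1 := by rw [hζ₀]; simp
  have h0 : 0 < ζ₀.im := by rw [him]; exact hz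
  obtain ⟨B, hB⟩ := (isCompact_closedBall (0 : ℂ) 1).exists_bound_of_continuousOn hfc
  have hB' : ∀ ζ : ℂ, 0 ≤ ζ.im → ‖prh f ζ‖ ≤ B := by
    intro ζ hζ
    apply hB
    rw [mem_closedBall_zero_iff, pr_norm_exp]
    exact Real.exp_le_one_iff.2 (by simpa using hζ)
  have hB0 : 0 ≤ B := (norm_nonneg _).trans (hB' ζ₀ h0.le)
  have hT : Tendsto (fun R : ℝ => ∫ x in (z.1 - R)..(z.1 + R), prg f ζ₀ (x : ℂ)) atTop
      (𝓝 (∫ x : ℝ, prg f ζ₀ (x : ℂ))) := by
    apply intervalIntegral_tendsto_integral hI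
    · exact tendsto_atBot_add_const_left _ _ tendsto_neg_atTop_atBot
    · exact tendsto_atTop_add_const_left _ _ tendsto_id
  have hbd : ∀ᶠ R : ℝ in atTop, ‖∫ x in (z.1 - R)..(z.1 + R), prg f ζ₀ (x : ℂ)‖
      ≤ 2 * B / (R - z.2) ^ 2 * (2 * R) + 2 * B / R ^ 2 * R + 2 * B / R ^ 2 * R := by
    filter_upwards [eventually_gt_atTop z.2] with R hR
    have hR0 : 0 < R := hz.trans hR
    have key := Complex.integral_boundary_rect_eq_zero_of_differentiable_on_off_countable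
      (prg f ζ₀) (((z.1 - R : ℝ) : ℂ)) (((z.1 + R : ℝ) : ℂ) + (R : ℂ) * Complex.I) {ζ₀}
      (countable_singleton _) ?_ ?_
    · simp only [Complex.ofReal_re, Complex.ofReal_im, Complex.add_re, Complex.add_im,
        Complex.mul_re, Complex.mul_im, Complex.I_re, Complex.I_im, mul_zero, mul_one, zero_add,
        add_zero, sub_zero, Complex.ofReal_zero, zero_mul, smul_eq_mul] at key
      have e1 : ∫ x in (z.1 - R)..(z.1 + R), prg f ζ₀ (x : ℂ)
          = (∫ x in (z.1 - R)..(z.1 + R), prg f ζ₀ ((x : ℂ) + (R : ℂ) * Complex.I))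
            - Complex.I * (∫ y in (0:ℝ)..R, prg f ζ₀ (((z.1 + R : ℝ) : ℂ) + (y : ℂ) * Complex.I))
            + Complex.I * (∫ y in (0:ℝ)..R, prg f ζ₀ (((z.1 - R : ℝ) : ℂ) + (y : ℂ) * Complex.I)) := by
        linear_combination key
      rw [e1]
      have b1 : ‖∫ x in (z.1 - R)..(z.1 + R), prg f ζ₀ ((x : ℂ) + (R : ℂ) * Complex.I)‖
          ≤ 2 * B / (R - z.2) ^ 2 * (2 * R) := by
        refine (intervalIntegral.norm_integral_le_of_norm_le_const
          (C := 2 * B / (R - z.2) ^ 2) ?_).trans (le_of_eq ?_)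
        · intro x _
          refine prg_bound f B hB' ζ₀ _ h0 (by simp; linarith) (R - z.2) (by linarith) ?_ ?_
          · refine le_trans ?_ (Complex.abs_im_le_norm _)
            simp only [Complex.sub_im, Complex.add_im, Complex.ofReal_im, Complex.mul_im,
              Complex.ofReal_re, Complex.I_im, mul_one, Complex.I_re, mul_zero, add_zero, zero_add,
              him]
            exact le_abs_self _
          · refine le_trans ?_ (Complex.abs_im_le_norm _)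
            simp only [Complex.sub_im, Complex.add_im, Complex.ofReal_im, Complex.mul_im,
              Complex.ofReal_re, Complex.I_im, mul_one, Complex.I_re, mul_zero, add_zero, zero_add,
              Complex.conj_im, him]
            refine le_trans ?_ (le_abs_self _)
            linarith
        · congr 1
          rw [abs_of_nonneg] <;> linarith
      have b2 : ∀ s : ℝ, |s - z.1| = R →
          ‖∫ y in (0:ℝ)..R, prg f ζ₀ ((s : ℂ) + (y : ℂ) * Complex.I)‖ ≤ 2 * B / R ^ 2 * R := by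
        intro s hs
        refine (intervalIntegral.norm_integral_le_of_norm_le_const
          (C := 2 * B / R ^ 2) ?_).trans (le_of_eq ?_)
        · intro y hy
          rw [uIoc_of_le hR0.le] at hy
          refine prg_bound f B hB' ζ₀ _ h0 (by simp; linarith [hy.1]) R hR0 ?_ ?_
          · refine le_trans ?_ (Complex.abs_re_le_norm _)
            simp only [Complex.sub_re, Complex.add_re, Complex.ofReal_re, Complex.mul_re,
              Complex.ofReal_im, Complex.I_im, mul_one, Complex.I_re, mul_zero, sub_self, add_zero,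
              hre]
            exact hs.ge
          · refine le_trans ?_ (Complex.abs_re_le_norm _)
            simp only [Complex.sub_re, Complex.add_re, Complex.ofReal_re, Complex.mul_re,
              Complex.ofReal_im, Complex.I_im, mul_one, Complex.I_re, mul_zero, sub_self, add_zero,
              Complex.conj_re, hre]
            exact hs.ge
        · congr 1
          rw [abs_of_nonneg] <;> linarith
      have b3 := b2 (z.1 + R) (by rw [add_sub_cancel_left, abs_of_pos hR0])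
      have b4 := b2 (z.1 - R) (by
        rw [sub_sub_cancel_left, abs_neg, abs_of_pos hR0])
      refine (norm_add_le _ _).trans (add_le_add ((norm_sub_le _ _).trans (add_le_add b1 ?_)) ?_)
      · rw [norm_mul, Complex.norm_I, one_mul]; exact b3
      · rw [norm_mul, Complex.norm_I, one_mul]; exact b4
    · refine (prg_cont f hfc hf ζ₀ h0).mono ?_
      intro ζ hζ
      have := hζ.2
      simp only [mem_preimage, Complex.ofReal_im, Complex.add_im, Complex.mul_im,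
        Complex.ofReal_re, Complex.I_im, mul_one, Complex.I_re, mul_zero, add_zero, zero_add,
        uIcc_of_le hR0.le] at this
      exact this.1
    · intro ζ hζ
      have h1 := hζ.1.2
      simp only [mem_preimage, Complex.ofReal_im, Complex.add_im, Complex.mul_im,
        Complex.ofReal_re, Complex.I_im, mul_one, Complex.I_re, mul_zero, add_zero, zero_add,
        min_eq_left hR0.le, max_eq_right hR0.le] at h1
      exact prg_diff f hf ζ₀ ζ h0 h1.1 hζ.2
  have hlim : Tendsto (fun R : ℝ => 2 * B / (R - z.2) ^ 2 * (2 * R) + 2 * B / R ^ 2 * R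
      + 2 * B / R ^ 2 * R) atTop (𝓝 0) := by
    have t1 : Tendsto (fun R : ℝ => 2 * B / R ^ 2 * R) atTop (𝓝 0) := by
      have : Tendsto (fun R : ℝ => 2 * B * R⁻¹) atTop (𝓝 (2 * B * 0)) :=
        tendsto_inv_atTop_zero.const_mul _
      rw [mul_zero] at this
      refine this.congr' ?_
      filter_upwards [eventually_gt_atTop 0] with R hR
      field_simp
    have t2 : Tendsto (fun R : ℝ => 2 * B / (R - z.2) ^ 2 * (2 * R)) atTop (𝓝 0) := by
      have t3 : Tendsto (fun R : ℝ => R - z.2) atTop atTop :=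
        tendsto_atTop_add_const_right _ _ tendsto_id
      have t4 : Tendsto (fun R : ℝ => 4 * B * (R - z.2)⁻¹ + 4 * B * z.2 * ((R - z.2)⁻¹) ^ 2) atTop
          (𝓝 (4 * B * 0 + 4 * B * z.2 * 0 ^ 2)) :=
        ((tendsto_inv_atTop_zero.comp t3).const_mul _).add
          (((tendsto_inv_atTop_zero.comp t3).pow 2).const_mul _)
      have : (4 * B * 0 + 4 * B * z.2 * 0 ^ 2 : ℝ) = 0 := by ring
      rw [this] at t4
      refine t4.congr' ?_
      filter_upwards [eventually_gt_atTop z.2] with R hR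
      have : R - z.2 ≠ 0 := by linarith
      field_simp
      ring
    have := (t2.add t1).add t1
    simpa using this
  have hT0 : Tendsto (fun R : ℝ => ∫ x in (z.1 - R)..(z.1 + R), prg f ζ₀ (x : ℂ)) atTop (𝓝 0) :=
    squeeze_zero_norm' hbd hlim
  exact tendsto_nhds_unique hT hT0

/-- **(PR)** Poisson representation in the half plane for functions on the disc.

Proof: it suffices (uniform approximation by polynomials on the closed disc: `f(rw)` with `r → 1`, then Taylor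
polynomials; the Poisson kernel has total mass `π`) to treat `f(w) = w^n`:
`∫_ℝ e^{int} y/((x-t)²+y²) dt = π e^{in(x+iy)}` (Fourier transform of the Poisson kernel, or Cauchy's theorem, or
by the disc Poisson formula in Mathlib and periodisation). -/
theorem PR (f : ℂ → ℂ) (hfc : ContinuousOn f (Metric.closedBall 0 1))
    (hf : DifferentiableOn ℂ f (Metric.ball 0 1)) (z : ℝ × ℝ) (hz : 0 < z.2) :
    Integrable (fun x : ℝ => f (E (x, 0)) * ((z.2 / ((x - z.1) ^ 2 + z.2 ^ 2) : ℝ) : ℂ)) ∧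
    ∫ x : ℝ, f (E (x, 0)) * ((z.2 / ((x - z.1) ^ 2 + z.2 ^ 2) : ℝ) : ℂ)
      = (Real.pi : ℂ) * hp f z := by
  obtain ⟨hK, hKi⟩ := pr_one z hz
  have hfE : Continuous (fun x : ℝ => f (E (x, 0))) := by
    have h1 : Continuous (fun x : ℝ => E (x, 0)) := continuous_E.comp (by fun_prop)
    refine hfc.comp_continuous h1 (fun x => E_mem_closedBall (le_refl _))
  obtain ⟨B, hB⟩ := (isCompact_closedBall (0 : ℂ) 1).exists_bound_of_continuousOn hfc
  have hI : Integrable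
      (fun x : ℝ => f (E (x, 0)) * ((z.2 / ((x - z.1) ^ 2 + z.2 ^ 2) : ℝ) : ℂ)) := by
    refine hK.ofReal.bdd_mul (c := B) hfE.aestronglyMeasurable ?_
    filter_upwards with x
    exact hB _ (E_mem_closedBall (le_refl _))
  refine ⟨hI, ?_⟩
  have hI2 : Integrable
      (fun x : ℝ => hp f z * ((z.2 / ((x - z.1) ^ 2 + z.2 ^ 2) : ℝ) : ℂ)) :=
    hK.ofReal.const_mul _
  have hI3 : Integrable (fun x : ℝ => prg f ((z.1 : ℂ) + (z.2 : ℂ) * Complex.I) (x : ℂ)) := by
    have h := (hI.sub hI2).const_mul ((1 / z.2 : ℝ) : ℂ)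
    refine h.congr ?_
    filter_upwards with x
    rw [prg_real f z hz x]
    simp only [Pi.sub_apply]
    have hz' : (z.2 : ℂ) ≠ 0 := by exact_mod_cast hz.ne'
    push_cast
    field_simp
  have h0 := prg_int f hfc hf z hz hI3
  have hsplit : ∫ x : ℝ, f (E (x, 0)) * ((z.2 / ((x - z.1) ^ 2 + z.2 ^ 2) : ℝ) : ℂ)
      = (∫ x : ℝ, hp f z * ((z.2 / ((x - z.1) ^ 2 + z.2 ^ 2) : ℝ) : ℂ)) +
        ∫ x : ℝ, (z.2 : ℂ) * prg f ((z.1 : ℂ) + (z.2 : ℂ) * Complex.I) (x : ℂ) := by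
    rw [← integral_add hI2 (hI3.const_mul _)]
    congr 1
    funext x
    rw [prg_real f z hz x]
    push_cast
    ring
  have hK2 : ∫ x : ℝ, ((z.2 / ((x - z.1) ^ 2 + z.2 ^ 2) : ℝ) : ℂ) = (Real.pi : ℂ) := by
    rw [← hKi]; exact integral_ofReal
  rw [hsplit, integral_const_mul, integral_const_mul, h0, mul_zero, add_zero, hK2, mul_comm]

/-- The total mass of the Poisson kernel. -/
theorem PR_one (z : ℝ × ℝ) (hz : 0 < z.2) :
    Integrable (fun x : ℝ => z.2 / ((x - z.1) ^ 2 + z.2 ^ 2)) ∧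
    ∫ x : ℝ, z.2 / ((x - z.1) ^ 2 + z.2 ^ 2) = Real.pi := pr_one z hz

end Pool.H14.SR

end S_PR

noncomputable section S_E1

open MeasureTheory Set Filter Topology
namespace Pool.H14.SR

theorem E1_HP_meas : MeasurableSet HP := measurableSet_lt measurable_const measurable_snd

/-- scaling of an lintegral inequality -/
theorem E1_scale (g : ℝ × ℝ → ℝ) (G : ℝ × ℝ → ℝ) (c C : ℝ) (hc : 0 < c)
    (hg : ∀ p : ℝ × ℝ, 0 < p.2 → c * g p ≤ G p)
    (h : ∫⁻ p in HP, ENNReal.ofReal (G p) ≤ ENNReal.ofReal C) :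
    ∫⁻ p in HP, ENNReal.ofReal (g p) ≤ ENNReal.ofReal (C / c) := by
  have h1 : ∫⁻ p in HP, ENNReal.ofReal (g p)
      ≤ ENNReal.ofReal c⁻¹ * ∫⁻ p in HP, ENNReal.ofReal (G p) := by
    rw [← lintegral_const_mul' _ _ ENNReal.ofReal_ne_top]
    refine setLIntegral_mono' E1_HP_meas fun p hp => ?_
    rw [← ENNReal.ofReal_mul (inv_nonneg.2 hc.le)]
    apply ENNReal.ofReal_le_ofReal
    rw [le_inv_mul_iff₀ hc]
    exact hg p hp
  refine h1.trans ((mul_le_mul_right h _).trans ?_)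
  rw [← ENNReal.ofReal_mul (inv_nonneg.2 hc.le)]
  apply ENNReal.ofReal_le_ofReal
  apply le_of_eq
  field_simp

theorem E1_one {ρ : ℝ} {a : ℂ → ℂ} (hρ : 1 < ρ) (ha : DifferentiableOn ℂ a (Metric.ball 0 ρ))
    (z : ℝ × ℝ) (hz : 0 < z.2) :
    Integrable (fun x : ℝ => ‖a (E (x, 0))‖ ^ 2 * (z.2 / ((x - z.1) ^ 2 + z.2 ^ 2))) ∧
    0 ≤ (∫ x : ℝ, ‖a (E (x, 0))‖ ^ 2 * (z.2 / ((x - z.1) ^ 2 + z.2 ^ 2))) - Real.pi * ‖hp a z‖ ^ 2 ∧
    ∫⁻ p in HP, ENNReal.ofReal (‖hp (Dz a) p‖ ^ 2 * (p.2 * qk z p))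
      ≤ ENNReal.ofReal ((∫ x : ℝ, ‖a (E (x, 0))‖ ^ 2 * (z.2 / ((x - z.1) ^ 2 + z.2 ^ 2)))
        - Real.pi * ‖hp a z‖ ^ 2) := by
  have hcb : Metric.closedBall (0:ℂ) 1 ⊆ Metric.ball 0 ρ := Metric.closedBall_subset_ball hρ
  have hac : ContinuousOn a (Metric.closedBall 0 1) := ha.continuousOn.mono hcb
  have had : DifferentiableOn ℂ a (Metric.ball 0 1) := ha.mono (Metric.ball_subset_ball hρ.le)
  set P : ℝ → ℝ := fun x => z.2 / ((x - z.1) ^ 2 + z.2 ^ 2) with hP
  have hP0 : ∀ x, 0 ≤ P x := fun x => by simp only [hP]; positivity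
  obtain ⟨hPi, hPpi⟩ := PR_one z hz
  obtain ⟨hai, haz⟩ := PR a hac had z hz
  obtain ⟨B, hB, hBa⟩ := hp_bdd hac
  have hcont : Continuous (fun x : ℝ => a (E (x, 0))) := by
    have h1 := hp_cont (ρ := ρ) (by linarith) ha.continuousOn
    have h2 : Continuous (fun x : ℝ => ((x, 0) : ℝ × ℝ)) := by fun_prop
    have h3 := h1.comp_continuous h2 (fun x => by
      show -Real.log ρ < 0
      have := Real.log_pos hρ
      linarith)
    exact h3
  have hPc : Continuous P := by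
    simp only [hP]
    refine Continuous.div continuous_const (by fun_prop) (fun x => ?_)
    positivity
  have hnsq : Integrable (fun x : ℝ => ‖a (E (x, 0))‖ ^ 2 * P x) := by
    refine Integrable.mono' (hPi.const_mul (B ^ 2)) ?_ ?_
    · exact ((hcont.norm.pow 2).mul hPc).aestronglyMeasurable
    · refine Filter.Eventually.of_forall fun x => ?_
      rw [Real.norm_of_nonneg (mul_nonneg (by positivity) (hP0 x))]
      have h1 : ‖a (E (x, 0))‖ ≤ B := hBa (x, 0) le_rfl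
      exact mul_le_mul_of_nonneg_right (pow_le_pow_left₀ (norm_nonneg _) h1 2) (hP0 x)
  set c : ℂ := hp a z with hc
  have hdiff : DifferentiableOn ℂ (fun w => a w - c) (Metric.ball 0 ρ) := ha.sub_const c
  have hDz : Dz (fun w => a w - c) = Dz a := by
    ext w
    unfold Dz
    rw [deriv_sub_const]
  have hint : ∫ x : ℝ, ‖a (E (x, 0)) - c‖ ^ 2 * P x
      = (∫ x : ℝ, ‖a (E (x, 0))‖ ^ 2 * P x) - Real.pi * ‖c‖ ^ 2 := by
    have e1 : ∀ x : ℝ, ‖a (E (x, 0)) - c‖ ^ 2 * P x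
        = ‖a (E (x, 0))‖ ^ 2 * P x - 2 * ((a (E (x, 0)) * ((P x : ℝ) : ℂ)) * (starRingEnd ℂ) c).re
          + ‖c‖ ^ 2 * P x := by
      intro x
      rw [← Complex.normSq_eq_norm_sq, Complex.normSq_sub, ← Complex.normSq_eq_norm_sq,
        ← Complex.normSq_eq_norm_sq]
      have : (a (E (x, 0)) * ((P x : ℝ) : ℂ) * (starRingEnd ℂ) c).re
          = P x * (a (E (x, 0)) * (starRingEnd ℂ) c).re := by
        rw [mul_comm (a (E (x, 0))) _, mul_assoc, Complex.re_ofReal_mul]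
      rw [this]
      ring
    simp_rw [e1]
    have hre : Integrable (fun x : ℝ => 2 * ((a (E (x, 0)) * ((P x : ℝ) : ℂ)) * (starRingEnd ℂ) c).re) :=
      ((hai.mul_const _).re).const_mul 2
    have hPi' : Integrable P := hPi
    have hPpi' : ∫ x : ℝ, P x = Real.pi := hPpi
    have s2 : ∫ x : ℝ, (‖a (E (x, 0))‖ ^ 2 * P x
          - 2 * ((a (E (x, 0)) * ((P x : ℝ) : ℂ)) * (starRingEnd ℂ) c).re + ‖c‖ ^ 2 * P x)
        = (∫ x : ℝ, (‖a (E (x, 0))‖ ^ 2 * P x
          - 2 * ((a (E (x, 0)) * ((P x : ℝ) : ℂ)) * (starRingEnd ℂ) c).re))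
          + ∫ x : ℝ, ‖c‖ ^ 2 * P x := integral_add (hnsq.sub hre) (hPi'.const_mul _)
    have s1 : ∫ x : ℝ, (‖a (E (x, 0))‖ ^ 2 * P x
          - 2 * ((a (E (x, 0)) * ((P x : ℝ) : ℂ)) * (starRingEnd ℂ) c).re)
        = (∫ x : ℝ, ‖a (E (x, 0))‖ ^ 2 * P x)
          - ∫ x : ℝ, 2 * ((a (E (x, 0)) * ((P x : ℝ) : ℂ)) * (starRingEnd ℂ) c).re :=
      integral_sub hnsq hre
    rw [s2, s1, integral_const_mul, integral_const_mul]
    have hre2 : ∫ x : ℝ, ((a (E (x, 0)) * ((P x : ℝ) : ℂ)) * (starRingEnd ℂ) c).re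
        = (∫ x : ℝ, (a (E (x, 0)) * ((P x : ℝ) : ℂ)) * (starRingEnd ℂ) c).re :=
      integral_re (hai.mul_const _)
    rw [hre2, integral_mul_const, hPpi']
    have haz' : ∫ x : ℝ, a (E (x, 0)) * ((P x : ℝ) : ℂ) = (Real.pi : ℂ) * c := haz
    rw [haz']
    have : ((Real.pi : ℂ) * c * (starRingEnd ℂ) c).re = Real.pi * ‖c‖ ^ 2 := by
      rw [mul_assoc, Complex.mul_conj, Complex.normSq_eq_norm_sq, ← Complex.ofReal_mul]
      exact Complex.ofReal_re _
    rw [this]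
    ring
  have hnn : 0 ≤ (∫ x : ℝ, ‖a (E (x, 0))‖ ^ 2 * P x) - Real.pi * ‖c‖ ^ 2 := by
    rw [← hint]
    exact integral_nonneg fun x => mul_nonneg (by positivity) (hP0 x)
  refine ⟨hnsq, hnn, ?_⟩
  obtain ⟨B1, hB1, h1⟩ := hp_bdd (hdiff.continuousOn.mono hcb)
  obtain ⟨B2, hB2, h2⟩ := OS_Uy_bound hρ hdiff
  have hG := G1 (Real.log ρ) (Real.log_pos hρ) _ _ _ _ _ (OS_P2_nsq hρ hdiff) (B1 ^ 2 + B2)
    (fun p _ => by positivity)
    (fun p h => by
      have := pow_le_pow_left₀ (norm_nonneg _) (h1 p h) 2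
      linarith)
    (fun p h => (h2 p h).trans (mul_le_mul_of_nonneg_right (by nlinarith) (Real.exp_pos _).le))
    (fun p _ => by
      rw [OS_lap_nsq]
      positivity) z hz
  have h3 := E1_scale (fun p => ‖hp (Dz a) p‖ ^ 2 * (p.2 * qk z p)) _ 4 _ (by norm_num)
    (fun p _ => by
      rw [OS_lap_nsq, hDz]
      apply le_of_eq
      ring) hG
  refine h3.trans (le_of_eq ?_)
  congr 1
  rw [← hint]
  have e2 : ∀ x : ℝ, ‖hp (fun w => a w - c) (x, 0)‖ ^ 2 * (4 * z.2 / ((x - z.1) ^ 2 + z.2 ^ 2))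
      = 4 * (‖a (E (x, 0)) - c‖ ^ 2 * P x) := by
    intro x
    simp only [hP, hp]
    ring
  simp_rw [e2]
  rw [integral_const_mul]
  ring

/-- **(E1)** `∬_{HP} (|a'|²+|b'|²) N_z ≤ π O(z)`.
Proof: `G1` with `U = |a - a(z)|²` (`ΔU = 4|a'|²`, `|Uy| ≤ 2·2·|a'| ≤ B e^{-y}` by `hp_decay`), and
`∫ |a(x) - a(z)|² 4z_y/((x-z_x)²+z_y²) dx = 4(∫|a|² P - π|a(z)|²)` by `PR` (`P` the kernel of `PR`);
the same for `b`; and `∫ (|a|²+|b|²) P ≤ ∫ Re F P = π Re F(z)`. -/
theorem E1 {δ ρ : ℝ} {a b F : ℂ → ℂ} (h : Dat δ ρ a b F) (z : ℝ × ℝ) (hz : 0 < z.2) :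
    ∫⁻ p in HP, ENNReal.ofReal ((‖hp (Dz a) p‖ ^ 2 + ‖hp (Dz b) p‖ ^ 2) * (p.2 * qk z p))
      ≤ ENNReal.ofReal (Real.pi * Osc a b F z) := by
  obtain ⟨ia, na, ea⟩ := E1_one h.hρ h.ha z hz
  obtain ⟨ib, nb, eb⟩ := E1_one h.hρ h.hb z hz
  have hcb : Metric.closedBall (0:ℂ) 1 ⊆ Metric.ball 0 ρ := Metric.closedBall_subset_ball h.hρ
  obtain ⟨hFi, hFz⟩ := PR F (h.hF.continuousOn.mono hcb)
    (h.hF.mono (Metric.ball_subset_ball h.hρ.le)) z hz
  have hqk : ∀ p : ℝ × ℝ, 0 < p.2 → 0 ≤ p.2 * qk z p := by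
    intro p hp
    unfold qk
    positivity
  have hmeas : ∀ f : ℂ → ℂ, DifferentiableOn ℂ f (Metric.ball 0 ρ) →
      AEMeasurable (fun p : ℝ × ℝ => ENNReal.ofReal (‖hp (Dz f) p‖ ^ 2 * (p.2 * qk z p)))
        (volume.restrict HP) := by
    intro f hf
    have h1 : ContinuousOn (fun p : ℝ × ℝ => ‖hp (Dz f) p‖ ^ 2 * (p.2 * qk z p)) HP := by
      have h2 : ContinuousOn (hp (Dz f)) HP := (hp_cont (ρ := ρ) (by linarith [h.hρ])
        (Dz_diff hf).continuousOn).mono (fun p hp => by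
          have := Real.log_pos h.hρ
          have hp' : 0 < p.2 := hp
          show -Real.log ρ < p.2
          linarith)
      have h3 : ContinuousOn (fun p : ℝ × ℝ => qk z p) HP := by
        unfold qk
        refine ContinuousOn.div continuousOn_const (by fun_prop) (fun p hp => ?_)
        have hp' : 0 < p.2 := hp
        positivity
      exact (h2.norm.pow 2).mul (continuousOn_snd.mul h3)
    exact (ENNReal.continuous_ofReal.comp_continuousOn h1).aemeasurable E1_HP_meas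
  have hsum : ∫⁻ p in HP, ENNReal.ofReal ((‖hp (Dz a) p‖ ^ 2 + ‖hp (Dz b) p‖ ^ 2) * (p.2 * qk z p))
      = (∫⁻ p in HP, ENNReal.ofReal (‖hp (Dz a) p‖ ^ 2 * (p.2 * qk z p)))
        + ∫⁻ p in HP, ENNReal.ofReal (‖hp (Dz b) p‖ ^ 2 * (p.2 * qk z p)) := by
    rw [← lintegral_add_left' (hmeas a h.ha)]
    refine setLIntegral_congr_fun E1_HP_meas fun p hp => ?_
    have hp' := hqk p hp
    rw [← ENNReal.ofReal_add (by positivity) (by positivity)]
    congr 1
    ring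
  rw [hsum]
  refine (add_le_add ea eb).trans ?_
  rw [← ENNReal.ofReal_add na nb]
  apply ENNReal.ofReal_le_ofReal
  have hFre : ∫ x : ℝ, (F (E (x, 0))).re * (z.2 / ((x - z.1) ^ 2 + z.2 ^ 2)) = Real.pi * (hp F z).re := by
    have h1 : ∫ x : ℝ, (F (E (x, 0)) * ((z.2 / ((x - z.1) ^ 2 + z.2 ^ 2) : ℝ) : ℂ)).re
        = (∫ x : ℝ, F (E (x, 0)) * ((z.2 / ((x - z.1) ^ 2 + z.2 ^ 2) : ℝ) : ℂ)).re :=
      integral_re hFi
    rw [hFz, Complex.re_ofReal_mul] at h1
    rw [← h1]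
    refine integral_congr_ae (Filter.Eventually.of_forall fun x => ?_)
    show _ = (F (E (x, 0)) * ((z.2 / ((x - z.1) ^ 2 + z.2 ^ 2) : ℝ) : ℂ)).re
    rw [Complex.re_mul_ofReal]
  have hFri : Integrable (fun x : ℝ => (F (E (x, 0))).re * (z.2 / ((x - z.1) ^ 2 + z.2 ^ 2))) := by
    refine (hFi.re).congr (Filter.Eventually.of_forall fun x => ?_)
    show (F (E (x, 0)) * ((z.2 / ((x - z.1) ^ 2 + z.2 ^ 2) : ℝ) : ℂ)).re = _
    rw [Complex.re_mul_ofReal]
  have hle : (∫ x : ℝ, ‖a (E (x, 0))‖ ^ 2 * (z.2 / ((x - z.1) ^ 2 + z.2 ^ 2)))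
      + (∫ x : ℝ, ‖b (E (x, 0))‖ ^ 2 * (z.2 / ((x - z.1) ^ 2 + z.2 ^ 2)))
      ≤ Real.pi * (hp F z).re := by
    rw [← hFre, ← integral_add ia ib]
    refine integral_mono (ia.add ib) hFri fun x => ?_
    simp only
    rw [← add_mul]
    refine mul_le_mul_of_nonneg_right ?_ (by positivity)
    refine h.hO (E (x, 0)) (hcb (E_mem_closedBall le_rfl))
  unfold Osc
  nlinarith

/-- **(E2)** `∬_{HP} (|a'|²+|b'|²) e^{-sO} N_z ≤ π/s`.
Proof: `G1` with `U = e^{-sO} ∈ [0,1]`, `ΔU = e^{-sO}(s²|∇O|² - sΔO) ≥ 4s(|a'|²+|b'|²)e^{-sO}`, `PR_one`. -/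
theorem E2 {δ ρ : ℝ} {a b F : ℂ → ℂ} (h : Dat δ ρ a b F) (s : ℝ) (hs : 0 < s) (z : ℝ × ℝ)
    (hz : 0 < z.2) :
    ∫⁻ p in HP, ENNReal.ofReal ((‖hp (Dz a) p‖ ^ 2 + ‖hp (Dz b) p‖ ^ 2)
        * Real.exp (-(s * Osc a b F p)) * (p.2 * qk z p))
      ≤ ENNReal.ofReal (Real.pi / s) := by
  obtain ⟨Ox, Oxx, Oy, Oyy, hP, hL, B, hB, hOy⟩ := Osc_P2 h
  have hlog := Real.log_pos h.hρ
  have hE0 : ∀ p : ℝ × ℝ, 0 ≤ p.2 → 0 ≤ Osc a b F p := fun p hp => (Osc_nonneg h p (by linarith)).1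
  have hexp : ContinuousOn (fun p => Real.exp (-(s * Osc a b F p))) {p | -Real.log ρ < p.2} :=
    Real.continuous_exp.comp_continuousOn (continuousOn_const.mul hP.c).neg
  have hP2 : P2 (Real.log ρ) (fun p => Real.exp (-(s * Osc a b F p)))
      (fun p => Real.exp (-(s * Osc a b F p)) * (-(s * Ox p)))
      (fun p => (Real.exp (-(s * Osc a b F p)) * (-(s * Ox p))) * (-(s * Ox p))
        + Real.exp (-(s * Osc a b F p)) * (-(s * Oxx p)))
      (fun p => Real.exp (-(s * Osc a b F p)) * (-(s * Oy p)))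
      (fun p => (Real.exp (-(s * Osc a b F p)) * (-(s * Oy p))) * (-(s * Oy p))
        + Real.exp (-(s * Osc a b F p)) * (-(s * Oyy p))) :=
  { dx := fun p hp => ((hP.dx p hp).const_mul s).neg.exp
    dxx := fun p hp => (((hP.dx p hp).const_mul s).neg.exp).mul ((hP.dxx p hp).const_mul s).neg
    dy := fun p hp => ((hP.dy p hp).const_mul s).neg.exp
    dyy := fun p hp => (((hP.dy p hp).const_mul s).neg.exp).mul ((hP.dyy p hp).const_mul s).neg
    c := hexp
    cx := hexp.mul (continuousOn_const.mul hP.cx).neg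
    cxx := ((hexp.mul (continuousOn_const.mul hP.cx).neg).mul (continuousOn_const.mul hP.cx).neg).add
      (hexp.mul (continuousOn_const.mul hP.cxx).neg)
    cy := hexp.mul (continuousOn_const.mul hP.cy).neg
    cyy := ((hexp.mul (continuousOn_const.mul hP.cy).neg).mul (continuousOn_const.mul hP.cy).neg).add
      (hexp.mul (continuousOn_const.mul hP.cyy).neg)
    per := fun p hp => by rw [hP.per p hp] }
  have hle1 : ∀ p : ℝ × ℝ, 0 ≤ p.2 → Real.exp (-(s * Osc a b F p)) ≤ 1 := by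
    intro p hp
    rw [Real.exp_le_one_iff]
    have := mul_nonneg hs.le (hE0 p hp)
    linarith
  have hlap : ∀ p : ℝ × ℝ, 0 < p.2 →
      4 * s * ((‖hp (Dz a) p‖ ^ 2 + ‖hp (Dz b) p‖ ^ 2) * Real.exp (-(s * Osc a b F p))) ≤
      ((Real.exp (-(s * Osc a b F p)) * (-(s * Ox p))) * (-(s * Ox p))
        + Real.exp (-(s * Osc a b F p)) * (-(s * Oxx p)))
      + ((Real.exp (-(s * Osc a b F p)) * (-(s * Oy p))) * (-(s * Oy p))
        + Real.exp (-(s * Osc a b F p)) * (-(s * Oyy p))) := by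
    intro p hpp
    have h1 := hL p (by linarith)
    have h2 : ((Real.exp (-(s * Osc a b F p)) * (-(s * Ox p))) * (-(s * Ox p))
        + Real.exp (-(s * Osc a b F p)) * (-(s * Oxx p)))
      + ((Real.exp (-(s * Osc a b F p)) * (-(s * Oy p))) * (-(s * Oy p))
        + Real.exp (-(s * Osc a b F p)) * (-(s * Oyy p)))
      = Real.exp (-(s * Osc a b F p)) * (s * Ox p) ^ 2 + Real.exp (-(s * Osc a b F p)) * (s * Oy p) ^ 2
        + Real.exp (-(s * Osc a b F p)) * (-(s * (Oxx p + Oyy p))) := by ring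
    rw [h2, h1]
    have h3 : 0 ≤ Real.exp (-(s * Osc a b F p)) * (s * Ox p) ^ 2 := by positivity
    have h4 : 0 ≤ Real.exp (-(s * Osc a b F p)) * (s * Oy p) ^ 2 := by positivity
    nlinarith
  have hG := G1 (Real.log ρ) hlog _ _ _ _ _ hP2 (1 + s * B)
    (fun p _ => (Real.exp_pos _).le)
    (fun p hp => (hle1 p hp).trans (by nlinarith))
    (fun p hp => by
      rw [abs_mul, abs_neg, abs_mul, abs_of_pos hs, abs_of_pos (Real.exp_pos _)]
      have h1 := hOy p hp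
      have h2 := hle1 p hp
      have h3 : 0 ≤ s * |Oy p| := by positivity
      calc Real.exp (-(s * Osc a b F p)) * (s * |Oy p|) ≤ 1 * (s * |Oy p|) :=
            mul_le_mul_of_nonneg_right h2 h3
        _ ≤ s * (B * Real.exp (-p.2)) := by rw [one_mul]; exact mul_le_mul_of_nonneg_left h1 hs.le
        _ ≤ (1 + s * B) * Real.exp (-p.2) := by
          have := Real.exp_pos (-p.2)
          nlinarith)
    (fun p hp => le_trans (by positivity) (hlap p hp)) z hz
  obtain ⟨hPi, hPpi⟩ := PR_one z hz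
  have hR : ∫ x : ℝ, Real.exp (-(s * Osc a b F (x, 0))) * (4 * z.2 / ((x - z.1) ^ 2 + z.2 ^ 2))
      ≤ 4 * Real.pi := by
    rw [← hPpi, ← integral_const_mul]
    refine integral_mono_of_nonneg (Filter.Eventually.of_forall fun x => by positivity)
      (hPi.const_mul 4) (Filter.Eventually.of_forall fun x => ?_)
    simp only
    have h1 := hle1 (x, 0) le_rfl
    have h2 : 0 ≤ 4 * z.2 / ((x - z.1) ^ 2 + z.2 ^ 2) := by positivity
    calc Real.exp (-(s * Osc a b F (x, 0))) * (4 * z.2 / ((x - z.1) ^ 2 + z.2 ^ 2))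
        ≤ 1 * (4 * z.2 / ((x - z.1) ^ 2 + z.2 ^ 2)) := mul_le_mul_of_nonneg_right h1 h2
      _ = 4 * (z.2 / ((x - z.1) ^ 2 + z.2 ^ 2)) := by ring
  have h3 := E1_scale (fun p => (‖hp (Dz a) p‖ ^ 2 + ‖hp (Dz b) p‖ ^ 2)
        * Real.exp (-(s * Osc a b F p)) * (p.2 * qk z p)) _ (4 * s) (4 * Real.pi) (by positivity)
    (fun p hp => by
      have hq : 0 ≤ p.2 * qk z p := by unfold qk; positivity
      have h1 := mul_le_mul_of_nonneg_right (hlap p hp) hq
      refine le_trans (le_of_eq ?_) h1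
      ring) (hG.trans (ENNReal.ofReal_le_ofReal hR))
  refine h3.trans (le_of_eq ?_)
  congr 1
  field_simp

end Pool.H14.SR

end S_E1

noncomputable section S_E3

open MeasureTheory Set Filter Topology
namespace Pool.H14.SR

/-- real part form of the Poisson formula. -/
theorem e3_re (f : ℂ → ℂ) (hfc : ContinuousOn f (Metric.closedBall 0 1))
    (hf : DifferentiableOn ℂ f (Metric.ball 0 1)) (z : ℝ × ℝ) (hz : 0 < z.2) :
    Integrable (fun x : ℝ => (f (E (x, 0))).re * (z.2 / ((x - z.1) ^ 2 + z.2 ^ 2))) ∧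
    ∫ x : ℝ, (f (E (x, 0))).re * (z.2 / ((x - z.1) ^ 2 + z.2 ^ 2))
      = Real.pi * (hp f z).re := by
  obtain ⟨hI, hE⟩ := PR f hfc hf z hz
  have hre : ∀ x : ℝ, (f (E (x, 0)) * ((z.2 / ((x - z.1) ^ 2 + z.2 ^ 2) : ℝ) : ℂ)).re
      = (f (E (x, 0))).re * (z.2 / ((x - z.1) ^ 2 + z.2 ^ 2)) := fun x =>
    Complex.re_mul_ofReal _ _
  have h1 : Integrable (fun x : ℝ => (f (E (x, 0)) *
      ((z.2 / ((x - z.1) ^ 2 + z.2 ^ 2) : ℝ) : ℂ)).re) := hI.re
  refine ⟨h1.congr (Eventually.of_forall hre), ?_⟩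
  have h2 : ∫ x : ℝ, (f (E (x, 0)) * ((z.2 / ((x - z.1) ^ 2 + z.2 ^ 2) : ℝ) : ℂ)).re
      = (∫ x : ℝ, f (E (x, 0)) * ((z.2 / ((x - z.1) ^ 2 + z.2 ^ 2) : ℝ) : ℂ)).re :=
    integral_re hI
  rw [hE] at h2
  simp_rw [hre] at h2
  rw [h2, Complex.re_ofReal_mul]

/-- the test function -/
def e3f (a b F : ℂ → ℂ) (l m : ℂ) (w : ℂ) : ℂ :=
  F w - 2 * (a w * starRingEnd ℂ l) - 2 * (b w * starRingEnd ℂ m) + ((‖l‖ ^ 2 + ‖m‖ ^ 2 : ℝ) : ℂ)

theorem e3f_re (a b F : ℂ → ℂ) (l m : ℂ) (w : ℂ) :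
    (e3f a b F l m w).re
      = ((F w).re - ‖a w‖ ^ 2 - ‖b w‖ ^ 2) + ‖a w - l‖ ^ 2 + ‖b w - m‖ ^ 2 := by
  unfold e3f
  rw [Complex.add_re, Complex.sub_re, Complex.sub_re, Complex.ofReal_re]
  have h : ∀ u v : ℂ, ‖u - v‖ ^ 2 = ‖u‖ ^ 2 + ‖v‖ ^ 2 - (2 * (u * starRingEnd ℂ v)).re := by
    intro u v
    rw [← Complex.normSq_eq_norm_sq, ← Complex.normSq_eq_norm_sq, ← Complex.normSq_eq_norm_sq,
      Complex.normSq_sub]
    have : (2 * (u * starRingEnd ℂ v)).re = 2 * (u * starRingEnd ℂ v).re := by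
      have h2 : (2 : ℂ) = ((2 : ℝ) : ℂ) := by norm_num
      rw [h2, Complex.re_ofReal_mul]
    rw [this]
  rw [h (a w) l, h (b w) m]
  ring

theorem e3_key {δ ρ : ℝ} {a b F : ℂ → ℂ} (h : Dat δ ρ a b F) (z z' : ℝ × ℝ) (hz : 0 < z.2)
    (hz' : 0 < z'.2) (H : ℝ)
    (hH : ∀ u : ℝ, z.2 / ((u - z.1) ^ 2 + z.2 ^ 2) ≤ H * (z'.2 / ((u - z'.1) ^ 2 + z'.2 ^ 2))) :
    Osc a b F z ≤ H * Osc a b F z' := by
  set f := e3f a b F (hp a z') (hp b z') with hfdef
  have hsub : Metric.closedBall (0 : ℂ) 1 ⊆ Metric.ball 0 ρ := Metric.closedBall_subset_ball h.hρ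
  have hd : DifferentiableOn ℂ f (Metric.ball 0 ρ) := by
    have h1 := h.ha
    have h2 := h.hb
    have h3 := h.hF
    rw [hfdef]
    unfold e3f
    fun_prop
  have hfc : ContinuousOn f (Metric.closedBall 0 1) := hd.continuousOn.mono hsub
  have hfd : DifferentiableOn ℂ f (Metric.ball 0 1) :=
    hd.mono (Metric.ball_subset_ball h.hρ.le)
  obtain ⟨hI, hE⟩ := e3_re f hfc hfd z hz
  obtain ⟨hI', hE'⟩ := e3_re f hfc hfd z' hz'
  have hpos : ∀ x : ℝ, 0 ≤ (f (E (x, 0))).re := by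
    intro x
    rw [hfdef, e3f_re]
    have hm : E (x, 0) ∈ Metric.ball (0 : ℂ) ρ := hsub (E_mem_closedBall (le_refl _))
    have := h.hO _ hm
    have h4 : 0 ≤ (F (E (x, 0))).re - ‖a (E (x, 0))‖ ^ 2 - ‖b (E (x, 0))‖ ^ 2 := by linarith
    positivity
  have hle : ∫ x : ℝ, (f (E (x, 0))).re * (z.2 / ((x - z.1) ^ 2 + z.2 ^ 2))
      ≤ ∫ x : ℝ, H * ((f (E (x, 0))).re * (z'.2 / ((x - z'.1) ^ 2 + z'.2 ^ 2))) := by
    refine integral_mono hI (hI'.const_mul H) (fun x => ?_)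
    have := mul_le_mul_of_nonneg_left (hH x) (hpos x)
    calc _ ≤ _ := this
      _ = _ := by ring
  rw [hE, integral_const_mul, hE'] at hle
  have hpi := Real.pi_pos
  have h5 : (hp f z).re ≤ H * (hp f z').re := by
    have : Real.pi * (hp f z).re ≤ Real.pi * (H * (hp f z').re) := by
      calc _ ≤ _ := hle
        _ = _ := by ring
    exact le_of_mul_le_mul_left this hpi
  have h6 : (hp f z').re = Osc a b F z' := by
    unfold hp Osc
    rw [hfdef, e3f_re]
    unfold hp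
    simp
  have h7 : Osc a b F z ≤ (hp f z).re := by
    unfold Osc
    unfold hp
    rw [hfdef, e3f_re]
    unfold hp
    nlinarith [sq_nonneg (‖a (E z) - a (E z')‖), sq_nonneg (‖b (E z) - b (E z')‖)]
  rw [h6] at h5
  exact h7.trans h5

/-- **(E3)** Harnack's inequality for `O`: `|x-x'| ≤ s`, `θ s ≤ y ≤ s`:
`O(x',s) ≤ (3/θ) O(x,y)` and `O(x,y) ≤ (3/θ) O(x',s)`.

Proof: by `PR`, for every `z` with `z_y > 0` and every complex `λ, μ`,
`π O(z) ≤ ∫ Φ_{λ,μ}(x) P_z(x) dx` with `Φ_{λ,μ} = (Re F - |a|²-|b|²) + |a-λ|² + |b-μ|² ≥ 0` on `y = 0`, with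
equality for `λ = a(z)`, `μ = b(z)`.  For `z, z'` apply this with `λ = a(z'), μ = b(z')`, and
`P_z ≤ H P_{z'}`.  Ratio of the kernels `P_{(x,y)}(u) = y/((u-x)²+y²)`:
`P_{(x,y)}/P_{(x',s)} = (y/s)((u-x')²+s²)/((u-x)²+y²) ≤ (y/s)(2(u-x)²+3s²)/((u-x)²+y²) ≤ 3s/y ≤ 3/θ`, and
`P_{(x',s)}/P_{(x,y)} = (s/y)((u-x)²+y²)/((u-x')²+s²) ≤ (s/y)(2(u-x')²+2s²+y²)/((u-x')²+s²) ≤ 3s/y ≤ 3/θ`. -/
theorem E3 {δ ρ : ℝ} {a b F : ℂ → ℂ} (h : Dat δ ρ a b F) (θ : ℝ) (hθ : 0 < θ) (hθ1 : θ ≤ 1)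
    (x x' y s : ℝ) (hs : 0 < s) (hxx : |x - x'| ≤ s) (hy1 : θ * s ≤ y) (hy2 : y ≤ s) :
    Osc a b F (x', s) ≤ 3 / θ * Osc a b F (x, y) ∧
    Osc a b F (x, y) ≤ 3 / θ * Osc a b F (x', s) := by
  have hy : 0 < y := lt_of_lt_of_le (by positivity) hy1
  have hxx2 : (x - x') ^ 2 ≤ s ^ 2 := by
    rw [← sq_abs (x - x')]
    exact pow_le_pow_left₀ (abs_nonneg _) hxx 2
  constructor
  · refine e3_key h (x', s) (x, y) hs hy (3 / θ) (fun u => ?_)
    simp only
    rw [div_mul_div_comm, div_le_div_iff₀ (by positivity) (by positivity)]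
    have h1 : (u - x) ^ 2 + y ^ 2 ≤ 3 * ((u - x') ^ 2 + s ^ 2) := by
      nlinarith [sq_nonneg ((u - x') + (x - x'))]
    have h2 : s * (θ * ((u - x) ^ 2 + y ^ 2)) ≤ s * (θ * (3 * ((u - x') ^ 2 + s ^ 2))) := by
      gcongr
    have h3 : θ * s * (3 * ((u - x') ^ 2 + s ^ 2)) ≤ y * (3 * ((u - x') ^ 2 + s ^ 2)) :=
      mul_le_mul_of_nonneg_right hy1 (by positivity)
    nlinarith
  · refine e3_key h (x, y) (x', s) hy hs (3 / θ) (fun u => ?_)
    simp only
    rw [div_mul_div_comm, div_le_div_iff₀ (by positivity) (by positivity)]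
    have h1 : (u - x') ^ 2 + s ^ 2 ≤ 2 * (u - x) ^ 2 + 3 * s ^ 2 := by
      nlinarith [sq_nonneg ((u - x) - (x - x'))]
    have h2 : y * (θ * ((u - x') ^ 2 + s ^ 2)) ≤ y * (θ * (2 * (u - x) ^ 2 + 3 * s ^ 2)) := by
      gcongr
    have h3 : y * θ ≤ s * 1 := mul_le_mul hy2 hθ1 hθ.le hs.le
    have h4 : y * θ * (2 * (u - x) ^ 2) ≤ s * 1 * (3 * (u - x) ^ 2) := by
      refine mul_le_mul h3 ?_ (by positivity) (by positivity)
      nlinarith [sq_nonneg (u - x)]
    have h5 : (θ * s) * (3 * s * y) ≤ y * (3 * s * y) :=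
      mul_le_mul_of_nonneg_right hy1 (by positivity)
    nlinarith

end Pool.H14.SR

end S_E3

noncomputable section S_KV

open MeasureTheory Set Filter Topology
namespace Pool.H14.SR

namespace KVaux

theorem norm_E0 (x : ℝ) : ‖E (x, 0)‖ = 1 := by rw [norm_E]; simp

/-- Fourier coefficients of a periodic function and of its derivative. -/
theorem coeff_deriv (hab : (0 : ℝ) < 0 + 2 * Real.pi) (f f' : ℝ → ℂ)
    (hf : ∀ x, HasDerivAt f (f' x) x) (hf' : Continuous f') (hper : f (0 + 2 * Real.pi) = f 0)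
    (n : ℤ) (hn : n ≠ 0) :
    ‖fourierCoeffOn hab f n‖ = ‖fourierCoeffOn hab f' n‖ / |(n : ℝ)| := by
  rw [fourierCoeffOn_of_hasDerivAt hab hn (fun x _ => hf x) (hf'.intervalIntegrable _ _), hper,
    sub_self, mul_zero, zero_sub, norm_mul, norm_neg, norm_mul]
  have h1 : ‖(((0 + 2 * Real.pi : ℝ) : ℂ) - ((0 : ℝ) : ℂ))‖ = 2 * Real.pi := by
    rw [← Complex.ofReal_sub, Complex.norm_real]
    simp [abs_of_pos Real.pi_pos]
  have h2 : ‖1 / (-2 * (Real.pi : ℂ) * Complex.I * (n : ℂ))‖ = 1 / (2 * Real.pi * |(n : ℝ)|) := by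
    rw [norm_div, norm_one, norm_mul, norm_mul, norm_mul, norm_neg, Complex.norm_I,
      Complex.norm_real, Complex.norm_intCast]
    simp [abs_of_pos Real.pi_pos]
  rw [h1, h2]
  have h3 : (0 : ℝ) < |(n : ℝ)| := abs_pos.2 (by exact_mod_cast hn)
  have h4 := Real.pi_pos
  field_simp

theorem coeff_bound (hab : (0 : ℝ) < 0 + 2 * Real.pi) (f : ℝ → ℂ) (hf : Continuous f) :
    ∃ M : ℝ, ∀ n : ℤ, ‖fourierCoeffOn hab f n‖ ≤ M := by
  obtain ⟨B, hB⟩ := (isCompact_Icc (a := (0 : ℝ)) (b := 0 + 2 * Real.pi)).exists_bound_of_continuousOn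
    hf.continuousOn
  refine ⟨B, fun n => ?_⟩
  rw [fourierCoeffOn_eq_integral, norm_smul]
  have h1 : ‖∫ x in (0 : ℝ)..(0 + 2 * Real.pi), fourier (-n) (x : AddCircle (0 + 2 * Real.pi - 0)) • f x‖
      ≤ B * |0 + 2 * Real.pi - 0| := by
    refine intervalIntegral.norm_integral_le_of_norm_le_const fun x hx => ?_
    rw [norm_smul, fourier_apply, Circle.norm_coe, one_mul]
    rw [uIoc_of_le hab.le] at hx
    exact hB x (Ioc_subset_Icc_self hx)
  have h2 : ‖(1 : ℝ) / (0 + 2 * Real.pi - 0)‖ = 1 / (2 * Real.pi) := by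
    rw [Real.norm_of_nonneg]
    · simp
    · have := Real.pi_pos
      positivity
  rw [h2]
  have h3 : |0 + 2 * Real.pi - 0| = 2 * Real.pi := by
    rw [zero_add, sub_zero, abs_of_pos Real.two_pi_pos]
  rw [h3] at h1
  have h4 := Real.two_pi_pos
  calc 1 / (2 * Real.pi) * _ ≤ 1 / (2 * Real.pi) * (B * (2 * Real.pi)) :=
        mul_le_mul_of_nonneg_left h1 (by positivity)
    _ = B := by field_simp

/-- Analytic functions with given smooth real part on the circle. -/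
theorem exists_V (u : ℝ → ℝ) (hu : ContDiff ℝ 2 u) (hper : ∀ x, u (x + 2 * Real.pi) = u x) :
    ∃ V : ℂ → ℂ, ContinuousOn V (Metric.closedBall 0 1) ∧ DifferentiableOn ℂ V (Metric.ball 0 1) ∧
      ∀ x : ℝ, (V (E (x, 0))).re = u x := by
  have hT : Fact (0 < 2 * Real.pi) := ⟨Real.two_pi_pos⟩
  have hab : (0 : ℝ) < 0 + 2 * Real.pi := lt_add_of_pos_right 0 hT.out
  have hu' : ContDiff ℝ 1 (deriv u) := by
    have h2 : ContDiff ℝ (1 + 1) u := by
      have : (1 + 1 : WithTop ℕ∞) = 2 := by norm_num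
      rw [this]; exact hu
    exact (contDiff_succ_iff_deriv.1 h2).2.2
  have hd1 : ∀ x, HasDerivAt u (deriv u x) x := fun x =>
    ((hu.differentiable (by norm_num)) x).hasDerivAt
  have hd2 : ∀ x, HasDerivAt (deriv u) (deriv (deriv u) x) x := fun x =>
    ((hu'.differentiable (by norm_num)) x).hasDerivAt
  have hc2 : Continuous (deriv (deriv u)) := hu'.continuous_deriv (by norm_num)
  have hper1 : ∀ x, deriv u (x + 2 * Real.pi) = deriv u x := by
    intro x
    rw [← deriv_comp_add_const]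
    congr 1
    exact funext hper
  set c : ℤ → ℂ := fun n => fourierCoeffOn hab (fun x => (u x : ℂ)) n with hc
  obtain ⟨M, hM⟩ := coeff_bound hab (fun x => ((deriv (deriv u) x : ℝ) : ℂ))
    (Complex.continuous_ofReal.comp hc2)
  have hcM : ∀ n : ℤ, n ≠ 0 → ‖c n‖ ≤ M * (1 / (n : ℝ) ^ 2) := by
    intro n hn
    have h1 := coeff_deriv hab (fun x => (u x : ℂ)) (fun x => ((deriv u x : ℝ) : ℂ))
      (fun x => (hd1 x).ofReal_comp) (Complex.continuous_ofReal.comp hu'.continuous)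
      (by rw [hper]) n hn
    have h2 := coeff_deriv hab (fun x => ((deriv u x : ℝ) : ℂ)) (fun x => ((deriv (deriv u) x : ℝ) : ℂ))
      (fun x => (hd2 x).ofReal_comp) (Complex.continuous_ofReal.comp hc2)
      (by rw [hper1]) n hn
    rw [hc]
    simp only
    rw [h1, h2, div_div, ← sq, sq_abs, ← mul_one_div]
    exact mul_le_mul_of_nonneg_right (hM n) (by positivity)
  have hsum : Summable (fun n : ℤ => ‖c n‖) := by
    have h1 : Summable (fun n : ℤ => M * (1 / (n : ℝ) ^ 2)) :=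
      (Real.summable_one_div_int_pow.2 (by norm_num)).mul_left M
    refine Summable.of_norm_bounded_eventually h1 ?_
    filter_upwards [eventually_cofinite_ne (0 : ℤ)] with n hn
    rw [norm_norm]
    exact hcM n hn
  set f : C(AddCircle (2 * Real.pi), ℂ) :=
    ⟨AddCircle.liftIco (2 * Real.pi) 0 (fun x => (u x : ℂ)),
      AddCircle.liftIco_continuous (by rw [hper])
        (Complex.continuous_ofReal.comp hu.continuous).continuousOn⟩ with hf
  have hcoef : ∀ n, fourierCoeff f n = c n := fun n => fourierCoeff_liftIco_eq _ n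
  have hfs : Summable (fourierCoeff f) := by
    have : fourierCoeff f = c := funext hcoef
    rw [this]
    exact hsum.of_norm
  have hsumN : Summable (fun n : ℕ => ‖c n‖ + ‖c (-(n + 1))‖) := by
    have := hsum.nat_add_neg_add_one
    exact this
  set F : ℕ → ℂ → ℂ := fun n w => c n * w ^ n + starRingEnd ℂ (c (-(n + 1))) * w ^ (n + 1) with hF
  have hFb : ∀ n, ∀ w ∈ Metric.closedBall (0 : ℂ) 1, ‖F n w‖ ≤ ‖c n‖ + ‖c (-(n + 1))‖ := by
    intro n w hw
    rw [mem_closedBall_zero_iff] at hw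
    refine (norm_add_le _ _).trans (add_le_add ?_ ?_)
    · rw [norm_mul, norm_pow]
      exact mul_le_of_le_one_right (norm_nonneg _) (pow_le_one₀ (norm_nonneg _) hw)
    · rw [norm_mul, norm_pow, RCLike.norm_conj]
      exact mul_le_of_le_one_right (norm_nonneg _) (pow_le_one₀ (norm_nonneg _) hw)
  refine ⟨fun w => ∑' n, F n w, ?_, ?_, ?_⟩
  · refine continuousOn_tsum (fun n => ?_) hsumN hFb
    exact Continuous.continuousOn (by fun_prop)
  · refine Complex.differentiableOn_tsum_of_summable_norm hsumN (fun n => ?_) Metric.isOpen_ball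
      (fun n w hw => hFb n w (Metric.ball_subset_closedBall hw))
    exact Differentiable.differentiableOn (by fun_prop)
  · have key : ∀ x ∈ Ico (0 : ℝ) (2 * Real.pi), ((∑' n, F n (E (x, 0)) : ℂ)).re = u x := by
      intro x hx
      have h1 := has_pointwise_sum_fourier_series_of_summable hfs (x : AddCircle (2 * Real.pi))
      have h2 : f (x : AddCircle (2 * Real.pi)) = (u x : ℂ) := by
        have hx' : x ∈ Ico (0 : ℝ) (0 + 2 * Real.pi) := by rwa [zero_add]
        rw [hf]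
        exact AddCircle.liftIco_coe_apply (f := fun x : ℝ => (u x : ℂ)) hx'
      have h3 : ∀ n : ℤ, fourier n (x : AddCircle (2 * Real.pi)) = E (x, 0) ^ n := by
        intro n
        rw [fourier_coe_apply, E_zero, ← Complex.exp_int_mul]
        congr 1
        push_cast
        have h4 : (Real.pi : ℂ) ≠ 0 := by exact_mod_cast Real.pi_ne_zero
        field_simp
      simp only [hcoef, h3, smul_eq_mul, h2] at h1
      have h5 := h1.nat_add_neg_add_one
      have h6 := Complex.hasSum_re h5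
      have h7 : Summable (fun n => F n (E (x, 0))) := by
        refine Summable.of_norm_bounded hsumN fun n => hFb n _ ?_
        rw [mem_closedBall_zero_iff, norm_E0]
      have h8 := Complex.hasSum_re h7.hasSum
      have h9 : (fun n : ℕ => (F n (E (x, 0))).re) =
          fun n : ℕ => (c n * E (x, 0) ^ (n : ℤ) +
            c (-(n + 1)) * E (x, 0) ^ (-((n : ℤ) + 1))).re := by
        funext n
        rw [hF]
        simp only
        rw [Complex.add_re, Complex.add_re, zpow_natCast]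
        congr 1
        rw [zpow_neg, ← inv_zpow, Complex.inv_eq_conj (norm_E0 x)]
        have h10 : (starRingEnd ℂ (E (x, 0))) ^ ((n : ℤ) + 1) =
            starRingEnd ℂ (E (x, 0) ^ (n + 1)) := by
          rw [map_pow]
          exact_mod_cast rfl
        rw [h10, ← Complex.conj_re, map_mul, Complex.conj_conj]
      rw [h9] at h8
      have h10 := h8.unique h6
      rw [h10, Complex.ofReal_re]
    intro x
    have hp : Function.Periodic (fun x : ℝ => (E (x, 0), u x)) (2 * Real.pi) := by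
      intro x
      simp only
      rw [hper, show E (x + 2 * Real.pi, 0) = E (x, 0) from E_per (x, 0)]
    obtain ⟨y, hy, hxy⟩ := hp.exists_mem_Ico₀ Real.two_pi_pos x
    simp only [Prod.mk.injEq] at hxy
    rw [hxy.1, hxy.2]
    exact key y hy

end KVaux

open KVaux in
/-- **(KV)** For analytic polynomials `h_i` and `s > 0` there is `k`, continuous on the closed disc, analytic
inside, with `|k|⁴ = Σ|h_i|² + s²` on the circle and `Σ|h_i|² ≤ |k|⁴` in the closed disc.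

Proof: `u(x) = (1/4) log(Σ|h_i(e^{ix})|²+s²)` is smooth and `2π`-periodic, so its Fourier coefficients are
`O(1/n²)` (Mathlib: `fourierCoeffOn_of_hasDerivAt`) and `u(x) = Σ_{n∈ℤ} û(n)e^{inx}`, absolutely convergent,
`û(-n) = conj û(n)`; `V(w) = û(0) + 2Σ_{n≥1} û(n)w^n` is continuous on the closed disc, analytic inside,
`Re V = u` on the circle; `k = e^V`.  For a unit vector `v ∈ ℂ^N` the function `⟨h(w),v⟩/k(w)²` is analytic in the
disc, continuous on the closed disc and bounded by `1` on the circle, hence everywhere (maximum modulus). -/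
theorem KV (N : ℕ) (h : Fin N → Polynomial ℂ) (s : ℝ) (hs : 0 < s) :
    ∃ k : ℂ → ℂ, ContinuousOn k (Metric.closedBall 0 1) ∧ DifferentiableOn ℂ k (Metric.ball 0 1) ∧
      (∀ w ∈ Metric.closedBall (0 : ℂ) 1, ∑ i, ‖(h i).eval w‖ ^ 2 ≤ ‖k w‖ ^ 4) ∧
      ∀ x : ℝ, ‖k (E (x, 0))‖ ^ 4 = ∑ i, ‖(h i).eval (E (x, 0))‖ ^ 2 + s ^ 2 := by
  set G : ℝ → ℝ := fun x => ∑ i, ‖(h i).eval (E (x, 0))‖ ^ 2 + s ^ 2 with hG
  have hGpos : ∀ x, 0 < G x := fun x =>
    add_pos_of_nonneg_of_pos (Finset.sum_nonneg fun i _ => by positivity) (by positivity)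
  have hE : ContDiff ℝ 2 (fun x : ℝ => E (x, 0)) := by
    have : (fun x : ℝ => E (x, 0)) = fun x : ℝ => Complex.exp (Complex.I * x) := funext E_zero
    rw [this]
    exact (contDiff_const.mul Complex.ofRealCLM.contDiff).cexp
  have hGc : ContDiff ℝ 2 G := by
    refine ContDiff.add (ContDiff.sum fun i _ => ?_) contDiff_const
    refine ContDiff.norm_sq ℝ ?_
    have h1 : ContDiff ℂ 2 (fun w : ℂ => (h i).eval w) := (h i).differentiable.contDiff
    exact (h1.restrict_scalars ℝ).comp hE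
  have hGper : ∀ x, G (x + 2 * Real.pi) = G x := by
    intro x
    rw [hG]
    simp only
    rw [show E (x + 2 * Real.pi, 0) = E (x, 0) from E_per (x, 0)]
  obtain ⟨V, hV1, hV2, hV3⟩ := exists_V (fun x => (1 / 4) * Real.log (G x))
    (contDiff_const.mul (hGc.log fun x => (hGpos x).ne')) (fun x => by rw [hGper])
  have hk4 : ∀ w, ‖Complex.exp (V w)‖ ^ 4 = Real.exp (4 * (V w).re) := by
    intro w
    rw [Complex.norm_exp, ← Real.exp_nat_mul]
    norm_num
  have hcirc : ∀ x : ℝ, ‖Complex.exp (V (E (x, 0)))‖ ^ 4 = G x := by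
    intro x
    rw [hk4, hV3, ← mul_assoc]
    norm_num
    exact Real.exp_log (hGpos x)
  have hk1 : ContinuousOn (fun w => Complex.exp (V w)) (Metric.closedBall 0 1) := hV1.cexp
  have hk2 : DifferentiableOn ℂ (fun w => Complex.exp (V w)) (Metric.ball 0 1) := hV2.cexp
  refine ⟨fun w => Complex.exp (V w), hk1, hk2, fun w0 hw0 => ?_, hcirc⟩
  -- maximum modulus
  set v : Fin N → ℂ := fun i => starRingEnd ℂ ((h i).eval w0) with hv
  set S : ℝ := ∑ i, ‖(h i).eval w0‖ ^ 2 with hS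
  have hS0 : 0 ≤ S := Finset.sum_nonneg fun i _ => by positivity
  set Φ : ℂ → ℂ := fun w => (∑ i, v i * (h i).eval w) / Complex.exp (V w) ^ 2 with hΦ
  have hΦd : DiffContOnCl ℂ Φ (Metric.ball 0 1) := by
    constructor
    · refine DifferentiableOn.div (Differentiable.differentiableOn ?_) (hk2.pow 2)
        (fun w _ => pow_ne_zero 2 (Complex.exp_ne_zero _))
      fun_prop
    · rw [closure_ball (0 : ℂ) one_ne_zero]
      refine ContinuousOn.div (Continuous.continuousOn ?_) (hk1.pow 2)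
        (fun w _ => pow_ne_zero 2 (Complex.exp_ne_zero _))
      fun_prop
  have hb : ∀ w ∈ frontier (Metric.ball (0 : ℂ) 1), ‖Φ w‖ ≤ Real.sqrt S := by
    intro w hw
    rw [frontier_ball (0 : ℂ) one_ne_zero, mem_sphere_zero_iff_norm] at hw
    obtain ⟨x, rfl⟩ : ∃ x : ℝ, E (x, 0) = w := by
      obtain ⟨θ, hθ⟩ := (Complex.norm_eq_one_iff w).1 hw
      exact ⟨θ, by rw [E_zero, mul_comm, hθ]⟩
    have h1 := hcirc x
    set K : ℝ := ‖Complex.exp (V (E (x, 0)))‖ with hK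
    have hKpos : 0 < K := norm_pos_iff.2 (Complex.exp_ne_zero _)
    rw [hΦ]
    simp only
    rw [norm_div, norm_pow, ← hK, div_le_iff₀ (by positivity)]
    have h2 : ‖∑ i, v i * (h i).eval (E (x, 0))‖ ≤
        Real.sqrt S * Real.sqrt (∑ i, ‖(h i).eval (E (x, 0))‖ ^ 2) := by
      refine (norm_sum_le _ _).trans ?_
      simp only [norm_mul]
      have h3 := Finset.sum_mul_sq_le_sq_mul_sq Finset.univ (fun i => ‖v i‖)
        (fun i => ‖(h i).eval (E (x, 0))‖)
      rw [← Real.sqrt_mul' _ (Finset.sum_nonneg fun i _ => by positivity)]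
      apply Real.le_sqrt_of_sq_le
      refine h3.trans (le_of_eq ?_)
      congr 1
      exact Finset.sum_congr rfl fun i _ => by rw [hv]; simp only [RCLike.norm_conj]
    refine h2.trans (mul_le_mul_of_nonneg_left ?_ (Real.sqrt_nonneg _))
    rw [Real.sqrt_le_iff]
    refine ⟨by positivity, ?_⟩
    have h4 : ∑ i, ‖(h i).eval (E (x, 0))‖ ^ 2 ≤ G x := by
      rw [hG]; simp only; nlinarith [sq_nonneg s]
    calc _ ≤ G x := h4
      _ = K ^ 4 := h1.symm
      _ = (K ^ 2) ^ 2 := by ring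
  have h1 := Complex.norm_le_of_forall_mem_frontier_norm_le Metric.isBounded_ball hΦd hb
    (z := w0) (by rwa [closure_ball (0 : ℂ) one_ne_zero])
  set K : ℝ := ‖Complex.exp (V w0)‖ with hK
  have hKpos : 0 < K := norm_pos_iff.2 (Complex.exp_ne_zero _)
  have h2 : ∑ i, v i * (h i).eval w0 = (S : ℂ) := by
    rw [hS]
    push_cast
    refine Finset.sum_congr rfl fun i _ => ?_
    rw [hv]
    simp only
    rw [mul_comm, Complex.mul_conj, Complex.normSq_eq_norm_sq]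
    push_cast; rfl
  rw [hΦ] at h1
  simp only at h1
  rw [h2, norm_div, norm_pow, ← hK, Complex.norm_real, Real.norm_of_nonneg hS0,
    div_le_iff₀ (by positivity)] at h1
  -- S ≤ √S K²
  have h3 : S = Real.sqrt S * Real.sqrt S := (Real.mul_self_sqrt hS0).symm
  by_cases hz : S = 0
  · rw [hz]; positivity
  · have h4 : 0 < Real.sqrt S := Real.sqrt_pos.2 (lt_of_le_of_ne hS0 (Ne.symm hz))
    have h5 : Real.sqrt S ≤ K ^ 2 := by
      have h6 : Real.sqrt S * Real.sqrt S ≤ Real.sqrt S * K ^ 2 := by rw [← h3]; exact h1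
      exact le_of_mul_le_mul_left h6 h4
    calc S = Real.sqrt S ^ 2 := by rw [Real.sq_sqrt hS0]
      _ ≤ (K ^ 2) ^ 2 := pow_le_pow_left₀ h4.le h5 2
      _ = K ^ 4 := by ring

end Pool.H14.SR

end S_KV
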