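import Mathlib
import Pool.Agent.H14.SRM.P0
import Pool.Agent.H14.SRM.P6

/-! MP_e1e648_an, part P7: this file joins several modules to save build time. -/

noncomputable section S_BN

open MeasureTheory Set Filter Topology
namespace Pool.H14.SR

open scoped ENNReal

/-! ### Tonelli -/

theorem bn_T0 (g : ℝ → ℝ≥0∞) (hg : Measurable g) (s : ℝ) :
    ∫⁻ x, ∫⁻ t in Set.Icc (x - s) (x + s), g t = ENNReal.ofReal (2 * s) * ∫⁻ t, g t := by
  let D : Set (ℝ × ℝ) := {p | p.2 - s ≤ p.1 ∧ p.1 ≤ p.2 + s}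
  have hD : MeasurableSet D := by
    have m1 : MeasurableSet {p : ℝ × ℝ | p.2 - s ≤ p.1} :=
      measurableSet_le (by fun_prop) (by fun_prop)
    have m2 : MeasurableSet {p : ℝ × ℝ | p.1 ≤ p.2 + s} :=
      measurableSet_le (by fun_prop) (by fun_prop)
    exact m1.inter m2
  have h1 : ∀ x, ∫⁻ t in Set.Icc (x - s) (x + s), g t =
      ∫⁻ t, D.indicator (fun p => g p.2) (x, t) := by
    intro x
    rw [← lintegral_indicator measurableSet_Icc]
    refine lintegral_congr fun t => ?_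
    by_cases ht : t ∈ Set.Icc (x - s) (x + s)
    · rw [Set.indicator_of_mem ht, Set.indicator_of_mem]
      exact ⟨by have := ht.2; change t - s ≤ x; linarith,
        by have := ht.1; change x ≤ t + s; linarith⟩
    · rw [Set.indicator_of_notMem ht, Set.indicator_of_notMem]
      rintro ⟨h2, h3⟩
      change t - s ≤ x at h2
      change x ≤ t + s at h3
      exact ht ⟨by linarith, by linarith⟩
  simp_rw [h1]
  rw [lintegral_lintegral_swap]
  · have h2 : ∀ t, ∫⁻ x, D.indicator (fun p => g p.2) (x, t) = ENNReal.ofReal (2 * s) * g t := by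
      intro t
      have h3 : ∀ x, D.indicator (fun p => g p.2) (x, t) =
          (Set.Icc (t - s) (t + s)).indicator (fun _ => g t) x := by
        intro x
        by_cases hx : x ∈ Set.Icc (t - s) (t + s)
        · rw [Set.indicator_of_mem hx, Set.indicator_of_mem]
          exact ⟨hx.1, hx.2⟩
        · rw [Set.indicator_of_notMem hx, Set.indicator_of_notMem]
          rintro ⟨h2, h3⟩
          exact hx ⟨h2, h3⟩
      simp_rw [h3]
      rw [lintegral_indicator measurableSet_Icc, lintegral_const,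
        Measure.restrict_apply MeasurableSet.univ, univ_inter, Real.volume_Icc, mul_comm]
      congr 2
      ring
    simp_rw [h2]
    rw [lintegral_const_mul _ hg]
  · have h4 : Measurable (D.indicator (fun p : ℝ × ℝ => g p.2)) :=
      (hg.comp measurable_snd).indicator hD
    exact h4.aemeasurable

theorem bn_T3 (g : ℝ → ℝ≥0∞) (hg : Measurable g) :
    ∫⁻ y in Set.Ioi (0 : ℝ), ∫⁻ σ in Set.Ioi y, g σ =
      ∫⁻ σ in Set.Ioi (0 : ℝ), ENNReal.ofReal σ * g σ := by
  let D : Set (ℝ × ℝ) := {p | 0 < p.1 ∧ p.1 < p.2}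
  have hD : MeasurableSet D := by
    have m1 : MeasurableSet {p : ℝ × ℝ | 0 < p.1} :=
      measurableSet_lt (by fun_prop) (by fun_prop)
    have m2 : MeasurableSet {p : ℝ × ℝ | p.1 < p.2} :=
      measurableSet_lt (by fun_prop) (by fun_prop)
    exact m1.inter m2
  have h1 : ∫⁻ y in Set.Ioi (0 : ℝ), ∫⁻ σ in Set.Ioi y, g σ =
      ∫⁻ y, ∫⁻ σ, D.indicator (fun p => g p.2) (y, σ) := by
    rw [← lintegral_indicator measurableSet_Ioi]
    refine lintegral_congr fun y => ?_
    by_cases hy : y ∈ Set.Ioi (0 : ℝ)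
    · rw [Set.indicator_of_mem hy, ← lintegral_indicator measurableSet_Ioi]
      refine lintegral_congr fun σ => ?_
      by_cases hσ : σ ∈ Set.Ioi y
      · rw [Set.indicator_of_mem hσ, Set.indicator_of_mem]
        exact ⟨hy, hσ⟩
      · rw [Set.indicator_of_notMem hσ, Set.indicator_of_notMem]
        rintro ⟨_, h3⟩
        exact hσ h3
    · rw [Set.indicator_of_notMem hy]
      symm
      rw [lintegral_eq_zero_of_ae_eq_zero]
      refine Eventually.of_forall fun σ => ?_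
      refine Set.indicator_of_notMem ?_ _
      rintro ⟨h3, _⟩
      exact hy h3
  rw [h1, lintegral_lintegral_swap]
  · rw [← lintegral_indicator measurableSet_Ioi]
    refine lintegral_congr fun σ => ?_
    have h3 : ∀ y, D.indicator (fun p => g p.2) (y, σ) =
        (Set.Ioo 0 σ).indicator (fun _ => g σ) y := by
      intro y
      by_cases hy : y ∈ Set.Ioo 0 σ
      · rw [Set.indicator_of_mem hy, Set.indicator_of_mem]
        exact ⟨hy.1, hy.2⟩
      · rw [Set.indicator_of_notMem hy, Set.indicator_of_notMem]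
        rintro ⟨h2, h3⟩
        exact hy ⟨h2, h3⟩
    simp_rw [h3]
    rw [lintegral_indicator measurableSet_Ioo, lintegral_const,
      Measure.restrict_apply MeasurableSet.univ, univ_inter, Real.volume_Ioo, mul_comm, sub_zero]
    by_cases hσ : σ ∈ Set.Ioi (0 : ℝ)
    · rw [Set.indicator_of_mem hσ]
    · rw [Set.indicator_of_notMem hσ, ENNReal.ofReal_of_nonpos (not_lt.1 hσ), zero_mul]
  · have h4 : Measurable (D.indicator (fun p : ℝ × ℝ => g p.2)) :=
      (hg.comp measurable_snd).indicator hD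
    exact h4.aemeasurable

theorem bn_HP_meas : MeasurableSet HP := by
  unfold HP
  exact measurableSet_lt (by fun_prop) (by fun_prop)

theorem bn_HP_restrict : (volume : Measure (ℝ × ℝ)).restrict HP =
    (volume : Measure ℝ).prod ((volume : Measure ℝ).restrict (Set.Ioi 0)) := by
  have h1 : HP = (Set.univ : Set ℝ) ×ˢ Set.Ioi (0 : ℝ) := by
    ext p
    simp [HP]
  rw [h1]
  have h2 := Measure.prod_restrict (μ := (volume : Measure ℝ)) (ν := (volume : Measure ℝ))
    (Set.univ : Set ℝ) (Set.Ioi (0 : ℝ))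
  rw [Measure.restrict_univ] at h2
  rw [h2]
  rfl

theorem bn_HP (G : ℝ × ℝ → ℝ≥0∞) (hG : Measurable G) :
    ∫⁻ p in HP, G p = ∫⁻ y in Set.Ioi (0 : ℝ), ∫⁻ x, G (x, y) := by
  rw [bn_HP_restrict, lintegral_prod_symm' _ hG]

/-- measurability of the integral over a moving interval -/
theorem bn_meas_Icc (G : ℝ × ℝ → ℝ≥0∞) (hG : Measurable G) (s : ℝ) :
    Measurable (fun p : ℝ × ℝ => ∫⁻ t in Set.Icc (p.1 - s) (p.1 + s), G (t, p.2)) := by
  let D : Set ((ℝ × ℝ) × ℝ) := {q | q.1.1 - s ≤ q.2 ∧ q.2 ≤ q.1.1 + s}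
  have hD : MeasurableSet D := by
    have m1 : MeasurableSet {q : (ℝ × ℝ) × ℝ | q.1.1 - s ≤ q.2} :=
      measurableSet_le (by fun_prop) (by fun_prop)
    have m2 : MeasurableSet {q : (ℝ × ℝ) × ℝ | q.2 ≤ q.1.1 + s} :=
      measurableSet_le (by fun_prop) (by fun_prop)
    exact m1.inter m2
  have h1 : ∀ p : ℝ × ℝ, ∫⁻ t in Set.Icc (p.1 - s) (p.1 + s), G (t, p.2) =
      ∫⁻ t, D.indicator (fun q => G (q.2, q.1.2)) (p, t) := by
    intro p
    rw [← lintegral_indicator measurableSet_Icc]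
    refine lintegral_congr fun t => ?_
    by_cases ht : t ∈ Set.Icc (p.1 - s) (p.1 + s)
    · rw [Set.indicator_of_mem ht, Set.indicator_of_mem]
      exact ⟨ht.1, ht.2⟩
    · rw [Set.indicator_of_notMem ht, Set.indicator_of_notMem]
      rintro ⟨h2, h3⟩
      exact ht ⟨h2, h3⟩
  simp_rw [h1]
  have h4 : Measurable (D.indicator (fun q : (ℝ × ℝ) × ℝ => G (q.2, q.1.2))) :=
    (hG.comp (by fun_prop)).indicator hD
  exact h4.lintegral_prod_right'

theorem bn_meas_Ioi (G : ℝ × ℝ → ℝ≥0∞) (hG : Measurable G) :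
    Measurable (fun p : ℝ × ℝ => ∫⁻ σ in Set.Ioi p.2, G (p.1, σ)) := by
  let D : Set ((ℝ × ℝ) × ℝ) := {q | q.1.2 < q.2}
  have hD : MeasurableSet D := measurableSet_lt (by fun_prop) (by fun_prop)
  have h1 : ∀ p : ℝ × ℝ, ∫⁻ σ in Set.Ioi p.2, G (p.1, σ) =
      ∫⁻ σ, D.indicator (fun q => G (q.1.1, q.2)) (p, σ) := by
    intro p
    rw [← lintegral_indicator measurableSet_Ioi]
    refine lintegral_congr fun t => ?_
    by_cases ht : t ∈ Set.Ioi p.2
    · rw [Set.indicator_of_mem ht, Set.indicator_of_mem]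
      exact ht
    · rw [Set.indicator_of_notMem ht, Set.indicator_of_notMem]
      exact ht
  simp_rw [h1]
  have h4 : Measurable (D.indicator (fun q : (ℝ × ℝ) × ℝ => G (q.1.1, q.2))) :=
    (hG.comp (by fun_prop)).indicator hD
  exact h4.lintegral_prod_right'

theorem bn_T1 (G : ℝ × ℝ → ℝ≥0∞) (hG : Measurable G) (s : ℝ) :
    ∫⁻ p in HP, ∫⁻ t in Set.Icc (p.1 - s) (p.1 + s), G (t, p.2) =
      ENNReal.ofReal (2 * s) * ∫⁻ p in HP, G p := by
  rw [bn_HP _ (bn_meas_Icc G hG s), bn_HP _ hG]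
  have h1 : ∀ y, ∫⁻ x, ∫⁻ t in Set.Icc (x - s) (x + s), G (t, y) =
      ENNReal.ofReal (2 * s) * ∫⁻ x, G (x, y) :=
    fun y => bn_T0 _ (hG.comp (by fun_prop)) s
  simp_rw [h1]
  rw [lintegral_const_mul]
  exact Measurable.lintegral_prod_left' hG

theorem bn_T2 (G : ℝ × ℝ → ℝ≥0∞) (hG : Measurable G) (s : ℝ) :
    ∫⁻ p in HP, ∫⁻ t in Set.Icc (p.1 - s) (p.1 + s), ∫⁻ σ in Set.Ioi p.2, G (t, σ) =
      ENNReal.ofReal (2 * s) * ∫⁻ p in HP, ENNReal.ofReal p.2 * G p := by
  have h0 := bn_meas_Ioi G hG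
  rw [bn_T1 (fun p => ∫⁻ σ in Set.Ioi p.2, G (p.1, σ)) h0 s]
  congr 1
  rw [bn_HP _ h0, bn_HP (fun p => ENNReal.ofReal p.2 * G p)
    ((ENNReal.measurable_ofReal.comp measurable_snd).mul hG)]
  have e1 : ∫⁻ y in Set.Ioi (0 : ℝ), ∫⁻ x, ∫⁻ σ in Set.Ioi y, G (x, σ) =
      ∫⁻ x, ∫⁻ y in Set.Ioi (0 : ℝ), ∫⁻ σ in Set.Ioi y, G (x, σ) :=
    lintegral_lintegral_swap (f := fun y x => ∫⁻ σ in Set.Ioi y, G (x, σ))
      (h0.comp measurable_swap).aemeasurable
  have e2 : ∫⁻ y in Set.Ioi (0 : ℝ), ∫⁻ x, ENNReal.ofReal y * G (x, y) =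
      ∫⁻ x, ∫⁻ y in Set.Ioi (0 : ℝ), ENNReal.ofReal y * G (x, y) :=
    lintegral_lintegral_swap (f := fun y x => ENNReal.ofReal y * G (x, y))
      (((ENNReal.measurable_ofReal.comp measurable_snd).mul hG).comp
        measurable_swap).aemeasurable
  refine e1.trans (Eq.trans ?_ e2.symm)
  refine lintegral_congr fun x => ?_
  exact bn_T3 (fun σ => G (x, σ)) (hG.comp (by fun_prop))

theorem bn_ofReal_le {α : Type} [MeasurableSpace α] (μ : Measure α) (f : α → ℝ)
    (hf : ∀ x, 0 ≤ f x) : ENNReal.ofReal (∫ x, f x ∂μ) ≤ ∫⁻ x, ENNReal.ofReal (f x) ∂μ := by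
  by_cases h : Integrable f μ
  · rw [ofReal_integral_eq_lintegral_ofReal h (Eventually.of_forall hf)]
  · rw [integral_undef h, ENNReal.ofReal_zero]
    exact zero_le

/-! ### kernels -/

theorem bn_qk_nonneg (z p : ℝ × ℝ) (hz : 0 < z.2) : 0 ≤ qk z p := by
  unfold qk
  positivity

theorem bn_qk_le (z p q : ℝ × ℝ) (hz : 0 < z.2) (hp : 0 < p.2) (hq : 0 < q.2) (K : ℝ)
    (hK : (q.1 - z.1) ^ 2 + (q.2 + z.2) ^ 2 ≤ K * ((p.1 - z.1) ^ 2 + (p.2 + z.2) ^ 2)) :
    qk z p ≤ K * qk z q := by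
  unfold qk
  have h1 : 0 < (p.1 - z.1) ^ 2 + (p.2 + z.2) ^ 2 := by positivity
  have h2 : 0 < (q.1 - z.1) ^ 2 + (q.2 + z.2) ^ 2 := by positivity
  rw [mul_div_assoc', div_le_div_iff₀ h1 h2]
  nlinarith [mul_le_mul_of_nonneg_left hK (by positivity : (0 : ℝ) ≤ 4 * z.2)]

theorem bn_near (A D T y s z : ℝ) (hy : 0 < y) (hz : 0 < z) (hD : |D| ≤ s) (hs : s ≤ y / 2)
    (hT : T = A - D) : T ^ 2 + (y + z) ^ 2 ≤ 3 * (A ^ 2 + (y + z) ^ 2) := by
  have h1 : T ^ 2 ≤ 2 * A ^ 2 + 2 * D ^ 2 := by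
    have := sq_nonneg (A + D)
    rw [hT]
    linarith [this, (by ring : (A - D) ^ 2 + (A + D) ^ 2 = 2 * A ^ 2 + 2 * D ^ 2)]
  have h2 : D ^ 2 ≤ (y / 2) ^ 2 := by
    rw [← sq_abs]
    exact pow_le_pow_left₀ (abs_nonneg D) (hD.trans hs) 2
  have h3 : y ^ 2 ≤ (y + z) ^ 2 := pow_le_pow_left₀ hy.le (by linarith) 2
  have h4 : (y / 2) ^ 2 = y ^ 2 / 4 := by ring
  have h5 := sq_nonneg A
  have h6 := sq_nonneg (y + z)
  linarith

theorem bn_far (θ h s A D T y σ z : ℝ) (hθ : 0 < θ) (hθ1 : θ ≤ 1 / 4) (hh : 0 < h) (hs : 0 < s)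
    (hs2 : s ≤ h / 4) (hy : 0 < y) (hz : 0 < z) (hD : |D| ≤ s) (hT : T = A - D)
    (hθh : θ * h ≤ y) (hσ : σ ≤ 2 * h) :
    T ^ 2 + (σ + z) ^ 2 ≤ 12 / θ ^ 2 * (A ^ 2 + (y + z) ^ 2) ∨ σ + z < 0 := by
  rcases lt_or_ge (σ + z) 0 with hneg | hpos
  · exact Or.inr hneg
  left
  rw [div_mul_eq_mul_div, le_div_iff₀ (by positivity)]
  have h1 : T ^ 2 ≤ 2 * A ^ 2 + 2 * D ^ 2 := by
    have := sq_nonneg (A + D)
    rw [hT]
    linarith [this, (by ring : (A - D) ^ 2 + (A + D) ^ 2 = 2 * A ^ 2 + 2 * D ^ 2)]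
  have h2 : θ * |D| ≤ y / 4 := by
    have : θ * |D| ≤ θ * (h / 4) := mul_le_mul_of_nonneg_left (hD.trans hs2) hθ.le
    linarith
  have h3 : θ ^ 2 * D ^ 2 ≤ (y / 4) ^ 2 := by
    have := pow_le_pow_left₀ (mul_nonneg hθ.le (abs_nonneg D)) h2 2
    rwa [mul_pow, sq_abs] at this
  have h4 : θ * (σ + z) ≤ 2 * (y + z) := by
    have h5 : θ * σ ≤ θ * (2 * h) := mul_le_mul_of_nonneg_left hσ hθ.le
    have h6 : θ * z ≤ 1 * z := mul_le_mul_of_nonneg_right (by linarith) hz.le
    linarith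
  have h7 : θ ^ 2 * (σ + z) ^ 2 ≤ 4 * (y + z) ^ 2 := by
    have := pow_le_pow_left₀ (mul_nonneg hθ.le hpos) h4 2
    rw [mul_pow, mul_pow] at this
    linarith
  have h8 : θ ^ 2 * A ^ 2 ≤ 1 * A ^ 2 := by
    have : θ ^ 2 ≤ 1 := pow_le_one₀ hθ.le (by linarith)
    exact mul_le_mul_of_nonneg_right this (sq_nonneg A)
  have h9 : θ ^ 2 * T ^ 2 ≤ θ ^ 2 * (2 * A ^ 2 + 2 * D ^ 2) :=
    mul_le_mul_of_nonneg_left h1 (by positivity)
  have h10 : y ^ 2 ≤ (y + z) ^ 2 := pow_le_pow_left₀ hy.le (by linarith) 2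
  have h11 : (y / 4) ^ 2 = y ^ 2 / 16 := by ring
  have h12 := sq_nonneg A
  have h13 := sq_nonneg (y + z)
  have h14 : (T ^ 2 + (σ + z) ^ 2) * θ ^ 2 = θ ^ 2 * T ^ 2 + θ ^ 2 * (σ + z) ^ 2 := by ring
  rw [h14]
  linarith

theorem bn_osc_cont {δ ρ : ℝ} {a b F : ℂ → ℂ} (H : Dat δ ρ a b F) :
    ContinuousOn (Osc a b F) HP := by
  have hρ : 0 < ρ := lt_trans one_pos H.hρ
  have hsub : HP ⊆ {p : ℝ × ℝ | -Real.log ρ < p.2} := by
    intro p hp
    have h1 := Real.log_pos H.hρ
    have h2 : 0 < p.2 := hp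
    change -Real.log ρ < p.2
    linarith
  have ca := (hp_cont hρ H.ha.continuousOn).mono hsub
  have cb := (hp_cont hρ H.hb.continuousOn).mono hsub
  have cF := (hp_cont hρ H.hF.continuousOn).mono hsub
  unfold Osc
  exact ((Complex.continuous_re.comp_continuousOn cF).sub (ca.norm.pow 2)).sub (cb.norm.pow 2)

theorem bn_osc_nonneg {δ ρ : ℝ} {a b F : ℂ → ℂ} (H : Dat δ ρ a b F) (p : ℝ × ℝ) (hpp : 0 < p.2) :
    0 ≤ Osc a b F p := by
  have hρ : 0 < ρ := lt_trans one_pos H.hρ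
  have h1 := Real.log_pos H.hρ
  have h2 := H.hO (E p) (E_mem_ball hρ (by linarith))
  unfold Osc hp
  linarith


/-- **(BN)** Near part of the potential of one band.

Proof: (`O = Osc a b F`.)  `X₁` part: `m(t',y) ≠ 0` forces `y ≥ h/2 ≥ 2s`; for `|x-t'| ≤ s ≤ y/2`: `O(t',y) ≤ 3O(x,y)` (`E3`,
`θ = 1`, scale `y`), so `e^{-tO(x,y)/2} ≤ e^{-tO(t',y)/6} ≤ e^{-(tθ/12)O(t',y)}`, and `q_z(x,y) ≤ 3q_z(t',y)`; Tonelli and
`∫_{|x-t'| ≤ s}dx = 2s ≤ y`: contribution `≤ 3∬ m e^{-(tθ/12)O} y q_z`.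
`X₂` part (`y ≥ θh`): `X₂(x,y) ≤ (2/s)∬_{|t'-x| ≤ s, σ > y} m(t',σ)`, `h/2 ≤ σ ≤ 2h`, `(θ/2)σ ≤ θh ≤ y ≤ σ`, `|x-t'| ≤ s ≤ σ`:
`O(t',σ) ≤ (6/θ)O(x,y)` (`E3` with `θ/2`), `q_z(x,y) ≤ (12/θ²)q_z(t',σ)`
(`(x_z-t')²+(y_z+σ)² ≤ 2(x_z-x)²+2s²+(y_z+σ)² ≤ (3·4/θ²)((x_z-x)²+(y_z+y)²)`), so the contribution is
`≤ (2/s)(2s)(12/θ²)∬ m(t',σ) e^{-(tθ/12)O} σ q_z = (48/θ²)∬…`.  Sum `≤ 100/θ²`. -/
theorem BN {δ ρ : ℝ} {a b F : ℂ → ℂ} (H : Dat δ ρ a b F) (h s t θ : ℝ) (hh : 0 < h) (hs : 0 < s)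
    (hs2 : s ≤ h / 4) (ht : 0 < t) (hθ : 0 < θ) (hθ1 : θ ≤ 1 / 4)
    (m : ℝ × ℝ → ℝ) (hm : Continuous m) (m0 : ∀ p, 0 ≤ m p)
    (hsupp : ∀ p : ℝ × ℝ, m p ≠ 0 → h / 2 ≤ p.2 ∧ p.2 ≤ 2 * h)
    (X1 X2 : ℝ × ℝ → ℝ) (hX1c : Measurable X1) (hX2c : Measurable X2)
    (hX1 : ∀ p : ℝ × ℝ, |X1 p| ≤ ∫ t in Set.Icc (p.1 - s) (p.1 + s), m (t, p.2))
    (hX2 : ∀ p : ℝ × ℝ, 0 ≤ X2 p ∧
        X2 p ≤ 2 / s * ∫ t in Set.Icc (p.1 - s) (p.1 + s), ∫ y in Set.Ioi p.2, m (t, y))
    (z : ℝ × ℝ) (hz : 0 < z.2) :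
    ∫⁻ p in HP, ENNReal.ofReal (Real.exp (-(t * Osc a b F p / 2))
        * (|X1 p| + (if θ * h ≤ p.2 then X2 p else 0)) * qk z p)
      ≤ ENNReal.ofReal (100 / θ ^ 2) * ∫⁻ p in HP, ENNReal.ofReal
        (m p * Real.exp (-(t * θ / 12 * Osc a b F p)) * (p.2 * qk z p)) := by
  have hh4 : 2 * s ≤ h / 2 := by linarith
  -- the integrand on the right
  let g : ℝ × ℝ → ℝ := fun q => m q * Real.exp (-(t * θ / 12 * Osc a b F q)) * qk z q
  let G : ℝ × ℝ → ℝ≥0∞ := HP.indicator (fun q => ENNReal.ofReal (g q))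
  have hgc : ContinuousOn g HP := by
    have h1 : ContinuousOn (fun q : ℝ × ℝ => Real.exp (-(t * θ / 12 * Osc a b F q))) HP :=
      Real.continuous_exp.comp_continuousOn (continuousOn_const.mul (bn_osc_cont H)).neg
    have h2 : ContinuousOn (fun q : ℝ × ℝ => qk z q) HP := by
      unfold qk
      refine ContinuousOn.div continuousOn_const (by fun_prop) fun q hq => ?_
      have h3 : 0 < q.2 := hq
      positivity
    exact (hm.continuousOn.mul h1).mul h2
  have hg0 : ∀ q, 0 ≤ g q := fun q =>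
    mul_nonneg (mul_nonneg (m0 q) (Real.exp_pos _).le) (bn_qk_nonneg z q hz)
  have hGm : Measurable G := by
    classical
    have h1 := ContinuousOn.measurable_piecewise (s := HP)
      (f := fun q => ENNReal.ofReal (g q)) (g := fun _ => (0 : ℝ≥0∞))
      (ENNReal.continuous_ofReal.comp_continuousOn hgc) continuousOn_const bn_HP_meas
    have h2 : G = HP.piecewise (fun q => ENNReal.ofReal (g q)) (fun _ => (0 : ℝ≥0∞)) := by
      funext q
      by_cases hq : q ∈ HP
      · rw [Set.piecewise_eq_of_mem _ _ _ hq]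
        exact Set.indicator_of_mem hq _
      · rw [Set.piecewise_eq_of_notMem _ _ _ hq]
        exact Set.indicator_of_notMem hq _
    rw [h2]
    exact h1
  have hGp : ∀ q : ℝ × ℝ, 0 < q.2 → G q = ENNReal.ofReal (g q) := fun q hq =>
    Set.indicator_of_mem (s := HP) hq _
  -- the right hand side
  have hR : ∫⁻ p in HP, ENNReal.ofReal
        (m p * Real.exp (-(t * θ / 12 * Osc a b F p)) * (p.2 * qk z p)) =
      ∫⁻ p in HP, ENNReal.ofReal p.2 * G p := by
    refine setLIntegral_congr_fun bn_HP_meas fun p hp => ?_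
    have hp' : 0 < p.2 := hp
    rw [hGp p hp', ← ENNReal.ofReal_mul hp'.le]
    congr 1
    change _ = p.2 * (m p * Real.exp (-(t * θ / 12 * Osc a b F p)) * qk z p)
    ring
  rw [hR]
  -- first part, pointwise
  have hP1 : ∀ p : ℝ × ℝ, 0 < p.2 →
      ENNReal.ofReal (Real.exp (-(t * Osc a b F p / 2)) * |X1 p| * qk z p) ≤
      ENNReal.ofReal 3 * ∫⁻ t' in Set.Icc (p.1 - s) (p.1 + s), G (t', p.2) := by
    intro p hp
    have hw0 : 0 ≤ Real.exp (-(t * Osc a b F p / 2)) * qk z p :=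
      mul_nonneg (Real.exp_pos _).le (bn_qk_nonneg z p hz)
    have e1 : Real.exp (-(t * Osc a b F p / 2)) * |X1 p| * qk z p ≤
        (Real.exp (-(t * Osc a b F p / 2)) * qk z p) *
        ∫ t' in Set.Icc (p.1 - s) (p.1 + s), m (t', p.2) := by
      have := mul_le_mul_of_nonneg_left (hX1 p) hw0
      linarith
    refine (ENNReal.ofReal_le_ofReal e1).trans ?_
    rw [ENNReal.ofReal_mul hw0]
    have e2 := bn_ofReal_le ((volume : Measure ℝ).restrict (Set.Icc (p.1 - s) (p.1 + s)))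
      (fun t' => m (t', p.2)) (fun t' => m0 _)
    refine (mul_le_mul_right e2 _).trans ?_
    rw [← lintegral_const_mul' _ _ ENNReal.ofReal_ne_top,
      ← lintegral_const_mul' _ _ ENNReal.ofReal_ne_top]
    refine setLIntegral_mono' measurableSet_Icc fun t' ht' => ?_
    rw [hGp (t', p.2) hp, ← ENNReal.ofReal_mul hw0, ← ENNReal.ofReal_mul (by norm_num)]
    refine ENNReal.ofReal_le_ofReal ?_
    by_cases hmz : m (t', p.2) = 0
    · rw [hmz, mul_zero]
      exact mul_nonneg (by norm_num) (hg0 _)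
    · have hy := hsupp _ hmz
      simp only at hy
      have hx : |p.1 - t'| ≤ s := by
        rw [abs_le]
        constructor <;> linarith [ht'.1, ht'.2]
      have hsy : s ≤ p.2 / 2 := by linarith
      have hE := (E3 H 1 one_pos le_rfl p.1 t' p.2 p.2 hp (by linarith) (by linarith) le_rfl).1
      rw [div_one] at hE
      have hO := bn_osc_nonneg H (t', p.2) hp
      have hexp : Real.exp (-(t * Osc a b F p / 2)) ≤
          Real.exp (-(t * θ / 12 * Osc a b F (t', p.2))) := by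
        apply Real.exp_le_exp.2
        have h1 : t * Osc a b F (t', p.2) ≤ t * (3 * Osc a b F p) :=
          mul_le_mul_of_nonneg_left hE ht.le
        have h2 : t * θ / 12 * Osc a b F (t', p.2) ≤ t * 1 / 12 * Osc a b F (t', p.2) := by
          have : θ ≤ 1 := by linarith
          gcongr
        have h3 : 0 ≤ t * Osc a b F (t', p.2) := mul_nonneg ht.le hO
        nlinarith
      have hq : qk z p ≤ 3 * qk z (t', p.2) := by
        apply bn_qk_le z p (t', p.2) hz hp hp
        simp only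
        exact bn_near (p.1 - z.1) (p.1 - t') (t' - z.1) p.2 s z.2 hp hz hx hsy (by ring)
      have hq0 := bn_qk_nonneg z p hz
      have hq1 := bn_qk_nonneg z (t', p.2) hz
      calc Real.exp (-(t * Osc a b F p / 2)) * qk z p * m (t', p.2)
          ≤ Real.exp (-(t * θ / 12 * Osc a b F (t', p.2))) * (3 * qk z (t', p.2)) *
            m (t', p.2) := by
            have := m0 (t', p.2)
            gcongr
        _ = 3 * g (t', p.2) := by
            change _ = 3 * (m (t', p.2) * Real.exp (-(t * θ / 12 * Osc a b F (t', p.2))) *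
              qk z (t', p.2))
            ring
  -- second part, pointwise
  have hP2 : ∀ p : ℝ × ℝ, 0 < p.2 →
      ENNReal.ofReal (Real.exp (-(t * Osc a b F p / 2)) * (if θ * h ≤ p.2 then X2 p else 0) *
        qk z p) ≤
      ENNReal.ofReal (2 / s * (12 / θ ^ 2)) *
        ∫⁻ t' in Set.Icc (p.1 - s) (p.1 + s), ∫⁻ σ in Set.Ioi p.2, G (t', σ) := by
    intro p hp
    by_cases hph : θ * h ≤ p.2
    swap
    · rw [if_neg hph, mul_zero, zero_mul, ENNReal.ofReal_zero]
      exact zero_le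
    rw [if_pos hph]
    have hw0 : 0 ≤ Real.exp (-(t * Osc a b F p / 2)) * qk z p :=
      mul_nonneg (Real.exp_pos _).le (bn_qk_nonneg z p hz)
    have e1 : Real.exp (-(t * Osc a b F p / 2)) * X2 p * qk z p ≤
        (2 / s * (Real.exp (-(t * Osc a b F p / 2)) * qk z p)) *
        ∫ t' in Set.Icc (p.1 - s) (p.1 + s), ∫ σ in Set.Ioi p.2, m (t', σ) := by
      have := mul_le_mul_of_nonneg_left (hX2 p).2 hw0
      linarith
    refine (ENNReal.ofReal_le_ofReal e1).trans ?_
    have h2s : 0 ≤ 2 / s := by positivity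
    rw [ENNReal.ofReal_mul (mul_nonneg h2s hw0)]
    have e2 := bn_ofReal_le ((volume : Measure ℝ).restrict (Set.Icc (p.1 - s) (p.1 + s)))
      (fun t' => ∫ σ in Set.Ioi p.2, m (t', σ)) (fun t' => integral_nonneg fun σ => m0 _)
    have e3 : ∫⁻ t' in Set.Icc (p.1 - s) (p.1 + s),
        ENNReal.ofReal (∫ σ in Set.Ioi p.2, m (t', σ)) ≤
        ∫⁻ t' in Set.Icc (p.1 - s) (p.1 + s), ∫⁻ σ in Set.Ioi p.2, ENNReal.ofReal (m (t', σ)) :=
      lintegral_mono fun t' => bn_ofReal_le _ _ fun σ => m0 _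
    refine (mul_le_mul_right (e2.trans e3) _).trans ?_
    rw [← lintegral_const_mul' _ _ ENNReal.ofReal_ne_top,
      ← lintegral_const_mul' _ _ ENNReal.ofReal_ne_top]
    refine setLIntegral_mono' measurableSet_Icc fun t' ht' => ?_
    rw [← lintegral_const_mul' _ _ ENNReal.ofReal_ne_top,
      ← lintegral_const_mul' _ _ ENNReal.ofReal_ne_top]
    refine setLIntegral_mono' measurableSet_Ioi fun σ hσ => ?_
    have hσp : p.2 < σ := hσ
    have hσ0 : 0 < σ := lt_trans hp hσp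
    rw [hGp (t', σ) hσ0, ← ENNReal.ofReal_mul (mul_nonneg h2s hw0),
      ← ENNReal.ofReal_mul (by positivity)]
    refine ENNReal.ofReal_le_ofReal ?_
    by_cases hmz : m (t', σ) = 0
    · rw [hmz, mul_zero]
      exact mul_nonneg (by positivity) (hg0 _)
    · have hy := hsupp _ hmz
      simp only at hy
      have hx : |p.1 - t'| ≤ s := by
        rw [abs_le]
        constructor <;> linarith [ht'.1, ht'.2]
      have hE := (E3 H (θ / 2) (by positivity) (by linarith) p.1 t' p.2 σ hσ0 (by linarith)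
        (by nlinarith) hσp.le).1
      have hO := bn_osc_nonneg H (t', σ) hσ0
      have hexp : Real.exp (-(t * Osc a b F p / 2)) ≤
          Real.exp (-(t * θ / 12 * Osc a b F (t', σ))) := by
        apply Real.exp_le_exp.2
        have h1 : θ / 6 * Osc a b F (t', σ) ≤ Osc a b F p := by
          have h2 : θ / 6 * Osc a b F (t', σ) ≤ θ / 6 * (3 / (θ / 2) * Osc a b F (p.1, p.2)) :=
            mul_le_mul_of_nonneg_left hE (by positivity)
          have h3 : θ / 6 * (3 / (θ / 2)) = 1 := by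
            field_simp
            norm_num
          have h4 : θ / 6 * (3 / (θ / 2) * Osc a b F (p.1, p.2)) = Osc a b F p := by
            rw [← mul_assoc, h3, one_mul]
          linarith
        nlinarith [mul_le_mul_of_nonneg_left h1 ht.le]
      have hq : qk z p ≤ 12 / θ ^ 2 * qk z (t', σ) := by
        apply bn_qk_le z p (t', σ) hz hp hσ0
        simp only
        rcases bn_far θ h s (p.1 - z.1) (p.1 - t') (t' - z.1) p.2 σ z.2 hθ hθ1 hh hs hs2 hp hz
          hx (by ring) hph hy.2 with h1 | h1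
        · exact h1
        · linarith
      have hq0 := bn_qk_nonneg z p hz
      have hq1 := bn_qk_nonneg z (t', σ) hz
      calc 2 / s * (Real.exp (-(t * Osc a b F p / 2)) * qk z p) * m (t', σ)
          ≤ 2 / s * (Real.exp (-(t * θ / 12 * Osc a b F (t', σ))) *
            (12 / θ ^ 2 * qk z (t', σ))) * m (t', σ) := by
            have := m0 (t', σ)
            gcongr
        _ = 2 / s * (12 / θ ^ 2) * g (t', σ) := by
            change _ = 2 / s * (12 / θ ^ 2) *
              (m (t', σ) * Real.exp (-(t * θ / 12 * Osc a b F (t', σ))) * qk z (t', σ))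
            ring
  -- assembling
  have hsum : ∫⁻ p in HP, ENNReal.ofReal (Real.exp (-(t * Osc a b F p / 2))
        * (|X1 p| + (if θ * h ≤ p.2 then X2 p else 0)) * qk z p) ≤
      ∫⁻ p in HP, (ENNReal.ofReal 3 * (∫⁻ t' in Set.Icc (p.1 - s) (p.1 + s), G (t', p.2)) +
        ENNReal.ofReal (2 / s * (12 / θ ^ 2)) *
        ∫⁻ t' in Set.Icc (p.1 - s) (p.1 + s), ∫⁻ σ in Set.Ioi p.2, G (t', σ)) := by
    refine setLIntegral_mono' bn_HP_meas fun p hp => ?_
    have hp' : 0 < p.2 := hp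
    have e1 : Real.exp (-(t * Osc a b F p / 2))
        * (|X1 p| + (if θ * h ≤ p.2 then X2 p else 0)) * qk z p =
        Real.exp (-(t * Osc a b F p / 2)) * |X1 p| * qk z p +
        Real.exp (-(t * Osc a b F p / 2)) * (if θ * h ≤ p.2 then X2 p else 0) * qk z p := by
      ring
    rw [e1]
    refine ENNReal.ofReal_add_le.trans ?_
    exact add_le_add (hP1 p hp') (hP2 p hp')
  refine hsum.trans ?_
  have hm1 := bn_meas_Icc G hGm s
  have hm2 : Measurable (fun p : ℝ × ℝ => ∫⁻ t' in Set.Icc (p.1 - s) (p.1 + s),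
      ∫⁻ σ in Set.Ioi p.2, G (t', σ)) :=
    bn_meas_Icc (fun p => ∫⁻ σ in Set.Ioi p.2, G (p.1, σ)) (bn_meas_Ioi G hGm) s
  rw [lintegral_add_left (hm1.const_mul _), lintegral_const_mul _ hm1, lintegral_const_mul _ hm2,
    bn_T1 G hGm s, bn_T2 G hGm s]
  have hc1 : ENNReal.ofReal (2 * s) * ∫⁻ p in HP, G p ≤ ∫⁻ p in HP, ENNReal.ofReal p.2 * G p := by
    rw [← lintegral_const_mul _ hGm]
    refine setLIntegral_mono' bn_HP_meas fun p hp => ?_
    have hp' : 0 < p.2 := hp
    by_cases hmz : m p = 0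
    · have hG0 : G p = 0 := by
        rw [hGp p hp']
        change ENNReal.ofReal (m p * _ * _) = 0
        rw [hmz, zero_mul, zero_mul, ENNReal.ofReal_zero]
      rw [hG0, mul_zero, mul_zero]
    · have hy := hsupp _ hmz
      exact mul_le_mul_left (ENNReal.ofReal_le_ofReal (by linarith)) _
  set R := ∫⁻ p in HP, ENNReal.ofReal p.2 * G p with hRR
  calc ENNReal.ofReal 3 * (ENNReal.ofReal (2 * s) * ∫⁻ p in HP, G p) +
        ENNReal.ofReal (2 / s * (12 / θ ^ 2)) * (ENNReal.ofReal (2 * s) * R)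
      ≤ ENNReal.ofReal 3 * R + ENNReal.ofReal (2 / s * (12 / θ ^ 2)) *
        (ENNReal.ofReal (2 * s) * R) := by
        gcongr
    _ = ENNReal.ofReal (3 + 2 / s * (12 / θ ^ 2) * (2 * s)) * R := by
        rw [ENNReal.ofReal_add (by norm_num) (by positivity),
          ENNReal.ofReal_mul (by positivity : (0 : ℝ) ≤ 2 / s * (12 / θ ^ 2)), add_mul, mul_assoc]
    _ ≤ ENNReal.ofReal (100 / θ ^ 2) * R := by
        have h1 : 3 + 2 / s * (12 / θ ^ 2) * (2 * s) ≤ 100 / θ ^ 2 := by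
          have h2 : 2 / s * (12 / θ ^ 2) * (2 * s) = 48 / θ ^ 2 := by
            field_simp
            ring
          rw [h2]
          have h3 : 3 ≤ 52 / θ ^ 2 := by
            rw [le_div_iff₀ (by positivity)]
            nlinarith
          have h4 : 100 / θ ^ 2 = 52 / θ ^ 2 + 48 / θ ^ 2 := by ring
          linarith
        gcongr

end Pool.H14.SR

end S_BN

noncomputable section S_BF

open MeasureTheory Set Filter Topology
namespace Pool.H14.SR

namespace BFaux

theorem ofReal_integral_le {α : Type*} [MeasurableSpace α] (μ : Measure α) (f : α → ℝ)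
    (h : ∀ x, 0 ≤ f x) : ENNReal.ofReal (∫ x, f x ∂μ) ≤ ∫⁻ x, ENNReal.ofReal (f x) ∂μ := by
  by_cases hi : Integrable f μ
  · rw [ofReal_integral_eq_lintegral_ofReal hi (ae_of_all _ h)]
  · rw [integral_undef hi]; simp

theorem X2_le (s : ℝ) (hs : 0 < s) (m : ℝ × ℝ → ℝ) (m0 : ∀ p, 0 ≤ m p) (X2 : ℝ × ℝ → ℝ)
    (hX2 : ∀ p : ℝ × ℝ, 0 ≤ X2 p ∧
        X2 p ≤ 2 / s * ∫ t in Set.Icc (p.1 - s) (p.1 + s), ∫ y in Set.Ioi p.2, m (t, y))
    (p : ℝ × ℝ) :
    ENNReal.ofReal (X2 p) ≤ ENNReal.ofReal (2 / s) *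
      ∫⁻ t in Icc (p.1 - s) (p.1 + s), ∫⁻ y, ENNReal.ofReal (m (t, y)) := by
  refine (ENNReal.ofReal_le_ofReal (hX2 p).2).trans ?_
  rw [ENNReal.ofReal_mul (by positivity)]
  gcongr
  refine (ofReal_integral_le _ _ fun t => integral_nonneg fun y => m0 _).trans ?_
  refine lintegral_mono fun t => ?_
  refine (ofReal_integral_le _ _ fun y => m0 _).trans ?_
  exact setLIntegral_le_lintegral _ _

theorem cauchy (c w : ℝ) (hw : 0 < w) :
    Integrable (fun x : ℝ => 1 / ((x - c) ^ 2 + w ^ 2)) ∧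
      ∫ x : ℝ, 1 / ((x - c) ^ 2 + w ^ 2) = Real.pi / w := by
  have h1 : (fun x : ℝ => 1 / ((x - c) ^ 2 + w ^ 2)) =
      fun x => (w ^ 2)⁻¹ * (fun t : ℝ => (1 + t ^ 2)⁻¹) ((x - c) / w) := by
    ext x
    have : (x - c) ^ 2 + w ^ 2 ≠ 0 := by positivity
    field_simp
    ring
  constructor
  · rw [h1]
    apply Integrable.const_mul
    have h2 := (integrable_inv_one_add_sq.comp_div hw.ne').comp_sub_right c
    exact h2
  · rw [h1, integral_const_mul]
    rw [integral_sub_right_eq_self (μ := volume) (fun x => (fun t : ℝ => (1 + t ^ 2)⁻¹) (x / w)) c]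
    rw [Measure.integral_comp_div (fun t : ℝ => (1 + t ^ 2)⁻¹) w, integral_univ_inv_one_add_sq,
      abs_of_pos hw, smul_eq_mul]
    field_simp

theorem log_le (u : ℝ) (hu : 0 ≤ u) : Real.log (1 + u) ≤ Real.sqrt u := by
  set v := Real.sqrt u with hv
  have hv0 : 0 ≤ v := Real.sqrt_nonneg _
  have e : u = v ^ 2 := (Real.sq_sqrt hu).symm
  rw [Real.log_le_iff_le_exp (by positivity), e]
  have h1 := Real.quadratic_le_exp_of_nonneg (x := v / 2) (by positivity)
  have h2 : Real.exp v = Real.exp (v / 2) ^ 2 := by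
    rw [← Real.exp_nat_mul]; congr 1; push_cast; ring
  rw [h2]
  have h3 : (1 + v / 2 + (v / 2) ^ 2 / 2) ^ 2 ≤ Real.exp (v / 2) ^ 2 :=
    pow_le_pow_left₀ (by positivity) h1 2
  refine le_trans ?_ h3
  nlinarith [mul_nonneg hv0 (sq_nonneg (v - 2)), mul_nonneg hv0 hv0, pow_nonneg hv0 4]

theorem qk_meas (z : ℝ × ℝ) : Measurable (qk z) := by
  unfold qk
  exact Measurable.div (by fun_prop) (by fun_prop)

theorem qk_nonneg (z : ℝ × ℝ) (hz : 0 < z.2) (p : ℝ × ℝ) : 0 ≤ qk z p := by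
  unfold qk
  positivity

theorem strip_set (c : ℝ) : HP ∩ {p : ℝ × ℝ | p.2 < c} = univ ×ˢ Ioo 0 c := by
  ext p
  simp [HP]

theorem qk_int (z : ℝ × ℝ) (hz : 0 < z.2) (c : ℝ) (hc : 0 < c) :
    ∫⁻ p in HP ∩ {p | p.2 < c}, ENNReal.ofReal (qk z p) ≤
      ENNReal.ofReal (4 * Real.pi * z.2 * Real.sqrt (c / z.2)) := by
  have hpi := Real.pi_pos
  rw [strip_set, Measure.volume_eq_prod, ← Measure.prod_restrict, Measure.restrict_univ]
  rw [lintegral_prod_symm _ (by exact (qk_meas z).ennreal_ofReal.aemeasurable)]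
  have h1 : ∀ y ∈ Ioo 0 c, ∫⁻ x, ENNReal.ofReal (qk z (x, y)) =
      ENNReal.ofReal (4 * Real.pi * z.2 * (1 / (y + z.2))) := by
    intro y hy
    have hw : 0 < y + z.2 := by linarith [hy.1]
    obtain ⟨a1, a2⟩ := cauchy z.1 (y + z.2) hw
    have e : ∀ x, qk z (x, y) = 4 * z.2 * (1 / ((x - z.1) ^ 2 + (y + z.2) ^ 2)) := by
      intro x; unfold qk; ring
    simp_rw [e]
    rw [← ofReal_integral_eq_lintegral_ofReal (a1.const_mul _)
      (ae_of_all _ fun x => by simp only [Pi.zero_apply]; positivity), integral_const_mul, a2]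
    congr 1
    ring
  rw [setLIntegral_congr_fun measurableSet_Ioo h1]
  have hcont : ContinuousOn (fun y : ℝ => 4 * Real.pi * z.2 * (1 / (y + z.2))) (Icc 0 c) := by
    apply ContinuousOn.mul continuousOn_const
    apply ContinuousOn.div continuousOn_const (by fun_prop)
    intro y hy
    have := hy.1
    positivity
  have hint : IntegrableOn (fun y : ℝ => 4 * Real.pi * z.2 * (1 / (y + z.2))) (Ioo 0 c) :=
    (hcont.integrableOn_compact isCompact_Icc).mono_set Ioo_subset_Icc_self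
  rw [← ofReal_integral_eq_lintegral_ofReal hint]
  · apply ENNReal.ofReal_le_ofReal
    rw [← integral_Ioc_eq_integral_Ioo, ← intervalIntegral.integral_of_le hc.le,
      intervalIntegral.integral_const_mul]
    have h2 : ∫ y in (0 : ℝ)..c, 1 / (y + z.2) = Real.log (c + z.2) - Real.log (0 + z.2) := by
      rw [intervalIntegral.integral_eq_sub_of_hasDerivAt (f := fun y => Real.log (y + z.2))]
      · intro y hy
        rw [uIcc_of_le hc.le] at hy
        have : y + z.2 ≠ 0 := by have := hy.1; positivity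
        have h3 := ((hasDerivAt_id y).add_const z.2).log this
        simpa using h3
      · apply ContinuousOn.intervalIntegrable
        rw [uIcc_of_le hc.le]
        apply ContinuousOn.div continuousOn_const (by fun_prop)
        intro y hy
        have := hy.1
        positivity
    rw [h2, zero_add, ← Real.log_div (by positivity) hz.ne']
    have h4 : (c + z.2) / z.2 = 1 + c / z.2 := by field_simp; ring
    rw [h4]
    exact mul_le_mul_of_nonneg_left (log_le _ (by positivity)) (by positivity)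
  · rw [EventuallyLE, ae_restrict_iff' measurableSet_Ioo]
    refine ae_of_all _ fun y hy => ?_
    have := hy.1
    simp only [Pi.zero_apply]
    positivity

end BFaux

/-- **(BF1)** Far part of the potential of one band, seen from below (`z_y ≤ h`).
Proof: `m ≤ Cm|a'|² ≤ 4Cm/h²` on `y ≥ h/2` (`hp_cauchy`), so `X₂ ≤ (2/s)(2s)(3h/2)(4Cm/h²) = 24Cm/h`, and
`∬_{0<y<θh} q_z = ∫_0^{θh} 4π z_y/(y+z_y) dy = 4π z_y log(1+θh/z_y) ≤ 4π z_y (θh/z_y)^{1/2}`; `96π ≤ 320`. -/
theorem BF1 (ρ : ℝ) (hρ : 1 < ρ) (a : ℂ → ℂ) (ha : DifferentiableOn ℂ a (Metric.ball 0 ρ))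
    (ha1 : ∀ w ∈ Metric.ball (0 : ℂ) ρ, ‖a w‖ ≤ 1) (Cm h s θ : ℝ) (hCm : 0 ≤ Cm) (hh : 0 < h)
    (hs : 0 < s) (hθ : 0 < θ) (m : ℝ × ℝ → ℝ) (hm : Continuous m) (m0 : ∀ p, 0 ≤ m p)
    (hma : ∀ p : ℝ × ℝ, 0 < p.2 → m p ≤ Cm * ‖hp (Dz a) p‖ ^ 2)
    (hsupp : ∀ p : ℝ × ℝ, m p ≠ 0 → h / 2 ≤ p.2 ∧ p.2 ≤ 2 * h)
    (X2 : ℝ × ℝ → ℝ) (hX2c : Measurable X2)
    (hX2 : ∀ p : ℝ × ℝ, 0 ≤ X2 p ∧
        X2 p ≤ 2 / s * ∫ t in Set.Icc (p.1 - s) (p.1 + s), ∫ y in Set.Ioi p.2, m (t, y))
    (z : ℝ × ℝ) (hz : 0 < z.2) :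
    ∫⁻ p in HP ∩ {p | p.2 < θ * h}, ENNReal.ofReal (X2 p * qk z p)
      ≤ ENNReal.ofReal (320 * Cm * Real.sqrt θ * Real.sqrt (z.2 / h)) := by
  have hpi := Real.pi_pos
  have hlog : 0 < Real.log ρ := Real.log_pos hρ
  -- bound of m
  have hmb : ∀ p, m p ≤ 4 * Cm / h ^ 2 := by
    intro p
    by_cases hne : m p = 0
    · rw [hne]; positivity
    · obtain ⟨h1, h2⟩ := hsupp p hne
      have hp0 : 0 < p.2 := by linarith
      have h3 := hp_cauchy a ρ (by linarith) ha ha1 p (by linarith)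
      have h4 : ‖hp (Dz a) p‖ ≤ 2 / h := by
        refine h3.trans ?_
        rw [div_le_div_iff₀ (by linarith) hh]
        linarith
      have h5 : ‖hp (Dz a) p‖ ^ 2 ≤ (2 / h) ^ 2 := pow_le_pow_left₀ (norm_nonneg _) h4 2
      calc m p ≤ Cm * ‖hp (Dz a) p‖ ^ 2 := hma p hp0
        _ ≤ Cm * (2 / h) ^ 2 := mul_le_mul_of_nonneg_left h5 hCm
        _ = _ := by ring
  have hmi : ∀ t, ∫⁻ y, ENNReal.ofReal (m (t, y)) ≤ ENNReal.ofReal (6 * Cm / h) := by
    intro t
    calc ∫⁻ y, ENNReal.ofReal (m (t, y))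
        ≤ ∫⁻ y, (Icc (h / 2) (2 * h)).indicator (fun _ => ENNReal.ofReal (4 * Cm / h ^ 2)) y := by
          refine lintegral_mono fun y => ?_
          by_cases hy : y ∈ Icc (h / 2) (2 * h)
          · rw [indicator_of_mem hy]
            exact ENNReal.ofReal_le_ofReal (hmb _)
          · rw [indicator_of_notMem hy]
            have : m (t, y) = 0 := by
              by_contra hne
              exact hy (hsupp _ hne)
            rw [this]; simp
      _ = ENNReal.ofReal (4 * Cm / h ^ 2) * ENNReal.ofReal (2 * h - h / 2) := by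
          rw [lintegral_indicator measurableSet_Icc, setLIntegral_const, Real.volume_Icc]
      _ = ENNReal.ofReal (6 * Cm / h) := by
          rw [← ENNReal.ofReal_mul (by positivity)]
          congr 1
          field_simp
          ring
  have hX : ∀ p, ENNReal.ofReal (X2 p) ≤ ENNReal.ofReal (24 * Cm / h) := by
    intro p
    refine (BFaux.X2_le s hs m m0 X2 hX2 p).trans ?_
    calc ENNReal.ofReal (2 / s) * ∫⁻ t in Icc (p.1 - s) (p.1 + s), ∫⁻ y, ENNReal.ofReal (m (t, y))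
        ≤ ENNReal.ofReal (2 / s) * ∫⁻ t in Icc (p.1 - s) (p.1 + s), ENNReal.ofReal (6 * Cm / h) := by
          gcongr with t
          exact hmi t
      _ = ENNReal.ofReal (24 * Cm / h) := by
          rw [setLIntegral_const, Real.volume_Icc, ← ENNReal.ofReal_mul (by positivity),
            ← ENNReal.ofReal_mul (by positivity)]
          congr 1
          field_simp
          ring
  calc ∫⁻ p in HP ∩ {p | p.2 < θ * h}, ENNReal.ofReal (X2 p * qk z p)
      ≤ ∫⁻ p in HP ∩ {p | p.2 < θ * h}, ENNReal.ofReal (24 * Cm / h) * ENNReal.ofReal (qk z p) := by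
        refine lintegral_mono fun p => ?_
        rw [ENNReal.ofReal_mul (hX2 p).1]
        exact mul_le_mul' (hX p) le_rfl
    _ = ENNReal.ofReal (24 * Cm / h) * ∫⁻ p in HP ∩ {p | p.2 < θ * h}, ENNReal.ofReal (qk z p) :=
        lintegral_const_mul _ (BFaux.qk_meas z).ennreal_ofReal
    _ ≤ ENNReal.ofReal (24 * Cm / h) *
        ENNReal.ofReal (4 * Real.pi * z.2 * Real.sqrt (θ * h / z.2)) := by
        gcongr
        exact BFaux.qk_int z hz _ (by positivity)
    _ ≤ ENNReal.ofReal (320 * Cm * Real.sqrt θ * Real.sqrt (z.2 / h)) := by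
        rw [← ENNReal.ofReal_mul (by positivity)]
        apply ENNReal.ofReal_le_ofReal
        have e1 : Real.sqrt (θ * h / z.2) = Real.sqrt θ * (h / z.2 * Real.sqrt (z.2 / h)) := by
          have e2 : θ * h / z.2 = θ * ((h / z.2) ^ 2 * (z.2 / h)) := by field_simp
          rw [e2, Real.sqrt_mul hθ.le, Real.sqrt_mul (by positivity), Real.sqrt_sq (by positivity)]
        rw [e1]
        have e3 : 24 * Cm / h * (4 * Real.pi * z.2 * (Real.sqrt θ * (h / z.2 * Real.sqrt (z.2 / h)))) =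
            (96 * Real.pi) * (Cm * Real.sqrt θ * Real.sqrt (z.2 / h)) := by
          field_simp
          ring
        rw [e3]
        have e4 : 96 * Real.pi ≤ 320 := by nlinarith [Real.pi_lt_d2]
        calc (96 * Real.pi) * (Cm * Real.sqrt θ * Real.sqrt (z.2 / h))
            ≤ 320 * (Cm * Real.sqrt θ * Real.sqrt (z.2 / h)) :=
              mul_le_mul_of_nonneg_right e4 (by positivity)
          _ = _ := by ring

/-- **(BF2)** Far part of the potential of one band, seen from above (`h ≤ z_y`).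
Proof: Tonelli; for `0 < y < θh ≤ h/4`, `h/2 ≤ σ ≤ 2h ≤ 2z_y`, `|x-t'| ≤ s ≤ h/4`: `q_z(x,y) ≤ 10 q_z(t',σ)`
(`(x_z-t')²+(z_y+σ)² ≤ 2(x_z-x)²+2s²+9z_y² ≤ 10((x_z-x)²+(y+z_y)²)`), so the integral is
`≤ (2/s)(2s)(θh)·10 ∬ m q_z ≤ 80 θ ∬ m σ q_z`. -/
theorem BF2 (h s θ : ℝ) (hh : 0 < h)
    (hs : 0 < s) (hs2 : s ≤ h / 4) (hθ : 0 < θ) (hθ1 : θ ≤ 1 / 4)
    (m : ℝ × ℝ → ℝ) (hm : Continuous m) (m0 : ∀ p, 0 ≤ m p)
    (hsupp : ∀ p : ℝ × ℝ, m p ≠ 0 → h / 2 ≤ p.2 ∧ p.2 ≤ 2 * h)
    (X2 : ℝ × ℝ → ℝ) (hX2c : Measurable X2)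
    (hX2 : ∀ p : ℝ × ℝ, 0 ≤ X2 p ∧
        X2 p ≤ 2 / s * ∫ t in Set.Icc (p.1 - s) (p.1 + s), ∫ y in Set.Ioi p.2, m (t, y))
    (z : ℝ × ℝ) (hz : h ≤ z.2) :
    ∫⁻ p in HP ∩ {p | p.2 < θ * h}, ENNReal.ofReal (X2 p * qk z p)
      ≤ ENNReal.ofReal (80 * θ) * ∫⁻ p in HP, ENNReal.ofReal (m p * (p.2 * qk z p)) := by
  have hz0 : 0 < z.2 := by linarith
  set W : ℝ → ENNReal := fun t => ∫⁻ y, ENNReal.ofReal (m (t, y) * qk z (t, y)) with hW
  have hmq : Measurable fun p : ℝ × ℝ => ENNReal.ofReal (m p * qk z p) :=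
    (hm.measurable.mul (BFaux.qk_meas z)).ennreal_ofReal
  have hWm : Measurable W := hmq.lintegral_prod_right'
  -- kernel comparison
  have hker : ∀ x y t σ : ℝ, 0 < y → |x - t| ≤ s → h / 2 ≤ σ → σ ≤ 2 * h →
      qk z (x, y) ≤ 10 * qk z (t, σ) := by
    intro x y t σ hy hxt h1 h2
    unfold qk
    simp only
    have hD1 : 0 < (x - z.1) ^ 2 + (y + z.2) ^ 2 := by positivity
    have hD2 : 0 < (t - z.1) ^ 2 + (σ + z.2) ^ 2 := by
      have : 0 < σ + z.2 := by linarith
      positivity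
    have h3 : (t - z.1) ^ 2 + (σ + z.2) ^ 2 ≤ 10 * ((x - z.1) ^ 2 + (y + z.2) ^ 2) := by
      have g1 : (x - t) ^ 2 ≤ s ^ 2 := by
        rw [← sq_abs (x - t)]
        exact pow_le_pow_left₀ (abs_nonneg _) hxt 2
      have g2 : s ^ 2 ≤ (z.2 / 4) ^ 2 := pow_le_pow_left₀ hs.le (by linarith) 2
      have g3 : (σ + z.2) ^ 2 ≤ (3 * z.2) ^ 2 := pow_le_pow_left₀ (by linarith) (by linarith) 2
      have g4 : z.2 ^ 2 ≤ (y + z.2) ^ 2 := pow_le_pow_left₀ hz0.le (by linarith) 2
      have g5 : (t - z.1) ^ 2 ≤ 2 * (x - z.1) ^ 2 + 2 * (x - t) ^ 2 := by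
        nlinarith [sq_nonneg ((x - z.1) + (x - t))]
      nlinarith [sq_nonneg (x - z.1)]
    rw [← mul_div_assoc, div_le_div_iff₀ hD1 hD2]
    calc 4 * z.2 * ((t - z.1) ^ 2 + (σ + z.2) ^ 2)
        ≤ 4 * z.2 * (10 * ((x - z.1) ^ 2 + (y + z.2) ^ 2)) :=
          mul_le_mul_of_nonneg_left h3 (by positivity)
      _ = _ := by ring
  -- pointwise
  have hpt : ∀ p : ℝ × ℝ, 0 < p.2 → ENNReal.ofReal (X2 p * qk z p) ≤
      ENNReal.ofReal (20 / s) * ∫⁻ t in Icc (p.1 - s) (p.1 + s), W t := by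
    intro p hp0
    rw [ENNReal.ofReal_mul (hX2 p).1]
    have e1 : ENNReal.ofReal (X2 p) * ENNReal.ofReal (qk z p) ≤
        ENNReal.ofReal (2 / s) * (∫⁻ t in Icc (p.1 - s) (p.1 + s), ∫⁻ y, ENNReal.ofReal (m (t, y)))
          * ENNReal.ofReal (qk z p) := by
      gcongr
      exact BFaux.X2_le s hs m m0 X2 hX2 p
    refine e1.trans ?_
    have e2 : (∫⁻ t in Icc (p.1 - s) (p.1 + s), ∫⁻ y, ENNReal.ofReal (m (t, y)))
          * ENNReal.ofReal (qk z p) ≤ 10 * ∫⁻ t in Icc (p.1 - s) (p.1 + s), W t := by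
      rw [← lintegral_mul_const' _ _ ENNReal.ofReal_ne_top, ← lintegral_const_mul' _ _ (by norm_num)]
      refine setLIntegral_mono' measurableSet_Icc fun t ht => ?_
      rw [← lintegral_mul_const' _ _ ENNReal.ofReal_ne_top, ← lintegral_const_mul' _ _ (by norm_num)]
      refine lintegral_mono fun y => ?_
      by_cases hne : m (t, y) = 0
      · rw [hne]; simp
      · obtain ⟨h1, h2⟩ := hsupp _ hne
        have h3 := hker p.1 p.2 t y hp0 (by rw [abs_le]; constructor <;> linarith [ht.1, ht.2]) h1 h2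
        rw [← ENNReal.ofReal_mul (m0 _)]
        have h4 : (10 : ENNReal) = ENNReal.ofReal 10 := by norm_num
        rw [h4, ← ENNReal.ofReal_mul (by norm_num)]
        apply ENNReal.ofReal_le_ofReal
        calc m (t, y) * qk z p ≤ m (t, y) * (10 * qk z (t, y)) :=
              mul_le_mul_of_nonneg_left h3 (m0 _)
          _ = _ := by ring
    calc ENNReal.ofReal (2 / s) * (∫⁻ t in Icc (p.1 - s) (p.1 + s), ∫⁻ y, ENNReal.ofReal (m (t, y)))
          * ENNReal.ofReal (qk z p)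
        = ENNReal.ofReal (2 / s) * ((∫⁻ t in Icc (p.1 - s) (p.1 + s), ∫⁻ y, ENNReal.ofReal (m (t, y)))
          * ENNReal.ofReal (qk z p)) := by rw [mul_assoc]
      _ ≤ ENNReal.ofReal (2 / s) * (10 * ∫⁻ t in Icc (p.1 - s) (p.1 + s), W t) := by gcongr
      _ = ENNReal.ofReal (20 / s) * ∫⁻ t in Icc (p.1 - s) (p.1 + s), W t := by
          rw [← mul_assoc]
          congr 1
          have h4 : (10 : ENNReal) = ENNReal.ofReal 10 := by norm_num
          rw [h4, ← ENNReal.ofReal_mul (by positivity)]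
          congr 1
          ring
  -- Tonelli in x
  have hTon : ∫⁻ x, ∫⁻ t in Icc (x - s) (x + s), W t = ENNReal.ofReal (2 * s) * ∫⁻ t, W t := by
    have e1 : ∀ x, ∫⁻ t in Icc (x - s) (x + s), W t =
        ∫⁻ t, W t * ({q : ℝ × ℝ | |q.1 - q.2| ≤ s}.indicator (fun _ => (1 : ENNReal)) (x, t)) := by
      intro x
      rw [← lintegral_indicator measurableSet_Icc]
      refine lintegral_congr fun t => ?_
      by_cases ht : t ∈ Icc (x - s) (x + s)
      · rw [indicator_of_mem ht, indicator_of_mem, mul_one]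
        show |x - t| ≤ s
        rw [abs_le]
        constructor <;> linarith [ht.1, ht.2]
      · rw [indicator_of_notMem ht, indicator_of_notMem, mul_zero]
        intro h
        have h' : |x - t| ≤ s := h
        rw [abs_le] at h'
        exact ht ⟨by linarith [h'.2], by linarith [h'.1]⟩
    simp_rw [e1]
    have hmeas : MeasurableSet {q : ℝ × ℝ | |q.1 - q.2| ≤ s} :=
      measurableSet_le (by fun_prop) measurable_const
    have hind : Measurable ({q : ℝ × ℝ | |q.1 - q.2| ≤ s}.indicator (fun _ => (1 : ENNReal))) :=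
      measurable_const.indicator hmeas
    rw [lintegral_lintegral_swap]
    · rw [← lintegral_const_mul _ hWm]
      refine lintegral_congr fun t => ?_
      have e2 : ∫⁻ x, ({q : ℝ × ℝ | |q.1 - q.2| ≤ s}.indicator (fun _ => (1 : ENNReal)) (x, t)) =
          ENNReal.ofReal (2 * s) := by
        have e3 : (fun x => ({q : ℝ × ℝ | |q.1 - q.2| ≤ s}.indicator (fun _ => (1 : ENNReal)) (x, t)))
            = (Icc (t - s) (t + s)).indicator (fun _ => (1 : ENNReal)) := by
          ext x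
          by_cases hx : x ∈ Icc (t - s) (t + s)
          · rw [indicator_of_mem hx, indicator_of_mem]
            show |x - t| ≤ s
            rw [abs_le]
            constructor <;> linarith [hx.1, hx.2]
          · rw [indicator_of_notMem hx, indicator_of_notMem]
            intro h
            have h' : |x - t| ≤ s := h
            rw [abs_le] at h'
            exact hx ⟨by linarith [h'.1], by linarith [h'.2]⟩
        rw [e3, lintegral_indicator measurableSet_Icc, setLIntegral_const, Real.volume_Icc, one_mul]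
        congr 1
        ring
      have hmt : Measurable fun x : ℝ =>
          ({q : ℝ × ℝ | |q.1 - q.2| ≤ s}.indicator (fun _ => (1 : ENNReal)) (x, t)) :=
        hind.comp (measurable_id.prodMk measurable_const)
      rw [lintegral_const_mul _ hmt, e2, mul_comm]
    · exact ((hWm.comp measurable_snd).mul hind).aemeasurable
  calc ∫⁻ p in HP ∩ {p | p.2 < θ * h}, ENNReal.ofReal (X2 p * qk z p)
      ≤ ∫⁻ p in HP ∩ {p | p.2 < θ * h},
          ENNReal.ofReal (20 / s) * ∫⁻ t in Icc (p.1 - s) (p.1 + s), W t := by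
        refine setLIntegral_mono' ?_ fun p hp => hpt p hp.1
        rw [BFaux.strip_set]
        exact MeasurableSet.univ.prod measurableSet_Ioo
    _ = ENNReal.ofReal (θ * h) * (ENNReal.ofReal (20 / s) * (ENNReal.ofReal (2 * s) * ∫⁻ t, W t)) := by
        rw [lintegral_const_mul' _ _ ENNReal.ofReal_ne_top]
        rw [BFaux.strip_set, Measure.volume_eq_prod, ← Measure.prod_restrict, Measure.restrict_univ]
        have hm1 : Measurable fun x : ℝ => ∫⁻ t in Icc (x - s) (x + s), W t := by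
          have e4 : (fun x : ℝ => ∫⁻ t in Icc (x - s) (x + s), W t) = fun x =>
              ∫⁻ t, ({q : ℝ × ℝ | |q.1 - q.2| ≤ s}.indicator (fun q => W q.2) (x, t)) := by
            ext x
            rw [← lintegral_indicator measurableSet_Icc]
            refine lintegral_congr fun t => ?_
            by_cases ht : t ∈ Icc (x - s) (x + s)
            · rw [indicator_of_mem ht, indicator_of_mem]
              show |x - t| ≤ s
              rw [abs_le]
              constructor <;> linarith [ht.1, ht.2]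
            · rw [indicator_of_notMem ht, indicator_of_notMem]
              intro h
              have h' : |x - t| ≤ s := h
              rw [abs_le] at h'
              exact ht ⟨by linarith [h'.2], by linarith [h'.1]⟩
          rw [e4]
          have hmeas : MeasurableSet {q : ℝ × ℝ | |q.1 - q.2| ≤ s} :=
            measurableSet_le (by fun_prop) measurable_const
          exact ((hWm.comp measurable_snd).indicator hmeas).lintegral_prod_right'
        rw [lintegral_prod _ (by exact (hm1.comp measurable_fst).aemeasurable)]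
        simp only [lintegral_const, Measure.restrict_apply MeasurableSet.univ, univ_inter,
          Real.volume_Ioo, sub_zero]
        rw [lintegral_mul_const _ hm1, hTon]
        ring
    _ = ∫⁻ t, ∫⁻ y, ENNReal.ofReal (40 * θ * h) * ENNReal.ofReal (m (t, y) * qk z (t, y)) := by
        rw [← mul_assoc, ← mul_assoc, ← ENNReal.ofReal_mul (by positivity),
          ← ENNReal.ofReal_mul (by positivity)]
        have e5 : θ * h * (20 / s) * (2 * s) = 40 * θ * h := by field_simp; ring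
        rw [e5, ← lintegral_const_mul _ hWm]
        refine lintegral_congr fun t => ?_
        rw [lintegral_const_mul' _ _ ENNReal.ofReal_ne_top]
    _ ≤ ∫⁻ t, ∫⁻ y, ENNReal.ofReal (80 * θ) *
          HP.indicator (fun p => ENNReal.ofReal (m p * (p.2 * qk z p))) (t, y) := by
        refine lintegral_mono fun t => lintegral_mono fun y => ?_
        by_cases hne : m (t, y) = 0
        · simp only
          rw [hne]; simp
        · obtain ⟨h1, h2⟩ := hsupp _ hne
          simp only at h1 h2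
          have hmem : (t, y) ∈ HP := by
            show 0 < y
            linarith
          simp only
          rw [indicator_of_mem hmem, ← ENNReal.ofReal_mul (by positivity),
            ← ENNReal.ofReal_mul (by positivity)]
          apply ENNReal.ofReal_le_ofReal
          have h3 := mul_nonneg (m0 (t, y)) (BFaux.qk_nonneg z hz0 (t, y))
          calc 40 * θ * h * (m (t, y) * qk z (t, y)) ≤ 40 * θ * (2 * y) * (m (t, y) * qk z (t, y)) := by
                apply mul_le_mul_of_nonneg_right _ h3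
                apply mul_le_mul_of_nonneg_left (by linarith) (by positivity)
            _ = _ := by ring
    _ = ENNReal.ofReal (80 * θ) * ∫⁻ p in HP, ENNReal.ofReal (m p * (p.2 * qk z p)) := by
        have hHP : MeasurableSet HP := measurableSet_lt measurable_const measurable_snd
        have hmm : Measurable fun p : ℝ × ℝ => ENNReal.ofReal (m p * (p.2 * qk z p)) :=
          (hm.measurable.mul (measurable_snd.mul (BFaux.qk_meas z))).ennreal_ofReal
        rw [← lintegral_indicator hHP, Measure.volume_eq_prod, lintegral_prod]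
        · rw [← lintegral_const_mul']
          · refine lintegral_congr fun t => ?_
            rw [lintegral_const_mul' _ _ ENNReal.ofReal_ne_top]
          · exact ENNReal.ofReal_ne_top
        · exact (hmm.indicator hHP).aemeasurable

end Pool.H14.SR

end S_BF

noncomputable section S_BS

open MeasureTheory Set Filter Topology
namespace Pool.H14.SR

namespace BSaux

theorem geo (r : ℝ) (hr : 0 < r) (K : ℕ) :
    (∑ k ∈ Finset.range K, (if r * 2 ^ k ≤ 1 then Real.sqrt (r * 2 ^ k) else 0))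
        ≤ (Real.sqrt 2 + 1) * Real.sqrt (r * 2 ^ K) ∧
    (∑ k ∈ Finset.range K, (if r * 2 ^ k ≤ 1 then Real.sqrt (r * 2 ^ k) else 0))
        ≤ (Real.sqrt 2 + 1) * Real.sqrt 2 := by
  have h2 : Real.sqrt 2 * Real.sqrt 2 = 2 := Real.mul_self_sqrt (by norm_num)
  have h20 : 0 ≤ Real.sqrt 2 := Real.sqrt_nonneg 2
  induction K with
  | zero =>
    simp only [Finset.range_zero, Finset.sum_empty]
    exact ⟨by positivity, by positivity⟩
  | succ K ih =>
    rw [Finset.sum_range_succ]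
    have hs : Real.sqrt (r * 2 ^ (K + 1)) = Real.sqrt 2 * Real.sqrt (r * 2 ^ K) := by
      rw [← Real.sqrt_mul (by norm_num)]
      congr 1
      ring
    have hw0 : 0 ≤ Real.sqrt (r * 2 ^ K) := Real.sqrt_nonneg _
    by_cases hc : r * 2 ^ K ≤ 1
    · rw [if_pos hc]
      have hw1 : Real.sqrt (r * 2 ^ K) ≤ 1 := by
        rw [Real.sqrt_le_one]
        exact hc
      constructor
      · rw [hs]
        nlinarith [ih.1]
      · nlinarith [ih.1]
    · rw [if_neg hc, add_zero]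
      refine ⟨?_, ih.2⟩
      rw [hs]
      have h1 : (1 : ℝ) ≤ Real.sqrt 2 := by
        rw [show (1:ℝ) = Real.sqrt 1 by simp]
        exact Real.sqrt_le_sqrt (by norm_num)
      have := ih.1
      nlinarith [mul_nonneg (mul_nonneg (by linarith : (0:ℝ) ≤ Real.sqrt 2 + 1) hw0)
        (by linarith : (0:ℝ) ≤ Real.sqrt 2 - 1)]

theorem meas_qk (z : ℝ × ℝ) : Measurable (qk z) := by
  unfold qk
  fun_prop

theorem qk_nn (z p : ℝ × ℝ) (hz : 0 < z.2) : 0 ≤ qk z p := by
  unfold qk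
  positivity

theorem meas_HP : MeasurableSet HP := by
  unfold HP
  exact measurableSet_lt measurable_const measurable_snd

theorem mem_ball_of_HP {ρ : ℝ} (hρ : 1 < ρ) {p : ℝ × ℝ} (hp : 0 < p.2) :
    E p ∈ Metric.ball (0 : ℂ) ρ := by
  apply E_mem_ball (by linarith)
  have := Real.log_pos hρ
  linarith

theorem osc_nn {δ ρ : ℝ} {a b F : ℂ → ℂ} (H : Dat δ ρ a b F) {p : ℝ × ℝ} (hp : 0 < p.2) :
    0 ≤ Osc a b F p := by
  have := H.hO (E p) (mem_ball_of_HP H.hρ hp)
  unfold Osc Pool.H14.SR.hp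
  linarith

theorem osc_le {δ ρ : ℝ} {a b F : ℂ → ℂ} (H : Dat δ ρ a b F) {p : ℝ × ℝ} (hp : 0 < p.2) :
    Osc a b F p ≤ 2 := by
  have := H.hO2 (E p) (mem_ball_of_HP H.hρ hp)
  unfold Osc Pool.H14.SR.hp
  have h1 : 0 ≤ ‖a (E p)‖ ^ 2 := by positivity
  have h2 : 0 ≤ ‖b (E p)‖ ^ 2 := by positivity
  linarith

theorem osc_cont {δ ρ : ℝ} {a b F : ℂ → ℂ} (H : Dat δ ρ a b F) :
    ContinuousOn (Osc a b F) HP := by
  have h0 : (HP : Set (ℝ × ℝ)) ⊆ {p | -Real.log ρ < p.2} := by
    intro p hp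
    have := Real.log_pos H.hρ
    have hp' : 0 < p.2 := hp
    show -Real.log ρ < p.2
    linarith
  have hF := (hp_cont (by linarith [H.hρ]) H.hF.continuousOn).mono h0
  have ha := (hp_cont (by linarith [H.hρ]) H.ha.continuousOn).mono h0
  have hb := (hp_cont (by linarith [H.hρ]) H.hb.continuousOn).mono h0
  unfold Osc
  exact ((Complex.continuous_re.comp_continuousOn hF).sub (ha.norm.pow 2)).sub (hb.norm.pow 2)

theorem osc_meas {δ ρ : ℝ} {a b F : ℂ → ℂ} (H : Dat δ ρ a b F) :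
    AEMeasurable (Osc a b F) (volume.restrict HP) :=
  (osc_cont H).aemeasurable meas_HP

end BSaux

open BSaux in
/-- **(BS)** The potential of all the bands `k < K`, heights `h_k = Y/2^k`.

Proof: `θ = t^{-1/4}/4 ∈ (0,1/4]`.  Near parts: `BN` for every `k`, `Σ m_k ≤ Cm|a'|²`, `E2` with `s = tθ/12`:
`≤ (100/θ²)Cm·12π/(tθ) = 1200π Cm/(θ³t) = 76800π Cm t^{-1/4} ≤ 242000 Cm t^{-1/8}`.  Far parts: bands with `h_k ≥ z_y`
(`BF1`): `Σ √(z_y/h_k) ≤ Σ_j 2^{-j/2} ≤ 3.42`, `≤ 320·3.42 Cm √θ ≤ 550 Cm t^{-1/8}`; bands with `h_k < z_y` (`BF2`, `E1`,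
`O ≤ 2`): `≤ 80θ·Cm·2π ≤ 130 Cm t^{-1/4}`. -/
theorem BS {δ ρ : ℝ} {a b F : ℂ → ℂ} (H : Dat δ ρ a b F) (Cm Y : ℝ) (hCm : 0 ≤ Cm) (hY : 0 < Y)
    (K : ℕ) (s : ℕ → ℝ) (hs : ∀ k < K, 0 < s k ∧ s k ≤ Y / 2 ^ k / 4)
    (m : ℕ → ℝ × ℝ → ℝ) (hm : ∀ k < K, Continuous (m k)) (m0 : ∀ k < K, ∀ p, 0 ≤ m k p)
    (hma : ∀ p : ℝ × ℝ, 0 < p.2 → ∑ k ∈ Finset.range K, m k p ≤ Cm * ‖hp (Dz a) p‖ ^ 2)
    (hsupp : ∀ k < K, ∀ p : ℝ × ℝ, m k p ≠ 0 → Y / 2 ^ k / 2 ≤ p.2 ∧ p.2 ≤ 2 * (Y / 2 ^ k))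
    (X1 X2 : ℕ → ℝ × ℝ → ℝ) (hX1c : ∀ k < K, Measurable (X1 k)) (hX2c : ∀ k < K, Measurable (X2 k))
    (hX1 : ∀ k < K, ∀ p : ℝ × ℝ, |X1 k p| ≤ ∫ t in Set.Icc (p.1 - s k) (p.1 + s k), m k (t, p.2))
    (hX2 : ∀ k < K, ∀ p : ℝ × ℝ, 0 ≤ X2 k p ∧
        X2 k p ≤ 2 / s k * ∫ t in Set.Icc (p.1 - s k) (p.1 + s k), ∫ y in Set.Ioi p.2, m k (t, y))
    (t : ℝ) (ht : 1 ≤ t) (z : ℝ × ℝ) (hz : 0 < z.2) :
    ∫⁻ p in HP, ENNReal.ofReal (Real.exp (-(t * Osc a b F p / 2))
        * (∑ k ∈ Finset.range K, (|X1 k p| + X2 k p)) * qk z p)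
      ≤ ENNReal.ofReal (250000 * Cm * t ^ (-(1 / 8) : ℝ)) := by
  have ht0 : 0 < t := by linarith
  -- powers of t
  set v : ℝ := t ^ (-(1 / 8) : ℝ) with hv
  have hv0 : 0 < v := Real.rpow_pos_of_pos ht0 _
  have hv1 : v ≤ 1 := by
    rw [hv]
    exact Real.rpow_le_one_of_one_le_of_nonpos ht (by norm_num)
  have hv8 : v ^ 8 * t = 1 := by
    have e1 : v ^ 8 = t ^ (-1 : ℝ) := by
      rw [hv, ← Real.rpow_natCast, ← Real.rpow_mul ht0.le]
      norm_num
    rw [e1, Real.rpow_neg_one]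
    field_simp
  set θ : ℝ := v ^ 2 / 4 with hθd
  have hθ : 0 < θ := by positivity
  have hθ1 : θ ≤ 1 / 4 := by
    have : v ^ 2 ≤ 1 := by nlinarith
    rw [hθd]
    linarith
  have hsθ : Real.sqrt θ = v / 2 := by
    rw [show θ = (v / 2) ^ 2 by rw [hθd]; ring, Real.sqrt_sq (by positivity)]
  have hOm := osc_meas H
  have hqm := meas_qk z
  have hq0 := fun p => qk_nn z p hz
  have hhk : ∀ k : ℕ, 0 < Y / 2 ^ k := fun k => by positivity
  -- band inequality
  have key : ∀ k ∈ Finset.range K,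
      ∫⁻ p in HP, ENNReal.ofReal (Real.exp (-(t * Osc a b F p / 2)) * (|X1 k p| + X2 k p) * qk z p)
      ≤ (ENNReal.ofReal (100 / θ ^ 2) * ∫⁻ p in HP, ENNReal.ofReal
        (m k p * Real.exp (-(t * θ / 12 * Osc a b F p)) * (p.2 * qk z p)))
        + ∫⁻ p in HP ∩ {p | p.2 < θ * (Y / 2 ^ k)}, ENNReal.ofReal (X2 k p * qk z p) := by
    intro k hk
    have hk' : k < K := Finset.mem_range.1 hk
    have hmC : MeasurableSet {p : ℝ × ℝ | p.2 < θ * (Y / 2 ^ k)} :=
      measurableSet_lt measurable_snd measurable_const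
    have hBN := BN H (Y / 2 ^ k) (s k) t θ (hhk k) (hs k hk').1 (hs k hk').2 ht0 hθ hθ1
      (m k) (hm k hk') (m0 k hk') (hsupp k hk') (X1 k) (X2 k) (hX1c k hk') (hX2c k hk')
      (hX1 k hk') (hX2 k hk') z hz
    have h1 : ∫⁻ p in HP, ENNReal.ofReal
          (Real.exp (-(t * Osc a b F p / 2)) * (|X1 k p| + X2 k p) * qk z p)
        ≤ ∫⁻ p in HP, (ENNReal.ofReal (Real.exp (-(t * Osc a b F p / 2))
        * (|X1 k p| + (if θ * (Y / 2 ^ k) ≤ p.2 then X2 k p else 0)) * qk z p)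
          + ({p : ℝ × ℝ | p.2 < θ * (Y / 2 ^ k)}.indicator
            (fun p => ENNReal.ofReal (X2 k p * qk z p))) p) := by
      apply setLIntegral_mono_ae' meas_HP
      filter_upwards with p hp
      have hp' : 0 < p.2 := hp
      by_cases hc : θ * (Y / 2 ^ k) ≤ p.2
      · rw [if_pos hc]
        exact le_self_add
      · rw [if_neg hc, Set.indicator_of_mem (show p ∈ {p : ℝ × ℝ | p.2 < θ * (Y / 2 ^ k)} from
          not_le.1 hc)]
        have e0 : 0 ≤ Real.exp (-(t * Osc a b F p / 2)) * (|X1 k p| + 0) * qk z p := by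
          have := abs_nonneg (X1 k p)
          have := hq0 p
          positivity
        have e1 : 0 ≤ X2 k p * qk z p := mul_nonneg (hX2 k hk' p).1 (hq0 p)
        rw [← ENNReal.ofReal_add e0 e1]
        apply ENNReal.ofReal_le_ofReal
        have e2 : Real.exp (-(t * Osc a b F p / 2)) ≤ 1 := by
          rw [Real.exp_le_one_iff]
          have := osc_nn H hp'
          have : 0 ≤ t * Osc a b F p := by positivity
          linarith
        have e3 : Real.exp (-(t * Osc a b F p / 2)) * (X2 k p * qk z p) ≤ 1 * (X2 k p * qk z p) :=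
          mul_le_mul_of_nonneg_right e2 e1
        nlinarith [e3]
    refine h1.trans ?_
    rw [lintegral_add_left']
    · apply add_le_add hBN
      rw [lintegral_indicator hmC, Measure.restrict_restrict hmC, inter_comm]
    · have e1 : Measurable (fun p : ℝ × ℝ => |X1 k p| + (if θ * (Y / 2 ^ k) ≤ p.2 then X2 k p else 0)) := by
        apply Measurable.add
        · exact (hX1c k hk').norm
        · exact Measurable.ite (measurableSet_le measurable_const measurable_snd) (hX2c k hk')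
            measurable_const
      have e2 : AEMeasurable (fun p : ℝ × ℝ => Real.exp (-(t * Osc a b F p / 2)))
          (volume.restrict HP) := by
        apply Real.measurable_exp.comp_aemeasurable
        exact ((hOm.const_mul t).div_const 2).neg
      exact ((e2.mul e1.aemeasurable).mul hqm.aemeasurable).ennreal_ofReal
  -- far parts
  have hOz : Osc a b F z ≤ 2 := osc_le H hz
  have hOz0 : 0 ≤ Osc a b F z := osc_nn H hz
  have hfar : ∀ k ∈ Finset.range K,
      ∫⁻ p in HP ∩ {p | p.2 < θ * (Y / 2 ^ k)}, ENNReal.ofReal (X2 k p * qk z p)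
      ≤ ENNReal.ofReal (320 * Cm * Real.sqrt θ *
          (if (z.2 / Y) * 2 ^ k ≤ 1 then Real.sqrt ((z.2 / Y) * 2 ^ k) else 0))
        + ENNReal.ofReal (80 * θ) * ∫⁻ p in HP, ENNReal.ofReal (m k p * (p.2 * qk z p)) := by
    intro k hk
    have hk' : k < K := Finset.mem_range.1 hk
    have hrat : z.2 / (Y / 2 ^ k) = (z.2 / Y) * 2 ^ k := by
      field_simp
    by_cases hc : (z.2 / Y) * 2 ^ k ≤ 1
    · rw [if_pos hc, ← hrat]
      refine le_trans ?_ le_self_add
      apply BF1 ρ H.hρ a H.ha H.ha1 Cm (Y / 2 ^ k) (s k) θ hCm (hhk k) (hs k hk').1 hθ (m k)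
        (hm k hk') (m0 k hk') ?_ (hsupp k hk') (X2 k) (hX2c k hk') (hX2 k hk') z hz
      intro p hp
      refine le_trans ?_ (hma p hp)
      exact Finset.single_le_sum (f := fun k => m k p) (fun j hj => m0 j (Finset.mem_range.1 hj) p) hk
    · refine le_trans ?_ le_add_self
      apply BF2 (Y / 2 ^ k) (s k) θ (hhk k) (hs k hk').1 (hs k hk').2 hθ hθ1 (m k) (hm k hk')
        (m0 k hk') (hsupp k hk') (X2 k) (hX2c k hk') (hX2 k hk') z
      push Not at hc
      rw [← hrat] at hc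
      have := (one_lt_div (hhk k)).1 hc
      exact this.le
  -- sums of `m k`
  have hsum : ∀ g : ℝ × ℝ → ℝ, AEMeasurable g (volume.restrict HP) → (∀ p, 0 ≤ g p) →
      ∑ k ∈ Finset.range K, ∫⁻ p in HP, ENNReal.ofReal (m k p * g p * (p.2 * qk z p))
      ≤ ENNReal.ofReal Cm * ∫⁻ p in HP, ENNReal.ofReal
        ((‖hp (Dz a) p‖ ^ 2 + ‖hp (Dz b) p‖ ^ 2) * g p * (p.2 * qk z p)) := by
    intro g hg hg0
    rw [← lintegral_finsetSum']
    · rw [← lintegral_const_mul' _ _ ENNReal.ofReal_ne_top]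
      apply setLIntegral_mono_ae' meas_HP
      filter_upwards with p hpp
      have hp' : 0 < p.2 := hpp
      have hpq : 0 ≤ p.2 * qk z p := mul_nonneg hp'.le (hq0 p)
      rw [← ENNReal.ofReal_mul hCm, ← ENNReal.ofReal_sum_of_nonneg]
      · apply ENNReal.ofReal_le_ofReal
        rw [← Finset.sum_mul, ← Finset.sum_mul]
        have e1 := hma p hp'
        have e2 : Cm * ‖hp (Dz a) p‖ ^ 2 ≤ Cm * (‖hp (Dz a) p‖ ^ 2 + ‖hp (Dz b) p‖ ^ 2) := by
          apply mul_le_mul_of_nonneg_left _ hCm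
          have : 0 ≤ ‖hp (Dz b) p‖ ^ 2 := by positivity
          linarith
        calc (∑ k ∈ Finset.range K, m k p) * g p * (p.2 * qk z p)
            ≤ (Cm * (‖hp (Dz a) p‖ ^ 2 + ‖hp (Dz b) p‖ ^ 2)) * g p * (p.2 * qk z p) := by
              apply mul_le_mul_of_nonneg_right _ hpq
              exact mul_le_mul_of_nonneg_right (e1.trans e2) (hg0 p)
          _ = _ := by ring
      · intro k hk
        have := m0 k (Finset.mem_range.1 hk) p
        have := hg0 p
        positivity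
    · intro k hk
      have hmk := (hm k (Finset.mem_range.1 hk)).measurable
      have e2 : Measurable (fun p : ℝ × ℝ => p.2 * qk z p) := measurable_snd.mul hqm
      exact ((hmk.aemeasurable.mul hg).mul e2.aemeasurable).ennreal_ofReal
  -- near total
  have hs' : 0 < t * θ / 12 := by positivity
  have hnear : ∑ k ∈ Finset.range K, ∫⁻ p in HP, ENNReal.ofReal
        (m k p * Real.exp (-(t * θ / 12 * Osc a b F p)) * (p.2 * qk z p))
      ≤ ENNReal.ofReal Cm * ENNReal.ofReal (Real.pi / (t * θ / 12)) := by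
    refine (hsum (fun p => Real.exp (-(t * θ / 12 * Osc a b F p))) ?_ ?_).trans ?_
    · apply Real.measurable_exp.comp_aemeasurable
      exact (hOm.const_mul _).neg
    · intro p; positivity
    · gcongr
      exact E2 H (t * θ / 12) hs' z hz
  have hfar2 : ∑ k ∈ Finset.range K, ∫⁻ p in HP, ENNReal.ofReal (m k p * (p.2 * qk z p))
      ≤ ENNReal.ofReal Cm * ENNReal.ofReal (Real.pi * 2) := by
    have h1 := hsum (fun _ => 1) aemeasurable_const (fun _ => zero_le_one)
    simp only [mul_one] at h1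
    refine h1.trans ?_
    gcongr
    refine (E1 H z hz).trans ?_
    apply ENNReal.ofReal_le_ofReal
    exact mul_le_mul_of_nonneg_left hOz Real.pi_pos.le
  -- geometric sum
  have hgeo := (geo (z.2 / Y) (by positivity) K).2
  have hfar1 : ∑ k ∈ Finset.range K, ENNReal.ofReal (320 * Cm * Real.sqrt θ *
          (if (z.2 / Y) * 2 ^ k ≤ 1 then Real.sqrt ((z.2 / Y) * 2 ^ k) else 0))
      ≤ ENNReal.ofReal (320 * Cm * Real.sqrt θ * ((Real.sqrt 2 + 1) * Real.sqrt 2)) := by
    rw [← ENNReal.ofReal_sum_of_nonneg]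
    · apply ENNReal.ofReal_le_ofReal
      rw [← Finset.mul_sum]
      apply mul_le_mul_of_nonneg_left hgeo
      positivity
    · intro k _
      split_ifs <;> positivity
  -- assemble
  calc ∫⁻ p in HP, ENNReal.ofReal (Real.exp (-(t * Osc a b F p / 2))
        * (∑ k ∈ Finset.range K, (|X1 k p| + X2 k p)) * qk z p)
      = ∫⁻ p in HP, ∑ k ∈ Finset.range K, ENNReal.ofReal
          (Real.exp (-(t * Osc a b F p / 2)) * (|X1 k p| + X2 k p) * qk z p) := by
        apply lintegral_congr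
        intro p
        rw [← ENNReal.ofReal_sum_of_nonneg]
        · congr 1
          rw [← Finset.sum_mul, ← Finset.mul_sum]
        · intro k hk
          have e1 := abs_nonneg (X1 k p)
          have e2 := (hX2 k (Finset.mem_range.1 hk) p).1
          have e3 := hq0 p
          positivity
    _ = ∑ k ∈ Finset.range K, ∫⁻ p in HP, ENNReal.ofReal
          (Real.exp (-(t * Osc a b F p / 2)) * (|X1 k p| + X2 k p) * qk z p) := by
        apply lintegral_finsetSum'
        intro k hk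
        have hk' := Finset.mem_range.1 hk
        have e1 : Measurable (fun p : ℝ × ℝ => |X1 k p| + X2 k p) :=
          (hX1c k hk').norm.add (hX2c k hk')
        have e2 : AEMeasurable (fun p : ℝ × ℝ => Real.exp (-(t * Osc a b F p / 2)))
            (volume.restrict HP) := by
          apply Real.measurable_exp.comp_aemeasurable
          exact ((hOm.const_mul t).div_const 2).neg
        exact ((e2.mul e1.aemeasurable).mul hqm.aemeasurable).ennreal_ofReal
    _ ≤ ∑ k ∈ Finset.range K, ((ENNReal.ofReal (100 / θ ^ 2) * ∫⁻ p in HP, ENNReal.ofReal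
        (m k p * Real.exp (-(t * θ / 12 * Osc a b F p)) * (p.2 * qk z p)))
        + (ENNReal.ofReal (320 * Cm * Real.sqrt θ *
          (if (z.2 / Y) * 2 ^ k ≤ 1 then Real.sqrt ((z.2 / Y) * 2 ^ k) else 0))
        + ENNReal.ofReal (80 * θ) * ∫⁻ p in HP, ENNReal.ofReal (m k p * (p.2 * qk z p)))) := by
        apply Finset.sum_le_sum
        intro k hk
        exact (key k hk).trans (add_le_add le_rfl (hfar k hk))
    _ = ENNReal.ofReal (100 / θ ^ 2) * (∑ k ∈ Finset.range K, ∫⁻ p in HP, ENNReal.ofReal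
        (m k p * Real.exp (-(t * θ / 12 * Osc a b F p)) * (p.2 * qk z p)))
        + ((∑ k ∈ Finset.range K, ENNReal.ofReal (320 * Cm * Real.sqrt θ *
          (if (z.2 / Y) * 2 ^ k ≤ 1 then Real.sqrt ((z.2 / Y) * 2 ^ k) else 0)))
        + ENNReal.ofReal (80 * θ) * ∑ k ∈ Finset.range K,
            ∫⁻ p in HP, ENNReal.ofReal (m k p * (p.2 * qk z p))) := by
        rw [Finset.sum_add_distrib, Finset.sum_add_distrib, Finset.mul_sum, Finset.mul_sum]
    _ ≤ ENNReal.ofReal (100 / θ ^ 2) * (ENNReal.ofReal Cm * ENNReal.ofReal (Real.pi / (t * θ / 12)))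
        + (ENNReal.ofReal (320 * Cm * Real.sqrt θ * ((Real.sqrt 2 + 1) * Real.sqrt 2))
        + ENNReal.ofReal (80 * θ) * (ENNReal.ofReal Cm * ENNReal.ofReal (Real.pi * 2))) := by
        gcongr
    _ = ENNReal.ofReal ((100 / θ ^ 2) * (Cm * (Real.pi / (t * θ / 12)))
        + (320 * Cm * Real.sqrt θ * ((Real.sqrt 2 + 1) * Real.sqrt 2)
        + 80 * θ * (Cm * (Real.pi * 2)))) := by
        have p1 := Real.pi_pos
        rw [← ENNReal.ofReal_mul hCm, ← ENNReal.ofReal_mul hCm,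
          ← ENNReal.ofReal_mul (by positivity), ← ENNReal.ofReal_mul (by positivity),
          ← ENNReal.ofReal_add (by positivity) (by positivity),
          ← ENNReal.ofReal_add (by positivity) (by positivity)]
    _ ≤ ENNReal.ofReal (250000 * Cm * v) := by
        apply ENNReal.ofReal_le_ofReal
        have p1 := Real.pi_pos
        have p2 := Real.pi_lt_d2
        have ht8 : t = 1 / v ^ 8 := by
          field_simp
          linarith
        have e1 : (100 / θ ^ 2) * (Cm * (Real.pi / (t * θ / 12))) = 76800 * Real.pi * Cm * v ^ 2 := by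
          rw [hθd, ht8]
          field_simp
          ring
        have h2 : Real.sqrt 2 ≤ 1.42 := by
          rw [Real.sqrt_le_left (by norm_num)]
          norm_num
        have h22 : Real.sqrt 2 * Real.sqrt 2 = 2 := Real.mul_self_sqrt (by norm_num)
        have e2 : (Real.sqrt 2 + 1) * Real.sqrt 2 ≤ 3.42 := by
          nlinarith
        have hv2 : v ^ 2 ≤ v := by nlinarith
        rw [e1, hsθ, hθd]
        have e3 : 320 * Cm * (v / 2) * ((Real.sqrt 2 + 1) * Real.sqrt 2) ≤ 320 * Cm * (v / 2) * 3.42 :=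
          mul_le_mul_of_nonneg_left e2 (by positivity)
        have e4 : 76800 * Real.pi * Cm * v ^ 2 ≤ 76800 * 3.15 * (Cm * v) := by
          have : Cm * v ^ 2 ≤ Cm * v := mul_le_mul_of_nonneg_left hv2 hCm
          have h5 : 0 ≤ Cm * v := by positivity
          have h6 : 0 ≤ Cm * v ^ 2 := by positivity
          calc 76800 * Real.pi * Cm * v ^ 2 = 76800 * (Real.pi * (Cm * v ^ 2)) := by ring
            _ ≤ 76800 * (3.15 * (Cm * v ^ 2)) := by
              have := mul_le_mul_of_nonneg_right p2.le h6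
              linarith
            _ ≤ 76800 * 3.15 * (Cm * v) := by nlinarith
        have e5 : 80 * (v ^ 2 / 4) * (Cm * (Real.pi * 2)) ≤ 40 * 3.15 * (Cm * v) := by
          have : Cm * v ^ 2 ≤ Cm * v := mul_le_mul_of_nonneg_left hv2 hCm
          have h6 : 0 ≤ Cm * v ^ 2 := by positivity
          calc 80 * (v ^ 2 / 4) * (Cm * (Real.pi * 2)) = 40 * (Real.pi * (Cm * v ^ 2)) := by ring
            _ ≤ 40 * (3.15 * (Cm * v ^ 2)) := by
              have := mul_le_mul_of_nonneg_right p2.le h6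
              linarith
            _ ≤ 40 * 3.15 * (Cm * v) := by nlinarith
        have h5 : 0 ≤ Cm * v := by positivity
        calc _ ≤ 76800 * 3.15 * (Cm * v) + (320 * Cm * (v / 2) * 3.42 + 40 * 3.15 * (Cm * v)) := by
              linarith
          _ ≤ 250000 * Cm * v := by
              nlinarith

end Pool.H14.SR

end S_BS
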