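import Mathlib
import Pool.Agent.H14.SRM.P0

/-! MP_e1e648_an, part P8: this file joins several modules to save build time. -/

noncomputable section S_OB

open MeasureTheory Set Filter Topology
namespace Pool.H14.SR

namespace OBaux

theorem cont_of_all {u : ℝ × ℝ → ℝ} (h : ∀ σ : ℝ, ContinuousOn u {p | -σ < p.2}) :
    Continuous u := by
  rw [continuous_iff_continuousAt]
  intro p
  have ho : IsOpen {q : ℝ × ℝ | -(1 - p.2) < q.2} := isOpen_lt continuous_const continuous_snd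
  exact (h (1 - p.2)).continuousAt (ho.mem_nhds (by simp))

/-- periodization -/
def per (g : ℝ → ℝ) (x : ℝ) : ℝ := g (x - 2 * Real.pi * (⌊x / (2 * Real.pi)⌋ : ℤ))

theorem per_add (g : ℝ → ℝ) (x : ℝ) : per g (x + 2 * Real.pi) = per g x := by
  unfold per
  have hpi := Real.pi_pos
  have h : (x + 2 * Real.pi) / (2 * Real.pi) = x / (2 * Real.pi) + 1 := by field_simp
  rw [h, Int.floor_add_one]
  push_cast
  congr 1
  ring

theorem per_eq (g : ℝ → ℝ) {x : ℝ} (h0 : 0 ≤ x) (h1 : x < 2 * Real.pi) : per g x = g x := by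
  unfold per
  have hpi := Real.pi_pos
  have : ⌊x / (2 * Real.pi)⌋ = 0 := by
    rw [Int.floor_eq_zero_iff]
    constructor
    · positivity
    · rw [div_lt_one (by positivity)]; exact h1
  rw [this]; simp

theorem per_eq' (g : ℝ → ℝ) (hz : g 0 = 0) (hz' : g (2 * Real.pi) = 0) {x : ℝ} (h0 : 0 ≤ x)
    (h1 : x ≤ 2 * Real.pi) : per g x = g x := by
  rcases h1.lt_or_eq with h | h
  · exact per_eq g h0 h
  · have := per_add g 0
    rw [zero_add] at this
    rw [h, this, per_eq g le_rfl (by positivity), hz, hz']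

theorem per_local {a b : ℝ} (ha : 0 < a) (hb : b < 2 * Real.pi) (x : ℝ) :
    ∃ k : ℤ, ∀ᶠ x' in 𝓝 x, ∀ g : ℝ → ℝ, (∀ t, t ∉ Icc a b → g t = 0) →
      per g x' = g (x' - 2 * Real.pi * k) := by
  have hpi := Real.pi_pos
  have h2 : 0 < 2 * Real.pi := by positivity
  refine ⟨⌊x / (2 * Real.pi)⌋, ?_⟩
  set k := ⌊x / (2 * Real.pi)⌋ with hk
  have hk1 : (k : ℝ) ≤ x / (2 * Real.pi) := Int.floor_le _
  have hk2 : x / (2 * Real.pi) < k + 1 := Int.lt_floor_add_one _
  rw [le_div_iff₀ h2] at hk1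
  rw [div_lt_iff₀ h2] at hk2
  have hfl : ∀ x' : ℝ, 2 * Real.pi * k ≤ x' → x' < 2 * Real.pi * (k + 1) →
      ⌊x' / (2 * Real.pi)⌋ = k := by
    intro x' h3 h4
    rw [Int.floor_eq_iff, le_div_iff₀ h2, div_lt_iff₀ h2]
    constructor <;> linarith
  rcases hk1.lt_or_eq with h | h
  · have h3 : ∀ᶠ x' in 𝓝 x, 2 * Real.pi * k < x' := Ioi_mem_nhds (by linarith)
    have h4 : ∀ᶠ x' in 𝓝 x, x' < 2 * Real.pi * (k + 1) := Iio_mem_nhds (by linarith)
    filter_upwards [h3, h4] with x' h5 h6 g _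
    unfold per
    rw [hfl x' h5.le h6]
  · set d := min (min a (2 * Real.pi - b)) (2 * Real.pi) with hd
    have hd0 : 0 < d := lt_min (lt_min ha (by linarith)) h2
    have hd1 : d ≤ a := (min_le_left _ _).trans (min_le_left _ _)
    have hd2 : d ≤ 2 * Real.pi - b := (min_le_left _ _).trans (min_le_right _ _)
    have hd3 : d ≤ 2 * Real.pi := min_le_right _ _
    have h3 : ∀ᶠ x' in 𝓝 x, x - d < x' := Ioi_mem_nhds (by linarith)
    have h4 : ∀ᶠ x' in 𝓝 x, x' < x + d := Iio_mem_nhds (by linarith)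
    filter_upwards [h3, h4] with x' h5 h6 g hg
    unfold per
    by_cases h7 : x ≤ x'
    · rw [hfl x' (by linarith) (by linarith)]
    · push Not at h7
      have h8 : ⌊x' / (2 * Real.pi)⌋ = k - 1 := by
        rw [Int.floor_eq_iff, le_div_iff₀ h2, div_lt_iff₀ h2]
        push_cast
        constructor <;> linarith
      rw [h8]
      push_cast
      rw [hg, hg]
      · intro h9; linarith [h9.1]
      · intro h9; linarith [h9.2]

theorem per_hasDeriv {a b : ℝ} (ha : 0 < a) (hb : b < 2 * Real.pi) {g g' : ℝ → ℝ}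
    (hd : ∀ x, HasDerivAt g (g' x) x) (hz : ∀ t, t ∉ Icc a b → g t = 0)
    (hz' : ∀ t, t ∉ Icc a b → g' t = 0) (x : ℝ) : HasDerivAt (per g) (per g' x) x := by
  obtain ⟨k, hk⟩ := per_local ha hb x
  rw [hk.self_of_nhds g' hz']
  have h1 : HasDerivAt (fun x' => g (x' - 2 * Real.pi * k)) (g' (x - 2 * Real.pi * k)) x :=
    (hd _).comp_sub_const _ _
  refine h1.congr_of_eventuallyEq ?_
  filter_upwards [hk] with x' hx' using hx' g hz

theorem per_cont {a b : ℝ} (ha : 0 < a) (hb : b < 2 * Real.pi) {g : ℝ → ℝ}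
    (hc : Continuous g) (hz : ∀ t, t ∉ Icc a b → g t = 0) : Continuous (per g) := by
  rw [continuous_iff_continuousAt]
  intro x
  obtain ⟨k, hk⟩ := per_local ha hb x
  have h1 : ContinuousAt (fun x' => g (x' - 2 * Real.pi * k)) x := by fun_prop
  refine h1.congr ?_
  filter_upwards [hk] with x' hx' using (hx' g hz).symm

theorem bump (s : ℝ) (hs : 0 < s) (c : ℝ) (U : Set ℝ) (hU : IsOpen U)
    (hv : ENNReal.ofReal (3 / 4 * s) ≤ volume (U ∩ Ioo c (c + s))) :
    ∃ g g' : ℝ → ℝ, (∀ x, HasDerivAt g (g' x) x) ∧ Continuous g' ∧ (∀ x, 0 ≤ g x) ∧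
      (∀ x, g x ≤ 2 / s) ∧
      (∃ a b : ℝ, c < a ∧ b < c + s ∧ ∀ x, x ∉ Icc a b → g x = 0 ∧ g' x = 0) ∧
      (∀ x, g x ≠ 0 → x ∈ U) ∧ ∫ x in c..(c + s), g x = 1 := by
  have hW : IsOpen (U ∩ Ioo c (c + s)) := hU.inter isOpen_Ioo
  have hr : ENNReal.ofReal (s / 2) < volume (U ∩ Ioo c (c + s)) := by
    refine lt_of_lt_of_le ?_ hv
    rw [ENNReal.ofReal_lt_ofReal_iff (by positivity)]
    linarith
  obtain ⟨K, hKW, hK, hKr⟩ := hW.exists_lt_isCompact hr
  obtain ⟨V, hVo, hKV, hVW, hVc⟩ := exists_open_between_and_isCompact_closure hK hW hKW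
  obtain ⟨f, hf0, hf1, hf⟩ := exists_contMDiffMap_zero_one_of_isClosed (n := ⊤)
    (modelWithCornersSelf ℝ ℝ) (s := Vᶜ) (t := K) hVo.isClosed_compl hK.isClosed
    (disjoint_left.2 fun x hx hxK => hx (hKV hxK))
  have hfs : ContDiff ℝ 1 (f : ℝ → ℝ) := by
    have := f.contMDiff.contDiff
    exact this.of_le (by simp)
  have hfd : ∀ x, HasDerivAt (f : ℝ → ℝ) (deriv f x) x := fun x =>
    ((hfs.differentiable (by simp)) x).hasDerivAt
  have hfc : Continuous (f : ℝ → ℝ) := hfs.continuous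
  have hfc' : Continuous (deriv (f : ℝ → ℝ)) := hfs.continuous_deriv (by simp)
  have hfz : ∀ x, x ∉ closure V → f x = 0 := fun x hx => hf0 (fun h => hx (subset_closure h))
  have hfz' : ∀ x, x ∉ closure V → deriv f x = 0 := by
    intro x hx
    have : (f : ℝ → ℝ) =ᶠ[𝓝 x] fun _ => 0 := by
      filter_upwards [isClosed_closure.isOpen_compl.mem_nhds hx] with y hy using hfz y hy
    rw [this.deriv_eq]; simp
  have hKne : K.Nonempty := by
    rcases K.eq_empty_or_nonempty with h | h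
    · rw [h] at hKr; simp at hKr
    · exact h
  have hVne : (closure V).Nonempty := hKne.mono (hKV.trans subset_closure)
  have ha := hVW (hVc.sInf_mem hVne)
  have hb := hVW (hVc.sSup_mem hVne)
  set I := ∫ x in c..(c + s), f x with hI
  have hI2 : s / 2 ≤ I := by
    rw [hI, intervalIntegral.integral_of_le (by linarith)]
    have h1 : ∫ x in K, f x ≤ ∫ x in Ioc c (c + s), f x := by
      apply setIntegral_mono_set
      · exact (hfc.integrableOn_Icc (a := c) (b := c + s)).mono_set Ioc_subset_Icc_self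
      · exact ae_of_all _ fun x => (hf x).1
      · apply LE.le.eventuallyLE
        exact hKW.trans (inter_subset_right.trans Ioo_subset_Ioc_self)
    have h2 : ∫ x in K, f x = ∫ x in K, (1 : ℝ) :=
      setIntegral_congr_fun hK.measurableSet (fun x hx => hf1 hx)
    rw [h2] at h1
    simp only [integral_const, MeasurableSet.univ, measureReal_restrict_apply, univ_inter,
      smul_eq_mul, mul_one] at h1
    refine le_trans ?_ h1
    rw [measureReal_def]
    have h3 : volume K ≠ ⊤ := hK.measure_ne_top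
    rw [← ENNReal.ofReal_le_iff_le_toReal h3]
    exact hKr.le
  have hI0 : 0 < I := by linarith [hs]
  refine ⟨fun x => f x / I, fun x => deriv f x / I, fun x => (hfd x).div_const _,
    hfc'.div_const _, fun x => div_nonneg (hf x).1 hI0.le, fun x => ?_,
    ⟨sInf (closure V), sSup (closure V), ha.2.1, hb.2.2, fun x hx => ?_⟩, fun x hx => ?_, ?_⟩
  · rw [div_le_div_iff₀ hI0 hs]
    nlinarith [(hf x).2]
  · have hx' : x ∉ closure V := fun h => hx ⟨csInf_le hVc.bddBelow h, le_csSup hVc.bddAbove h⟩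
    simp [hfz x hx', hfz' x hx']
  · by_contra hxU
    apply hx
    have : x ∉ closure V := fun h => hxU (hVW h).1
    simp [hfz x this]
  · rw [intervalIntegral.integral_div, ← hI, div_self hI0.ne']

theorem param_deriv {u uy : ℝ × ℝ → ℝ} (hu : Continuous u) (huy : Continuous uy)
    (hd : ∀ p : ℝ × ℝ, HasDerivAt (fun y => u (p.1, y)) (uy p) p.2) (a b y : ℝ) :
    HasDerivAt (fun y => ∫ t in a..b, u (t, y)) (∫ t in a..b, uy (t, y)) y := by
  obtain ⟨C, hC⟩ := (isCompact_uIcc.prod (isCompact_Icc : IsCompact (Icc (y - 1) (y + 1)))).exists_bound_of_continuousOn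
    (f := uy) (s := uIcc a b ×ˢ Icc (y - 1) (y + 1)) huy.continuousOn
  refine (intervalIntegral.hasDerivAt_integral_of_dominated_loc_of_deriv_le
    (F := fun y t => u (t, y)) (F' := fun y t => uy (t, y)) (bound := fun _ => C)
    (s := Icc (y - 1) (y + 1)) (Icc_mem_nhds (by linarith) (by linarith)) ?_ ?_ ?_ ?_ ?_ ?_).2
  · exact Eventually.of_forall fun x =>
      (hu.comp (continuous_id.prodMk continuous_const)).aestronglyMeasurable
  · exact (hu.comp (continuous_id.prodMk continuous_const)).intervalIntegrable _ _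
  · exact (huy.comp (continuous_id.prodMk continuous_const)).aestronglyMeasurable
  · exact ae_of_all _ fun t ht x hx => hC (t, x) ⟨uIoc_subset_uIcc ht, hx⟩
  · exact intervalIntegrable_const
  · exact ae_of_all _ fun t _ x _ => hd (t, x)


theorem mk_C1 {u ux uy : ℝ × ℝ → ℝ}
    (dx : ∀ p : ℝ × ℝ, HasDerivAt (fun x : ℝ => u (x, p.2)) (ux p) p.1)
    (dy : ∀ p : ℝ × ℝ, HasDerivAt (fun y : ℝ => u (p.1, y)) (uy p) p.2)
    (c : Continuous u) (cx : Continuous ux) (cy : Continuous uy)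
    (per : ∀ p : ℝ × ℝ, u (p.1 + 2 * Real.pi, p.2) = u p) (σ : ℝ) : C1 σ u ux uy where
  dx := fun p _ => dx p
  dy := fun p _ => dy p
  c := c.continuousOn
  cx := cx.continuousOn
  cy := cy.continuousOn
  per := fun p _ => per p

/-- everything on `[0,2π)` first -/
theorem core (N : ℕ) (hN : 1 ≤ N) (s : ℝ) (hs : s = 2 * Real.pi / N) (m my : ℝ × ℝ → ℝ)
    (cm : Continuous m) (cmy : Continuous my)
    (dmy : ∀ p : ℝ × ℝ, HasDerivAt (fun y : ℝ => m (p.1, y)) (my p) p.2)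
    (pm : ∀ p : ℝ × ℝ, m (p.1 + 2 * Real.pi, p.2) = m p) (m0 : ∀ p, 0 ≤ m p) (y1 y2 : ℝ)
    (hsupp : ∀ p : ℝ × ℝ, m p ≠ 0 → y1 ≤ p.2 ∧ p.2 ≤ y2)
    (Good : Set ℝ) (hGo : IsOpen Good)
    (hG : ∀ l : ℤ, (∃ p : ℝ × ℝ, l * s ≤ p.1 ∧ p.1 < (l + 1) * s ∧ m p ≠ 0) →
      ENNReal.ofReal (3 / 4 * s) ≤ volume (Good ∩ Set.Ioo (l * s) ((l + 1) * s))) :
    ∃ X1 X1x X1y X2 X2x X2y : ℝ × ℝ → ℝ,
      (∀ σ : ℝ, C1 σ X1 X1x X1y) ∧ (∀ σ : ℝ, C1 σ X2 X2x X2y) ∧
      (∀ p, X1x p - X2y p = m p) ∧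
      (∀ x y : ℝ, 0 ≤ x → x < 2 * Real.pi →
        (|X1 (x, y)| ≤ ∫ t in Set.Icc (x - s) (x + s), m (t, y)) ∧
        (0 ≤ X2 (x, y) ∧
          X2 (x, y) ≤ 2 / s * ∫ t in Set.Icc (x - s) (x + s), ∫ y in Set.Ioi y, m (t, y)) ∧
        (X1 (x, y) ≠ 0 → ∃ t : ℝ, |t - x| ≤ s ∧ m (t, y) ≠ 0) ∧
        (X2 (x, y) ≠ 0 → x ∈ Good ∧ y ≤ y2)) := by
  classical
  have hpi := Real.pi_pos
  have hNr : (0 : ℝ) < N := by exact_mod_cast hN
  have hs0 : 0 < s := by rw [hs]; positivity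
  have hNs : (N : ℝ) * s = 2 * Real.pi := by rw [hs]; field_simp
  set M : ℕ → ℝ → ℝ := fun l y => ∫ t in ((l : ℝ) * s)..((l : ℝ) * s + s), m (t, y) with hM
  set M' : ℕ → ℝ → ℝ := fun l y => ∫ t in ((l : ℝ) * s)..((l : ℝ) * s + s), my (t, y) with hM'
  have cmt : ∀ y, Continuous fun t => m (t, y) := fun y =>
    cm.comp (continuous_id.prodMk continuous_const)
  have cMM : ∀ l, Continuous (M l) := by
    intro l
    have : Continuous (Function.uncurry fun (y t : ℝ) => m (t, y)) :=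
      cm.comp (continuous_snd.prodMk continuous_fst)
    exact intervalIntegral.continuous_parametric_intervalIntegral_of_continuous' this _ _
  have cMM' : ∀ l, Continuous (M' l) := by
    intro l
    have : Continuous (Function.uncurry fun (y t : ℝ) => my (t, y)) :=
      cmy.comp (continuous_snd.prodMk continuous_fst)
    exact intervalIntegral.continuous_parametric_intervalIntegral_of_continuous' this _ _
  have dM : ∀ l y, HasDerivAt (M l) (M' l y) y := fun l y => param_deriv cm cmy dmy _ _ y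
  have M0 : ∀ l y, 0 ≤ M l y := fun l y =>
    intervalIntegral.integral_nonneg (by linarith) fun t _ => m0 _
  -- the bumps
  have hb : ∀ l : ℕ, ∃ g g' : ℝ → ℝ, (∀ x, HasDerivAt g (g' x) x) ∧ Continuous g' ∧
      (∀ x, 0 ≤ g x) ∧ (∀ x, g x ≤ 2 / s) ∧
      (∃ a b : ℝ, (l : ℝ) * s < a ∧ b < (l : ℝ) * s + s ∧ ∀ x, x ∉ Icc a b → g x = 0 ∧ g' x = 0) ∧
      (∀ x, g x ≠ 0 → x ∈ Good) ∧ ∀ y, M l y * ∫ x in ((l : ℝ) * s)..((l : ℝ) * s + s), g x = M l y := by
    intro l
    by_cases hact : ∃ p : ℝ × ℝ, (l : ℝ) * s ≤ p.1 ∧ p.1 < (l + 1) * s ∧ m p ≠ 0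
    · have h1 := hG (l : ℤ) (by simpa using hact)
      have h2 : ((l : ℝ) + 1) * s = (l : ℝ) * s + s := by ring
      simp only [Int.cast_natCast] at h1
      rw [h2] at h1
      obtain ⟨g, g', a1, a2, a3, a4, a5, a6, a7⟩ := bump s hs0 _ Good hGo h1
      exact ⟨g, g', a1, a2, a3, a4, a5, a6, fun y => by rw [a7, mul_one]⟩
    · push Not at hact
      refine ⟨fun _ => 0, fun _ => 0, fun x => hasDerivAt_const _ _, continuous_const,
        fun _ => le_rfl, fun _ => by positivity, ⟨(l : ℝ) * s + s, (l : ℝ) * s, by linarith,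
          by linarith, fun _ _ => ⟨rfl, rfl⟩⟩, fun x h => absurd rfl h, fun y => ?_⟩
      have : M l y = 0 := by
        simp only [hM]
        rw [intervalIntegral.integral_of_le (by linarith), ← integral_Ico_eq_integral_Ioc]
        rw [setIntegral_congr_fun (g := fun _ => (0 : ℝ)) measurableSet_Ico]
        · simp
        · intro t ht
          exact hact (t, y) ht.1 (by simpa [add_mul] using ht.2)
      rw [this, zero_mul]
  choose g g' dg cg' g0 gle hab gG gI using hb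
  choose a b ha hbb hz using hab
  have cg : ∀ l, Continuous (g l) := fun l =>
    continuous_iff_continuousAt.2 fun x => (dg l x).continuousAt
  have hla : ∀ l : ℕ, 0 < a l := fun l => lt_of_le_of_lt (by positivity) (ha l)
  have hlN : ∀ l : ℕ, l < N → (l : ℝ) * s + s ≤ 2 * Real.pi := by
    intro l hl
    have : (l : ℝ) + 1 ≤ N := by exact_mod_cast hl
    nlinarith
  have hlb : ∀ l : ℕ, l < N → b l < 2 * Real.pi := fun l hl => lt_of_lt_of_le (hbb l) (hlN l hl)
  have gz : ∀ (l : ℕ) (t : ℝ), t ≤ (l : ℝ) * s → g l t = 0 := fun l t ht =>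
    (hz l t fun h => by linarith [h.1, ha l]).1
  have gz2 : ∀ (l : ℕ) (t : ℝ), (l : ℝ) * s + s ≤ t → g l t = 0 := fun l t ht =>
    (hz l t fun h => by linarith [h.2, hbb l]).1
  have hzg : ∀ l t, t ∉ Icc (a l) (b l) → g l t = 0 := fun l t ht => (hz l t ht).1
  have hzg' : ∀ l t, t ∉ Icc (a l) (b l) → g' l t = 0 := fun l t ht => (hz l t ht).2
  set R := Finset.range N with hR
  have mR : ∀ l, l ∈ R → l < N := fun l hl => Finset.mem_range.1 hl
  set Y := max y2 0 with hY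
  set T : ℕ → ℝ → ℝ := fun l y => -∫ σ in Y..y, M l σ with hT
  have dT : ∀ l y, HasDerivAt (T l) (-(M l y)) y := fun l y =>
    (intervalIntegral.integral_hasDerivAt_right ((cMM l).intervalIntegrable _ _)
      ((cMM l).stronglyMeasurableAtFilter _ _) (cMM l).continuousAt).neg
  have cT : ∀ l, Continuous (T l) := fun l =>
    continuous_iff_continuousAt.2 fun y => (dT l y).continuousAt
  set f : ℝ × ℝ → ℝ := fun p => m p - ∑ l ∈ R, M l p.2 * per (g l) p.1 with hf
  set fy : ℝ × ℝ → ℝ := fun p => my p - ∑ l ∈ R, M' l p.2 * per (g l) p.1 with hfy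
  have cper : ∀ l ∈ R, Continuous (per (g l)) := fun l hl =>
    per_cont (hla l) (hlb l (mR l hl)) (cg l) (hzg l)
  have cper' : ∀ l ∈ R, Continuous (per (g' l)) := fun l hl =>
    per_cont (hla l) (hlb l (mR l hl)) (cg' l) (hzg' l)
  have cf : Continuous f := by
    refine cm.sub (continuous_finsetSum _ fun l hl => ?_)
    exact ((cMM l).comp continuous_snd).mul ((cper l hl).comp continuous_fst)
  have cfy : Continuous fy := by
    refine cmy.sub (continuous_finsetSum _ fun l hl => ?_)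
    exact ((cMM' l).comp continuous_snd).mul ((cper l hl).comp continuous_fst)
  have dfy : ∀ p : ℝ × ℝ, HasDerivAt (fun y => f (p.1, y)) (fy p) p.2 := by
    intro p
    refine (dmy p).sub (HasDerivAt.fun_sum fun l _ => ?_)
    exact (dM l p.2).mul_const (per (g l) p.1)
  -- f on [0,2π]
  have f_on : ∀ l : ℕ, l < N → ∀ t y : ℝ, (l : ℝ) * s ≤ t → t ≤ (l : ℝ) * s + s →
      ∀ c : ℕ → ℝ, ∑ l' ∈ R, c l' * per (g l') t = c l * g l t := by
    intro l hl t y h1 h2 c
    have h3 : 0 ≤ t := le_trans (by positivity) h1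
    have h4 : t ≤ 2 * Real.pi := h2.trans (hlN l hl)
    have h5 : ∀ l' ∈ R, per (g l') t = g l' t := fun l' hl' =>
      per_eq' _ (gz l' 0 (by positivity)) (gz2 l' _ (hlN l' (mR l' hl'))) h3 h4
    rw [Finset.sum_congr rfl fun l' hl' => by rw [h5 l' hl'], Finset.sum_eq_single l]
    · intro l' _ hne
      rcases lt_or_gt_of_ne hne with h | h
      · have : (l' : ℝ) + 1 ≤ l := by exact_mod_cast h
        rw [gz2 l' t (by nlinarith), mul_zero]
      · have : (l : ℝ) + 1 ≤ l' := by exact_mod_cast h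
        rw [gz l' t (by nlinarith), mul_zero]
    · intro h; exact absurd (Finset.mem_range.2 hl) h
  have f_on' : ∀ l : ℕ, l < N → ∀ t y : ℝ, (l : ℝ) * s ≤ t → t ≤ (l : ℝ) * s + s →
      f (t, y) = m (t, y) - M l y * g l t := by
    intro l hl t y h1 h2
    simp only [hf]
    rw [f_on l hl t y h1 h2 (fun l => M l y)]
  have cfi : ∀ y, Continuous fun t => f (t, y) := fun y =>
    cf.comp (continuous_id.prodMk continuous_const)
  have piece : ∀ l : ℕ, l < N → ∀ x y : ℝ, (l : ℝ) * s ≤ x → x ≤ (l : ℝ) * s + s →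
      ∫ t in ((l : ℝ) * s)..x, f (t, y) =
        (∫ t in ((l : ℝ) * s)..x, m (t, y)) - M l y * ∫ t in ((l : ℝ) * s)..x, g l t := by
    intro l hl x y h1 h2
    rw [← intervalIntegral.integral_const_mul, ← intervalIntegral.integral_sub
      ((cmt y).intervalIntegrable _ _) (((cg l).const_mul _).intervalIntegrable _ _)]
    apply intervalIntegral.integral_congr
    intro t ht
    rw [uIcc_of_le h1] at ht
    exact f_on' l hl t y ht.1 (ht.2.trans h2)
  have full : ∀ l : ℕ, l < N → ∀ y : ℝ, ∫ t in ((l : ℝ) * s)..((l : ℝ) * s + s), f (t, y) = 0 := by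
    intro l hl y
    rw [piece l hl _ y (by linarith) le_rfl, gI l y]
    simp [hM]
  have pre : ∀ l : ℕ, l ≤ N → ∀ y : ℝ, ∫ t in (0 : ℝ)..((l : ℝ) * s), f (t, y) = 0 := by
    intro l
    induction l with
    | zero => intro _ y; simp
    | succ l ih =>
      intro hl y
      have h1 := ih (by omega) y
      have h2 := full l (by omega) y
      have h3 : ((l + 1 : ℕ) : ℝ) * s = (l : ℝ) * s + s := by push_cast; ring
      rw [h3, ← intervalIntegral.integral_add_adjacent_intervals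
        ((cfi y).intervalIntegrable 0 ((l : ℝ) * s)) ((cfi y).intervalIntegrable _ _), h1, h2,
        add_zero]
  have pf : ∀ p : ℝ × ℝ, f (p.1 + 2 * Real.pi, p.2) = f p := by
    intro p
    simp only [hf]
    rw [pm p]
    congr 1
    exact Finset.sum_congr rfl fun l _ => by rw [per_add]
  have pfy : ∀ y, Function.Periodic (fun t => f (t, y)) (2 * Real.pi) := fun y t => pf (t, y)
  have hX1 : ∀ l : ℕ, l < N → ∀ x y : ℝ, (l : ℝ) * s ≤ x → x ≤ (l : ℝ) * s + s →
      ∫ t in (0 : ℝ)..x, f (t, y) =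
        (∫ t in ((l : ℝ) * s)..x, m (t, y)) - M l y * ∫ t in ((l : ℝ) * s)..x, g l t := by
    intro l hl x y h1 h2
    rw [← piece l hl x y h1 h2, ← intervalIntegral.integral_add_adjacent_intervals
        ((cfi y).intervalIntegrable 0 ((l : ℝ) * s)) ((cfi y).intervalIntegrable _ _),
        pre l hl.le y, zero_add]
  have hidx : ∀ x : ℝ, 0 ≤ x → x < 2 * Real.pi → ∃ l : ℕ, l < N ∧ (l : ℝ) * s ≤ x ∧
      x < (l : ℝ) * s + s := by
    intro x h0 h1
    have h2 := Nat.floor_le (div_nonneg h0 hs0.le)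
    have h3 := Nat.lt_floor_add_one (x / s)
    rw [le_div_iff₀ hs0] at h2
    rw [div_lt_iff₀ hs0] at h3
    refine ⟨⌊x / s⌋₊, ?_, h2, by linarith⟩
    have h4 : (⌊x / s⌋₊ : ℝ) * s < N * s := by rw [hNs]; linarith
    exact_mod_cast lt_of_mul_lt_mul_right h4 hs0.le
  -- the half-line integral
  have tail : ∀ l y, T l y = ∫ σ in y..(max y Y), M l σ := by
    intro l y
    simp only [hT]
    rcases le_total y Y with h | h
    · rw [max_eq_right h, intervalIntegral.integral_symm, neg_neg]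
    · rw [max_eq_left h, intervalIntegral.integral_same, neg_eq_zero]
      rw [intervalIntegral.integral_of_le h, setIntegral_congr_fun (g := fun _ => (0 : ℝ)) measurableSet_Ioc]
      · simp
      · intro σ hσ
        simp only [hM]
        have : ∀ t, m (t, σ) = 0 := by
          intro t
          by_contra hne
          have := (hsupp _ hne).2
          have h5 := le_max_left y2 0
          simp only at this
          linarith [hσ.1]
        simp [this]
  have T0 : ∀ l y, 0 ≤ T l y := by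
    intro l y
    rw [tail]
    exact intervalIntegral.integral_nonneg (le_max_left _ _) fun σ _ => M0 l σ
  have hin : ∀ t y, ∫ σ in Ioi y, m (t, σ) = ∫ σ in y..(max y Y), m (t, σ) := by
    intro t y
    rw [intervalIntegral.integral_of_le (le_max_left _ _)]
    refine (setIntegral_eq_of_subset_of_forall_sdiff_eq_zero measurableSet_Ioi Ioc_subset_Ioi_self ?_)
    intro σ hσ
    by_contra hne
    have h1 := (hsupp _ hne).2
    simp only at h1
    apply hσ.2
    exact ⟨hσ.1, h1.trans ((le_max_left y2 0).trans (le_max_right _ _))⟩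
  refine ⟨fun p => ∫ t in (0 : ℝ)..p.1, f (t, p.2), f, fun p => ∫ t in (0 : ℝ)..p.1, fy (t, p.2),
    fun p => ∑ l ∈ R, per (g l) p.1 * T l p.2, fun p => ∑ l ∈ R, per (g' l) p.1 * T l p.2,
    fun p => ∑ l ∈ R, per (g l) p.1 * -(M l p.2), ?_, ?_, ?_, ?_⟩
  · apply mk_C1
    · intro p
      exact intervalIntegral.integral_hasDerivAt_right ((cfi p.2).intervalIntegrable _ _)
        ((cfi p.2).stronglyMeasurableAtFilter _ _) (cfi p.2).continuousAt
    · intro p
      exact param_deriv cf cfy dfy _ _ _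
    · have : Continuous (Function.uncurry fun (q : ℝ × ℝ) (t : ℝ) => f (t, q.2)) :=
        cf.comp (continuous_snd.prodMk (continuous_snd.comp continuous_fst))
      exact intervalIntegral.continuous_parametric_intervalIntegral_of_continuous this continuous_fst
    · exact cf
    · have : Continuous (Function.uncurry fun (q : ℝ × ℝ) (t : ℝ) => fy (t, q.2)) :=
        cfy.comp (continuous_snd.prodMk (continuous_snd.comp continuous_fst))
      exact intervalIntegral.continuous_parametric_intervalIntegral_of_continuous this continuous_fst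
    · intro p
      show ∫ t in (0 : ℝ)..(p.1 + 2 * Real.pi), f (t, p.2) = ∫ t in (0 : ℝ)..p.1, f (t, p.2)
      rw [← intervalIntegral.integral_add_adjacent_intervals
        ((cfi p.2).intervalIntegrable 0 p.1) ((cfi p.2).intervalIntegrable _ _),
        (pfy p.2).intervalIntegral_add_eq p.1 0, zero_add, ← hNs, pre N le_rfl, add_zero]
  · apply mk_C1
    · intro p
      refine HasDerivAt.fun_sum fun l hl => ?_
      exact (per_hasDeriv (hla l) (hlb l (mR l hl)) (dg l) (hzg l) (hzg' l) p.1).mul_const (T l p.2)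
    · intro p
      refine HasDerivAt.fun_sum fun l hl => ?_
      exact (dT l p.2).const_mul (per (g l) p.1)
    · exact continuous_finsetSum _ fun l hl =>
        ((cper l hl).comp continuous_fst).mul ((cT l).comp continuous_snd)
    · exact continuous_finsetSum _ fun l hl =>
        ((cper' l hl).comp continuous_fst).mul ((cT l).comp continuous_snd)
    · exact continuous_finsetSum _ fun l hl =>
        ((cper l hl).comp continuous_fst).mul ((cMM l).comp continuous_snd).neg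
    · intro p
      exact Finset.sum_congr rfl fun l _ => by rw [per_add]
  · intro p
    simp only [hf]
    have : ∑ l ∈ R, per (g l) p.1 * -(M l p.2) = -∑ l ∈ R, M l p.2 * per (g l) p.1 := by
      rw [← Finset.sum_neg_distrib]
      exact Finset.sum_congr rfl fun l _ => by ring
    rw [this]
    ring
  · intro x y hx0 hx1
    obtain ⟨l, hl, hlx, hxl⟩ := hidx x hx0 hx1
    have hsub : Ioc ((l : ℝ) * s) ((l : ℝ) * s + s) ⊆ Icc (x - s) (x + s) := by
      intro t ht
      exact ⟨by linarith [ht.1], by linarith [ht.2]⟩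
    have hA0 : 0 ≤ ∫ t in ((l : ℝ) * s)..x, m (t, y) :=
      intervalIntegral.integral_nonneg hlx fun t _ => m0 _
    have hA1 : ∫ t in ((l : ℝ) * s)..x, m (t, y) ≤ M l y := by
      simp only [hM]
      rw [← intervalIntegral.integral_add_adjacent_intervals
        ((cmt y).intervalIntegrable ((l : ℝ) * s) x) ((cmt y).intervalIntegrable x ((l : ℝ) * s + s))]
      linarith [intervalIntegral.integral_nonneg (f := fun t => m (t, y)) (μ := volume) hxl.le fun t _ => m0 (t, y)]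
    have hB0 : 0 ≤ M l y * ∫ t in ((l : ℝ) * s)..x, g l t :=
      mul_nonneg (M0 l y) (intervalIntegral.integral_nonneg hlx fun t _ => g0 l t)
    have hB1 : M l y * ∫ t in ((l : ℝ) * s)..x, g l t ≤ M l y := by
      calc M l y * ∫ t in ((l : ℝ) * s)..x, g l t
          ≤ M l y * ∫ t in ((l : ℝ) * s)..((l : ℝ) * s + s), g l t := by
            refine mul_le_mul_of_nonneg_left ?_ (M0 l y)
            rw [← intervalIntegral.integral_add_adjacent_intervals
              ((cg l).intervalIntegrable ((l : ℝ) * s) x)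
              ((cg l).intervalIntegrable x ((l : ℝ) * s + s))]
            linarith [intervalIntegral.integral_nonneg (f := g l) (μ := volume) hxl.le fun t _ => g0 l t]
        _ = M l y := gI l y
    have hMm : M l y ≤ ∫ t in Icc (x - s) (x + s), m (t, y) := by
      simp only [hM]
      rw [intervalIntegral.integral_of_le (by linarith)]
      apply setIntegral_mono_set
      · exact (cmt y).integrableOn_Icc
      · exact ae_of_all _ fun t => m0 _
      · exact LE.le.eventuallyLE hsub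
    have hX2 : ∑ l' ∈ R, per (g l') x * T l' y = g l x * T l y := by
      rw [Finset.sum_congr rfl fun l' _ => mul_comm _ _, f_on l hl x y hlx hxl.le (fun l => T l y)]
      ring
    have hTm : T l y ≤ ∫ t in Icc (x - s) (x + s), ∫ σ in Ioi y, m (t, σ) := by
      have h1 : T l y = ∫ t in ((l : ℝ) * s)..((l : ℝ) * s + s), ∫ σ in y..(max y Y), m (t, σ) := by
        rw [tail]
        simp only [hM]
        rw [MeasureTheory.intervalIntegral_intervalIntegral_swap]
        have hc : Continuous (Function.uncurry fun (σ t : ℝ) => m (t, σ)) :=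
          cm.comp (continuous_snd.prodMk continuous_fst)
        refine (hc.continuousOn.integrableOn_compact (isCompact_uIcc.prod isCompact_uIcc)).mono_set
          (prod_mono uIoc_subset_uIcc uIoc_subset_uIcc)
      have h2 : ∀ t, ∫ σ in Ioi y, m (t, σ) = ∫ σ in y..(max y Y), m (t, σ) := fun t => hin t y
      simp_rw [h2]
      rw [h1, intervalIntegral.integral_of_le (by linarith)]
      have hc : Continuous (Function.uncurry fun (t σ : ℝ) => m (t, σ)) := cm
      have hcc : Continuous fun t => ∫ σ in y..(max y Y), m (t, σ) :=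
        intervalIntegral.continuous_parametric_intervalIntegral_of_continuous' hc _ _
      apply setIntegral_mono_set
      · exact hcc.integrableOn_Icc
      · exact ae_of_all _ fun t =>
          intervalIntegral.integral_nonneg (le_max_left _ _) fun σ _ => m0 _
      · exact LE.le.eventuallyLE hsub
    refine ⟨?_, ⟨?_, ?_⟩, ?_, ?_⟩
    · simp only
      rw [hX1 l hl x y hlx hxl.le, abs_le]
      constructor <;> linarith
    · simp only
      rw [hX2]
      exact mul_nonneg (g0 l x) (T0 l y)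
    · simp only
      rw [hX2]
      exact mul_le_mul (gle l x) hTm (T0 l y) (by positivity)
    · simp only
      rw [hX1 l hl x y hlx hxl.le]
      intro hne
      by_contra hcon
      push Not at hcon
      have : M l y = 0 := by
        simp only [hM]
        rw [intervalIntegral.integral_of_le (by linarith),
          setIntegral_congr_fun (g := fun _ => (0 : ℝ)) measurableSet_Ioc]
        · simp
        · intro t ht
          apply hcon t
          have := hsub ht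
          rw [abs_le]
          constructor <;> linarith [this.1, this.2]
      apply hne
      rw [this] at hA1 ⊢
      linarith
    · simp only
      rw [hX2]
      intro hne
      have h1 : g l x ≠ 0 := left_ne_zero_of_mul hne
      have h2 : T l y ≠ 0 := right_ne_zero_of_mul hne
      refine ⟨gG l x h1, ?_⟩
      by_contra hlt
      push Not at hlt
      apply h2
      rw [tail]
      rw [intervalIntegral.integral_of_le (le_max_left _ _),
          setIntegral_congr_fun (g := fun _ => (0 : ℝ)) measurableSet_Ioc]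
      · simp
      · intro σ hσ
        simp only [hM]
        have : ∀ t, m (t, σ) = 0 := by
          intro t
          by_contra hne
          have := (hsupp _ hne).2
          simp only at this
          linarith [hσ.1]
        simp [this]

theorem icc_shift (F : ℝ → ℝ) (s x : ℝ) (c : ℝ) (hF : ∀ t, F (t + c) = F t) (hs : 0 ≤ s) :
    ∫ t in Icc (x + c - s) (x + c + s), F t = ∫ t in Icc (x - s) (x + s), F t := by
  rw [integral_Icc_eq_integral_Ioc, integral_Icc_eq_integral_Ioc,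
    ← intervalIntegral.integral_of_le (by linarith), ← intervalIntegral.integral_of_le (by linarith)]
  have h := intervalIntegral.integral_comp_add_right (a := x - s) (b := x + s) F c
  simp only [hF] at h
  rw [h]
  congr 1 <;> ring

end OBaux

/-- **(OB)** One band of the flow.  `s = 2π/N`; `m ≥ 0` is `C¹`, periodic, supported in `y₁ ≤ y ≤ y₂`, `0 < y₁`;
`Good` open periodic; every interval `J_l = [ls,(l+1)s)` over which `m` does not vanish identically satisfies
`|Good ∩ J_l°| ≥ (3/4)s`.  Then there are `C¹` periodic `X₁, X₂` with `∂xX₁ - ∂yX₂ = m` and the bounds below.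

Proof: for `0 ≤ l < N` with `m ≢ 0` over `J_l` choose a compact `K_l ⊂ Good ∩ J_l°` with `|K_l| ≥ s/2` and a smooth
`0 ≤ g_l ≤ 1`, `g_l = 1` on `K_l`, with compact support in `Good ∩ J_l°`; `ρ_l = g_l/∫g_l ≤ 2/s`, `∫ρ_l = 1`; otherwise
`ρ_l = 0`.  Extend `ρ_l` to be `2π`-periodic (sum over translates, locally finite).  `M_l(y) = ∫_{ls}^{(l+1)s} m(t,y)dt`.
`f(x,y) = m(x,y) - Σ_l M_l(y)ρ_l(x)`, `X₁(x,y) = ∫_0^x f(t,y)dt`, `X₂(x,y) = Σ_l ρ_l(x) ∫_y^∞ M_l(σ)dσ`.
`X₁` vanishes at all the points `ls` (mass balance on each `J_l`), so on `J_l` (and its translates)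
`X₁(x,y) = ∫_{ls}^x m - M_l(y)∫_{ls}^xρ_l`, a difference of two numbers in `[0, M_l(y)]`. -/
theorem OB (N : ℕ) (hN : 1 ≤ N) (s : ℝ) (hs : s = 2 * Real.pi / N) (m mx my : ℝ × ℝ → ℝ)
    (hm : ∀ σ : ℝ, C1 σ m mx my) (m0 : ∀ p, 0 ≤ m p) (y1 y2 : ℝ) (hy : 0 < y1)
    (hsupp : ∀ p : ℝ × ℝ, m p ≠ 0 → y1 ≤ p.2 ∧ p.2 ≤ y2)
    (Good : Set ℝ) (hGo : IsOpen Good) (hGper : ∀ x, x + 2 * Real.pi ∈ Good ↔ x ∈ Good)
    (hG : ∀ l : ℤ, (∃ p : ℝ × ℝ, l * s ≤ p.1 ∧ p.1 < (l + 1) * s ∧ m p ≠ 0) →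
      ENNReal.ofReal (3 / 4 * s) ≤ volume (Good ∩ Set.Ioo (l * s) ((l + 1) * s))) :
    ∃ X1 X1x X1y X2 X2x X2y : ℝ × ℝ → ℝ,
      (∀ σ : ℝ, C1 σ X1 X1x X1y) ∧ (∀ σ : ℝ, C1 σ X2 X2x X2y) ∧
      (∀ p, X1x p - X2y p = m p) ∧
      (∀ p : ℝ × ℝ, |X1 p| ≤ ∫ t in Set.Icc (p.1 - s) (p.1 + s), m (t, p.2)) ∧
      (∀ p : ℝ × ℝ, 0 ≤ X2 p ∧
        X2 p ≤ 2 / s * ∫ t in Set.Icc (p.1 - s) (p.1 + s), ∫ y in Set.Ioi p.2, m (t, y)) ∧
      (∀ p : ℝ × ℝ, X1 p ≠ 0 → ∃ t : ℝ, |t - p.1| ≤ s ∧ m (t, p.2) ≠ 0) ∧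
      (∀ p : ℝ × ℝ, X2 p ≠ 0 → p.1 ∈ Good ∧ p.2 ≤ y2) := by
  have cm : Continuous m := OBaux.cont_of_all fun σ => (hm σ).c
  have cmy : Continuous my := OBaux.cont_of_all fun σ => (hm σ).cy
  have dmy : ∀ p : ℝ × ℝ, HasDerivAt (fun y : ℝ => m (p.1, y)) (my p) p.2 := fun p =>
    (hm (1 - p.2)).dy p (by linarith)
  have pm : ∀ p : ℝ × ℝ, m (p.1 + 2 * Real.pi, p.2) = m p := fun p =>
    (hm (1 - p.2)).per p (by linarith)
  have hpi := Real.pi_pos
  have hs0 : 0 < s := by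
    have : (0 : ℝ) < N := by exact_mod_cast hN
    rw [hs]; positivity
  obtain ⟨X1, X1x, X1y, X2, X2x, X2y, h1, h2, h3, h4⟩ :=
    OBaux.core N hN s hs m my cm cmy dmy pm m0 y1 y2 hsupp Good hGo hG
  refine ⟨X1, X1x, X1y, X2, X2x, X2y, h1, h2, h3, ?_⟩
  have key : ∀ x y : ℝ, ∃ x0 c : ℝ, x = x0 + c ∧ 0 ≤ x0 ∧ x0 < 2 * Real.pi ∧
      (∀ t y', m (t + c, y') = m (t, y')) ∧ X1 (x, y) = X1 (x0, y) ∧ X2 (x, y) = X2 (x0, y) ∧
      (x ∈ Good ↔ x0 ∈ Good) := by
    intro x y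
    have h2pi : 0 < 2 * Real.pi := by positivity
    have e1 := Int.floor_le (x / (2 * Real.pi))
    have e2 := Int.lt_floor_add_one (x / (2 * Real.pi))
    rw [le_div_iff₀ h2pi] at e1
    rw [div_lt_iff₀ h2pi] at e2
    set k := ⌊x / (2 * Real.pi)⌋ with hk
    refine ⟨x - k * (2 * Real.pi), k * (2 * Real.pi), by ring, by linarith, by linarith, ?_, ?_, ?_, ?_⟩
    · intro t y'
      have hp : Function.Periodic (fun t => m (t, y')) (2 * Real.pi) := fun t => pm (t, y')
      exact hp.int_mul k t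
    · have hp : Function.Periodic (fun t => X1 (t, y)) (2 * Real.pi) := fun t =>
        (h1 (1 - y)).per (t, y) (by simp)
      exact (hp.sub_int_mul_eq k).symm
    · have hp : Function.Periodic (fun t => X2 (t, y)) (2 * Real.pi) := fun t =>
        (h2 (1 - y)).per (t, y) (by simp)
      exact (hp.sub_int_mul_eq k).symm
    · have hp : Function.Periodic (fun t => t ∈ Good) (2 * Real.pi) := fun t =>
        propext (hGper t)
      rw [← hp.sub_int_mul_eq k]
  refine ⟨?_, ?_, ?_, ?_⟩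
  · rintro ⟨x, y⟩
    obtain ⟨x0, c, hx, hx0, hx1, hmc, hX1, _, _⟩ := key x y
    simp only
    rw [hX1, hx, OBaux.icc_shift (fun t => m (t, y)) s x0 c (fun t => hmc t y) hs0.le]
    exact (h4 x0 y hx0 hx1).1
  · rintro ⟨x, y⟩
    obtain ⟨x0, c, hx, hx0, hx1, hmc, _, hX2, _⟩ := key x y
    simp only
    rw [hX2, hx, OBaux.icc_shift (fun t => ∫ y in Set.Ioi y, m (t, y)) s x0 c
      (fun t => by simp only [hmc]) hs0.le]
    exact (h4 x0 y hx0 hx1).2.1
  · rintro ⟨x, y⟩ hne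
    obtain ⟨x0, c, hx, hx0, hx1, hmc, hX1, _, _⟩ := key x y
    rw [hX1] at hne
    obtain ⟨t, ht, hmt⟩ := (h4 x0 y hx0 hx1).2.2.1 hne
    refine ⟨t + c, ?_, ?_⟩
    · simp only
      rw [hx]
      rwa [add_sub_add_right_eq_sub]
    · simp only
      rwa [hmc]
  · rintro ⟨x, y⟩ hne
    obtain ⟨x0, c, hx, hx0, hx1, hmc, _, hX2, hgood⟩ := key x y
    rw [hX2] at hne
    have := (h4 x0 y hx0 hx1).2.2.2 hne
    exact ⟨hgood.2 this.1, this.2⟩

end Pool.H14.SR

end S_OB

noncomputable section S_HallM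

open MeasureTheory Set Filter Topology
namespace Pool.H14.SR

/-- second derivative test at a local minimum -/
theorem HallM_aux {f g : ℝ → ℝ} {x c : ℝ} (h1 : ∀ᶠ t in 𝓝 x, HasDerivAt f (g t) t)
    (h2 : HasDerivAt g c x) (hmin : ∀ᶠ t in 𝓝 x, f x ≤ f t) : 0 ≤ c := by
  by_contra hc
  push Not at hc
  have hg0 : g x = 0 := IsLocalMin.hasDerivAt_eq_zero hmin h1.self_of_nhds
  have hs := h2.tendsto_slope
  have hs2 : ∀ᶠ t in 𝓝[≠] x, slope g x t < 0 := hs.eventually (Iio_mem_nhds hc)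
  have hs3 : ∀ᶠ t in 𝓝 x, t ≠ x → slope g x t < 0 := by
    rwa [eventually_nhdsWithin_iff] at hs2
  obtain ⟨ε, hε, hball⟩ := Metric.eventually_nhds_iff_ball.1 ((h1.and hmin).and hs3)
  set t := x + ε / 2 with ht
  have hxt : x < t := by rw [ht]; linarith
  have hmem : ∀ s, x ≤ s → s ≤ t → s ∈ Metric.ball x ε := by
    intro s h1 h2
    rw [Metric.mem_ball, Real.dist_eq, abs_of_nonneg (by linarith)]
    rw [ht] at h2; linarith
  obtain ⟨s, hs, hseq⟩ := exists_hasDerivAt_eq_slope f g hxt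
    (fun s hs => (hball s (hmem s hs.1 hs.2)).1.1.continuousAt.continuousWithinAt)
    (fun s hs => (hball s (hmem s hs.1.le hs.2.le)).1.1)
  have h3 := (hball s (hmem s hs.1.le hs.2.le)).2 hs.1.ne'
  rw [slope_def_field, hg0, sub_zero] at h3
  have h4 : g s < 0 := by
    by_contra h5
    push Not at h5
    exact absurd h3 (not_lt.2 (div_nonneg h5 (by linarith [hs.1])))
  have h6 := (hball t (hmem t hxt.le le_rfl)).1.2
  rw [hseq] at h4
  have h7 : 0 ≤ (f t - f x) / (t - x) := div_nonneg (by linarith) (by linarith)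
  linarith

/-- **(HallM)** A minimum principle.  `W` continuous on `y ≥ 0`, `W ≥ 0` on `y = 0`, on the set `Bs` and for
`‖p‖ ≥ R`; `Wxx + Wyy < 0` at the other points of `y > 0`.  Then `W ≥ 0` on `y ≥ 0`.

Proof: otherwise `W` attains a negative minimum on the compact set `{0 ≤ y, ‖p‖ ≤ R}` (sup norm of `ℝ × ℝ`), at
a point with `y > 0`, `‖p‖ < R`, not in `Bs`; it is a local minimum in `x` and in `y`, so `Wxx ≥ 0`, `Wyy ≥ 0`
(second derivative test; only the existence of the derivatives at that point and of the first derivatives near it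
is used), a contradiction. -/
theorem HallM (W Wx Wxx Wy Wyy : ℝ × ℝ → ℝ)
    (dx : ∀ p : ℝ × ℝ, 0 < p.2 → HasDerivAt (fun x : ℝ => W (x, p.2)) (Wx p) p.1)
    (dxx : ∀ p : ℝ × ℝ, 0 < p.2 → HasDerivAt (fun x : ℝ => Wx (x, p.2)) (Wxx p) p.1)
    (dy : ∀ p : ℝ × ℝ, 0 < p.2 → HasDerivAt (fun y : ℝ => W (p.1, y)) (Wy p) p.2)
    (dyy : ∀ p : ℝ × ℝ, 0 < p.2 → HasDerivAt (fun y : ℝ => Wy (p.1, y)) (Wyy p) p.2)
    (hc : ContinuousOn W {p | 0 ≤ p.2}) (Bs : Set (ℝ × ℝ)) (R : ℝ)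
    (hbd : ∀ x : ℝ, 0 ≤ W (x, 0)) (hBs : ∀ p ∈ Bs, 0 ≤ p.2 → 0 ≤ W p)
    (hfar : ∀ p : ℝ × ℝ, 0 ≤ p.2 → R ≤ ‖p‖ → 0 ≤ W p)
    (hlap : ∀ p : ℝ × ℝ, 0 < p.2 → p ∉ Bs → ‖p‖ < R → Wxx p + Wyy p < 0) :
    ∀ p : ℝ × ℝ, 0 ≤ p.2 → 0 ≤ W p := by
  by_contra hcon
  push Not at hcon
  obtain ⟨p0, hp0, hneg⟩ := hcon
  have hp0R : ‖p0‖ < R := by
    by_contra h
    exact absurd (hfar p0 hp0 (not_lt.1 h)) (not_le.2 hneg)
  set K : Set (ℝ × ℝ) := {p | 0 ≤ p.2} ∩ Metric.closedBall 0 R with hK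
  have hKc : IsCompact K :=
    (isCompact_closedBall (0 : ℝ × ℝ) R).inter_left (isClosed_le continuous_const continuous_snd)
  have hp0K : p0 ∈ K := ⟨hp0, by rw [mem_closedBall_zero_iff]; exact hp0R.le⟩
  obtain ⟨p1, hp1K, hp1⟩ := hKc.exists_isMinOn ⟨p0, hp0K⟩ (hc.mono inter_subset_left)
  have h1 : W p1 < 0 := lt_of_le_of_lt (hp1 hp0K) hneg
  have h2 : 0 ≤ p1.2 := hp1K.1
  have h3 : 0 < p1.2 := by
    rcases h2.lt_or_eq with h | h
    · exact h
    · exfalso
      have := hbd p1.1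
      rw [show (p1.1, (0 : ℝ)) = p1 from Prod.ext rfl h] at this
      linarith
  have h4 : ‖p1‖ < R := by
    by_contra h
    exact absurd (hfar p1 h2 (not_lt.1 h)) (not_le.2 h1)
  have h5 : p1 ∉ Bs := fun h => absurd (hBs p1 h h2) (not_le.2 h1)
  have hlap1 := hlap p1 h3 h5 h4
  -- neighbourhood
  have hU : {p : ℝ × ℝ | 0 < p.2} ∩ Metric.ball 0 R ∈ 𝓝 p1 := by
    refine inter_mem ((isOpen_lt continuous_const continuous_snd).mem_nhds h3)
      (Metric.isOpen_ball.mem_nhds (by rw [mem_ball_zero_iff]; exact h4))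
  have hloc : ∀ᶠ p in 𝓝 p1, W p1 ≤ W p := by
    filter_upwards [hU] with p hp
    have hp1' : 0 < p.2 := hp.1
    have hp2' : ‖p‖ < R := by
      have := hp.2
      rwa [mem_ball_zero_iff] at this
    have hpK : p ∈ K := ⟨hp1'.le, by rw [mem_closedBall_zero_iff]; exact hp2'.le⟩
    exact hp1 hpK
  have cx : Tendsto (fun x : ℝ => ((x, p1.2) : ℝ × ℝ)) (𝓝 p1.1) (𝓝 p1) := by
    have : Continuous (fun x : ℝ => ((x, p1.2) : ℝ × ℝ)) := by fun_prop
    exact this.tendsto p1.1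
  have cy : Tendsto (fun y : ℝ => ((p1.1, y) : ℝ × ℝ)) (𝓝 p1.2) (𝓝 p1) := by
    have : Continuous (fun y : ℝ => ((p1.1, y) : ℝ × ℝ)) := by fun_prop
    exact this.tendsto p1.2
  have e1 : 0 ≤ Wxx p1 := by
    refine HallM_aux (f := fun x => W (x, p1.2)) (g := fun x => Wx (x, p1.2)) ?_ (dxx p1 h3) ?_
    · exact Eventually.of_forall fun t => dx (t, p1.2) h3
    · exact cx.eventually hloc
  have e2 : 0 ≤ Wyy p1 := by
    refine HallM_aux (f := fun y => W (p1.1, y)) (g := fun y => Wy (p1.1, y)) ?_ (dyy p1 h3) ?_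
    · filter_upwards [Ioi_mem_nhds h3] with t ht
      exact dy (p1.1, t) ht
    · exact cy.eventually hloc
  linarith

end Pool.H14.SR

end S_HallM

noncomputable section S_HallK

open MeasureTheory Set Filter Topology
namespace Pool.H14.SR


/-- The mollified Green kernel at `z = (x,y)` with pole `(s,t)`:
`(1/2) log ((|z-ζ|² + 4 y t)/(|z-ζ|²+r²))`, `|z-ζ|² = (x-s)²+(y-t)²`. -/
def gk (r : ℝ) (ζ z : ℝ × ℝ) : ℝ :=
  (1 / 2) * Real.log ((((z.1 - ζ.1) ^ 2 + (z.2 - ζ.2) ^ 2) + 4 * z.2 * ζ.2)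
    / (((z.1 - ζ.1) ^ 2 + (z.2 - ζ.2) ^ 2) + r ^ 2))

namespace HallKAux

theorem comb {n : ℕ} (j : Fin n → ℤ) (hj : Function.Injective j) (J : ℤ) (b : ℕ → ℝ)
    (hb : ∀ k, 0 ≤ b k) (C : ℝ) (hC : ∀ N, ∑ k ∈ Finset.range N, b k ≤ C) :
    ∑ i, b (j i - J).natAbs ≤ 2 * C := by
  classical
  obtain ⟨N, hN⟩ : ∃ N : ℕ, ∀ i, (j i - J).natAbs < N := by
    refine ⟨(∑ i, (j i - J).natAbs) + 1, fun i => ?_⟩
    exact Nat.lt_succ_of_le (Finset.single_le_sum (f := fun i => (j i - J).natAbs)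
      (fun _ _ => Nat.zero_le _) (Finset.mem_univ i))
  rw [← Finset.sum_fiberwise_of_maps_to (s := Finset.univ) (t := Finset.range N)
    (g := fun i => (j i - J).natAbs) (fun i _ => Finset.mem_range.2 (hN i))]
  have hcard : ∀ k ∈ Finset.range N,
      ∑ i ∈ Finset.univ.filter (fun i => (j i - J).natAbs = k), b (j i - J).natAbs ≤ 2 * b k := by
    intro k _
    have h1 : ∑ i ∈ Finset.univ.filter (fun i => (j i - J).natAbs = k), b (j i - J).natAbs
        = ∑ i ∈ Finset.univ.filter (fun i => (j i - J).natAbs = k), b k := by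
      apply Finset.sum_congr rfl
      intro i hi
      rw [(Finset.mem_filter.1 hi).2]
    rw [h1, Finset.sum_const, nsmul_eq_mul]
    apply mul_le_mul_of_nonneg_right _ (hb k)
    have h2 : (Finset.univ.filter (fun i => (j i - J).natAbs = k)).card ≤ 2 := by
      calc (Finset.univ.filter (fun i => (j i - J).natAbs = k)).card
          ≤ ({J + k, J - k} : Finset ℤ).card := by
            apply Finset.card_le_card_of_injOn j
            · intro i hi
              have hi' : (j i - J).natAbs = k := by simpa using hi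
              simp only [Finset.coe_insert, Finset.coe_singleton, Set.mem_insert_iff,
                Set.mem_singleton_iff]
              omega
            · exact hj.injOn
        _ ≤ 2 := Finset.card_le_two
    exact_mod_cast h2
  calc _ ≤ ∑ k ∈ Finset.range N, 2 * b k := Finset.sum_le_sum hcard
    _ = 2 * ∑ k ∈ Finset.range N, b k := by rw [Finset.mul_sum]
    _ ≤ 2 * C := by linarith [hC N]

theorem dist_cell {r x x0 : ℝ} (hr : 0 < r) :
    (((⌊x / r⌋ - ⌊x0 / r⌋).natAbs : ℝ) - 1) * r ≤ |x0 - x| := by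
  have a1 : (⌊x / r⌋ : ℝ) * r ≤ x := by
    have := Int.floor_le (x / r)
    calc (⌊x / r⌋ : ℝ) * r ≤ x / r * r := by gcongr
      _ = x := by field_simp
  have a2 : x < ((⌊x / r⌋ : ℝ) + 1) * r := by
    have := Int.lt_floor_add_one (x / r)
    calc x = x / r * r := by field_simp
      _ < _ := by gcongr
  have b1 : (⌊x0 / r⌋ : ℝ) * r ≤ x0 := by
    have := Int.floor_le (x0 / r)
    calc (⌊x0 / r⌋ : ℝ) * r ≤ x0 / r * r := by gcongr
      _ = x0 := by field_simp
  have b2 : x0 < ((⌊x0 / r⌋ : ℝ) + 1) * r := by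
    have := Int.lt_floor_add_one (x0 / r)
    calc x0 = x0 / r * r := by field_simp
      _ < _ := by gcongr
  have hk : ((⌊x / r⌋ - ⌊x0 / r⌋).natAbs : ℝ) = |(⌊x / r⌋ : ℝ) - (⌊x0 / r⌋ : ℝ)| := by
    rw [← Int.cast_sub, ← Int.cast_abs, Int.abs_eq_natAbs]
    simp
  rw [hk]
  rcases le_total 0 ((⌊x / r⌋ : ℝ) - (⌊x0 / r⌋ : ℝ)) with h | h
  · rw [abs_of_nonneg h]
    have := neg_le_abs (x0 - x)
    nlinarith
  · rw [abs_of_nonpos h]
    have := le_abs_self (x0 - x)
    nlinarith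

theorem log_sq_le {v : ℝ} (hv : 0 ≤ v) : Real.log (1 + v ^ 2) ≤ v := by
  rw [Real.log_le_iff_le_exp (by positivity)]
  have h := Real.sum_le_exp_of_nonneg hv 4
  simp only [Finset.sum_range_succ, Finset.sum_range_zero, Nat.factorial, pow_zero, pow_one] at h
  norm_num at h
  nlinarith [mul_nonneg hv (sq_nonneg (v - 3 / 2)), mul_nonneg hv (sq_nonneg v)]

/-- The primitive of `log (1 + c²/D²)`. -/
def G (c D : ℝ) : ℝ := D * Real.log (1 + c ^ 2 / D ^ 2) + 2 * c * Real.arctan (D / c)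

theorem G_deriv {c D : ℝ} (hc : 0 < c) (hD : 0 < D) :
    HasDerivAt (G c) (Real.log (1 + c ^ 2 / D ^ 2)) D := by
  unfold G
  have h1 : HasDerivAt (fun D : ℝ => 1 + c ^ 2 / D ^ 2) (-(2 * c ^ 2) / D ^ 3) D := by
    have a := ((hasDerivAt_const D (c ^ 2)).div (hasDerivAt_pow 2 D) (pow_pos hD 2).ne').const_add 1
    refine a.congr_deriv ?_
    field_simp
    simp
    ring
  have h2 := h1.log (by positivity)
  have h3 := (hasDerivAt_id D).mul h2
  have h4 : HasDerivAt (fun D : ℝ => D / c) (1 / c) D := (hasDerivAt_id D).div_const c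
  have h5 := (h4.arctan).const_mul (2 * c)
  have h6 := h3.add h5
  refine h6.congr_deriv ?_
  simp only [id]
  field_simp
  ring

theorem G_step {c a b : ℝ} (hc : 0 < c) (ha : 0 < a) (hab : a < b) :
    (b - a) * Real.log (1 + c ^ 2 / b ^ 2) ≤ G c b - G c a := by
  obtain ⟨ξ, hξ, h⟩ := exists_hasDerivAt_eq_slope (G c) (fun D => Real.log (1 + c ^ 2 / D ^ 2)) hab
    (fun x hx => (G_deriv hc (lt_of_lt_of_le ha hx.1)).continuousAt.continuousWithinAt)
    (fun x hx => G_deriv hc (ha.trans hx.1))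
  have hξ0 : 0 < ξ := ha.trans hξ.1
  have hb0 : 0 < b := ha.trans hab
  have h' : G c b - G c a = (b - a) * Real.log (1 + c ^ 2 / ξ ^ 2) := by
    rw [h, mul_div_cancel₀]
    exact (sub_pos.2 hab).ne'
  rw [h']
  apply mul_le_mul_of_nonneg_left _ (by linarith)
  apply Real.log_le_log (by positivity)
  have : c ^ 2 / b ^ 2 ≤ c ^ 2 / ξ ^ 2 := by
    apply div_le_div_of_nonneg_left (by positivity) (by positivity)
    exact pow_le_pow_left₀ hξ0.le hξ.2.le 2
  linarith

theorem G_nonneg {c D : ℝ} (hc : 0 < c) (hD : 0 < D) : 0 ≤ G c D := by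
  unfold G
  have h1 : 0 ≤ Real.log (1 + c ^ 2 / D ^ 2) := Real.log_nonneg (by
    have : 0 < c ^ 2 / D ^ 2 := by positivity
    linarith)
  have h2 : 0 ≤ Real.arctan (D / c) := Real.arctan_nonneg.2 (by positivity)
  positivity

theorem G_le {c D : ℝ} (hc : 0 < c) (hD : 0 < D) : G c D ≤ (1 + Real.pi) * c := by
  unfold G
  have h1 : Real.log (1 + c ^ 2 / D ^ 2) ≤ c / D := by
    rw [← div_pow]; exact log_sq_le (by positivity)
  have h2 := (Real.arctan_lt_pi_div_two (D / c)).le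
  have h3 : D * Real.log (1 + c ^ 2 / D ^ 2) ≤ c := by
    calc D * Real.log (1 + c ^ 2 / D ^ 2) ≤ D * (c / D) := by gcongr
      _ = c := by field_simp
  nlinarith

/-- far part -/
def b1 (r y : ℝ) (k : ℕ) : ℝ :=
  if k ≤ 1 then 2 / 5 else r * (2 * y / ((((k : ℝ) - 1) * r) ^ 2 + y ^ 2 / 4))

theorem b1_nonneg {r y : ℝ} (hr : 0 < r) (hy : 0 < y) (k : ℕ) : 0 ≤ b1 r y k := by
  unfold b1
  split_ifs
  · norm_num
  · positivity

theorem b1_sum {r y : ℝ} (hr : 0 < r) (hy : 20 * r ≤ y) (N : ℕ) :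
    ∑ k ∈ Finset.range N, b1 r y k ≤ 44 / 5 := by
  have hy0 : 0 < y := by linarith
  have key : ∀ n : ℕ, ∑ k ∈ Finset.range (n + 2), b1 r y k
      ≤ 44 / 5 - 4 * y / ((n : ℝ) * r + y / 2) := by
    intro n
    induction n with
    | zero =>
      simp only [Nat.cast_zero, zero_mul, zero_add]
      rw [Finset.sum_range_succ, Finset.sum_range_succ, Finset.sum_range_zero]
      have e : 4 * y / (y / 2) = 8 := by field_simp; norm_num
      rw [e]
      unfold b1
      norm_num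
    | succ n ih =>
      rw [Finset.sum_range_succ]
      have e : b1 r y (n + 2) ≤ 4 * y / ((n : ℝ) * r + y / 2) - 4 * y / (((n : ℝ) + 1) * r + y / 2) := by
        unfold b1
        rw [if_neg (by omega)]
        push_cast
        have e1 : ((n : ℝ) + 2 - 1) = (n : ℝ) + 1 := by ring
        rw [e1]
        set t : ℝ := (n : ℝ) * r + y / 2 with ht
        have ht0 : 0 < t := by positivity
        have ht1 : ((n : ℝ) + 1) * r + y / 2 = t + r := by rw [ht]; ring
        have hq : (((n : ℝ) + 1) * r) ^ 2 + y ^ 2 / 4 ≥ (t + r) ^ 2 / 2 := by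
          rw [← ht1]
          nlinarith [sq_nonneg (((n : ℝ) + 1) * r - y / 2)]
        rw [ht1]
        have hq0 : 0 < (t + r) ^ 2 / 2 := by positivity
        calc r * (2 * y / ((((n : ℝ) + 1) * r) ^ 2 + y ^ 2 / 4))
            ≤ r * (2 * y / ((t + r) ^ 2 / 2)) := by gcongr
          _ = 4 * y * (r / ((t + r) * (t + r))) := by field_simp; ring
          _ ≤ 4 * y * (r / (t * (t + r))) := by gcongr; linarith
          _ = 4 * y / t - 4 * y / (t + r) := by field_simp; ring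
      push_cast
      linarith
  rcases lt_or_ge N 2 with h | h
  · calc ∑ k ∈ Finset.range N, b1 r y k ≤ ∑ k ∈ Finset.range 2, b1 r y k :=
        Finset.sum_le_sum_of_subset_of_nonneg (Finset.range_mono h.le)
          (fun k _ _ => b1_nonneg hr hy0 k)
      _ ≤ _ := by
        have := key 0
        have h2 : 0 ≤ 4 * y / (((0 : ℕ) : ℝ) * r + y / 2) := by positivity
        simp only [zero_add] at this
        linarith
  · obtain ⟨n, rfl⟩ := Nat.exists_eq_add_of_le' h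
    have := key n
    have h2 : 0 ≤ 4 * y / ((n : ℝ) * r + y / 2) := by positivity
    linarith

/-- near part -/
def b2 (r y : ℝ) (k : ℕ) : ℝ :=
  if k ≤ 2 then Real.sqrt 2 else r / y * Real.log (1 + 2 * y ^ 2 / (((k : ℝ) - 1) * r) ^ 2)

theorem b2_nonneg {r y : ℝ} (hr : 0 < r) (hy : 0 < y) (k : ℕ) : 0 ≤ b2 r y k := by
  unfold b2
  split_ifs
  · positivity
  · apply mul_nonneg (by positivity)
    apply Real.log_nonneg
    have : 0 ≤ 2 * y ^ 2 / (((k : ℝ) - 1) * r) ^ 2 := by positivity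
    linarith

theorem b2_sum {r y : ℝ} (hr : 0 < r) (hy : 0 < y) (N : ℕ) :
    ∑ k ∈ Finset.range N, b2 r y k ≤ (4 + Real.pi) * Real.sqrt 2 := by
  set c : ℝ := Real.sqrt 2 * y with hc
  have h2 : (0 : ℝ) < Real.sqrt 2 := by positivity
  have hc0 : 0 < c := by positivity
  have hcc : c ^ 2 = 2 * y ^ 2 := by
    rw [hc, mul_pow, Real.sq_sqrt (by norm_num)]
  have key : ∀ n : ℕ, ∑ k ∈ Finset.range (n + 3), b2 r y k
      ≤ 3 * Real.sqrt 2 + 1 / y * (G c (((n : ℝ) + 1) * r) - G c r) := by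
    intro n
    induction n with
    | zero =>
      simp only [Nat.cast_zero, zero_add, one_mul, sub_self, mul_zero, add_zero]
      rw [Finset.sum_range_succ, Finset.sum_range_succ, Finset.sum_range_succ,
        Finset.sum_range_zero]
      unfold b2
      norm_num
      linarith
    | succ n ih =>
      rw [Finset.sum_range_succ]
      have e : b2 r y (n + 3) ≤ 1 / y * (G c (((n : ℝ) + 1 + 1) * r) - G c (((n : ℝ) + 1) * r)) := by
        unfold b2
        rw [if_neg (by omega)]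
        push_cast
        have e1 : ((n : ℝ) + 3 - 1) = (n : ℝ) + 1 + 1 := by ring
        rw [e1]
        have := G_step (c := c) (a := ((n : ℝ) + 1) * r) (b := ((n : ℝ) + 1 + 1) * r) hc0
          (by positivity) (by nlinarith)
        rw [hcc] at this
        have e2 : ((n : ℝ) + 1 + 1) * r - ((n : ℝ) + 1) * r = r := by ring
        rw [e2] at this
        calc r / y * Real.log (1 + 2 * y ^ 2 / (((n : ℝ) + 1 + 1) * r) ^ 2)
            = 1 / y * (r * Real.log (1 + 2 * y ^ 2 / (((n : ℝ) + 1 + 1) * r) ^ 2)) := by ring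
          _ ≤ _ := by gcongr
      push_cast
      have e3 : 1 / y * (G c (((n : ℝ) + 1 + 1) * r) - G c r)
          = 1 / y * (G c (((n : ℝ) + 1 + 1) * r) - G c (((n : ℝ) + 1) * r))
            + 1 / y * (G c (((n : ℝ) + 1) * r) - G c r) := by ring
      rw [e3]
      linarith
  have fin : ∀ n : ℕ, ∑ k ∈ Finset.range (n + 3), b2 r y k ≤ (4 + Real.pi) * Real.sqrt 2 := by
    intro n
    refine (key n).trans ?_
    have g1 := G_le (c := c) (D := ((n : ℝ) + 1) * r) hc0 (by positivity)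
    have g2 := G_nonneg (c := c) (D := r) hc0 hr
    have : 1 / y * (G c (((n : ℝ) + 1) * r) - G c r) ≤ 1 / y * ((1 + Real.pi) * c) := by
      gcongr
      linarith
    have e : 1 / y * ((1 + Real.pi) * c) = (1 + Real.pi) * Real.sqrt 2 := by
      rw [hc]; field_simp
    rw [e] at this
    linarith
  calc ∑ k ∈ Finset.range N, b2 r y k ≤ ∑ k ∈ Finset.range (N + 3), b2 r y k :=
        Finset.sum_le_sum_of_subset_of_nonneg (Finset.range_mono (by omega))
          (fun k _ _ => b2_nonneg hr hy k)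
    _ ≤ _ := fin N

/-- the two bounds of a single term -/
theorem term_le {r : ℝ} (hr : 0 < r) {ζ z : ℝ × ℝ} (hζ : 0 < ζ.2) (hz : 0 < z.2) :
    r / ζ.2 * gk r ζ z ≤ r / (2 * ζ.2) * Real.log (1 + 4 * z.2 * ζ.2 /
      (((z.1 - ζ.1) ^ 2 + (z.2 - ζ.2) ^ 2) + r ^ 2)) := by
  unfold gk
  have hA : 0 < ((z.1 - ζ.1) ^ 2 + (z.2 - ζ.2) ^ 2) + r ^ 2 := by positivity
  have e : r / ζ.2 * (1 / 2 * Real.log ((((z.1 - ζ.1) ^ 2 + (z.2 - ζ.2) ^ 2) + 4 * z.2 * ζ.2)
    / (((z.1 - ζ.1) ^ 2 + (z.2 - ζ.2) ^ 2) + r ^ 2))) = r / (2 * ζ.2) *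
      Real.log ((((z.1 - ζ.1) ^ 2 + (z.2 - ζ.2) ^ 2) + 4 * z.2 * ζ.2)
    / (((z.1 - ζ.1) ^ 2 + (z.2 - ζ.2) ^ 2) + r ^ 2)) := by
    field_simp
  rw [e]
  apply mul_le_mul_of_nonneg_left _ (by positivity)
  apply Real.log_le_log (by positivity)
  rw [div_le_iff₀ hA, add_mul, div_mul_cancel₀ _ hA.ne']
  nlinarith [sq_nonneg r]

theorem term1 {r : ℝ} (hr : 0 < r) {ζ z : ℝ × ℝ} (hζ : 0 < ζ.2) (hz : 0 < z.2)
    (h : ζ.2 ≤ z.2 / 2) :
    r / ζ.2 * gk r ζ z ≤ r * (2 * z.2 / ((z.1 - ζ.1) ^ 2 + z.2 ^ 2 / 4)) := by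
  refine (term_le hr hζ hz).trans ?_
  have hA : 0 < ((z.1 - ζ.1) ^ 2 + (z.2 - ζ.2) ^ 2) + r ^ 2 := by positivity
  have hB : 0 < (z.1 - ζ.1) ^ 2 + z.2 ^ 2 / 4 := by positivity
  have h1 : Real.log (1 + 4 * z.2 * ζ.2 / (((z.1 - ζ.1) ^ 2 + (z.2 - ζ.2) ^ 2) + r ^ 2))
      ≤ 4 * z.2 * ζ.2 / (((z.1 - ζ.1) ^ 2 + (z.2 - ζ.2) ^ 2) + r ^ 2) := by
    have hp : 0 < 4 * z.2 * ζ.2 / (((z.1 - ζ.1) ^ 2 + (z.2 - ζ.2) ^ 2) + r ^ 2) := by positivity
    have := Real.log_le_sub_one_of_pos (by linarith : 0 < 1 + 4 * z.2 * ζ.2 /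
      (((z.1 - ζ.1) ^ 2 + (z.2 - ζ.2) ^ 2) + r ^ 2))
    linarith
  have h2 : 4 * z.2 * ζ.2 / (((z.1 - ζ.1) ^ 2 + (z.2 - ζ.2) ^ 2) + r ^ 2)
      ≤ 4 * z.2 * ζ.2 / ((z.1 - ζ.1) ^ 2 + z.2 ^ 2 / 4) := by
    apply div_le_div_of_nonneg_left (by positivity) hB
    nlinarith [sq_nonneg r]
  calc _ ≤ r / (2 * ζ.2) * (4 * z.2 * ζ.2 / ((z.1 - ζ.1) ^ 2 + z.2 ^ 2 / 4)) := by
        apply mul_le_mul_of_nonneg_left (h1.trans h2) (by positivity)
    _ = _ := by field_simp; ring

theorem term2 {r : ℝ} (hr : 0 < r) {ζ z : ℝ × ℝ} (hζ : 0 < ζ.2) (hz : 0 < z.2)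
    (h : z.2 / 2 ≤ ζ.2) :
    r / ζ.2 * gk r ζ z ≤ r / z.2 * Real.log (1 + 2 * z.2 ^ 2 / ((z.1 - ζ.1) ^ 2 + r ^ 2)) := by
  refine (term_le hr hζ hz).trans ?_
  have hA : 0 < ((z.1 - ζ.1) ^ 2 + (z.2 - ζ.2) ^ 2) + r ^ 2 := by positivity
  have hB : 0 < (z.1 - ζ.1) ^ 2 + r ^ 2 := by positivity
  set s : ℝ := 2 * z.2 ^ 2 / ((z.1 - ζ.1) ^ 2 + r ^ 2) with hs
  have hs0 : 0 < s := by positivity
  set lam : ℝ := 2 * ζ.2 / z.2 with hl
  have hl1 : 1 ≤ lam := by rw [hl, le_div_iff₀ hz]; linarith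
  have h1 : 1 + 4 * z.2 * ζ.2 / (((z.1 - ζ.1) ^ 2 + (z.2 - ζ.2) ^ 2) + r ^ 2) ≤ 1 + lam * s := by
    have e : lam * s = 4 * z.2 * ζ.2 / ((z.1 - ζ.1) ^ 2 + r ^ 2) := by
      rw [hl, hs]; field_simp; ring
    rw [e]
    have : 4 * z.2 * ζ.2 / (((z.1 - ζ.1) ^ 2 + (z.2 - ζ.2) ^ 2) + r ^ 2)
      ≤ 4 * z.2 * ζ.2 / ((z.1 - ζ.1) ^ 2 + r ^ 2) := by
      apply div_le_div_of_nonneg_left (by positivity) hB
      nlinarith [sq_nonneg (z.2 - ζ.2)]
    linarith
  have h2 : 1 + lam * s ≤ (1 + s) ^ lam :=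
    one_add_mul_self_le_rpow_one_add (by linarith) hl1
  have h3 : Real.log (1 + 4 * z.2 * ζ.2 / (((z.1 - ζ.1) ^ 2 + (z.2 - ζ.2) ^ 2) + r ^ 2))
      ≤ lam * Real.log (1 + s) := by
    rw [← Real.log_rpow (by linarith)]
    apply Real.log_le_log (by positivity) (h1.trans h2)
  calc _ ≤ r / (2 * ζ.2) * (lam * Real.log (1 + s)) := by
        apply mul_le_mul_of_nonneg_left h3 (by positivity)
    _ = _ := by rw [hl]; field_simp

theorem b1_bound {r y D : ℝ} (hr : 0 < r) (hy : 20 * r ≤ y) (k : ℕ) (h : ((k : ℝ) - 1) * r ≤ |D|) :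
    r * (2 * y / (D ^ 2 + y ^ 2 / 4)) ≤ b1 r y k := by
  have hy0 : 0 < y := by linarith
  unfold b1
  split_ifs with hk
  · calc r * (2 * y / (D ^ 2 + y ^ 2 / 4)) ≤ r * (2 * y / (y ^ 2 / 4)) := by
          gcongr; nlinarith [sq_nonneg D]
      _ = 8 * r / y := by field_simp; ring
      _ ≤ 2 / 5 := by rw [div_le_iff₀ hy0]; linarith
  · have hk1 : (1 : ℝ) ≤ (k : ℝ) - 1 := by
      have : (2 : ℝ) ≤ (k : ℝ) := by exact_mod_cast (by omega : 2 ≤ k)
      linarith
    have : (((k : ℝ) - 1) * r) ^ 2 ≤ D ^ 2 := by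
      rw [← sq_abs D]
      exact pow_le_pow_left₀ (by positivity) h 2
    have hp : 0 < (((k : ℝ) - 1) * r) ^ 2 + y ^ 2 / 4 := by positivity
    gcongr

theorem b2_bound {r y D : ℝ} (hr : 0 < r) (hy : 0 < y) (k : ℕ) (h : ((k : ℝ) - 1) * r ≤ |D|) :
    r / y * Real.log (1 + 2 * y ^ 2 / (D ^ 2 + r ^ 2)) ≤ b2 r y k := by
  unfold b2
  split_ifs with hk
  · have h1 : Real.log (1 + 2 * y ^ 2 / (D ^ 2 + r ^ 2)) ≤ Real.sqrt 2 * y / r := by
      calc Real.log (1 + 2 * y ^ 2 / (D ^ 2 + r ^ 2)) ≤ Real.log (1 + (Real.sqrt 2 * y / r) ^ 2) := by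
            apply Real.log_le_log (by positivity)
            rw [div_pow, mul_pow, Real.sq_sqrt (by norm_num)]
            have : 2 * y ^ 2 / (D ^ 2 + r ^ 2) ≤ 2 * y ^ 2 / r ^ 2 := by
              apply div_le_div_of_nonneg_left (by positivity) (by positivity)
              nlinarith [sq_nonneg D]
            linarith
        _ ≤ _ := log_sq_le (by positivity)
    calc r / y * Real.log (1 + 2 * y ^ 2 / (D ^ 2 + r ^ 2)) ≤ r / y * (Real.sqrt 2 * y / r) := by
          gcongr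
      _ = Real.sqrt 2 := by field_simp
  · have hk1 : (1 : ℝ) ≤ (k : ℝ) - 1 := by
      have : (2 : ℝ) ≤ (k : ℝ) := by exact_mod_cast (by omega : 2 ≤ k)
      linarith
    have : (((k : ℝ) - 1) * r) ^ 2 ≤ D ^ 2 := by
      rw [← sq_abs D]
      exact pow_le_pow_left₀ (by positivity) h 2
    have hp : 0 < (((k : ℝ) - 1) * r) ^ 2 := by positivity
    apply mul_le_mul_of_nonneg_left _ (by positivity)
    apply Real.log_le_log (by positivity)
    have : 2 * y ^ 2 / (D ^ 2 + r ^ 2) ≤ 2 * y ^ 2 / (((k : ℝ) - 1) * r) ^ 2 := by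
      apply div_le_div_of_nonneg_left (by positivity) hp
      nlinarith [sq_nonneg r]
    linarith

end HallKAux

open HallKAux in
/-- **(HallK)** Points `ζ_i = (x_i, y_i)`, `y_i ≥ m > 0`, the `x_i` in different cells `[jr,(j+1)r)`, `0 < r ≤ m/10`.
Then `Σ (r/y_i) gk r ζ_i z ≤ 40` for all `z` with `z_y ≥ 0`.

Proof: with `A = |z-ζ|²`, `(A+4yη)/(A+r²) ≤ 1 + 4yη/(A+r²)`, so the `i`-th term is at most `r F(D_i)`,
`D_i = |z_x - x_i|`, where (`η = y_i`, `y = z_y`; if `y = 0` the terms are `≤ 0`)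
`F(D) = sup_{η ≥ m} (1/2η) log(1 + 4yη/(D²+(y-η)²+r²))`.  Cases:
`η ≤ y/2` (then `y ≥ 2m`): `≤ 2y/(D²+y²/4)`;  `η ≥ 2y`: `(y-η)² ≥ η²/4`, `≤ 2y/(D²+η²/4) ≤ 2y/(D² + max(y,m/2)²)`;
`y/2 ≤ η ≤ 2y` (then `y ≥ m/2`): `≤ (1/y) log(1+8y²/(D²+r²))`.
So `F(D) ≤ F₁(D) := 2y/(D²+ max(y,m)²/4) + 1_{y ≥ m/2} (1/y) log(1+8y²/(D²+r²))`, decreasing in `D`.  At most one `x_i` in each
cell: `Σ r F₁(D_i) ≤ 3 r F₁(0) + 2∫_0^∞ F₁`.  `2∫_0^∞ 2y/(D²+y²/4)dD = 4π`, `2∫_0^∞ (1/y)log(1+8y²/D²)dD = 2π√8`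
(`∫_0^∞ log(1+c²/D²)dD = πc`), total `≤ 30.4`; and `3rF₁(0) ≤ 3r·8/m + 3 (r/y) log(1+8y²/r²) ≤ 2.4 + 7`
(`log(1+8u²)/u ≤ 2.33` for `u>0`).  Any bound better than `40` by cruder estimates is fine. -/
theorem HallK (n : ℕ) (ζ : Fin n → ℝ × ℝ) (m r : ℝ) (hm : 0 < m) (hr : 0 < r) (hrm : r ≤ m / 10)
    (hy : ∀ i, m ≤ (ζ i).2) (hcell : ∀ i j, i ≠ j → ⌊(ζ i).1 / r⌋ ≠ ⌊(ζ j).1 / r⌋)
    (z : ℝ × ℝ) (hz : 0 ≤ z.2) :
    ∑ i, r / (ζ i).2 * gk r (ζ i) z ≤ 40 := by
  rcases hz.eq_or_lt with h0 | hz0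
  · -- y = 0
    have : ∀ i ∈ Finset.univ, r / (ζ i).2 * gk r (ζ i) z ≤ 0 := by
      intro i _
      have hi : 0 < (ζ i).2 := lt_of_lt_of_le hm (hy i)
      apply mul_nonpos_of_nonneg_of_nonpos (by positivity)
      unfold gk
      apply mul_nonpos_of_nonneg_of_nonpos (by norm_num)
      rw [← h0]
      apply Real.log_nonpos
      · positivity
      · rw [div_le_one (by positivity)]
        nlinarith [sq_nonneg r]
    linarith [Finset.sum_nonpos this]
  · have hinj : Function.Injective (fun i => ⌊(ζ i).1 / r⌋) := by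
      intro i j h
      by_contra hne
      exact hcell i j hne h
    have s2 := comb (fun i => ⌊(ζ i).1 / r⌋) hinj ⌊z.1 / r⌋ (b2 r z.2) (b2_nonneg hr hz0) _
      (b2_sum hr hz0)
    have hpi : Real.pi < 3.15 := Real.pi_lt_d2
    have hsq : Real.sqrt 2 < 1.415 := by
      rw [Real.sqrt_lt' (by norm_num)]; norm_num
    have hsq0 : 0 < Real.sqrt 2 := by positivity
    have hpi0 := Real.pi_pos
    have hnum : (4 + Real.pi) * Real.sqrt 2 ≤ 10.2 := by nlinarith
    by_cases hym : 2 * m ≤ z.2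
    · have h20 : 20 * r ≤ z.2 := by linarith
      have s1 := comb (fun i => ⌊(ζ i).1 / r⌋) hinj ⌊z.1 / r⌋ (b1 r z.2) (b1_nonneg hr hz0) _
        (b1_sum hr h20)
      have : ∑ i, r / (ζ i).2 * gk r (ζ i) z ≤
          ∑ i, (b1 r z.2 (⌊(ζ i).1 / r⌋ - ⌊z.1 / r⌋).natAbs
            + b2 r z.2 (⌊(ζ i).1 / r⌋ - ⌊z.1 / r⌋).natAbs) := by
        apply Finset.sum_le_sum
        intro i _
        have hi : 0 < (ζ i).2 := lt_of_lt_of_le hm (hy i)
        have hd := dist_cell (x := (ζ i).1) (x0 := z.1) hr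
        rcases le_total (ζ i).2 (z.2 / 2) with hc | hc
        · have := (term1 hr hi hz0 hc).trans (b1_bound hr h20 _ hd)
          linarith [b2_nonneg hr hz0 (⌊(ζ i).1 / r⌋ - ⌊z.1 / r⌋).natAbs]
        · have := (term2 hr hi hz0 hc).trans (b2_bound hr hz0 _ hd)
          linarith [b1_nonneg hr hz0 (⌊(ζ i).1 / r⌋ - ⌊z.1 / r⌋).natAbs]
      rw [Finset.sum_add_distrib] at this
      linarith
    · have : ∑ i, r / (ζ i).2 * gk r (ζ i) z ≤
          ∑ i, b2 r z.2 (⌊(ζ i).1 / r⌋ - ⌊z.1 / r⌋).natAbs := by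
        apply Finset.sum_le_sum
        intro i _
        have hi : 0 < (ζ i).2 := lt_of_lt_of_le hm (hy i)
        have hd := dist_cell (x := (ζ i).1) (x0 := z.1) hr
        have hc : z.2 / 2 ≤ (ζ i).2 := by
          have := hy i
          have := not_le.1 hym
          linarith
        exact (term2 hr hi hz0 hc).trans (b2_bound hr hz0 _ hd)
      linarith

end Pool.H14.SR

end S_HallK
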