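import Mathlib
import Pool.Agent.H14.SRM.P0
import Pool.Agent.H14.SRM.P1
import Pool.Agent.H14.SRM.P2
import Pool.Agent.H14.SRM.P4
import Pool.Agent.H14.SRM.P5
import Pool.Agent.H14.SRM.P6
import Pool.Agent.H14.SRM.P7
import Pool.Agent.H14.SRM.P9
import Pool.Agent.H14.SRM.P10

/-! MP_e1e648_an, part P11: this file joins several modules to save build time. -/

noncomputable section S_FLOW

open MeasureTheory Set Filter Topology
namespace Pool.H14.SR

theorem FLOW_num {δ : ℝ} (hδ : 0 < δ) (hδ2 : δ ≤ 1 / 2) :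
    0 < Real.log (16 / δ) ∧ δ * Real.log (16 / δ) ≤ 4 * Real.pi := by
  have h1 : (1 : ℝ) < 16 / δ := by rw [lt_div_iff₀ hδ]; linarith
  refine ⟨Real.log_pos h1, ?_⟩
  have h2 : Real.log (16 / δ) = Real.log 16 + Real.log (1 / δ) := by
    rw [← Real.log_mul (by norm_num) (by positivity)]
    congr 1; ring
  have h3 : Real.log 16 ≤ 4 := by
    have : (16 : ℝ) = 2 ^ 4 := by norm_num
    rw [this, Real.log_pow]
    have := Real.log_two_lt_d9
    norm_num; linarith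
  have h4 : Real.log (1 / δ) ≤ 1 / δ - 1 := Real.log_le_sub_one_of_pos (by positivity)
  have h5 : δ * (1 / δ) = 1 := by field_simp
  have h6 := Real.pi_gt_three
  rw [h2]
  nlinarith

theorem C1_mono {σ σ' : ℝ} {u ux uy : ℝ × ℝ → ℝ} (h : C1 σ u ux uy) (hs : σ' ≤ σ) :
    C1 σ' u ux uy := by
  have hsub : {p : ℝ × ℝ | -σ' < p.2} ⊆ {p : ℝ × ℝ | -σ < p.2} := by
    intro p hp
    have : -σ' < p.2 := hp
    show -σ < p.2
    linarith
  exact ⟨fun p hp => h.dx p (by linarith), fun p hp => h.dy p (by linarith), h.c.mono hsub,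
    h.cx.mono hsub, h.cy.mono hsub, fun p hp => h.per p (by linarith)⟩

theorem C1_sum (K : ℕ) {σ : ℝ} {u ux uy : ℕ → ℝ × ℝ → ℝ}
    (h : ∀ k < K, C1 σ (u k) (ux k) (uy k)) :
    C1 σ (fun p => ∑ k ∈ Finset.range K, u k p) (fun p => ∑ k ∈ Finset.range K, ux k p)
      (fun p => ∑ k ∈ Finset.range K, uy k p) where
  dx := fun p hp => HasDerivAt.fun_sum (fun k hk => (h k (Finset.mem_range.1 hk)).dx p hp)
  dy := fun p hp => HasDerivAt.fun_sum (fun k hk => (h k (Finset.mem_range.1 hk)).dy p hp)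
  c := continuousOn_finsetSum _ (fun k hk => (h k (Finset.mem_range.1 hk)).c)
  cx := continuousOn_finsetSum _ (fun k hk => (h k (Finset.mem_range.1 hk)).cx)
  cy := continuousOn_finsetSum _ (fun k hk => (h k (Finset.mem_range.1 hk)).cy)
  per := fun p hp => Finset.sum_congr rfl (fun k hk => (h k (Finset.mem_range.1 hk)).per p hp)

theorem C1_add {σ : ℝ} {u ux uy v vx vy : ℝ × ℝ → ℝ} (h : C1 σ u ux uy) (h' : C1 σ v vx vy) :
    C1 σ (fun p => u p + v p) (fun p => ux p + vx p) (fun p => uy p + vy p) where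
  dx := fun p hp => (h.dx p hp).add (h'.dx p hp)
  dy := fun p hp => (h.dy p hp).add (h'.dy p hp)
  c := h.c.add h'.c
  cx := h.cx.add h'.cx
  cy := h.cy.add h'.cy
  per := fun p hp => by show u _ + v _ = _; rw [h.per p hp, h'.per p hp]

/-- product with a function of the height. -/
theorem C1_mulh {σ : ℝ} {u ux uy : ℝ × ℝ → ℝ} (h : C1 σ u ux uy) {q : ℝ → ℝ}
    (hq : ContDiff ℝ 2 q) :
    C1 σ (fun p => q p.2 * u p) (fun p => q p.2 * ux p)
      (fun p => deriv q p.2 * u p + q p.2 * uy p) where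
  dx := fun p hp => (h.dx p hp).const_mul (q p.2)
  dy := fun p hp => ((hq.differentiable (by norm_num)) p.2).hasDerivAt.mul (h.dy p hp)
  c := (hq.continuous.comp continuous_snd).continuousOn.mul h.c
  cx := (hq.continuous.comp continuous_snd).continuousOn.mul h.cx
  cy := ((((hq.continuous_deriv (by norm_num)).comp continuous_snd).continuousOn).mul h.c).add
    ((hq.continuous.comp continuous_snd).continuousOn.mul h.cy)
  per := fun p hp => by show q p.2 * u _ = _; rw [h.per p hp]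

/-- extension by zero to `y ≤ 0`. -/
theorem C1_ext {σ₀ : ℝ} {u ux uy : ℝ × ℝ → ℝ} (h : C1 σ₀ u ux uy) (hσ₀ : 0 < σ₀) {q : ℝ → ℝ}
    (hq : ContDiff ℝ 2 q) {y0 : ℝ} (hy0 : 0 < y0) (hz : ∀ y, q y ≠ 0 → y0 ≤ y) (σ : ℝ) :
    C1 σ (fun p : ℝ × ℝ => if 0 < p.2 then q p.2 * u p else 0)
      (fun p : ℝ × ℝ => if 0 < p.2 then q p.2 * ux p else 0)
      (fun p : ℝ × ℝ => if 0 < p.2 then deriv q p.2 * u p + q p.2 * uy p else 0) := by
  have hP := C1_mulh h hq
  have hq0 : ∀ y, y < y0 → q y = 0 := by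
    intro y hy
    by_contra hne
    exact absurd (hz y hne) (not_le.2 hy)
  have hdq0 : ∀ y, y < y0 → deriv q y = 0 := by
    intro y hy
    have : q =ᶠ[𝓝 y] fun _ => 0 := by
      filter_upwards [Iio_mem_nhds hy] with t ht using hq0 t ht
    rw [this.deriv_eq]; simp
  have cont : ∀ (f : ℝ × ℝ → ℝ), ContinuousOn f {p : ℝ × ℝ | -σ₀ < p.2} →
      (∀ p : ℝ × ℝ, p.2 < y0 → f p = 0) →
      Continuous (fun p : ℝ × ℝ => if 0 < p.2 then f p else 0) := by
    intro f hf hf0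
    rw [continuous_iff_continuousAt]
    intro p
    by_cases hp : 0 < p.2
    · have hmem : {p : ℝ × ℝ | 0 < p.2} ∈ 𝓝 p := (isOpen_lt continuous_const continuous_snd).mem_nhds hp
      have hmem2 : {p : ℝ × ℝ | -σ₀ < p.2} ∈ 𝓝 p :=
        (isOpen_lt continuous_const continuous_snd).mem_nhds (show -σ₀ < p.2 by linarith)
      refine (hf.continuousAt hmem2).congr ?_
      filter_upwards [hmem] with r hr
      have : 0 < r.2 := hr
      rw [if_pos this]
    · have hmem : {p : ℝ × ℝ | p.2 < y0} ∈ 𝓝 p :=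
        (isOpen_lt continuous_snd continuous_const).mem_nhds (show p.2 < y0 by linarith)
      refine (continuousAt_const (y := (0 : ℝ))).congr ?_
      filter_upwards [hmem] with r hr
      have : r.2 < y0 := hr
      by_cases h0 : 0 < r.2
      · rw [if_pos h0, hf0 r this]
      · rw [if_neg h0]
  refine ⟨?_, ?_, ?_, ?_, ?_, ?_⟩
  · intro p hp
    by_cases h0 : 0 < p.2
    · simp only [if_pos h0]
      exact hP.dx p (by linarith)
    · simp only [if_neg h0]
      exact hasDerivAt_const _ _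
  · intro p hp
    by_cases h0 : 0 < p.2
    · simp only [if_pos h0]
      have := hP.dy p (by linarith)
      refine this.congr_of_eventuallyEq ?_
      filter_upwards [Ioi_mem_nhds h0] with r hr
      have : 0 < r := hr
      simp only [if_pos this]
    · simp only [if_neg h0]
      refine (hasDerivAt_const p.2 (0 : ℝ)).congr_of_eventuallyEq ?_
      filter_upwards [Iio_mem_nhds (show p.2 < y0 by linarith)] with r hr
      have hr' : r < y0 := hr
      by_cases h1 : 0 < r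
      · simp only [if_pos h1, hq0 r hr', zero_mul]
      · simp only [if_neg h1]
  · exact (cont _ hP.c (fun p hp => by show q p.2 * u p = 0; rw [hq0 _ hp, zero_mul])).continuousOn
  · exact (cont _ hP.cx (fun p hp => by show q p.2 * ux p = 0; rw [hq0 _ hp, zero_mul])).continuousOn
  · exact (cont _ hP.cy (fun p hp => by
      show deriv q p.2 * u p + q p.2 * uy p = 0
      rw [hq0 _ hp, hdq0 _ hp, zero_mul, zero_mul, add_zero])).continuousOn
  · intro p hp
    by_cases h0 : 0 < p.2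
    · simp only [if_pos h0]
      rw [h.per p (by linarith)]
    · simp only [if_neg h0]

theorem FLOW_small (Y L δ Cm e : ℝ) (hY : 0 < Y) (hL : 0 < L) (hδ : 0 < δ)
    (hCm : 0 ≤ Cm) (he : 0 < e) :
    ∃ K : ℕ, 1 ≤ K ∧ Y / 2 ^ K ≤ δ * L / 8 ∧ 60 * Cm * (Y / 2 ^ K) ^ 2 / L ^ 2 ≤ e ∧
      Y / 2 ^ K ≤ Y / 2 := by
  set η : ℝ := min (min (δ * L / 8) 1) (min (e * L ^ 2 / (60 * Cm + 1)) (Y / 2)) with hη
  have hηpos : 0 < η := by
    refine lt_min (lt_min (by positivity) one_pos) (lt_min (by positivity) (by positivity))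
  obtain ⟨n, hn⟩ := exists_pow_lt_of_lt_one (div_pos hηpos hY) (by norm_num : (1 / 2 : ℝ) < 1)
  have h2 : Y / 2 ^ n < η := by
    rw [lt_div_iff₀ hY] at hn
    have : Y / 2 ^ n = (1 / 2) ^ n * Y := by rw [one_div, inv_pow]; field_simp
    rw [this]; exact hn
  have hpow : Y / 2 ^ (n + 1) ≤ Y / 2 ^ n := by
    apply div_le_div_of_nonneg_left hY.le (by positivity)
    exact pow_le_pow_right₀ (by norm_num) (Nat.le_succ n)
  set h : ℝ := Y / 2 ^ (n + 1) with hh
  have hhpos : 0 < h := by positivity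
  have hhη : h < η := lt_of_le_of_lt hpow h2
  have e1 : η ≤ δ * L / 8 := (min_le_left _ _).trans (min_le_left _ _)
  have e2 : η ≤ 1 := (min_le_left _ _).trans (min_le_right _ _)
  have e3 : η ≤ e * L ^ 2 / (60 * Cm + 1) := (min_le_right _ _).trans (min_le_left _ _)
  have e4 : η ≤ Y / 2 := (min_le_right _ _).trans (min_le_right _ _)
  refine ⟨n + 1, by omega, by linarith, ?_, by linarith⟩
  rw [div_le_iff₀ (by positivity)]
  have h3 : h * (60 * Cm + 1) ≤ e * L ^ 2 := by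
    have : h ≤ e * L ^ 2 / (60 * Cm + 1) := by linarith
    rwa [le_div_iff₀ (by positivity)] at this
  have h4 : h ^ 2 ≤ h := by nlinarith
  nlinarith [mul_le_mul_of_nonneg_left h4 (mul_nonneg (by norm_num : (0 : ℝ) ≤ 60) hCm)]

/-- **(FLOW)** The flow theorem.

Proof: `Y = log(16/δ)`, `h_k = Y/2^k`, `N_k = N₀2^k` with `N₀ = ⌈4π/(δY)⌉`, `s_k = 2π/N_k ∈ [δh_k/4, δh_k/2]`
(`4π/(δY) ≥ 1`).  `K` large, then `0 < σ < σ₁ < log ρ` small (`σ₁ ≤ h_K`, `(2h_K+σ)/(log ρ-σ) ≤ δ`,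
`60Cm h_K²/(log ρ)² ≤ e`).  `PA`: `m_k = p_k m` for `k < K` (zero for `y ≤ h_k/2`, extended by `0` to `y ≤ 0`; also zero for
`y ≥ Y`, so supported in `[h_k/2, 2h_k]`), `BK`; `m_K = p_K m`, `LB`.  `X₁ = Σ_{k<K} X₁ₖ`,
`X₂ = Σ_{k<K} X₂ₖ + X₂K`.  Potential: `BS` and `LB`.  Vanishing for `y ≥ Y`: from the bounds on `|X₁|`, `X₂`
(`m = 0` there; `2h_K ≤ Y`).  Periodicity is part of `C1`. -/
theorem FLOW {δ ρ : ℝ} {a b F : ℂ → ℂ} (H : Dat δ ρ a b F) (Cm : ℝ) (hCm : 0 ≤ Cm)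
    (m mx my : ℝ × ℝ → ℝ) (hm : C1 (Real.log ρ) m mx my)
    (m0 : ∀ p : ℝ × ℝ, -Real.log ρ < p.2 → 0 ≤ m p)
    (hma : ∀ p : ℝ × ℝ, 0 < p.2 → m p ≤ Cm * ‖hp (Dz a) p‖ ^ 2)
    (hmb : ∀ p : ℝ × ℝ, -Real.log ρ < p.2 → m p ≠ 0 → 2 * δ ≤ ‖hp b p‖)
    (hmY : ∀ p : ℝ × ℝ, Real.log (16 / δ) ≤ p.2 → m p = 0) (e : ℝ) (he : 0 < e) :
    ∃ σ : ℝ, 0 < σ ∧ σ < Real.log ρ ∧ ∃ X1 X1x X1y X2 X2x X2y : ℝ × ℝ → ℝ,
      C1 σ X1 X1x X1y ∧ C1 σ X2 X2x X2y ∧
      (∀ p : ℝ × ℝ, -σ < p.2 → X1x p - X2y p = m p) ∧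
      (∀ p : ℝ × ℝ, -σ < p.2 → ‖hp b p‖ < eps2 δ → X1 p = 0 ∧ X2 p = 0) ∧
      (∀ p : ℝ × ℝ, Real.log (16 / δ) ≤ p.2 → X1 p = 0 ∧ X2 p = 0) ∧
      (∀ t : ℝ, 1 ≤ t → ∀ z : ℝ × ℝ, 0 < z.2 →
        ∫⁻ p in HP, ENNReal.ofReal (Real.exp (-(t * Osc a b F p / 2))
            * (|X1 p| + |X2 p|) * qk z p)
          ≤ ENNReal.ofReal (250000 * Cm * t ^ (-(1 / 8) : ℝ) + e)) := by
  have hδ := H.hδ
  have hδ2 := H.hδ2
  obtain ⟨hY, hδY⟩ := FLOW_num hδ hδ2
  set Y : ℝ := Real.log (16 / δ) with hYdef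
  have hL : 0 < Real.log ρ := Real.log_pos H.hρ
  set L : ℝ := Real.log ρ with hLdef
  have hpi := Real.pi_pos
  obtain ⟨K, hK1, hKδ, hKe, hKY⟩ := FLOW_small Y L δ Cm e hY hL hδ hCm he
  set hK : ℝ := Y / 2 ^ K with hKdef
  have hKpos : 0 < hK := by positivity
  obtain ⟨pp, ppc, pp01, ppsum, pplow, ppup, ppK⟩ := PA Y hY K hK1
  -- the numbers
  set N0 : ℕ := ⌈4 * Real.pi / (δ * Y)⌉₊ with hN0
  have hδYpos : 0 < δ * Y := by positivity
  have hquot : 1 ≤ 4 * Real.pi / (δ * Y) := by rw [le_div_iff₀ hδYpos]; linarith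
  have hN0a : 4 * Real.pi / (δ * Y) ≤ N0 := Nat.le_ceil _
  have hN0b : (N0 : ℝ) < 4 * Real.pi / (δ * Y) + 1 := Nat.ceil_lt_add_one (by positivity)
  have hN0c : (N0 : ℝ) ≤ 8 * Real.pi / (δ * Y) := by
    have : 8 * Real.pi / (δ * Y) = 4 * Real.pi / (δ * Y) + 4 * Real.pi / (δ * Y) := by ring
    rw [this]; linarith
  have hN0pos : (0 : ℝ) < N0 := by linarith
  have hN0one : 1 ≤ N0 := by exact_mod_cast Nat.pos_of_ne_zero (by
    intro h; rw [h] at hN0pos; simp at hN0pos)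
  have hlow : ∀ k < K, hK ≤ Y / 2 ^ k := by
    intro k hk
    apply div_le_div_of_nonneg_left hY.le (by positivity)
    exact pow_le_pow_right₀ (by norm_num) hk.le
  have hs1 : ∀ k : ℕ, δ * (Y / 2 ^ k) / 4 ≤ 2 * Real.pi / ((N0 * 2 ^ k : ℕ) : ℝ) := by
    intro k
    push_cast
    rw [le_div_iff₀ (by positivity)]
    have h1 : (N0 : ℝ) * (δ * Y) ≤ 8 * Real.pi := by rwa [le_div_iff₀ hδYpos] at hN0c
    have h2 : δ * (Y / 2 ^ k) / 4 * ((N0 : ℝ) * 2 ^ k) = (N0 : ℝ) * (δ * Y) / 4 := by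
      field_simp
    rw [h2]; linarith
  have hs2 : ∀ k : ℕ, 2 * Real.pi / ((N0 * 2 ^ k : ℕ) : ℝ) ≤ δ * (Y / 2 ^ k) / 2 := by
    intro k
    push_cast
    rw [div_le_iff₀ (by positivity)]
    have h1 : 4 * Real.pi ≤ (N0 : ℝ) * (δ * Y) := by rwa [div_le_iff₀ hδYpos] at hN0a
    have h2 : δ * (Y / 2 ^ k) / 2 * ((N0 : ℝ) * 2 ^ k) = (N0 : ℝ) * (δ * Y) / 2 := by
      field_simp
    rw [h2]; linarith
  -- the sources
  set mk : ℕ → ℝ × ℝ → ℝ := fun k p => if 0 < p.2 then pp k p.2 * m p else 0 with hmk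
  have mkC1 : ∀ k < K, ∀ σ : ℝ, C1 σ (mk k)
      (fun p : ℝ × ℝ => if 0 < p.2 then pp k p.2 * mx p else 0)
      (fun p : ℝ × ℝ => if 0 < p.2 then deriv (pp k) p.2 * m p + pp k p.2 * my p else 0) := by
    intro k hk σ
    exact C1_ext hm hL (ppc k) (y0 := Y / 2 ^ k / 2) (by positivity) (pplow k hk) σ
  have mk0 : ∀ k, ∀ p, 0 ≤ mk k p := by
    intro k p
    simp only [hmk]
    split_ifs with h0
    · exact mul_nonneg (pp01 k p.2).1 (m0 p (by linarith))
    · exact le_refl 0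
  have mkY : ∀ k, ∀ p : ℝ × ℝ, Y ≤ p.2 → mk k p = 0 := by
    intro k p hp
    simp only [hmk]
    split_ifs
    · rw [hmY p hp, mul_zero]
    · rfl
  have mksupp : ∀ k < K, ∀ p : ℝ × ℝ, mk k p ≠ 0 → Y / 2 ^ k / 2 ≤ p.2 ∧ p.2 ≤ 2 * (Y / 2 ^ k) ∧
      2 * δ ≤ ‖hp b p‖ := by
    intro k hk p hne
    by_cases h0 : 0 < p.2
    · have hne' : pp k p.2 * m p ≠ 0 := by
        simp only [hmk, if_pos h0] at hne; exact hne
      have h1 : pp k p.2 ≠ 0 := left_ne_zero_of_mul hne'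
      have h2 : m p ≠ 0 := right_ne_zero_of_mul hne'
      refine ⟨pplow k hk p.2 h1, ?_, hmb p (by linarith) h2⟩
      rcases Nat.eq_zero_or_pos k with hk0 | hk0
      · subst hk0
        have : p.2 < Y := by
          by_contra hcon
          exact h2 (hmY p (not_lt.1 hcon))
        rw [pow_zero, div_one]; linarith
      · exact ppup k hk hk0 p.2 h1
    · exfalso; apply hne; simp only [hmk, if_neg h0]
  have hσ : 0 < hK / 2 := by positivity
  have hσ₁ : hK / 2 < hK := by linarith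
  have hKL : hK ≤ L / 16 := by
    have : δ * L / 8 ≤ L / 16 := by nlinarith
    linarith
  have hσρ : hK < L := by linarith
  have hBK := fun (k : ℕ) (hk : k < K) =>
    BK H (Y / 2 ^ k) (2 * Real.pi / ((N0 * 2 ^ k : ℕ) : ℝ)) (hK / 2) hK (N0 * 2 ^ k)
      (Nat.mul_pos hN0one (by positivity)) rfl (by positivity) (hs1 k) (hs2 k) hσ hσ₁ hσρ
      (hlow k hk) (mk k) _ _ (mkC1 k hk) (mk0 k) (mksupp k hk)
  choose! X1 X1x X1y X2 X2x X2y hX using hBK
  set sk : ℕ → ℝ := fun k => 2 * Real.pi / ((N0 * 2 ^ k : ℕ) : ℝ) with hsk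
  have hskpos : ∀ k, 0 < sk k := by
    intro k; simp only [hsk]; push_cast; positivity
  -- the last band
  have hmKc : C1 (hK / 2) (fun p => pp K p.2 * m p) (fun p => pp K p.2 * mx p)
      (fun p => deriv (pp K) p.2 * m p + pp K p.2 * my p) :=
    C1_mono (C1_mulh hm (ppc K)) (by linarith)
  have hsm : (2 * hK + hK / 2) / (L - hK / 2) ≤ δ := by
    rw [div_le_iff₀ (by linarith)]
    nlinarith
  obtain ⟨Z, Zx, Zy, ZC1, Zeq, Z0, Zup, Zb, Zpot⟩ :=
    LB H Cm hK (hK / 2) hCm hKpos hσ (by linarith) hsm (fun p => pp K p.2 * m p) _ _ hmKc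
      (fun p hp => mul_nonneg (pp01 K p.2).1 (m0 p (by linarith)))
      (fun p hp => by
        have h1 := (pp01 K p.2).2
        have h2 := m0 p (by linarith)
        have h3 := hma p hp
        show pp K p.2 * m p ≤ _
        nlinarith)
      (fun p hp hne => by
        have h1 : pp K p.2 ≠ 0 := left_ne_zero_of_mul hne
        have h2 : m p ≠ 0 := right_ne_zero_of_mul hne
        exact ⟨ppK p.2 h1, hmb p (by linarith) h2⟩)
  have hKsum : ∀ y : ℝ, ∑ k ∈ Finset.range K, pp k y + pp K y = 1 := by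
    intro y
    rw [← Finset.sum_range_succ]; exact ppsum y
  refine ⟨hK / 2, hσ, by linarith, fun p => ∑ k ∈ Finset.range K, X1 k p,
    fun p => ∑ k ∈ Finset.range K, X1x k p, fun p => ∑ k ∈ Finset.range K, X1y k p,
    fun p => ∑ k ∈ Finset.range K, X2 k p + Z p, fun p => ∑ k ∈ Finset.range K, X2x k p + Zx p,
    fun p => ∑ k ∈ Finset.range K, X2y k p + Zy p,
    C1_sum K (fun k hk => (hX k hk).1 _), C1_add (C1_sum K (fun k hk => (hX k hk).2.1 _)) ZC1,
    ?_, ?_, ?_, ?_⟩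
  · intro p hp
    have h1 : ∑ k ∈ Finset.range K, X1x k p - ∑ k ∈ Finset.range K, X2y k p
        = ∑ k ∈ Finset.range K, mk k p := by
      rw [← Finset.sum_sub_distrib]
      exact Finset.sum_congr rfl (fun k hk => (hX k (Finset.mem_range.1 hk)).2.2.1 p)
    have h2 : -Zy p = pp K p.2 * m p := Zeq p hp
    have h3 : ∑ k ∈ Finset.range K, mk k p + pp K p.2 * m p = m p := by
      by_cases h0 : 0 < p.2
      · have : ∑ k ∈ Finset.range K, mk k p = (∑ k ∈ Finset.range K, pp k p.2) * m p := by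
          rw [Finset.sum_mul]
          refine Finset.sum_congr rfl (fun k hk => ?_)
          simp only [hmk, if_pos h0]
        rw [this, ← add_mul, hKsum, one_mul]
      · have h4 : ∑ k ∈ Finset.range K, mk k p = 0 := by
          refine Finset.sum_eq_zero (fun k hk => ?_)
          simp only [hmk, if_neg h0]
        have h5 : ∑ k ∈ Finset.range K, pp k p.2 = 0 := by
          refine Finset.sum_eq_zero (fun k hk => ?_)
          by_contra hne
          have := pplow k (Finset.mem_range.1 hk) p.2 hne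
          have h6 : 0 < Y / 2 ^ k / 2 := by positivity
          linarith
        have h7 := hKsum p.2
        rw [h5, zero_add] at h7
        rw [h4, h7]; ring
    show ∑ k ∈ Finset.range K, X1x k p - (∑ k ∈ Finset.range K, X2y k p + Zy p) = m p
    linarith
  · intro p hp hb
    have h1 : ∀ k ∈ Finset.range K, X1 k p = 0 ∧ X2 k p = 0 := fun k hk =>
      (hX k (Finset.mem_range.1 hk)).2.2.2.2.2 p hp hb
    have h2 : Z p = 0 := Zb p hp (lt_trans hb (eps2_lt δ hδ hδ2).1)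
    refine ⟨Finset.sum_eq_zero (fun k hk => (h1 k hk).1), ?_⟩
    show ∑ k ∈ Finset.range K, X2 k p + Z p = 0
    rw [Finset.sum_eq_zero (fun k hk => (h1 k hk).2), h2, add_zero]
  · intro p hp
    have h1 : ∀ k ∈ Finset.range K, X1 k p = 0 ∧ X2 k p = 0 := by
      intro k hk
      have hk' := hX k (Finset.mem_range.1 hk)
      constructor
      · have h2 := hk'.2.2.2.1 p
        have h3 : ∫ t in Set.Icc (p.1 - sk k) (p.1 + sk k), mk k (t, p.2) = 0 := by
          have : ∀ t : ℝ, mk k (t, p.2) = 0 := fun t => mkY k (t, p.2) hp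
          simp only [this, integral_zero]
        have h4 : |X1 k p| ≤ 0 := h3 ▸ h2
        exact abs_eq_zero.1 (le_antisymm h4 (abs_nonneg _))
      · have h2 := hk'.2.2.2.2.1 p
        have h3 : ∫ t in Set.Icc (p.1 - sk k) (p.1 + sk k), ∫ y in Set.Ioi p.2, mk k (t, y) = 0 := by
          have : ∀ t : ℝ, ∫ y in Set.Ioi p.2, mk k (t, y) = 0 := by
            intro t
            have h5 : ∫ y in Set.Ioi p.2, mk k (t, y) = ∫ y in Set.Ioi p.2, (0 : ℝ) := by
              refine setIntegral_congr_fun measurableSet_Ioi (fun y hy => ?_)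
              have hy' : p.2 < y := hy
              exact mkY k (t, y) (by show Y ≤ y; linarith)
            rw [h5, integral_zero]
          simp only [this, integral_zero]
        have h4 : X2 k p ≤ 2 / sk k * 0 := h3 ▸ h2.2
        have h5 := h2.1
        linarith
    have h2 : Z p = 0 := Zup p (by linarith)
    refine ⟨Finset.sum_eq_zero (fun k hk => (h1 k hk).1), ?_⟩
    show ∑ k ∈ Finset.range K, X2 k p + Z p = 0
    rw [Finset.sum_eq_zero (fun k hk => (h1 k hk).2), h2, add_zero]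
  · intro t ht z hz
    have mkcont : ∀ k < K, Continuous (mk k) := by
      intro k hk
      rw [← continuousOn_univ]
      intro p _
      have h1 := (mkC1 k hk (1 - p.2)).c
      have h2 : {q : ℝ × ℝ | -(1 - p.2) < q.2} ∈ 𝓝 p :=
        (isOpen_lt continuous_const continuous_snd).mem_nhds (show -(1 - p.2) < p.2 by linarith)
      exact (h1.continuousAt h2).continuousWithinAt
    have glob : ∀ f fx fy : ℝ × ℝ → ℝ, (∀ σ : ℝ, C1 σ f fx fy) → Measurable f := by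
      intro f fx fy hf
      refine Continuous.measurable ?_
      rw [← continuousOn_univ]
      intro p _
      have h1 := (hf (1 - p.2)).c
      have h2 : {q : ℝ × ℝ | -(1 - p.2) < q.2} ∈ 𝓝 p :=
        (isOpen_lt continuous_const continuous_snd).mem_nhds (show -(1 - p.2) < p.2 by linarith)
      exact (h1.continuousAt h2).continuousWithinAt
    have hBS := BS H Cm Y hCm hY K sk
      (fun k hk => ⟨hskpos k, by
        have h1 := hs2 k
        have h2 : 0 < Y / 2 ^ k := by positivity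
        show 2 * Real.pi / ((N0 * 2 ^ k : ℕ) : ℝ) ≤ _
        nlinarith⟩)
      mk mkcont (fun k _ => mk0 k)
      (fun p hp => by
        have h1 : ∑ k ∈ Finset.range K, mk k p = (∑ k ∈ Finset.range K, pp k p.2) * m p := by
          rw [Finset.sum_mul]
          refine Finset.sum_congr rfl (fun k hk => ?_)
          simp only [hmk, if_pos hp]
        have h2 := hKsum p.2
        have h3 := (pp01 K p.2).1
        have h4 := m0 p (by linarith)
        have h5 := hma p hp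
        rw [h1]
        nlinarith)
      (fun k hk p hne => ⟨(mksupp k hk p hne).1, (mksupp k hk p hne).2.1⟩)
      X1 X2 (fun k hk => glob _ _ _ (hX k hk).1) (fun k hk => glob _ _ _ (hX k hk).2.1)
      (fun k hk => (hX k hk).2.2.2.1) (fun k hk => (hX k hk).2.2.2.2.1) t ht z hz
    have hZ := Zpot z hz
    have hHP : MeasurableSet HP := by
      unfold HP
      exact (isOpen_lt continuous_const continuous_snd).measurableSet
    have hqk : ∀ p : ℝ × ℝ, 0 ≤ qk z p := by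
      intro p; unfold qk; positivity
    have hqkm : Measurable (qk z) := by
      unfold qk; fun_prop
    calc ∫⁻ p in HP, ENNReal.ofReal (Real.exp (-(t * Osc a b F p / 2))
            * (|∑ k ∈ Finset.range K, X1 k p| + |∑ k ∈ Finset.range K, X2 k p + Z p|) * qk z p)
        ≤ ∫⁻ p in HP, (ENNReal.ofReal (Real.exp (-(t * Osc a b F p / 2))
            * (∑ k ∈ Finset.range K, (|X1 k p| + X2 k p)) * qk z p)
            + ENNReal.ofReal (Z p * qk z p)) := by
          refine setLIntegral_mono' hHP (fun p hp => ?_)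
          have hp' : 0 < p.2 := hp
          have hZp := Z0 p (by linarith)
          have hO : 0 ≤ Osc a b F p := by
            have hmem : E p ∈ Metric.ball (0 : ℂ) ρ := E_mem_ball (by linarith [H.hρ]) (by linarith)
            have := H.hO _ hmem
            show 0 ≤ (F (E p)).re - ‖a (E p)‖ ^ 2 - ‖b (E p)‖ ^ 2
            linarith
          have hexp : Real.exp (-(t * Osc a b F p / 2)) ≤ 1 := by
            rw [Real.exp_le_one_iff]
            have : 0 ≤ t * Osc a b F p := mul_nonneg (by linarith) hO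
            linarith
          have hexp0 := (Real.exp_pos (-(t * Osc a b F p / 2))).le
          have hX2n : ∀ k ∈ Finset.range K, 0 ≤ X2 k p := fun k hk =>
            ((hX k (Finset.mem_range.1 hk)).2.2.2.2.1 p).1
          have hsum0 : 0 ≤ ∑ k ∈ Finset.range K, (|X1 k p| + X2 k p) :=
            Finset.sum_nonneg (fun k hk => add_nonneg (abs_nonneg _) (hX2n k hk))
          rw [← ENNReal.ofReal_add (mul_nonneg (mul_nonneg hexp0 hsum0) (hqk p))
            (mul_nonneg hZp (hqk p))]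
          apply ENNReal.ofReal_le_ofReal
          have h1 : |∑ k ∈ Finset.range K, X1 k p| + |∑ k ∈ Finset.range K, X2 k p + Z p|
              ≤ ∑ k ∈ Finset.range K, (|X1 k p| + X2 k p) + Z p := by
            rw [Finset.sum_add_distrib, abs_of_nonneg (add_nonneg (Finset.sum_nonneg hX2n) hZp)]
            have := Finset.abs_sum_le_sum_abs (fun k => X1 k p) (Finset.range K)
            linarith
          have h2 : Real.exp (-(t * Osc a b F p / 2))
              * (|∑ k ∈ Finset.range K, X1 k p| + |∑ k ∈ Finset.range K, X2 k p + Z p|)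
              ≤ Real.exp (-(t * Osc a b F p / 2)) * (∑ k ∈ Finset.range K, (|X1 k p| + X2 k p))
                + Z p := by
            have h3 := mul_le_mul_of_nonneg_left h1 hexp0
            have h4 : Real.exp (-(t * Osc a b F p / 2)) * Z p ≤ Z p := by nlinarith
            rw [mul_add] at h3
            linarith
          have h5 := mul_le_mul_of_nonneg_right h2 (hqk p)
          rw [add_mul] at h5
          exact h5
      _ = (∫⁻ p in HP, ENNReal.ofReal (Real.exp (-(t * Osc a b F p / 2))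
            * (∑ k ∈ Finset.range K, (|X1 k p| + X2 k p)) * qk z p))
            + ∫⁻ p in HP, ENNReal.ofReal (Z p * qk z p) := by
          refine lintegral_add_right' _ ?_
          refine AEMeasurable.ennreal_ofReal ?_
          refine AEMeasurable.mul ?_ hqkm.aemeasurable
          refine ContinuousOn.aemeasurable (ZC1.c.mono ?_) hHP
          intro p hp
          have hp' : 0 < p.2 := hp
          show -(hK / 2) < p.2
          linarith
      _ ≤ ENNReal.ofReal (250000 * Cm * t ^ (-(1 / 8) : ℝ))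
            + ENNReal.ofReal (60 * Cm * hK ^ 2 / L ^ 2) := add_le_add hBS hZ
      _ = ENNReal.ofReal (250000 * Cm * t ^ (-(1 / 8) : ℝ) + 60 * Cm * hK ^ 2 / L ^ 2) := by
          rw [ENNReal.ofReal_add]
          · have : 0 ≤ t ^ (-(1 / 8) : ℝ) := Real.rpow_nonneg (by linarith) _
            positivity
          · positivity
      _ ≤ ENNReal.ofReal (250000 * Cm * t ^ (-(1 / 8) : ℝ) + e) := by
          apply ENNReal.ofReal_le_ofReal
          linarith

end Pool.H14.SR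

end S_FLOW

noncomputable section S_MID

open MeasureTheory Set Filter Topology
namespace Pool.H14.SR

theorem MID_mono {V : Type*} [NormedAddCommGroup V] [NormedSpace ℝ V] {σ σ' : ℝ}
    {u ux uy : ℝ × ℝ → V} (h : C1 σ u ux uy) (hσ : σ' ≤ σ) : C1 σ' u ux uy where
  dx := fun p hp => h.dx p (by linarith)
  dy := fun p hp => h.dy p (by linarith)
  c := h.c.mono (fun p (hp : -σ' < p.2) => show -σ < p.2 by linarith)
  cx := h.cx.mono (fun p (hp : -σ' < p.2) => show -σ < p.2 by linarith)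
  cy := h.cy.mono (fun p (hp : -σ' < p.2) => show -σ < p.2 by linarith)
  per := fun p hp => h.per p (by linarith)

theorem MID_add {σ : ℝ} {u ux uy v vx vy : ℝ × ℝ → ℂ} (h : C1 σ u ux uy) (g : C1 σ v vx vy) :
    C1 σ (fun p => u p + v p) (fun p => ux p + vx p) (fun p => uy p + vy p) where
  dx := fun p hp => (h.dx p hp).add (g.dx p hp)
  dy := fun p hp => (h.dy p hp).add (g.dy p hp)
  c := h.c.add g.c
  cx := h.cx.add g.cx
  cy := h.cy.add g.cy
  per := fun p hp => by rw [h.per p hp, g.per p hp]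

theorem MID_mul {σ : ℝ} {u ux uy v vx vy : ℝ × ℝ → ℂ} (h : C1 σ u ux uy) (g : C1 σ v vx vy) :
    C1 σ (fun p => u p * v p) (fun p => ux p * v p + u p * vx p)
      (fun p => uy p * v p + u p * vy p) where
  dx := fun p hp => (h.dx p hp).mul (g.dx p hp)
  dy := fun p hp => (h.dy p hp).mul (g.dy p hp)
  c := h.c.mul g.c
  cx := (h.cx.mul g.c).add (h.c.mul g.cx)
  cy := (h.cy.mul g.c).add (h.c.mul g.cy)
  per := fun p hp => by rw [h.per p hp, g.per p hp]

/-- A function continuous on `y > -σ` and vanishing for `y ≥ Y` is integrable on the strip. -/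
theorem MID_integrableOn_ST {σ : ℝ} (hσ : 0 < σ) {g : ℝ × ℝ → ℂ} (hg : ContinuousOn g {p | -σ < p.2})
    {Y : ℝ} (hY : ∀ p : ℝ × ℝ, Y ≤ p.2 → g p = 0) : IntegrableOn g ST := by
  have hK : IsCompact (Set.Icc (0 : ℝ) (2 * Real.pi) ×ˢ Set.Icc (0 : ℝ) Y) :=
    isCompact_Icc.prod isCompact_Icc
  have h1 : IntegrableOn g (Set.Icc (0 : ℝ) (2 * Real.pi) ×ˢ Set.Icc (0 : ℝ) Y) :=
    (hg.mono (fun p hp => show -σ < p.2 by have := hp.2.1; linarith)).integrableOn_compact hK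
  have hST : MeasurableSet ST := by
    unfold ST
    exact (measurableSet_Ioc.preimage measurable_fst).inter (measurableSet_lt measurable_const measurable_snd)
  have h2 : IntegrableOn g (ST ∩ {p | p.2 < Y}) :=
    h1.mono_set (fun p hp => ⟨⟨hp.1.1.1.le, hp.1.1.2⟩, ⟨hp.1.2.le, le_of_lt hp.2⟩⟩)
  have h3 : IntegrableOn g (ST ∩ {p | Y ≤ p.2}) := by
    refine (integrableOn_zero (s := ST ∩ {p | Y ≤ p.2})).congr_fun (fun p hp => ?_)
      (hST.inter (measurableSet_le measurable_const measurable_snd))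
    exact (hY p hp.2).symm
  have : ST = (ST ∩ {p | p.2 < Y}) ∪ (ST ∩ {p | Y ≤ p.2}) := by
    ext p; constructor
    · intro h
      rcases lt_or_ge p.2 Y with h' | h'
      · exact Or.inl ⟨h, h'⟩
      · exact Or.inr ⟨h, h'⟩
    · rintro (h | h) <;> exact h.1
  rw [this]
  exact h2.union h3

theorem MID_norm_le_of_zero {f : ℂ → ℂ} {ρ : ℝ} (hρ : 1 < ρ)
    (hf : DifferentiableOn ℂ f (Metric.ball 0 ρ)) (h0 : f 0 = 0) :
    ∃ B : ℝ, 0 ≤ B ∧ ∀ z ∈ Metric.closedBall (0 : ℂ) 1, ‖f z‖ ≤ B * ‖z‖ := by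
  have hc : ContinuousOn (deriv f) (Metric.closedBall 0 1) :=
    ((hf.deriv Metric.isOpen_ball).continuousOn).mono (Metric.closedBall_subset_ball hρ)
  obtain ⟨B, hB⟩ := (isCompact_closedBall (0 : ℂ) 1).exists_bound_of_continuousOn hc
  refine ⟨|B|, abs_nonneg _, fun z hz => ?_⟩
  have := (convex_closedBall (0 : ℂ) 1).norm_image_sub_le_of_norm_deriv_le (f := f) (C := |B|)
    (fun x hx => hf.differentiableAt (Metric.isOpen_ball.mem_nhds (Metric.closedBall_subset_ball hρ hx)))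
    (fun x hx => (hB x hx).trans (le_abs_self B)) (Metric.mem_closedBall_self zero_le_one) hz
  simpa [h0] using this

theorem MID_eps_tendsto (A B : ℝ) :
    Tendsto (fun t : ℝ => 2 * (A * |t ^ (-(1 / 8) : ℝ)| + B / Real.sqrt t)) atTop (𝓝 0) := by
  have h1 : Tendsto (fun t : ℝ => t ^ (-(1 / 8) : ℝ)) atTop (𝓝 0) :=
    tendsto_rpow_neg_atTop (by norm_num)
  have h2 : Tendsto (fun t : ℝ => |t ^ (-(1 / 8) : ℝ)|) atTop (𝓝 0) := by
    simpa using h1.abs
  have h3 : Tendsto (fun t : ℝ => B / Real.sqrt t) atTop (𝓝 0) :=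
    Tendsto.const_div_atTop Real.tendsto_sqrt_atTop _
  have := ((h2.const_mul A).add h3).const_mul 2
  simpa using this

/-- **(MID)** The `∂̄`-construction on the half plane. -/
theorem MID (δ : ℝ) (hδ : 0 < δ) (hδ2 : δ ≤ 1 / 2) :
    ∃ (C : ℝ) (ε : ℝ → ℝ) (Θ : ℝ → ℝ → ℝ), 0 < C ∧ Tendsto ε atTop (𝓝 0) ∧ (∀ t, 0 ≤ ε t) ∧
      (∀ v, Continuous (Θ v)) ∧ (∀ v q, 0 ≤ q → q ≤ 1 → |Θ v q| ≤ C) ∧
      ∀ (ρ : ℝ) (a b F : ℂ → ℂ), Dat δ ρ a b F → ∀ e : ℝ, 0 < e → e ≤ 1 →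
      ∃ (σ : ℝ) (φ φx φy w wx wy : ℝ × ℝ → ℂ), 0 < σ ∧ σ < Real.log ρ ∧ C1 σ φ φx φy ∧
        C1 σ w wx wy ∧
        (∀ p : ℝ × ℝ, -σ < p.2 → (φ p).re = Θ ‖a 0‖ (‖hp a p‖ ^ 2)) ∧
        (∀ p : ℝ × ℝ, -σ < p.2 →
          φx p + Complex.I * φy p = hp b p * (wx p + Complex.I * wy p)) ∧
        (∀ p : ℝ × ℝ, -σ < p.2 → ‖hp b p‖ < eps2 δ / 2 →
          Complex.exp (φ p) = hp a p ∧ wx p + Complex.I * wy p = 0) ∧
        (∃ B : ℝ, ∀ p : ℝ × ℝ, 0 ≤ p.2 → ‖φ p‖ ≤ B ∧ ‖w p‖ ≤ B) ∧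
        ∀ t : ℝ, 1 ≤ t → ∀ (f k : ℂ → ℂ) (ρ' : ℝ), 1 < ρ' →
          DifferentiableOn ℂ f (Metric.ball 0 ρ') → f 0 = 0 →
          ContinuousOn k (Metric.closedBall 0 1) → DifferentiableOn ℂ k (Metric.ball 0 1) →
          (∀ z ∈ Metric.closedBall (0 : ℂ) 1,
            ‖f z‖ ≤ Real.exp (-(t * OscD a b F z / 2)) * ‖k z‖ ^ 2) →
          ‖∫ x in Set.Ioc 0 (2 * Real.pi), w (x, 0) * f (E (x, 0))‖
            ≤ (ε t + e) * ∫ x in Set.Ioc 0 (2 * Real.pi), ‖k (E (x, 0))‖ ^ 2 := by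
  obtain ⟨C0, hC0, hST⟩ := STEP
  have hex : ∀ v : ℝ, ∃ (ψ ψ' ψ'' Θ : ℝ → ℝ), Step C0 δ v ψ ψ' ψ'' ∧
      (∀ q, HasDerivAt Θ (ψ q / (2 * q)) q) ∧
      (∀ q, δ ^ 2 ≤ q → Θ q = Real.log q / 2) ∧
      (∀ q, 0 ≤ q → q ≤ 1 → -Real.log (2 / δ) ≤ Θ q ∧ Θ q ≤ 0) := by
    intro v
    obtain ⟨ψ, ψ', ψ'', hψ⟩ := hST δ v hδ
    obtain ⟨Θ, h1, h2, h3⟩ := TH C0 δ v hδ hδ2 ψ ψ' ψ'' hψ
    exact ⟨ψ, ψ', ψ'', Θ, hψ, h1, h2, h3⟩
  choose ψ ψ' ψ'' Θ hψ hΘd hΘ1 hΘb using hex
  set e2 := eps2 δ with he2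
  have he2pos : 0 < e2 := eps2_pos δ
  have he2lt : e2 < δ := (eps2_lt δ hδ hδ2).1
  have hL : 0 < Real.log (2 / δ) := Real.log_pos (by rw [lt_div_iff₀ hδ]; linarith)
  set Cm := 2 * C0 / δ ^ 2 with hCm
  have hCm0 : 0 ≤ Cm := by positivity
  set C2 := 4 * C0 / e2 ^ 4 with hC2
  have hC20 : 0 ≤ C2 := by positivity
  refine ⟨Real.log (2 / δ) + 1,
    fun t => 2 * (9 / e2 * (250000 * Cm) * |t ^ (-(1 / 8) : ℝ)| + 3 * C2 / Real.sqrt t), Θ,
    by linarith, MID_eps_tendsto _ _, fun t => by positivity,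
    fun v => continuous_iff_continuousAt.2 fun q => (hΘd v q).continuousAt,
    fun v q h0 h1 => ?_, ?_⟩
  · have := hΘb v q h0 h1
    rw [abs_le]; constructor <;> linarith
  intro ρ a b F H e he he1
  obtain ⟨⟨Tx, Ty, hT, hTm⟩, ⟨mx, my, hm⟩, ⟨BT, hBT⟩, hmb, hmY⟩ := SRC H C0 _ _ _ (hψ ‖a 0‖)
  set v := ‖a 0‖ with hv
  have hm0 : ∀ p : ℝ × ℝ, -Real.log ρ < p.2 →
      0 ≤ 2 * ψ' v (‖hp a p‖ ^ 2) * ‖hp (Dz a) p‖ ^ 2 := by
    intro p _
    have := (hψ v).h1 (‖hp a p‖ ^ 2)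
    positivity
  have hma : ∀ p : ℝ × ℝ, 0 < p.2 →
      2 * ψ' v (‖hp a p‖ ^ 2) * ‖hp (Dz a) p‖ ^ 2 ≤ Cm * ‖hp (Dz a) p‖ ^ 2 := by
    intro p _
    have h1 := (hψ v).b1 (‖hp a p‖ ^ 2)
    have h2 := le_abs_self (ψ' v (‖hp a p‖ ^ 2))
    apply mul_le_mul_of_nonneg_right _ (by positivity)
    rw [hCm]
    calc 2 * ψ' v (‖hp a p‖ ^ 2) ≤ 2 * (C0 / δ ^ 2) := by linarith
      _ = 2 * C0 / δ ^ 2 := by ring
  have he₁ : 0 < e * e2 / 18 := by positivity
  obtain ⟨σ, hσ, hσρ, X1, X1x, X1y, X2, X2x, X2y, hX1, hX2, hXm, hXb, hXY, hXpot⟩ :=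
    FLOW H Cm hCm0 _ mx my hm hm0 hma hmb hmY (e * e2 / 18) he₁
  obtain ⟨φ, hφ, hφre, Bφ, hφB⟩ := PHI H C0 _ _ _ (Θ v) (hψ v) (hΘd v) σ hσ hσρ X1 X1x X1y X2 X2x X2y
    hX1 hX2 hXm hXY
  obtain ⟨s, s', s'', hs⟩ := hST e2 ‖b 0‖ he2pos
  obtain ⟨φ', φx, φy, G1x, G1y, G2, G2x, G2y, hφ', hG1, hG2, hφ're, hφ'b, hφ'e, hG2a, hG2b, hG2Y,
    Bφ', hBφ'⟩ := PH H C0 e2 he2pos he2lt (ψ v) (fun q hq => (hψ v).high q hq) (Θ v) (hΘ1 v)
      s s' s'' hs σ hσ hσρ X1 X1x X1y X2 X2x X2y hX1 hX2 hXb φ hφ hφre Bφ hφB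
  set Y := max (Real.log (16 / δ)) (Real.log (16 / e2)) with hYdef
  set G1 : ℝ × ℝ → ℂ := fun p => ((X1 p : ℂ) - Complex.I * X2 p) / (2 * hp b p) with hG1def
  have hG1Y : ∀ p : ℝ × ℝ, Y ≤ p.2 → G1 p = 0 := by
    intro p hp
    have := hXY p (le_trans (le_max_left _ _) hp)
    simp only [hG1def, this.1, this.2]
    simp
  have hG2Y' : ∀ p : ℝ × ℝ, Y ≤ p.2 → G2 p = 0 := fun p hp =>
    hG2Y p (le_trans (le_max_right _ _) hp)
  obtain ⟨w, wx, wy, hw, hwG, Bw, hBw⟩ := DB σ hσ (fun p => G1 p + G2 p) _ _ (MID_add hG1 hG2) Y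
    (fun p hp => by rw [hG1Y p hp, hG2Y' p hp, add_zero])
  have hσ2 : 0 < σ / 2 := by linarith
  refine ⟨σ / 2, φ', φx, φy, w, wx, wy, hσ2, by linarith, MID_mono hφ' (by linarith), hw,
    fun p hp => hφ're p (by linarith), ?_, ?_, ⟨max Bφ' Bw, fun p hp =>
      ⟨(hBφ' p hp).trans (le_max_left _ _), (hBw p hp).trans (le_max_right _ _)⟩⟩, ?_⟩
  · intro p hp
    rw [hφ'b p (by linarith), hwG p hp]
    simp only [hG1def]; ring
  · intro p hp hb'
    have h1 := hφ'e p (by linarith) hb'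
    have h2 := hXb p (by linarith) (by linarith)
    refine ⟨h1.1, ?_⟩
    rw [hwG p hp, h1.2]
    simp only [hG1def, h2.1, h2.2]
    simp
  · intro t ht f k ρ' hρ' hf hf0 hkc hk hfk
    set I := ∫ x in Set.Ioc 0 (2 * Real.pi), ‖k (E (x, 0))‖ ^ 2 with hI
    have hI0 : 0 ≤ I := integral_nonneg fun x => by positivity
    -- the two area estimates
    have hη0 : 0 ≤ 250000 * Cm * t ^ (-(1 / 8) : ℝ) + e * e2 / 18 := by positivity
    have est1 := GE H σ hσ e2 he2pos X1 X1x X1y X2 X2x X2y hX1 hX2 hXb _ hXY t ht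
      (250000 * Cm * t ^ (-(1 / 8) : ℝ) + e * e2 / 18) hη0 (fun z hz => hXpot t ht z hz)
      f k ρ' hρ' hf hkc hk hfk
    have he21 : e2 ≤ 1 := by linarith
    have hC2a : 4 * C0 / e2 ^ 2 ≤ C2 := by
      rw [hC2]
      apply div_le_div_of_nonneg_left (by positivity) (by positivity)
      exact pow_le_pow_of_le_one he2pos.le he21 (by norm_num)
    have est2 := WO H σ hσ G2 G2x G2y hG2 Y hG2Y' C2 hC20
      (fun p hp => (hG2a p hp).trans (mul_le_mul_of_nonneg_right hC2a (norm_nonneg _)))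
      (fun p hp => (hG2b p hp).trans (le_of_eq (by rw [hC2]; ring)))
      f k ρ' hρ' hf hkc hk t ht hfk
    -- Stokes
    set τ := min (σ / 2) (Real.log ρ') with hτ
    have hlρ' : 0 < Real.log ρ' := Real.log_pos hρ'
    have hτ0 : 0 < τ := lt_min hσ2 hlρ'
    have hfC : C1 τ (hp f) (hp (Dz f)) (fun p => Complex.I * hp (Dz f) p) :=
      MID_mono (C1_hp (by linarith) hf) (min_le_right _ _)
    have hwC : C1 τ w wx wy := MID_mono hw (min_le_left _ _)
    have hu := MID_mul hwC hfC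
    obtain ⟨Bf, hBf0, hBf⟩ := MID_norm_le_of_zero hρ' hf hf0
    have hBw0 : 0 ≤ Bw := (norm_nonneg _).trans (hBw (0, 0) le_rfl)
    have hub : ∀ p : ℝ × ℝ, 0 ≤ p.2 → ‖w p * hp f p‖ ≤ (Bw * Bf) * Real.exp (-p.2) := by
      intro p hp
      rw [norm_mul]
      have h1 := hBw p hp
      have h2 := hBf (E p) (E_mem_closedBall hp)
      rw [norm_E] at h2
      calc ‖w p‖ * ‖Pool.H14.SR.hp f p‖ ≤ Bw * (Bf * Real.exp (-p.2)) :=
            mul_le_mul h1 h2 (norm_nonneg _) hBw0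
        _ = _ := by ring
    have hdb : ∀ p : ℝ × ℝ, -(σ / 2) < p.2 →
        (1 / 2 : ℂ) * ((wx p * hp f p + w p * hp (Dz f) p)
          + Complex.I * (wy p * hp f p + w p * (Complex.I * hp (Dz f) p)))
        = (G1 p + G2 p) * hp f p := by
      intro p hp
      have h1 := hwG p hp
      have h2 : (1 / 2 : ℂ) * ((wx p * Pool.H14.SR.hp f p + w p * Pool.H14.SR.hp (Dz f) p)
          + Complex.I * (wy p * Pool.H14.SR.hp f p + w p * (Complex.I * Pool.H14.SR.hp (Dz f) p)))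
          = 1 / 2 * (wx p + Complex.I * wy p) * Pool.H14.SR.hp f p
            + 1 / 2 * (1 + Complex.I * Complex.I) * (w p * Pool.H14.SR.hp (Dz f) p) := by ring
      rw [h2, h1, Complex.I_mul_I]; ring
    have hcf : ContinuousOn (hp f) {p | -τ < p.2} := hfC.c
    have hG1i : IntegrableOn (fun p => G1 p * hp f p) ST :=
      MID_integrableOn_ST (Y := Y) hτ0 ((hG1.c.mono (fun p (hp : -τ < p.2) => show -σ < p.2 by
        have : τ ≤ σ / 2 := min_le_left _ _
        linarith)).mul hcf)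
        (fun p hp => by simp only [hG1Y p hp, zero_mul])
    have hG2i : IntegrableOn (fun p => G2 p * hp f p) ST :=
      MID_integrableOn_ST (Y := Y) hτ0 ((hG2.c.mono (fun p (hp : -τ < p.2) => show -σ < p.2 by
        have : τ ≤ σ / 2 := min_le_left _ _
        linarith)).mul hcf)
        (fun p hp => by simp only [hG2Y' p hp, zero_mul])
    have hSTm : MeasurableSet ST := by
      unfold ST
      exact (measurableSet_Ioc.preimage measurable_fst).inter
        (measurableSet_lt measurable_const measurable_snd)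
    have hcong : ∀ p ∈ ST, (1 / 2 : ℂ) * ((wx p * hp f p + w p * hp (Dz f) p)
          + Complex.I * (wy p * hp f p + w p * (Complex.I * hp (Dz f) p)))
        = G1 p * hp f p + G2 p * hp f p := by
      intro p hp
      rw [hdb p (by have := hp.2; linarith)]; ring
    have hint : IntegrableOn (fun p => (1 / 2 : ℂ) * ((wx p * hp f p + w p * hp (Dz f) p)
          + Complex.I * (wy p * hp f p + w p * (Complex.I * hp (Dz f) p)))) ST :=
      (hG1i.add hG2i).congr_fun (fun p hp => (hcong p hp).symm) hSTm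
    have hstk := STK τ hτ0 _ _ _ hu (Bw * Bf) hub hint
    have hsum : ∫ p in ST, (1 / 2 : ℂ) * ((wx p * hp f p + w p * hp (Dz f) p)
          + Complex.I * (wy p * hp f p + w p * (Complex.I * hp (Dz f) p)))
        = (∫ p in ST, G1 p * hp f p) + ∫ p in ST, G2 p * hp f p := by
      rw [← integral_add hG1i hG2i]
      exact setIntegral_congr_fun hSTm hcong
    have hfin : ∫ x in Set.Ioc 0 (2 * Real.pi), w (x, 0) * f (E (x, 0))
        = 2 * Complex.I * ((∫ p in ST, G1 p * hp f p) + ∫ p in ST, G2 p * hp f p) := by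
      rw [← hsum, ← hstk]; rfl
    rw [hfin, norm_mul, norm_mul, Complex.norm_I]
    have hn2 : ‖(2 : ℂ)‖ = 2 := by simp
    rw [hn2, mul_one]
    have habs : |t ^ (-(1 / 8) : ℝ)| = t ^ (-(1 / 8) : ℝ) := abs_of_nonneg (by positivity)
    calc 2 * ‖(∫ p in ST, G1 p * hp f p) + ∫ p in ST, G2 p * hp f p‖
        ≤ 2 * (‖∫ p in ST, G1 p * hp f p‖ + ‖∫ p in ST, G2 p * hp f p‖) := by
          gcongr; exact norm_add_le _ _
      _ ≤ 2 * (9 / e2 * (250000 * Cm * t ^ (-(1 / 8) : ℝ) + e * e2 / 18) * I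
            + 3 * C2 / Real.sqrt t * I) := by gcongr
      _ = (2 * (9 / e2 * (250000 * Cm) * |t ^ (-(1 / 8) : ℝ)| + 3 * C2 / Real.sqrt t) + e) * I := by
          rw [habs]; field_simp; ring

end Pool.H14.SR

end S_MID

noncomputable section S_MC

open MeasureTheory Set Filter Topology
namespace Pool.H14.SR

namespace MCaux

/-- The point of the half plane. -/
def PP (ζ : ℂ) : ℝ × ℝ := (ζ.re, ζ.im)

theorem continuous_PP : Continuous PP := by unfold PP; fun_prop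

/-- `C¹` plus Cauchy-Riemann gives complex differentiability. -/
theorem cdiff_of_C1 {σ : ℝ} {u ux uy : ℝ × ℝ → ℂ} (h : C1 σ u ux uy) (ζ : ℂ) (hp : -σ < ζ.im)
    (hCR : ux (PP ζ) + Complex.I * uy (PP ζ) = 0) :
    DifferentiableAt ℂ (fun ζ : ℂ => u (PP ζ)) ζ := by
  have hopen : IsOpen {p : ℝ × ℝ | -σ < p.2} := isOpen_lt continuous_const continuous_snd
  have hmem : {p : ℝ × ℝ | -σ < p.2} ∈ 𝓝 (PP ζ) := hopen.mem_nhds hp
  have h1 := hasStrictFDerivAt_uncurry_coprod (𝕜 := ℝ) (u := PP ζ) (f := fun x y => u (x, y))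
    (f₁ := fun x y => ContinuousLinearMap.toSpanSingleton ℝ (ux (x, y)))
    (f₂ := fun x y => ContinuousLinearMap.toSpanSingleton ℝ (uy (x, y)))
    (by
      filter_upwards [hmem] with v hv
      exact (h.dx v hv).hasFDerivAt)
    (by
      filter_upwards [hmem] with v hv
      exact (h.dy v hv).hasFDerivAt)
    (by
      have h2 : ContinuousAt ux (PP ζ) := h.cx.continuousAt hmem
      exact (ContinuousLinearMap.toSpanSingletonCLE (𝕜 := ℝ)).continuous.continuousAt.comp h2)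
    (by
      have h2 : ContinuousAt uy (PP ζ) := h.cy.continuousAt hmem
      exact (ContinuousLinearMap.toSpanSingletonCLE (𝕜 := ℝ)).continuous.continuousAt.comp h2)
  have h3 : HasFDerivAt (fun ζ : ℂ => u (PP ζ))
      (((ContinuousLinearMap.toSpanSingleton ℝ (ux (PP ζ))).coprod
        (ContinuousLinearMap.toSpanSingleton ℝ (uy (PP ζ)))).comp
          (Complex.equivRealProdCLM : ℂ →L[ℝ] ℝ × ℝ)) ζ :=
    HasFDerivAt.comp ζ h1.hasFDerivAt Complex.equivRealProdCLM.hasFDerivAt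
  rw [differentiableAt_complex_iff_differentiableAt_real]
  refine ⟨h3.differentiableAt, ?_⟩
  rw [h3.fderiv]
  simp only [ContinuousLinearMap.comp_apply, ContinuousLinearEquiv.coe_coe,
    Complex.equivRealProdCLM_apply, ContinuousLinearMap.coprod_apply,
    ContinuousLinearMap.toSpanSingleton_apply, Complex.I_re, Complex.I_im, Complex.one_re,
    Complex.one_im, zero_smul, one_smul, zero_add, add_zero, smul_eq_mul]
  have h4 : ux (PP ζ) = -(Complex.I * uy (PP ζ)) := eq_neg_of_add_eq_zero_left hCR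
  rw [h4]
  have h5 : Complex.I * -(Complex.I * uy (PP ζ)) = -(Complex.I * Complex.I) * uy (PP ζ) := by ring
  rw [h5, Complex.I_mul_I, neg_neg, one_mul]

/-- Periodic analytic functions on a half plane are `C¹`. -/
theorem C1_of_cdiff {σ : ℝ} {U : ℂ → ℂ} (hU : ∀ ζ : ℂ, -σ < ζ.im → DifferentiableAt ℂ U ζ)
    (hper : ∀ ζ : ℂ, -σ < ζ.im → U (ζ + 2 * Real.pi) = U ζ) :
    C1 σ (fun p => U ⟨p.1, p.2⟩) (fun p => deriv U ⟨p.1, p.2⟩)
      (fun p => Complex.I * deriv U ⟨p.1, p.2⟩) := by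
  have hopen : IsOpen {ζ : ℂ | -σ < ζ.im} := isOpen_lt continuous_const Complex.continuous_im
  have hd : DifferentiableOn ℂ U {ζ : ℂ | -σ < ζ.im} := fun ζ hζ => (hU ζ hζ).differentiableWithinAt
  have hd' : ContinuousOn (deriv U) {ζ : ℂ | -σ < ζ.im} := (hd.deriv hopen).continuousOn
  have hmk : Continuous (fun p : ℝ × ℝ => (⟨p.1, p.2⟩ : ℂ)) :=
    Complex.equivRealProdCLM.symm.continuous
  have hmaps : MapsTo (fun p : ℝ × ℝ => (⟨p.1, p.2⟩ : ℂ)) {p | -σ < p.2} {ζ : ℂ | -σ < ζ.im} :=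
    fun p hp => hp
  refine ⟨fun p hp => ?_, fun p hp => ?_, ?_, ?_, ?_, fun p hp => ?_⟩
  · have h1 : HasDerivAt (fun x : ℝ => (⟨x, p.2⟩ : ℂ)) 1 p.1 := by
      have h2 : (fun x : ℝ => (⟨x, p.2⟩ : ℂ)) = fun x : ℝ => (x : ℂ) + (p.2 : ℂ) * Complex.I := by
        funext x; exact Complex.mk_eq_add_mul_I x p.2
      rw [h2]
      exact (Complex.ofRealCLM.hasDerivAt (x := p.1)).add_const _
    have h2 := HasDerivAt.comp_of_eq p.1 (hU ⟨p.1, p.2⟩ hp).hasDerivAt h1 rfl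
    rw [mul_one] at h2
    exact h2
  · have h1 : HasDerivAt (fun y : ℝ => (⟨p.1, y⟩ : ℂ)) Complex.I p.2 := by
      have h2 : (fun y : ℝ => (⟨p.1, y⟩ : ℂ)) = fun y : ℝ => (p.1 : ℂ) + (y : ℂ) * Complex.I := by
        funext y; exact Complex.mk_eq_add_mul_I p.1 y
      rw [h2]
      have h3 := ((Complex.ofRealCLM.hasDerivAt (x := p.2)).mul_const Complex.I).const_add (p.1 : ℂ)
      simpa using h3
    have h2 := HasDerivAt.comp_of_eq p.2 (hU ⟨p.1, p.2⟩ hp).hasDerivAt h1 rfl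
    rw [mul_comm] at h2
    exact h2
  · exact hd.continuousOn.comp hmk.continuousOn hmaps
  · exact hd'.comp hmk.continuousOn hmaps
  · exact continuousOn_const.mul (hd'.comp hmk.continuousOn hmaps)
  · have h1 : (⟨p.1 + 2 * Real.pi, p.2⟩ : ℂ) = ⟨p.1, p.2⟩ + 2 * Real.pi := by
      apply Complex.ext <;> simp
    show U ⟨p.1 + 2 * Real.pi, p.2⟩ = U ⟨p.1, p.2⟩
    rw [h1, hper _ hp]

/-- Boundary values of bounded periodic analytic functions are in `H^∞`. -/
theorem Hinf_of_cdiff {σ : ℝ} (hσ : 0 < σ) {U : ℂ → ℂ}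
    (hU : ∀ ζ : ℂ, -σ < ζ.im → DifferentiableAt ℂ U ζ)
    (hper : ∀ ζ : ℂ, -σ < ζ.im → U (ζ + 2 * Real.pi) = U ζ) (B : ℝ) (hB : ∀ ζ : ℂ, 0 ≤ ζ.im → ‖U ζ‖ ≤ B) :
    Hinf (fun x : ℝ => U x) := by
  have h1 := C1_of_cdiff hU hper
  have h2 := HA_of_analytic σ hσ _ _ _ h1 B (fun p hp => hB _ hp) (fun p hp => by
    rw [← mul_assoc, Complex.I_mul_I]; ring)
  have hc : Continuous (fun x : ℝ => U x) := by
    rw [continuous_iff_continuousAt]
    intro x
    exact (hU x (by simpa using hσ)).continuousAt.comp Complex.continuous_ofReal.continuousAt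
  refine ⟨memLp_top_of_bound hc.aestronglyMeasurable B (ae_of_all _ fun x => hB _ (by simp)), ?_⟩
  exact h2

/-- The entire function `(e^t - 1)/t`. -/
def ept (t : ℂ) : ℂ := dslope Complex.exp 0 t

theorem ept_diff : Differentiable ℂ ept := by
  intro t
  have h1 : DifferentiableOn ℂ (dslope Complex.exp 0) univ :=
    (Complex.differentiableOn_dslope univ_mem).2 Complex.differentiable_exp.differentiableOn
  exact (h1 t (mem_univ t)).differentiableAt univ_mem

theorem mul_ept (t : ℂ) : t * ept t = Complex.exp t - 1 := by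
  have := sub_smul_dslope Complex.exp 0 t
  simpa [ept] using this

theorem ept_zero : ept 0 = 1 := by
  unfold ept
  rw [dslope_same]
  simp

theorem norm_exp_sub_one (t : ℂ) : ‖Complex.exp t - 1‖ ≤ ‖t‖ * Real.exp ‖t‖ := by
  have := Complex.norm_exp_sub_sum_le_norm_mul_exp t 1
  simpa using this

theorem norm_ept (t : ℂ) : ‖ept t‖ ≤ Real.exp ‖t‖ := by
  by_cases ht : t = 0
  · rw [ht, ept_zero]; simp
  · have h1 : ‖t‖ * ‖ept t‖ ≤ ‖t‖ * Real.exp ‖t‖ := by
      rw [← norm_mul, mul_ept]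
      exact norm_exp_sub_one t
    exact le_of_mul_le_mul_left h1 (norm_pos_iff.2 ht)

theorem hp_PP_cdiff {ρ σ : ℝ} (hρ : 1 < ρ) (hσρ : σ < Real.log ρ) {a : ℂ → ℂ}
    (ha : DifferentiableOn ℂ a (Metric.ball 0 ρ)) (ζ : ℂ) (hζ : -σ < ζ.im) :
    DifferentiableAt ℂ (fun ζ : ℂ => hp a (PP ζ)) ζ :=
  cdiff_of_C1 (C1_hp (by linarith) ha) ζ (by linarith) (by
    rw [← mul_assoc, Complex.I_mul_I]; ring)

end MCaux

open MCaux in
/-- **(MC)** The quotient.  `φ, w` on the half plane with `∂̄φ = b ∂̄w`, `e^φ = a` and `∂̄w = 0` on `|b| < ε₁`.  Then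
`c₀ = (e^{φ-bw} - a)/b` (`= -a w ε(bw)`, `ε(t) = (1-e^{-t})/t`, where `|b| < ε₁`) is `C¹` with `∂̄c₀ = 0`, bounded, so on `y = 0`
it is in `H^∞` (`HA_of_analytic`); `φ - bw` has boundary values in `H^∞` for the same reason.  If `g ∈ H^∞` and
`|w(x,0) - g(x)| ≤ C` a.e., then with `W = w - g`, `V = φ - bW = φ - bw + bg`:
`e^V = a + b c`, `c = c₀e^{bg} + a g ε̃(bg) ∈ H^∞`, `ε̃(t) = (e^t-1)/t` entire (`Hinf_entire`), and
`|c| ≤ (e^{2C}+1)/ε₁` where `|b| ≥ ε₁` (`|Re φ| ≤ C`), `c = -aWε(bW)`, `|c| ≤ Ce^C` where `|b| < ε₁` (a.e. where `b = 0` use the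
formula `c₀ = -a w ε(bw)` and `(w-g)ε(b(w-g)) = w ε(bw) e^{bg} - g ε̃(bg)`). -/
theorem MC (ρ : ℝ) (hρ : 1 < ρ) (a b : ℂ → ℂ) (ha : DifferentiableOn ℂ a (Metric.ball 0 ρ))
    (hb : DifferentiableOn ℂ b (Metric.ball 0 ρ)) (ha1 : ∀ w ∈ Metric.ball (0 : ℂ) ρ, ‖a w‖ ≤ 1)
    (hb1 : ∀ w ∈ Metric.ball (0 : ℂ) ρ, ‖b w‖ ≤ 1) (ε₁ : ℝ) (hε : 0 < ε₁) (σ : ℝ) (hσ : 0 < σ)
    (hσρ : σ < Real.log ρ) (φ φx φy w wx wy : ℝ × ℝ → ℂ) (hφ : C1 σ φ φx φy) (hw : C1 σ w wx wy)
    (h1 : ∀ p : ℝ × ℝ, -σ < p.2 → φx p + Complex.I * φy p = hp b p * (wx p + Complex.I * wy p))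
    (h2 : ∀ p : ℝ × ℝ, -σ < p.2 → ‖hp b p‖ < ε₁ →
      Complex.exp (φ p) = hp a p ∧ wx p + Complex.I * wy p = 0)
    (B : ℝ) (hB : ∀ p : ℝ × ℝ, 0 ≤ p.2 → ‖φ p‖ ≤ B ∧ ‖w p‖ ≤ B) (C : ℝ) (hC : 0 ≤ C)
    (hre : ∀ x : ℝ, |(φ (x, 0)).re| ≤ C) (g : ℝ → ℂ) (hg : Hinf g)
    (hwg : BD (fun x => w (x, 0) - g x) C) :
    HA (fun x => φ (x, 0) - b (E (x, 0)) * (w (x, 0) - g x)) ∧
    ∃ c : ℝ → ℂ, Hinf c ∧ BD c ((Real.exp (2 * C) + 1) / ε₁ + C * Real.exp C) ∧
      ∀ᵐ x ∂mu, Complex.exp (φ (x, 0) - b (E (x, 0)) * (w (x, 0) - g x))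
        = a (E (x, 0)) + b (E (x, 0)) * c x := by
  have hρ0 : 0 < ρ := by linarith
  -- periodicity
  have hPper : ∀ ζ : ℂ, PP (ζ + 2 * Real.pi) = ((PP ζ).1 + 2 * Real.pi, (PP ζ).2) := by
    intro ζ
    unfold PP
    simp
  -- `hp b`, `hp a`
  have hbn : ∀ p : ℝ × ℝ, -σ < p.2 → ‖hp b p‖ ≤ 1 := fun p hp' =>
    hb1 _ (E_mem_ball hρ0 (by linarith))
  have han : ∀ p : ℝ × ℝ, -σ < p.2 → ‖hp a p‖ ≤ 1 := fun p hp' =>
    ha1 _ (E_mem_ball hρ0 (by linarith))
  have hb1' := C1_hp hρ0 hb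
  -- the function `ψ`
  set ψ : ℝ × ℝ → ℂ := fun p => φ p - hp b p * w p with hψ
  have hψC : C1 σ ψ (fun p => φx p - (hp (Dz b) p * w p + hp b p * wx p))
      (fun p => φy p - (Complex.I * hp (Dz b) p * w p + hp b p * wy p)) := by
    have hsub : {p : ℝ × ℝ | -σ < p.2} ⊆ {p : ℝ × ℝ | -Real.log ρ < p.2} := by
      intro p hp'
      simp only [Set.mem_ofPred_eq] at hp' ⊢
      linarith
    refine ⟨fun p hp' => ?_, fun p hp' => ?_, ?_, ?_, ?_, fun p hp' => ?_⟩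
    · exact (hφ.dx p hp').sub ((hb1'.dx p (hsub hp')).mul (hw.dx p hp'))
    · exact (hφ.dy p hp').sub ((hb1'.dy p (hsub hp')).mul (hw.dy p hp'))
    · exact hφ.c.sub ((hb1'.c.mono hsub).mul hw.c)
    · exact hφ.cx.sub (((hb1'.cx.mono hsub).mul hw.c).add ((hb1'.c.mono hsub).mul hw.cx))
    · exact hφ.cy.sub (((hb1'.cy.mono hsub).mul hw.c).add ((hb1'.c.mono hsub).mul hw.cy))
    · simp only [hψ]
      rw [hφ.per p hp', hw.per p hp', hp_per]
  have hψd : ∀ ζ : ℂ, -σ < ζ.im → DifferentiableAt ℂ (fun ζ : ℂ => ψ (PP ζ)) ζ := by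
    intro ζ hζ
    refine cdiff_of_C1 hψC ζ hζ ?_
    have h3 := h1 (PP ζ) hζ
    have h4 : Complex.I * Complex.I = -1 := Complex.I_mul_I
    linear_combination h3 - hp (Dz b) (PP ζ) * w (PP ζ) * h4
  have had : ∀ ζ : ℂ, -σ < ζ.im → DifferentiableAt ℂ (fun ζ : ℂ => hp a (PP ζ)) ζ :=
    fun ζ hζ => hp_PP_cdiff hρ hσρ ha ζ hζ
  have hbd : ∀ ζ : ℂ, -σ < ζ.im → DifferentiableAt ℂ (fun ζ : ℂ => hp b (PP ζ)) ζ :=
    fun ζ hζ => hp_PP_cdiff hρ hσρ hb ζ hζ
  have hwd : ∀ ζ : ℂ, -σ < ζ.im → ‖hp b (PP ζ)‖ < ε₁ →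
      DifferentiableAt ℂ (fun ζ : ℂ => w (PP ζ)) ζ := fun ζ hζ hb' =>
    cdiff_of_C1 hw ζ hζ (h2 (PP ζ) hζ hb').2
  have hopen : IsOpen {ζ : ℂ | -σ < ζ.im} := isOpen_lt continuous_const Complex.continuous_im
  -- the quotient
  set c0 : ℂ → ℂ := fun ζ => if hp b (PP ζ) = 0 then -(hp a (PP ζ) * w (PP ζ)) else
    (Complex.exp (ψ (PP ζ)) - hp a (PP ζ)) / hp b (PP ζ) with hc0
  have hc0b : ∀ ζ : ℂ, -σ < ζ.im → Complex.exp (ψ (PP ζ)) =
      hp a (PP ζ) + hp b (PP ζ) * c0 ζ := by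
    intro ζ hζ
    simp only [hc0]
    split_ifs with h3
    · rw [h3, zero_mul, add_zero]
      have h4 := (h2 (PP ζ) hζ (by rw [h3, norm_zero]; exact hε)).1
      simp only [hψ]
      rw [h3, zero_mul, sub_zero, h4]
    · field_simp
      ring
  have hc0s : ∀ ζ : ℂ, -σ < ζ.im → ‖hp b (PP ζ)‖ < ε₁ →
      c0 ζ = -(hp a (PP ζ) * w (PP ζ) * ept (-(hp b (PP ζ) * w (PP ζ)))) := by
    intro ζ hζ hb'
    simp only [hc0]
    split_ifs with h3
    · rw [h3, zero_mul, neg_zero, ept_zero, mul_one]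
    · have h4 := (h2 (PP ζ) hζ hb').1
      have h5 := mul_ept (-(hp b (PP ζ) * w (PP ζ)))
      have h6 : Complex.exp (ψ (PP ζ)) =
          hp a (PP ζ) * Complex.exp (-(hp b (PP ζ) * w (PP ζ))) := by
        simp only [hψ]
        rw [sub_eq_add_neg, Complex.exp_add, h4]
      rw [div_eq_iff h3, h6]
      linear_combination -(hp a (PP ζ)) * h5
  have hc0d : ∀ ζ : ℂ, -σ < ζ.im → DifferentiableAt ℂ c0 ζ := by
    intro ζ hζ
    by_cases hb' : ‖hp b (PP ζ)‖ < ε₁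
    · have h3 : c0 =ᶠ[𝓝 ζ] fun ζ =>
          -(hp a (PP ζ) * w (PP ζ) * ept (-(hp b (PP ζ) * w (PP ζ)))) := by
        have h4 : ∀ᶠ z in 𝓝 ζ, ‖hp b (PP z)‖ < ε₁ :=
          (hbd ζ hζ).continuousAt.norm.eventually_lt continuousAt_const hb'
        filter_upwards [h4, hopen.mem_nhds hζ] with z hz1 hz2
        exact hc0s z hz2 hz1
      refine DifferentiableAt.congr_of_eventuallyEq ?_ h3
      have e1 := had ζ hζ
      have e2 := hbd ζ hζ
      have e3 := hwd ζ hζ hb'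
      exact ((e1.mul e3).mul (ept_diff.differentiableAt.comp ζ (e2.mul e3).neg)).neg
    · have hne : hp b (PP ζ) ≠ 0 := by
        intro h3
        apply hb'
        rw [h3, norm_zero]; exact hε
      have h3 : c0 =ᶠ[𝓝 ζ] fun ζ =>
          (Complex.exp (ψ (PP ζ)) - hp a (PP ζ)) / hp b (PP ζ) := by
        have h4 : ∀ᶠ z in 𝓝 ζ, hp b (PP z) ≠ 0 :=
          (hbd ζ hζ).continuousAt.eventually_ne hne
        filter_upwards [h4] with z hz1
        simp only [hc0]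
        rw [if_neg hz1]
      refine DifferentiableAt.congr_of_eventuallyEq ?_ h3
      exact ((hψd ζ hζ).cexp.sub (had ζ hζ)).div (hbd ζ hζ) hne
  have hpb : ∀ ζ : ℂ, hp b (PP (ζ + 2 * Real.pi)) = hp b (PP ζ) := by
    intro ζ; rw [hPper, hp_per]
  have hpa : ∀ ζ : ℂ, hp a (PP (ζ + 2 * Real.pi)) = hp a (PP ζ) := by
    intro ζ; rw [hPper, hp_per]
  have hB0 : 0 ≤ B := (norm_nonneg _).trans (hB (0, 0) le_rfl).1
  have hψB : ∀ p : ℝ × ℝ, 0 ≤ p.2 → ‖ψ p‖ ≤ 2 * B := by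
    intro p hp'
    simp only [hψ]
    refine (norm_sub_le _ _).trans ?_
    rw [norm_mul]
    have e1 := (hB p hp').1
    have e2 := (hB p hp').2
    have e3 := hbn p (by linarith)
    have e4 : ‖hp b p‖ * ‖w p‖ ≤ 1 * B := mul_le_mul e3 e2 (norm_nonneg _) zero_le_one
    linarith
  have hbH : Hinf (fun x : ℝ => b (E (x, 0))) := by
    have := Hinf_of_cdiff hσ hbd (fun ζ _ => hpb ζ) 1 (fun ζ hζ => hbn _ (by
      show -σ < ζ.im; linarith))
    simpa [PP, hp] using this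
  have haH : Hinf (fun x : ℝ => a (E (x, 0))) := by
    have := Hinf_of_cdiff hσ had (fun ζ _ => hpa ζ) 1 (fun ζ hζ => han _ (by
      show -σ < ζ.im; linarith))
    simpa [PP, hp] using this
  have hψH : Hinf (fun x : ℝ => ψ (x, 0)) := by
    have := Hinf_of_cdiff hσ hψd (fun ζ hζ => by
      simp only [hψ]
      rw [hpb, hPper, hφ.per _ hζ, hw.per _ hζ]) (2 * B) (fun ζ hζ => hψB _ hζ)
    simpa [PP] using this
  have hc0B : ∀ ζ : ℂ, 0 ≤ ζ.im → ‖c0 ζ‖ ≤ (Real.exp (2 * B) + 1) / ε₁ + B * Real.exp B := by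
    intro ζ hζ
    have hζ' : -σ < ζ.im := by linarith
    by_cases hb' : ‖hp b (PP ζ)‖ < ε₁
    · rw [hc0s ζ hζ' hb', norm_neg, norm_mul, norm_mul]
      have e1 := han (PP ζ) hζ'
      have e2 := (hB (PP ζ) hζ).2
      have e3 := norm_ept (-(hp b (PP ζ) * w (PP ζ)))
      have e4 : ‖-(hp b (PP ζ) * w (PP ζ))‖ ≤ B := by
        rw [norm_neg, norm_mul]
        have := mul_le_mul (hbn (PP ζ) hζ') e2 (norm_nonneg _) zero_le_one
        linarith
      have e5 : ‖ept (-(hp b (PP ζ) * w (PP ζ)))‖ ≤ Real.exp B :=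
        e3.trans (Real.exp_le_exp.2 e4)
      have e6 : ‖hp a (PP ζ)‖ * ‖w (PP ζ)‖ ≤ 1 * B := mul_le_mul e1 e2 (norm_nonneg _) zero_le_one
      have e7 : 0 ≤ (Real.exp (2 * B) + 1) / ε₁ := by positivity
      have e8 : ‖hp a (PP ζ)‖ * ‖w (PP ζ)‖ * ‖ept (-(hp b (PP ζ) * w (PP ζ)))‖ ≤
          1 * B * Real.exp B := mul_le_mul e6 e5 (norm_nonneg _) (by linarith)
      linarith
    · have hb'' : ε₁ ≤ ‖hp b (PP ζ)‖ := not_lt.1 hb'
      have hne : hp b (PP ζ) ≠ 0 := by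
        intro h3
        apply hb'
        rw [h3, norm_zero]; exact hε
      simp only [hc0]
      rw [if_neg hne, norm_div]
      have e1 : ‖Complex.exp (ψ (PP ζ)) - hp a (PP ζ)‖ ≤ Real.exp (2 * B) + 1 := by
        refine (norm_sub_le _ _).trans (add_le_add ?_ (han _ hζ'))
        rw [Complex.norm_exp]
        exact Real.exp_le_exp.2 ((Complex.re_le_norm _).trans (hψB _ hζ))
      have e2 : ‖Complex.exp (ψ (PP ζ)) - hp a (PP ζ)‖ / ‖hp b (PP ζ)‖ ≤
          (Real.exp (2 * B) + 1) / ε₁ :=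
        div_le_div₀ (by positivity) e1 hε hb''
      have e3 : 0 ≤ B * Real.exp B := by positivity
      linarith
  have hc0H : Hinf (fun x : ℝ => c0 x) := by
    refine Hinf_of_cdiff hσ hc0d (fun ζ hζ => ?_) _ hc0B
    simp only [hc0, hψ]
    rw [hpb, hpa, hPper, hφ.per _ hζ, hw.per _ hζ]
  have hbg : Hinf (fun x => b (E (x, 0)) * g x) := hbH.mul hg
  have hexp : Hinf (fun x => Complex.exp (b (E (x, 0)) * g x)) :=
    Hinf_entire hbg Complex.exp Complex.differentiable_exp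
  have hept : Hinf (fun x => ept (b (E (x, 0)) * g x)) := Hinf_entire hbg ept ept_diff
  have hPx : ∀ x : ℝ, PP (x : ℂ) = (x, 0) := fun x => by simp [PP]
  have hid : ∀ x : ℝ, Complex.exp (φ (x, 0) - b (E (x, 0)) * (w (x, 0) - g x))
      = a (E (x, 0)) + b (E (x, 0)) * (c0 x * Complex.exp (b (E (x, 0)) * g x) +
        a (E (x, 0)) * (g x * ept (b (E (x, 0)) * g x))) := by
    intro x
    have e1 := hc0b x (by simpa using hσ)
    rw [hPx] at e1
    have e2 : φ (x, 0) - b (E (x, 0)) * (w (x, 0) - g x) = ψ (x, 0) + b (E (x, 0)) * g x := by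
      simp only [hψ, hp]; ring
    rw [e2, Complex.exp_add, e1]
    have e3 := mul_ept (b (E (x, 0)) * g x)
    simp only [hp]
    linear_combination -(a (E (x, 0))) * e3
  constructor
  · have e1 := (hψH.add hbg).ha
    have e2 : (fun x => φ (x, 0) - b (E (x, 0)) * (w (x, 0) - g x)) =
        fun x => ψ (x, 0) + b (E (x, 0)) * g x := by
      funext x
      simp only [hψ, hp]; ring
    rw [e2]
    exact e1
  · refine ⟨fun x => c0 x * Complex.exp (b (E (x, 0)) * g x) +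
        a (E (x, 0)) * (g x * ept (b (E (x, 0)) * g x)),
      (hc0H.mul hexp).add (haH.mul (hg.mul hept)), ?_, ae_of_all _ hid⟩
    unfold BD at hwg ⊢
    filter_upwards [hwg] with x hx
    have hid' := hid x
    set c := c0 x * Complex.exp (b (E (x, 0)) * g x) +
        a (E (x, 0)) * (g x * ept (b (E (x, 0)) * g x)) with hc
    set W := w (x, 0) - g x with hW
    have f1 : ‖b (E (x, 0))‖ ≤ 1 := hbn (x, 0) (by simpa using hσ)
    have f2 : ‖a (E (x, 0))‖ ≤ 1 := han (x, 0) (by simpa using hσ)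
    have f3 : ‖b (E (x, 0)) * W‖ ≤ C := by
      rw [norm_mul]
      have := mul_le_mul f1 hx (norm_nonneg _) zero_le_one
      linarith
    by_cases hb' : ‖b (E (x, 0))‖ < ε₁
    · have e1 := h2 (x, 0) (by simpa using hσ) hb'
      have e0 : 0 ≤ (Real.exp (2 * C) + 1) / ε₁ := by positivity
      by_cases hb0 : b (E (x, 0)) = 0
      · have e2 : c = -(a (E (x, 0)) * W) := by
          rw [hc, hb0, zero_mul, Complex.exp_zero, ept_zero, hW]
          simp only [hc0]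
          rw [hPx, if_pos (show hp b (x, 0) = 0 from hb0)]
          simp only [hp]
          ring
        rw [e2, norm_neg, norm_mul]
        have e3 : ‖a (E (x, 0))‖ * ‖W‖ ≤ 1 * C := mul_le_mul f2 hx (norm_nonneg _) zero_le_one
        have e4 : C ≤ C * Real.exp C := le_mul_of_one_le_right hC (Real.one_le_exp hC)
        linarith
      · have e2 : b (E (x, 0)) * c = a (E (x, 0)) * (Complex.exp (-(b (E (x, 0)) * W)) - 1) := by
          have e3 : Complex.exp (φ (x, 0) - b (E (x, 0)) * W) =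
              a (E (x, 0)) * Complex.exp (-(b (E (x, 0)) * W)) := by
            rw [sub_eq_add_neg, Complex.exp_add, e1.1]; rfl
          rw [e3] at hid'
          linear_combination -hid'
        have e3 : ‖b (E (x, 0))‖ * ‖c‖ ≤ ‖b (E (x, 0))‖ * (C * Real.exp C) := by
          rw [← norm_mul, e2, norm_mul]
          have e4 := norm_exp_sub_one (-(b (E (x, 0)) * W))
          rw [norm_neg] at e4
          calc ‖a (E (x, 0))‖ * ‖Complex.exp (-(b (E (x, 0)) * W)) - 1‖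
              ≤ 1 * (‖b (E (x, 0)) * W‖ * Real.exp ‖b (E (x, 0)) * W‖) :=
                mul_le_mul f2 e4 (norm_nonneg _) zero_le_one
            _ ≤ 1 * (‖b (E (x, 0)) * W‖ * Real.exp C) := by gcongr
            _ = ‖b (E (x, 0))‖ * (‖W‖ * Real.exp C) := by rw [norm_mul]; ring
            _ ≤ ‖b (E (x, 0))‖ * (C * Real.exp C) := by gcongr
        have e4 := le_of_mul_le_mul_left e3 (norm_pos_iff.2 hb0)
        linarith
    · have hb'' : ε₁ ≤ ‖b (E (x, 0))‖ := not_lt.1 hb'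
      have hbpos : 0 < ‖b (E (x, 0))‖ := lt_of_lt_of_le hε hb''
      have e1 : ‖b (E (x, 0))‖ * ‖c‖ ≤ Real.exp (2 * C) + 1 := by
        rw [← norm_mul]
        have e2 : b (E (x, 0)) * c = Complex.exp (φ (x, 0) - b (E (x, 0)) * W) - a (E (x, 0)) := by
          rw [hid']; ring
        rw [e2]
        refine (norm_sub_le _ _).trans (add_le_add ?_ f2)
        rw [Complex.norm_exp]
        apply Real.exp_le_exp.2
        rw [Complex.sub_re]
        have e3 := hre x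
        have e4 := (abs_le.1 e3).2
        have e5 := (Complex.abs_re_le_norm (b (E (x, 0)) * W)).trans f3
        have e6 := (abs_le.1 e5).1
        linarith
      have e2 : ‖c‖ ≤ (Real.exp (2 * C) + 1) / ε₁ := by
        rw [le_div_iff₀ hε]
        calc ‖c‖ * ε₁ ≤ ‖c‖ * ‖b (E (x, 0))‖ := mul_le_mul_of_nonneg_left hb'' (norm_nonneg _)
          _ = ‖b (E (x, 0))‖ * ‖c‖ := mul_comm _ _
          _ ≤ _ := e1
      have e3 : 0 ≤ C * Real.exp C := by positivity
      linarith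

end Pool.H14.SR

end S_MC

noncomputable section S_MAT

open MeasureTheory Set Filter Topology
namespace Pool.H14.SR

theorem MAT_cont_E : Continuous (fun x : ℝ => E (x, 0)) :=
  continuous_E.comp (by fun_prop)

theorem MAT_E_mem (x : ℝ) : E (x, 0) ∈ Metric.closedBall (0 : ℂ) 1 := E_mem_closedBall le_rfl

theorem MAT_Hinf_of_cont {g : ℝ → ℂ} (hg : Continuous g) {B : ℝ} (hB : ∀ x, ‖g x‖ ≤ B) (ha : HA g) :
    Hinf g := by
  refine ⟨?_, ha⟩
  exact MemLp.of_bound hg.aestronglyMeasurable B (Eventually.of_forall hB)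

/-- boundary values of a function analytic on a larger disc -/
theorem MAT_Hinf_an {f : ℂ → ℂ} {ρ : ℝ} (hρ : 1 < ρ) (hf : DifferentiableOn ℂ f (Metric.ball 0 ρ)) :
    Hinf (fun x => f (E (x, 0))) := by
  have hfc : ContinuousOn f (Metric.closedBall 0 1) :=
    hf.continuousOn.mono (Metric.closedBall_subset_ball hρ)
  obtain ⟨B, hB0, hB⟩ := hp_bdd hfc
  have h1 := HA_of_analytic (Real.log ρ) (Real.log_pos hρ) (hp f) _ _ (C1_hp (by linarith) hf) B hB
    (fun p _ => by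
      have : hp (Dz f) p + Complex.I * (Complex.I * hp (Dz f) p)
          = (1 + Complex.I * Complex.I) * hp (Dz f) p := by ring
      rw [this, Complex.I_mul_I]; ring)
  refine MAT_Hinf_of_cont ?_ (B := B) (fun x => hB (x, 0) le_rfl) h1
  exact hfc.comp_continuous MAT_cont_E MAT_E_mem

/-- vector version of the main estimate -/
theorem MAT_vec {δ ρ : ℝ} {a b F : ℂ → ℂ} (H : Dat δ ρ a b F) (w : ℝ × ℝ → ℂ) (t A : ℝ)
    (hA : 0 ≤ A)
    (hest : ∀ (f k : ℂ → ℂ) (ρ' : ℝ), 1 < ρ' →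
          DifferentiableOn ℂ f (Metric.ball 0 ρ') → f 0 = 0 →
          ContinuousOn k (Metric.closedBall 0 1) → DifferentiableOn ℂ k (Metric.ball 0 1) →
          (∀ z ∈ Metric.closedBall (0 : ℂ) 1,
            ‖f z‖ ≤ Real.exp (-(t * OscD a b F z / 2)) * ‖k z‖ ^ 2) →
          ‖∫ x in Set.Ioc 0 (2 * Real.pi), w (x, 0) * f (E (x, 0))‖
            ≤ A * ∫ x in Set.Ioc 0 (2 * Real.pi), ‖k (E (x, 0))‖ ^ 2)
    (N : ℕ) (K : Fin N → ℂ → ℂ) (hK : ∀ i, DifferentiableOn ℂ (K i) (Metric.ball 0 ρ))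
    (hKO : ∀ z ∈ Metric.closedBall (0 : ℂ) 1,
      ∑ i, ‖K i z‖ ^ 2 ≤ Real.exp (-(t * OscD a b F z)))
    (p : Fin N → Polynomial ℂ) :
    ‖∫ x in Set.Ioc 0 (2 * Real.pi),
        w (x, 0) * ∑ i, K i (E (x, 0)) * (E (x, 0) * (p i).eval (E (x, 0)))‖
      ≤ A * ∫ x in Set.Ioc 0 (2 * Real.pi),
          Real.sqrt (∑ i, ‖E (x, 0) * (p i).eval (E (x, 0))‖ ^ 2) := by
  have hρ := H.hρ
  set f : ℂ → ℂ := fun z => ∑ i, K i z * (z * (p i).eval z) with hf
  have hfd : DifferentiableOn ℂ f (Metric.ball 0 ρ) := by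
    rw [hf]
    have : DifferentiableOn ℂ (∑ i, fun z => K i z * (z * (p i).eval z)) (Metric.ball 0 ρ) := by
      apply DifferentiableOn.sum
      intro i _
      exact (hK i).mul ((differentiable_id.mul (p i).differentiable).differentiableOn)
    refine this.congr (fun z _ => ?_)
    simp
  have hf0 : f 0 = 0 := by simp [hf]
  have hsc : Continuous (fun x : ℝ => Real.sqrt (∑ i, ‖E (x, 0) * (p i).eval (E (x, 0))‖ ^ 2)) := by
    apply Continuous.sqrt
    refine continuous_finsetSum _ (fun i _ => ?_)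
    exact ((MAT_cont_E.mul ((p i).continuous.comp MAT_cont_E)).norm).pow 2
  have key : ∀ s : ℝ, 0 < s →
      ‖∫ x in Set.Ioc 0 (2 * Real.pi), w (x, 0) * f (E (x, 0))‖
        ≤ A * ((∫ x in Set.Ioc 0 (2 * Real.pi),
          Real.sqrt (∑ i, ‖E (x, 0) * (p i).eval (E (x, 0))‖ ^ 2)) + s * (2 * Real.pi)) := by
    intro s hs
    obtain ⟨k, hkc, hkd, hk1, hk2⟩ := KV N (fun i => Polynomial.X * p i) s hs
    have h1 := hest f k ρ hρ hfd hf0 hkc hkd (by
      intro z hz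
      have e1 : ‖f z‖ ≤ ∑ i, ‖K i z‖ * ‖z * (p i).eval z‖ := by
        rw [hf]
        exact (norm_sum_le _ _).trans (le_of_eq (Finset.sum_congr rfl fun i _ => norm_mul _ _))
      have e2 : (∑ i, ‖K i z‖ * ‖z * (p i).eval z‖) ^ 2
          ≤ (∑ i, ‖K i z‖ ^ 2) * ∑ i, ‖z * (p i).eval z‖ ^ 2 :=
        Finset.sum_mul_sq_le_sq_mul_sq _ _ _
      have e3 : ∑ i, ‖z * (p i).eval z‖ ^ 2 ≤ ‖k z‖ ^ 4 := by
        have := hk1 z hz
        simpa [Polynomial.eval_mul] using this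
      have e4 : ‖f z‖ ^ 2 ≤ (Real.exp (-(t * OscD a b F z / 2)) * ‖k z‖ ^ 2) ^ 2 := by
        calc ‖f z‖ ^ 2 ≤ (∑ i, ‖K i z‖ * ‖z * (p i).eval z‖) ^ 2 := by
              gcongr
          _ ≤ (∑ i, ‖K i z‖ ^ 2) * ∑ i, ‖z * (p i).eval z‖ ^ 2 := e2
          _ ≤ Real.exp (-(t * OscD a b F z)) * ‖k z‖ ^ 4 := by
              gcongr
              exact hKO z hz
          _ = _ := by
              rw [mul_pow, ← Real.exp_nat_mul]
              congr 1
              · congr 1; push_cast; ring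
              · ring
      exact le_of_sq_le_sq e4 (by positivity) )
    refine h1.trans ?_
    gcongr
    have hkk : ∀ x : ℝ, ‖k (E (x, 0))‖ ^ 2
        = Real.sqrt ((∑ i, ‖E (x, 0) * (p i).eval (E (x, 0))‖ ^ 2) + s ^ 2) := by
      intro x
      rw [← Real.sqrt_sq (show (0 : ℝ) ≤ ‖k (E (x, 0))‖ ^ 2 by positivity)]
      congr 1
      have := hk2 x
      simp only [Polynomial.eval_mul, Polynomial.eval_X] at this
      rw [← this]; ring
    simp_rw [hkk]
    have hle : ∀ x : ℝ, Real.sqrt ((∑ i, ‖E (x, 0) * (p i).eval (E (x, 0))‖ ^ 2) + s ^ 2)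
        ≤ Real.sqrt (∑ i, ‖E (x, 0) * (p i).eval (E (x, 0))‖ ^ 2) + s := by
      intro x
      have h0 : 0 ≤ ∑ i, ‖E (x, 0) * (p i).eval (E (x, 0))‖ ^ 2 :=
        Finset.sum_nonneg fun i _ => by positivity
      refine Real.sqrt_le_iff.2 ⟨by positivity, ?_⟩
      have := Real.sq_sqrt h0
      nlinarith [Real.sqrt_nonneg (∑ i, ‖E (x, 0) * (p i).eval (E (x, 0))‖ ^ 2)]
    have hi1 : IntegrableOn (fun x : ℝ =>
        Real.sqrt ((∑ i, ‖E (x, 0) * (p i).eval (E (x, 0))‖ ^ 2) + s ^ 2))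
        (Set.Ioc 0 (2 * Real.pi)) := by
      apply Continuous.integrableOn_Ioc
      apply Continuous.sqrt
      refine (continuous_finsetSum _ (fun i _ => ?_)).add continuous_const
      exact ((MAT_cont_E.mul ((p i).continuous.comp MAT_cont_E)).norm).pow 2
    have hi2 : IntegrableOn (fun x : ℝ =>
        Real.sqrt (∑ i, ‖E (x, 0) * (p i).eval (E (x, 0))‖ ^ 2)) (Set.Ioc 0 (2 * Real.pi)) :=
      hsc.integrableOn_Ioc
    have hi3 : IntegrableOn (fun _ : ℝ => s) (Set.Ioc 0 (2 * Real.pi)) :=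
      continuous_const.integrableOn_Ioc
    calc _ ≤ ∫ x in Set.Ioc 0 (2 * Real.pi),
          (Real.sqrt (∑ i, ‖E (x, 0) * (p i).eval (E (x, 0))‖ ^ 2) + s) :=
          setIntegral_mono hi1 (hi2.add hi3) hle
      _ = _ := by
          rw [integral_add hi2 hi3]
          congr 1
          rw [setIntegral_const]
          simp [Real.pi_pos.le]
          ring
  refine le_of_forall_pos_le_add (fun η hη => ?_)
  have hπ := Real.pi_pos
  have := key (η / ((A + 1) * (2 * Real.pi))) (by positivity)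
  refine this.trans ?_
  have e1 : A * (η / ((A + 1) * (2 * Real.pi)) * (2 * Real.pi)) ≤ η := by
    have : A * (η / ((A + 1) * (2 * Real.pi)) * (2 * Real.pi)) = A / (A + 1) * η := by
      field_simp
    rw [this]
    have : A / (A + 1) ≤ 1 := by rw [div_le_one (by linarith)]; linarith
    nlinarith
  linarith

/-- **(MAT)** Main analytic theorem. -/
theorem MAT (δ : ℝ) (hδ : 0 < δ) (hδ2 : δ ≤ 1 / 2) :
    ∃ (C : ℝ) (ε : ℝ → ℝ) (Θ : ℝ → ℝ → ℝ), 0 < C ∧ Tendsto ε atTop (𝓝 0) ∧ (∀ t, 0 ≤ ε t) ∧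
      (∀ v, Continuous (Θ v)) ∧ (∀ v q, 0 ≤ q → q ≤ 1 → |Θ v q| ≤ C) ∧
      ∀ (ρ : ℝ) (a b F : ℂ → ℂ), Dat δ ρ a b F → ∀ e : ℝ, 0 < e → e ≤ 1 →
      ∃ φ w c : ℝ → ℂ, Continuous φ ∧ MemLp w ⊤ mu ∧ BD w C ∧ Hinf c ∧ BD c C ∧
        (∀ x, (φ x).re = Θ ‖a 0‖ (‖a (E (x, 0))‖ ^ 2)) ∧
        HA (fun x => φ x - b (E (x, 0)) * w x) ∧
        (∀ᵐ x ∂mu, Complex.exp (φ x - b (E (x, 0)) * w x)
          = a (E (x, 0)) + b (E (x, 0)) * c x) ∧
        ∀ t : ℝ, 1 ≤ t → ∀ (N : ℕ) (K : Fin N → ℂ → ℂ),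
          (∀ i, DifferentiableOn ℂ (K i) (Metric.ball 0 ρ)) →
          (∀ z ∈ Metric.closedBall (0 : ℂ) 1,
            ∑ i, ‖K i z‖ ^ 2 ≤ Real.exp (-(t * OscD a b F z))) →
          ∀ p : Fin N → Polynomial ℂ,
          ‖∫ x in Set.Ioc 0 (2 * Real.pi),
              ∑ i, w x * K i (E (x, 0)) * (E (x, 0) * (p i).eval (E (x, 0)))‖
            ≤ (ε t + e) * ∫ x in Set.Ioc 0 (2 * Real.pi),
                Real.sqrt (∑ i, ‖E (x, 0) * (p i).eval (E (x, 0))‖ ^ 2) := by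
  obtain ⟨C₀, ε, Θ, hC₀, hε, hε0, hΘc, hΘb, key⟩ := MID δ hδ hδ2
  set C₁ := Real.exp 1 * (ε 1 + 1) with hC₁
  have hC₁0 : 0 ≤ C₁ := by have := hε0 1; positivity
  set M := max C₀ C₁ with hM
  have hM0 : 0 < M := lt_of_lt_of_le hC₀ (le_max_left _ _)
  have he2 : 0 < eps2 δ := eps2_pos δ
  set Cc := (Real.exp (2 * M) + 1) / (eps2 δ / 2) + M * Real.exp M with hCc
  have hCc0 : 0 ≤ Cc := by positivity
  refine ⟨M + Cc, ε, Θ, by linarith, hε, hε0, hΘc, fun v q h0 h1 => (hΘb v q h0 h1).trans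
    ((le_max_left _ _).trans (by linarith)), ?_⟩
  intro ρ a b F H e he he1
  obtain ⟨σ, φ, φx, φy, w, wx, wy, hσ, hσρ, hφ, hw, hφre, hφw, hφe, ⟨B, hB⟩, hest⟩ :=
    key ρ a b F H e he he1
  have hρ := H.hρ
  have hcts : ∀ {u ux uy : ℝ × ℝ → ℂ}, C1 σ u ux uy → Continuous (fun x : ℝ => u (x, 0)) := by
    intro u ux uy hu
    exact hu.c.comp_continuous (by fun_prop) (fun x => show -σ < (0 : ℝ) by linarith)
  have hwc : Continuous (fun x : ℝ => w (x, 0)) := hcts hw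
  have hwB : ∀ x : ℝ, ‖w (x, 0)‖ ≤ B := fun x => (hB (x, 0) le_rfl).2
  -- vector estimates
  have hvec : ∀ t : ℝ, 1 ≤ t → ∀ (N : ℕ) (K : Fin N → ℂ → ℂ),
      (∀ i, DifferentiableOn ℂ (K i) (Metric.ball 0 ρ)) →
      (∀ z ∈ Metric.closedBall (0 : ℂ) 1,
        ∑ i, ‖K i z‖ ^ 2 ≤ Real.exp (-(t * OscD a b F z))) →
      ∀ p : Fin N → Polynomial ℂ,
      ‖∫ x in Set.Ioc 0 (2 * Real.pi),
          w (x, 0) * ∑ i, K i (E (x, 0)) * (E (x, 0) * (p i).eval (E (x, 0)))‖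
        ≤ (ε t + e) * ∫ x in Set.Ioc 0 (2 * Real.pi),
            Real.sqrt (∑ i, ‖E (x, 0) * (p i).eval (E (x, 0))‖ ^ 2) := by
    intro t ht N K hK hKO p
    exact MAT_vec H w t (ε t + e) (by have := hε0 t; linarith)
      (fun f k ρ' h1 h2 h3 h4 h5 h6 => hest t ht f k ρ' h1 h2 h3 h4 h5 h6) N K hK hKO p
  -- duality
  have hO2 : ∀ z ∈ Metric.closedBall (0 : ℂ) 1, OscD a b F z ≤ 2 := by
    intro z hz
    have h1 := H.hO2 z (Metric.closedBall_subset_ball hρ hz)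
    unfold OscD
    nlinarith [sq_nonneg ‖a z‖, sq_nonneg ‖b z‖]
  have hdu := DU 1 (fun x _ => w (x, 0)) (fun _ => by
      exact (MemLp.of_bound hwc.aestronglyMeasurable B (Eventually.of_forall hwB) : MemLp _ 2 mu))
    C₁ hC₁0 (by
      intro p
      have h1 := hvec 1 le_rfl 1 (fun _ _ => ((Real.exp (-1) : ℝ) : ℂ))
        (fun _ => differentiableOn_const _) (by
          intro z hz
          have := hO2 z hz
          simp only [Finset.univ_unique, Finset.sum_const, Finset.card_singleton, one_smul]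
          rw [Complex.norm_real, Real.norm_of_nonneg (Real.exp_pos _).le, ← Real.exp_nat_mul]
          apply Real.exp_le_exp.2
          push_cast; linarith) p
      have h2 : ∀ x : ℝ, w (x, 0) * ∑ i, ((Real.exp (-1) : ℝ) : ℂ) * (E (x, 0) * (p i).eval (E (x, 0)))
          = ((Real.exp (-1) : ℝ) : ℂ) * ∑ i, w (x, 0) * (E (x, 0) * (p i).eval (E (x, 0))) := by
        intro x
        simp only [Finset.univ_unique, Finset.sum_singleton]; ring
      simp_rw [h2] at h1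
      rw [integral_const_mul, norm_mul, Complex.norm_real, Real.norm_of_nonneg (Real.exp_pos _).le] at h1
      have h3 : 0 ≤ ∫ x in Set.Ioc 0 (2 * Real.pi),
          Real.sqrt (∑ i, ‖E (x, 0) * (p i).eval (E (x, 0))‖ ^ 2) :=
        integral_nonneg fun x => Real.sqrt_nonneg _
      set I := ∫ x in Set.Ioc 0 (2 * Real.pi),
          Real.sqrt (∑ i, ‖E (x, 0) * (p i).eval (E (x, 0))‖ ^ 2)
      set J := ‖∫ x in Set.Ioc 0 (2 * Real.pi), ∑ i, w (x, 0) * (E (x, 0) * (p i).eval (E (x, 0)))‖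
      have h4 : J = Real.exp 1 * (Real.exp (-1) * J) := by
        rw [← mul_assoc, ← Real.exp_add]; simp
      rw [h4, hC₁]
      calc Real.exp 1 * (Real.exp (-1) * J) ≤ Real.exp 1 * ((ε 1 + e) * I) := by gcongr
        _ ≤ Real.exp 1 * ((ε 1 + 1) * I) := by gcongr
        _ = _ := by ring)
  obtain ⟨g', hg', hg'C⟩ := hdu
  set g : ℝ → ℂ := fun x => g' x 0 with hg
  have hwg : BD (fun x => w (x, 0) - g x) C₁ := by
    filter_upwards [hg'C] with x hx
    simp only [Finset.univ_unique, Finset.sum_singleton] at hx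
    exact (abs_le_of_sq_le_sq' hx hC₁0).2
  have hgi : Hinf g := by
    refine ⟨?_, (hg' 0).ha⟩
    refine MemLp.of_bound (hg' 0).mem.1 (C₁ + B) ?_
    filter_upwards [hwg] with x hx
    have : g x = w (x, 0) - (w (x, 0) - g x) := by ring
    rw [this]
    exact (norm_sub_le _ _).trans (by linarith [hwB x])
  have hre : ∀ x : ℝ, |(φ (x, 0)).re| ≤ M := by
    intro x
    rw [hφre (x, 0) (by show -σ < 0; linarith)]
    refine (hΘb _ _ (by positivity) ?_).trans (le_max_left _ _)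
    have := H.ha1 (E (x, 0)) (Metric.closedBall_subset_ball hρ (MAT_E_mem x))
    exact pow_le_one₀ (norm_nonneg _) this
  obtain ⟨hHA, c, hc, hcB, hce⟩ := MC ρ hρ a b H.ha H.hb H.ha1 H.hb1 (eps2 δ / 2) (by linarith) σ hσ hσρ
    φ φx φy w wx wy hφ hw hφw hφe B hB M hM0.le hre g hgi (by
      filter_upwards [hwg] with x hx
      exact hx.trans (le_max_right _ _))
  refine ⟨fun x => φ (x, 0), fun x => w (x, 0) - g x, c, hcts hφ, ?_, ?_, hc, ?_, ?_, hHA, hce, ?_⟩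
  · exact (MemLp.of_bound hwc.aestronglyMeasurable B (Eventually.of_forall hwB)).sub hgi.mem
  · filter_upwards [hwg] with x hx
    exact hx.trans ((le_max_right _ _).trans (by linarith))
  · filter_upwards [hcB] with x hx
    exact hx.trans (by linarith)
  · intro x
    exact hφre (x, 0) (by show -σ < 0; linarith)
  · intro t ht N K hK hKO p
    have h1 := hvec t ht N K hK hKO p
    set f1 : ℂ → ℂ := fun z => ∑ i, K i z * (p i).eval z with hf1
    have hf1d : DifferentiableOn ℂ f1 (Metric.ball 0 ρ) := by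
      have : DifferentiableOn ℂ (∑ i, fun z => K i z * (p i).eval z) (Metric.ball 0 ρ) := by
        apply DifferentiableOn.sum
        intro i _
        exact (hK i).mul ((p i).differentiable.differentiableOn)
      refine this.congr (fun z _ => ?_)
      simp [hf1]
    have hf1i := MAT_Hinf_an hρ hf1d
    have hgf := (Hinf.mul hgi hf1i).ha 0
    have hf1c : Continuous (fun x : ℝ => f1 (E (x, 0))) :=
      (hf1d.continuousOn.mono (Metric.closedBall_subset_ball hρ)).comp_continuous MAT_cont_E MAT_E_mem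
    have e1 : ∀ x : ℝ, ∑ i, (w (x, 0) - g x) * K i (E (x, 0)) * (E (x, 0) * (p i).eval (E (x, 0)))
        = w (x, 0) * (∑ i, K i (E (x, 0)) * (E (x, 0) * (p i).eval (E (x, 0))))
          - Complex.exp ((((0 : ℕ) : ℂ) + 1) * Complex.I * (x : ℂ)) * (g x * f1 (E (x, 0))) := by
      intro x
      have hE : Complex.exp ((((0 : ℕ) : ℂ) + 1) * Complex.I * (x : ℂ)) = E (x, 0) := by
        rw [E_zero]; simp
      rw [hE]
      simp only [hf1, Finset.mul_sum, ← Finset.sum_sub_distrib]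
      refine Finset.sum_congr rfl (fun i _ => ?_)
      ring
    have hi1 : IntegrableOn (fun x : ℝ =>
        w (x, 0) * (∑ i, K i (E (x, 0)) * (E (x, 0) * (p i).eval (E (x, 0)))))
        (Set.Ioc 0 (2 * Real.pi)) := by
      apply Continuous.integrableOn_Ioc
      refine hwc.mul (continuous_finsetSum _ (fun i _ => ?_))
      exact (((hK i).continuousOn.mono (Metric.closedBall_subset_ball hρ)).comp_continuous
        MAT_cont_E MAT_E_mem).mul (MAT_cont_E.mul ((p i).continuous.comp MAT_cont_E))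
    have hi2 : IntegrableOn (fun x : ℝ =>
        Complex.exp ((((0 : ℕ) : ℂ) + 1) * Complex.I * (x : ℂ)) * (g x * f1 (E (x, 0))))
        (Set.Ioc 0 (2 * Real.pi)) := by
      have h2 : MemLp (fun x => g x * f1 (E (x, 0))) ⊤ mu := (Hinf.mul hgi hf1i).mem
      have h3 : Integrable (fun x => g x * f1 (E (x, 0))) mu := h2.integrable (by simp)
      have h4 := h3.bdd_mul (c := 1)
        (f := fun x : ℝ => Complex.exp ((((0 : ℕ) : ℂ) + 1) * Complex.I * (x : ℂ)))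
        (by fun_prop) (Eventually.of_forall fun x => by
          rw [Complex.norm_exp]; simp)
      exact h4
    simp_rw [e1]
    rw [integral_sub hi1 hi2, hgf, sub_zero]
    exact h1

end Pool.H14.SR

end S_MAT
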